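import Pool.Agent.Helper70.BI.StF2

/-!
# Project BI, stage 2: the main theorem in the 4-sphere, from `StW4` and `StMain2`
-/

set_option autoImplicit false

open scoped Manifold ContDiff Topology ComplexConjugate
open Set Filter Pool.Agent.Helper65.Barb Pool.Agent.Helper18.BI

namespace Pool.Agent.Helper70.BI

namespace Fin2

theorem sph_sub_flat (c : ℝ) : sph c ⊆ flat c := fun _ hp => ⟨hp.1, hp.2.le⟩

theorem SP_sub_FB : SP ⊆ FB := by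
  rintro p ((hp | hp) | hp)
  · exact Or.inl (Or.inl (sph_sub_flat 0 hp))
  · exact Or.inl (Or.inr (sph_sub_flat 1 hp))
  · exact Or.inr hp

theorem isCompact_flat (c : ℝ) : IsCompact (flat c) := by
  apply Metric.isCompact_of_isClosed_isBounded
  · apply IsClosed.inter (isClosed_eq continuous_fst continuous_const)
    exact isClosed_le (continuous_rsq c) continuous_const
  · exact (isBounded_of_rsq c (1 / 25) (1 / 2) (1 / 2)).subset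
      (fun p hp => ⟨hp.1.ge, hp.1.le, hp.2⟩)

theorem SP_sub_NB : SP ⊆ Pool.Agent.Helper65.Barb.NB := by
  have rsq_eq : ∀ (c : ℝ) (p : R4),
      rsq c p = (p.2.1 - c) ^ 2 + p.2.2.re ^ 2 + p.2.2.im ^ 2 := fun _ _ => rfl
  rintro p ((hp | hp) | hp)
  · obtain ⟨h1, h2⟩ := hp
    rw [rsq_eq] at h2
    refine ⟨⟨by rw [h1]; norm_num, by rw [h1]; norm_num, ?_⟩, ?_, ?_⟩ <;> rw [rsq_eq]
    · nlinarith [sq_nonneg p.2.2.re, sq_nonneg p.2.2.im]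
    · nlinarith [sq_nonneg p.2.2.re, sq_nonneg p.2.2.im]
    · have h3 : p.2.1 ^ 2 ≤ (1 / 5) ^ 2 := by
        nlinarith [sq_nonneg p.2.2.re, sq_nonneg p.2.2.im]
      have h4 : p.2.1 ≤ 1 / 5 := abs_le_of_sq_le_sq' h3 (by norm_num) |>.2
      nlinarith [sq_nonneg p.2.2.re, sq_nonneg p.2.2.im]
  · obtain ⟨h1, h2⟩ := hp
    rw [rsq_eq] at h2
    have h3 : (p.2.1 - 1) ^ 2 ≤ (1 / 5) ^ 2 := by
      nlinarith [sq_nonneg p.2.2.re, sq_nonneg p.2.2.im]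
    have h4 := abs_le_of_sq_le_sq' h3 (by norm_num)
    refine ⟨⟨by rw [h1]; norm_num, by rw [h1]; norm_num, ?_⟩, ?_, ?_⟩ <;> rw [rsq_eq]
    · nlinarith [sq_nonneg p.2.2.re, sq_nonneg p.2.2.im]
    · nlinarith [sq_nonneg p.2.2.re, sq_nonneg p.2.2.im]
    · nlinarith [sq_nonneg p.2.2.re, sq_nonneg p.2.2.im]
  · obtain ⟨h1, h2, h3, h4⟩ := hp
    refine ⟨⟨by rw [h1]; norm_num, by rw [h1]; norm_num, ?_⟩, ?_, ?_⟩ <;> rw [rsq_eq, h4] <;>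
      simp only [Complex.zero_re, Complex.zero_im] <;> nlinarith

end Fin2

open Fin2 in
theorem m_Final2 (hW4 : StW4) (hMain : StMain2) (hR3 : Pool.Agent.Helper18.BI.StR3)
    (hA1 : StA1) (hT2 : StT2) (hT4 : StT4) (hX1 : StX1) (hX2 : StX2) (hX3 : StX3) (hCI : StCI)
    {W : R4 → R4} (hW : IsW W) : StFinal2 := by
  obtain ⟨W₄, c₀, F₀, α₀, β₀, k1, k2, k3, k4, k5, k6, k7⟩ := hW4 W hW
  obtain ⟨-, tii, -, -, tv, -, -⟩ := hT2 _ _ (𝓡 4) S4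
  obtain ⟨-, cs, cself, ct, cc, -, -, cconj, ciso, -⟩ := hCI _ _ (𝓡 4) S4
  have hE₀ : EmbOn (𝓡 4) F₀ SP := ⟨fun p hp => k6.loc p (SP_sub_FB hp), k6.inj⟩
  obtain ⟨B₀, hB₀, hBF, hiso⟩ := hR3 _ _ (𝓡 4) S4 F₀ W₄ hE₀ k7
  obtain ⟨δ₀, hδ, hδF⟩ := hA1 R4 _ _ (𝓡 4) S4 F₀ (flat 0 ∪ flat 1)
    ((isCompact_flat 0).union (isCompact_flat 1))
    (fun p hp => k6.loc p (Or.inl hp)) k6.balls
  have hWi : implantation B₀ barMap = push B₀ barMap :=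
    implantation_eq_push B₀ hB₀ isBarbellMap_barMap
  rw [← hWi] at hiso
  have sW : CIsot (𝓡 4) (implantation B₀ barMap) (implantation B₀ barMap) :=
    ct _ _ _ (cs _ _ hiso) hiso
  refine ⟨implantation B₀ barMap, B₀, δ₀, ⟨hB₀, hδ, fun p hp => ?_, rfl⟩, ?_, ?_, ?_, ?_⟩
  · have hp' : p ∈ flat 0 ∪ flat 1 := hp.imp (fun h => sph_sub_flat 0 h) fun h => sph_sub_flat 1 h
    rw [hδF p (hδ hp'), hBF p hp]
  · -- order two
    have h1 := cc _ _ _ _ hiso hiso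
    exact ciso _ _ (ct _ _ _ (cs _ _ h1) k3)
  · -- centrality
    intro Ψ Ψ' hΨ hΨ' i1 i2
    have h1 := cconj _ _ Ψ Ψ' hiso hΨ hΨ' i1 i2
    exact ciso _ _ (ct _ _ _ (cs _ _ h1) (ct _ _ _ (k4 Ψ Ψ' hΨ hΨ' i1 i2) hiso))
  · -- theta barbells
    intro B β G U a b hB hβ hG hU hsU heq
    obtain ⟨-, hT⟩ := hT4 B β hB hβ
    have h1 : Thin (𝓡 4) B W₄ :=
      tv G B U W₄ hU hsU (fun p hp => (heq hp).symm) (k1 G a b hG)
    exact ciso _ _ (ct _ _ _ (tii _ _ _ hT h1) hiso)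
  · -- bar independence
    intro B B' β β' U hB hB' hβ hβ' hU hsU heq
    obtain ⟨hE, hT⟩ := hT4 B β hB hβ
    obtain ⟨hE', hT'⟩ := hT4 B' β' hB' hβ'
    obtain ⟨c, hc, hBc, hBc'⟩ := hX2 B B' (SP_sub_NB.trans hB) (SP_sub_NB.trans hB')
    obtain ⟨hF, U1, hU1o, hU1s, hU1⟩ := hX3 _ _ (𝓡 4) S4 c B SP hc hE hBc
    obtain ⟨hF', U2, hU2o, hU2s, hU2⟩ := hX3 _ _ (𝓡 4) S4 c B' SP hc hE' hBc'
    obtain ⟨z1, -, z3, z4, -⟩ := hX1 _ _ (𝓡 4) S4 c hc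
    obtain ⟨ε₁, hε₁, hφ⟩ := (hT2 _ _ 𝓘(ℝ, R4) R4).1 _ hF
    obtain ⟨ε₂, hε₂, hφ'⟩ := (hT2 _ _ 𝓘(ℝ, R4) R4).1 _ hF'
    have hφ := hφ (ε₁ / 2) ⟨by positivity, by linarith⟩
    have hφ' := hφ' (ε₂ / 2) ⟨by positivity, by linarith⟩
    generalize imp ((fun p => Function.invFun c (B p)) ∘ sq (ε₁ / 2)) bsupp barMap = φ at hφ
    generalize imp ((fun p => Function.invFun c (B' p)) ∘ sq (ε₂ / 2)) bsupp barMap = φ' at hφ'
    have hor := hMain W _ _ φ φ' U hW hF hF' hU hsU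
      (by
        intro p hp
        have : B p = B' p := heq hp
        simp only [this]) hφ hφ'
    have q1 : CIsot (𝓡 4) (imp c univ φ) (implantation B β) :=
      tii B _ _ (tv _ _ U1 _ hU1o hU1s (fun p hp => hU1 p hp) (z3 _ _ hφ)) hT
    have q2 : CIsot (𝓡 4) (imp c univ φ') (implantation B' β') :=
      tii B' _ _ (tv _ _ U2 _ hU2o hU2s (fun p hp => hU2 p hp) (z3 _ _ hφ')) hT'
    rcases hor with h | h
    · exact Or.inl (ciso _ _ (ct _ _ _ (cs _ _ q2) (ct _ _ _ (z1 _ _ h) q1)))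
    · right
      have h1 := z1 _ _ h
      have e : imp c univ (fun x => W (φ x)) = fun y => imp c univ W (imp c univ φ y) :=
        funext (z4 W φ)
      rw [e] at h1
      have h2 : CIsot (𝓡 4) (imp c univ W) (implantation B₀ barMap) := ct _ _ _ (k2 c hc) hiso
      have h3 := cc _ _ _ _ h2 q1
      exact ciso _ _ (ct _ _ _ (cs _ _ q2) (ct _ _ _ h1 h3))

end Pool.Agent.Helper70.BI
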