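import Pool.Agent.Helper70.BI.StF2

/-!
# Project BI, stage 2, module ThM: theta germs, the two definitions, transport
-/

set_option autoImplicit false

open scoped Manifold ContDiff Topology ComplexConjugate
open Set Filter Pool.Agent.Helper65.Barb Pool.Agent.Helper18.BI

namespace Pool.Agent.Helper70.BI

namespace ThM

theorem sph_sub_flat (c : ℝ) : sph c ⊆ flat c := fun _ hp => ⟨hp.1, hp.2.le⟩

theorem SP_sub_FB : SP ⊆ FB := by
  rintro p ((hp | hp) | hp)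
  · exact Or.inl (Or.inl (sph_sub_flat 0 hp))
  · exact Or.inl (Or.inr (sph_sub_flat 1 hp))
  · exact Or.inr hp

theorem flat_sub_FB {c : ℝ} (hc : c = 0 ∨ c = 1) : flat c ⊆ FB := by
  rcases hc with rfl | rfl
  · exact fun p hp => Or.inl (Or.inl hp)
  · exact fun p hp => Or.inl (Or.inr hp)

theorem ax_mem {a : ℝ} (h : a ∈ Icc (1 / 5 : ℝ) (4 / 5)) : ax a ∈ FB :=
  Or.inr ⟨rfl, h.1, h.2, rfl⟩

theorem nsq_sub (c : ℝ) (x : R3) : nsq (x - pc c) = rsq c (1 / 2, x) := by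
  unfold rsq nsq pc
  simp

theorem contDiff_ax : ContDiff ℝ ∞ ax := by
  unfold ax
  exact contDiff_const.prodMk (contDiff_id.prodMk contDiff_const)

theorem hasDerivAt_ax (a : ℝ) : HasDerivAt ax (0, ((1 : ℝ), (0 : ℂ))) a :=
  (hasDerivAt_const a _).prodMk ((hasDerivAt_id a).prodMk (hasDerivAt_const a _))

theorem core_deriv {F : R4 → R4} {γ : ℝ} (h : LD F (ax γ)) :
    HasDerivAt (core F) (fderiv ℝ F (ax γ) (0, ((1 : ℝ), (0 : ℂ)))) γ := by
  have h1 : HasFDerivAt F (fderiv ℝ F (ax γ)) (ax γ) :=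
    ((ld_iff.1 h).1.self_of_nhds.differentiableAt (by simp)).hasFDerivAt
  exact h1.comp_hasDerivAt γ (hasDerivAt_ax γ)

theorem crossAt_of {F : R4 → R4} {c γ : ℝ} (hγ : LD F (ax γ)) (hf : ∀ p ∈ flat c, LD F p)
    (h : CrossM F c γ) : ∃ e : ℝ, (e = 1 ∨ e = -1) ∧ CrossAt F c γ e := by
  obtain ⟨y, hy, hy1, hy2, hl, hev⟩ := h
  have hyx : y γ = (1 / 2, (y γ).2) := by rw [← hy1]
  obtain ⟨e, he, hel⟩ : ∃ e : ℝ, (e = 1 ∨ e = -1) ∧ 0 < e * (deriv y γ).1 := by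
    rcases lt_or_gt_of_ne hl with h | h
    · exact ⟨-1, Or.inr rfl, by linarith⟩
    · exact ⟨1, Or.inl rfl, by linarith⟩
  refine ⟨e, he, (y γ).2, ?_, ?_, (deriv y γ).1, (deriv y γ).2, hel, ?_⟩
  · rw [nsq_sub, ← hyx]; exact hy2
  · rw [← hyx]; exact hev.self_of_nhds
  · have hmem : y γ ∈ flat c := ⟨hy1, hy2.le⟩
    have d1 := core_deriv hγ
    have d2 : HasDerivAt (fun a => F (y a)) (fderiv ℝ F (y γ) (deriv y γ)) γ := by
      have h1 : HasFDerivAt F (fderiv ℝ F (y γ)) (y γ) :=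
        ((ld_iff.1 (hf _ hmem)).1.self_of_nhds.differentiableAt (by simp)).hasFDerivAt
      exact h1.comp_hasDerivAt γ (hy.differentiableAt (by simp)).hasDerivAt
    have d3 := d2.congr_of_eventuallyEq (f₁ := core F) hev
    rw [d1.unique d3, ← hyx]

theorem crossM_of {F : R4 → R4} {c γ e : ℝ} (hγ : LD F (ax γ)) (hf : ∀ p ∈ flat c, LD F p)
    (h : CrossAt F c γ e) : CrossM F c γ := by
  obtain ⟨x₀, hx, hcore, l, v, hl, hd⟩ := h
  have hmem : ((1 / 2 : ℝ), x₀) ∈ flat c := by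
    refine ⟨rfl, ?_⟩
    rw [← nsq_sub]; exact hx.le
  obtain ⟨Φ, hΦ, heq⟩ := hf _ hmem
  have hcont : ContDiffAt ℝ ∞ (core F) γ :=
    ((ld_iff.1 hγ).1.self_of_nhds).comp γ contDiff_ax.contDiffAt
  have htgt : core F γ ∈ Φ.target := by
    rw [hcore, heq hΦ]
    exact Φ.map_source hΦ
  have hsymm : ContDiffAt ℝ ∞ Φ.symm (core F γ) := by
    have h1 : ContMDiffOn 𝓘(ℝ, R4) 𝓘(ℝ, R4) ∞ Φ.symm Φ.target := Φ.contMDiffOn_invFun
    exact (contMDiffOn_iff_contDiffOn.1 h1).contDiffAt (Φ.open_target.mem_nhds htgt)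
  have hyγ : Φ.symm (core F γ) = (1 / 2, x₀) := by
    rw [hcore, heq hΦ]
    exact Φ.left_inv hΦ
  have hy : ContDiffAt ℝ ∞ (fun a => Φ.symm (core F a)) γ := hsymm.comp γ hcont
  have hev : ∀ᶠ a in 𝓝 γ, F (1 / 2, (a, 0)) = F (Φ.symm (core F a)) := by
    filter_upwards [hcont.continuousAt.preimage_mem_nhds (Φ.open_target.mem_nhds htgt)] with a ha
    have h1 : Φ.symm (core F a) ∈ Φ.source := Φ.map_target ha
    rw [heq h1]
    exact (Φ.right_inv ha).symm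
  refine ⟨fun a => Φ.symm (core F a), hy, ?_, ?_, ?_, hev⟩
  · show (Φ.symm (core F γ)).1 = 1 / 2
    rw [hyγ]
  · show rsq c (Φ.symm (core F γ)) < 1 / 25
    rw [hyγ, ← nsq_sub]; exact hx
  · have d1 := core_deriv hγ
    have d2 : HasDerivAt (fun a => F (Φ.symm (core F a)))
        (fderiv ℝ F (1 / 2, x₀) (deriv (fun a => Φ.symm (core F a)) γ)) γ := by
      have h1 : HasFDerivAt F (fderiv ℝ F (1 / 2, x₀)) (Φ.symm (core F γ)) := by
        rw [hyγ]
        exact ((ld_iff.1 (hf _ hmem)).1.self_of_nhds.differentiableAt (by simp)).hasFDerivAt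
      exact HasFDerivAt.comp_hasDerivAt (f := fun a => Φ.symm (core F a)) γ h1
        (hy.differentiableAt (by simp)).hasDerivAt
    have d3 := d2.congr_of_eventuallyEq (f₁ := core F) hev
    have h2 := d1.unique d3
    rw [hd] at h2
    have h3 := (ld_iff.1 (hf _ hmem)).2 h2
    rw [← h3]
    intro h0
    simp only at h0
    rw [h0, mul_zero] at hl
    exact lt_irrefl _ hl

section
variable {E : Type*} [NormedAddCommGroup E] [NormedSpace ℝ E] {H : Type*} [TopologicalSpace H]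
  {I : ModelWithCorners ℝ E H} {M : Type*} [TopologicalSpace M] [ChartedSpace H M]

theorem congr_ldM {f g : R4 → M} {V : Set R4} (hV : IsOpen V) (hfg : EqOn f g V) {x : R4}
    (hx : x ∈ V) (h : IsLocalDiffeomorphAt 𝓘(ℝ, R4) I ∞ f x) :
    IsLocalDiffeomorphAt 𝓘(ℝ, R4) I ∞ g x := by
  obtain ⟨Φ, hxΦ, hΦ⟩ := h
  have hsub : Φ.source ∩ V ⊆ Φ.source := inter_subset_left
  have hop : IsOpen (Φ.source ∩ V) := Φ.open_source.inter hV
  let Ψ : PartialDiffeomorph 𝓘(ℝ, R4) I R4 M ∞ :=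
    { toFun := Φ
      invFun := Φ.symm
      source := Φ.source ∩ V
      target := Φ.target ∩ Φ.symm ⁻¹' V
      map_source' := fun p hp => ⟨Φ.map_source hp.1, by
        show Φ.symm (Φ p) ∈ V
        have : Φ.symm (Φ p) = p := Φ.left_inv hp.1
        rw [this]; exact hp.2⟩
      map_target' := fun y hy => ⟨Φ.map_target hy.1, hy.2⟩
      left_inv' := fun p hp => Φ.left_inv hp.1
      right_inv' := fun y hy => Φ.right_inv hy.1
      open_source := hop
      open_target := by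
        have hc : ContinuousOn Φ.symm Φ.target := Φ.contMDiffOn_invFun.continuousOn
        exact hc.isOpen_inter_preimage Φ.open_target hV
      contMDiffOn_toFun := Φ.contMDiffOn_toFun.mono hsub
      contMDiffOn_invFun := Φ.contMDiffOn_invFun.mono inter_subset_left }
  exact ⟨Ψ, ⟨hxΦ, hx⟩, fun p hp => (hfg hp.2).symm.trans (hΦ hp.1)⟩

end

end ThM

open ThM in
theorem m_ThM : StThM := by
  refine ⟨?_, ?_, ?_, ?_⟩
  · intro F α β h
    have hα : α ∈ Ioo (1 / 5 : ℝ) (4 / 5) := ⟨h.ord.1.trans h.ord.2.1, h.ord.2.2⟩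
    have hβ : β ∈ Ioo (1 / 5 : ℝ) (4 / 5) := ⟨h.ord.1, h.ord.2.1.trans h.ord.2.2⟩
    obtain ⟨e, he, hce⟩ := crossAt_of (h.loc _ (ax_mem ⟨hα.1.le, hα.2.le⟩))
      (fun p hp => h.loc p (flat_sub_FB (Or.inl rfl) hp)) h.cross0
    obtain ⟨d, hd, hcd⟩ := crossAt_of (h.loc _ (ax_mem ⟨hβ.1.le, hβ.2.le⟩))
      (fun p hp => h.loc p (flat_sub_FB (Or.inr rfl) hp)) h.cross1
    refine ⟨e, d, he, hd, ?_, ?_, ?_, h.ord.2.1⟩
    · refine ⟨?_, h.inj, ?_, hα, hce, ?_⟩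
      · rintro p (hp | hp)
        · exact h.loc p (SP_sub_FB hp)
        · exact h.loc p (flat_sub_FB (Or.inl rfl) hp)
      · refine h.balls.mono ?_
        rintro p (hp | hp)
        · exact Or.inl hp
        · rw [sub_zero] at hp
          exact Or.inr (sph_sub_flat 1 hp)
      · intro a ha hm
        rcases h.only0 a ha hm with h1 | h1
        · left; rw [h1]; norm_num
        · exact Or.inr h1
    · refine ⟨?_, h.inj, ?_, hβ, hcd, ?_⟩
      · rintro p (hp | hp)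
        · exact h.loc p (SP_sub_FB hp)
        · exact h.loc p (flat_sub_FB (Or.inr rfl) hp)
      · refine h.balls.mono ?_
        rintro p (hp | hp)
        · exact Or.inr hp
        · rw [sub_self] at hp
          exact Or.inl (sph_sub_flat 0 hp)
      · intro a ha hm
        rcases h.only1 a ha hm with h1 | h1
        · left; rw [h1]; norm_num
        · exact Or.inr h1
    · rw [Set.disjoint_left]
      rintro _ ⟨p, hp, rfl⟩ ⟨q, hq, he⟩
      have hpq : q = p := h.balls (Or.inr hq) (Or.inl hp) he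
      subst hpq
      have h1 : rsq 0 q ≤ 1 / 25 := hp.2
      have h2 : rsq 1 q ≤ 1 / 25 := hq.2
      unfold rsq nsq at h1 h2
      simp only at h1 h2
      nlinarith [sq_nonneg q.2.2.re, sq_nonneg q.2.2.im, sq_nonneg (2 * q.2.1 - 1)]
  · intro F α β e d h
    have hFB : ∀ p ∈ FB, LD F p := by
      rintro p ((hp | hp) | hp)
      · exact h.a.loc p (Or.inr hp)
      · exact h.b.loc p (Or.inr hp)
      · exact h.a.loc p (Or.inl (Or.inr hp))
    refine ⟨hFB, h.a.inj, ?_, ⟨h.b.mem.1, h.ord, h.a.mem.2⟩,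
      crossM_of (hFB _ (ax_mem ⟨h.a.mem.1.le, h.a.mem.2.le⟩)) (fun p hp => h.a.loc p (Or.inr hp))
        h.a.cr,
      crossM_of (hFB _ (ax_mem ⟨h.b.mem.1.le, h.b.mem.2.le⟩)) (fun p hp => h.b.loc p (Or.inr hp))
        h.b.cr, ?_, ?_⟩
    · rintro p (hp | hp) q (hq | hq) he
      · exact h.a.injF (Or.inl hp) (Or.inl hq) he
      · exact (Set.disjoint_left.1 h.dis ⟨p, hp, rfl⟩ ⟨q, hq, he.symm⟩).elim
      · exact (Set.disjoint_left.1 h.dis ⟨q, hq, rfl⟩ ⟨p, hp, he⟩).elim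
      · exact h.b.injF (Or.inl hp) (Or.inl hq) he
    · intro a ha hm
      rcases h.a.only a ha hm with h1 | h1
      · left; rw [h1]; norm_num
      · exact Or.inr h1
    · intro a ha hm
      rcases h.b.only a ha hm with h1 | h1
      · left; rw [h1]; norm_num
      · exact Or.inr h1
  · intro E _ _ H _ I M _ _ E' _ _ H' _ I' M' _ _ F Ψ α β h hinj hloc
    have hcr : ∀ c γ : ℝ, CrossM F c γ → CrossM (fun p => Ψ (F p)) c γ := by
      rintro c γ ⟨y, h1, h2, h3, h4, h5⟩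
      refine ⟨y, h1, h2, h3, h4, ?_⟩
      filter_upwards [h5] with a ha
      rw [ha]
    have honly : ∀ c, (c = 0 ∨ c = 1) → ∀ a ∈ Icc (1 / 5 : ℝ) (4 / 5),
        Ψ (F (1 / 2, (a, 0))) ∈ (fun p => Ψ (F p)) '' flat c → F (1 / 2, (a, 0)) ∈ F '' flat c := by
      rintro c hc a ha ⟨q, hq, he⟩
      exact ⟨q, hq, hinj ⟨q, flat_sub_FB hc hq, rfl⟩ ⟨_, ax_mem ha, rfl⟩ he⟩
    refine ⟨fun p hp => ?_, ?_, ?_, h.ord, hcr _ _ h.cross0, hcr _ _ h.cross1,
      fun a ha hm => h.only0 a ha (honly 0 (Or.inl rfl) a ha hm),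
      fun a ha hm => h.only1 a ha (honly 1 (Or.inr rfl) a ha hm)⟩
    · exact IsLocalDiffeomorphAt.comp (K := I') (P := M') (hf := h.loc p hp) (hg := hloc _ ⟨p, hp, rfl⟩)
    · intro p hp q hq he
      exact h.inj hp hq (hinj ⟨p, SP_sub_FB hp, rfl⟩ ⟨q, SP_sub_FB hq, rfl⟩ he)
    · intro p hp q hq he
      exact h.balls hp hq (hinj ⟨p, Or.inl hp, rfl⟩ ⟨q, Or.inl hq, rfl⟩ he)
  · intro E _ _ H _ I M _ _ F G U α β h hU hFB heq
    have hα : α ∈ Ioo (1 / 5 : ℝ) (4 / 5) := ⟨h.ord.1.trans h.ord.2.1, h.ord.2.2⟩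
    have hβ : β ∈ Ioo (1 / 5 : ℝ) (4 / 5) := ⟨h.ord.1, h.ord.2.1.trans h.ord.2.2⟩
    have hcr : ∀ c γ : ℝ, (c = 0 ∨ c = 1) → γ ∈ Ioo (1 / 5 : ℝ) (4 / 5) → CrossM F c γ →
        CrossM G c γ := by
      rintro c γ hc hγ ⟨y, h1, h2, h3, h4, h5⟩
      refine ⟨y, h1, h2, h3, h4, ?_⟩
      have m1 : ∀ᶠ a in 𝓝 γ, y a ∈ U :=
        h1.continuousAt.preimage_mem_nhds (hU.mem_nhds (hFB (flat_sub_FB hc ⟨h2, h3.le⟩)))
      filter_upwards [h5, m1, isOpen_Ioo.mem_nhds hγ] with a ha ha1 ha2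
      rw [← heq ha1, ← ha]
      exact (heq (hFB (ax_mem ⟨ha2.1.le, ha2.2.le⟩))).symm
    have himg : ∀ c, (c = 0 ∨ c = 1) → G '' flat c = F '' flat c := fun c hc =>
      image_congr fun p hp => (heq (hFB (flat_sub_FB hc hp))).symm
    refine ⟨fun p hp => ?_, ?_, ?_, h.ord, hcr _ _ (Or.inl rfl) hα h.cross0,
      hcr _ _ (Or.inr rfl) hβ h.cross1, fun a ha hm => ?_, fun a ha hm => ?_⟩
    · exact congr_ldM hU heq (hFB hp) (h.loc p hp)
    · exact h.inj.congr fun p hp => heq (hFB (SP_sub_FB hp))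
    · exact h.balls.congr fun p hp => heq (hFB (Or.inl hp))
    · have e : G (1 / 2, (a, 0)) = F (1 / 2, (a, 0)) := (heq (hFB (ax_mem ha))).symm
      rw [e, himg 0 (Or.inl rfl)] at hm
      exact h.only0 a ha hm
    · have e : G (1 / 2, (a, 0)) = F (1 / 2, (a, 0)) := (heq (hFB (ax_mem ha))).symm
      rw [e, himg 1 (Or.inr rfl)] at hm
      exact h.only1 a ha hm

end Pool.Agent.Helper70.BI
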