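import Pool.Agent.Helper70.BI.StF2
import Pool.Agent.Helper70.BI.M_ThM
import Pool.Agent.Helper18.BI.M_T2

/-!
# Project BI, stage 2, module W4: the class `W` in the 4-sphere
-/

set_option autoImplicit false

open scoped Manifold ContDiff Topology ComplexConjugate
open Set Filter Pool.Agent.Helper65.Barb Pool.Agent.Helper18.BI

namespace Pool.Agent.Helper70.BI

namespace W4

theorem invFun_ld {c : R4 → S4} (hc : EmbOn (𝓡 4) c univ) {y : S4} (hy : y ∈ range c) :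
    IsLocalDiffeomorphAt (𝓡 4) 𝓘(ℝ, R4) ∞ (Function.invFun c) y := by
  obtain ⟨x, rfl⟩ := hy
  obtain ⟨Φ, hx, heq⟩ := hc.1 x (mem_univ x)
  refine ⟨Φ.symm, ?_, ?_⟩
  · rw [heq hx]
    exact Φ.map_source hx
  · intro z hz
    have hz' : z ∈ Φ.target := hz
    have h1 : Φ.symm z ∈ Φ.source := Φ.map_target hz'
    have h2 : c (Φ.symm z) = z := by
      rw [heq h1]
      exact Φ.right_inv hz'
    have h3 : c (Function.invFun c z) = z := Function.invFun_eq ⟨_, h2⟩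
    exact hc.2 (mem_univ _) (mem_univ _) (h3.trans h2.symm)

theorem isOpen_range {c : R4 → S4} (hc : EmbOn (𝓡 4) c univ) : IsOpen (range c) := by
  rw [isOpen_iff_mem_nhds]
  rintro _ ⟨x, rfl⟩
  obtain ⟨Φ, hx, heq⟩ := hc.1 x (mem_univ x)
  have h1 : Φ.target ∈ 𝓝 (c x) := by
    rw [heq hx]
    exact Φ.open_target.mem_nhds (Φ.map_source hx)
  filter_upwards [h1] with z hz
  have h2 : Φ.symm z ∈ Φ.source := Φ.map_target hz
  have h3 : c (Φ.symm z) = z := by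
    rw [heq h2]
    exact Φ.right_inv hz
  exact ⟨Φ.symm z, h3⟩

theorem imp_id {c : R4 → S4} : imp c univ (fun p => p) = fun y => y := by
  funext y
  unfold imp
  split_ifs with h
  · exact h.choose_spec.2
  · rfl

theorem ld_continuousAt {G : R4 → S4} {p : R4}
    (h : IsLocalDiffeomorphAt 𝓘(ℝ, R4) (𝓡 4) ∞ G p) : ContinuousAt G p := by
  obtain ⟨Φ, hp, heq⟩ := h
  have hc : ContinuousAt Φ p :=
    Φ.contMDiffOn_toFun.continuousOn.continuousAt (Φ.open_source.mem_nhds hp)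
  have he : (Φ : R4 → S4) =ᶠ[𝓝 p] G := by
    filter_upwards [Φ.open_source.mem_nhds hp] with q hq
    exact (heq hq).symm
  exact hc.congr he

end W4

open W4 in
theorem m_W4 (hEI : StEI) (hX2c : StX2c) (hThM : StThM) (hX1 : StX1) (hT2 : StT2)
    (hCI : StCI) (hS4 : StS4) : StW4 := by
  intro W hW
  obtain ⟨F₀, α₀, β₀, hF₀, hF₀W⟩ := hW.rep
  obtain ⟨th1, th2, th3, -⟩ := hThM
  obtain ⟨-, tii, -, tiv, tv, tvi, -⟩ := hT2 _ _ (𝓡 4) S4
  obtain ⟨-, cs, cself, ct, cc, -, -, -, -, -⟩ := hCI _ _ (𝓡 4) S4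
  have hFBc : IsCompact FB := hS4.2.2.2.2.2.2.2.2.2.1
  have hFB1 : ∀ p ∈ FB, p.1 = 1 / 2 := by
    rintro p ((hp | hp) | hp)
    · exact hp.1
    · exact hp.1
    · exact hp.1
  have hF₀M : ThetaM I4 F₀ α₀ β₀ := th2 F₀ α₀ β₀ 1 1 hF₀
  -- charts composed with the theta germ
  have stepA : ∀ c : R4 → S4, EmbOn (𝓡 4) c univ →
      ThetaM (𝓡 4) (fun p => c (F₀ p)) α₀ β₀ := by
    intro c hc
    exact th3 _ _ 𝓘(ℝ, R4) R4 _ _ (𝓡 4) S4 F₀ c α₀ β₀ hF₀M (hc.2.mono (subset_univ _))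
      (fun y _ => hc.1 y (mem_univ y))
  have stepA' : ∀ c : R4 → S4, EmbOn (𝓡 4) c univ →
      Thin (𝓡 4) (fun p => c (F₀ p)) (imp c univ W) := by
    intro c hc
    exact (hX1 _ _ (𝓡 4) S4 c hc).2.2.1 F₀ W hF₀W
  -- theta germs in a chart
  have stepB : ∀ (G : R4 → S4) (α β : ℝ) (c : R4 → S4), ThetaM (𝓡 4) G α β →
      EmbOn (𝓡 4) c univ → G '' FB ⊆ range c → Thin (𝓡 4) G (imp c univ W) := by
    intro G α β c hG hc hsub
    have hinv : ∀ y ∈ range c, c (Function.invFun c y) = y := fun y hy => Function.invFun_eq hy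
    have hF : ThetaM 𝓘(ℝ, R4) (fun p => Function.invFun c (G p)) α β := by
      refine th3 _ _ (𝓡 4) S4 _ _ 𝓘(ℝ, R4) R4 G (Function.invFun c) α β hG ?_ ?_
      · intro y hy z hz he
        rw [← hinv y (hsub hy), ← hinv z (hsub hz), he]
      · intro y hy
        exact invFun_ld hc (hsub hy)
    obtain ⟨e, d, he, hd, hth⟩ := th1 _ α β hF
    have t1 : Thin 𝓘(ℝ, R4) (fun p => Function.invFun c (G p)) W := hW.all _ α β e d he hd hth
    have t2 := (hX1 _ _ (𝓡 4) S4 c hc).2.2.1 _ W t1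
    refine tv _ G (interior {p | c (Function.invFun c (G p)) = G p}) _ isOpen_interior ?_ ?_ t2
    · intro p hp
      rw [mem_interior_iff_mem_nhds]
      have hp' : p ∈ FB := ThM.SP_sub_FB hp
      have h1 : ContinuousAt G p := ld_continuousAt (hG.loc p hp')
      filter_upwards [h1.preimage_mem_nhds ((isOpen_range hc).mem_nhds (hsub ⟨p, hp', rfl⟩))]
        with q hq
      exact hinv _ hq
    · intro p hp
      have h1 : p ∈ {p | c (Function.invFun c (G p)) = G p} := interior_subset hp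
      exact h1
  -- compact images
  have himg : ∀ (G : R4 → S4) (α β : ℝ), ThetaM (𝓡 4) G α β →
      IsCompact (G '' FB) ∧ interior (G '' FB) = ∅ := by
    intro G α β hG
    exact hEI _ _ (𝓡 4) S4 G FB hFBc hFB1 hG.loc
  have stepC : ∀ c₁ c₂ : R4 → S4, EmbOn (𝓡 4) c₁ univ → EmbOn (𝓡 4) c₂ univ →
      CIsot (𝓡 4) (imp c₁ univ W) (imp c₂ univ W) := by
    intro c₁ c₂ h₁ h₂
    obtain ⟨k1, k2⟩ := himg _ _ _ (stepA c₁ h₁)
    obtain ⟨k3, k4⟩ := himg _ _ _ (stepA c₂ h₂)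
    obtain ⟨c, hc, hsub⟩ := hX2c _ (k1.union k3)
      (by rw [interior_union_isClosed_of_interior_empty k1.isClosed k4, k2])
    have s1 := stepB _ _ _ c (stepA c₁ h₁) hc (subset_union_left.trans hsub)
    have s2 := stepB _ _ _ c (stepA c₂ h₂) hc (subset_union_right.trans hsub)
    exact ct _ _ _ (tii _ _ _ (stepA' c₁ h₁) s1) (tii _ _ _ s2 (stepA' c₂ h₂))
  obtain ⟨c₀, hc₀, -⟩ := hX2c ∅ isCompact_empty interior_empty
  have hall : ∀ (G : R4 → S4) (α β : ℝ), ThetaM (𝓡 4) G α β → Thin (𝓡 4) G (imp c₀ univ W) := by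
    intro G α β hG
    obtain ⟨k1, k2⟩ := himg G α β hG
    obtain ⟨c, hc, hsub⟩ := hX2c _ k1 k2
    exact tiv _ _ _ (stepB G α β c hG hc hsub) (stepC c c₀ hc hc₀)
  refine ⟨imp c₀ univ W, c₀, fun p => c₀ (F₀ p), α₀, β₀, hall, fun c hc => stepC c c₀ hc hc₀, ?_,
    ?_, hc₀, stepA c₀ hc₀, stepA' c₀ hc₀⟩
  · obtain ⟨z1, -, -, z4, -⟩ := hX1 _ _ (𝓡 4) S4 c₀ hc₀
    have h := z1 _ _ hW.sq
    rw [imp_id] at h
    have e : imp c₀ univ (fun x => W (W x)) = fun y => imp c₀ univ W (imp c₀ univ W y) :=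
      funext (z4 W W)
    rwa [e] at h
  · intro Ψ Ψ' hΨ hΨ' i1 i2
    have h1 : ThetaM (𝓡 4) (fun p => Ψ (c₀ (F₀ p))) α₀ β₀ :=
      th3 _ _ (𝓡 4) S4 _ _ (𝓡 4) S4 _ Ψ α₀ β₀ (stepA c₀ hc₀)
        (fun y _ z _ he => by rw [← i2 y, ← i2 z, he])
        (fun y _ => Pool.Agent.Helper18.BI.T2.diff_ld hΨ hΨ' i1 i2 y)
    exact tii _ _ _ (tvi _ _ Ψ Ψ' hΨ hΨ' i1 i2 (stepA' c₀ hc₀)) (hall _ _ _ h1)

end Pool.Agent.Helper70.BI
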