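import Pool.Agent.Helper18.BI.Defs
import Pool.Agent.Helper34.BI.Loc

/-!
# Project BI, part (E): basic definitions and lemmas on germs along compact sets
-/

set_option autoImplicit false

open scoped Manifold ContDiff Topology ComplexConjugate
open Set Filter Pool.Agent.Helper65.Barb Pool.Agent.Helper18.BI Pool.Agent.Helper34.BI

namespace Pool.Agent.Helper70.BI

/-- the model of four-space -/
noncomputable abbrev I4 : ModelWithCorners ℝ R4 R4 := 𝓘(ℝ, R4)

/-- the point `(1/2, a, 0)` of the axis -/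
noncomputable def ax (a : ℝ) : R4 := (1 / 2, (a, 0))

/-- the core of the bar of the germ `F` -/
noncomputable def core (F : R4 → R4) (a : ℝ) : R4 := F (ax a)

/-- the germs `F` and `F'` have the same implantation class -/
def Eqv (F F' : R4 → R4) : Prop := ∀ φ : R4 → R4, Thin I4 F φ ↔ Thin I4 F' φ

/-- `F` and `F'` agree on a neighbourhood of `L` -/
def NearEq (F F' : R4 → R4) (L : Set R4) : Prop := ∃ U : Set R4, IsOpen U ∧ L ⊆ U ∧ EqOn F F' U

/-- local diffeomorphisms of `R4` -/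
abbrev LD (F : R4 → R4) (p : R4) : Prop := IsLocalDiffeomorphAt 𝓘(ℝ, R4) 𝓘(ℝ, R4) ∞ F p

/-- Interface to part (A): a family of germs along the spine has a constant class. -/
def StFam : Prop :=
  ∀ J : ℝ × R4 → R4, FamOn I4 J SP → Eqv (fun p => J (0, p)) (fun p => J (1, p))

theorem Eqv.refl (F : R4 → R4) : Eqv F F := fun _ => Iff.rfl
theorem Eqv.symm {F F' : R4 → R4} (h : Eqv F F') : Eqv F' F := fun φ => (h φ).symm
theorem Eqv.trans {F F' F'' : R4 → R4} (h : Eqv F F') (h' : Eqv F' F'') : Eqv F F'' :=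
  fun φ => (h φ).trans (h' φ)

theorem ld_iff {F : R4 → R4} {p : R4} :
    LD F p ↔ (∀ᶠ q in 𝓝 p, ContDiffAt ℝ ∞ F q) ∧ Function.Injective (fderiv ℝ F p) :=
  isLocalDiffeomorphAt_iff rfl

theorem embOn_iff {F : R4 → R4} {L : Set R4} :
    EmbOn I4 F L ↔ (∀ p ∈ L, (∀ᶠ q in 𝓝 p, ContDiffAt ℝ ∞ F q) ∧
      Function.Injective (fderiv ℝ F p)) ∧ InjOn F L := by
  unfold EmbOn
  refine and_congr (forall_congr' fun p => forall_congr' fun _ => ?_) Iff.rfl
  exact ld_iff

theorem ld_congr {F F' : R4 → R4} {p : R4} (h : F =ᶠ[𝓝 p] F') (hF : LD F p) : LD F' p := by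
  rw [ld_iff] at hF ⊢
  refine ⟨?_, ?_⟩
  · filter_upwards [hF.1, h.eventuallyEq_nhds] with q h1 h2
    exact h1.congr_of_eventuallyEq h2.symm
  · rw [← h.fderiv_eq]; exact hF.2

theorem ld_comp {F m : R4 → R4} {p : R4} (hm : LD m p) (hF : LD F (m p)) : LD (F ∘ m) p := by
  rw [ld_iff] at hm hF ⊢
  have cm : ContinuousAt m p := hm.1.self_of_nhds.continuousAt
  refine ⟨?_, ?_⟩
  · filter_upwards [hm.1, cm.eventually hF.1] with q h1 h2
    exact h2.comp q h1
  · rw [fderiv_comp p (hF.1.self_of_nhds.differentiableAt (by simp))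
      (hm.1.self_of_nhds.differentiableAt (by simp))]
    exact hF.2.comp hm.2

theorem EmbOn.mono' {F : R4 → R4} {L L' : Set R4} (h : EmbOn I4 F L) (hs : L' ⊆ L) :
    EmbOn I4 F L' := ⟨fun p hp => h.1 p (hs hp), h.2.mono hs⟩

theorem embOn_comp {F m : R4 → R4} {L L' : Set R4} (hF : EmbOn I4 F L) (hm : EmbOn I4 m L')
    (hs : ∀ p ∈ L', m p ∈ L) : EmbOn I4 (F ∘ m) L' :=
  ⟨fun p hp => ld_comp (hm.1 p hp) (hF.1 (m p) (hs p hp)), fun p hp q hq he =>
    hm.2 hp hq (hF.2 (hs p hp) (hs q hq) he)⟩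

theorem NearEq.symm {F F' : R4 → R4} {L : Set R4} (h : NearEq F F' L) : NearEq F' F L := by
  obtain ⟨U, h1, h2, h3⟩ := h
  exact ⟨U, h1, h2, h3.symm⟩

theorem NearEq.eventuallyEq {F F' : R4 → R4} {L : Set R4} (h : NearEq F F' L) {p : R4}
    (hp : p ∈ L) : F =ᶠ[𝓝 p] F' := by
  obtain ⟨U, h1, h2, h3⟩ := h
  exact h3.eventuallyEq_of_mem (h1.mem_nhds (h2 hp))

theorem nearEq_of_eventuallyEq {F F' : R4 → R4} {L : Set R4}
    (h : ∀ p ∈ L, F =ᶠ[𝓝 p] F') : NearEq F F' L := by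
  refine ⟨interior {q | F q = F' q}, isOpen_interior, fun p hp => ?_, fun q hq => ?_⟩
  · exact mem_interior_iff_mem_nhds.2 (h p hp)
  · have h1 : q ∈ {q | F q = F' q} := interior_subset hq
    exact h1

theorem embOn_congr {F F' : R4 → R4} {L : Set R4} (h : NearEq F F' L) (hF : EmbOn I4 F L) :
    EmbOn I4 F' L := by
  refine ⟨fun p hp => ld_congr (h.eventuallyEq hp) (hF.1 p hp), ?_⟩
  obtain ⟨U, h1, h2, h3⟩ := h
  exact hF.2.congr (h3.mono h2)

/-- A criterion for families of germs: `J` is smooth near each point of `[0,1] × L`. -/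
theorem famOn_iff {J : ℝ × R4 → R4} {L : Set R4} :
    FamOn I4 J L ↔ (∀ t ∈ Icc (0 : ℝ) 1, ∀ p ∈ L, ∀ᶠ z in 𝓝 (t, p), ContDiffAt ℝ ∞ J z) ∧
      ∀ t ∈ Icc (0 : ℝ) 1, EmbOn I4 (fun p => J (t, p)) L := by
  constructor
  · rintro ⟨⟨W, hW, hs, hd⟩, h2⟩
    refine ⟨fun t ht p hp => ?_, h2⟩
    filter_upwards [hW.mem_nhds (hs ⟨ht, hp⟩)] with z hz
    exact (contMDiffOn_iff_contDiffOn.1 hd).contDiffAt (hW.mem_nhds hz)
  · rintro ⟨h1, h2⟩
    refine ⟨⟨interior {z | ContDiffAt ℝ ∞ J z}, isOpen_interior, ?_, ?_⟩, h2⟩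
    · rintro ⟨t, p⟩ ⟨ht, hp⟩
      exact mem_interior_iff_mem_nhds.2 (h1 t ht p hp)
    · refine contMDiffOn_iff_contDiffOn.2 fun z hz => ?_
      have h3 : z ∈ {z | ContDiffAt ℝ ∞ J z} := interior_subset hz
      exact ContDiffAt.contDiffWithinAt h3

/-- Precomposition of a family of germs with a family of germs of maps into the support. -/
theorem famOn_comp {J m : ℝ × R4 → R4} {L L' : Set R4} (hJ : FamOn I4 J L)
    (hm : FamOn I4 m L') (hs : ∀ t ∈ Icc (0 : ℝ) 1, ∀ p ∈ L', m (t, p) ∈ L) :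
    FamOn I4 (fun z => J (z.1, m z)) L' := by
  rw [famOn_iff] at hJ hm ⊢
  refine ⟨fun t ht p hp => ?_, fun t ht => ?_⟩
  · have h1 := hm.1 t ht p hp
    have h2 := hJ.1 t ht (m (t, p)) (hs t ht p hp)
    have h3 : ContinuousAt (fun z : ℝ × R4 => (z.1, m z)) (t, p) :=
      continuousAt_fst.prodMk h1.self_of_nhds.continuousAt
    filter_upwards [h1, h3.eventually h2] with z e1 e2
    exact e2.comp z (contDiffAt_fst.prodMk e1)
  · exact embOn_comp (hJ.2 t ht) (hm.2 t ht) (hs t ht)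

/-- a constant family -/
theorem famOn_const {F : R4 → R4} {L : Set R4} (hF : EmbOn I4 F L) :
    FamOn I4 (fun z => F z.2) L := by
  rw [famOn_iff]
  refine ⟨fun t _ p hp => ?_, fun t _ => hF⟩
  have h1 := (ld_iff.1 (hF.1 p hp)).1
  have h3 : ContinuousAt (fun z : ℝ × R4 => z.2) (t, p) := continuousAt_snd
  filter_upwards [h3.eventually h1] with z e1
  exact e1.comp z contDiffAt_snd

theorem famOn_congr {J J' : ℝ × R4 → R4} {L : Set R4} (hJ : FamOn I4 J L)
    (h : ∀ t ∈ Icc (0 : ℝ) 1, ∀ p ∈ L, J =ᶠ[𝓝 (t, p)] J') : FamOn I4 J' L := by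
  rw [famOn_iff] at hJ ⊢
  refine ⟨fun t ht p hp => ?_, fun t ht => ?_⟩
  · filter_upwards [hJ.1 t ht p hp, (h t ht p hp).eventuallyEq_nhds] with z e1 e2
    exact e1.congr_of_eventuallyEq e2.symm
  · refine embOn_congr (nearEq_of_eventuallyEq fun p hp => ?_) (hJ.2 t ht)
    have h3 : ContinuousAt (fun q : R4 => (t, q)) p := by fun_prop
    exact h3.eventually (h t ht p hp)

/-- germs which agree near the spine have the same class -/
theorem eqv_of_nearEq (hA : StFam) {F F' : R4 → R4} (hF : EmbOn I4 F SP) (h : NearEq F F' SP) :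
    Eqv F F' := by
  classical
  have hJ : FamOn I4 (fun z : ℝ × R4 => if z.1 < 1 / 2 then F z.2 else F' z.2) SP := by
    refine famOn_congr (famOn_const hF) fun t _ p hp => ?_
    have h3 : ContinuousAt (fun z : ℝ × R4 => z.2) (t, p) := continuousAt_snd
    filter_upwards [h3.eventually (h.eventuallyEq hp)] with z hz
    split_ifs
    · rfl
    · exact hz
  have := hA _ hJ
  rwa [show (fun p : R4 => if ((0 : ℝ), p).1 < 1 / 2 then F ((0 : ℝ), p).2
      else F' ((0 : ℝ), p).2) = F from funext fun p => if_pos (by norm_num),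
    show (fun p : R4 => if ((1 : ℝ), p).1 < 1 / 2 then F ((1 : ℝ), p).2
      else F' ((1 : ℝ), p).2) = F' from funext fun p => if_neg (by norm_num)] at this

/-- precomposition with a family of germs of maps into the support of `F` -/
theorem eqv_precomp (hA : StFam) {F : R4 → R4} {L : Set R4} (hF : EmbOn I4 F L)
    {m : ℝ × R4 → R4} (hm : FamOn I4 m SP) (hs : ∀ t ∈ Icc (0 : ℝ) 1, ∀ p ∈ SP, m (t, p) ∈ L) :
    Eqv (fun p => F (m (0, p))) (fun p => F (m (1, p))) :=
  hA _ (famOn_comp (famOn_const hF) hm hs)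

/-- a smooth family of maps with pointwise invertible derivatives, injective on `L` -/
theorem famOn_of_contDiff {m : ℝ × R4 → R4} {L : Set R4} (hm : ContDiff ℝ ∞ m)
    (hd : ∀ t ∈ Icc (0 : ℝ) 1, ∀ p ∈ L, Function.Injective (fderiv ℝ (fun q => m (t, q)) p))
    (hi : ∀ t ∈ Icc (0 : ℝ) 1, InjOn (fun q => m (t, q)) L) : FamOn I4 m L := by
  rw [famOn_iff]
  refine ⟨fun t _ p _ => Eventually.of_forall fun z => hm.contDiffAt, fun t ht => ?_⟩
  rw [embOn_iff]
  refine ⟨fun p hp => ⟨Eventually.of_forall fun q => ?_, hd t ht p hp⟩, hi t ht⟩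
  have : ContDiff ℝ ∞ (fun q : R4 => m (t, q)) := hm.comp (contDiff_prodMk_right t)
  exact this.contDiffAt

/-- smoothness of a `DFam` of `R4` -/
theorem contDiff_dfam (G : DFam I4 R4) : ContDiff ℝ ∞ G.f := by
  rw [← contMDiff_iff_contDiff, modelWithCornersSelf_prod, ← chartedSpaceSelf_prod]
  exact G.smooth_f

/-- smoothness of the inverse of a `DFam` of `R4` -/
theorem contDiff_dfam_inv (G : DFam I4 R4) : ContDiff ℝ ∞ G.g := by
  rw [← contMDiff_iff_contDiff, modelWithCornersSelf_prod, ← chartedSpaceSelf_prod]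
  exact G.smooth_g

/-- the members of a `DFam` of `R4` are local diffeomorphisms -/
theorem ld_dfam (G : DFam I4 R4) (t : ℝ) (p : R4) : LD (fun q => G.f (t, q)) p := by
  have hf : ContDiff ℝ ∞ (fun q : R4 => G.f (t, q)) :=
    (contDiff_dfam G).comp (contDiff_prodMk_right t)
  have hg : ContDiff ℝ ∞ (fun q : R4 => G.g (t, q)) :=
    (contDiff_dfam_inv G).comp (contDiff_prodMk_right t)
  rw [ld_iff]
  refine ⟨Eventually.of_forall fun q => hf.contDiffAt, ?_⟩
  have d1 : HasFDerivAt (fun q : R4 => G.f (t, q)) (fderiv ℝ (fun q : R4 => G.f (t, q)) p) p :=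
    (hf.differentiable (by simp) p).hasFDerivAt
  have d2 := (hg.differentiable (by simp) (G.f (t, p))).hasFDerivAt
  have d3 := d2.comp p d1
  have d4 := d3.congr_of_eventuallyEq (f₁ := fun x : R4 => x)
    (Eventually.of_forall fun q => (G.gf t q).symm)
  have d5 := d4.unique (hasFDerivAt_id p)
  intro v w hvw
  have := congrArg (fderiv ℝ (fun q : R4 => G.g (t, q)) (G.f (t, p))) hvw
  have e1 : ∀ z, (fderiv ℝ (fun q : R4 => G.g (t, q)) (G.f (t, p)))
      (fderiv ℝ (fun q : R4 => G.f (t, q)) p z) = z := fun z =>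
    congrArg (fun A : R4 →L[ℝ] R4 => A z) d5
  rw [e1, e1] at this
  exact this

theorem famOn_dfam (G : DFam I4 R4) (L : Set R4) : FamOn I4 G.f L := by
  rw [famOn_iff]
  refine ⟨fun t _ p _ => Eventually.of_forall fun z => (contDiff_dfam G).contDiffAt,
    fun t _ => ⟨fun p _ => ld_dfam G t p, fun p _ q _ he => ?_⟩⟩
  have := congrArg (fun y => G.g (t, y)) he
  simpa [G.gf] using this

/-- ambient isotopies do not change the class -/
theorem eqv_postcomp (hA : StFam) {F : R4 → R4} (hF : EmbOn I4 F SP) (G : DFam I4 R4)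
    (h0 : ∀ y, G.f (0, y) = y) : Eqv F (fun p => G.f (1, F p)) := by
  have h := hA _ (famOn_comp (famOn_dfam G univ) (famOn_const hF) fun _ _ _ _ => mem_univ _)
  simpa [h0] using h

end Pool.Agent.Helper70.BI
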