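import Pool.Agent.Helper70.BI.StU

/-!
# Project BI, module E-RG: reparametrization of the bar
-/

set_option autoImplicit false

open scoped Manifold ContDiff Topology ComplexConjugate
open Set Filter Pool.Agent.Helper65.Barb Pool.Agent.Helper18.BI

namespace Pool.Agent.Helper70.BI

namespace RG

theorem contDiff_repm {m : ℝ → ℝ} (h : ContDiff ℝ ∞ m) : ContDiff ℝ ∞ (repm m) := by
  unfold repm; fun_prop

theorem fderiv_inj {m : ℝ → ℝ} (h : RepOK m) (p : R4) :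
    Function.Injective (fderiv ℝ (repm m) p) := by
  obtain ⟨h1, h2, -⟩ := h
  have dm : HasDerivAt m (deriv m p.2.1) p.2.1 := (h1.differentiable (by simp) _).hasDerivAt
  have f2 : HasFDerivAt (fun q : R4 => q.2.1)
      ((ContinuousLinearMap.fst ℝ ℝ ℂ).comp (ContinuousLinearMap.snd ℝ ℝ (ℝ × ℂ))) p :=
    ((ContinuousLinearMap.fst ℝ ℝ ℂ).comp (ContinuousLinearMap.snd ℝ ℝ (ℝ × ℂ))).hasFDerivAt
  have f3 : HasFDerivAt (fun q : R4 => q.2.2)
      ((ContinuousLinearMap.snd ℝ ℝ ℂ).comp (ContinuousLinearMap.snd ℝ ℝ (ℝ × ℂ))) p :=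
    ((ContinuousLinearMap.snd ℝ ℝ ℂ).comp (ContinuousLinearMap.snd ℝ ℝ (ℝ × ℂ))).hasFDerivAt
  have f1 : HasFDerivAt (fun q : R4 => q.1) (ContinuousLinearMap.fst ℝ ℝ (ℝ × ℂ)) p :=
    (ContinuousLinearMap.fst ℝ ℝ (ℝ × ℂ)).hasFDerivAt
  have f4 : HasFDerivAt (fun q : R4 => m q.2.1) (deriv m p.2.1 •
      ((ContinuousLinearMap.fst ℝ ℝ ℂ).comp (ContinuousLinearMap.snd ℝ ℝ (ℝ × ℂ)))) p :=
    dm.comp_hasFDerivAt p f2
  have f5 := f1.prodMk (f4.prodMk f3)
  have f6 : fderiv ℝ (repm m) p = _ := f5.fderiv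
  rw [f6, injective_iff_map_eq_zero]
  intro v hv
  obtain ⟨a, b, c⟩ := v
  simp only [ContinuousLinearMap.prod_apply, ContinuousLinearMap.coe_fst',
    _root_.smul_apply, ContinuousLinearMap.comp_apply, ContinuousLinearMap.coe_snd',
    smul_eq_mul, Prod.mk_eq_zero, mul_eq_zero] at hv
  obtain ⟨e1, e2, e3⟩ := hv
  have e4 : b = 0 := e2.resolve_left (h2 _).ne'
  simp [e1, e4, e3]

theorem strictMono' {m : ℝ → ℝ} (h : RepOK m) : StrictMono m := strictMono_of_deriv_pos h.2.1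

theorem inj {m : ℝ → ℝ} (h : RepOK m) : Function.Injective (repm m) := by
  rintro ⟨a, b, c⟩ ⟨a', b', c'⟩ he
  simp only [repm, Prod.mk.injEq] at he
  obtain ⟨e1, e2, e3⟩ := he
  rw [e1, (strictMono' h).injective e2, e3]

theorem near_flat {m : ℝ → ℝ} (h : RepOK m) {c : ℝ} (hc : c = 0 ∨ c = 1) {p : R4}
    (hp : p ∈ flat c) : ∀ᶠ q in 𝓝 p, repm m q = q := by
  obtain ⟨-, -, η, h0, h3⟩ := h
  obtain ⟨-, hp2⟩ := hp
  unfold rsq nsq at hp2
  simp only at hp2
  have k1 : (p.2.1 - c) ^ 2 ≤ 1 / 25 := by nlinarith [sq_nonneg p.2.2.re, sq_nonneg p.2.2.im]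
  have k2 : |p.2.1 - c| ≤ 1 / 5 := abs_le_of_sq_le_sq (by norm_num; linarith) (by norm_num)
  have cont : ContinuousAt (fun q : R4 => q.2.1) p := by fun_prop
  rw [abs_le] at k2
  rcases hc with rfl | rfl
  · have : p.2.1 < 1 / 5 + η := by linarith [k2.2]
    filter_upwards [cont.eventually (gt_mem_nhds this)] with q hq
    unfold repm
    rw [h3 _ (Or.inl (le_of_lt hq))]
  · have : 4 / 5 - η < p.2.1 := by linarith [k2.1]
    filter_upwards [cont.eventually (lt_mem_nhds this)] with q hq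
    unfold repm
    rw [h3 _ (Or.inr (le_of_lt hq))]

theorem fix_flat {m : ℝ → ℝ} (h : RepOK m) {c : ℝ} (hc : c = 0 ∨ c = 1) {p : R4}
    (hp : p ∈ flat c) : repm m p = p := (near_flat h hc hp).self_of_nhds

theorem ends {m : ℝ → ℝ} (h : RepOK m) {a : ℝ} (ha : a ∈ Icc (1 / 5 : ℝ) (4 / 5)) :
    m a ∈ Icc (1 / 5 : ℝ) (4 / 5) := by
  have mono := (strictMono' h).monotone
  obtain ⟨-, -, η, h0, h3⟩ := h
  have e1 : m (1 / 5) = 1 / 5 := h3 _ (Or.inl (by linarith))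
  have e2 : m (4 / 5) = 4 / 5 := h3 _ (Or.inr (by linarith))
  exact ⟨by rw [← e1]; exact mono ha.1, by rw [← e2]; exact mono ha.2⟩

theorem sph_sub (c : ℝ) : sph c ⊆ flat c := fun _ hp => ⟨hp.1, hp.2.le⟩

theorem mapsTo {m : ℝ → ℝ} (h : RepOK m) {p : R4} (hp : p ∈ SP) : repm m p ∈ SP := by
  rcases hp with (hp | hp) | hp
  · rw [fix_flat h (Or.inl rfl) (sph_sub 0 hp)]; exact Or.inl (Or.inl hp)
  · rw [fix_flat h (Or.inr rfl) (sph_sub 1 hp)]; exact Or.inl (Or.inr hp)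
  · obtain ⟨h1, h2, h3, h4⟩ := hp
    have h5 := ends h ⟨h2, h3⟩
    exact Or.inr ⟨h1, h5.1, h5.2, h4⟩

theorem embOn {m : ℝ → ℝ} (h : RepOK m) (L : Set R4) : EmbOn I4 (repm m) L := by
  rw [embOn_iff]
  exact ⟨fun p _ => ⟨Eventually.of_forall fun q => (contDiff_repm h.1).contDiffAt,
    fderiv_inj h p⟩, (inj h).injOn⟩

/-- the linear homotopy -/
theorem homot {m : ℝ → ℝ} (h : RepOK m) {t : ℝ} (ht : t ∈ Icc (0 : ℝ) 1) :
    RepOK (fun a => (1 - t) * a + t * m a) := by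
  obtain ⟨h1, h2, η, h0, h3⟩ := h
  refine ⟨by fun_prop, fun a => ?_, η, h0, fun a ha => ?_⟩
  · have dm : HasDerivAt m (deriv m a) a := (h1.differentiable (by simp) _).hasDerivAt
    have d2 : HasDerivAt (fun a => (1 - t) * a + t * m a) ((1 - t) * 1 + t * deriv m a) a :=
      ((hasDerivAt_id a).const_mul (1 - t)).add (dm.const_mul t)
    rw [d2.deriv]
    rcases ht.2.lt_or_eq with h4 | h4
    · have := mul_nonneg ht.1 (h2 a).le
      linarith
    · rw [h4]; simp [h2 a]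
  · simp only
    rw [h3 a ha]; ring

end RG

theorem m_RG (hF : StFam) : StRG := by
  intro m h
  refine ⟨RG.embOn h univ, fun a => rfl, fun c hc p hp => RG.near_flat h hc hp,
    fun a ha => RG.ends h ha, RG.strictMono' h, fun F hE => ⟨?_, ?_⟩⟩
  · exact embOn_comp hE (RG.embOn h SP) fun p hp => RG.mapsTo h hp
  · have key := eqv_precomp hF hE (m := fun z : ℝ × R4 =>
        (z.2.1, ((1 - z.1) * z.2.2.1 + z.1 * m z.2.2.1, z.2.2.2))) ?_ ?_
    · simpa [repm] using key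
    · refine famOn_of_contDiff ?_ ?_ ?_
      · have := h.1
        fun_prop
      · intro t ht p _
        exact RG.fderiv_inj (RG.homot h ht) p
      · intro t ht
        exact (RG.inj (RG.homot h ht)).injOn
    · intro t ht p hp
      exact RG.mapsTo (RG.homot h ht) hp

end Pool.Agent.Helper70.BI
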