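import Pool.Agent.Helper70.BI.StU

/-!
# Project BI, module E-RM: increasing functions with prescribed germs
-/

set_option autoImplicit false

open scoped Manifold ContDiff Topology ComplexConjugate
open Set Filter Pool.Agent.Helper65.Barb Pool.Agent.Helper18.BI

namespace Pool.Agent.Helper70.BI

namespace RM

/-- cutting off a germ -/
theorem contDiff_cut {p ε : ℝ} {g : ℝ → ℝ} (b : ContDiffBump p)
    (hb : b.rOut < ε) (hg : ∀ a ∈ Metric.ball p ε, ContDiffAt ℝ ∞ g a) :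
    ContDiff ℝ ∞ (fun a => b a * g a) := by
  rw [contDiff_iff_contDiffAt]
  intro a
  by_cases ha : a ∈ Metric.ball p ε
  · exact b.contDiffAt.mul (hg a ha)
  · have h1 : b.rOut < dist a p := lt_of_lt_of_le hb (by simpa [Metric.mem_ball] using ha)
    have h2 : ∀ᶠ z in 𝓝 a, b.rOut < dist z p := by
      have : ContinuousAt (fun z : ℝ => dist z p) a := by fun_prop
      exact this.eventually (lt_mem_nhds h1)
    have h3 : (fun z => b z * g z) =ᶠ[𝓝 a] fun _ => 0 := by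
      filter_upwards [h2] with z hz
      rw [b.zero_of_le_dist hz.le, zero_mul]
    exact contDiffAt_const.congr_of_eventuallyEq h3

theorem cut_nonneg {p ε : ℝ} {g : ℝ → ℝ} (b : ContDiffBump p)
    (hb : b.rOut < ε) (hg : ∀ a ∈ Metric.ball p ε, 0 < g a) (a : ℝ) : 0 ≤ b a * g a := by
  by_cases ha : a ∈ Metric.ball p ε
  · exact mul_nonneg b.nonneg (hg a ha).le
  · have h1 : b.rOut < dist a p := lt_of_lt_of_le hb (by simpa [Metric.mem_ball] using ha)
    rw [b.zero_of_le_dist h1.le, zero_mul]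

theorem cut_le {p ε C : ℝ} {g : ℝ → ℝ} (b : ContDiffBump p)
    (hb : b.rOut < ε) (hg : ∀ a ∈ Metric.ball p ε, 0 < g a ∧ g a ≤ C) (a : ℝ) (hC : 0 ≤ C) :
    b a * g a ≤ C := by
  by_cases ha : a ∈ Metric.ball p ε
  · calc b a * g a ≤ 1 * g a := mul_le_mul_of_nonneg_right b.le_one (hg a ha).1.le
      _ ≤ C := by rw [one_mul]; exact (hg a ha).2
  · have h1 : b.rOut < dist a p := lt_of_lt_of_le hb (by simpa [Metric.mem_ball] using ha)
    rw [b.zero_of_le_dist h1.le, zero_mul]; exact hC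

theorem seg {p q c : ℝ} (hpq : p < q) (hc : 0 < c) {g h : ℝ → ℝ}
    (hg : ∀ᶠ a in 𝓝 p, ContDiffAt ℝ ∞ g a) (hh : ∀ᶠ a in 𝓝 q, ContDiffAt ℝ ∞ h a)
    (g0 : 0 < g p) (h0 : 0 < h q) :
    ∃ D : ℝ → ℝ, ContDiff ℝ ∞ D ∧ (∀ a ∈ Icc p q, 0 < D a) ∧ D =ᶠ[𝓝 p] g ∧ D =ᶠ[𝓝 q] h ∧
      ∫ a in p..q, D a = c := by
  set C : ℝ := max (g p) (h q) + 1 with hCdef
  have hCp : g p < C := by rw [hCdef]; linarith [le_max_left (g p) (h q)]
  have hCq : h q < C := by rw [hCdef]; linarith [le_max_right (g p) (h q)]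
  have hC0 : 0 < C := g0.trans hCp
  have e1 : ∀ᶠ a in 𝓝 p, ContDiffAt ℝ ∞ g a ∧ 0 < g a ∧ g a ≤ C := by
    have hcg : ContinuousAt g p := hg.self_of_nhds.continuousAt
    filter_upwards [hg, hcg.eventually (lt_mem_nhds g0), hcg.eventually (gt_mem_nhds hCp)]
      with a h1 h2 h3
    exact ⟨h1, h2, h3.le⟩
  have e2 : ∀ᶠ a in 𝓝 q, ContDiffAt ℝ ∞ h a ∧ 0 < h a ∧ h a ≤ C := by
    have hcg : ContinuousAt h q := hh.self_of_nhds.continuousAt
    filter_upwards [hh, hcg.eventually (lt_mem_nhds h0), hcg.eventually (gt_mem_nhds hCq)]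
      with a h1 h2 h3
    exact ⟨h1, h2, h3.le⟩
  obtain ⟨ε₁, hε₁, k1⟩ := Metric.eventually_nhds_iff_ball.1 e1
  obtain ⟨ε₂, hε₂, k2⟩ := Metric.eventually_nhds_iff_ball.1 e2
  obtain ⟨r, hr, r1, r2, r3, r4⟩ : ∃ r : ℝ, 0 < r ∧ 2 * r < ε₁ ∧ 2 * r < ε₂ ∧
      8 * r ≤ q - p ∧ 4 * r * C < c := by
    refine ⟨min (min (ε₁ / 3) (ε₂ / 3)) (min ((q - p) / 8) (c / (8 * C))), ?_, ?_, ?_, ?_, ?_⟩
    · have : 0 < q - p := by linarith
      positivity
    · have := min_le_left (min (ε₁ / 3) (ε₂ / 3)) (min ((q - p) / 8) (c / (8 * C)))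
      have := min_le_left (ε₁ / 3) (ε₂ / 3)
      linarith
    · have := min_le_left (min (ε₁ / 3) (ε₂ / 3)) (min ((q - p) / 8) (c / (8 * C)))
      have := min_le_right (ε₁ / 3) (ε₂ / 3)
      linarith
    · have := min_le_right (min (ε₁ / 3) (ε₂ / 3)) (min ((q - p) / 8) (c / (8 * C)))
      have := min_le_left ((q - p) / 8) (c / (8 * C))
      linarith
    · have k3 := min_le_right (min (ε₁ / 3) (ε₂ / 3)) (min ((q - p) / 8) (c / (8 * C)))
      have k4 := min_le_right ((q - p) / 8) (c / (8 * C))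
      have k5 := k3.trans k4
      have : 4 * min (min (ε₁ / 3) (ε₂ / 3)) (min ((q - p) / 8) (c / (8 * C))) * C ≤
          4 * (c / (8 * C)) * C := by gcongr
      have k6 : 4 * (c / (8 * C)) * C = c / 2 := by field_simp; ring
      linarith
  let bp : ContDiffBump p := ⟨r, 2 * r, hr, by linarith⟩
  let bq : ContDiffBump q := ⟨r, 2 * r, hr, by linarith⟩
  let bm : ContDiffBump ((p + q) / 2) :=
    ⟨((q - p) / 2 - r) / 2, (q - p) / 2 - r, by linarith, by linarith⟩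
  have sg : ContDiff ℝ ∞ (fun a => bp a * g a) :=
    contDiff_cut bp (ε := ε₁) r1 fun a ha => (k1 a ha).1
  have sh : ContDiff ℝ ∞ (fun a => bq a * h a) :=
    contDiff_cut bq (ε := ε₂) r2 fun a ha => (k2 a ha).1
  have sm : ContDiff ℝ ∞ (fun a => bm a) := bm.contDiff
  have ng : ∀ a, 0 ≤ bp a * g a := cut_nonneg bp (ε := ε₁) r1 fun a ha => (k1 a ha).2.1
  have nh : ∀ a, 0 ≤ bq a * h a := cut_nonneg bq (ε := ε₂) r2 fun a ha => (k2 a ha).2.1
  have lg : ∀ a, bp a * g a ≤ C := fun a => cut_le bp (ε := ε₁) r1 (fun a ha => (k1 a ha).2) a hC0.le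
  have lh : ∀ a, bq a * h a ≤ C := fun a => cut_le bq (ε := ε₂) r2 (fun a ha => (k2 a ha).2) a hC0.le
  have ii : ∀ {f : ℝ → ℝ} (u v : ℝ), ContDiff ℝ ∞ f →
      IntervalIntegrable f MeasureTheory.volume u v := fun u v hf => hf.continuous.intervalIntegrable u v
  -- integrals
  have Ig : ∫ a in p..q, bp a * g a ≤ 2 * r * C := by
    rw [← intervalIntegral.integral_add_adjacent_intervals (ii p (p + 2 * r) sg) (ii (p + 2 * r) q sg)]
    have z : ∫ a in (p + 2 * r)..q, bp a * g a = 0 := by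
      rw [intervalIntegral.integral_congr (g := fun _ => (0 : ℝ))]
      · simp
      · intro a ha
        rw [uIcc_of_le (by linarith)] at ha
        have : bp a = 0 := bp.zero_of_le_dist (by
          change 2 * r ≤ dist a p
          rw [Real.dist_eq, abs_of_nonneg (by linarith [ha.1])]; linarith [ha.1])
        simp [this]
    rw [z, add_zero]
    have := intervalIntegral.integral_mono_on (a := p) (b := p + 2 * r) (by linarith)
      (ii p (p + 2 * r) sg) (intervalIntegrable_const (c := C)) fun a _ => lg a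
    refine this.trans ?_
    rw [intervalIntegral.integral_const, smul_eq_mul]; linarith
  have Ih : ∫ a in p..q, bq a * h a ≤ 2 * r * C := by
    rw [← intervalIntegral.integral_add_adjacent_intervals (ii p (q - 2 * r) sh) (ii (q - 2 * r) q sh)]
    have z : ∫ a in p..(q - 2 * r), bq a * h a = 0 := by
      rw [intervalIntegral.integral_congr (g := fun _ => (0 : ℝ))]
      · simp
      · intro a ha
        rw [uIcc_of_le (by linarith)] at ha
        have : bq a = 0 := bq.zero_of_le_dist (by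
          change 2 * r ≤ dist a q
          rw [Real.dist_eq, abs_of_nonpos (by linarith [ha.2])]; linarith [ha.2])
        simp [this]
    rw [z, zero_add]
    have := intervalIntegral.integral_mono_on (a := q - 2 * r) (b := q) (by linarith)
      (ii (q - 2 * r) q sh) (intervalIntegrable_const (c := C)) fun a _ => lh a
    refine this.trans ?_
    rw [intervalIntegral.integral_const, smul_eq_mul]; linarith
  set J : ℝ := ∫ a in p..q, bm a with hJ
  have J0 : 0 < J := by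
    refine intervalIntegral.integral_pos hpq sm.continuous.continuousOn (fun a _ => bm.nonneg)
      ⟨(p + q) / 2, ⟨by linarith, by linarith⟩, ?_⟩
    exact bm.pos_of_mem_ball (Metric.mem_ball_self bm.rOut_pos)
  set I : ℝ := (∫ a in p..q, bp a * g a) + ∫ a in p..q, bq a * h a with hI
  have hk : 0 < (c - I) / J := div_pos (by linarith) J0
  set κ : ℝ := (c - I) / J with hκ
  -- values near the ends
  have vm : ∀ a, a ≤ p + r ∨ q - r ≤ a → bm a = 0 := by
    intro a ha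
    refine bm.zero_of_le_dist ?_
    change (q - p) / 2 - r ≤ dist a ((p + q) / 2)
    rw [Real.dist_eq]
    rcases ha with ha | ha
    · rw [abs_of_nonpos (by linarith)]; linarith
    · rw [abs_of_nonneg (by linarith)]; linarith
  have vp : ∀ a ∈ Metric.ball p r, bp a = 1 := fun a ha =>
    bp.one_of_mem_closedBall (Metric.ball_subset_closedBall ha)
  have vq : ∀ a ∈ Metric.ball q r, bq a = 1 := fun a ha =>
    bq.one_of_mem_closedBall (Metric.ball_subset_closedBall ha)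
  refine ⟨fun a => bp a * g a + bq a * h a + κ * bm a, (sg.add sh).add (contDiff_const.mul sm),
    ?_, ?_, ?_, ?_⟩
  · intro a ha
    by_cases h1 : 0 < bm a
    · have := mul_pos hk h1
      have := ng a
      have := nh a
      change 0 < bp a * g a + bq a * h a + κ * bm a
      linarith
    · have h2 : (q - p) / 2 - r ≤ dist a ((p + q) / 2) := by
        by_contra h3
        exact h1 (bm.pos_of_mem_ball (not_le.1 h3))
      have h3 : 0 ≤ κ * bm a := mul_nonneg hk.le bm.nonneg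
      rw [Real.dist_eq] at h2
      change 0 < bp a * g a + bq a * h a + κ * bm a
      rcases le_total a ((p + q) / 2) with h4 | h4
      · rw [abs_of_nonpos (by linarith)] at h2
        have h5 : bp a = 1 := bp.one_of_mem_closedBall (by
          rw [Metric.mem_closedBall, Real.dist_eq, abs_of_nonneg (by linarith [ha.1])]
          change a - p ≤ r
          linarith)
        have h6 : 0 < g a := (k1 a (by
          rw [Metric.mem_ball, Real.dist_eq, abs_of_nonneg (by linarith [ha.1])]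
          linarith)).2.1
        have := nh a
        rw [h5, one_mul]; linarith
      · rw [abs_of_nonneg (by linarith)] at h2
        have h5 : bq a = 1 := bq.one_of_mem_closedBall (by
          rw [Metric.mem_closedBall, Real.dist_eq, abs_of_nonpos (by linarith [ha.2])]
          change -(a - q) ≤ r
          linarith)
        have h6 : 0 < h a := (k2 a (by
          rw [Metric.mem_ball, Real.dist_eq, abs_of_nonpos (by linarith [ha.2])]
          linarith)).2.1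
        have := ng a
        rw [h5, one_mul]; linarith
  · filter_upwards [Metric.ball_mem_nhds p hr] with a ha
    have ha' := ha
    rw [Metric.mem_ball, Real.dist_eq, abs_lt] at ha'
    rw [vp a ha, vm a (Or.inl (by linarith)), bq.zero_of_le_dist (by
      change 2 * r ≤ dist a q
      rw [Real.dist_eq, abs_of_nonpos (by linarith)]; linarith)]
    ring
  · filter_upwards [Metric.ball_mem_nhds q hr] with a ha
    have ha' := ha
    rw [Metric.mem_ball, Real.dist_eq, abs_lt] at ha'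
    rw [vq a ha, vm a (Or.inr (by linarith)), bp.zero_of_le_dist (by
      change 2 * r ≤ dist a p
      rw [Real.dist_eq, abs_of_nonneg (by linarith)]; linarith)]
    ring
  · rw [intervalIntegral.integral_add (ii p q (sg.add sh)) (ii p q (contDiff_const.mul sm)),
      intervalIntegral.integral_add (ii p q sg) (ii p q sh),
      intervalIntegral.integral_const_mul, ← hI, ← hJ, hκ]
    field_simp
    ring

/-- gluing -/
noncomputable def gl (q : ℝ) (D E : ℝ → ℝ) (a : ℝ) : ℝ := if a < q then D a else E a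

theorem gl_le {q : ℝ} {D E : ℝ → ℝ} (h : D =ᶠ[𝓝 q] E) {a : ℝ} (ha : a ≤ q) : gl q D E a = D a := by
  unfold gl
  split_ifs with h1
  · rfl
  · have : a = q := le_antisymm ha (not_lt.1 h1)
    rw [this]; exact h.self_of_nhds.symm

theorem gl_ge {q : ℝ} {D E : ℝ → ℝ} {a : ℝ} (ha : q ≤ a) : gl q D E a = E a :=
  if_neg (not_lt.2 ha)

theorem gl_eq_left {q : ℝ} {D E : ℝ → ℝ} {a : ℝ} (ha : a < q) : gl q D E =ᶠ[𝓝 a] D := by
  filter_upwards [Iio_mem_nhds ha] with z hz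
  exact if_pos hz

theorem gl_eq_right {q : ℝ} {D E : ℝ → ℝ} {a : ℝ} (ha : q < a) : gl q D E =ᶠ[𝓝 a] E := by
  filter_upwards [Ioi_mem_nhds ha] with z hz
  exact if_neg (not_lt.2 (le_of_lt hz))

theorem gl_eq_mid {q : ℝ} {D E : ℝ → ℝ} (h : D =ᶠ[𝓝 q] E) : gl q D E =ᶠ[𝓝 q] D := by
  filter_upwards [h] with z hz
  unfold gl
  split_ifs
  · rfl
  · exact hz.symm

theorem gl_contDiff {q : ℝ} {D E : ℝ → ℝ} (h : D =ᶠ[𝓝 q] E) (hD : ContDiff ℝ ∞ D)
    (hE : ContDiff ℝ ∞ E) : ContDiff ℝ ∞ (gl q D E) := by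
  rw [contDiff_iff_contDiffAt]
  intro a
  rcases lt_trichotomy a q with h1 | h1 | h1
  · exact hD.contDiffAt.congr_of_eventuallyEq (gl_eq_left h1)
  · rw [h1]; exact hD.contDiffAt.congr_of_eventuallyEq (gl_eq_mid h)
  · exact hE.contDiffAt.congr_of_eventuallyEq (gl_eq_right h1)

theorem cd {μ : ℝ → ℝ} {a : ℝ} (h : ContDiffAt ℝ ∞ μ a) : ContDiffAt ℝ ∞ (deriv μ) a := by
  have h1 : ContDiffAt ℝ ∞ (fderiv ℝ μ) a := h.fderiv_right (by simp)
  have h2 : ContDiffAt ℝ ∞ (fun z => fderiv ℝ μ z 1) a := h1.clm_apply contDiffAt_const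
  exact h2

/-- two functions with the same derivative near a point -/
theorem germ {m E μ : ℝ → ℝ} {x : ℝ} (dm : ∀ a, HasDerivAt m (E a) a) (h : E =ᶠ[𝓝 x] deriv μ)
    (s : ∀ᶠ a in 𝓝 x, ContDiffAt ℝ ∞ μ a) (hx : m x = μ x) : ∀ᶠ a in 𝓝 x, m a = μ a := by
  obtain ⟨ε, hε, h1⟩ := Metric.eventually_nhds_iff_ball.1 (h.and s)
  filter_upwards [Metric.ball_mem_nhds x hε] with a ha
  refine Metric.isOpen_ball.eqOn_of_deriv_eq (convex_ball x ε).isPreconnected
    (fun z _ => (dm z).differentiableAt.differentiableWithinAt)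
    (fun z hz => ((h1 z hz).2.differentiableAt (by simp)).differentiableWithinAt)
    (fun z hz => ?_) (Metric.mem_ball_self hε) hx ha
  rw [(dm z).deriv]; exact (h1 z hz).1

theorem two {a₀ b₀ x₁ x₂ y₁ y₂ : ℝ} {μ₁ μ₂ : ℝ → ℝ} (h1 : a₀ < x₁) (h2 : x₁ < x₂) (h3 : x₂ < b₀)
    (h4 : a₀ < y₁) (h5 : y₁ < y₂) (h6 : y₂ < b₀) (s1 : ∀ᶠ a in 𝓝 x₁, ContDiffAt ℝ ∞ μ₁ a)
    (s2 : ∀ᶠ a in 𝓝 x₂, ContDiffAt ℝ ∞ μ₂ a) (v1 : μ₁ x₁ = y₁) (v2 : μ₂ x₂ = y₂)
    (d1 : 0 < deriv μ₁ x₁) (d2 : 0 < deriv μ₂ x₂) :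
    ∃ m : ℝ → ℝ, ContDiff ℝ ∞ m ∧ (∀ a, 0 < deriv m a) ∧ (∀ᶠ a in 𝓝 x₁, m a = μ₁ a) ∧
      (∀ᶠ a in 𝓝 x₂, m a = μ₂ a) ∧
      ∃ η : ℝ, 0 < η ∧ ∀ a, (a ≤ a₀ + η ∨ b₀ - η ≤ a) → m a = a := by
  obtain ⟨η, e0, e1, e2, e3, e4⟩ : ∃ η : ℝ, 0 < η ∧ a₀ + η < x₁ ∧ a₀ + η < y₁ ∧
      x₂ < b₀ - η ∧ y₂ < b₀ - η := by
    refine ⟨min (min (x₁ - a₀) (y₁ - a₀)) (min (b₀ - x₂) (b₀ - y₂)) / 2, ?_, ?_, ?_, ?_, ?_⟩
    · have : 0 < x₁ - a₀ := by linarith
      have : 0 < y₁ - a₀ := by linarith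
      have : 0 < b₀ - x₂ := by linarith
      have : 0 < b₀ - y₂ := by linarith
      positivity
    all_goals
      have := min_le_left (min (x₁ - a₀) (y₁ - a₀)) (min (b₀ - x₂) (b₀ - y₂))
      have := min_le_right (min (x₁ - a₀) (y₁ - a₀)) (min (b₀ - x₂) (b₀ - y₂))
      have := min_le_left (x₁ - a₀) (y₁ - a₀)
      have := min_le_right (x₁ - a₀) (y₁ - a₀)
      have := min_le_left (b₀ - x₂) (b₀ - y₂)
      have := min_le_right (b₀ - x₂) (b₀ - y₂)
      linarith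
  have c1 : ∀ᶠ a in 𝓝 x₁, ContDiffAt ℝ ∞ (deriv μ₁) a := s1.mono fun a ha => cd ha
  have c2 : ∀ᶠ a in 𝓝 x₂, ContDiffAt ℝ ∞ (deriv μ₂) a := s2.mono fun a ha => cd ha
  have one : ∀ z : ℝ, ∀ᶠ a in 𝓝 z, ContDiffAt ℝ ∞ (fun _ : ℝ => (1 : ℝ)) a := fun z =>
    Eventually.of_forall fun _ => contDiffAt_const
  obtain ⟨D₁, sD1, pD1, l1, r1, i1⟩ := seg (p := a₀ + η) (q := x₁) (c := y₁ - (a₀ + η)) e1
    (by linarith) (one _) c1 one_pos d1
  obtain ⟨D₂, sD2, pD2, l2, r2, i2⟩ := seg (p := x₁) (q := x₂) (c := y₂ - y₁) h2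
    (by linarith) c1 c2 d1 d2
  obtain ⟨D₃, sD3, pD3, l3, r3, i3⟩ := seg (p := x₂) (q := b₀ - η) (c := b₀ - η - y₂) e3
    (by linarith) c2 (one _) d2 one_pos
  -- the density
  set U : ℝ → ℝ := fun _ => 1 with hU
  set E₄ := gl (b₀ - η) D₃ U with hE4
  set E₃ := gl x₂ D₂ E₄ with hE3
  set E₂ := gl x₁ D₁ E₃ with hE2
  set E := gl (a₀ + η) U E₂ with hE
  have m4 : D₃ =ᶠ[𝓝 (b₀ - η)] U := r3
  have q4 : E₄ =ᶠ[𝓝 x₂] D₃ := gl_eq_left e3
  have m3 : D₂ =ᶠ[𝓝 x₂] E₄ := r2.trans (l3.symm.trans q4.symm)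
  have q3 : E₃ =ᶠ[𝓝 x₁] D₂ := gl_eq_left h2
  have m2 : D₁ =ᶠ[𝓝 x₁] E₃ := r1.trans (l2.symm.trans q3.symm)
  have q2 : E₂ =ᶠ[𝓝 (a₀ + η)] D₁ := gl_eq_left e1
  have m1 : U =ᶠ[𝓝 (a₀ + η)] E₂ := l1.symm.trans q2.symm
  have sU : ContDiff ℝ ∞ U := contDiff_const
  have sE : ContDiff ℝ ∞ E :=
    gl_contDiff m1 sU (gl_contDiff m2 sD1 (gl_contDiff m3 sD2 (gl_contDiff m4 sD3 sU)))
  have w0 : ∀ a, a ≤ a₀ + η → E a = 1 := fun a ha => gl_le m1 ha
  have w1 : ∀ a ∈ Icc (a₀ + η) x₁, E a = D₁ a := fun a ha => by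
    rw [hE, gl_ge ha.1, hE2, gl_le m2 ha.2]
  have w2 : ∀ a ∈ Icc x₁ x₂, E a = D₂ a := fun a ha => by
    rw [hE, gl_ge (by linarith [ha.1]), hE2, gl_ge ha.1, hE3, gl_le m3 ha.2]
  have w3 : ∀ a ∈ Icc x₂ (b₀ - η), E a = D₃ a := fun a ha => by
    rw [hE, gl_ge (by linarith [ha.1]), hE2, gl_ge (by linarith [ha.1]), hE3, gl_ge ha.1, hE4,
      gl_le m4 ha.2]
  have w4 : ∀ a, b₀ - η ≤ a → E a = 1 := fun a ha => by
    rw [hE, gl_ge (by linarith), hE2, gl_ge (by linarith), hE3, gl_ge (by linarith), hE4, gl_ge ha]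
  have pE : ∀ a, 0 < E a := by
    intro a
    rcases le_total a (a₀ + η) with t1 | t1
    · rw [w0 a t1]; exact one_pos
    rcases le_total a x₁ with t2 | t2
    · rw [w1 a ⟨t1, t2⟩]; exact pD1 a ⟨t1, t2⟩
    rcases le_total a x₂ with t3 | t3
    · rw [w2 a ⟨t2, t3⟩]; exact pD2 a ⟨t2, t3⟩
    rcases le_total a (b₀ - η) with t4 | t4
    · rw [w3 a ⟨t3, t4⟩]; exact pD3 a ⟨t3, t4⟩
    · rw [w4 a t4]; exact one_pos
  have g1 : E =ᶠ[𝓝 x₁] deriv μ₁ :=
    (gl_eq_right e1).trans ((gl_eq_mid m2).trans r1)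
  have g2 : E =ᶠ[𝓝 x₂] deriv μ₂ := by
    refine (gl_eq_right (by linarith)).trans ((gl_eq_right h2).trans ((gl_eq_mid m3).trans r2))
  have ii : ∀ u v : ℝ, IntervalIntegrable E MeasureTheory.volume u v := fun u v =>
    sE.continuous.intervalIntegrable u v
  set m : ℝ → ℝ := fun a => a₀ + η + ∫ t in (a₀ + η)..a, E t with hm
  have dm : ∀ a, HasDerivAt m (E a) a := fun a => by
    have := (sE.continuous.integral_hasStrictDerivAt (a₀ + η) a).hasDerivAt
    exact this.const_add (a₀ + η)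
  have dm' : deriv m = E := funext fun a => (dm a).deriv
  have J1 : ∫ t in (a₀ + η)..x₁, E t = y₁ - (a₀ + η) := by
    rw [← i1]
    refine intervalIntegral.integral_congr fun a ha => ?_
    rw [uIcc_of_le e1.le] at ha; exact w1 a ha
  have J2 : ∫ t in x₁..x₂, E t = y₂ - y₁ := by
    rw [← i2]
    refine intervalIntegral.integral_congr fun a ha => ?_
    rw [uIcc_of_le h2.le] at ha; exact w2 a ha
  have J3 : ∫ t in x₂..(b₀ - η), E t = b₀ - η - y₂ := by
    rw [← i3]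
    refine intervalIntegral.integral_congr fun a ha => ?_
    rw [uIcc_of_le e3.le] at ha; exact w3 a ha
  have M1 : m x₁ = y₁ := by rw [hm]; simp only [J1]; ring
  have M2 : m x₂ = y₂ := by
    rw [hm]; simp only
    rw [← intervalIntegral.integral_add_adjacent_intervals (ii _ x₁) (ii _ _), J1, J2]; ring
  have M3 : m (b₀ - η) = b₀ - η := by
    rw [hm]; simp only
    rw [← intervalIntegral.integral_add_adjacent_intervals (ii _ x₁) (ii _ _),
      ← intervalIntegral.integral_add_adjacent_intervals (ii x₁ x₂) (ii _ _), J1, J2, J3]; ring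
  refine ⟨m, ?_, fun a => ?_, germ dm g1 s1 (M1.trans v1.symm), germ dm g2 s2 (M2.trans v2.symm),
    η, e0, fun a ha => ?_⟩
  · rw [contDiff_infty_iff_deriv]
    exact ⟨fun a => (dm a).differentiableAt, by rw [dm']; exact sE⟩
  · rw [dm']; exact pE a
  · rcases ha with ha | ha
    · have : ∫ t in (a₀ + η)..a, E t = ∫ t in (a₀ + η)..a, (1 : ℝ) := by
        refine intervalIntegral.integral_congr fun t ht => ?_
        rw [uIcc_of_ge ha] at ht
        exact w0 t ht.2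
      rw [hm]; simp only
      rw [this, intervalIntegral.integral_const, smul_eq_mul]; ring
    · have h7 : m a = m (b₀ - η) + ∫ t in (b₀ - η)..a, E t := by
        rw [hm]; simp only
        rw [← intervalIntegral.integral_add_adjacent_intervals (ii _ (b₀ - η)) (ii _ a)]; ring
      have : ∫ t in (b₀ - η)..a, E t = ∫ t in (b₀ - η)..a, (1 : ℝ) := by
        refine intervalIntegral.integral_congr fun t ht => ?_
        rw [uIcc_of_le ha] at ht
        exact w4 t ht.1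
      rw [h7, this, intervalIntegral.integral_const, smul_eq_mul, M3]; ring

end RM

theorem m_RM : StRM := by
  refine ⟨fun a₀ b₀ x y μ h1 h2 h3 h4 h5 h6 h7 => ?_,
    fun x₁ x₂ y₁ y₂ μ₁ μ₂ h1 h2 h3 h4 h5 h6 s1 s2 v1 v2 d1 d2 => ?_⟩
  · -- a second dummy point
    have k1 : x < (x + b₀) / 2 := by linarith
    have k2 : (x + b₀) / 2 < b₀ := by linarith
    have k3 : y < (y + b₀) / 2 := by linarith
    have k4 : (y + b₀) / 2 < b₀ := by linarith
    obtain ⟨m, a1, a2, a3, -, a5⟩ := RM.two (μ₁ := μ)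
      (μ₂ := fun a => a + ((y + b₀) / 2 - (x + b₀) / 2)) h1 k1 k2 h3 k3 k4 h5
      (Eventually.of_forall fun a => by fun_prop) h6 (by ring) h7
      (by rw [deriv_add_const, deriv_id'']; exact one_pos)
    exact ⟨m, a1, a2, a3, a5⟩
  · obtain ⟨m, a1, a2, a3, a4, a5⟩ := RM.two h1 h2 h3 h4 h5 h6 s1 s2 v1 v2 d1 d2
    exact ⟨m, ⟨a1, a2, a5⟩, a3, a4⟩

end Pool.Agent.Helper70.BI
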