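import Pool.Agent.Helper70.BI.StL
import Pool.Agent.Helper18.BI.StF

/-!
# Project BI, stage 2: the transfer to the 4-sphere

Statements (as `Prop` definitions) with complete proofs in the docstrings.  A module `M_X` proves
`theorem m_X : StX` (possibly from other statements as hypotheses `(h : StY)`).
-/

set_option autoImplicit false

open scoped Manifold ContDiff Topology ComplexConjugate
open Set Filter Pool.Agent.Helper65.Barb Pool.Agent.Helper18.BI

namespace Pool.Agent.Helper70.BI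

open Pool.Agent.Helper27.BI (refh refs swp StVanT StRefH StRefS StR2sw)

section
variable {E : Type*} [NormedAddCommGroup E] [NormedSpace ℝ E] {H : Type*} [TopologicalSpace H]
  (I : ModelWithCorners ℝ E H) {M : Type*} [TopologicalSpace M] [ChartedSpace H M]

/-- The bar of `F` crosses, at the parameter `γ`, the interior of the image of the flat ball around
`(1/2, (c, 0))`, transversally: near `γ` the bar is the image of a curve `y` of `R4` which crosses
the ball transversally at the parameter `γ`. -/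
def CrossM (F : R4 → M) (c γ : ℝ) : Prop :=
  ∃ y : ℝ → R4, ContDiffAt ℝ ∞ y γ ∧ (y γ).1 = 1 / 2 ∧ rsq c (y γ) < 1 / 25 ∧
    (deriv y γ).1 ≠ 0 ∧ ∀ᶠ a in 𝓝 γ, F (1 / 2, (a, 0)) = F (y a)

/-- `F : R4 → M` is a local diffeomorphism along the spine and the two flat balls bounded by the
cuffs; the spine is embedded, the two balls are embedded and disjoint, and each ball is crossed
exactly once by the bar, transversally: first, at the parameter `β`, the ball at the far end (the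
ball bounded by the second cuff), then, at the parameter `α > β`, the ball at the near end. -/
structure ThetaM (F : R4 → M) (α β : ℝ) : Prop where
  loc : ∀ p ∈ FB, IsLocalDiffeomorphAt 𝓘(ℝ, R4) I ∞ F p
  inj : InjOn F SP
  balls : InjOn F (flat 0 ∪ flat 1)
  ord : 1 / 5 < β ∧ β < α ∧ α < 4 / 5
  cross0 : CrossM F 0 α
  cross1 : CrossM F 1 β
  only0 : ∀ a ∈ Icc (1 / 5 : ℝ) (4 / 5), F (1 / 2, (a, 0)) ∈ F '' flat 0 → a = 1 / 5 ∨ a = α
  only1 : ∀ a ∈ Icc (1 / 5 : ℝ) (4 / 5), F (1 / 2, (a, 0)) ∈ F '' flat 1 → a = 4 / 5 ∨ a = β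

end

/-- **EI** (images of three-dimensional compact sets have empty interior).
*Proof.* Every `p ∈ L` has a closed ball `K_p` (a compact neighbourhood of `p`) on which `G` coincides with a partial diffeomorphism `Φ_p`; finitely many interiors of the `K_p` cover `L`.  `Φ_p '' (K_p ∩ L)` is
closed (compact) with empty interior: an open set `O ⊆ Φ_p '' (K_p ∩ L)` gives the open set `Φ_p.symm '' O = Φ_p ⁻¹' O ∩ source ⊆ {s = 1/2}`, which is empty.  A finite union of closed sets with empty interior has empty interior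
(`interior_union_isClosed_of_interior_empty`, induction). -/
def StEI : Prop :=
  ∀ (E : Type) [NormedAddCommGroup E] [NormedSpace ℝ E] (H : Type) [TopologicalSpace H]
    (I : ModelWithCorners ℝ E H) (M : Type) [TopologicalSpace M] [ChartedSpace H M] [T2Space M]
    (G : R4 → M) (L : Set R4), IsCompact L → (∀ p ∈ L, p.1 = 1 / 2) →
    (∀ p ∈ L, IsLocalDiffeomorphAt 𝓘(ℝ, R4) I ∞ G p) →
    IsCompact (G '' L) ∧ interior (G '' L) = ∅

/-- **X2c** (a chart of the 4-sphere containing a given compact set).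
*Proof.* As in module X2 (`Pool/Agent/Helper18/BI/M_X2.lean`): a compact set with empty interior is not everything; stereographic projection from a point of the complement. -/
def StX2c : Prop :=
  ∀ K : Set S4, IsCompact K → interior K = ∅ → ∃ c : R4 → S4, EmbOn (𝓡 4) c univ ∧ K ⊆ range c

/-- **ThM** (theta germs: the two definitions, transport).
*Proof.* (i) `SP ⊆ FB` (`sph c ⊆ flat c`).  `e` = sign of the `s`-component `l` of `deriv y α`; `CrossAt F 0 α e` with `x₀ = (y α).2` (`y α = (1/2, x₀)`, `nsq (x₀ - pc 0) = rsq 0 (y α) < 1/25`), `(l, v) = deriv y α`: differentiate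
`F (1/2, (a, 0)) = F (y a)` at `α` (chain rule; `F` is differentiable at `ax α` and at `y α ∈ flat 0`).  Same at `β`.
(ii) The fields only involve local diffeomorphisms, injectivity, images and equations of the form `F p = F q`; `Ψ` is injective on `U ⊇ F '' FB` and a local diffeomorphism there (`IsLocalDiffeomorphAt.comp`; a point where `F (1/2,(a,0)) = F (y a)`
gives `Ψ (F ..) = Ψ (F ..)`; for `only`: `Ψ (F (1/2,(a,0))) = Ψ (F q)`, `q ∈ flat c`, so `F (1/2,(a,0)) = F q` because both are in `F '' FB`).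
(iii) Congruence: `G = F` on an open set containing `FB` (`y a` is near `y γ ∈ flat c` for `a` near `γ`). -/
def StThM : Prop :=
  (∀ (F : R4 → R4) (α β : ℝ), ThetaM I4 F α β → ∃ e d : ℝ, (e = 1 ∨ e = -1) ∧ (d = 1 ∨ d = -1) ∧
    Theta F α β e d) ∧
  (∀ (F : R4 → R4) (α β e d : ℝ), Theta F α β e d → ThetaM I4 F α β) ∧
  (∀ (E : Type) [NormedAddCommGroup E] [NormedSpace ℝ E] (H : Type) [TopologicalSpace H]
    (I : ModelWithCorners ℝ E H) (M : Type) [TopologicalSpace M] [ChartedSpace H M]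
    (E' : Type) [NormedAddCommGroup E'] [NormedSpace ℝ E'] (H' : Type) [TopologicalSpace H']
    (I' : ModelWithCorners ℝ E' H') (M' : Type) [TopologicalSpace M'] [ChartedSpace H' M']
    (F : R4 → M) (Ψ : M → M') (α β : ℝ), ThetaM I F α β → InjOn Ψ (F '' FB) →
    (∀ y ∈ F '' FB, IsLocalDiffeomorphAt I I' ∞ Ψ y) → ThetaM I' (fun p => Ψ (F p)) α β) ∧
  ∀ (E : Type) [NormedAddCommGroup E] [NormedSpace ℝ E] (H : Type) [TopologicalSpace H]
    (I : ModelWithCorners ℝ E H) (M : Type) [TopologicalSpace M] [ChartedSpace H M]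
    (F G : R4 → M) (U : Set R4) (α β : ℝ), ThetaM I F α β → IsOpen U → FB ⊆ U → EqOn F G U →
    ThetaM I G α β

/-- **W4** (the class `W` in the 4-sphere) (uses `StEI`, `StX2c`, `StThM`, `StX1`, `StX3`, `StT2`, `StCI`, `StS4`).
*Proof.* `F₀` from `IsW.rep`; `c₀` any chart (`StX2c` for `K = ∅`), `W₄ = imp c₀ univ W`.
(a) Let `G : R4 → S4` be `ThetaM`.  `G '' FB` and `(c₀ ∘ F₀) '' FB` are compact with empty interior (`StEI`; `FB` is compact, `StS4`), so there is a chart `c` whose image contains both (`StX2c` for the union, `interior_union_isClosed_of_interior_empty`).  `F p = Function.invFun c (G p)`: `c (F p) = G p` on `FB` and near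
`FB` (the image of `c` is open); `Function.invFun c` is a local diffeomorphism at the points of the image of `c` (`c` is an injective local diffeomorphism; or use `StX3` for `L = SP`, `flat 0`, ... and the proof of X3), so `F` is `ThetaM` (`StThM` (iii)) and `Theta`, `Thin F W` (`IsW.all`), and `Thin (c ∘ F) (imp c univ W)` (`StX1`),
`Thin G (imp c univ W)` (`StT2` (v)).  The same for `c₀ ∘ F₀` (which is `ThetaM` by `StThM` (ii), (iii)): `Thin (c₀ ∘ F₀) (imp c univ W)`; also `Thin (c₀ ∘ F₀) (imp c₀ univ W)` by `StX1`.  By uniqueness `CIsot (imp c univ W) W₄`, so `Thin G W₄` (`StT2` (iv)).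
(b) For every chart `c`: `c ∘ F₀` is `ThetaM`, so `Thin (c ∘ F₀) W₄` by (a) and `Thin (c ∘ F₀) (imp c univ W)` by `StX1`: `CIsot (imp c univ W) W₄`.
(c) `CIsot (W₄ ∘ W₄) id`: `StX1` (`imp c univ` is multiplicative and respects `CIsot`; `imp c univ id = id`).
(d) `Ψ` a diffeomorphism of `S4` with inverse `Ψ'`: `Ψ ∘ G` is `ThetaM` for `G = c₀ ∘ F₀`, so `Thin (Ψ ∘ G) W₄`, and `Thin (Ψ ∘ G) (Ψ ∘ W₄ ∘ Ψ')` (`StT2` (vi)). -/
def StW4 : Prop :=
  ∀ W : R4 → R4, IsW W → ∃ (W₄ : S4 → S4) (c₀ F₀ : R4 → S4) (α₀ β₀ : ℝ),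
    (∀ (G : R4 → S4) (α β : ℝ), ThetaM (𝓡 4) G α β → Thin (𝓡 4) G W₄) ∧
    (∀ c : R4 → S4, EmbOn (𝓡 4) c univ → CIsot (𝓡 4) (imp c univ W) W₄) ∧
    CIsot (𝓡 4) (fun x => W₄ (W₄ x)) (fun x => x) ∧
    (∀ Ψ Ψ' : S4 → S4, ContMDiff (𝓡 4) (𝓡 4) ∞ Ψ → ContMDiff (𝓡 4) (𝓡 4) ∞ Ψ' →
      (∀ x, Ψ (Ψ' x) = x) → (∀ x, Ψ' (Ψ x) = x) →
      CIsot (𝓡 4) (fun x => Ψ (W₄ (Ψ' x))) W₄) ∧
    EmbOn (𝓡 4) c₀ univ ∧ ThetaM (𝓡 4) F₀ α₀ β₀ ∧ Thin (𝓡 4) F₀ W₄

/-- **THE MAIN THEOREM OF STAGE 2.** -/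
def StFinal2 : Prop :=
  ∃ (W : S4 → S4) (B₀ δ₀ : PartialDiffeomorph 𝓘(ℝ, R4) (𝓡 4) R4 S4 ∞),
    -- `W` is an implantation of a barbell whose cuffs bound disjoint balls
    (Pool.Agent.Helper65.Barb.NB ⊆ B₀.source ∧ flat 0 ∪ flat 1 ⊆ δ₀.source ∧ (∀ p ∈ sph 0 ∪ sph 1, δ₀ p = B₀ p) ∧
      W = implantation B₀ barMap) ∧
    -- `W` has order at most two and is central
    Isot (𝓡 4) (fun x => W (W x)) (fun x => x) ∧
    (∀ Ψ Ψ' : S4 → S4, ContMDiff (𝓡 4) (𝓡 4) ∞ Ψ → ContMDiff (𝓡 4) (𝓡 4) ∞ Ψ' →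
      (∀ x, Ψ (Ψ' x) = x) → (∀ x, Ψ' (Ψ x) = x) →
      Isot (𝓡 4) (fun x => Ψ (W (Ψ' x))) W) ∧
    -- theta barbells
    (∀ (B : PartialDiffeomorph 𝓘(ℝ, R4) (𝓡 4) R4 S4 ∞) (β : R4 → R4) (G : R4 → S4)
      (U : Set R4) (a b : ℝ), Pool.Agent.Helper65.Barb.NB ⊆ B.source → IsBarbellMap β → ThetaM (𝓡 4) G a b →
      IsOpen U → SP ⊆ U → EqOn B G U → Isot (𝓡 4) (implantation B β) W) ∧
    -- bar independence up to `W`
    ∀ (B B' : PartialDiffeomorph 𝓘(ℝ, R4) (𝓡 4) R4 S4 ∞) (β β' : R4 → R4) (U : Set R4),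
      Pool.Agent.Helper65.Barb.NB ⊆ B.source → Pool.Agent.Helper65.Barb.NB ⊆ B'.source → IsBarbellMap β → IsBarbellMap β' → IsOpen U →
      sph 0 ∪ sph 1 ⊆ U → EqOn B B' U →
      Isot (𝓡 4) (implantation B' β') (implantation B β) ∨
        Isot (𝓡 4) (implantation B' β') (fun x => W (implantation B β x))

end Pool.Agent.Helper70.BI
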