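import Pool.Agent.Helper70.BI.StF2

/-!
# Project BI, stage 2, module EI: images of compact subsets of the hyperplane have empty interior
-/

set_option autoImplicit false

open scoped Manifold ContDiff Topology ComplexConjugate
open Set Filter Pool.Agent.Helper65.Barb Pool.Agent.Helper18.BI

namespace Pool.Agent.Helper70.BI

namespace EI
variable {E : Type*} [NormedAddCommGroup E] [NormedSpace ℝ E] {H : Type*} [TopologicalSpace H]
  {I : ModelWithCorners ℝ E H} {M : Type*} [TopologicalSpace M] [ChartedSpace H M] [T2Space M]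

theorem piece (Φ : PartialDiffeomorph 𝓘(ℝ, R4) I R4 M ∞) {K : Set R4} (hK : IsCompact K)
    (hs : K ⊆ Φ.source) (h1 : ∀ p ∈ K, p.1 = 1 / 2) :
    IsCompact (Φ '' K) ∧ interior (Φ '' K) = ∅ := by
  refine ⟨hK.image_of_continuousOn (Φ.contMDiffOn_toFun.continuousOn.mono hs), ?_⟩
  rw [eq_empty_iff_forall_notMem]
  intro y hy
  have hc : ContinuousOn Φ Φ.source := Φ.contMDiffOn_toFun.continuousOn
  have hV : IsOpen (Φ.source ∩ Φ ⁻¹' interior (Φ '' K)) :=
    hc.isOpen_inter_preimage Φ.open_source isOpen_interior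
  have hVS : Φ.source ∩ Φ ⁻¹' interior (Φ '' K) ⊆ K := by
    rintro p ⟨hp1, hp2⟩
    obtain ⟨p', hp', he⟩ := interior_subset hp2
    have := Φ.injOn (hs hp') hp1 he
    rwa [← this]
  obtain ⟨p, hp, he⟩ := interior_subset hy
  have hpV : p ∈ Φ.source ∩ Φ ⁻¹' interior (Φ '' K) := ⟨hs hp, by
    change Φ p ∈ interior (Φ '' K)
    rw [he]
    exact hy⟩
  have h2 : IsOpen ((fun q : R4 => q.1) '' (Φ.source ∩ Φ ⁻¹' interior (Φ '' K))) :=
    isOpenMap_fst _ hV
  have h3 : (fun q : R4 => q.1) '' (Φ.source ∩ Φ ⁻¹' interior (Φ '' K)) ⊆ {1 / 2} := by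
    rintro _ ⟨q, hq, rfl⟩
    exact h1 q (hVS hq)
  have h4 : p.1 ∈ interior ({1 / 2} : Set ℝ) :=
    interior_maximal h3 h2 (mem_image_of_mem (fun q : R4 => q.1) hpV)
  rw [interior_singleton] at h4
  exact h4

end EI

theorem m_EI : StEI := by
  intro E _ _ H _ I M _ _ _ G L hL h1 hloc
  have hcont : ContinuousOn G L := by
    intro p hp
    obtain ⟨Φ, hpΦ, heq⟩ := hloc p hp
    have hc : ContinuousAt Φ p :=
      Φ.contMDiffOn_toFun.continuousOn.continuousAt (Φ.open_source.mem_nhds hpΦ)
    have he : (Φ : R4 → M) =ᶠ[𝓝 p] G := by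
      filter_upwards [Φ.open_source.mem_nhds hpΦ] with q hq
      exact (heq hq).symm
    exact (hc.congr he).continuousWithinAt
  have hcomp : IsCompact (G '' L) := hL.image_of_continuousOn hcont
  refine ⟨hcomp, ?_⟩
  have key : interior (closure (G '' L)) = ∅ := by
    refine hL.induction_on (p := fun S => interior (closure (G '' S)) = ∅) ?_ ?_ ?_ ?_
    · simp
    · intro s t hst ht
      exact eq_empty_of_subset_empty (ht ▸ interior_mono (closure_mono (image_mono hst)))
    · intro s t hs ht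
      rw [image_union, closure_union,
        interior_union_isClosed_of_interior_empty isClosed_closure ht, hs]
    · intro p hp
      obtain ⟨Φ, hpΦ, heq⟩ := hloc p hp
      obtain ⟨r, hr, hball⟩ := Metric.nhds_basis_closedBall.mem_iff.1 (Φ.open_source.mem_nhds hpΦ)
      have hK : IsCompact (Metric.closedBall p r ∩ L) := (isCompact_closedBall p r).inter hL
      obtain ⟨k1, k2⟩ := EI.piece Φ hK (inter_subset_left.trans hball) (fun q hq => h1 q hq.2)
      have e : G '' (Metric.closedBall p r ∩ L) = Φ '' (Metric.closedBall p r ∩ L) :=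
        image_congr fun q hq => heq (hball hq.1)
      refine ⟨Metric.closedBall p r ∩ L, ?_, ?_⟩
      · exact inter_mem (mem_nhdsWithin_of_mem_nhds (Metric.closedBall_mem_nhds p hr))
          self_mem_nhdsWithin
      · rw [e, k1.isClosed.closure_eq, k2]
  rwa [hcomp.isClosed.closure_eq] at key

end Pool.Agent.Helper70.BI
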