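import Pool.Agent.Helper70.BI.Base
import Pool.Agent.Helper18.BI.StFr
import Pool.Agent.Helper34.BI.StD

/-!
# Project BI, part (E), section U: germs both of whose cuffs bound flat balls

Statements (as `Prop` definitions) with complete proofs in the docstrings.  A module `M_X` proves
`theorem m_X : StX` (possibly from other statements as hypotheses `(h : StY)`).  Everything is in
`M = R4`; `LD F p` = local diffeomorphism at `p`, `core F a = F (ax a)`, `ax a = (1/2, (a, 0))`,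
`Eqv F F'` = same implantation class (Base.lean).  The result of this file is `StUT`.
-/

set_option autoImplicit false

open scoped Manifold ContDiff Topology ComplexConjugate
open Set Filter Pool.Agent.Helper65.Barb Pool.Agent.Helper18.BI

namespace Pool.Agent.Helper70.BI

open Pool.Agent.Helper34.BI (cfac BarData barFam)

/-! ## definitions -/

/-- the centre `(c, 0)` in three-space; `ax c = (1/2, pc c)` -/
noncomputable def pc (c : ℝ) : R3 := (c, 0)

/-- The core of the bar of `F` crosses the interior of the flat ball around `(1/2, (c, 0))` at the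
parameter `γ`, transversally, with the sign of `e`. -/
def CrossAt (F : R4 → R4) (c γ e : ℝ) : Prop :=
  ∃ x₀ : R3, nsq (x₀ - pc c) < 1 / 25 ∧ core F γ = F (1 / 2, x₀) ∧
    ∃ (l : ℝ) (v : R3), 0 < e * l ∧
      fderiv ℝ F (ax γ) (0, ((1 : ℝ), (0 : ℂ))) = fderiv ℝ F (1 / 2, x₀) (l, v)

/-- `F` is a germ of an embedding along the spine and along the flat ball `flat c` (`c = 0, 1`),
disjoint from the other cuff; the core of the bar meets the flat ball only at its foot (parameter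
`1/5 + 3/5 c`) and at the parameter `γ`, where it crosses it with the sign of `e`. -/
structure Br (c : ℝ) (F : R4 → R4) (γ e : ℝ) : Prop where
  loc : ∀ p ∈ SP ∪ flat c, LD F p
  inj : InjOn F SP
  injF : InjOn F (flat c ∪ sph (1 - c))
  mem : γ ∈ Ioo (1 / 5 : ℝ) (4 / 5)
  cr : CrossAt F c γ e
  only : ∀ a ∈ Icc (1 / 5 : ℝ) (4 / 5), core F a ∈ F '' flat c → a = 1 / 5 + 3 / 5 * c ∨ a = γ

/-- Both flat balls are embedded, disjoint, and met once by the bar: first the ball at the far end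
(parameter `β`), then the ball at the near end (parameter `α`). -/
structure Theta (F : R4 → R4) (α β e d : ℝ) : Prop where
  a : Br 0 F α e
  b : Br 1 F β d
  dis : Disjoint (F '' flat 0) (F '' flat 1)
  ord : β < α

/-- In the chart `F` the strand through the flat ball `flat c` is the vertical line through the
centre. -/
def Strand (c : ℝ) (F : R4 → R4) (γ e : ℝ) : Prop :=
  ∃ τ : ℝ → ℝ, (∀ᶠ s in 𝓝 (1 / 2 : ℝ), ContDiffAt ℝ ∞ τ s) ∧ τ (1 / 2) = γ ∧
    0 < e * deriv τ (1 / 2) ∧ ∀ᶠ s in 𝓝 (1 / 2 : ℝ), F (s, pc c) = core F (τ s)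

/-- Normal form at the end `c`. -/
structure NB (c : ℝ) (F : R4 → R4) (γ e δ : ℝ) : Prop where
  br : Br c F γ e
  pos : 0 < δ
  small : δ ≤ 1 / 100
  near : ∀ p, ‖p - ax c‖ < δ → F p = p
  str : ∀ a, |a - γ| < δ → core F a = (1 / 2 + e * (a - γ), pc c)

/-- Normal form at both ends, with `α = 3/5`, `β = 2/5`. -/
structure NF (F : R4 → R4) (e d δ : ℝ) : Prop where
  th : Theta F (3 / 5) (2 / 5) e d
  a : NB 0 F (3 / 5) e δ
  b : NB 1 F (2 / 5) d δ

/-- The germ of `f` at `y₀` is realized by the end of an isotopy of `E` starting at the identity,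
supported in a compact subset of `U`. -/
def RealG {E : Type} [NormedAddCommGroup E] [NormedSpace ℝ E] (U : Set E) (y₀ : E)
    (f : E → E) : Prop :=
  ∃ G : DFam 𝓘(ℝ, E) E, (∀ y, G.f (0, y) = y) ∧
    (∃ C : Set E, IsCompact C ∧ C ⊆ U ∧ ∀ t y, y ∉ C → G.f (t, y) = y) ∧
    ∀ᶠ y in 𝓝 y₀, G.f (1, y) = f y

/-- contraction of the flat ball around `(s, c, 0)`: in three-space `x - c ↦ lam (x - c)` for
`|x - c|² ≤ 1/20`, the identity for `|x - c|² ≥ 9/100` (`cfac lam q = lam + (1-lam) step(..)`) -/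
noncomputable def clc (c lam : ℝ) (p : R4) : R4 :=
  (p.1, pc c + cfac lam (rsq c p) • (p.2 - pc c))

/-- reparametrization of the bar -/
def repm (m : ℝ → ℝ) (p : R4) : R4 := (p.1, (m p.2.1, p.2.2))

/-- admissible reparametrizations: increasing, the identity near the ends -/
def RepOK (m : ℝ → ℝ) : Prop :=
  ContDiff ℝ ∞ m ∧ (∀ a, 0 < deriv m a) ∧
    ∃ η : ℝ, 0 < η ∧ ∀ a, (a ≤ 1 / 5 + η ∨ 4 / 5 - η ≤ a) → m a = a

/-! ## realization of germs of diffeomorphisms by isotopies with small support -/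

/-- **PT** (perturbation of the identity).
*Proof.* As in module PERT (`Pool/Agent/Helper27/BI/M_PERT.lean`, on main; same proof, without the
level coordinate).  For fixed `t` the map `x ↦ x + g (t, x)` is a homeomorphism of `E`
(`ApproximatesLinearOn` the identity on `univ` with constant `1/2 < 1`).  `(t, x) ↦ (t, x + g (t, x))`
is smooth and bijective on `ℝ × E`, its derivative is injective at every point
(`‖fderiv (g (t, ·))‖ ≤ 1/2`), so its inverse is smooth by the inverse function theorem. -/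
def StPT : Prop :=
  ∀ (E : Type) [NormedAddCommGroup E] [NormedSpace ℝ E] [FiniteDimensional ℝ E] (g : ℝ × E → E),
    ContDiff ℝ ∞ g → (∀ t x y, ‖g (t, x) - g (t, y)‖ ≤ 1 / 2 * ‖x - y‖) →
    ∃ F : DFam 𝓘(ℝ, E) E, ∀ t x, F.f (t, x) = x + g (t, x)

/-- **SM** (germs close to the identity) (uses `StPT`).
*Proof.* Let `b : E → ℝ` be a smooth bump function, `1` on `ball 0 1`, `0` off `ball 0 2`, with values
in `[0, 1]` (`ContDiffBump`, finite dimension), and `K ≥ 0` a bound of `‖fderiv b‖`.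
`c = 1 / (8 (1 + 2 K))`.  Given `f`, choose `r > 0` with `closedBall y₀ (2 r) ⊆ U`, `f` smooth at all
points of `ball y₀ (3 r)`, and `‖fderiv f y - id‖ < 2 c` there (continuity of `fderiv f` near
`y₀`); then for `h y = f y - y`: `‖h y‖ ≤ 2 c · 2 r` on `closedBall y₀ (2 r)` (mean value inequality
on the convex ball, `h y₀ = 0`).  `g (t, y) = step t • b ((y - y₀) / r) • h y`: smooth (it vanishes
near every point outside `closedBall y₀ (2r)`), and the derivative in `y` is bounded by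
`(K / r) (4 c r) + 2 c = 2 c (1 + 2 K) ≤ 1/2` everywhere, so `g` satisfies the Lipschitz hypothesis
of `StPT`.  `G.f (0, y) = y`, `G.f (1, y) = f y` on `ball y₀ r`, support in `closedBall y₀ (2 r)`. -/
def StSM : Prop :=
  ∀ (E : Type) [NormedAddCommGroup E] [NormedSpace ℝ E] [FiniteDimensional ℝ E],
    ∃ c : ℝ, 0 < c ∧ ∀ (U : Set E) (y₀ : E) (f : E → E), IsOpen U → y₀ ∈ U →
      (∀ᶠ y in 𝓝 y₀, ContDiffAt ℝ ∞ f y) → f y₀ = y₀ →
      ‖fderiv ℝ f y₀ - ContinuousLinearMap.id ℝ E‖ < c → RealG U y₀ f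

/-- **TR** (compositions and translations) (uses `StPT`).
*Proof.* (i) compose the two families: `G.f (t, y) = G₂.f (t, G₁.f (t, y))` (`DFam.comp`), support in
the union of the two compact sets (if `y` is in neither then both fix it).
(ii) First a small translation: for `y₀ ∈ U` there is `ε > 0` such that for all `z, z'` in
`ball y₀ ε`: `RealG U z (y ↦ y + (z' - z))`: with `closedBall y₀ (4 r) ⊆ U`,
`g (t, y) = step t • b ((y - y₀) / (2 r)) • (z' - z)`, where `b` is a bump function (`1` on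
`ball 0 1`, `0` off `ball 0 2`), `ε ≤ r` and `2 ε K / (2 r) ≤ 1/2`; `StPT`.  The relation
`P z z' := RealG U z (y ↦ y + (z' - z))` is transitive on `U` by (i) and symmetric (by the small
case only symmetric steps are needed); `IsPreconnected.induction₂` (or the open-closed argument). -/
def StTR : Prop :=
  ∀ (E : Type) [NormedAddCommGroup E] [NormedSpace ℝ E] [FiniteDimensional ℝ E],
    (∀ (U : Set E) (y₀ : E) (f₁ f₂ : E → E), RealG U y₀ f₁ → RealG U (f₁ y₀) f₂ →
      ContinuousAt f₁ y₀ → RealG U y₀ (fun y => f₂ (f₁ y))) ∧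
    ∀ (U : Set E) (y₀ y₁ : E), IsOpen U → IsPreconnected U → y₀ ∈ U → y₁ ∈ U →
      RealG U y₀ (fun y => y + (y₁ - y₀))

/-- **GL** (the group of linear maps with positive determinant is generated by every
neighbourhood of the identity).
*Proof.* Choose a basis (`Module.finBasis`) and work with matrices `Matrix (Fin n) (Fin n) ℝ`
(`LinearMap.toMatrix`, continuous in finite dimension): `P'` holds for all matrices near `1` and is
multiplicative.  Use `Matrix.diagonal_transvection_induction` (file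
`Mathlib/LinearAlgebra/Matrix/Transvection.lean`): (1) transvections: `1 + t E_ij =
(1 + (t/N) E_ij)^N`, and for large `N` the factor is near `1`; (2) `diag D` with `det = ∏ D_i > 0`:
the number of negative entries is even; induction on this number: if there are two negative
entries `D_i, D_j` then `diag D = R · diag D'` where `D'` has `|D_i|`, `|D_j|` and `R` is `-1` on the
`i, j` coordinates and `1` elsewhere; `R` is the rotation by `π` in the `(i, j)`-plane, the `N`-th power of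
the rotation by `π/N`, near `1` for large `N`.  If all entries are positive,
`diag D = (diag (D_i^(1/N)))^N`, and `D_i^(1/N) → 1`.  (Note `det (diagonal D) = det M > 0` in the
induction principle.) -/
def StGL : Prop :=
  ∀ (E : Type) [NormedAddCommGroup E] [NormedSpace ℝ E] [FiniteDimensional ℝ E]
    (P : (E →L[ℝ] E) → Prop), (∀ A B, P A → P B → P (A.comp B)) →
    (∃ c : ℝ, 0 < c ∧ ∀ A, ‖A - ContinuousLinearMap.id ℝ E‖ < c → P A) →
    ∀ A : E →L[ℝ] E, 0 < A.det → P A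

/-- **LOC** (uses `StSM`, `StTR`, `StGL`).  A germ of an orientation preserving diffeomorphism of
`R4` can be undone by an isotopy supported in a connected open set.
*Proof.* Let `y₀ = F p`, `y₁ = p`, `f` a local inverse of `F` at `p` (from the partial
diffeomorphism): `f (F q) = q` for `q` near `p`, `f` smooth near `y₀`, `f y₀ = y₁`,
`L := fderiv f y₀ = (fderiv F p)⁻¹`, `det L > 0`.  (1) For `A` with `0 < A.det` the germ
`y ↦ z + A (y - z)` is in `RealG U' z` for every open `U'` and `z ∈ U'`: let `P A` be this statement for all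
`U', z`; it is multiplicative by `StTR` (i) and holds near the identity by `StSM`; `StGL`.
(2) `k y := y₀ + L⁻¹ (f y - y₁)` satisfies `k y₀ = y₀`, `fderiv k y₀ = id`: `RealG U y₀ k` by `StSM`.
(3) `f y = (y₀ + L (k y - y₀)) + (y₁ - y₀)`: compose (2), (1) for `L` at `z = y₀`, and the translation
(`StTR` (ii)).  So `RealG U y₀ f`: `G.f (1, y) = f y` near `y₀`, hence `G.f (1, F q) = q` near `p`. -/
def StLOC : Prop :=
  ∀ (F : R4 → R4) (p : R4) (U : Set R4), LD F p → 0 < (fderiv ℝ F p).det → IsOpen U →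
    IsPreconnected U → F p ∈ U → p ∈ U →
    ∃ G : DFam I4 R4, (∀ y, G.f (0, y) = y) ∧
      (∃ C : Set R4, IsCompact C ∧ C ⊆ U ∧ ∀ t y, y ∉ C → G.f (t, y) = y) ∧
      ∀ᶠ q in 𝓝 p, G.f (1, F q) = q

/-- **DET**.  The determinant has constant sign along `FB`, `flat 0`, `flat 1`.
*Proof.* `p ↦ (fderiv F p).det` is continuous and nonzero at the points where `F` is a local
diffeomorphism (`ld_iff`; an injective endomorphism of `R4` has nonzero determinant).  `flat c`
(`c = 0, 1`) and `neck` are convex, `flat 0 ∩ neck ∋ ax (1/5)`, `flat 1 ∩ neck ∋ ax (4/5)`, so these sets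
and their union `FB` are preconnected; a continuous nonvanishing real function on a preconnected
set has constant sign (`IsPreconnected.intermediate_value`). -/
def StDET : Prop :=
  ∀ (F : R4 → R4) (L : Set R4), (L = FB ∨ L = flat 0 ∨ L = flat 1) → (∀ p ∈ L, LD F p) →
    ∀ p ∈ L, ∀ q ∈ L, 0 < (fderiv ℝ F p).det → 0 < (fderiv ℝ F q).det

/-! ## centring -/

/-- **C1** (centring) (uses `StTR` (ii) in `E = R3` and module PERT,
`Pool.Agent.Helper27.BI.StPert`).
*Proof.* `F' = F ∘ G` with `G = G₁ ∘ G₂` level preserving.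
(1) `x₀` from `CrossAt`.  The set `U = {x : R3 | nsq (x - pc c) < 1/25}` is open and convex; `StTR` (ii) gives a
`DFam` of `R3`, at time 1 a diffeomorphism `g₁`, equal to the identity off a compact `C ⊆ U` and
`g₁ y = y + (x₀ - pc c)` near `pc c`.  `G₁ (s, x) = (s, g₁ x)`.  There is `η₁ > 0` with `nsq (x - pc c) < 1/25 - η₁`
on `C`.  `F₁ = F ∘ G₁`: `F₁ (1/2, pc c) = F (1/2, x₀) = core F γ`, and `fderiv F₁ (ax c) = fderiv F (1/2, x₀)`.
(2) `F₁` is a local diffeomorphism at `ax c` (`G₁` is a diffeomorphism, `(1/2,x₀) ∈ flat c`); let `ψ` be a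
local inverse near `core F γ`, and `y(a) = ψ (core F a) = (σ(a), ξ(a))` for `a` near `γ` (smooth; `F` is
smooth near `ax γ ∈ SP`), `F₁ (y(a)) = core F a`, `y(γ) = ax c`.  From `CrossAt`:
`fderiv F₁ (ax c) (y'(γ)) = (core F)'(γ) = fderiv F (ax γ) (0,1,0) = fderiv F₁ (ax c) (l, v)`, so `y'(γ) = (l, v)`, `σ'(γ) = l ≠ 0`.  Let `τ` be the
local inverse of `σ` (inverse function theorem in dimension one): smooth near `1/2`, `τ(1/2) = γ`,
`σ(τ(s)) = s`, `τ'(1/2) = 1/l`, so `e τ'(1/2) > 0`.  `ζ(s) = ξ(τ(s)) - pc c`, smooth near `1/2`, `ζ(1/2) = 0`.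
(3) `G₂ (s, x) = (s, x + b(x - pc c) • b'((s - 1/2)/ε) • ζ(s))` with bump functions `b` on `R3` (`1` near `0`, `0` for
`nsq ≥ 1/100`), `b'` on `ℝ` (`1` on `[-1,1]`, `0` off `[-2,2]`) and `ε` small: as `‖ζ(s)‖ ≤ C |s - 1/2| ≤ 2 C ε` on the
support, the Lipschitz constant in `x` is `≤ 1/2`; PERT gives a `DFam` with this `f` (independent of
`t`).  `G₂` is the identity on the slice `s = 1/2` and off `{rsq c ≤ 1/100}`.  `G₂ (s, pc c) = y(τ(s))` for `s` near
`1/2`.  So `F' (s, pc c) = F₁ (y(τ s)) = core F (τ s) = core F' (τ s)` (the last because `G = id` on the neck).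
(4) `G` is a diffeomorphism of `R4` with `G '' flat c = flat c`, equal to the identity where
`rsq c p ≥ 1/25 - η`.  All fields of `Br` follow (`F' = F` near `SP`; `F' '' flat c = F '' flat c`; `CrossAt` with
`x₀' = pc c`, `l' = 1/τ'(1/2)`: differentiate `F' (s, pc c) = core F' (τ s)` at `1/2`:
`fderiv F' (ax c) (1, 0) = τ'(1/2) • fderiv F' (ax γ) (0,1,0)`). -/
def StC1 : Prop :=
  ∀ (c : ℝ) (F : R4 → R4) (γ e : ℝ), (c = 0 ∨ c = 1) → Br c F γ e →
    ∃ F' : R4 → R4, Br c F' γ e ∧ (∃ η : ℝ, 0 < η ∧ ∀ p, 1 / 25 - η ≤ rsq c p → F' p = F p) ∧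
      F' '' flat c = F '' flat c ∧ Strand c F' γ e ∧ core F' γ = F' (ax c)

/-! ## contraction -/

/-- **CL** (the contraction map; compare module RC of helper34, `StRC`, for `c = 0`).
*Proof.* `l = cfac lam` is smooth jointly, `lam ≤ l ≤ 1`, monotone in `q` (`l' ≥ 0`).  For `0 < lam`:
`x ↦ l(|x|²) x` is injective: `q ↦ q l(q)²` is strictly increasing on `[0, ∞)`, so `|x|` is determined by
the image, then `x`; its derivative in the direction `v` is `l v + 2 l' ⟨x,v⟩ x`; if this is `0` then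
`(l + 2 l' |x|²) ⟨x, v⟩ = 0`, so `⟨x, v⟩ = 0` and `v = 0`. -/
def StCL : Prop :=
  ∀ c : ℝ, (c = 0 ∨ c = 1) →
    ContDiff ℝ ∞ (fun q : ℝ × R4 => clc c q.1 q.2) ∧ (∀ p, clc c 1 p = p) ∧
    ∀ lam ∈ Ioc (0 : ℝ) 1,
      EmbOn I4 (clc c lam) univ ∧ (∀ p, (clc c lam p).1 = p.1) ∧
      (∀ p : R4, rsq c p ≤ 1 / 20 → clc c lam p = (p.1, pc c + lam • (p.2 - pc c))) ∧
      (∀ p : R4, 9 / 100 ≤ rsq c p → clc c lam p = p) ∧
      (∀ a, clc c lam (ax a) = ax (c + cfac lam ((a - c) ^ 2) * (a - c))) ∧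
      (∀ p : R4, rsq c (clc c lam p) ≤ rsq c p) ∧
      (∀ a, 0 < deriv (fun a => c + cfac lam ((a - c) ^ 2) * (a - c)) a)

/-- **CTR** (contraction does not change the class) (uses `StCL`, `StFam`).
*Proof.* The family `J (t, p) = F (clc c (1 - t (1 - lam)) p)` is `FamOn SP`: for `μ ∈ [lam, 1]` the map
`clc c μ` is an injective local diffeomorphism and maps `SP` into `SP ∪ flat c`: `sph c` goes to the sphere of
squared radius `μ²/25` in `flat c`; `sph (1-c)` is fixed; a neck point `ax a` goes to `ax b` with `b - c` between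
`0` (excluded) and `a - c`, so either `ax b ∈ flat c` or `ax b ∈ neck`.  `F` is a local diffeomorphism there.
Injectivity of `F` on `clc c μ '' SP`: let `p, q` be in this set, `F p = F q`, `p ≠ q`.  `F` is injective on `SP` and on
`flat c ∪ sph (1-c)`, so one of them, say `p`, is in `flat c` and not on the neck, and `q` is on the neck,
not in `flat c`.  Then `q = ax a`, `core F a ∈ F '' flat c`, so `a` is the foot (then `q ∈ flat c`, contradiction) or
`a = γ`, `F p = core F γ = F (ax c)`, so `p = ax c` by `injF`; but `ax c ∉ clc c μ '' SP` (`clc c μ` fixes `ax c`,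
is injective, and `ax c ∉ SP`).  `famOn_comp` (constant family of `F` along `clc` images; or `famOn_iff`
directly), `StFam`; at `t = 0`: `clc c 1 = id`. -/
def StCTR : Prop :=
  ∀ (c : ℝ) (F : R4 → R4) (γ : ℝ), (c = 0 ∨ c = 1) → (∀ p ∈ SP ∪ flat c, LD F p) → InjOn F SP →
    InjOn F (flat c ∪ sph (1 - c)) → core F γ = F (ax c) →
    (∀ a ∈ Icc (1 / 5 : ℝ) (4 / 5), core F a ∈ F '' flat c → a = 1 / 5 + 3 / 5 * c ∨ a = γ) →
    ∀ lam ∈ Ioc (0 : ℝ) 1,
      EmbOn I4 (fun p => F (clc c lam p)) SP ∧ Eqv F (fun p => F (clc c lam p))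

/-! ## reparametrization of the bar -/

/-- **RM** (increasing functions with prescribed germs).
*Proof.* (1) One point.  Choose `ε > 0` with `μ` smooth, `μ' > 0` on `[x - ε, x + ε]`, and
`a₀ < x - ε`, `x + ε < b₀`, `a₀ < μ(x - ε)`, `μ(x + ε) < b₀`.  It suffices to construct the left half: a
smooth `m` on `(-∞, x]` with `m' > 0`, `m a = a` for `a ≤ a₀ + η`, `m = μ` near `x`; the right half is symmetric, and
the two halves fit together because both are `μ` near `x`.  Let `D = θ₁ + θ₂ μ' + κ₁ + κ₂ b` on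
`[a₀, x]`, where `θ₁` is a smooth cutoff, `1` for `a ≤ a₀ + η`, `0` for `a ≥ a₀ + 2η`; `θ₂` is `1` on `[x - η, x]`, `0` for
`a ≤ x - 2η`; `b ≥ 0` is a bump function with support in `(a₀ + η, x - η)`, positive on `[a₀ + 2η, x - 2η]`... choose
`b > 0` exactly on `(a₀ + η, x - η)`; then `D = θ₁ + θ₂ μ' + κ b` is positive for every `κ > 0`; its integral over
`[a₀, x]` is a continuous increasing function of `κ > 0` tending to `∞`, with limit at `κ → 0` at most
`2η + 2η max μ' < μ(x) - a₀` for small `η`; choose `κ` with `∫_{a₀}^{x} D = μ(x) - a₀` (intermediate value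
theorem) and `m a = a₀ + ∫_{a₀}^{a} D` (with `D = 1` for `a < a₀`).  Then `m a = a` for `a ≤ a₀ + η` and
`m a = μ(x) - ∫_a^x μ' = μ(a)` on `[x - η, x]`.
(2) Two points.  Choose `z ∈ (x₁, x₂)`, `z' ∈ (y₁, y₂)`; by (1) there is `n` with `n = (· + (z' - z))` near `z`, `n = id` near
the ends of `(1/5, 4/5)`.  Let `n⁻¹` be the inverse function (smooth).  By (1) on `(1/5, z)` there is `m₁` with
`m₁ = n⁻¹ ∘ μ₁` near `x₁`, the identity for `a ≤ 1/5 + η` and `a ≥ z - η`; by (1) on `(z, 4/5)` there is `m₂` with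
`m₂ = n⁻¹ ∘ μ₂` near `x₂`, the identity for `a ≤ z + η`, `a ≥ 4/5 - η`.  `m = n ∘ m₁ ∘ m₂`. -/
def StRM : Prop :=
  (∀ (a₀ b₀ x y : ℝ) (μ : ℝ → ℝ), a₀ < x → x < b₀ → a₀ < y → y < b₀ →
    (∀ᶠ a in 𝓝 x, ContDiffAt ℝ ∞ μ a) → μ x = y → 0 < deriv μ x →
    ∃ m : ℝ → ℝ, ContDiff ℝ ∞ m ∧ (∀ a, 0 < deriv m a) ∧ (∀ᶠ a in 𝓝 x, m a = μ a) ∧
      ∃ η : ℝ, 0 < η ∧ ∀ a, (a ≤ a₀ + η ∨ b₀ - η ≤ a) → m a = a) ∧
  ∀ (x₁ x₂ y₁ y₂ : ℝ) (μ₁ μ₂ : ℝ → ℝ), 1 / 5 < x₁ → x₁ < x₂ → x₂ < 4 / 5 → 1 / 5 < y₁ →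
    y₁ < y₂ → y₂ < 4 / 5 → (∀ᶠ a in 𝓝 x₁, ContDiffAt ℝ ∞ μ₁ a) →
    (∀ᶠ a in 𝓝 x₂, ContDiffAt ℝ ∞ μ₂ a) → μ₁ x₁ = y₁ → μ₂ x₂ = y₂ → 0 < deriv μ₁ x₁ →
    0 < deriv μ₂ x₂ →
    ∃ m : ℝ → ℝ, RepOK m ∧ (∀ᶠ a in 𝓝 x₁, m a = μ₁ a) ∧ ∀ᶠ a in 𝓝 x₂, m a = μ₂ a

/-- **RG** (uses `StFam`).  Reparametrization of the bar does not change the class.
*Proof.* `M (t, (s, a, w)) = (s, (1-t) a + t m(a), w)` is smooth, each `M_t` (`t ∈ [0,1]`) is injective
with invertible derivative (`(1-t) + t m' > 0`), and maps `SP` into `SP`: it is the identity for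
`a ≤ 1/5`, `a ≥ 4/5` (so on the spheres), and maps the neck into the neck (monotone, fixes `1/5`, `4/5`).
`eqv_precomp`.  The last claims: `m` is a bijection of `[1/5, 4/5]` and the identity outside. -/
def StRG : Prop :=
  ∀ m : ℝ → ℝ, RepOK m → EmbOn I4 (repm m) univ ∧ (∀ a, repm m (ax a) = ax (m a)) ∧
    (∀ c : ℝ, (c = 0 ∨ c = 1) → ∀ p ∈ flat c, ∀ᶠ q in 𝓝 p, repm m q = q) ∧
    (∀ a ∈ Icc (1 / 5 : ℝ) (4 / 5), m a ∈ Icc (1 / 5 : ℝ) (4 / 5)) ∧ StrictMono m ∧
    ∀ F : R4 → R4, EmbOn I4 F SP →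
      EmbOn I4 (fun p => F (repm m p)) SP ∧ Eqv F (fun p => F (repm m p))

/-! ## homotopy of bars without crossings -/

/-- **HL** (uses `StFam`, `StFr`).  Two germs with the same cuffs whose cores are joined by a smooth
family of embedded arcs disjoint from the cuffs have the same class.
*Proof.* `J = barFam F c H δ` (`Pool/Agent/Helper34/BI/Thick.lean`).  It is `FamOn I4 J SP` (`famOn_iff`):
`BarData.eventually_smooth`, `BarData.embOn`.  So `Eqv (J (0, ·)) (J (1, ·))`.  `J (0, ·)` and `F` agree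
near the spheres (`barFam_eq`) and on the neck (`barFam_neck`, `H (0, a) = c a`): `Eqv F (J (0, ·))` by the
framing lemma `StFr`.  `J (1, ·)` and `F'` agree near the spheres (`barFam_eq`, `NearEq F F'`) and on the neck:
again `StFr`. -/
def StHL : Prop :=
  ∀ (F F' : R4 → R4) (c : ℝ → R4) (H : ℝ × ℝ → R4) (δ : ℝ), EmbOn I4 F SP → EmbOn I4 F' SP →
    NearEq F F' (sph 0 ∪ sph 1) → BarData F c H δ →
    (∀ a ∈ Icc (1 / 5 : ℝ) (4 / 5), H (0, a) = c a ∧ H (1, a) = core F' a) →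
    (∀ t ∈ Icc (0 : ℝ) 1, ∀ a ∈ Icc (1 / 5 : ℝ) (4 / 5), fderiv ℝ H (t, a) (0, 1) ≠ 0) →
    (∀ t ∈ Icc (0 : ℝ) 1, InjOn (fun a => H (t, a)) (Icc (1 / 5) (4 / 5))) →
    (∀ t ∈ Icc (0 : ℝ) 1, ∀ a ∈ Ioo (1 / 5 : ℝ) (4 / 5), H (t, a) ∉ F '' (sph 0 ∪ sph 1)) →
    Eqv F F'

/-! ## normal form and uniqueness -/

/-- **NF1** (normal form at one end, keeping the other end) (uses `StC1`, `StLOC`, `StDET`,
`StFam`).
*Proof.* `StC1` gives `F₁` (`F₁ = F` where `rsq c p ≥ 1/25 - η`, so near `SP` and near `flat (1-c)`), with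
`Strand c F₁ γ e`; `F₁ (ax c) = core F₁ γ = core F γ`.  `Eqv F F₁` (`eqv_of_nearEq`).  `0 < det` at
`ax c` for `F₁`: by `StDET` on `flat c`, comparing at the point `ax (1/5 + 3/5 c) ∈ flat c`, where `F₁ = F` near it.
`StLOC` for `F₁`, `p = ax c`, `U`: `G` with `G.f (1, F₁ q) = q` near `ax c`.  `F' = G.f (1, F₁ ·)`.  `Eqv F₁ F'` by
`eqv_postcomp`.  `G₁ := G.f (1, ·)` is a diffeomorphism of `R4`, so all fields of `Br c` for `F₁` give
those of `F'` (images under `G₁`; derivatives: compose with `fderiv G₁`; `l`, `v` unchanged), same for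
the strand.  Near `ax c`: `F' = id`.  The last three claims: `F' q = G₁ (F q)` where `F₁ = F`, and `G₁ y = y` off
a compact subset of `U`. -/
def StNF1 : Prop :=
  ∀ (c : ℝ) (F : R4 → R4) (γ e : ℝ) (U : Set R4), (c = 0 ∨ c = 1) → Br c F γ e →
    0 < (fderiv ℝ F (ax (1 / 5 + 3 / 5 * c))).det → IsOpen U → IsPreconnected U →
    core F γ ∈ U → ax c ∈ U →
    ∃ (F' : R4 → R4) (G : DFam I4 R4), Eqv F F' ∧ Br c F' γ e ∧ Strand c F' γ e ∧
      core F' γ = F' (ax c) ∧ (∀ᶠ q in 𝓝 (ax c), F' q = q) ∧ (∀ y, G.f (0, y) = y) ∧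
      (∃ C : Set R4, IsCompact C ∧ C ⊆ U ∧ ∀ t y, y ∉ C → G.f (t, y) = y) ∧
      (∃ η : ℝ, 0 < η ∧ ∀ p, 1 / 25 - η ≤ rsq c p → F' p = G.f (1, F p)) ∧
      F' '' flat c = (fun y => G.f (1, y)) '' (F '' flat c)

/-- **NF2** (reparametrization of a germ in normal form) (uses `StRG`).
*Proof.* `F' = F ∘ repm m`; all fields by `StRG`: `repm m` is the identity near `flat c` and near both
spheres, maps the neck onto itself.  `core F' a = core F (m a)`.  For `a` near `γ'`: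
`m a = τ (1/2 + e (a - γ'))`, so `core F' a = core F (τ s) = F (s, pc c) = (s, pc c)` with
`s = 1/2 + e (a - γ')` near `1/2` (`F = id` near `ax c`).  `only`: `core F (m a) ∈ F '' flat c` iff `m a` is the foot
(iff `a` is the foot) or `m a = γ = m γ'`.  `CrossAt` at `γ'`: `fderiv F' (ax γ') (0,1,0) = (core F')'(γ') = (e, 0)` by the
formula, `F' = id` near `ax c`, so `(l, v) = (e, 0)`, `e l = e² = 1 > 0`.  `δ` small. -/
def StNF2 : Prop :=
  ∀ (c : ℝ) (F : R4 → R4) (γ γ' e : ℝ) (τ m : ℝ → ℝ), (c = 0 ∨ c = 1) → (e = 1 ∨ e = -1) →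
    Br c F γ e → (∀ᶠ q in 𝓝 (ax c), F q = q) → τ (1 / 2) = γ →
    (∀ᶠ s in 𝓝 (1 / 2 : ℝ), F (s, pc c) = core F (τ s)) → RepOK m →
    γ' ∈ Ioo (1 / 5 : ℝ) (4 / 5) → (∀ᶠ a in 𝓝 γ', m a = τ (1 / 2 + e * (a - γ'))) →
    ∃ δ₀ : ℝ, 0 < δ₀ ∧ ∀ δ ∈ Ioc 0 δ₀, NB c (fun p => F (repm m p)) γ' e δ

/-- **NF** (normal form at both ends) (uses `StNF1`, `StNF2`, `StRM`, `StRG`, `StDET`, `StFam`).
*Proof.* First end: `StNF1` with `c = 0`, `U = univ`: `F₁`, `G`.  `F₁ = G₁ ∘ F` near `SP ∪ flat 1` (where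
`rsq 0 p ≥ 1/25 - η`), `G₁ = G.f (1, ·)` a diffeomorphism, so `Br 1 F₁ β d` (all fields are
transported by the diffeomorphism `G₁`), the images of the two flat balls are disjoint (images under `G₁` of
`F '' flat 0` and `F '' flat 1`), and the determinant is positive at `ax (4/5)` (`StDET`
for `F₁` on `FB`: `F₁` is the identity near `ax 0`, so the determinant is `1 > 0` there).
Second end: `StNF1` with `c = 1`, `F₁`, and `U = {ax 0}ᶜ` (open; preconnected:
`isPreconnected_compl_singleton_of_one_lt_rank` or similar, `R4` has dimension `4`); `core F₁ β ≠ ax 0` because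
`core F₁ β ∈ F₁ '' flat 1` and `ax 0 = F₁ (ax 0) ∈ F₁ '' flat 0`.  `F₂`, `G'`: `F₂ = G'₁ ∘ F₁` near `SP ∪ flat 0`, `G'₁` is the identity near
`ax 0`, so `F₂ = id` near `ax 0`, `Br 0 F₂ α e`, and the strand at `0` is kept: `F₂ (s, pc 0) = G'₁ (F₁ (s, pc 0)) =
G'₁ (core F₁ (τ s)) = core F₂ (τ s)`.  Disjointness again.  Let `τ₀`, `τ₁` be the functions of the two strands
(`τ₀(1/2) = α`, `τ₁(1/2) = β`), `μ₂ a = τ₀ (1/2 + e (a - 3/5))`, `μ₁ a = τ₁ (1/2 + d (a - 2/5))`; their derivatives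
at `3/5`, `2/5` are `e τ₀'(1/2) > 0`, `d τ₁'(1/2) > 0`.  `StRM` (2) with `x₁ = 2/5`, `x₂ = 3/5`, `y₁ = β`, `y₂ = α` gives `m`;
`StNF2` for both ends, `F' = F₂ ∘ repm m`; `StRG`: `Eqv F₂ F'`. -/
def StNF : Prop :=
  ∀ (F : R4 → R4) (α β e d : ℝ), (e = 1 ∨ e = -1) → (d = 1 ∨ d = -1) → Theta F α β e d →
    0 < (fderiv ℝ F (ax (1 / 2))).det → ∃ (F' : R4 → R4) (δ : ℝ), NF F' e d δ ∧ Eqv F F'

/-- **HOM** (uniqueness of the normal form) (uses `StCL`, `StCTR`, `StHL` and
`Pool.Agent.Helper34.BI.exists_genPos`).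
*Proof.* Replace `δ`, `δ'` by the minimum (the fields of `NB` are monotone in `δ`).
(1) Extended cores: `c a = core F a` for `a ∈ [δ/2, 1 - δ/2]`, `c a = ax a` otherwise; smooth on `ℝ` (`F` is smooth
near `ax a` for `a ∈ [0,1]`, and `core F a = ax a` for `a ∈ [0,δ) ∪ (1-δ,1]`); same for `c'`.  `c = c' = ax` for `a < δ` and for
`a > 1 - δ`, and `c = c'` for `|a - 3/5| < δ` and for `|a - 2/5| < δ`.  For `a < b` in `[0,1]`: `c a = c b` only if
`(a, b) = (0, 3/5)` or `(a, b) = (2/5, 1)`: if both are in `[1/5, 4/5]`: `inj`; if `a ∈ [0, 1/5]`, `b ∈ [1/5, 4/5]`: `core F b ∈ F '' flat 0`, so `b = 1/5`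
(then `a = 1/5` by `injF`) or `b = 3/5`, `core F (3/5) = ax 0 = F (ax 0)` and `a = 0`; similarly at the other end;
`a ∈ [0,1/5]`, `b ∈ [4/5,1]`: disjoint flat balls; both in `[0,1/5]`: `injF`.  `deriv c a ≠ 0` for `a ∈ [0,1]` (the derivative of a local
diffeomorphism is injective).  Same for `c'`.
(2) `h (t, a) = (1 - step t) • c a + step t • c' a`, `ρ t = hat 0 1 t` (nonzero exactly for `0 < t < 1`, Arcs.lean),
`χ` = sum of the three `hat` functions of the intervals `(δ/2, 2/5 - δ/2)`, `(2/5 + δ/2, 3/5 - δ/2)`,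
`(3/5 + δ/2, 1 - δ/2)`; `exists_genPos` with empty index types for surfaces and curves (`Y = ℂ`) gives `v, w`; `H = fam h ρ χ v w`.
For all `t ∈ [0,1]`: `H (t, a) = c a` if `χ a = 0` (there `c = c'`); `H (t, ·)` is immersed on `[0,1]` and
`H (t, a) = H (t, b)`, `a < b` in `[0,1]` only for `(0, 3/5)`, `(2/5, 1)` (if `ρ t ≠ 0` and `χ a ≠ 0` or `χ b ≠ 0`: `GenPos.inj`;
otherwise the values are those of `c` or of `c'`).
(3) By compactness there is `μ > 0` such that `‖H (t, a) - ax 0‖ ≥ μ` for `t ∈ [0,1]`,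
`a ∈ [δ/2, 1]`, `|a - 3/5| ≥ δ/2`, and `‖H (t, a) - ax 1‖ ≥ μ` for `a ∈ [0, 1 - δ/2]`, `|a - 2/5| ≥ δ/2` (`ax 0 = H (t, 0)`, `ax 1 = H (t, 1)`).
Let `0 < lam ≤ 1` with `lam < μ`, `lam < δ/2`.
(4) `F_l = F ∘ clc 0 lam ∘ clc 1 lam`.  `StCTR` for `c = 0`, `F`; and for `c = 1` and `F ∘ clc 0 lam` (`γ = 2/5`): its hypotheses
hold: near `flat 1`, `clc 0 lam` is the identity (`rsq 0 ≥ 16/25`); `clc 0 lam '' sph 0 ⊆ flat 0`, whose image is disjoint
from `F '' flat 1`; `core (F ∘ clc 0 lam) a = core F b` with `b = cfac lam (a²) a`, `b = a` for `a ≥ 3/10`, `b < 3/10` for `a < 3/10`, and for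
`b < 1/5`, `core F b ∈ F '' flat 0`.  So `EmbOn F_l SP` and `Eqv F F_l`; same for `F'_l`.
(5) `StHL` for `F_l`, `F'_l`.  Let `b a` be the `a`-coordinate of `clc 0 lam (clc 1 lam (ax a))` (`StCL`): smooth,
`b' > 0`, `b a = a` for `3/10 ≤ a ≤ 7/10`, `b a = lam a` for `|a| ≤ 11/50`, `1 - b a = lam (1 - a)` for `|1 - a| ≤ 11/50`;
`c_l a = c (b a)`, `H_l (t, a) = H (t, b a)`, `δ'' = 1/50`.  `NearEq F_l F'_l (sph 0 ∪ sph 1)`: near `sph 0` both are
`(s, lam x)` (`F = F' = id` within `δ` of `ax 0`, `lam/5 < δ`).  `BarData F_l c_l H_l (1/50)`: frozen: for `a ≤ 11/50`, `b a ≤ δ/2`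
(`b a = lam a` or `b a < 0`), so `χ (b a) = 0`.  Embedded and immersed on `[1/5, 4/5]`: `b` maps it to `[lam/5, 1 - lam/5] ⊂ (0,1)`, so the two
exceptional pairs do not occur.  Off the cuffs: `F_l '' sph 0 = {(1/2, x) : |x|² = lam²/25}`; for `a ∈ (1/5, 4/5)`, `u = b a ∈ (lam/5, 1 - lam/5)`:
if `u ≤ δ/2`: `H = ax u`, `|u| > lam/5`; if `|u - 3/5| < δ/2`: `H = (1/2 + e (u - 3/5), pc 0)` is in the slice `s = 1/2` only if
`u = 3/5`, where `x = 0`; otherwise the distance to `ax 0` is `≥ μ > lam/5` (on `F_l '' sph 0` it is `≤ lam/5`).  Same at the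
other end. -/
def StHOM : Prop :=
  ∀ (F F' : R4 → R4) (e d δ δ' : ℝ), (e = 1 ∨ e = -1) → (d = 1 ∨ d = -1) → NF F e d δ →
    NF F' e d δ' → Eqv F F'

/-- **Uniqueness of theta germs** with given signs and positive orientation. -/
def StUT : Prop :=
  ∀ (F F' : R4 → R4) (α β α' β' e d : ℝ), (e = 1 ∨ e = -1) → (d = 1 ∨ d = -1) →
    Theta F α β e d → Theta F' α' β' e d → 0 < (fderiv ℝ F (ax (1 / 2))).det →
    0 < (fderiv ℝ F' (ax (1 / 2))).det → Eqv F F'

theorem stUT (h1 : StNF) (h2 : StHOM) : StUT := by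
  intro F F' α β α' β' e d he hd hF hF' o o'
  obtain ⟨G, δ, n1, e1⟩ := h1 F α β e d he hd hF o
  obtain ⟨G', δ', n2, e2⟩ := h1 F' α' β' e d he hd hF' o'
  exact e1.trans ((h2 G G' e d δ δ' he hd n1 n2).trans e2.symm)

/-- part (A) gives `StFam` -/
theorem stFam_of (h : StT2) : StFam := by
  intro J hJ φ
  obtain ⟨-, -, h3, -, -, -, -⟩ := h R4 R4 I4 R4
  refine ⟨fun h0 => h3 J φ hJ h0, fun h1 => ?_⟩
  -- time reversal
  have hJ' : FamOn I4 (fun z : ℝ × R4 => J (1 - z.1, z.2)) SP := by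
    rw [famOn_iff] at hJ ⊢
    refine ⟨fun t ht p hp => ?_, fun t ht => ?_⟩
    · have h4 := hJ.1 (1 - t) ⟨by linarith [ht.2], by linarith [ht.1]⟩ p hp
      have h5 : ContinuousAt (fun z : ℝ × R4 => (1 - z.1, z.2)) (t, p) := by fun_prop
      filter_upwards [h5.eventually h4] with z hz
      exact hz.comp z (by fun_prop)
    · exact hJ.2 (1 - t) ⟨by linarith [ht.2], by linarith [ht.1]⟩
  have h6 := h3 (fun z : ℝ × R4 => J (1 - z.1, z.2)) φ hJ' (by simpa using h1)
  simpa using h6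

end Pool.Agent.Helper70.BI
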