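import Pool.Agent.Helper70.BI.StU

/-!
# Project BI, part (E), section X: the crossing lemma for stage 2
-/

set_option autoImplicit false

open scoped Manifold ContDiff Topology ComplexConjugate
open Set Filter Pool.Agent.Helper65.Barb Pool.Agent.Helper18.BI

namespace Pool.Agent.Helper70.BI

open Pool.Agent.Helper34.BI (PreCross)

/-- **CRP** (crossing lemma, form for stage 2).  When the bar crosses the first cuff, the class
changes by the class of a germ `O` whose first cuff bounds a flat ball met once by the bar, and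
which coincides with the given germ at the other end.

*Proof.* helper34's proof of `StCR` (`D1a`, `D1b`, `D2a`, `D2b`, with the shear multiplied by a cutoff which makes it
the identity for `a ≥ 1/2`).  In the notation there: `t' = T (-r₁)`, `t'' = T r₁`,
`G = J (t', shear c ·)`, `O = G ∘ rade δ 0 ∘ k₂` (near `SP` the same germ as `G ∘ Em δ ∘ k₂`, and the identity modification for `a > 1/5`),
`α = U (-r₁)` with `G (X (-r₁)) = core G α`, crossing point `x₂`: `O (1/2, x₂) = G (Em δ (1/2, x₂)) = G (X (-r₁))` because `k₂ = id`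
near `x₂`; the derivative of `rade δ 0` at `(1/2, x₂)` is `id` in the `s`-direction plus an invertible map of three-space, so the
`s`-component `l` of the strand in the chart `O` at `x₂` is the one in the chart `G` at `X`, nonzero; `e = sign l`.
`only`: `core O a = core G a = G q` with `q ∈ rade δ 0 (k₂ (flat 0)) ⊆ flat 0 ∩ {1/25 - 3δ ≤ rsq 0}`; by injectivity of `G` on `SH η \ {X}`:
`q = ax a` (foot) or `q = X` and `a = α`.  `Disjoint`: `O '' flat 0 ⊆ G '' {p ∈ flat 0 | 1/25 - 3δ ≤ rsq 0 p}`, and `J t₀ '' sph 0` is at positive distance from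
`C`; the collars and `t' - t₀` (and so `G - J (t₀, ·)` on them: `J` is constant in time near `sph 0`, `shear` fixes `sph 0`) are small. -/
def StCRP : Prop :=
  ∀ (J : ℝ × R4 → R4) (t₀ u₀ : ℝ) (p₀ : R4), PreCross J t₀ u₀ p₀ → ∀ C : Set R4, IsCompact C →
    Disjoint C ((fun p => J (t₀, p)) '' sph 0) → ∀ ε > 0,
    ∃ t₁ ∈ Ioo (t₀ - ε) t₀, ∃ t₂ ∈ Ioo t₀ (t₀ + ε), EmbOn I4 (fun p => J (t₁, p)) SP ∧
      EmbOn I4 (fun p => J (t₂, p)) SP ∧ ∃ t' t'' : ℝ, (t' = t₁ ∧ t'' = t₂ ∨ t' = t₂ ∧ t'' = t₁) ∧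
      ∃ (O : R4 → R4) (α e : ℝ), |α - u₀| < ε ∧ (e = 1 ∨ e = -1) ∧ Br 0 O α e ∧
        (∀ a ∈ Icc (1 / 5 : ℝ) (4 / 5), core O a = core (fun p => J (t', p)) a) ∧
        (∀ p : R4, 1 / 2 < p.2.1 → O p = J (t', p)) ∧ Disjoint C (O '' flat 0) ∧
        ∀ φ' φ'' n : R4 → R4, Thin I4 (fun p => J (t', p)) φ' → Thin I4 (fun p => J (t'', p)) φ'' →
          Thin I4 O n → CIsot I4 φ' (fun x => n (φ'' x))

end Pool.Agent.Helper70.BI
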