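import Pool.Agent.Helper70.BI.StS
import Pool.Agent.Helper70.BI.StX
import Pool.Agent.Helper34.BI.Arcs2
import Pool.Agent.Helper34.BI.BF

/-!
# Project BI, part (E), section L: lassos, and the main theorem of stage 2

Statements (as `Prop` definitions) with complete proofs in the docstrings.  A module `M_X` proves
`theorem m_X : StX` (possibly from other statements as hypotheses `(h : StY)`).

Plan.  A germ with `Br 1 F γ e` (the second cuff bounds a flat ball met once by the bar) is joined to a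
lasso (a germ of trivial class whose bar runs through the ball and ends close to it) by a family
of germs which only crosses the first cuff, after the crossing with the ball; every crossing
changes the class by the class `W` of theta germs.  So the class is trivial or `W`.  With the
crossing lemma `StCRP` this gives the main theorem of stage 2: the class depends on the cuffs only, up to `W`.
-/

set_option autoImplicit false

open scoped Manifold ContDiff Topology ComplexConjugate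
open Set Filter Pool.Agent.Helper65.Barb Pool.Agent.Helper18.BI

namespace Pool.Agent.Helper70.BI

open Pool.Agent.Helper34.BI (cfac BarData barFam PreCross BFam GenData cst crv)
open Pool.Agent.Helper27.BI (refh refs swp StVanT StRefH StRefS StR2sw)

/-! ## lassos -/

/-- **V1** (uses `StVanT`, `StR2sw`).  A germ which extends over the second flat ball has trivial class.
*Proof.* `fun p => F (swp p)` is `EmbOn (flat 0 ∪ sph 1 ∪ neck)` (`swp` exchanges `flat 0`, `flat 1` and `sph 0`, `sph 1` and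
maps the neck to itself; see `Pool/Agent/Helper34/BI/BF.lean` for lemmas on `swp`), so its class is trivial
by `StVanT`; `StR2sw` for `F` with `φ = φ' = id`. -/
def StV1 : Prop :=
  ∀ F : R4 → R4, EmbOn I4 F (flat 1 ∪ neck ∪ sph 0) → Thin I4 F (fun x => x)

/-- squared distance from the sphere `sph 1` -/
noncomputable def tr (p : R4) : ℝ := (p.1 - 1 / 2) ^ 2 + (√(rsq 1 p) - 1 / 5) ^ 2

/-- **ROT** (rotation about `sph 1`, once around, inside the tube of radius `ε`).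
*Proof.* Write `u = s - 1/2`, `ϱ = √(rsq 1 p)`, `v = ϱ - 1/5`, `tr p = u² + v²`, and
`θ(t,p) = 2π d t step ((4/3)(1 - tr p/ε²))` (zero for `tr p ≥ ε²`).
`R.f (t, p) = (1/2 + cos θ u - sin θ v, pc 1 + ((1/5 + sin θ u + cos θ v)/ϱ) • (p.2 - pc 1))` if `ϱ > 1/10`, and `R.f (t, p) = p` if
`ϱ ≤ 1/10`; for `ϱ < 3/20` the formula also gives `p`, because then `tr p ≥ (1/20)² > ε²` and `θ = 0`; so `R.f` is smooth.
`|sin θ u + cos θ v| ≤ √(tr p) < ε < 1/5` if `θ ≠ 0`, so the new `ϱ` is `1/5 + sin θ u + cos θ v` and `tr` is preserved; the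
inverse `R.g` is the same with `-θ`.  On `sph 1`: `u = v = 0`.  If `tr p < ε²/4` then `(4/3)(1 - tr p/ε²) > 1`, `θ = 2π d t`, and `R.f (1, p) = p`.
On the axis, for `a ∈ (4/5 - ε, 4/5)`: `u = 0`, `v = 4/5 - a ∈ (0, ε)`, `(p.2 - pc 1)/ϱ = (-1, 0)`, so
`R.f (1, ax a) = (1/2 - sin θ v, (4/5 - cos θ v, 0))`, `θ = 2π d step ((4/3)(1 - v²/ε²))`; this is in `flat 1` iff `sin θ = 0` and `cos θ ≤ 0`, iff
`step (..) = 1/2`, iff `(4/3)(1 - v²/ε²) = 1/2` (`step x = 1/2` iff `x = 1/2`: `step x = f x/(f x + f (1-x))` with `f = expNegInvGlue`, zero on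
`(-∞, 0]` and strictly increasing on `[0, ∞)`), iff `v = v₁ = ε √(5/8) ∈ (ε/2, ε)`; `a₁ = 4/5 - v₁`.  There `cos θ = -1`: `R.f (1, ax a₁) = (1/2, 4/5 + v₁, 0)`.
Derivative of `a ↦ 1/2 - sin θ v` at `a₁` (`dv/da = -1`): `cos θ θ'(v₁) v₁ + sin θ = - v₁ θ'(v₁) = 2π d step'(1/2) (8/3) v₁²/ε² = d (10π/3) step'(1/2)`,
and `step'(1/2) = f'(1/2)/(2 f(1/2)) > 0` (`f x = exp (-1/x)` for `x > 0`). -/
def StROT : Prop :=
  ∀ d ε : ℝ, (d = 1 ∨ d = -1) → ε ∈ Ioo (0 : ℝ) (1 / 20) →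
    ∃ (R : DFam I4 R4) (a₁ : ℝ), (∀ p, R.f (0, p) = p) ∧
      (∀ t p, ε ^ 2 ≤ tr p → R.f (t, p) = p) ∧ (∀ t p, tr (R.f (t, p)) = tr p) ∧
      (∀ t, ∀ p ∈ sph 1, R.f (t, p) = p) ∧ (∀ p, tr p < ε ^ 2 / 4 → R.f (1, p) = p) ∧
      a₁ ∈ Ioo (4 / 5 - ε) (4 / 5 - ε / 2) ∧ R.f (1, ax a₁) = ax (8 / 5 - a₁) ∧
      (∀ a ∈ Ioo (4 / 5 - ε) (4 / 5 : ℝ), R.f (1, ax a) ∈ flat 1 → a = a₁) ∧
      0 < d * deriv (fun a => (R.f (1, ax a)).1) a₁

/-- **NO1** (a path which stays near the ball but does not cross it) (uses `StPATH`, `exists_genPos`).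
*Proof.* `U = ball (ax 1) r ∩ ({p | d (p.1 - 1/2) < 0} ∪ {p | p.2.1 < 1 - lam/5})`: open, preconnected (both sets are
convex, with a common point).  `StPATH` with `a₀ = 2/5 - r/2`, `a₁ = 79/100`, `η` small (`η < r/2`, `η ≤ 1/100`), `c₀ = c₁ = c`: on
`[a₀, a₀ + η]`: `d (s - 1/2) = a - 2/5 < 0`, distance to `ax 1` is `|a - 2/5| < r`; on `[a₁ - η, a₁]`: the `a`-coordinate is `1 - lam (1-a) < 1 - lam/5`, distance `lam (1-a) < r`.
This gives `q₀` smooth, `q₀ = c` for `a ≤ a₀ + η/2` and for `a ≥ a₁ - η/2`, `q₀ a ∈ U` on `[a₀, a₁]`.  `exists_genPos` for `h (t, a) = q₀ a`, `ρ = 1`, `χ = hat a₀ a₁`, empty index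
types (`Y = ℂ`): `q a = q₀ a + χ a • (v + a • w)`, with `v, w` so small that `q a ∈ U` on `[a₀, a₁]` (compactness); injective on `[1/5, 4/5]`: `GenPos.inj` (at `t = 0`), and if `χ a = χ b = 0` both values are values of
`c`; `deriv q ≠ 0`: `GenPos.imm`; if `χ a = 0` then `χ' a = 0` (minimum), `q₀ = c` near `a`, and `deriv q a = deriv c a`. -/
def StNO1 : Prop :=
  ∀ (c : ℝ → R4) (d δ r lam : ℝ), (d = 1 ∨ d = -1) → 0 < lam → lam < r → r < δ → δ ≤ 1 / 100 →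
    ContDiff ℝ ∞ c → InjOn c (Icc (1 / 5) (4 / 5)) →
    (∀ a ∈ Icc (1 / 5 : ℝ) (4 / 5), deriv c a ≠ 0) →
    (∀ a, |a - 2 / 5| < δ → c a = (1 / 2 + d * (a - 2 / 5), pc 1)) →
    (∀ a ∈ Icc (39 / 50 : ℝ) (4 / 5), c a = ax (1 - lam * (1 - a))) →
    ∃ q : ℝ → R4, ContDiff ℝ ∞ q ∧ (∀ a, a ≤ 2 / 5 - r / 2 → q a = c a) ∧
      (∀ a, 79 / 100 ≤ a → q a = c a) ∧
      (∀ a ∈ Icc (2 / 5 - r / 2) (79 / 100 : ℝ), ‖q a - ax 1‖ < r ∧
        (d * ((q a).1 - 1 / 2) < 0 ∨ (q a).2.1 < 1 - lam / 5)) ∧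
      InjOn q (Icc (1 / 5) (4 / 5)) ∧ ∀ a ∈ Icc (1 / 5 : ℝ) (4 / 5), deriv q a ≠ 0

/-- **NO** (a germ whose bar stays near the ball but does not cross it) (uses `StNO1`, `StCTR`, `StCL`,
`Pool.Agent.Helper34.BI.StCO`).
*Proof.* `F (ax 1) = ax 1 = core F (2/5)` (`near`, `str`).  `F p ≠ ax 1` on `sph 0` (`injF`), and `core F a ≠ ax 1` for `a ∈ [1/5, 4/5]`, `a ≠ 2/5`
(`inj`: `core F (2/5) = ax 1`): by compactness there is `r` as required (`r < δ`, `r < r₁`).  `lam₀ = r` (`r < 1/100`).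
Let `0 < lam < r`, `F_l p = F (clc 1 lam p)`, `b a = 1 + cfac lam ((a-1)²) (a-1)`; `clc 1 lam (ax a) = ax (b a)`; `b a = a` for `a ≤ 7/10`, `b a = 1 - lam (1-a)`
for `a ∈ [39/50, 1]` (`(11/50)² < 1/20`).  `F_l` is `EmbOn SP` (`StCTR`, `γ = 2/5`); near `flat 1` it is `(s, x) ↦ (s, pc 1 + lam (x - pc 1))` (`F = id` on
`ball (ax 1) δ`, `lam < δ`), so `F_l '' flat 1 = D := {(1/2, x) | nsq (x - pc 1) ≤ lam²/25}`, `F_l '' sph 1 ⊆ D`.  `F_l = F` for `p.2.1 ≤ 7/10`.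
Let `c₀ : ℝ → R4` be smooth with `c₀ a = core F_l a` and `deriv c₀ a ≠ 0` on `[1/5, 4/5]` (`StCO` for `F_l, F_l`); it satisfies the hypotheses of `StNO1` (`δ ≤ 1/100`, so `|a - 2/5| < δ` implies
`a ∈ [1/5, 4/5]`): `q`.  `G p = barFam F_l c₀ (fun z => q z.2) (1/100) (0, p)`: `BarData` (frozen: `q = c₀` for `a ≤ 1/5 + 1/100` and `a ≥ 79/100`), `BarData.embOn`:
`q a ∉ F_l '' (sph 0 ∪ sph 1)` for `a ∈ (1/5, 4/5)`: if `a ∈ [2/5 - r/2, 79/100]`: `q a` is at distance `< r` from `ax 1`, and not in `D` (`s = 1/2` and `a`-coordinate `≥ 1 - lam/5` on `D`); otherwise `q a = core F_l a`, `F_l` is injective on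
`SP`.  `EmbOn G (SP ∪ flat 1)`: `G = F_l` for `p.2.1 ≥ 4/5 - 1/200` and for `p.2.1 ≤ 1/5 + 1/200` (`barFam_eq`), so `G '' flat 1 = D`, `G` is injective and a local diffeomorphism on `flat 1`; points of `sph 0`: distance `> r` from `ax 1`;
points of the neck: `core G a = q a` (`barFam_neck`); `a ≤ 2/5 - r/2`: either
`δ ≤ |a - 2/5|`, distance `> r`, or `s ≠ 1/2`; `a ∈ [2/5 - r/2, 79/100]`: not in `D`; `a ∈ [79/100, 4/5)`: `a`-coordinate `< 1 - lam/5`; so only the foot `ax (4/5)` has its image in `D`. -/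
def StNO : Prop :=
  ∀ (F : R4 → R4) (d δ r₁ : ℝ), (d = 1 ∨ d = -1) → NB 1 F (2 / 5) d δ → 0 < r₁ →
    ∃ r lam₀ : ℝ, 0 < r ∧ r < r₁ ∧ r < δ ∧ 0 < lam₀ ∧ (∀ p ∈ sph 0, r < ‖F p - ax 1‖) ∧
      (∀ a ∈ Icc (1 / 5 : ℝ) (4 / 5), δ ≤ |a - 2 / 5| → r < ‖core F a - ax 1‖) ∧
      ∀ lam ∈ Ioo (0 : ℝ) lam₀, ∃ G : R4 → R4, EmbOn I4 G (SP ∪ flat 1) ∧
        (∀ p : R4, p.2.1 ≤ 1 / 5 + 1 / 200 → G p = F p) ∧
        (∀ p : R4, 4 / 5 - 1 / 200 ≤ p.2.1 → G p = F (clc 1 lam p)) ∧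
        (∀ a ∈ Icc (1 / 5 : ℝ) (2 / 5 - r / 2), core G a = core F a) ∧
        ∀ a ∈ Icc (2 / 5 - r / 2) (4 / 5 : ℝ), ‖core G a - ax 1‖ < r

/-- **SPI** (spinning the end of the bar once around the cuff) (uses `StROT`, `StA1`, `StFam`).
*Proof.* `StA1`: there is an open `V ⊇ SP ∪ flat 1` on which `G` is injective and a local diffeomorphism.  Choose `ε < 1/400`,
`ε < r` with `{p | tr p < ε²} ⊆ V` (`sph 1` is compact and `tr p = 0` exactly on `sph 1`).  `StROT` with `d, ε`: `R`, `a₁ =: β₁ > 4/5 - ε > 3/4`.  If `tr p < ε²` then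
`|p.1 - 1/2| < ε`, `|√(rsq 1 p) - 1/5| < ε`, so `p.2.1 ≥ 4/5 - ε`, `rsq 1 p ≤ (1/5 + ε)² < 1/20` and the formula for `G p` holds.
`G₁ p = G (R.f (1, p))`.  `J (t, p) = G (R.f (t, p))` is `FamOn SP` (`R.f (t, ·)` maps `SP` into `V`: a point is either fixed or stays in the tube; `R.f (t, ·)` is a diffeomorphism of `R4`):
`Eqv G G₁` by `StFam`.  `F' p = G p` if `rsq 1 p ≤ (1/5 + ε/4)²`, `F' p = G₁ p` otherwise.  For `|s - 1/2| < ε/4` and `|√(rsq 1 p) - 1/5| < ε/3` one has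
`tr p < ε²/4`, `R.f (1, p) = p` and `F' p = G p = G₁ p`.  So: `F' = G₁` near `SP` (points of `SP` with `rsq 1 p ≤ (1/5 + ε/4)²` have `s = 1/2`, `√(rsq 1 p) ∈ [1/5, 1/5 + ε/4]`) and
`F' = G` near `flat 1`.  `Eqv G F'` (`eqv_of_nearEq`).
`Br 1 F' β₁ d`: `loc`, `inj` (`R.f (1, ·)` is injective, `G` is injective on `V`); `injF`: on `flat 1 ∪ sph 0`, `F' = G` (`sph 0` is far from the tube); `cr`: `x₀ = pc (8/5 - β₁)`,
`nsq (x₀ - pc 1) = (3/5 - β₁)² < 1/25` (`β₁ < 4/5`, and `> 2/5`), `core F' β₁ = G (R.f (1, ax β₁)) = G (1/2, x₀) = F' (1/2, x₀)`; `F' = G` near `(1/2, x₀)`; with `κ a = R.f (1, ax a)`: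
`fderiv F' (ax β₁) (0, (1, 0)) = (core G₁)'(β₁) = fderiv G (1/2, x₀) (κ'(β₁))`, and the `s`-component `l` of `κ'(β₁)` satisfies `d l > 0`.  `only`: `core F' a = G (R.f (1, ax a))` for all
`a ∈ [1/5, 4/5]`, `F' '' flat 1 = G '' flat 1`, so `R.f (1, ax a) ∈ flat 1` (injectivity on `V`); if `a ≤ 4/5 - ε` then `R.f (1, ax a) = ax a ∉ flat 1`; so `a = β₁` or `a = 4/5`.
`p.2.1 ≤ 3/4`: `√(rsq 1 p) ≥ 1/4`, outside the tube.  `core F' a ≠ core G a` only if `ax a` is in the tube, then `core F' a = (s, pc 1 + lam (x - pc 1))` with `|s - 1/2| < ε < r`,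
`‖lam (x - pc 1)‖ ≤ lam √(rsq 1) < r`.  Determinant: near `ax (4/5)`, `F' (s, x) = (s, pc 1 + lam (x - pc 1))`, determinant `lam³`.  Last claim:
`core F' β₁ = G (ax (8/5 - β₁)) = ax (1 + lam (3/5 - β₁))`, `|3/5 - β₁| < 1/5`. -/
def StSPI : Prop :=
  ∀ (G : R4 → R4) (d r lam : ℝ), (d = 1 ∨ d = -1) → 0 < r → 0 < lam → lam < r →
    EmbOn I4 G (SP ∪ flat 1) →
    (∀ p : R4, 4 / 5 - 1 / 200 ≤ p.2.1 → rsq 1 p ≤ 1 / 20 → |p.1 - 1 / 2| < r →
      G p = (p.1, pc 1 + lam • (p.2 - pc 1))) →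
    ∃ (F' : R4 → R4) (β₁ : ℝ), 3 / 4 < β₁ ∧ Br 1 F' β₁ d ∧ Eqv G F' ∧
      (∀ p : R4, p.2.1 ≤ 3 / 4 → F' p = G p) ∧
      (∀ a ∈ Icc (1 / 5 : ℝ) (4 / 5), core F' a = core G a ∨ ‖core F' a - ax 1‖ < r) ∧
      0 < (fderiv ℝ F' (ax (4 / 5))).det ∧ ‖core F' β₁ - ax 1‖ < lam

/-- **LAS** (lassos) (uses `StNO`, `StV1`, `StSPI`, `StNF1`, `StRM`, `StRG`, `StNF2`).
*Proof.* `StNO`: `r`, `lam₀`; choose `lam < lam₀`, `lam < r/4`; `G`.  `Thin G id` by `StV1`.  `StSPI` (its formula: `F = id` on `ball (ax 1) δ`, `StCL`): `F₁`, `β₁`.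
`StNF1` with `c = 1`, `F₁`, `γ = β₁`, `e = d`, `U = ball (ax 1) (r/4)` (convex, contains `core F₁ β₁`): `F₂`, `G'`, `Strand 1 F₂ β₁ d` with `τ`.  Write `g = G'.f (1, ·)`: a bijection,
`g y = y` off a compact subset of `U`, so `g` maps `ball (ax 1) r` to itself.  Near `sph 0`: `F₂ p = g (F₁ p) = g (F p) = F p` (`‖F p - ax 1‖ > r`).
`core F₂ a = g (core F₁ a)` on `[1/5, 4/5]` (`rsq 1 (ax a) ≥ 1/25`); for `a ≤ 2/5 - r/2`: `core F₁ a = core G a = core F a`, at distance `≥ r/2` from `ax 1` (if `|a - 2/5| < δ` the distance is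
`|a - 2/5| ≥ r/2`), so `core F₂ a = core F a`; for `a ≥ 2/5 - r/2`: `core F₁ a ∈ ball (ax 1) r`, so `core F₂ a ∈ ball (ax 1) r`.
`StRM` (1) with `a₀ = 2/5 - r/2`, `b₀ = 4/5`, `x = 2/5`, `y = β₁`, `μ a = τ (1/2 + d (a - 2/5))` (`μ' (2/5) = d τ'(1/2) > 0`): `m`, `RepOK m`; `F' p = F₂ (repm m p)`; `StNF2` gives `NB 1 F' (2/5) d δ'`;
`StRG`: `Eqv F₂ F'`, `core F' a = core F₂ (m a)`, `m a = a` for `a ≤ 2/5 - r/2`, and `m` maps `[2/5 - r/2, 4/5]` to itself.  `Thin F' id` along `G ~ F₁ ~ F₂ ~ F'`.  Near `sph 0`, `repm m = id`. -/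
def StLAS : Prop :=
  ∀ (F : R4 → R4) (d δ r₁ : ℝ), (d = 1 ∨ d = -1) → NB 1 F (2 / 5) d δ → 0 < r₁ →
    ∃ (r δ' : ℝ) (F' : R4 → R4), 0 < r ∧ r < r₁ ∧ r < δ ∧ (∀ p ∈ sph 0, r < ‖F p - ax 1‖) ∧
      (∀ a ∈ Icc (1 / 5 : ℝ) (4 / 5), δ ≤ |a - 2 / 5| → r < ‖core F a - ax 1‖) ∧
      NB 1 F' (2 / 5) d δ' ∧ Thin I4 F' (fun x => x) ∧ NearEq F F' (sph 0) ∧
      (∀ a ∈ Icc (1 / 5 : ℝ) (2 / 5 - r / 2), core F' a = core F a) ∧
      ∀ a ∈ Icc (2 / 5 - r / 2) (4 / 5 : ℝ), ‖core F' a - ax 1‖ < r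

/-! ## the family joining a germ to its lasso -/

/-- A generic family `H (t, ·)` of arcs on `[1/5, 1]` from the (extended) core of `F'` (`t ≤ 0`) to the one of
`F` (`t ≥ 1`), constant on `a ≤ 2/5 - 3r/4`, on `|a - 2/5| ≤ δ₂` (the strand through `ax 1`) and on `a ≥ 1 - δ₂`. -/
structure ArcsL (F F' : R4 → R4) (d r δ₂ : ℝ) (H : ℝ × ℝ → R4) : Prop where
  pos : 0 < δ₂
  small : δ₂ < r / 4
  smooth : ContDiff ℝ ∞ H
  left : ∀ t a, t ≤ 0 → H (t, a) = H (0, a)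
  right : ∀ t a, 1 ≤ t → H (t, a) = H (1, a)
  start : ∀ a ∈ Icc (1 / 5 : ℝ) 1, H (0, a) = F' (ax a)
  stop : ∀ a ∈ Icc (1 / 5 : ℝ) 1, H (1, a) = F (ax a)
  low : ∀ t a, a ≤ 2 / 5 - 3 / 4 * r → H (t, a) = H (0, a)
  mid : ∀ t a, |a - 2 / 5| ≤ δ₂ → H (t, a) = (1 / 2 + d * (a - 2 / 5), pc 1)
  high : ∀ t a, 1 - δ₂ ≤ a → H (t, a) = ax a
  inj : ∀ t, InjOn (fun a => H (t, a)) (Ico (1 / 5) 1)
  ne : ∀ t, ∀ a ∈ Ico (1 / 5 : ℝ) 1, H (t, a) = ax 1 → a = 2 / 5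
  imm : ∀ t, ∀ a ∈ Icc (1 / 5 : ℝ) 1, fderiv ℝ H (t, a) (0, 1) ≠ 0
  finite : {x : ℝ × ℝ | x.2 ∈ Ioo (1 / 5 : ℝ) 1 ∧ H x ∈ F '' sph 0}.Finite
  late : ∀ t, ∀ a ∈ Ioo (1 / 5 : ℝ) 1, H (t, a) ∈ F '' sph 0 → 0 < t ∧ t < 1 ∧ 2 / 5 < a
  single : ∀ t, ∀ a ∈ Ioo (1 / 5 : ℝ) 1, ∀ a' ∈ Ioo (1 / 5 : ℝ) 1, H (t, a) ∈ F '' sph 0 →
    H (t, a') ∈ F '' sph 0 → a = a'
  trans : ∀ t, ∀ a ∈ Ioo (1 / 5 : ℝ) 1, ∀ y : ℂ, H (t, a) = F (cst false y) →
    ∀ ζ η, fderiv ℝ H (t, a) ζ = fderiv ℝ (fun y => F (cst false y)) y η → ζ = 0 ∧ η = 0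
  avoid : ∀ t, ∀ a ∈ Ioo (1 / 5 : ℝ) 1, H (t, a) ∈ F '' sph 0 → ∀ θ, H (t, a) ≠ F (crv false θ)

/-- The germs `F` and `F'` (a germ in normal form and its lasso). -/
structure LasPair (F F' : R4 → R4) (d δ δ' r : ℝ) : Prop where
  nb : NB 1 F (2 / 5) d δ
  nb' : NB 1 F' (2 / 5) d δ'
  pos : 0 < r
  lt : r < δ
  far : ∀ p ∈ sph 0, r < ‖F p - ax 1‖
  farc : ∀ a ∈ Icc (1 / 5 : ℝ) (4 / 5), δ ≤ |a - 2 / 5| → r < ‖core F a - ax 1‖
  near : NearEq F F' (sph 0)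
  low : ∀ a ∈ Icc (1 / 5 : ℝ) (2 / 5 - r / 2), core F' a = core F a
  high : ∀ a ∈ Icc (2 / 5 - r / 2) (4 / 5 : ℝ), ‖core F' a - ax 1‖ < r

/-- The extended core of the germ `F`, on `[1/5, 1]`; `S` is the first cuff. -/
structure XCore (F : R4 → R4) (S : Set R4) (d μ r : ℝ) (c : ℝ → R4) : Prop where
  smooth : ContDiff ℝ ∞ c
  core : ∀ a ∈ Icc (1 / 5 : ℝ) 1, c a = F (ax a)
  high : ∀ a, 1 - μ < a → c a = ax a
  mid : ∀ a, |a - 2 / 5| < μ → c a = (1 / 2 + d * (a - 2 / 5), pc 1)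
  inj : InjOn c (Ico (1 / 5) 1)
  ne : ∀ a ∈ Ico (1 / 5 : ℝ) 1, c a = ax 1 → a = 2 / 5
  imm : ∀ a ∈ Icc (1 / 5 : ℝ) 1, deriv c a ≠ 0
  off : ∀ a ∈ Ioo (1 / 5 : ℝ) 1, c a ∉ S
  ball : ∀ a ∈ Icc (2 / 5 - 3 / 4 * r) (2 / 5 : ℝ), ‖c a - ax 1‖ < r

/-- **XC** (extended cores).
*Proof.* Let `μ = min δ δ'`.  `F` and `F'` are smooth near `ax a` for `a ∈ [1/5, 1]` (`neck ∪ flat 1`), so for `a ∈ (1/5 - ν, 1 + ν)`, and equal near `ax a` for `|a - 1/5| < ν` (`near`, `ax (1/5) ∈ sph 0`), for some `ν > 0`, `ν < 1/100`.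
Let `ψ` be smooth, `1` on `[1/5 - ν/3, ∞)`, `0` on `(-∞, 1/5 - 2ν/3]`, and `ψ'` smooth, `1` on `(-∞, 1 - μ]`... take `c a = ψ a • F (ax a)` for `a ≤ 1 - μ/2` and `c a = ax a` for `a > 1 - μ`: the two formulas
agree on the overlap because `F = id` on `ball (ax 1) μ`; same for `c'`.  For `a ≤ 2/5 - r/2`: equal (for `a < 1/5 + ν` because `F (ax a) = F' (ax a)` or `ψ a = 0`; on `[1/5, 2/5 - r/2]` by `low`).
`mid`: `str`.  Injective: on `[1/5, 4/5]` by `Br.inj`, on `[4/5, 1)` by `injF`; if `a < 4/5 ≤ b < 1` and `c a = c b` then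
`core F a ∈ F '' flat 1`, so `a = 2/5`, `c a = ax 1 = F (ax 1)`, and `ax b = ax 1` by `injF`, contradiction.  `ne`: the same argument.  `imm`: the derivative of a local diffeomorphism is injective
(`c = F ∘ ax` near `[1/5, 1]`).  `off` (`S = F '' sph 0 = F' '' sph 0`): on `(1/5, 4/5]` by `Br.inj`, on `[4/5, 1)` by `injF`.  `ball`: for `c`: `|a - 2/5| ≤ 3r/4 < δ`, so by `nb.str` the distance is `|a - 2/5| < r`; for `c'`: if `a ≤ 2/5 - r/2` then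
`c' a = c a`, otherwise `high` of `LasPair`. -/
def StXC : Prop :=
  ∀ (F F' : R4 → R4) (d δ δ' r : ℝ), (d = 1 ∨ d = -1) → LasPair F F' d δ δ' r →
    ∃ (c c' : ℝ → R4) (μ : ℝ), 0 < μ ∧ μ ≤ δ ∧ μ ≤ δ' ∧ XCore F (F '' sph 0) d μ r c ∧
      XCore F' (F '' sph 0) d μ r c' ∧ ∀ a, a ≤ 2 / 5 - r / 2 → c a = c' a

/-- **ARL** (the family of arcs) (uses `Pool.Agent.Helper34.BI.StCH`, `exists_genPos`).
*Proof.* `δ₂ < r/4`, `δ₂ < μ/4`.  `χ` = `hat (2/5 - 3r/4) (2/5 - δ₂)` `+ hat (2/5 + δ₂) (1 - δ₂)` (if `χ a = 0` then `c = c'` near `a`: `δ₂ < μ`).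
`exists_genPos` (`Generic.lean`) for `h (t, a) = (1 - step t) • c' a + step t • c a`, `ρ = hat 0 1`, the surface `y ↦ F (cst false y)` on `ℂ` (`ι = Unit`), the curves `θ ↦ F (crv false θ)` and `θ ↦ ax 1`, gives `v, w` arbitrarily small;
`H = fam h ρ χ v w`.  (Follow the proof of `exists_arcFamilyG` in `Pool/Agent/Helper34/BI/Arcs2.lean`; its conclusion on curves is only for the points of `A`, the field `GenPos.curve` is what is needed here.)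
`F (cst false ·)`, `F (crv false ·)` are smooth and parametrize `F '' sph 0` minus the foot (`StCH` for `F`, which is `EmbOn SP`); the `Charts` conditions for `A = F '' sph 0` follow from those of `StCH` for `F '' (sph 0 ∪ sph 1)`.
`inj`: if `χ a ≠ 0` or `χ b ≠ 0`, and `0 < t < 1`: `GenPos.inj`; otherwise both values are those of `c` or both are those of `c'`.  `ne`: if `χ a ≠ 0`, `0 < t < 1`: `GenPos.curve`; otherwise `XCore.ne`.  `imm`: as in `exists_arcFamilyG`.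
`late`: no crossing for `t ≤ 0`, `t ≥ 1`, or `χ a = 0` (`XCore.off`).  For `2/5 - 3r/4 ≤ a ≤ 2/5` both `c a` and `c' a` are in the convex set
`ball (ax 1) r`, so for small `v, w` (compactness of `[0,1] × [2/5 - 3r/4, 2/5]`) `‖H (t, a) - ax 1‖ < r`, but `F '' sph 0` is outside (`far`).
`finite`, `single`, `trans`, `avoid`: as in `exists_arcFamilyG` (all crossings have `0 < t < 1` and `χ a ≠ 0`, so `a` is in a compact subset of `(1/5, 1)`; the foot `F (ax (1/5)) = H (t, 1/5)` is not a crossing point by `inj`);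
`cst false y ∈ sph 0`.  `left`, `right`, `low`, `mid`, `high`, `start`, `stop`: from the formula. -/
def StARL : Prop :=
  ∀ (F F' : R4 → R4) (d δ δ' r μ : ℝ) (c c' : ℝ → R4), (d = 1 ∨ d = -1) →
    LasPair F F' d δ δ' r → 0 < μ → μ ≤ δ → μ ≤ δ' → XCore F (F '' sph 0) d μ r c →
    XCore F' (F '' sph 0) d μ r c' → (∀ a, a ≤ 2 / 5 - r / 2 → c a = c' a) →
    ∃ (δ₂ : ℝ) (H : ℝ × ℝ → R4), δ₂ < δ ∧ δ₂ < δ' ∧ ArcsL F F' d r δ₂ H

/-- A family of germs along the spine and the second flat ball, constant on the ball, whose bars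
cross the ball once, at the parameter `2/5`; the exceptional times are crossings of the bar with
the first cuff at a parameter `> 2/5`. -/
structure BFam1 (J : ℝ × R4 → R4) (d : ℝ) : Prop where
  smooth : ∀ t, ∀ p ∈ SP, ∀ᶠ q in 𝓝 (t, p), ContDiffAt ℝ ∞ J q
  loc : ∀ t, ∀ p ∈ SP ∪ flat 1, LD (fun p => J (t, p)) p
  finite : {t | ¬ InjOn (fun p => J (t, p)) SP}.Finite
  cross : ∀ t, ¬ InjOn (fun p => J (t, p)) SP → ∃ (u : ℝ) (p : R4), 2 / 5 < u ∧ PreCross J t u p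
  const : ∀ t t' : ℝ, ∀ p ∈ flat 1, J (t, p) = J (t', p)
  injF : ∀ t, InjOn (fun p => J (t, p)) (flat 1 ∪ sph 0)
  cr : ∀ t, CrossAt (fun p => J (t, p)) 1 (2 / 5) d
  only : ∀ t, ∀ a ∈ Icc (1 / 5 : ℝ) (4 / 5),
    core (fun p => J (t, p)) a ∈ (fun p => J (t, p)) '' flat 1 → a = 4 / 5 ∨ a = 2 / 5

/-- the reparametrization of the bar caused by the contraction: `clc 1 lam (ax a) = ax (bb lam a)` -/
noncomputable def bb (lam a : ℝ) : ℝ := 1 + cfac lam ((a - 1) ^ 2) * (a - 1)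

/-- **FML1** (the contracted family of arcs) (uses `StCL`, `StCTR`; the structure `GenData` of
`Pool/Agent/Helper34/BI/BF.lean`).
*Proof.* By compactness there is `μ > 0` with `‖H (t, a) - ax 1‖ ≥ μ` for `t ∈ [0, 1]`, `a ∈ [1/5, 1 - δ₂]`, `|a - 2/5| ≥ δ₂` (`ne`), hence for all `t` (`left`, `right`).  Let `0 < lam ≤ 1/2`, `lam < μ`,
`lam < δ₂`, `lam < δ`, `lam < δ'`.  `b = bb lam` (`StCL` for `c = 1`): smooth, `b' > 0`, `b a = a` for `a ≤ 7/10` (`cfac lam q = 1` for `q ≥ 9/100`), `b a = 1 - lam (1 - a)` for `|1 - a| ≤ 11/50`; `b` maps `[1/5, 4/5]` onto `[1/5, 1 - lam/5]`.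
`F'_l p = F' (clc 1 lam p)` is `EmbOn SP` (`StCTR`, `γ = 2/5`; `core F' (2/5) = ax 1 = F' (ax 1)`); near `flat 1` it is `(s, x) ↦ (s, pc 1 + lam (x - pc 1))` (`F' = id` on `ball (ax 1) δ'`), so `F'_l '' flat 1 = D := {(1/2, x) | nsq (x - pc 1) ≤ lam²/25}`; on
`sph 0` it is `F' = F` (`near`).
Claim: for `a ∈ [1/5, 4/5]`: `H (t, b a) ∈ D` only if `b a = 2/5` or `b a = 1 - lam/5`, that is `a = 2/5` or `a = 4/5`: in the region `b a ≤ 1 - δ₂`, `|b a - 2/5| ≥ δ₂` the distance to `ax 1` is `≥ μ > lam`; for `|b a - 2/5| < δ₂`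
use `mid`: `s = 1/2` only for `b a = 2/5`; for `b a ≥ 1 - δ₂`: `H = ax (b a)`, in `D` iff `1 - b a ≤ lam/5`, and `1 - b a ≥ lam/5`.
So the arcs do not meet `F'_l '' sph 1 ⊆ D` for `a ∈ (1/5, 4/5)` (at `a = 2/5` the point is `ax 1 = F'_l (ax 1)`, not on the cuff).
`GenData F'_l c₀ c₁ (1/50) H_l`: `core`: `F'_l (ax a) = F' (ax (b a)) = c₀ a`.  `inj₁`, `imm₀`, `imm₁`, `arcs.inj`, `arcs.imm`: `inj`, `imm` of `ArcsL`, `b` is injective, `b' > 0`.  `arcs.frozen`: for `a ≤ 11/50`, `b a = a ≤ 2/5 - 3r/4` (`r < 1/100`): `low`;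
for `a ≥ 39/50`: `b a ≥ b (39/50) = 1 - 11/50 lam ≥ 1 - δ₂` (`b` is increasing): `high`.  `arcs.start`, `stop`: `left`, `right`.  Crossings with the cuffs are crossings with `F '' sph 0`: `late`, `finite`, `single`, `trans`, `avoid` of `ArcsL` and the chain rule for
`(t, a) ↦ (t, b a)`; `fun y => F'_l (cst false y) = fun y => F (cst false y)`, `F'_l (crv false θ) = F (crv false θ)`; for the index `true` there are no crossings (`cst true y`, `crv true θ ∈ sph 1`).  `arcs.active`: `a > 11/50` as `b a > 2/5`, and `a < 39/50`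
because for `a ≥ 39/50` the point is `ax (b a)` at distance `≤ δ₂ < r` from `ax 1`, `F '' sph 0` is outside (`far`). -/
def StFML1 : Prop :=
  ∀ (F F' : R4 → R4) (d δ δ' r δ₂ : ℝ) (H : ℝ × ℝ → R4), (d = 1 ∨ d = -1) →
    LasPair F F' d δ δ' r → δ₂ < δ → δ₂ < δ' → ArcsL F F' d r δ₂ H →
    ∃ lam : ℝ, 0 < lam ∧ lam ≤ 1 / 2 ∧ lam < δ ∧ lam < δ' ∧ lam < δ₂ ∧
      GenData (fun p => F' (clc 1 lam p)) (fun a => H (0, bb lam a)) (fun a => H (1, bb lam a))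
        (1 / 50) (fun z => H (z.1, bb lam z.2)) ∧
      (∀ t, ∀ a ∈ Icc (1 / 5 : ℝ) (4 / 5),
        H (t, bb lam a) ∈ (fun p => F' (clc 1 lam p)) '' flat 1 → a = 4 / 5 ∨ a = 2 / 5) ∧
      ∀ t, ∀ a ∈ Ioo (1 / 5 : ℝ) (4 / 5),
        H (t, bb lam a) ∈ (fun p => F' (clc 1 lam p)) '' (sph 0 ∪ sph 1) →
        2 / 5 < a ∧ H (t, bb lam a) ∈ (fun p => F' (clc 1 lam p)) '' sph 0

/-- **FML** (the family of germs) (uses `StFML1`, `StCL`, `StCTR`, `StFr`, `Pool.Agent.Helper34.BI.StCH`; the file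
`Pool/Agent/Helper34/BI/BF.lean`).
*Proof.* `StFML1`: `lam`.  `F_l p = F (clc 1 lam p)`, `F'_l` same; by `StCTR` (`γ = 2/5`) both are `EmbOn SP`, `Eqv F F_l`, `Eqv F' F'_l`; near `flat 1` both are `(s, x) ↦ (s, pc 1 + lam (x - pc 1))`, near `sph 0` both are `F`
(`clc 1 lam = id` there, and `near`).  `H_l (t, a) = H (t, bb lam a)`, `c₀ a = H (0, bb lam a)`, `J = barFam F'_l c₀ H_l (1/50)`.
`smooth`, `loc` on `SP`: `BarData.eventually_smooth`, `isLocalDiffeomorphAt` (`GenData.bar`, `GenData.imm`); near `flat 1`: `J (t, ·) = F'_l` (`barFam_eq`, `p.2.1 ≥ 4/5 - 1/100`), `const`.  `finite`: `(GenData.bfam ..).finite`.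
`cross`: `GenData.exists_crossing`, the last claim of `StFML1`, `GenData.preCross_zero`.  `injF`: `J (t, ·) = F'_l` on `flat 1 ∪ sph 0`; `F'_l` is injective there: `clc 1 lam` is injective and maps it into `flat 1 ∪ sph 0`.
`only`: `core (J (t, ·)) a = H_l (t, a)` (`barFam_neck`).  `cr`: `x₀ = pc 1`, `l = d`, `v = 0`: `fderiv (J (t, ·)) (ax (2/5)) (0, (1, 0))` is the derivative at `2/5` of
`a ↦ H (t, bb lam a) = (1/2 + d (a - 2/5), pc 1)` (`bb lam a = a` near `2/5`), and `J (t, ·) = (s, pc 1 + lam (x - pc 1))` near `ax 1`; `d d = 1`.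
`J (0, ·)` is `EmbOn SP` (`BarData.embOn`, `GenData.imm`, `injF`, `injH`, `dis₀`), and agrees with `F'_l` near the cuffs (`barFam_eq`) and on the neck: `StFr` gives `Eqv F'_l (J (0, ·))`.  `J (1, ·)` is `EmbOn SP` (`dis₁`), agrees near the cuffs with `F'_l`, so with
`F_l`, and on the neck: `H (1, bb lam a) = F (ax (bb lam a)) = F_l (ax a)` (`ArcsL.stop`): `StFr`. -/
def StFML : Prop :=
  ∀ (F F' : R4 → R4) (d δ δ' r δ₂ : ℝ) (H : ℝ × ℝ → R4), (d = 1 ∨ d = -1) →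
    LasPair F F' d δ δ' r → δ₂ < δ → δ₂ < δ' → ArcsL F F' d r δ₂ H →
    ∃ J : ℝ × R4 → R4, BFam1 J d ∧ EmbOn I4 (fun p => J (0, p)) SP ∧
      EmbOn I4 (fun p => J (1, p)) SP ∧ Eqv F' (fun p => J (0, p)) ∧ Eqv F (fun p => J (1, p))

/-! ## the class `W` and equality of classes up to `W` -/

/-- `W` represents the class of all theta germs, and `W²` is trivial. -/
structure IsW (W : R4 → R4) : Prop where
  rep : ∃ (F₀ : R4 → R4) (α₀ β₀ : ℝ), Theta F₀ α₀ β₀ 1 1 ∧ Thin I4 F₀ W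
  sq : CIsot I4 (fun x => W (W x)) (fun x => x)
  all : ∀ (F : R4 → R4) (α β e d : ℝ), (e = 1 ∨ e = -1) → (d = 1 ∨ d = -1) → Theta F α β e d →
    Thin I4 F W

/-- the classes of `F` and `G` are equal up to `W` -/
def MW (W F G : R4 → R4) : Prop :=
  ∀ φ ψ : R4 → R4, Thin I4 F φ → Thin I4 G ψ → CIsot I4 ψ φ ∨ CIsot I4 ψ (fun x => W (φ x))

theorem exists_isW (h : StW) : ∃ W, IsW W := by
  obtain ⟨W, F₀, α₀, β₀, h1, h2, h3, h4⟩ := h
  exact ⟨W, ⟨F₀, α₀, β₀, h1, h2⟩, h3, h4⟩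

/-- **MWL.** Properties of the relation `MW`, and `W` is central (uses `StT2`, `StCI`, `StR2sw`; compare
`Pool/Agent/Helper34/BI/M_MRL.lean`).
*Proof.* Centrality (first claim): `CIsot φ φ` says that `φ` is a diffeomorphism (with smooth inverse `φ'`, `StCI`) and compactly supported.  For the theta germ `F₀` of `IsW.rep` the germ `φ ∘ F₀` is
again `Theta φ∘F₀ α₀ β₀ 1 1` (composition with a diffeomorphism: local diffeomorphisms, injectivity, images, chain rule for the derivatives in `CrossAt`), so `Thin (φ ∘ F₀) W` (`IsW.all`), and `Thin (φ ∘ F₀) (φ ∘ W ∘ φ')` (`StT2` (vi)); by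
uniqueness (`StT2` (ii)) `CIsot W (φ ∘ W ∘ φ')`; compose with `CIsot φ φ`.  (`CIsot W W` by `StT2` (vii).)
Reflexive: uniqueness.  Symmetric: `CIsot ψ (W ∘ φ)` gives `CIsot (W ∘ ψ) (W ∘ W ∘ φ)`, and `CIsot (W ∘ W ∘ φ) φ`.  Transitive (`G` has a representative): `W^a`, `W^b`, `W²` trivial.  Families: `StT2` (iii).  Swap: `φ`, `ψ` with inverses `φ'`, `ψ'`
(`StCI`), `Thin (F ∘ swp) φ'`, `Thin (G ∘ swp) ψ'` (`StR2sw`); if `CIsot ψ' (W ∘ φ')`, take inverses: `CIsot ψ (φ ∘ W')`, `W'` the inverse of `W`, `CIsot W' W`, centrality.  Last: trivial. -/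
def StMWL : Prop :=
  ∀ W : R4 → R4, IsW W →
    (∀ φ, CIsot I4 φ φ → CIsot I4 (fun x => W (φ x)) (fun x => φ (W x))) ∧
    (∀ F, MW W F F) ∧ (∀ F G, MW W F G → MW W G F) ∧
    (∀ F G H, EmbOn I4 G SP → MW W F G → MW W G H → MW W F H) ∧
    (∀ (J : ℝ × R4 → R4) (t₁ t₂ : ℝ), t₁ ≤ t₂ →
      (∀ t ∈ Icc t₁ t₂, ∀ p ∈ SP, ∀ᶠ q in 𝓝 (t, p), ContDiffAt ℝ ∞ J q) →
      (∀ t ∈ Icc t₁ t₂, EmbOn I4 (fun p => J (t, p)) SP) →
      MW W (fun p => J (t₁, p)) (fun p => J (t₂, p))) ∧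
    (∀ F G, EmbOn I4 F SP → EmbOn I4 G SP →
      MW W (fun p => F (swp p)) (fun p => G (swp p)) → MW W F G) ∧
    ∀ F F' G, Eqv F F' → MW W F G → MW W F' G

/-- **LGG.** From local to global in time, for a general relation.
*Proof.* The proof of `StLG` in `Pool/Agent/Helper34/BI/M_LG.lean`, with the relation `Q` in place of `MR` and the hypothesis `hX` in place of the
two cases of the crossing lemma. -/
def StLGG : Prop :=
  ∀ (Q : (R4 → R4) → (R4 → R4) → Prop) (J : ℝ × R4 → R4), (∀ F, Q F F) →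
    (∀ F G, Q F G → Q G F) → (∀ F G H, EmbOn I4 G SP → Q F G → Q G H → Q F H) →
    (∀ t₁ t₂ : ℝ, t₁ ≤ t₂ →
      (∀ t ∈ Icc t₁ t₂, ∀ p ∈ SP, ∀ᶠ q in 𝓝 (t, p), ContDiffAt ℝ ∞ J q) →
      (∀ t ∈ Icc t₁ t₂, EmbOn I4 (fun p => J (t, p)) SP) →
      Q (fun p => J (t₁, p)) (fun p => J (t₂, p))) →
    (∀ t, ∀ p ∈ SP, ∀ᶠ q in 𝓝 (t, p), ContDiffAt ℝ ∞ J q) →
    (∀ t, ∀ p ∈ SP, LD (fun p => J (t, p)) p) → {t | ¬ InjOn (fun p => J (t, p)) SP}.Finite →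
    (∀ t, ¬ InjOn (fun p => J (t, p)) SP → ∀ ε > 0, ∃ t₁ ∈ Ioo (t - ε) t, ∃ t₂ ∈ Ioo t (t + ε),
      EmbOn I4 (fun p => J (t₁, p)) SP ∧ EmbOn I4 (fun p => J (t₂, p)) SP ∧
      Q (fun p => J (t₁, p)) (fun p => J (t₂, p))) →
    EmbOn I4 (fun p => J (0, p)) SP → EmbOn I4 (fun p => J (1, p)) SP →
    Q (fun p => J (0, p)) (fun p => J (1, p))

/-- **TH** (the obstruction germ is a theta germ) (uses `StCRP`, `StMWL`).
*Proof.* `StCRP` for `J`, `t₀`, `u₀`, `p₀` (`BFam1.cross`), `C = J (t₀, ·) '' flat 1` (compact; disjoint from `J (t₀, ·) '' sph 0` by `injF`) and `ε' = min ε (u₀ - 2/5)`: `t₁, t₂, t', t''`, `O`, `α`, `e`; `α > 2/5`.  `Theta O α (2/5) e d`: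
`a` is given.  `b`: `loc`: on `SP` from `a`; near `flat 1`, `O = J (t', ·)`.  `injF`: `O = J (t', ·)` on `flat 1`, `O '' flat 1 = C` (`const`), `O '' sph 0 ⊆ O '' flat 0` is disjoint from `C`, `O` is injective on `sph 0` and `J (t', ·)` on `flat 1`.
`cr`: `CrossAt (J (t', ·)) 1 (2/5) d` gives `x₀, l, v`; `fderiv O (ax (2/5)) (0, (1, 0))` is the derivative of `core O` at `2/5`, which is the one of `core (J (t', ·))` (equal near `2/5`); `O = J (t', ·)` near `(1/2, x₀)` (`a`-coordinate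
`> 4/5`).  `only`: `core O = core (J (t', ·))`, `O '' flat 1 = J (t', ·) '' flat 1`.  `dis`: `O '' flat 1 = C`.  `ord`: `2/5 < α`.  So `Thin O W`, and with `n = W` in `StCRP`: `CIsot φ' (W ∘ φ'')`, i.e.
`MW (J (t'', ·)) (J (t', ·))`; use the symmetry of `MW` to order the times. -/
def StTH : Prop :=
  ∀ (W : R4 → R4) (J : ℝ × R4 → R4) (d t₀ ε : ℝ), IsW W → (d = 1 ∨ d = -1) → BFam1 J d →
    ¬ InjOn (fun p => J (t₀, p)) SP → 0 < ε →
    ∃ t₁ ∈ Ioo (t₀ - ε) t₀, ∃ t₂ ∈ Ioo t₀ (t₀ + ε), EmbOn I4 (fun p => J (t₁, p)) SP ∧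
      EmbOn I4 (fun p => J (t₂, p)) SP ∧ MW W (fun p => J (t₁, p)) (fun p => J (t₂, p))

/-- **OBP** (uses `StLAS`, `StXC`, `StARL`, `StFML`, `StTH`, `StLGG`, `StMWL`, `StNF1`, `StRM`, `StRG`, `StNF2`).
A germ with positive orientation whose second cuff bounds a flat ball met once by the bar has class `1` or `W`.
*Proof.* `StNF1` (`c = 1`, `γ`, `U = univ`): `F₂`, `Strand 1 F₂ γ e` with `τ`; `StRM` (1) with `a₀ = 1/5`, `b₀ = 4/5`, `x = 2/5`, `y = γ`, `μ a = τ (1/2 + e (a - 2/5))` gives `m` with `RepOK m`, and `StNF2`, `StRG` give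
`F₁ = F₂ ∘ repm m` with `NB 1 F₁ (2/5) e δ`, `Eqv F F₁`.  `StLAS` for `F₁` (`r₁ = 1`): `F'`, `LasPair F₁ F' e δ δ' r`.  `StXC`, `StARL`, `StFML`: `J`.  `StLGG` for `Q = MW W` (`StMWL`, `StTH`): `MW W (J (0, ·)) (J (1, ·))`, so
`MW W F' F₁` (`Eqv F' (J (0, ·))`, `Eqv F₁ (J (1, ·))`, symmetry).  `Thin F₁ φ`, `Thin F' id`: `CIsot φ id` or `CIsot φ W`. -/
def StOBP : Prop :=
  ∀ (W F : R4 → R4) (γ e : ℝ), IsW W → (e = 1 ∨ e = -1) → Br 1 F γ e →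
    0 < (fderiv ℝ F (ax (4 / 5))).det →
    ∀ φ : R4 → R4, Thin I4 F φ → CIsot I4 φ (fun x => x) ∨ CIsot I4 φ W

/-- **OB1** (uses `StOBP`, `StRefH`, `StT2`, `StCI`).  The same without the condition on the orientation.
*Proof.* The determinant at `ax (4/5)` is not zero (`ld_iff`).  If it is negative: `F ∘ refh` satisfies `Br 1 (F ∘ refh) γ e` (as in `M_SYM.lean`: `refh` is a linear involution which preserves `flat 1`, `sph 0`, fixes the axis,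
`x₀' = conj x₀`), with positive determinant at `ax (4/5)`, and `Thin F φ` gives `Thin (F ∘ refh) φ'` for
the inverse `φ'` of `φ` (`StRefH`; `φ'` exists by `StT2` (vii), `StCI`).  By `StOBP`, `CIsot φ' id` or `CIsot φ' W`; take inverses (`StCI`): `CIsot φ id` or `CIsot φ W'` with `W'` the inverse of `W`, and `CIsot W' W` because `W²` is trivial. -/
def StOB1 : Prop :=
  ∀ (W F : R4 → R4) (γ e : ℝ), IsW W → (e = 1 ∨ e = -1) → Br 1 F γ e →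
    ∀ φ : R4 → R4, Thin I4 F φ → CIsot I4 φ (fun x => x) ∨ CIsot I4 φ W

/-- **OB0** (uses `StOB1`, `StR2sw`, `StT2`, `StCI`).  The same for the first cuff.
*Proof.* `F ∘ swp` satisfies `Br 1 (F ∘ swp) (1 - γ) (-e)` (compare `StSYM`), and has the inverse class (`StR2sw`); `W` is its own inverse up to isotopy. -/
def StOB0 : Prop :=
  ∀ (W F : R4 → R4) (γ e : ℝ), IsW W → (e = 1 ∨ e = -1) → Br 0 F γ e →
    ∀ φ : R4 → R4, Thin I4 F φ → CIsot I4 φ (fun x => x) ∨ CIsot I4 φ W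

/-- **MAIN (stage 2), for `R4`** (uses `StOB0`, `StCRP`, `StMWL`, `StLGG`, `StCH`, `StCO`, `StFr`; compare
`Pool/Agent/Helper34/BI/Main.lean`).  Two germs along the spine which agree near the two cuffs have the same implantation class up to `W`.
*Proof.* As `stMain_of` in `Main.lean`, which constructs a family `J` with `BFam J`, `J (0, ·) = F`, `EmbOn (J (1, ·)) SP` and (by `StFr`) `Eqv (J (1, ·)) F'`.  Instead of `StLG` use `StLGG` with `Q = MW W`; at an exceptional time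
`StCRP` (with `C = ∅`) for `J`, or for the swapped family and `StMWL` (swap), gives `O` with `Br 0 O α e`, whose class is `1` or `W` by `StOB0`, so `CIsot φ' φ''` or `CIsot φ' (W ∘ φ'')`. -/
def StMain2 : Prop :=
  ∀ (W F F' φ φ' : R4 → R4) (U : Set R4), IsW W → EmbOn I4 F SP → EmbOn I4 F' SP →
    IsOpen U → sph 0 ∪ sph 1 ⊆ U → EqOn F F' U → Thin I4 F φ → Thin I4 F' φ' →
    CIsot I4 φ' φ ∨ CIsot I4 φ' (fun x => W (φ x))

end Pool.Agent.Helper70.BI
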