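import Pool.Agent.Helper70.BI.StU

/-!
# Project BI, part (E), module NF1: normal form at one end, keeping the other end
-/

set_option autoImplicit false

open scoped Manifold ContDiff Topology ComplexConjugate
open Set Filter Pool.Agent.Helper65.Barb Pool.Agent.Helper18.BI

namespace Pool.Agent.Helper70.BI

namespace NF1

theorem rsq_ax (c a : ℝ) : rsq c (ax a) = (a - c) ^ 2 := by
  simp [rsq, nsq, ax]

theorem ax_mem_neck {a : ℝ} (h1 : 1 / 5 ≤ a) (h2 : a ≤ 4 / 5) : ax a ∈ neck :=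
  ⟨rfl, h1, h2, rfl⟩

theorem le_rsq_of_mem_SP {c : ℝ} (hc : c = 0 ∨ c = 1) {p : R4} (hp : p ∈ SP) :
    1 / 25 ≤ rsq c p := by
  have e : rsq 1 p = rsq 0 p - 2 * p.2.1 + 1 := rsq_one_eq p
  have h0 := sq_le_rsq p
  have h1 := sq_le_rsq_one p
  rcases hp with (hp | hp) | hp
  · obtain ⟨-, h2⟩ := hp
    rcases hc with rfl | rfl
    · exact h2.ge
    · have h3 : p.2.1 ≤ 1 / 5 := by nlinarith
      rw [e, h2]; linarith
  · obtain ⟨-, h2⟩ := hp
    rcases hc with rfl | rfl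
    · have h3 : 4 / 5 ≤ p.2.1 := by nlinarith
      linarith
    · exact h2.ge
  · obtain ⟨-, h2, h3, h4⟩ := hp
    have h5 : (p.2.1 - c) ^ 2 ≤ rsq c p := by
      rcases hc with rfl | rfl
      · simpa using h0
      · exact h1
    refine le_trans ?_ h5
    rcases hc with rfl | rfl <;> nlinarith

theorem foot_mem_flat {c : ℝ} (hc : c = 0 ∨ c = 1) : ax (1 / 5 + 3 / 5 * c) ∈ flat c := by
  refine ⟨rfl, ?_⟩
  rw [rsq_ax]
  rcases hc with rfl | rfl <;> norm_num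

theorem centre_mem_flat (c : ℝ) : ax c ∈ flat c := by
  refine ⟨rfl, ?_⟩
  rw [rsq_ax]
  norm_num

theorem ball_mem_flat {c : ℝ} {x₀ : R3} (h : nsq (x₀ - pc c) < 1 / 25) :
    ((1 / 2 : ℝ), x₀) ∈ flat c := by
  refine ⟨rfl, ?_⟩
  have e : rsq c ((1 / 2 : ℝ), x₀) = nsq (x₀ - pc c) := by
    simp [rsq, nsq, pc]
  rw [e]
  exact h.le

theorem embOn_of_br {c γ e : ℝ} {F : R4 → R4} (h : Br c F γ e) : EmbOn I4 F SP :=
  ⟨fun p hp => h.loc p (Or.inl hp), h.inj⟩

theorem inj_dfam (G : DFam I4 R4) : Function.Injective (fun y => G.f (1, y)) := fun p q h => by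
  have := congrArg (fun y => G.g (1, y)) h
  simpa [G.gf] using this

theorem diff_dfam (G : DFam I4 R4) (p : R4) : DifferentiableAt ℝ (fun y => G.f (1, y)) p :=
  ((ld_iff.1 (ld_dfam G 1 p)).1.self_of_nhds).differentiableAt (by simp)

theorem diff_of_ld {F : R4 → R4} {p : R4} (h : LD F p) : DifferentiableAt ℝ F p :=
  ((ld_iff.1 h).1.self_of_nhds).differentiableAt (by simp)

theorem fderiv_post (G : DFam I4 R4) {F : R4 → R4} {p : R4} (h : LD F p) :
    fderiv ℝ (fun q => G.f (1, F q)) p =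
      (fderiv ℝ (fun y => G.f (1, y)) (F p)).comp (fderiv ℝ F p) :=
  fderiv_comp p (diff_dfam G (F p)) (diff_of_ld h)

theorem br_post {c γ e : ℝ} {F : R4 → R4} (h : Br c F γ e)
    (G : DFam I4 R4) : Br c (fun q => G.f (1, F q)) γ e := by
  have hi := inj_dfam G
  refine ⟨fun p hp => ld_comp (F := fun y => G.f (1, y)) (h.loc p hp) (ld_dfam G 1 (F p)),
    fun p hp q hq he => h.inj hp hq (hi he), fun p hp q hq he => h.injF hp hq (hi he),
    h.mem, ?_, ?_⟩
  · obtain ⟨x₀, h1, h2, l, v, h3, h4⟩ := h.cr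
    refine ⟨x₀, h1, congrArg (fun y => G.f (1, y)) h2, l, v, h3, ?_⟩
    have hL1 : LD F (ax γ) :=
      h.loc _ (Or.inl (Or.inr (ax_mem_neck h.mem.1.le h.mem.2.le)))
    have hL2 : LD F (1 / 2, x₀) := h.loc _ (Or.inr (ball_mem_flat h1))
    have h5 : F (ax γ) = F (1 / 2, x₀) := h2
    rw [fderiv_post G hL1, fderiv_post G hL2, h5]
    exact congrArg _ h4
  · intro a ha hm
    refine h.only a ha ?_
    obtain ⟨q, hq, he⟩ := hm
    exact ⟨q, hq, hi he⟩

end NF1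

open NF1

theorem m_NF1 (hC1 : StC1) (hLOC : StLOC) (hDET : StDET) (hF : StFam) : StNF1 := by
  intro c F γ e U hc hBr hdet hU hUp hcU haU
  obtain ⟨F₁, hB1, ⟨η, hη, h1⟩, himg, hStr, hcore⟩ := hC1 c F γ e hc hBr
  have hγ : 1 / 25 ≤ rsq c (ax γ) :=
    le_rsq_of_mem_SP hc (Or.inr (ax_mem_neck hBr.mem.1.le hBr.mem.2.le))
  have hcγ : core F₁ γ = core F γ := h1 (ax γ) (by linarith)
  have hopen : IsOpen {p : R4 | 1 / 25 - η < rsq c p} :=
    isOpen_lt continuous_const (continuous_rsq c)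
  have heq : EqOn F F₁ {p : R4 | 1 / 25 - η < rsq c p} := fun p hp => (h1 p (le_of_lt hp)).symm
  have hnear : NearEq F F₁ SP := ⟨_, hopen, fun p hp => by
    have := le_rsq_of_mem_SP hc hp
    show 1 / 25 - η < rsq c p
    linarith, heq⟩
  have hE1 : Eqv F F₁ := eqv_of_nearEq hF (embOn_of_br hBr) hnear
  -- the determinant at the centre
  have hfl : flat c = FB ∨ flat c = flat 0 ∨ flat c = flat 1 := by
    rcases hc with rfl | rfl
    · exact Or.inr (Or.inl rfl)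
    · exact Or.inr (Or.inr rfl)
  have hfoot : fderiv ℝ F₁ (ax (1 / 5 + 3 / 5 * c)) = fderiv ℝ F (ax (1 / 5 + 3 / 5 * c)) := by
    have h2 : ax (1 / 5 + 3 / 5 * c) ∈ {p : R4 | 1 / 25 - η < rsq c p} := by
      show 1 / 25 - η < rsq c _
      rw [rsq_ax]
      rcases hc with rfl | rfl <;> norm_num <;> linarith
    exact ((heq.eventuallyEq_of_mem (hopen.mem_nhds h2)).fderiv_eq).symm
  have hdet1 : 0 < (fderiv ℝ F₁ (ax c)).det :=
    hDET F₁ (flat c) hfl (fun p hp => hB1.loc p (Or.inr hp)) _ (foot_mem_flat hc) _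
      (centre_mem_flat c) (by rw [hfoot]; exact hdet)
  obtain ⟨G, hG0, hC, hG1⟩ := hLOC F₁ (ax c) U (hB1.loc _ (Or.inr (centre_mem_flat c))) hdet1 hU
    hUp (by rw [← hcore, hcγ]; exact hcU) haU
  refine ⟨fun q => G.f (1, F₁ q), G, hE1.trans (eqv_postcomp hF (embOn_of_br hB1) G hG0),
    br_post hB1 G, ?_, congrArg (fun y => G.f (1, y)) hcore, hG1, hG0, hC,
    ⟨η, hη, fun p hp => congrArg (fun y => G.f (1, y)) (h1 p hp)⟩, ?_⟩
  · obtain ⟨τ, t1, t2, t3, t4⟩ := hStr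
    refine ⟨τ, t1, t2, t3, ?_⟩
    filter_upwards [t4] with s hs
    exact congrArg (fun y => G.f (1, y)) hs
  · rw [← himg, image_image]

end Pool.Agent.Helper70.BI
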