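import Pool.Agent.Helper70.BI.StL
import Pool.Agent.Helper70.BI.M_NF1

/-!
# Project BI, part (E), module LAS: lassos
-/

set_option autoImplicit false

open scoped Manifold ContDiff Topology ComplexConjugate
open Set Filter Pool.Agent.Helper65.Barb Pool.Agent.Helper18.BI

namespace Pool.Agent.Helper70.BI

open Pool.Agent.Helper34.BI (cfac BarData barFam)

namespace LAS

open NF1

/-- the contracted germ is standard near the second flat ball -/
private theorem form {F : R4 → R4} {d δ lam : ℝ} (hNB : NB 1 F (2 / 5) d δ) (hCL : StCL) {r : ℝ}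
    (hl : 0 < lam) (hlr : lam < r) (hrδ : r < δ) {p : R4} (h1 : rsq 1 p ≤ 1 / 20)
    (h2 : |p.1 - 1 / 2| < r) : F (clc 1 lam p) = (p.1, pc 1 + lam • (p.2 - pc 1)) := by
  have hs := hNB.small
  obtain ⟨-, -, hc⟩ := hCL 1 (Or.inr rfl)
  obtain ⟨-, -, h3, -, -, -, -⟩ := hc lam ⟨hl, by linarith⟩
  rw [h3 p h1]
  apply hNB.near
  have e : rsq 1 p = (p.2.1 - 1) ^ 2 + p.2.2.re ^ 2 + p.2.2.im ^ 2 := rfl
  rw [e] at h1
  have n1 : |p.2.1 - 1| ≤ 1 := by
    apply abs_le_of_sq_le_sq _ (by norm_num)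
    nlinarith [sq_nonneg p.2.2.re, sq_nonneg p.2.2.im]
  have n2 : ‖p.2.2‖ ≤ 1 := by
    rw [Complex.norm_def]
    apply Real.sqrt_le_one.2
    rw [Complex.normSq_apply]
    nlinarith [sq_nonneg (p.2.1 - 1)]
  have e2 : ((p.1, pc 1 + lam • (p.2 - pc 1)) : R4) - ax 1 = (p.1 - 1 / 2, (lam * (p.2.1 - 1), lam • p.2.2)) := by
    unfold ax pc
    ext <;> simp
  rw [e2, Prod.norm_def, Prod.norm_def]
  simp only [Real.norm_eq_abs, abs_mul, norm_smul, abs_of_pos hl]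
  refine max_lt (by linarith) (max_lt ?_ ?_)
  · calc lam * |p.2.1 - 1| ≤ lam * 1 := mul_le_mul_of_nonneg_left n1 hl.le
      _ < δ := by linarith
  · calc lam * ‖p.2.2‖ ≤ lam * 1 := mul_le_mul_of_nonneg_left n2 hl.le
      _ < δ := by linarith

private theorem norm_str (d a : ℝ) (hd : d = 1 ∨ d = -1) :
    ‖((1 / 2 + d * (a - 2 / 5), pc 1) : R4) - ax 1‖ = |a - 2 / 5| := by
  have e : ((1 / 2 + d * (a - 2 / 5), pc 1) : R4) - ax 1 = (d * (a - 2 / 5), 0) := by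
    unfold ax pc
    ext <;> simp
  rw [e, Prod.norm_def]
  simp only [Real.norm_eq_abs, abs_mul, norm_zero]
  rcases hd with rfl | rfl
  · simp
  · simp

/-- a diffeomorphism supported in a small ball maps the large ball to itself -/
private theorem ball_map (G : DFam I4 R4) {C : Set R4} {r : ℝ} (hr : 0 < r)
    (hC : C ⊆ Metric.ball (ax 1) (r / 4)) (hG : ∀ t y, y ∉ C → G.f (t, y) = y) {y : R4}
    (hy : ‖y - ax 1‖ < r) : ‖G.f (1, y) - ax 1‖ < r := by
  by_cases h : y ∈ C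
  · by_contra hn
    push Not at hn
    have h1 : G.f (1, y) ∉ C := by
      intro h2
      have h3 := hC h2
      rw [Metric.mem_ball, dist_eq_norm] at h3
      linarith
    have h2 := hG 1 _ h1
    have h3 := inj_dfam G h2
    rw [h3] at h1
    exact h1 h
  · rw [hG 1 y h]
    exact hy

private theorem far_fix (G : DFam I4 R4) {C : Set R4} {r : ℝ}
    (hC : C ⊆ Metric.ball (ax 1) (r / 4)) (hG : ∀ t y, y ∉ C → G.f (t, y) = y) {y : R4}
    (hy : r / 4 ≤ ‖y - ax 1‖) : G.f (1, y) = y := by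
  apply hG
  intro h
  have h3 := hC h
  rw [Metric.mem_ball, dist_eq_norm] at h3
  linarith

end LAS

open LAS NF1 in
theorem m_LAS (hNO : StNO) (hV1 : StV1) (hSPI : StSPI) (hNF1 : StNF1) (hRM : StRM) (hRG : StRG)
    (hNF2 : StNF2) (hCL : StCL) : StLAS := by
  intro F d δ r₁ hd hNB hr₁
  obtain ⟨r, lam₀, r0, rr₁, rδ, lam0, far, farc, hH⟩ := hNO F d δ r₁ hd hNB hr₁
  have hδ := hNB.small
  set lam : ℝ := min (lam₀ / 2) (r / 8) with hlam
  have l0 : 0 < lam := lt_min (by linarith) (by linarith)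
  have l1 : lam < lam₀ := lt_of_le_of_lt (min_le_left _ _) (by linarith)
  have l2 : lam < r / 4 := lt_of_le_of_lt (min_le_right _ _) (by linarith)
  obtain ⟨G, hG, hG1, hG2, hG3, hG4⟩ := hH lam ⟨l0, l1⟩
  have hGid : Thin I4 G (fun x => x) := by
    apply hV1 G
    apply EmbOn.mono' hG
    rintro p ((hp | hp) | hp)
    · exact Or.inr hp
    · exact Or.inl (Or.inr hp)
    · exact Or.inl (Or.inl (Or.inl hp))
  obtain ⟨F₁, β₁, hβ, hB1, hE1, h34, hcl, hdet, hnear⟩ := hSPI G d r lam hd r0 l0 (by linarith) hG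
    (fun p hp1 hp2 hp3 => by
      rw [hG2 p hp1]
      exact form hNB hCL l0 (by linarith) rδ hp2 hp3)
  have h45 : (1 / 5 + 3 / 5 * 1 : ℝ) = 4 / 5 := by norm_num
  obtain ⟨F₂, G', hE2, hB2, ⟨τ, τs, τv, τd, τF⟩, -, hid, -, ⟨C, -, hCU, hCf⟩, ⟨η, hη, hη2⟩, -⟩ :=
    hNF1 1 F₁ β₁ d (Metric.ball (ax 1) (r / 4)) (Or.inr rfl) hB1 (by rw [h45]; exact hdet)
      Metric.isOpen_ball (convex_ball _ _).isPreconnected
      (by rw [Metric.mem_ball, dist_eq_norm]; linarith) (Metric.mem_ball_self (by linarith))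
  -- reparametrization
  have ce : ContinuousAt (fun a : ℝ => 1 / 2 + d * (a - 2 / 5)) (2 / 5) := by fun_prop
  have ve : (1 / 2 + d * ((2 : ℝ) / 5 - 2 / 5) : ℝ) = 1 / 2 := by ring
  have μs : ∀ᶠ a in 𝓝 (2 / 5 : ℝ), ContDiffAt ℝ ∞ (fun a => τ (1 / 2 + d * (a - 2 / 5))) a := by
    have h1 : ∀ᶠ a in 𝓝 (2 / 5 : ℝ), ContDiffAt ℝ ∞ τ (1 / 2 + d * (a - 2 / 5)) := by
      have := ce.tendsto
      rw [ve] at this
      exact this.eventually τs
    filter_upwards [h1] with a ha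
    exact ha.comp a (by fun_prop)
  have μd : 0 < deriv (fun a => τ (1 / 2 + d * (a - 2 / 5))) (2 / 5) := by
    have h1 : HasDerivAt τ (deriv τ (1 / 2)) (1 / 2 + d * ((2 : ℝ) / 5 - 2 / 5)) := by
      rw [ve]
      exact (τs.self_of_nhds.differentiableAt (by simp)).hasDerivAt
    have h2 : HasDerivAt (fun a : ℝ => 1 / 2 + d * (a - 2 / 5)) (d * 1) (2 / 5) :=
      (((hasDerivAt_id (2 / 5 : ℝ)).sub_const _).const_mul d).const_add _
    have h3 : HasDerivAt (fun a : ℝ => τ (1 / 2 + d * (a - 2 / 5))) (deriv τ (1 / 2) * (d * 1))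
        (2 / 5) := HasDerivAt.comp (2 / 5 : ℝ) h1 h2
    rw [h3.deriv]
    nlinarith [τd]
  obtain ⟨m, ms, md, mμ, η', hη', mid⟩ := hRM.1 (2 / 5 - r / 2) (4 / 5) (2 / 5) β₁
    (fun a => τ (1 / 2 + d * (a - 2 / 5))) (by linarith) (by norm_num) (by linarith) hB2.mem.2 μs
    (by show τ (1 / 2 + d * ((2 : ℝ) / 5 - 2 / 5)) = β₁; rw [ve, τv]) μd
  have hm : RepOK m := ⟨ms, md, η', hη', fun a ha => mid a (by
    rcases ha with h | h
    · left; linarith
    · right; exact h)⟩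
  obtain ⟨δ₀, hδ₀, hNB'⟩ := hNF2 1 F₂ β₁ (2 / 5) d τ m (Or.inr rfl) hd hB2 hid τv τF hm
    ⟨by norm_num, by norm_num⟩ mμ
  have hS : EmbOn I4 F₂ SP := embOn_of_br hB2
  obtain ⟨-, hax, hfl, hIcc, hmono, h6⟩ := hRG m hm
  have hcore' : ∀ a, core (fun p => F₂ (repm m p)) a = core F₂ (m a) := fun a => by
    show F₂ (repm m (ax a)) = F₂ (ax (m a))
    rw [hax]
  have hcore2 : ∀ a ∈ Icc (1 / 5 : ℝ) (4 / 5), core F₂ a = G'.f (1, core F₁ a) := fun a ha => by
    apply hη2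
    rw [rsq_ax]
    nlinarith [ha.1, ha.2]
  have hm1 : m (2 / 5 - r / 2) = 2 / 5 - r / 2 := mid _ (Or.inl (by linarith))
  have hm2 : m (4 / 5) = 4 / 5 := mid _ (Or.inr (by linarith))
  refine ⟨r, δ₀, fun p => F₂ (repm m p), r0, rr₁, rδ, far, farc, hNB' δ₀ ⟨hδ₀, le_rfl⟩, ?_, ?_, ?_, ?_⟩
  · exact ((hE1.trans (hE2.trans (h6 F₂ hS).2)) _).1 hGid
  · apply nearEq_of_eventuallyEq
    intro p hp
    have e1 : ∀ᶠ q in 𝓝 p, repm m q = q := hfl 0 (Or.inl rfl) p ⟨hp.1, hp.2.le⟩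
    have a1 : p.2.1 ≤ 1 / 5 := by
      have h1 := sq_le_rsq p
      rw [hp.2] at h1
      nlinarith
    have e2 : ∀ᶠ q : R4 in 𝓝 p, q.2.1 < 1 / 5 + 1 / 200 := by
      have hc : ContinuousAt (fun q : R4 => q.2.1) p := by fun_prop
      exact hc.eventually (Iio_mem_nhds (by linarith))
    have hFc : ContinuousAt F p :=
      ((ld_iff.1 (hNB.br.loc p (Or.inl (Or.inl (Or.inl hp))))).1.self_of_nhds).continuousAt
    have e3 : ∀ᶠ q : R4 in 𝓝 p, r / 4 < ‖F q - ax 1‖ := by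
      have hc : ContinuousAt (fun q : R4 => ‖F q - ax 1‖) p := (hFc.sub continuousAt_const).norm
      exact hc.eventually (Ioi_mem_nhds (by have := far p hp; linarith))
    filter_upwards [e1, e2, e3] with q q1 q2 q3
    have q4 : F₁ q = F q := by rw [h34 q (by linarith), hG1 q (by linarith)]
    rw [q1, hη2 q (by
      have := sq_le_rsq_one q
      nlinarith), q4, far_fix G' hCU hCf q3.le]
  · intro a ha
    have ha' : a ∈ Icc (1 / 5 : ℝ) (4 / 5) := ⟨ha.1, by linarith [ha.2]⟩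
    have e1 : m a = a := mid a (Or.inl (by linarith [ha.2]))
    have e2 : core F₁ a = core F a := by
      rw [← hG3 a ha]
      exact h34 (ax a) (by show a ≤ 3 / 4; linarith [ha.2])
    rw [hcore', e1, hcore2 a ha', e2]
    apply far_fix G' hCU hCf
    by_cases h : δ ≤ |a - 2 / 5|
    · have := farc a ha' h
      linarith
    · push Not at h
      rw [hNB.str a h, norm_str d a hd, abs_of_nonpos (by linarith [ha.2])]
      linarith [ha.2]
  · intro a ha
    have ha' : m a ∈ Icc (2 / 5 - r / 2) (4 / 5 : ℝ) := by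
      constructor
      · rw [← hm1]; exact hmono.monotone ha.1
      · rw [← hm2]; exact hmono.monotone ha.2
    have ha2 : m a ∈ Icc (1 / 5 : ℝ) (4 / 5) := ⟨by linarith [ha'.1], ha'.2⟩
    rw [hcore', hcore2 _ ha2]
    apply ball_map G' r0 hCU hCf
    rcases hcl (m a) ha2 with h | h
    · rw [h]; exact hG4 _ ha'
    · exact h

end Pool.Agent.Helper70.BI
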