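import Pool.Agent.Helper70.BI.StS

/-!
# Project BI, part (E), module R3J
-/

set_option autoImplicit false

open scoped Manifold ContDiff Topology ComplexConjugate
open Set Filter Pool.Agent.Helper65.Barb Pool.Agent.Helper18.BI

namespace Pool.Agent.Helper70.BI

open Pool.Agent.Helper34.BI (BarData barFam)
open Pool.Agent.Helper27.BI (StVanT)

namespace R3J

theorem rsq_eq (c : ℝ) (p : R4) :
    rsq c p = (p.2.1 - c) ^ 2 + p.2.2.re ^ 2 + p.2.2.im ^ 2 := rfl

theorem le_flat_zero {p : R4} (h : p ∈ flat 0) : p.2.1 ≤ 1 / 5 := by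
  obtain ⟨-, h⟩ := h
  rw [rsq_eq] at h
  have h3 : p.2.1 ^ 2 ≤ (1 / 5) ^ 2 := by
    nlinarith [sq_nonneg p.2.2.re, sq_nonneg p.2.2.im]
  exact (abs_le_of_sq_le_sq' h3 (by norm_num)).2

theorem flat_one_le {p : R4} (h : p ∈ flat 1) : 4 / 5 ≤ p.2.1 := by
  obtain ⟨-, h⟩ := h
  rw [rsq_eq] at h
  have h3 : (p.2.1 - 1) ^ 2 ≤ (1 / 5) ^ 2 := by
    nlinarith [sq_nonneg p.2.2.re, sq_nonneg p.2.2.im]
  linarith [(abs_le_of_sq_le_sq' h3 (by norm_num)).1]

theorem sph_sub_flat (c : ℝ) : sph c ⊆ flat c := fun _ hp => ⟨hp.1, hp.2.le⟩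

theorem step_zero : step 0 = 0 := Real.smoothTransition.zero_of_nonpos le_rfl
theorem step_one : step 1 = 1 := Real.smoothTransition.one_of_one_le le_rfl

theorem not_U3 {p : R4} (h : p ∈ U3) : p ∉ flat 0 ∪ flat 1 := by
  rintro (hp | hp)
  · rcases h with h | h
    · exact h hp.1
    · linarith [h.1, le_flat_zero hp]
  · rcases h with h | h
    · exact h hp.1
    · linarith [h.2, flat_one_le hp]

theorem contDiff_ax : ContDiff ℝ ∞ ax := by
  unfold ax
  exact contDiff_const.prodMk (contDiff_id.prodMk contDiff_const)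

end R3J

open R3J in
theorem m_R3J (hARC3 : StARC3) (hF : StFam) (hV : StVanT) : StR3J := by
  intro d hd
  obtain ⟨H, hH, hends, hstr, hpar, hoff, hinj, himm⟩ := hARC3 d hd
  have D : BarData (fun p : R4 => p) ax H (1 / 20) := {
    loc := fun p _ => (ld_iff (F := fun p : R4 => p)).2
      ⟨Eventually.of_forall fun q => contDiffAt_id, by
        rw [fderiv_fun_id]
        exact fun v w h => h⟩
    pos := by norm_num
    small := by norm_num
    smooth_c := contDiff_ax
    smooth_H := hH
    core := fun a _ => rfl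
    frozen := fun t a h => hends t a (by
      rcases h with h | h
      · left; linarith
      · right; linarith) }
  -- the arcs avoid the cuffs
  have hcases : ∀ t, ∀ a ∈ Ioo (1 / 5 : ℝ) (4 / 5), H (t, a) ∉ sph 0 ∪ sph 1 := by
    intro t a ha hm
    by_cases h1 : |a - 2 / 5| ≤ 1 / 100
    · rw [hstr t a h1] at hm
      rcases hm with hm | hm
      · have := hm.2
        rw [rsq_eq] at this
        simp only [pc, Complex.zero_re, Complex.zero_im] at this
        norm_num at this
      · have := hm.2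
        rw [rsq_eq] at this
        simp only [pc, Complex.zero_re, Complex.zero_im] at this
        norm_num at this
    · by_cases h2 : |a - 3 / 5| ≤ 3 / 200
      · rw [hpar t a h2] at hm
        obtain ⟨h3, h4⟩ := abs_le.1 h2
        rcases hm with hm | hm
        · have := hm.2
          rw [rsq_eq] at this
          simp only [Complex.ofReal_re, Complex.ofReal_im] at this
          nlinarith
        · have := hm.2
          rw [rsq_eq] at this
          simp only [Complex.ofReal_re, Complex.ofReal_im] at this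
          nlinarith [sq_nonneg ((1 + 100 * (a - 3 / 5)) / 20)]
      · have := not_U3 (hoff t a ha (not_le.1 h1) (not_le.1 h2))
        exact this (hm.imp (fun h => sph_sub_flat 0 h) fun h => sph_sub_flat 1 h)
  have himg : ∀ t, ∀ a ∈ Ioo (1 / 5 : ℝ) (4 / 5),
      H (t, a) ∉ (fun p : R4 => p) '' (sph 0 ∪ sph 1) := by
    intro t a ha
    rw [image_id']
    exact hcases t a ha
  have hemb : ∀ t, EmbOn I4 (fun p => barFam (fun p : R4 => p) ax H (1 / 20) (t, p)) SP :=
    fun t => D.embOn (himm t) (fun p _ q _ h => h) (hinj t) (himg t)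
  have hfam : FamOn I4 (barFam (fun p : R4 => p) ax H (1 / 20)) SP := by
    rw [famOn_iff]
    exact ⟨fun t _ p hp => D.eventually_smooth t hp, fun t _ => hemb t⟩
  -- the values near the ends
  have hval : ∀ t, ∀ p : R4, (p.2.1 ≤ 9 / 40 ∨ 31 / 40 ≤ p.2.1) →
      barFam (fun p : R4 => p) ax H (1 / 20) (t, p) = p := by
    intro t p hp
    refine D.barFam_eq (t := t) (p := p) ?_
    rcases hp with h | h
    · left; linarith
    · right; linarith
  have hneck : ∀ t, ∀ a ∈ Icc (1 / 5 : ℝ) (4 / 5),
      barFam (fun p : R4 => p) ax H (1 / 20) (t, ax a) = H (t, a) :=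
    fun t a ha => D.barFam_neck (t := t) ha.1 ha.2
  have hld : ∀ t, ∀ p : R4, (p.2.1 < 9 / 40 ∨ 31 / 40 < p.2.1) →
      LD (fun p => barFam (fun p : R4 => p) ax H (1 / 20) (t, p)) p := by
    intro t p hp
    have hev : (fun q : R4 => q) =ᶠ[𝓝 p]
        fun q => barFam (fun p : R4 => p) ax H (1 / 20) (t, q) := by
      have hcont : Continuous (fun q : R4 => q.2.1) := by fun_prop
      have hop : IsOpen {q : R4 | q.2.1 < 9 / 40 ∨ 31 / 40 < q.2.1} :=
        (isOpen_lt hcont continuous_const).union (isOpen_lt continuous_const hcont)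
      filter_upwards [hop.mem_nhds hp] with q hq
      exact (hval t q (hq.imp le_of_lt le_of_lt)).symm
    refine ld_congr hev ?_
    rw [ld_iff]
    refine ⟨Eventually.of_forall fun q => contDiffAt_id, ?_⟩
    rw [fderiv_fun_id]
    exact fun v w h => h
  have hFBld : ∀ t, ∀ p ∈ FB, LD (fun p => barFam (fun p : R4 => p) ax H (1 / 20) (t, p)) p := by
    rintro t p ((hp | hp) | hp)
    · exact hld t p (Or.inl (by linarith [le_flat_zero hp]))
    · exact hld t p (Or.inr (by linarith [flat_one_le hp]))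
    · exact (hemb t).1 p (Or.inr hp)
  -- time zero
  have h0 : Thin I4 (fun p => barFam (fun p : R4 => p) ax H (1 / 20) (0, p)) (fun x => x) := by
    refine hV _ _ I4 R4 _ ⟨?_, ?_⟩
    · rintro p ((hp | hp) | hp)
      · exact hFBld 0 p (Or.inl (Or.inl hp))
      · exact (hemb 0).1 p (Or.inl (Or.inr hp))
      · exact (hemb 0).1 p (Or.inr hp)
    · -- injectivity
      have mixed : ∀ p ∈ flat 0, ∀ q ∈ neck, q.2.1 ∈ Ioo (1 / 5 : ℝ) (4 / 5) →
          barFam (fun p : R4 => p) ax H (1 / 20) (0, p) ≠
            barFam (fun p : R4 => p) ax H (1 / 20) (0, q) := by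
        intro p hp q hq hqI h
        have hqe : q = ax q.2.1 := by
          obtain ⟨h1, -, -, h4⟩ := hq
          exact Prod.ext h1 (Prod.ext rfl h4)
        rw [hval 0 p (Or.inl (by linarith [le_flat_zero hp])), hqe,
          hneck 0 q.2.1 ⟨hqI.1.le, hqI.2.le⟩] at h
        by_cases h1 : |q.2.1 - 2 / 5| ≤ 1 / 100
        · rw [hstr 0 _ h1] at h
          have h2 := le_flat_zero hp
          rw [h] at h2
          simp only [pc] at h2
          norm_num at h2
        · by_cases h2 : |q.2.1 - 3 / 5| ≤ 3 / 200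
          · rw [hpar 0 _ h2, step_zero] at h
            have h3 := hp.1
            rw [h] at h3
            simp only at h3
            nlinarith [sq_nonneg (100 * (q.2.1 - 3 / 5))]
          · have := not_U3 (hoff 0 _ hqI (not_le.1 h1) (not_le.1 h2))
            rw [← h] at this
            exact this (Or.inl hp)
      have hcase : ∀ q ∈ neck, q ∈ sph 0 ∪ sph 1 ∨ q.2.1 ∈ Ioo (1 / 5 : ℝ) (4 / 5) := by
        rintro q ⟨h1, h2, h3, h4⟩
        rcases eq_or_lt_of_le h2 with h5 | h5
        · left; left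
          refine ⟨h1, ?_⟩
          rw [rsq_eq, h4, ← h5]
          norm_num
        · rcases eq_or_lt_of_le h3 with h6 | h6
          · left; right
            refine ⟨h1, ?_⟩
            rw [rsq_eq, h4, h6]
            norm_num
          · exact Or.inr ⟨h5, h6⟩
      -- points of the balls and the second cuff are fixed
      have hfix : ∀ p ∈ flat 0 ∪ sph 1, barFam (fun p : R4 => p) ax H (1 / 20) (0, p) = p := by
        rintro p (hp | hp)
        · exact hval 0 p (Or.inl (by linarith [le_flat_zero hp]))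
        · exact hval 0 p (Or.inr (by linarith [flat_one_le (sph_sub_flat 1 hp)]))
      have hsplit : ∀ p ∈ flat 0 ∪ sph 1 ∪ neck, p ∈ flat 0 ∪ sph 1 ∨
          (p ∈ neck ∧ p.2.1 ∈ Ioo (1 / 5 : ℝ) (4 / 5)) := by
        rintro p (hp | hp)
        · exact Or.inl hp
        · rcases hcase p hp with (h | h) | h
          · exact Or.inl (Or.inl (sph_sub_flat 0 h))
          · exact Or.inl (Or.inr h)
          · exact Or.inr ⟨hp, h⟩
      intro p hp q hq h
      simp only at h
      rcases hsplit p hp with hp | ⟨hp, hpI⟩ <;> rcases hsplit q hq with hq | ⟨hq, hqI⟩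
      · rwa [hfix p hp, hfix q hq] at h
      · rcases hp with hp | hp
        · exact (mixed p hp q hq hqI h).elim
        · exact (hemb 0).2 (Or.inl (Or.inr hp)) (Or.inr hq) h
      · rcases hq with hq | hq
        · exact (mixed q hq p hp hpI h.symm).elim
        · exact (hemb 0).2 (Or.inr hp) (Or.inl (Or.inr hq)) h
      · exact (hemb 0).2 (Or.inr hp) (Or.inr hq) h
  have h1 := (hF _ hfam (fun x => x)).1 h0
  refine ⟨fun p => barFam (fun p : R4 => p) ax H (1 / 20) (1, p), ?_⟩
  refine ⟨hFBld 1, (hemb 1).2, h1, fun p hp => hval 1 p hp, ?_, ?_, ?_⟩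
  · intro a ha
    obtain ⟨h2, h3⟩ := abs_le.1 ha
    exact (hneck 1 a ⟨by linarith, by linarith⟩).trans (hstr 1 a ha)
  · intro a ha
    obtain ⟨h2, h3⟩ := abs_le.1 ha
    refine (hneck 1 a ⟨by linarith, by linarith⟩).trans ?_
    rw [hpar 1 a ha, step_one]
    norm_num
  · intro a ha h2 h3
    have h4 : core (fun p => barFam (fun p : R4 => p) ax H (1 / 20) (1, p)) a = H (1, a) :=
      hneck 1 a ⟨ha.1.le, ha.2.le⟩
    rw [h4]
    exact hoff 1 a ha h2 h3

end Pool.Agent.Helper70.BI
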