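import Pool.Agent.Helper70.BI.AsmE0
import Pool.Agent.Helper70.BI.M_R3J
import Pool.Agent.Helper70.BI.M_LAS

/-!
# Project BI, part (E): assembly; the main theorem of stage 2, unconditionally
-/

set_option autoImplicit false

open Pool.Agent.Helper18.BI Pool.Agent.Helper65.Barb

namespace Pool.Agent.Helper70.BI

theorem hR3J : StR3J := m_R3J hARC3 hFam Pool.Agent.Helper27.BI.hVanT
theorem hR3a : StR3 := hR3_of hR3J
theorem hW : StW := hW_of hR3J
theorem hLAS : StLAS := m_LAS hNO hV1 hSPI hNF1 hRM hRG hNF2 hCL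
theorem hMain2 : StMain2 := hMain2_of hLAS

theorem hR0real : Pool.Agent.Helper18.BI.StR0 := m_R0
theorem hR1real : Pool.Agent.Helper18.BI.StR1 := m_R1 hS0 hS1 hS2 hS3 hS4 hR0real
theorem hR2real : Pool.Agent.Helper18.BI.StR2 := m_R2 hA0 hR0real
theorem hR3real : Pool.Agent.Helper18.BI.StR3 :=
  Pool.Agent.Helper18.BI.m_R3 hA1 hA2 hA3 hImp hCI hS3 hS4 hS6 hR1real hR2real

theorem exists_isW' : ∃ W : R4 → R4, IsW W := exists_isW hW

theorem hFinal2 : StFinal2 := by
  obtain ⟨W, hWW⟩ := exists_isW'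
  exact m_Final2 hW4 hMain2 hR3real hA1 hT2 hT4 hX1 hX2 hX3 hCI hWW

end Pool.Agent.Helper70.BI
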