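import Pool.Agent.Helper70.BI.StS
import Pool.Agent.Helper34.BI.M_D2a
import Pool.Agent.Helper34.BI.M_RE
import Pool.Agent.Helper18.BI.M_S4

/-!
# Project BI, module AG: additivity for germs with two strands through `flat 0`
-/

set_option autoImplicit false

open scoped Manifold ContDiff Topology ComplexConjugate
open Set Filter Pool.Agent.Helper65.Barb Pool.Agent.Helper18.BI

namespace Pool.Agent.Helper70.BI

open Pool.Agent.Helper27.BI (IsKap StADD2)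
open Pool.Agent.Helper34.BI (rade qe)
open Pool.Agent.Helper34.BI.D2a
open Pool.Agent.Helper34.BI.RE

namespace AG

theorem nsq_x2 : nsq x2 = 1 / 100 := by
  simp only [nsq, x2, Complex.ofReal_re, Complex.ofReal_im]
  norm_num

theorem x2_re : x2.2.re = 1 / 10 := by simp only [x2, Complex.ofReal_re]

theorem x2_abs8 : |x2.2.re| / 8 = 1 / 80 := by
  rw [x2_re, abs_of_pos (by norm_num)]; norm_num

theorem x2_abs2 : |x2.2.re| / 2 = 1 / 20 := by
  rw [x2_re, abs_of_pos (by norm_num)]; norm_num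

/-- the radial map is an embedding away from the centre -/
theorem emb {δ : ℝ} (h0 : 0 < δ) (h1 : δ < 1) (c : ℝ) :
    EmbOn I4 (rade δ c) {p | 0 < rsq c p} := by
  have hf := qe_prf h0 h1
  refine ⟨fun p hp => ?_, rad_inj hf c⟩
  rw [m_A0 R4 (rade δ c) p]
  exact ⟨⟨_, R2.isOpen_pos c, hp, rad_contDiffOn hf c⟩,
    fun v hv => rad_fderiv hf c p v hp hv⟩

/-- choice of the collar of `sph 1` -/
theorem collar (V : Set R4) (hV : IsOpen V) (hs : sph 1 ⊆ V) :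
    ∃ δ ∈ Ioo (0 : ℝ) (1 / 100), ∀ p ∈ flat 1, 1 / 25 - 3 * δ ≤ rsq 1 p → p ∈ V := by
  have hc : IsCompact (flat 1 \ V) := (S4.cpt_flat 1).diff hV
  rcases (flat 1 \ V).eq_empty_or_nonempty with he | hne
  · refine ⟨1 / 200, ⟨by norm_num, by norm_num⟩, fun p hp _ => ?_⟩
    by_contra hpV
    have : p ∈ flat 1 \ V := ⟨hp, hpV⟩
    rw [he] at this
    exact this
  · obtain ⟨q, hq, hmax⟩ := hc.exists_isMaxOn hne (R2.rsq_contDiff 1).continuous.continuousOn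
    have hq1 : rsq 1 q < 1 / 25 := by
      refine lt_of_le_of_ne hq.1.2 fun h => hq.2 (hs ⟨hq.1.1, h⟩)
    refine ⟨min (1 / 200) ((1 / 25 - rsq 1 q) / 4), ⟨lt_min (by norm_num) (by linarith),
      (min_le_left _ _).trans_lt (by norm_num)⟩, fun p hp hpd => ?_⟩
    by_contra hpV
    have h1 : rsq 1 p ≤ rsq 1 q := hmax ⟨hp, hpV⟩
    have h2 := min_le_right (1 / 200 : ℝ) ((1 / 25 - rsq 1 q) / 4)
    linarith

end AG

open AG in
/-- **AG.** -/
theorem m_AG (hADD : StADD2) (hT2 : StT2) (hT3 : StT3) (hT5 : StT5) (hT6 : StT6) (hImp : StImp)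
    (hS4 : StS4) (hA1 : StA1) (hCI : StCI) : StAG := by
  obtain ⟨r, k1, k2, hr0, hr1', -, kap1, kap2, hoff, hfix, ht1, ht2, hadd⟩ :=
    hADD x2 (by rw [nsq_x2]; norm_num) (by rw [x2_re]; norm_num)
  rw [x2_abs8] at kap1 kap2
  rw [x2_abs2] at hfix
  refine ⟨r, k1, k2, hr0, hr1', kap1, kap2, hoff, hfix, ht1, ht2, ?_⟩
  intro J hloc hinj φ φ1 φ2 hφ hφ1 hφ2
  obtain ⟨s41, s42, s43, s44, -, s46, s47, -, s49, -, -⟩ := hS4
  have hr1 : r ≤ 1 / 100 := by linarith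
  have hk : ∀ k : R4 → R4, (k = k1 ∨ k = k2) → EmbOn 𝓘(ℝ, R4) k univ ∧ (∀ p, (k p).1 = p.1) ∧
        (∀ p ∈ ball4, k p ∈ ball4) ∧ (∀ p, 17 / 100 ≤ p.2.1 → k p = p) ∧
        (∀ p, rsq 0 p ≤ 1 / 25 → rsq 0 (k p) ≤ 1 / 25) ∧ Continuous k := by
    rintro k (rfl | rfl)
    · exact ⟨kap1.emb, kap1.fst, kap1.ball, fun p hp => (hoff p hp).1, kap1.small,
        kap1.smooth.continuous⟩
    · exact ⟨kap2.emb, kap2.fst, kap2.ball, fun p hp => (hoff p hp).2, kap2.small,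
        kap2.smooth.continuous⟩
  have hrr : r ^ 2 ≤ 1 / 10000 := by nlinarith
  have hrr0 : 0 < r ^ 2 := by positivity
  have tube_congr : ∀ (x₀ : R3) (ρ : ℝ) (p q : R4), p.2 = q.2 → p ∈ tube x₀ ρ → q ∈ tube x₀ ρ := by
    intro x₀ ρ p q h hp
    rw [mem_tube] at hp ⊢
    rw [← h]
    exact hp
  -- the compact set `Z`
  set Z : Set R4 := (flat 0 \ (tube 0 r ∪ tube x2 r)) ∪ neck ∪ sph 1 with hZ
  have hZc : IsCompact Z :=
    (((S4.cpt_flat 0).diff ((isOpen_tube _ _).union (isOpen_tube _ _))).union S4.cpt_neck).union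
      (S4.cpt_sph 1)
  have hZsub : Z ⊆ (flat 0 ∪ neck ∪ sph 1) \ {ax 0, (1 / 2, x2)} := by
    have hax : rsq 0 (ax 0) = 0 := by simp [ax, rsq, nsq]
    have hx : rsq 0 ((1 / 2, x2) : R4) = 1 / 100 := by rw [rsq_zero_eq]; exact nsq_x2
    intro p hp
    refine ⟨?_, ?_⟩
    · rcases hp with (hp | hp) | hp
      · exact Or.inl (Or.inl hp.1)
      · exact Or.inl (Or.inr hp)
      · exact Or.inr hp
    · have h1 : (p = ax 0 ∨ p = (1 / 2, x2)) → rsq 0 p ≤ 1 / 100 := by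
        rintro (h | h)
        · rw [h, hax]; norm_num
        · rw [h, hx]
      rintro (h | h)
      · have h2 := h1 (Or.inl h)
        rcases hp with (hp | hp) | hp
        · apply hp.2
          left
          rw [mem_tube0, h, hax]
          exact hrr0
        · have := (SP_rsq (Or.inr hp : p ∈ SP)).1
          linarith
        · have := (SP_rsq (Or.inl (Or.inr hp) : p ∈ SP)).1
          linarith
      · have h3 : p = (1 / 2, x2) := h
        have h2 := h1 (Or.inr h3)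
        rcases hp with (hp | hp) | hp
        · apply hp.2
          right
          rw [mem_tube, h3]
          simp only [sub_self]
          rw [nsq_zero']
          exact hrr0
        · have := (SP_rsq (Or.inr hp : p ∈ SP)).1
          linarith
        · have := (SP_rsq (Or.inl (Or.inr hp) : p ∈ SP)).1
          linarith
  have hJZ : ∀ p ∈ Z, LD J p := fun p hp => hloc p (hZsub hp).1
  obtain ⟨Φ, hΦs, hΦe⟩ := hA1 R4 R4 R4 𝓘(ℝ, R4) R4 J Z hZc hJZ (hinj.mono hZsub)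
  have hJV : EmbOn I4 J Φ.source := by
    refine ⟨fun p hp => ⟨Φ, hp, fun q hq => (hΦe q hq).symm⟩, ?_⟩
    intro p hp q hq h
    rw [← hΦe p hp, ← hΦe q hq] at h
    exact Φ.injOn hp hq h
  obtain ⟨δ, ⟨hδ0, hδ1⟩, hδV⟩ := collar Φ.source Φ.open_source
    (fun p hp => hΦs (Or.inr hp))
  set m₀ : R4 → R4 := rade δ 1 with hm₀
  have hf := qe_prf hδ0 (by linarith : δ < 1)
  have hm₀e : EmbOn I4 m₀ {p | 0 < rsq 1 p} := emb hδ0 (by linarith) 1
  have hm₀id : ∀ p : R4, 1 / 25 - δ ≤ rsq 1 p → m₀ p = p := fun p hp => rade_id hδ0 hδ1 1 hp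
  -- the compact set `L`
  set C : Set R4 := {p | p ∈ flat 1 ∧ 1 / 25 - 3 * δ ≤ rsq 1 p} with hC
  have hCc : IsCompact C :=
    (S4.cpt_flat 1).inter_right (isClosed_le continuous_const (R2.rsq_contDiff 1).continuous)
  set L : Set R4 := Z ∪ C with hL
  have hLc : IsCompact L := hZc.union hCc
  have hLFB : L ⊆ FB := by
    rintro p (((hp | hp) | hp) | hp)
    · exact Or.inl (Or.inl hp.1)
    · exact Or.inr hp
    · exact Or.inl (Or.inr ⟨hp.1, hp.2.le⟩)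
    · exact Or.inl (Or.inr hp.1)
  have hLV : L ⊆ Φ.source := by
    rintro p (hp | hp)
    · exact hΦs hp
    · exact hδV p hp.1 hp.2
  have hJL : EmbOn I4 J L := mono hJV hLV
  have hSPZ : SP ⊆ Z := by
    rintro p ((hp | hp) | hp)
    · refine Or.inl (Or.inl ⟨⟨hp.1, hp.2.le⟩, ?_⟩)
      rintro (h | h)
      · rw [mem_tube0, hp.2] at h
        linarith
      · rw [mem_tube] at h
        have h1 := nsq_parallel (p.2 - x2) x2
        rw [sub_add_cancel, ← rsq_zero_eq, nsq_x2, hp.2] at h1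
        linarith
    · exact Or.inr hp
    · exact Or.inl (Or.inr hp)
  have hSPL : SP ⊆ L := hSPZ.trans subset_union_left
  -- the compact set `K`
  set K : Set R4 := ball4 \ (tube (1, 0) (3 / 20) ∪ tube 0 r ∪ tube x2 r) with hK
  have hKc : IsCompact K :=
    isCompact_ball4.diff (((isOpen_tube _ _).union (isOpen_tube _ _)).union (isOpen_tube _ _))
  have hK1 : ∀ p ∈ K, 0 < rsq 1 p := by
    rintro p ⟨-, hp⟩
    have h1 : p ∉ tube (1, 0) (3 / 20) := fun h => hp (Or.inl (Or.inl h))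
    rw [mem_tube1, not_lt] at h1
    exact lt_of_lt_of_le (by norm_num) h1
  have hEK : EmbOn I4 m₀ K := mono hm₀e hK1
  have hsq : ∀ p ∈ K, sq 0 (m₀ p) ∈ L := by
    intro p hp
    have hp1 := hK1 p hp
    rcases le_or_gt (rsq 1 p) (1 / 25) with h | h
    · have e1 : rsq 1 (m₀ p) = qe δ (rsq 1 p) := rsq_rad hf 1 p hp1
      have e2 : rsq 1 (m₀ p) ≤ 1 / 25 := by
        rw [e1]
        have := hf.mono.monotone h
        rwa [qe_eq hδ0 (q := 1 / 25) (by linarith)] at this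
      have e3 : 1 / 25 - 3 * δ ≤ rsq 1 (m₀ p) := by
        rw [e1]
        exact qe_low hδ0 hδ1 hp1.le
      rw [s43 (m₀ p) (Or.inr (Or.inl e2))]
      have e4 : rsq 1 ((1 / 2, (m₀ p).2) : R4) = rsq 1 (m₀ p) := rsq_congr rfl
      exact Or.inr ⟨⟨rfl, by rw [e4]; exact e2⟩, by rw [e4]; exact e3⟩
    · rw [hm₀id p (by linarith)]
      rcases lt_or_ge (rsq 0 p) (1 / 25) with h0 | h0
      · rw [s43 p (Or.inl h0.le)]
        have e4 : rsq 0 ((1 / 2, p.2) : R4) = rsq 0 p := rsq_congr rfl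
        refine Or.inl (Or.inl (Or.inl ⟨⟨rfl, by rw [e4]; exact h0.le⟩, ?_⟩))
        rintro (h2 | h2)
        · exact hp.2 (Or.inl (Or.inr (tube_congr _ _ _ _ rfl h2)))
        · exact hp.2 (Or.inr (tube_congr _ _ _ _ rfl h2))
      · exact hSPL (s41 p ⟨by norm_num at h0 ⊢; linarith, by norm_num at h ⊢; linarith⟩)
  have hidExt : ∀ p ∈ Pool.Agent.Helper18.BI.Ext, m₀ p = p := fun p hp =>
    hm₀id p (by have := hp.2; norm_num at this ⊢; linarith)
  have hidSP : ∀ p ∈ SP, m₀ p = p := fun p hp => hm₀id p (by linarith [(SP_rsq hp).2])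
  set K' : Set R4 := m₀ '' K with hK'
  have hK'c : IsCompact K' := hKc.image_of_continuousOn (cont hEK)
  have hsqL : ∀ p ∈ K', sq 0 p ∈ L := by
    rintro _ ⟨q, hq, rfl⟩
    exact hsq q hq
  have hJSP : EmbOn I4 J SP := mono hJL hSPL
  -- inclusion in K
  have hExtK : ∀ k : R4 → R4, (k = k1 ∨ k = k2) → MapsTo k EB K := by
    intro k hkk p hp
    obtain ⟨hkE, hkf, hkb, hki, hkr, -⟩ := hk k hkk
    have hp0 : 1 / 25 ≤ rsq 0 p := by have := hp.2.1; norm_num at this ⊢; linarith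
    have hp1 : 1 / 25 ≤ rsq 1 p := by have := hp.2.2; norm_num at this ⊢; linarith
    refine ⟨hkb p hp.1, ?_⟩
    have hn0 : p ∉ tube 0 r := by rw [mem_tube0]; linarith
    have hn2 : p ∉ tube x2 r := by
      rw [mem_tube]
      have h1 := nsq_parallel (p.2 - x2) x2
      rw [sub_add_cancel, ← rsq_zero_eq, nsq_x2] at h1
      linarith
    rintro ((h | h) | h)
    · rw [mem_tube1] at h
      have h1 : 17 / 20 ≤ (k p).2.1 := by
        have := sq_le_rsq 1 (k p)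
        nlinarith
      have h2 := hki (k p) (by linarith)
      have h3 := hkE.2 (mem_univ _) (mem_univ _) h2
      rw [h3] at h
      linarith
    · rcases hkk with rfl | rfl
      · exact hn0 (ht1 p h)
      · exact kap2.away p hp.1 h
    · rcases hkk with rfl | rfl
      · exact kap1.away p hp.1 h
      · exact hn2 (ht2 p h)
  have hkSP1 : ∀ k : R4 → R4, (k = k1 ∨ k = k2) → ∀ p ∈ SP, 1 / 25 ≤ rsq 1 (k p) := by
    intro k hkk p hp
    obtain ⟨hkE, hkf, hkb, hki, hkr, -⟩ := hk k hkk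
    rcases hp with (h | h) | h
    · have h3 : rsq 0 (k p) ≤ 1 / 25 := hkr p h.2.le
      have := rsq1_of (le15 h3)
      linarith
    · have h3 := le45 h.2.le
      rw [hki p (by linarith)]
      exact h.2.ge
    · rw [hki p (by linarith [h.2.1])]
      exact (SP_rsq (Or.inr h : p ∈ SP)).2
  have hm : ∀ k : R4 → R4, (k = k1 ∨ k = k2) →
      EmbOn 𝓘(ℝ, R4) (fun p => m₀ (k p)) EB ∧ MapsTo (fun p => m₀ (k p)) SP L := by
    intro k hkk
    obtain ⟨hkE, hkf, hkb, hki, hkr, -⟩ := hk k hkk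
    refine ⟨comp hEK (mono hkE (subset_univ _)) (hExtK k hkk), ?_⟩
    intro p hp
    have hkK := hExtK k hkk (s46 hp)
    show m₀ (k p) ∈ L
    rw [hm₀id _ (by linarith [hkSP1 k hkk p hp])]
    rcases hp with (h | h) | h
    · refine Or.inl (Or.inl (Or.inl ⟨⟨by rw [hkf]; exact h.1, hkr p h.2.le⟩, ?_⟩))
      rintro (h2 | h2)
      · exact hkK.2 (Or.inl (Or.inr h2))
      · exact hkK.2 (Or.inr h2)
    · have h3 := le45 h.2.le
      rw [hki p (by linarith)]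
      exact hSPL (Or.inl (Or.inr h))
    · rw [hki p (by linarith [h.2.1])]
      exact hSPL (Or.inr h)
  -- choice of ε
  obtain ⟨ε₁, hε₁, hT6'⟩ := hT6 R4 R4 𝓘(ℝ, R4) R4 J K' L hK'c hLc hsqL hJL
  obtain ⟨hT2i, hT2ii, -, -, hT2v, -, -⟩ := hT2 R4 R4 𝓘(ℝ, R4) R4
  obtain ⟨ε₂, hε₂, hT2'⟩ := hT2i J hJSP
  obtain ⟨ε₃, hε₃, hT51⟩ := hT5 R4 R4 𝓘(ℝ, R4) R4 J (fun p => m₀ (k1 p)) L hLc hLFB hJL
    (mono (hm k1 (Or.inl rfl)).1 s46) (hm k1 (Or.inl rfl)).2
  obtain ⟨ε₄, hε₄, hT52⟩ := hT5 R4 R4 𝓘(ℝ, R4) R4 J (fun p => m₀ (k2 p)) L hLc hLFB hJL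
    (mono (hm k2 (Or.inr rfl)).1 s46) (hm k2 (Or.inr rfl)).2
  obtain ⟨ε, hε0, hε⟩ : ∃ ε : ℝ, 0 < ε ∧ ε < min (min ε₁ ε₂) (min ε₃ ε₄) :=
    exists_between (lt_min (lt_min hε₁ hε₂) (lt_min hε₃ hε₄))
  have hεa : ε ∈ Ioo 0 ε₁ := ⟨hε0, hε.trans_le ((min_le_left _ _).trans (min_le_left _ _))⟩
  have hεb : ε ∈ Ioo 0 ε₂ := ⟨hε0, hε.trans_le ((min_le_left _ _).trans (min_le_right _ _))⟩
  have hεc : ε ∈ Ioo 0 ε₃ := ⟨hε0, hε.trans_le ((min_le_right _ _).trans (min_le_left _ _))⟩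
  have hεd : ε ∈ Ioo 0 ε₄ := ⟨hε0, hε.trans_le ((min_le_right _ _).trans (min_le_right _ _))⟩
  have hGs : EmbOn 𝓘(ℝ, R4) (J ∘ sq ε) K' := (hT6' ε hεa).1
  have hF : EmbOn 𝓘(ℝ, R4) (fun p => J (sq ε (m₀ p))) K :=
    comp (c := J ∘ sq ε) (F := m₀) hGs hEK (mapsTo_image _ _)
  have hcis := hadd R4 R4 𝓘(ℝ, R4) R4 (fun p => J (sq ε (m₀ p))) hF
  -- `bsupp ⊆ K`
  have hbK : bsupp ⊆ K := by
    intro p hp
    have hpE := s47 hp
    have hp0 : 1 / 25 ≤ rsq 0 p := by have := hpE.2.1; norm_num at this ⊢; linarith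
    have hp1 : 1 / 25 ≤ rsq 1 p := by have := hpE.2.2; norm_num at this ⊢; linarith
    refine ⟨hpE.1, ?_⟩
    rintro ((h | h) | h)
    · rw [mem_tube1] at h; linarith
    · rw [mem_tube0] at h; linarith
    · rw [mem_tube] at h
      have h1 := nsq_parallel (p.2 - x2) x2
      rw [sub_add_cancel, ← rsq_zero_eq, nsq_x2] at h1
      linarith
  have himpF : imp (fun p => J (sq ε (m₀ p))) bsupp barMap = imp (J ∘ sq ε) bsupp barMap := by
    obtain ⟨-, -, -, -, -, h6, -⟩ := hImp R4 R4 𝓘(ℝ, R4) R4 (fun p => J (sq ε (m₀ p))) bsupp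
      barMap (hF.2.mono hbK)
    apply h6 (J ∘ sq ε) _ maps_bar
    intro p hp
    simp only [Function.comp]
    rw [hidExt p (s47 hp).2]
  obtain ⟨-, -, -, hCItrans, hCIprod, -⟩ := hCI R4 R4 𝓘(ℝ, R4) R4
  have hthin : ∀ k : R4 → R4, (k = k1 ∨ k = k2) → Thin 𝓘(ℝ, R4) (fun p => J (sq ε (m₀ (k p))))
      (imp (fun p => J (sq ε (m₀ (k p)))) bsupp barMap) := by
    intro k hkk
    apply hT3 R4 R4 𝓘(ℝ, R4) R4
    exact comp (c := fun p => J (sq ε (m₀ p))) (F := k) hF (mono (hk k hkk).1 (subset_univ _))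
      (hExtK k hkk)
  -- `J ∘ m₀ ∘ k = J ∘ k` near `SP`
  have hnear : ∀ k : R4 → R4, (k = k1 ∨ k = k2) → ∀ ψ : R4 → R4,
      Thin 𝓘(ℝ, R4) (fun p => J (m₀ (k p))) ψ → Thin 𝓘(ℝ, R4) (fun p => J (k p)) ψ := by
    intro k hkk ψ hψ
    refine hT2v (fun p => J (m₀ (k p))) (fun p => J (k p)) {p | 1 / 25 - δ < rsq 1 (k p)} ψ
      ?_ ?_ ?_ hψ
    · exact isOpen_lt continuous_const ((R2.rsq_contDiff 1).continuous.comp (hk k hkk).2.2.2.2.2)
    · intro p hp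
      have := hkSP1 k hkk p hp
      show 1 / 25 - δ < rsq 1 (k p)
      linarith
    · intro p hp
      have hp' : 1 / 25 - δ < rsq 1 (k p) := hp
      show J (m₀ (k p)) = J (k p)
      rw [hm₀id _ hp'.le]
  have hth1 := hnear k1 (Or.inl rfl) _ ((hT51 ε hεc _).1 (hthin k1 (Or.inl rfl)))
  have hth2 := hnear k2 (Or.inr rfl) _ ((hT52 ε hεd _).1 (hthin k2 (Or.inr rfl)))
  have hc1 := hT2ii (fun p => J (k1 p)) _ _ hth1 hφ1
  have hc2 := hT2ii (fun p => J (k2 p)) _ _ hth2 hφ2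
  have h1 := hT2ii J φ _ hφ (hT2' ε hεb)
  rw [← himpF] at h1
  exact hCItrans _ _ _ (hCItrans _ _ _ h1 hcis) (hCIprod _ _ _ _ hc2 hc1)

end Pool.Agent.Helper70.BI
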