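import Pool.Agent.Helper70.BI.StS
import Pool.Agent.Helper34.BI.Arcs

/-!
# Project BI, module E-ARC3: a family of arcs pushed through a parabola
-/

set_option autoImplicit false

open scoped Manifold ContDiff Topology ComplexConjugate
open Set Filter Pool.Agent.Helper65.Barb Pool.Agent.Helper18.BI

namespace Pool.Agent.Helper70.BI

namespace ARC3

open Pool.Agent.Helper34.BI (hat contDiff_hat hat_ne_zero hat_eq_zero hat_nonneg hat_le_one fam
  GenPos exists_genPos)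

theorem isOpen_U3 : IsOpen U3 := by
  have h1 : IsOpen {p : R4 | p.1 ≠ 1 / 2} := isOpen_ne_fun continuous_fst continuous_const
  have h2 : IsOpen {p : R4 | 1 / 5 < p.2.1} :=
    isOpen_lt continuous_const (continuous_fst.comp continuous_snd)
  have h3 : IsOpen {p : R4 | p.2.1 < 4 / 5} :=
    isOpen_lt (continuous_fst.comp continuous_snd) continuous_const
  exact h1.union (h2.inter h3)

theorem isPreconnected_U3 : IsPreconnected U3 := by
  have cA : Convex ℝ {p : R4 | 1 / 2 < p.1} :=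
    convex_halfSpace_gt (LinearMap.fst ℝ ℝ (ℝ × ℂ)).isLinear _
  have cC : Convex ℝ {p : R4 | p.1 < 1 / 2} :=
    convex_halfSpace_lt (LinearMap.fst ℝ ℝ (ℝ × ℂ)).isLinear _
  have cB1 : Convex ℝ {p : R4 | 1 / 5 < p.2.1} :=
    convex_halfSpace_gt ((LinearMap.fst ℝ ℝ ℂ).comp (LinearMap.snd ℝ ℝ (ℝ × ℂ))).isLinear _
  have cB2 : Convex ℝ {p : R4 | p.2.1 < 4 / 5} :=
    convex_halfSpace_lt ((LinearMap.fst ℝ ℝ ℂ).comp (LinearMap.snd ℝ ℝ (ℝ × ℂ))).isLinear _
  have cB := cB1.inter cB2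
  have h1 : IsPreconnected ({p : R4 | 1 / 2 < p.1} ∪
      ({p : R4 | 1 / 5 < p.2.1} ∩ {p : R4 | p.2.1 < 4 / 5})) := by
    refine IsPreconnected.union ((1, 1 / 2, 0) : R4) ?_ ?_ cA.isPreconnected cB.isPreconnected
    · change (1 / 2 : ℝ) < 1
      norm_num
    · exact ⟨by change (1 / 5 : ℝ) < 1 / 2; norm_num, by change (1 / 2 : ℝ) < 4 / 5; norm_num⟩
  have h2 := IsPreconnected.union ((0, 1 / 2, 0) : R4)
    (Or.inr ⟨by change (1 / 5 : ℝ) < 1 / 2; norm_num, by change (1 / 2 : ℝ) < 4 / 5; norm_num⟩)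
    (by change (0 : ℝ) < 1 / 2; norm_num) h1 cC.isPreconnected
  have h3 : U3 = ({p : R4 | 1 / 2 < p.1} ∪
      ({p : R4 | 1 / 5 < p.2.1} ∩ {p : R4 | p.2.1 < 4 / 5})) ∪ {p : R4 | p.1 < 1 / 2} := by
    ext p
    constructor
    · rintro (h | h)
      · rcases lt_or_gt_of_ne h with h | h
        · exact Or.inr h
        · exact Or.inl (Or.inl h)
      · exact Or.inl (Or.inr h)
    · rintro ((h | h) | h)
      · exact Or.inl (ne_of_gt h)
      · exact Or.inr h
      · exact Or.inl (ne_of_lt h)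
  rw [h3]
  exact h2

/-- the strand over the centre of the second ball -/
noncomputable def strd (d a : ℝ) : R4 := (1 / 2 + d * (a - 2 / 5), pc 1)

/-- the parabola -/
noncomputable def para (a : ℝ) : R4 :=
  (1 / 2 - (100 * (a - 3 / 5)) ^ 2 / 10, ((0 : ℝ), (((1 + 100 * (a - 3 / 5)) / 20 : ℝ) : ℂ)))

theorem contDiff_ax : ContDiff ℝ ∞ (fun a : ℝ => ax a) := by
  unfold ax
  exact contDiff_const.prodMk (contDiff_id.prodMk contDiff_const)

theorem contDiff_strd (d : ℝ) : ContDiff ℝ ∞ (strd d) := by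
  have h1 : ContDiff ℝ ∞ (fun a : ℝ => 1 / 2 + d * (a - 2 / 5)) := by fun_prop
  exact h1.prodMk contDiff_const

theorem contDiff_para : ContDiff ℝ ∞ para := by
  have h1 : ContDiff ℝ ∞ (fun a : ℝ => 1 / 2 - (100 * (a - 3 / 5)) ^ 2 / 10) := by fun_prop
  have h2 : ContDiff ℝ ∞ (fun a : ℝ => (1 + 100 * (a - 3 / 5)) / 20) := by fun_prop
  have h3 : ContDiff ℝ ∞ (fun a : ℝ => (((1 + 100 * (a - 3 / 5)) / 20 : ℝ) : ℂ)) :=
    Complex.ofRealCLM.contDiff.comp h2
  exact h1.prodMk (contDiff_const.prodMk h3)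

/-- the cut off function of the parabola -/
noncomputable def kap (a : ℝ) : ℝ := step ((49 / 16 - (100 * (a - 3 / 5)) ^ 2) * (16 / 13))

theorem contDiff_kap : ContDiff ℝ ∞ kap := by
  have h1 : ContDiff ℝ ∞ (fun a : ℝ => (49 / 16 - (100 * (a - 3 / 5)) ^ 2) * (16 / 13)) := by
    fun_prop
  exact (Real.smoothTransition.contDiff).comp h1

theorem kap_zero {a : ℝ} (h : a ≤ 58 / 100 ∨ 62 / 100 ≤ a) : kap a = 0 := by
  refine Real.smoothTransition.zero_of_nonpos ?_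
  rcases h with h | h
  · nlinarith
  · nlinarith

theorem kap_one {a : ℝ} (h : |a - 3 / 5| ≤ 3 / 200) : kap a = 1 := by
  rw [abs_le] at h
  refine Real.smoothTransition.one_of_one_le ?_
  nlinarith [mul_nonneg (sub_nonneg.2 h.1) (sub_nonneg.2 h.2)]

theorem kap_mem (a : ℝ) : 0 ≤ kap a ∧ kap a ≤ 1 :=
  ⟨Real.smoothTransition.nonneg _, Real.smoothTransition.le_one _⟩

/-- the support function of the perturbation -/
noncomputable def chi (a : ℝ) : ℝ :=
  hat (1 / 4) (39 / 100) a + hat (41 / 100) (58 / 100) a + hat (62 / 100) (3 / 4) a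

theorem contDiff_chi : ContDiff ℝ ∞ chi :=
  ((contDiff_hat _ _).add (contDiff_hat _ _)).add (contDiff_hat _ _)

theorem chi_zero {a : ℝ} (h : a ≤ 1 / 4 ∨ (39 / 100 ≤ a ∧ a ≤ 41 / 100) ∨
    (58 / 100 ≤ a ∧ a ≤ 62 / 100) ∨ 3 / 4 ≤ a) : chi a = 0 := by
  unfold chi
  have e : hat (1 / 4) (39 / 100) a = 0 ∧ hat (41 / 100) (58 / 100) a = 0 ∧
      hat (62 / 100) (3 / 4) a = 0 := by
    rcases h with h | h | h | h
    · exact ⟨hat_eq_zero (Or.inl h), hat_eq_zero (Or.inl (by linarith)),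
        hat_eq_zero (Or.inl (by linarith))⟩
    · exact ⟨hat_eq_zero (Or.inr h.1), hat_eq_zero (Or.inl h.2),
        hat_eq_zero (Or.inl (by linarith))⟩
    · exact ⟨hat_eq_zero (Or.inr (by linarith)), hat_eq_zero (Or.inr h.1),
        hat_eq_zero (Or.inl h.2)⟩
    · exact ⟨hat_eq_zero (Or.inr (by linarith)), hat_eq_zero (Or.inr (by linarith)),
        hat_eq_zero (Or.inr h)⟩
  rw [e.1, e.2.1, e.2.2]
  norm_num

theorem chi_ne {a : ℝ} (h : (1 / 4 < a ∧ a < 39 / 100) ∨ (41 / 100 < a ∧ a < 58 / 100) ∨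
    (62 / 100 < a ∧ a < 3 / 4)) : chi a ≠ 0 := by
  have n1 := hat_nonneg (1 / 4) (39 / 100) a
  have n2 := hat_nonneg (41 / 100) (58 / 100) a
  have n3 := hat_nonneg (62 / 100) (3 / 4) a
  unfold chi
  rcases h with h | h | h
  · have := lt_of_le_of_ne n1 (hat_ne_zero.2 h).symm
    exact ne_of_gt (by linarith)
  · have := lt_of_le_of_ne n2 (hat_ne_zero.2 h).symm
    exact ne_of_gt (by linarith)
  · have := lt_of_le_of_ne n3 (hat_ne_zero.2 h).symm
    exact ne_of_gt (by linarith)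

theorem chi_abs (a : ℝ) : |chi a| ≤ 3 := by
  have n1 := hat_nonneg (1 / 4) (39 / 100) a
  have n2 := hat_nonneg (41 / 100) (58 / 100) a
  have n3 := hat_nonneg (62 / 100) (3 / 4) a
  have m1 := hat_le_one (1 / 4) (39 / 100) a
  have m2 := hat_le_one (41 / 100) (58 / 100) a
  have m3 := hat_le_one (62 / 100) (3 / 4) a
  unfold chi
  rw [abs_le]
  constructor <;> linarith

/-- the four pieces where nothing is perturbed, and the rest -/
theorem pieces (a : ℝ) : chi a ≠ 0 ∨ a ≤ 1 / 4 ∨ (39 / 100 ≤ a ∧ a ≤ 41 / 100) ∨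
    (58 / 100 ≤ a ∧ a ≤ 62 / 100) ∨ 3 / 4 ≤ a := by
  rcases le_or_gt a (1 / 4) with h1 | h1
  · exact Or.inr (Or.inl h1)
  rcases lt_or_ge a (39 / 100) with h2 | h2
  · exact Or.inl (chi_ne (Or.inl ⟨h1, h2⟩))
  rcases le_or_gt a (41 / 100) with h3 | h3
  · exact Or.inr (Or.inr (Or.inl ⟨h2, h3⟩))
  rcases lt_or_ge a (58 / 100) with h4 | h4
  · exact Or.inl (chi_ne (Or.inr (Or.inl ⟨h3, h4⟩)))
  rcases le_or_gt a (62 / 100) with h5 | h5
  · exact Or.inr (Or.inr (Or.inr (Or.inl ⟨h4, h5⟩)))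
  rcases lt_or_ge a (3 / 4) with h6 | h6
  · exact Or.inl (chi_ne (Or.inr (Or.inr ⟨h5, h6⟩)))
  · exact Or.inr (Or.inr (Or.inr (Or.inr h6)))

/-- immersion from one affine coordinate -/
theorem imm_aff {H : ℝ × ℝ → R4} (hH : ContDiff ℝ ∞ H) (t u : ℝ) (l : R4 →L[ℝ] ℝ)
    {x y c0 c1 : ℝ} (hxy : x < y) (hu : u ∈ Icc x y)
    (h : ∀ r ∈ Icc x y, l (H (t, r)) = c0 + c1 * r) (hc : c1 ≠ 0) :
    fderiv ℝ H (t, u) (0, 1) ≠ 0 := by
  have l1 : HasDerivAt (fun r : ℝ => ((t, r) : ℝ × ℝ)) (0, 1) u :=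
    (hasDerivAt_const u t).prodMk (hasDerivAt_id u)
  have h1 : HasDerivAt (fun r => H (t, r)) (fderiv ℝ H (t, u) (0, 1)) u :=
    HasFDerivAt.comp_hasDerivAt_of_eq u ((hH.differentiable (by simp) (t, u)).hasFDerivAt) l1 rfl
  have h2 : HasDerivAt (fun r => l (H (t, r))) (l (fderiv ℝ H (t, u) (0, 1))) u :=
    l.hasFDerivAt.comp_hasDerivAt u h1
  have h3 : HasDerivAt (fun r : ℝ => c0 + c1 * r) c1 u := by
    simpa using ((hasDerivAt_id u).const_mul c1).const_add c0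
  have h4 : HasDerivWithinAt (fun r => l (H (t, r))) c1 (Icc x y) u :=
    h3.hasDerivWithinAt.congr h (h u hu)
  have h5 := ((uniqueDiffOn_Icc hxy) u hu).eq_deriv _ h2.hasDerivWithinAt h4
  intro h0
  rw [h0, map_zero] at h5
  exact hc h5.symm

/-- the unperturbed family -/
noncomputable def hq (q : ℝ → R4) (x : ℝ × ℝ) : R4 :=
  q x.2 + ((2 * step x.1 - 1) * kap x.2 / 10, 0)

theorem contDiff_hq {q : ℝ → R4} (h : ContDiff ℝ ∞ q) : ContDiff ℝ ∞ (hq q) := by
  have h1 : ContDiff ℝ ∞ (fun x : ℝ × ℝ => q x.2) := h.comp contDiff_snd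
  have h2 : ContDiff ℝ ∞ (fun x : ℝ × ℝ => step x.1) :=
    (Real.smoothTransition.contDiff).comp contDiff_fst
  have h3 : ContDiff ℝ ∞ (fun x : ℝ × ℝ => kap x.2) := contDiff_kap.comp contDiff_snd
  have h4 : ContDiff ℝ ∞ (fun x : ℝ × ℝ => (2 * step x.1 - 1) * kap x.2 / 10) :=
    (((contDiff_const.mul h2).sub contDiff_const).mul h3).div_const _
  exact h1.add (h4.prodMk contDiff_const)

theorem main (d : ℝ) (hd : d = 1 ∨ d = -1) (q : ℝ → R4) (hsq : ContDiff ℝ ∞ q)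
    (q0 : ∀ a, a ≤ 1 / 4 → q a = ax a)
    (q1 : ∀ a, 39 / 100 ≤ a → a ≤ 41 / 100 → q a = strd d a)
    (q2 : ∀ a, 58 / 100 ≤ a → a ≤ 62 / 100 → q a = para a)
    (q3 : ∀ a, 3 / 4 ≤ a → q a = ax a)
    (u1 : ∀ a ∈ Icc (1 / 4 : ℝ) (39 / 100), q a ∈ U3)
    (u2 : ∀ a ∈ Icc (41 / 100 : ℝ) (58 / 100), q a ∈ U3)
    (u3 : ∀ a ∈ Icc (62 / 100 : ℝ) (3 / 4), q a ∈ U3) :
    ∃ H : ℝ × ℝ → R4, ContDiff ℝ ∞ H ∧
    (∀ t a, (a ≤ 1 / 4 ∨ 3 / 4 ≤ a) → H (t, a) = ax a) ∧
    (∀ t a, |a - 2 / 5| ≤ 1 / 100 → H (t, a) = (1 / 2 + d * (a - 2 / 5), pc 1)) ∧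
    (∀ t a, |a - 3 / 5| ≤ 3 / 200 → H (t, a) =
      (1 / 2 + ((2 * step t - 1) - (100 * (a - 3 / 5)) ^ 2) / 10,
        ((0 : ℝ), (((1 + 100 * (a - 3 / 5)) / 20 : ℝ) : ℂ)))) ∧
    (∀ t, ∀ a ∈ Ioo (1 / 5 : ℝ) (4 / 5), 1 / 100 < |a - 2 / 5| → 3 / 200 < |a - 3 / 5| →
      H (t, a) ∈ U3) ∧
    (∀ t, InjOn (fun a => H (t, a)) (Icc (1 / 5) (4 / 5))) ∧
    ∀ t, ∀ a ∈ Icc (1 / 5 : ℝ) (4 / 5), fderiv ℝ H (t, a) (0, 1) ≠ 0 := by
  -- the size of the perturbation
  have hK : IsCompact (q '' (Icc (1 / 4 : ℝ) (39 / 100) ∪ Icc (41 / 100 : ℝ) (58 / 100) ∪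
      Icc (62 / 100 : ℝ) (3 / 4))) :=
    ((isCompact_Icc.union isCompact_Icc).union isCompact_Icc).image hsq.continuous
  have hKU : q '' (Icc (1 / 4 : ℝ) (39 / 100) ∪ Icc (41 / 100 : ℝ) (58 / 100) ∪
      Icc (62 / 100 : ℝ) (3 / 4)) ⊆ U3 := by
    rintro _ ⟨a, (ha | ha) | ha, rfl⟩
    · exact u1 a ha
    · exact u2 a ha
    · exact u3 a ha
  obtain ⟨ε, hε, hth⟩ := hK.exists_thickening_subset_open isOpen_U3 hKU
  have hE : Module.finrank ℝ R4 = 4 := by
    simp [R4, Module.finrank_prod, Complex.finrank_real_complex]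
  obtain ⟨v, w, hv, hw, hgp⟩ := exists_genPos (h := hq q) (ρ := fun _ => (1 : ℝ)) (χ := chi)
    (Y := ℂ) hE Complex.finrank_real_complex (contDiff_hq hsq) contDiff_const contDiff_chi
    (ι := Empty) (κ := Empty) (f := fun i => i.elim) (T := fun i => i.elim)
    (fun i => i.elim) (fun i => i.elim) (g := fun k => k.elim) (fun k => k.elim)
    (ε := ε / 6) (by positivity)
  let H : ℝ × ℝ → R4 := fam (hq q) (fun _ => (1 : ℝ)) chi v w
  have hHdef : ∀ t a, H (t, a) = hq q (t, a) + (1 * chi a) • (v + a • w) := fun t a => rfl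
  have hH : ContDiff ℝ ∞ H := by
    have e2 : ContDiff ℝ ∞ (fun x : ℝ × ℝ => chi x.2) := contDiff_chi.comp contDiff_snd
    exact (contDiff_hq hsq).add ((contDiff_const.mul e2).smul
      (contDiff_const.add (contDiff_snd.smul contDiff_const)))
  have hz : ∀ t a, chi a = 0 → H (t, a) = q a + ((2 * step t - 1) * kap a / 10, 0) := by
    intro t a ha
    rw [hHdef, ha, mul_zero, zero_smul, add_zero]
    rfl
  have hkz : ∀ t a, chi a = 0 → kap a = 0 → H (t, a) = q a := by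
    intro t a ha hk
    rw [hz t a ha, hk]
    have e : (((2 * step t - 1) * 0 / 10, 0) : R4) = 0 := by
      rw [mul_zero, zero_div]
      rfl
    rw [e, add_zero]
  -- the pieces
  have p0 : ∀ t a, a ≤ 1 / 4 → H (t, a) = ax a := fun t a ha => by
    rw [hkz t a (chi_zero (Or.inl ha)) (kap_zero (Or.inl (by linarith))), q0 a ha]
  have p1 : ∀ t a, 39 / 100 ≤ a → a ≤ 41 / 100 → H (t, a) = strd d a := fun t a h1 h2 => by
    rw [hkz t a (chi_zero (Or.inr (Or.inl ⟨h1, h2⟩))) (kap_zero (Or.inl (by linarith))),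
      q1 a h1 h2]
  have p2 : ∀ t a, 58 / 100 ≤ a → a ≤ 62 / 100 →
      H (t, a) = para a + ((2 * step t - 1) * kap a / 10, 0) := fun t a h1 h2 => by
    rw [hz t a (chi_zero (Or.inr (Or.inr (Or.inl ⟨h1, h2⟩)))), q2 a h1 h2]
  have p3 : ∀ t a, 3 / 4 ≤ a → H (t, a) = ax a := fun t a ha => by
    rw [hkz t a (chi_zero (Or.inr (Or.inr (Or.inr ha)))) (kap_zero (Or.inr (by linarith))),
      q3 a ha]
  have pU : ∀ t a, a ∈ Icc (1 / 4 : ℝ) (39 / 100) ∪ Icc (41 / 100 : ℝ) (58 / 100) ∪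
      Icc (62 / 100 : ℝ) (3 / 4) → H (t, a) ∈ U3 := by
    intro t a ha
    apply hth
    rw [Metric.mem_thickening_iff]
    refine ⟨q a, ⟨a, ha, rfl⟩, ?_⟩
    have hk : kap a = 0 := by
      rcases ha with (ha | ha) | ha
      · exact kap_zero (Or.inl (by linarith [ha.2]))
      · exact kap_zero (Or.inl ha.2)
      · exact kap_zero (Or.inr ha.1)
    have hab : |a| ≤ 1 := by
      rw [abs_le]
      rcases ha with (ha | ha) | ha
      · exact ⟨by linarith [ha.1], by linarith [ha.2]⟩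
      · exact ⟨by linarith [ha.1], by linarith [ha.2]⟩
      · exact ⟨by linarith [ha.1], by linarith [ha.2]⟩
    have e1 : H (t, a) - q a = (1 * chi a) • (v + a • w) := by
      have e : hq q (t, a) = q a := by
        change q a + ((2 * step t - 1) * kap a / 10, 0) = q a
        rw [hk]
        have e : (((2 * step t - 1) * 0 / 10, 0) : R4) = 0 := by
          rw [mul_zero, zero_div]
          rfl
        rw [e, add_zero]
      rw [hHdef, e, add_sub_cancel_left]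
    rw [dist_eq_norm, e1, norm_smul, one_mul, Real.norm_eq_abs]
    have e2 : ‖v + a • w‖ ≤ ‖v‖ + ‖w‖ := by
      refine (norm_add_le _ _).trans ?_
      rw [norm_smul, Real.norm_eq_abs]
      have := mul_le_mul_of_nonneg_right hab (norm_nonneg w)
      linarith
    have e3 := mul_le_mul (chi_abs a) e2 (norm_nonneg _) (by norm_num : (0 : ℝ) ≤ 3)
    linarith
  have rho : ∀ t : ℝ, (fun _ : ℝ => (1 : ℝ)) t ≠ 0 := fun _ => one_ne_zero
  -- the coordinate `a` of the pieces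
  have c0 : ∀ t a, a ≤ 1 / 4 → (H (t, a)).2.1 = a := fun t a ha => by rw [p0 t a ha]; rfl
  have c1 : ∀ t a, 39 / 100 ≤ a → a ≤ 41 / 100 → (H (t, a)).2.1 = 1 := fun t a h1 h2 => by
    rw [p1 t a h1 h2]; rfl
  have c2 : ∀ t a, 58 / 100 ≤ a → a ≤ 62 / 100 → (H (t, a)).2.1 = 0 := fun t a h1 h2 => by
    rw [p2 t a h1 h2]
    change (0 : ℝ) + 0 = 0
    rw [add_zero]
  have c3 : ∀ t a, 3 / 4 ≤ a → (H (t, a)).2.1 = a := fun t a ha => by rw [p3 t a ha]; rfl
  have s1 : ∀ t a, 39 / 100 ≤ a → a ≤ 41 / 100 → (H (t, a)).1 = 1 / 2 + d * (a - 2 / 5) :=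
    fun t a h1 h2 => by rw [p1 t a h1 h2]; rfl
  have w2 : ∀ t a, 58 / 100 ≤ a → a ≤ 62 / 100 →
      (H (t, a)).2.2.re = (1 + 100 * (a - 3 / 5)) / 20 := fun t a h1 h2 => by
    rw [p2 t a h1 h2]
    change (((((1 + 100 * (a - 3 / 5)) / 20 : ℝ) : ℂ)) + 0).re = _
    rw [add_zero, Complex.ofReal_re]
  have hd0 : d ≠ 0 := by
    rcases hd with h | h
    · rw [h]; norm_num
    · rw [h]; norm_num
  refine ⟨H, hH, ?_, ?_, ?_, ?_, ?_, ?_⟩
  · rintro t a (h | h)
    · exact p0 t a h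
    · exact p3 t a h
  · intro t a h
    rw [abs_le] at h
    exact p1 t a (by linarith [h.1]) (by linarith [h.2])
  · intro t a h
    have h' := abs_le.1 h
    rw [p2 t a (by linarith [h'.1]) (by linarith [h'.2]), kap_one h]
    refine Prod.ext ?_ (Prod.ext ?_ ?_)
    · change 1 / 2 - (100 * (a - 3 / 5)) ^ 2 / 10 + (2 * step t - 1) * 1 / 10 =
        1 / 2 + ((2 * step t - 1) - (100 * (a - 3 / 5)) ^ 2) / 10
      ring
    · change (0 : ℝ) + 0 = 0
      rw [add_zero]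
    · change (((1 + 100 * (a - 3 / 5)) / 20 : ℝ) : ℂ) + 0 = _
      rw [add_zero]
  · intro t a ha h1 h2
    rcases le_or_gt a (1 / 4) with g1 | g1
    · rw [p0 t a g1]
      exact Or.inr ⟨ha.1, by change a < 4 / 5; linarith⟩
    rcases le_or_gt (3 / 4) a with g6 | g6
    · rw [p3 t a g6]
      exact Or.inr ⟨by change 1 / 5 < a; linarith, ha.2⟩
    rcases le_or_gt a (39 / 100) with g2 | g2
    · exact pU t a (Or.inl (Or.inl ⟨g1.le, g2⟩))
    rcases le_or_gt (62 / 100) a with g5 | g5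
    · exact pU t a (Or.inr ⟨g5, g6.le⟩)
    rcases lt_or_ge a (41 / 100) with g3 | g3
    · exfalso
      have : |a - 2 / 5| < 1 / 100 := by
        rw [abs_lt]
        constructor <;> linarith
      linarith
    rcases le_or_gt a (58 / 100) with g4 | g4
    · exact pU t a (Or.inl (Or.inr ⟨g3, g4⟩))
    · refine Or.inl (ne_of_lt ?_)
      rw [p2 t a g4.le g5.le]
      change 1 / 2 - (100 * (a - 3 / 5)) ^ 2 / 10 + (2 * step t - 1) * kap a / 10 < 1 / 2
      have k1 := kap_mem a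
      have k2 : (2 * step t - 1) * kap a ≤ 1 := by
        have k3 : step t ≤ 1 := Real.smoothTransition.le_one t
        nlinarith [k1.1, k1.2]
      have k4 : 1 < (100 * (a - 3 / 5)) ^ 2 := by
        rw [lt_abs] at h2
        rcases h2 with h2 | h2
        · nlinarith
        · nlinarith
      linarith
  · intro t u hu u' hu' he
    by_contra hne
    have he' : H (t, u) = H (t, u') := he
    rcases pieces u with k | k
    · exact hgp.inj t u u' (rho t) hne (Or.inl k) he'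
    rcases pieces u' with k' | k'
    · exact hgp.inj t u u' (rho t) hne (Or.inr k') he'
    have ea : (H (t, u)).2.1 = (H (t, u')).2.1 := by rw [he']
    have es : (H (t, u)).1 = (H (t, u')).1 := by rw [he']
    have ew : (H (t, u)).2.2.re = (H (t, u')).2.2.re := by rw [he']
    rcases k with k | k | k | k
    · rw [c0 t u k] at ea
      rcases k' with k' | k' | k' | k'
      · rw [c0 t u' k'] at ea; exact hne ea
      · rw [c1 t u' k'.1 k'.2] at ea; linarith
      · rw [c2 t u' k'.1 k'.2] at ea; linarith [hu.1]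
      · rw [c3 t u' k'] at ea; linarith
    · rw [c1 t u k.1 k.2] at ea
      rcases k' with k' | k' | k' | k'
      · rw [c0 t u' k'] at ea; linarith
      · rw [s1 t u k.1 k.2, s1 t u' k'.1 k'.2] at es
        have e5 : d * (u - 2 / 5) = d * (u' - 2 / 5) := by linarith
        have e6 := mul_left_cancel₀ hd0 e5
        exact hne (by linarith)
      · rw [c2 t u' k'.1 k'.2] at ea; linarith
      · rw [c3 t u' k'] at ea; linarith [hu'.2]
    · rw [c2 t u k.1 k.2] at ea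
      rcases k' with k' | k' | k' | k'
      · rw [c0 t u' k'] at ea; linarith [hu'.1]
      · rw [c1 t u' k'.1 k'.2] at ea; linarith
      · rw [w2 t u k.1 k.2, w2 t u' k'.1 k'.2] at ew
        exact hne (by linarith)
      · rw [c3 t u' k'] at ea; linarith
    · rw [c3 t u k] at ea
      rcases k' with k' | k' | k' | k'
      · rw [c0 t u' k'] at ea; linarith
      · rw [c1 t u' k'.1 k'.2] at ea; linarith [hu.2]
      · rw [c2 t u' k'.1 k'.2] at ea; linarith
      · rw [c3 t u' k'] at ea; exact hne ea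
  · intro t u hu
    rcases pieces u with k | k | k | k | k
    · exact hgp.imm t u (rho t) k
    · refine imm_aff hH t u ((ContinuousLinearMap.fst ℝ ℝ ℂ).comp
        (ContinuousLinearMap.snd ℝ ℝ (ℝ × ℂ))) (x := 1 / 5) (y := 1 / 4) (c0 := 0) (c1 := 1)
        (by norm_num) ⟨hu.1, k⟩ (fun r hr => ?_) one_ne_zero
      change (H (t, r)).2.1 = _
      rw [c0 t r hr.2]
      ring
    · refine imm_aff hH t u (ContinuousLinearMap.fst ℝ ℝ (ℝ × ℂ)) (x := 39 / 100)
        (y := 41 / 100) (c0 := 1 / 2 - d * (2 / 5)) (c1 := d)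
        (by norm_num) k (fun r hr => ?_) hd0
      change (H (t, r)).1 = _
      rw [s1 t r hr.1 hr.2]
      ring
    · refine imm_aff hH t u (Complex.reCLM.comp ((ContinuousLinearMap.snd ℝ ℝ ℂ).comp
        (ContinuousLinearMap.snd ℝ ℝ (ℝ × ℂ)))) (x := 58 / 100)
        (y := 62 / 100) (c0 := -59 / 20) (c1 := 5)
        (by norm_num) k (fun r hr => ?_) (by norm_num)
      change (H (t, r)).2.2.re = _
      rw [w2 t r hr.1 hr.2]
      ring
    · refine imm_aff hH t u ((ContinuousLinearMap.fst ℝ ℝ ℂ).comp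
        (ContinuousLinearMap.snd ℝ ℝ (ℝ × ℂ))) (x := 3 / 4) (y := 4 / 5) (c0 := 0) (c1 := 1)
        (by norm_num) ⟨k, hu.2⟩ (fun r hr => ?_) one_ne_zero
      change (H (t, r)).2.1 = _
      rw [c3 t r hr.1]
      ring

end ARC3

open ARC3 in
theorem m_ARC3 (hPATH : StPATH) : StARC3 := by
  intro d hd
  have hd0 : d ≠ 0 := by
    rcases hd with h | h
    · rw [h]; norm_num
    · rw [h]; norm_num
  have uax : ∀ a : ℝ, 1 / 5 < a → a < 4 / 5 → ax a ∈ U3 := fun a h1 h2 => Or.inr ⟨h1, h2⟩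
  have ustr : ∀ a : ℝ, a ≠ 2 / 5 → strd d a ∈ U3 := by
    intro a ha
    refine Or.inl ?_
    change 1 / 2 + d * (a - 2 / 5) ≠ 1 / 2
    intro h
    have h1 : d * (a - 2 / 5) = 0 := by linarith
    rcases mul_eq_zero.1 h1 with h2 | h2
    · exact hd0 h2
    · exact ha (by linarith)
  have upar : ∀ a : ℝ, a ≠ 3 / 5 → para a ∈ U3 := by
    intro a ha
    refine Or.inl ?_
    change 1 / 2 - (100 * (a - 3 / 5)) ^ 2 / 10 ≠ 1 / 2
    intro h
    have h1 : (a - 3 / 5) ^ 2 = 0 := by nlinarith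
    have h2 : a - 3 / 5 = 0 := by
      exact pow_eq_zero_iff (two_ne_zero) |>.1 h1
    exact ha (by linarith)
  obtain ⟨k1, s1, l1, r1, m1⟩ := hPATH U3 (1 / 4) (39 / 100) (1 / 1000) (fun a => ax a) (strd d)
    isOpen_U3 isPreconnected_U3 (by norm_num) (by norm_num) contDiff_ax (contDiff_strd d)
    (fun a ha => uax a (by linarith [ha.1]) (by linarith [ha.2]))
    (fun a ha => ustr a (by intro h; rw [h] at ha; linarith [ha.2]))
  obtain ⟨k2, s2, l2, r2, m2⟩ := hPATH U3 (41 / 100) (58 / 100) (1 / 1000) (strd d) para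
    isOpen_U3 isPreconnected_U3 (by norm_num) (by norm_num) (contDiff_strd d) contDiff_para
    (fun a ha => ustr a (by intro h; rw [h] at ha; linarith [ha.1]))
    (fun a ha => upar a (by intro h; rw [h] at ha; linarith [ha.2]))
  obtain ⟨k3, s3, l3, r3, m3⟩ := hPATH U3 (62 / 100) (3 / 4) (1 / 1000) para (fun a => ax a)
    isOpen_U3 isPreconnected_U3 (by norm_num) (by norm_num) contDiff_para contDiff_ax
    (fun a ha => upar a (by intro h; rw [h] at ha; linarith [ha.1]))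
    (fun a ha => uax a (by linarith [ha.1]) (by linarith [ha.2]))
  let q : ℝ → R4 := fun a => k1 a + k2 a + k3 a - strd d a - para a
  have hq' : ∀ a, q a = k1 a + k2 a + k3 a - strd d a - para a := fun a => rfl
  have e1 : ∀ a, a ≤ 39 / 100 → q a = k1 a := fun a ha => by
    rw [hq', l2 a (by linarith), l3 a (by linarith)]
    abel
  have e2 : ∀ a, 39 / 100 ≤ a → a ≤ 58 / 100 → q a = k2 a := fun a h1 h2 => by
    rw [hq', r1 a (by linarith), l3 a (by linarith)]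
    abel
  have e3 : ∀ a, 58 / 100 ≤ a → q a = k3 a := fun a ha => by
    rw [hq', r1 a (by linarith), r2 a (by linarith)]
    abel
  refine main d hd q ((((s1.add s2).add s3).sub (contDiff_strd d)).sub contDiff_para)
    ?_ ?_ ?_ ?_ ?_ ?_ ?_
  · intro a ha
    rw [e1 a (by linarith), l1 a (by linarith)]
  · intro a h1 h2
    rw [e2 a h1 (by linarith), l2 a (by linarith)]
  · intro a h1 h2
    rw [e3 a h1, l3 a (by linarith)]
  · intro a ha
    rw [e3 a (by linarith), r3 a (by linarith)]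
  · intro a ha
    rw [e1 a ha.2]
    exact m1 a ha
  · intro a ha
    rw [e2 a (by linarith [ha.1]) ha.2]
    exact m2 a ha
  · intro a ha
    rw [e3 a (by linarith [ha.1])]
    exact m3 a ha

end Pool.Agent.Helper70.BI
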