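import Pool.Agent.Helper70.BI.StL

/-!
# Project BI, module XC: extended cores
-/

set_option autoImplicit false

open scoped Manifold ContDiff Topology ComplexConjugate
open Set Filter Pool.Agent.Helper65.Barb Pool.Agent.Helper18.BI

namespace Pool.Agent.Helper70.BI

namespace XC

theorem ax_contDiff : ContDiff ℝ ∞ ax :=
  contDiff_const.prodMk (contDiff_id.prodMk contDiff_const)

theorem ax_hasDerivAt (u : ℝ) : HasDerivAt ax ((0, (1, 0)) : R4) u := by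
  have h1 : HasDerivAt (fun _ : ℝ => (1 / 2 : ℝ)) 0 u := hasDerivAt_const u _
  have h2 : HasDerivAt (fun x : ℝ => x) 1 u := hasDerivAt_id u
  have h3 : HasDerivAt (fun _ : ℝ => (0 : ℂ)) 0 u := hasDerivAt_const u _
  exact h1.prodMk (h2.prodMk h3)

theorem v_ne : ((0, (1, 0)) : R4) ≠ 0 := by
  intro h
  have h8 := congrArg (fun p : R4 => p.2.1) h
  simp at h8

theorem ax_inj {a b : ℝ} (h : ax a = ax b) : a = b := congrArg (fun p : R4 => p.2.1) h

theorem norm_strand (d a : ℝ) (hd : d = 1 ∨ d = -1) :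
    ‖((1 / 2 + d * (a - 2 / 5), pc 1) : R4) - ax 1‖ = |a - 2 / 5| := by
  have h1 : ((1 / 2 + d * (a - 2 / 5), pc 1) : R4) - ax 1 = (d * (a - 2 / 5), 0) := by
    simp only [ax, pc, Prod.mk_sub_mk, sub_self]
    ring_nf
  have hd1 : |d| = 1 := by rcases hd with h | h <;> rw [h] <;> norm_num
  rw [h1, Prod.norm_mk, norm_zero, Real.norm_eq_abs, abs_mul, hd1, one_mul,
    max_eq_left (abs_nonneg _)]

theorem norm_ax (a : ℝ) : ‖ax a - ax 1‖ = |a - 1| := by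
  have h1 : ax a - ax 1 = ((0, (a - 1, 0)) : R4) := by
    simp only [ax, Prod.mk_sub_mk, sub_self]
  rw [h1, Prod.norm_mk, Prod.norm_mk, norm_zero, norm_zero, Real.norm_eq_abs,
    max_eq_left (abs_nonneg (a - 1)), max_eq_right (abs_nonneg (a - 1))]

theorem ax_SP {a : ℝ} (h0 : 1 / 5 ≤ a) (h1 : a ≤ 4 / 5) : ax a ∈ SP := Or.inr ⟨rfl, h0, h1, rfl⟩

theorem rsq_ax (c a : ℝ) : rsq c (ax a) = (a - c) ^ 2 := by
  simp [rsq, nsq, ax]

theorem ax_flat {a : ℝ} (h0 : 4 / 5 ≤ a) (h1 : a ≤ 1) : ax a ∈ flat 1 := by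
  refine ⟨rfl, ?_⟩
  rw [rsq_ax]
  nlinarith

theorem ax_sph {a : ℝ} (h : ax a ∈ sph 0) (h0 : 0 ≤ a) : a = 1 / 5 := by
  have h1 := h.2
  rw [rsq_ax] at h1
  nlinarith

theorem ax_mem_sph : ax (1 / 5) ∈ sph 0 := ⟨rfl, by rw [rsq_ax]; norm_num⟩

/-- the cut off core -/
noncomputable def ecut (F : R4 → R4) (ν μ a : ℝ) : R4 :=
  if a < 1 - μ / 2 then Real.smoothTransition ((a - (1 / 5 - 2 * ν / 3)) / (ν / 3)) • F (ax a)
  else ax a

theorem psi_one {ν a : ℝ} (hν : 0 < ν) (h : 1 / 5 - ν / 3 ≤ a) :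
    Real.smoothTransition ((a - (1 / 5 - 2 * ν / 3)) / (ν / 3)) = 1 := by
  apply Real.smoothTransition.one_of_one_le
  rw [le_div_iff₀ (by positivity)]
  linarith

theorem psi_zero {ν a : ℝ} (hν : 0 < ν) (h : a ≤ 1 / 5 - 2 * ν / 3) :
    Real.smoothTransition ((a - (1 / 5 - 2 * ν / 3)) / (ν / 3)) = 0 := by
  apply Real.smoothTransition.zero_of_nonpos
  apply div_nonpos_of_nonpos_of_nonneg <;> linarith

theorem cut_high {F : R4 → R4} {ν μ δ : ℝ} (hν : 0 < ν) (hμ : 0 < μ) (hμδ : μ ≤ δ)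
    (hδ : δ ≤ 1 / 100) (hnear : ∀ p, ‖p - ax 1‖ < δ → F p = p) {a : ℝ} (ha : 1 - μ < a) :
    ecut F ν μ a = ax a := by
  unfold ecut
  split_ifs with h
  · rw [psi_one hν (by linarith), one_smul]
    apply hnear
    rw [norm_ax, abs_lt]
    constructor <;> linarith
  · rfl

theorem cut_core {F : R4 → R4} {ν μ δ : ℝ} (hν : 0 < ν) (hμ : 0 < μ) (hμδ : μ ≤ δ)
    (hnear : ∀ p, ‖p - ax 1‖ < δ → F p = p) {a : ℝ} (ha : 1 / 5 - ν / 3 ≤ a) (ha1 : a ≤ 1) :
    ecut F ν μ a = F (ax a) := by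
  unfold ecut
  split_ifs with h
  · rw [psi_one hν (by linarith), one_smul]
  · push Not at h
    symm
    apply hnear
    rw [norm_ax, abs_lt]
    constructor <;> linarith

theorem cut_smooth {F : R4 → R4} {ν μ δ : ℝ} (hν : 0 < ν) (hμ : 0 < μ) (hμδ : μ ≤ δ)
    (hδ : δ ≤ 1 / 100) (hnear : ∀ p, ‖p - ax 1‖ < δ → F p = p)
    (hsm : ∀ a, 1 / 5 - ν < a → a ≤ 1 → ContDiffAt ℝ ∞ F (ax a)) :
    ContDiff ℝ ∞ (ecut F ν μ) := by
  rw [contDiff_iff_contDiffAt]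
  intro a
  rcases lt_or_ge (1 - μ) a with h1 | h1
  · have h2 : ecut F ν μ =ᶠ[𝓝 a] ax := by
      filter_upwards [lt_mem_nhds h1] with b hb
      exact cut_high hν hμ hμδ hδ hnear hb
    exact ax_contDiff.contDiffAt.congr_of_eventuallyEq h2
  · have h2 : ecut F ν μ =ᶠ[𝓝 a]
        fun a => Real.smoothTransition ((a - (1 / 5 - 2 * ν / 3)) / (ν / 3)) • F (ax a) := by
      filter_upwards [gt_mem_nhds (show a < 1 - μ / 2 by linarith)] with b hb
      unfold ecut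
      rw [if_pos hb]
    refine ContDiffAt.congr_of_eventuallyEq ?_ h2
    rcases lt_or_ge (1 / 5 - ν) a with h3 | h3
    · have h5 : ContDiff ℝ ∞ (fun a : ℝ =>
          Real.smoothTransition ((a - (1 / 5 - 2 * ν / 3)) / (ν / 3))) :=
        Real.smoothTransition.contDiff.comp ((contDiff_id.sub contDiff_const).div_const _)
      exact h5.contDiffAt.smul ((hsm a h3 (by linarith)).comp a ax_contDiff.contDiffAt)
    · have h4 : (fun a => Real.smoothTransition ((a - (1 / 5 - 2 * ν / 3)) / (ν / 3)) • F (ax a))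
          =ᶠ[𝓝 a] fun _ => (0 : R4) := by
        filter_upwards [gt_mem_nhds (show a < 1 / 5 - 2 * ν / 3 by linarith)] with b hb
        rw [psi_zero hν hb.le, zero_smul]
      exact contDiffAt_const.congr_of_eventuallyEq h4

theorem cut_imm {F : R4 → R4} {ν μ δ : ℝ} (hν : 0 < ν) (hμ : 0 < μ) (hμδ : μ ≤ δ)
    (hδ : δ ≤ 1 / 100) (hnear : ∀ p, ‖p - ax 1‖ < δ → F p = p)
    (hld : ∀ a, 1 / 5 ≤ a → a ≤ 1 → LD F (ax a)) {a : ℝ} (h0 : 1 / 5 ≤ a) (h1 : a ≤ 1) :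
    deriv (ecut F ν μ) a ≠ 0 := by
  rcases lt_or_ge (1 - μ) a with h2 | h2
  · have h3 : ecut F ν μ =ᶠ[𝓝 a] ax := by
      filter_upwards [lt_mem_nhds h2] with b hb
      exact cut_high hν hμ hμδ hδ hnear hb
    rw [h3.deriv_eq, (ax_hasDerivAt a).deriv]
    exact v_ne
  · have h3 : ecut F ν μ =ᶠ[𝓝 a] fun a => F (ax a) := by
      filter_upwards [lt_mem_nhds (show 1 / 5 - ν / 3 < a by linarith),
        gt_mem_nhds (show a < 1 by linarith)] with b hb hb'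
      exact cut_core hν hμ hμδ hnear hb.le hb'.le
    have h4 := ld_iff.1 (hld a h0 h1)
    have h5 : HasDerivAt (fun a => F (ax a)) (fderiv ℝ F (ax a) ((0, (1, 0)) : R4)) a :=
      (((h4.1.self_of_nhds).differentiableAt (by simp)).hasFDerivAt).comp_hasDerivAt a
        (ax_hasDerivAt a)
    rw [h3.deriv_eq, h5.deriv]
    intro h6
    exact v_ne (h4.2 (by rw [h6, map_zero]))

/-- everything except the last field -/
theorem xcore {F : R4 → R4} {d δ r ν μ : ℝ} {S : Set R4} (hν : 0 < ν)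
    (hμ : 0 < μ) (hμδ : μ ≤ δ) (nb : NB 1 F (2 / 5) d δ) (hS : S = F '' sph 0)
    (hsm : ∀ a, 1 / 5 - ν < a → a ≤ 1 → ContDiffAt ℝ ∞ F (ax a))
    (hball : ∀ a ∈ Icc (2 / 5 - 3 / 4 * r) (2 / 5 : ℝ), ‖ecut F ν μ a - ax 1‖ < r) :
    XCore F S d μ r (ecut F ν μ) := by
  have br := nb.br
  have hδ := nb.small
  have hnear := nb.near
  have hinjF : InjOn F (flat 1 ∪ sph 0) := by
    have := br.injF
    rwa [sub_self] at this
  have hcore : ∀ a, 1 / 5 ≤ a → a ≤ 1 → ecut F ν μ a = F (ax a) := fun a h0 h1 =>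
    cut_core hν hμ hμδ hnear (by linarith) h1
  have hF1 : F (ax 1) = ax 1 := hnear _ (by rw [sub_self, norm_zero]; exact nb.pos)
  have hF2 : F (ax (2 / 5)) = ax 1 := by
    have := nb.str (2 / 5) (by rw [sub_self, abs_zero]; exact nb.pos)
    rw [sub_self, mul_zero, add_zero] at this
    exact this
  have honly : ∀ a, 1 / 5 ≤ a → a ≤ 4 / 5 → ∀ p ∈ flat 1, F (ax a) = F p →
      a = 4 / 5 ∨ a = 2 / 5 := by
    intro a h0 h1 p hp h
    rcases br.only a ⟨h0, h1⟩ ⟨p, hp, h.symm⟩ with h2 | h2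
    · left
      rw [h2]
      norm_num
    · exact Or.inr h2
  have hmix : ∀ a b, 1 / 5 ≤ a → a < 4 / 5 → 4 / 5 ≤ b → b < 1 → F (ax a) ≠ F (ax b) := by
    intro a b h0 h1 h2 h3 h
    rcases honly a h0 h1.le _ (ax_flat h2 h3.le) h with h4 | h4
    · linarith
    · rw [h4, hF2, ← hF1] at h
      have := ax_inj (hinjF (Or.inl (ax_flat (by norm_num) le_rfl)) (Or.inl (ax_flat h2 h3.le)) h)
      linarith
  refine ⟨cut_smooth hν hμ hμδ hδ hnear hsm, fun a ha => hcore a ha.1 ha.2,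
    fun a ha => cut_high hν hμ hμδ hδ hnear ha, ?_, ?_, ?_, ?_, ?_, hball⟩
  · intro a ha
    rw [abs_lt] at ha
    rw [hcore a (by linarith [ha.1]) (by linarith [ha.2])]
    exact nb.str a (by rw [abs_lt]; constructor <;> linarith [ha.1, ha.2])
  · intro a ha b hb h
    rw [hcore a ha.1 ha.2.le, hcore b hb.1 hb.2.le] at h
    rcases lt_or_ge a (4 / 5) with h1 | h1
    · rcases lt_or_ge b (4 / 5) with h2 | h2
      · exact ax_inj (br.inj (ax_SP ha.1 h1.le) (ax_SP hb.1 h2.le) h)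
      · exact absurd h (hmix a b ha.1 h1 h2 hb.2)
    · rcases lt_or_ge b (4 / 5) with h2 | h2
      · exact absurd h.symm (hmix b a hb.1 h2 h1 ha.2)
      · exact ax_inj (hinjF (Or.inl (ax_flat h1 ha.2.le)) (Or.inl (ax_flat h2 hb.2.le)) h)
  · intro a ha h
    rw [hcore a ha.1 ha.2.le, ← hF1] at h
    have h1f : ax 1 ∈ flat 1 := ax_flat (by norm_num) le_rfl
    rcases lt_or_ge a (4 / 5) with h1 | h1
    · rcases honly a ha.1 h1.le _ h1f h with h2 | h2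
      · linarith
      · exact h2
    · have := ax_inj (hinjF (Or.inl (ax_flat h1 ha.2.le)) (Or.inl h1f) h)
      linarith [ha.2]
  · intro a ha
    refine cut_imm hν hμ hμδ hδ hnear ?_ ha.1 ha.2
    intro b h0 h1
    rcases le_or_gt b (4 / 5) with h2 | h2
    · exact br.loc _ (Or.inl (ax_SP h0 h2))
    · exact br.loc _ (Or.inr (ax_flat h2.le h1))
  · intro a ha h
    rw [hS, hcore a ha.1.le ha.2.le] at h
    obtain ⟨p, hp, hpa⟩ := h
    rcases lt_or_ge a (4 / 5) with h1 | h1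
    · have h2 := br.inj (Or.inl (Or.inl hp)) (ax_SP ha.1.le h1.le) hpa
      rw [h2] at hp
      have := ax_sph hp (by linarith [ha.1])
      linarith [ha.1]
    · have h2 := hinjF (Or.inr hp) (Or.inl (ax_flat h1 ha.2.le)) hpa
      rw [h2] at hp
      have := ax_sph hp (by linarith [ha.1])
      linarith [ha.1]

/-- smoothness to the left of the foot -/
theorem left_smooth {F : R4 → R4} {d γ : ℝ} (br : Br 1 F γ d) :
    ∃ ν > 0, ∀ ν' ≤ ν, ∀ a, 1 / 5 - ν' < a → a ≤ 1 → ContDiffAt ℝ ∞ F (ax a) := by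
  have h1 := (ld_iff.1 (br.loc _ (Or.inl (ax_SP (a := 1 / 5) le_rfl (by norm_num))))).1
  have h2 := ax_contDiff.continuous.continuousAt.eventually h1
  obtain ⟨ν, hν, h3⟩ := Metric.eventually_nhds_iff.1 h2
  refine ⟨ν, hν, fun ν' hν' a h4 h5 => ?_⟩
  rcases lt_or_ge a (1 / 5) with h6 | h6
  · apply h3
    rw [Real.dist_eq, abs_lt]
    constructor <;> linarith
  · rcases le_or_gt a (4 / 5) with h7 | h7
    · exact (ld_iff.1 (br.loc _ (Or.inl (ax_SP h6 h7)))).1.self_of_nhds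
    · exact (ld_iff.1 (br.loc _ (Or.inr (ax_flat h7.le h5)))).1.self_of_nhds

end XC

open XC in
/-- **XC.** -/
theorem m_XC : StXC := by
  intro F F' d δ δ' r hd hL
  obtain ⟨U, hU, hsU, hFU⟩ := hL.near
  obtain ⟨ν₁, hν₁, hs₁⟩ := left_smooth hL.nb.br
  obtain ⟨ν₂, hν₂, hs₂⟩ := left_smooth hL.nb'.br
  have h1 : ∀ᶠ a in 𝓝 (1 / 5 : ℝ), ax a ∈ U :=
    ax_contDiff.continuous.continuousAt.eventually_mem (hU.mem_nhds (hsU ax_mem_sph))
  obtain ⟨ν₃, hν₃, h2⟩ := Metric.eventually_nhds_iff.1 h1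
  obtain ⟨ν, hν, hνa, hνb, hνc⟩ : ∃ ν : ℝ, 0 < ν ∧ ν ≤ ν₁ ∧ ν ≤ ν₂ ∧ ν ≤ ν₃ :=
    ⟨min ν₁ (min ν₂ ν₃), lt_min hν₁ (lt_min hν₂ hν₃), min_le_left _ _,
      (min_le_right _ _).trans (min_le_left _ _), (min_le_right _ _).trans (min_le_right _ _)⟩
  have hr := hL.pos
  have hrδ := hL.lt
  have hδ := hL.nb.small
  have hμ : 0 < min δ δ' := lt_min hL.nb.pos hL.nb'.pos
  have hμ1 : min δ δ' ≤ δ := min_le_left _ _
  have hμ2 : min δ δ' ≤ δ' := min_le_right _ _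
  have hSS : F '' sph 0 = F' '' sph 0 := (hFU.mono hsU).image_eq
  have hb : ∀ a ∈ Icc (2 / 5 - 3 / 4 * r) (2 / 5 : ℝ), ‖core F a - ax 1‖ < r := by
    intro a ha
    have h3 : |a - 2 / 5| ≤ 3 / 4 * r := by
      rw [abs_le]
      constructor <;> linarith [ha.1, ha.2]
    rw [hL.nb.str a (by linarith), norm_strand d a hd]
    linarith
  refine ⟨ecut F ν (min δ δ'), ecut F' ν (min δ δ'), min δ δ', hμ, hμ1, hμ2,
    xcore hν hμ hμ1 hL.nb rfl (hs₁ ν hνa) ?_, xcore hν hμ hμ2 hL.nb' hSS (hs₂ ν hνb) ?_, ?_⟩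
  · intro a ha
    rw [cut_core hν hμ hμ1 hL.nb.near (by linarith [ha.1]) (by linarith [ha.2])]
    exact hb a ha
  · intro a ha
    rw [cut_core hν hμ hμ2 hL.nb'.near (by linarith [ha.1]) (by linarith [ha.2])]
    rcases le_or_gt a (2 / 5 - r / 2) with h3 | h3
    · have h4 := hL.low a ⟨by linarith [ha.1], h3⟩
      have h5 : F' (ax a) = core F a := h4
      rw [h5]
      exact hb a ha
    · exact hL.high a ⟨h3.le, by linarith [ha.2]⟩
  · intro a ha
    have h3 : a < 1 - min δ δ' / 2 := by linarith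
    unfold ecut
    rw [if_pos h3, if_pos h3]
    rcases le_or_gt a (1 / 5 - 2 * ν / 3) with h4 | h4
    · rw [psi_zero hν h4, zero_smul, zero_smul]
    · rcases lt_or_ge a (1 / 5) with h5 | h5
      · have h6 : ax a ∈ U := h2 (by
          rw [Real.dist_eq, abs_lt]
          constructor <;> linarith)
        rw [hFU h6]
      · have h6 : F' (ax a) = F (ax a) := hL.low a ⟨h5, ha⟩
        rw [h6]

end Pool.Agent.Helper70.BI
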