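import Pool.Agent.Helper70.BI.StL
import Pool.Agent.Helper70.BI.M_XC
import Pool.Agent.Helper34.BI.M_CH

/-!
# Project BI, module ARL: the family of arcs joining the core of a lasso to the core of the germ
-/

set_option autoImplicit false

open scoped Manifold ContDiff Topology ComplexConjugate
open Set Filter Pool.Agent.Helper65.Barb Pool.Agent.Helper18.BI

namespace Pool.Agent.Helper70.BI

namespace ARL

open Pool.Agent.Helper34.BI (hat hat_nonneg hat_le_one contDiff_hat hat_ne_zero hat_eq_zero fam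
  GenPos exists_genPos isolated cst crv StCH)

/-- the cutoff: zero near the strand through `ax 1` and near the ends -/
noncomputable def cutf (r δ₂ a : ℝ) : ℝ :=
  hat (2 / 5 - 3 / 4 * r) (2 / 5 - δ₂) a + hat (2 / 5 + δ₂) (1 - δ₂) a

/-- the linear family -/
noncomputable def lin (c c' : ℝ → R4) (x : ℝ × ℝ) : R4 :=
  (1 - Real.smoothTransition x.1) • c' x.2 + Real.smoothTransition x.1 • c x.2

theorem cutf_nonneg (r δ₂ a : ℝ) : 0 ≤ cutf r δ₂ a := add_nonneg (hat_nonneg _ _ _) (hat_nonneg _ _ _)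

theorem contDiff_cutf (r δ₂ : ℝ) : ContDiff ℝ ∞ (cutf r δ₂) :=
  (contDiff_hat _ _).add (contDiff_hat _ _)

theorem cutf_le_one {r δ₂ a : ℝ} (hδ : 0 < δ₂) (ha : a ≤ 2 / 5) : cutf r δ₂ a ≤ 1 := by
  unfold cutf
  rw [hat_eq_zero (a := 2 / 5 + δ₂) (Or.inl (by linarith)), add_zero]
  exact hat_le_one _ _ _

theorem cutf_zero_iff {r δ₂ a : ℝ} : cutf r δ₂ a = 0 ↔
    hat (2 / 5 - 3 / 4 * r) (2 / 5 - δ₂) a = 0 ∧ hat (2 / 5 + δ₂) (1 - δ₂) a = 0 := by
  unfold cutf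
  constructor
  · intro h
    have h1 := hat_nonneg (2 / 5 - 3 / 4 * r) (2 / 5 - δ₂) a
    have h2 := hat_nonneg (2 / 5 + δ₂) (1 - δ₂) a
    constructor <;> linarith
  · rintro ⟨h1, h2⟩
    rw [h1, h2, add_zero]

/-- where the cutoff vanishes -/
theorem cutf_zero {r δ₂ a : ℝ} (h : cutf r δ₂ a = 0) :
    a ≤ 2 / 5 - 3 / 4 * r ∨ |a - 2 / 5| ≤ δ₂ ∨ 1 - δ₂ ≤ a := by
  obtain ⟨h1, h2⟩ := cutf_zero_iff.1 h
  by_contra hcon
  rw [not_or, not_or, not_le, not_le, not_le] at hcon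
  obtain ⟨c1, c2, c3⟩ := hcon
  rcases lt_abs.1 c2 with h3 | h3
  · exact hat_ne_zero.2 ⟨by linarith, c3⟩ h2
  · exact hat_ne_zero.2 ⟨c1, by linarith⟩ h1

theorem cutf_of_low {r δ₂ a : ℝ} (hr : 0 < r) (hδ : 0 < δ₂) (h : a ≤ 2 / 5 - 3 / 4 * r) :
    cutf r δ₂ a = 0 :=
  cutf_zero_iff.2 ⟨hat_eq_zero (Or.inl h), hat_eq_zero (Or.inl (by linarith))⟩

theorem cutf_of_mid {r δ₂ a : ℝ} (h : |a - 2 / 5| ≤ δ₂) : cutf r δ₂ a = 0 := by
  rw [abs_le] at h
  exact cutf_zero_iff.2 ⟨hat_eq_zero (Or.inr (by linarith [h.1])),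
    hat_eq_zero (Or.inl (by linarith [h.2]))⟩

theorem cutf_of_high {r δ₂ a : ℝ} (hδ : δ₂ < 1 / 4) (h : 1 - δ₂ ≤ a) :
    cutf r δ₂ a = 0 :=
  cutf_zero_iff.2 ⟨hat_eq_zero (Or.inr (by linarith)), hat_eq_zero (Or.inr h)⟩

theorem contDiff_lin {c c' : ℝ → R4} (hc : ContDiff ℝ ∞ c) (hc' : ContDiff ℝ ∞ c') :
    ContDiff ℝ ∞ (lin c c') := by
  have e1 : ContDiff ℝ ∞ (fun x : ℝ × ℝ => Real.smoothTransition x.1) :=
    Real.smoothTransition.contDiff.comp contDiff_fst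
  have e2 : ContDiff ℝ ∞ (fun x : ℝ × ℝ => c' x.2) := hc'.comp contDiff_snd
  have e3 : ContDiff ℝ ∞ (fun x : ℝ × ℝ => c x.2) := hc.comp contDiff_snd
  exact ((contDiff_const.sub e1).smul e2).add (e1.smul e3)

/-- the perturbed family -/
noncomputable def HH (c c' : ℝ → R4) (r δ₂ : ℝ) (v w : R4) : ℝ × ℝ → R4 :=
  fam (lin c c') (hat 0 1) (cutf r δ₂) v w

theorem contDiff_HH {c c' : ℝ → R4} (hc : ContDiff ℝ ∞ c) (hc' : ContDiff ℝ ∞ c') (r δ₂ : ℝ)
    (v w : R4) : ContDiff ℝ ∞ (HH c c' r δ₂ v w) := by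
  have e1 : ContDiff ℝ ∞ (fun x : ℝ × ℝ => hat 0 1 x.1) := (contDiff_hat _ _).comp contDiff_fst
  have e2 : ContDiff ℝ ∞ (fun x : ℝ × ℝ => cutf r δ₂ x.2) := (contDiff_cutf _ _).comp contDiff_snd
  exact (contDiff_lin hc hc').add
    ((e1.mul e2).smul (contDiff_const.add (contDiff_snd.smul contDiff_const)))

theorem HH_left (c c' : ℝ → R4) (r δ₂ : ℝ) (v w : R4) (t a : ℝ) (ht : t ≤ 0) :
    HH c c' r δ₂ v w (t, a) = c' a := by
  have e1 : hat 0 1 t = 0 := hat_eq_zero (Or.inl ht)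
  have e2 : Real.smoothTransition t = 0 := Real.smoothTransition.zero_of_nonpos ht
  simp [HH, fam, lin, e1, e2]

theorem HH_right (c c' : ℝ → R4) (r δ₂ : ℝ) (v w : R4) (t a : ℝ) (ht : 1 ≤ t) :
    HH c c' r δ₂ v w (t, a) = c a := by
  have e1 : hat 0 1 t = 0 := hat_eq_zero (Or.inr ht)
  have e2 : Real.smoothTransition t = 1 := Real.smoothTransition.one_of_one_le ht
  simp [HH, fam, lin, e1, e2]

theorem HH_frozen {c c' : ℝ → R4} {r δ₂ : ℝ} (v w : R4) (t : ℝ) {a : ℝ} (h : cutf r δ₂ a = 0)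
    (he : c a = c' a) : HH c c' r δ₂ v w (t, a) = c' a := by
  simp only [HH, fam, lin, h, he]
  module

/-- derivative along the arcs -/
theorem HH_der {c c' : ℝ → R4} (hc : ContDiff ℝ ∞ c) (hc' : ContDiff ℝ ∞ c') (r δ₂ : ℝ)
    (v w : R4) (t u : ℝ) : HasDerivAt (fun a => HH c c' r δ₂ v w (t, a))
      (fderiv ℝ (HH c c' r δ₂ v w) (t, u) (0, 1)) u := by
  have l : HasDerivAt (fun r : ℝ => ((t, r) : ℝ × ℝ)) (0, 1) u :=
    (hasDerivAt_const u t).prodMk (hasDerivAt_id u)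
  exact HasFDerivAt.comp_hasDerivAt_of_eq u
    (((contDiff_HH hc hc' r δ₂ v w).differentiable (by simp) (t, u)).hasFDerivAt) l rfl

/-- the derivative where the cutoff vanishes -/
theorem HH_der_frozen {c c' : ℝ → R4} (hc : ContDiff ℝ ∞ c) (hc' : ContDiff ℝ ∞ c') {r δ₂ : ℝ}
    (v w : R4) (t : ℝ) {u : ℝ} (h2 : cutf r δ₂ u = 0) (he : c =ᶠ[𝓝 u] c') :
    fderiv ℝ (HH c c' r δ₂ v w) (t, u) (0, 1) = deriv c' u := by
  have hd0 : HasDerivAt c' (deriv c' u) u := (hc'.differentiable (by simp) u).hasDerivAt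
  have hmin : deriv (cutf r δ₂) u = 0 := by
    have : IsLocalMin (cutf r δ₂) u := Eventually.of_forall fun r' => by
      show cutf r δ₂ u ≤ cutf r δ₂ r'
      rw [h2]; exact cutf_nonneg _ _ _
    exact this.deriv_eq_zero
  have d2 : HasDerivAt (cutf r δ₂) 0 u := by
    rw [← hmin]
    exact ((contDiff_cutf r δ₂).differentiable (by simp) u).hasDerivAt
  have d3 : HasDerivAt (fun a : ℝ => (hat 0 1 t * cutf r δ₂ a) • (v + a • w)) 0 u := by
    have a1 : HasDerivAt (fun a : ℝ => hat 0 1 t * cutf r δ₂ a) (hat 0 1 t * 0) u := d2.const_mul _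
    have a2 : HasDerivAt (fun a : ℝ => v + a • w) w u := by
      simpa using ((hasDerivAt_id u).smul_const w).const_add v
    have a3 := a1.smul a2
    refine a3.congr_deriv ?_
    simp [h2]
  have d4 : HasDerivAt (fun a => HH c c' r δ₂ v w (t, a)) (deriv c' u) u := by
    have d5 := hd0.add d3
    rw [add_zero] at d5
    refine d5.congr_of_eventuallyEq ?_
    filter_upwards [he] with a ha
    simp only [HH, fam, lin, ha, Pi.add_apply]
    module
  exact (HH_der hc hc' r δ₂ v w t u).unique d4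

/-- `χ = 0` implies that the two arcs agree nearby -/
theorem agree {F F' : R4 → R4} {S : Set R4} {d μ r δ₂ : ℝ} {c c' : ℝ → R4} (hr : 0 < r)
    (hδ : δ₂ < μ) (hc : XCore F S d μ r c) (hc' : XCore F' S d μ r c')
    (heq : ∀ a, a ≤ 2 / 5 - r / 2 → c a = c' a) {u : ℝ} (h : cutf r δ₂ u = 0) :
    c =ᶠ[𝓝 u] c' := by
  rcases cutf_zero h with h1 | h1 | h1
  · filter_upwards [gt_mem_nhds (show u < 2 / 5 - r / 2 by linarith)] with a ha
    exact heq a ha.le
  · have h2 : |u - 2 / 5| < μ := by linarith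
    have h3 : ∀ᶠ a in 𝓝 u, |a - 2 / 5| < μ :=
      (by fun_prop : Continuous fun a : ℝ => |a - 2 / 5|).continuousAt.eventually_lt
        continuousAt_const h2
    filter_upwards [h3] with a ha
    rw [hc.mid a ha, hc'.mid a ha]
  · filter_upwards [lt_mem_nhds (show 1 - μ < u by linarith)] with a ha
    rw [hc.high a ha, hc'.high a ha]

/-- a uniform bound for the low parts of the two arcs -/
theorem exists_bound {c c' : ℝ → R4} {r : ℝ} (hr : 0 < r) (hc : Continuous c) (hc' : Continuous c')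
    (h : ∀ a ∈ Icc (2 / 5 - 3 / 4 * r) (2 / 5 : ℝ), ‖c a - ax 1‖ < r)
    (h' : ∀ a ∈ Icc (2 / 5 - 3 / 4 * r) (2 / 5 : ℝ), ‖c' a - ax 1‖ < r) :
    ∃ m < r, ∀ a ∈ Icc (2 / 5 - 3 / 4 * r) (2 / 5 : ℝ), ‖c a - ax 1‖ ≤ m ∧ ‖c' a - ax 1‖ ≤ m := by
  have hne : (Icc (2 / 5 - 3 / 4 * r) (2 / 5 : ℝ)).Nonempty := nonempty_Icc.2 (by linarith)
  obtain ⟨x, hx, hx'⟩ := isCompact_Icc.exists_isMaxOn hne
    (f := fun a => ‖c a - ax 1‖) (by fun_prop : Continuous fun a => ‖c a - ax 1‖).continuousOn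
  obtain ⟨y, hy, hy'⟩ := isCompact_Icc.exists_isMaxOn hne
    (f := fun a => ‖c' a - ax 1‖) (by fun_prop : Continuous fun a => ‖c' a - ax 1‖).continuousOn
  refine ⟨max ‖c x - ax 1‖ ‖c' y - ax 1‖, max_lt (h x hx) (h' y hy), fun a ha => ⟨?_, ?_⟩⟩
  · exact le_trans (hx' ha) (le_max_left _ _)
  · exact le_trans (hy' ha) (le_max_right _ _)

/-- the low part of the family stays near `ax 1` -/
theorem HH_near {c c' : ℝ → R4} {r δ₂ m : ℝ} {v w : R4} (hr : r ≤ 1 / 100) (hδ : 0 < δ₂)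
    (hv : ‖v‖ < (r - m) / 2) (hw : ‖w‖ < (r - m) / 2) {a : ℝ}
    (ha : a ∈ Icc (2 / 5 - 3 / 4 * r) (2 / 5 : ℝ)) (h : ‖c a - ax 1‖ ≤ m)
    (h' : ‖c' a - ax 1‖ ≤ m) (t : ℝ) : ‖HH c c' r δ₂ v w (t, a) - ax 1‖ < r := by
  have hτ0 := Real.smoothTransition.nonneg t
  have hτ1 := Real.smoothTransition.le_one t
  set τ := Real.smoothTransition t with hτ
  have e1 : HH c c' r δ₂ v w (t, a) - ax 1 = ((1 - τ) • (c' a - ax 1) + τ • (c a - ax 1)) +
      (hat 0 1 t * cutf r δ₂ a) • (v + a • w) := by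
    simp only [HH, fam, lin, ← hτ]
    module
  have e2 : ‖(1 - τ) • (c' a - ax 1) + τ • (c a - ax 1)‖ ≤ m := by
    calc ‖(1 - τ) • (c' a - ax 1) + τ • (c a - ax 1)‖
        ≤ ‖(1 - τ) • (c' a - ax 1)‖ + ‖τ • (c a - ax 1)‖ := norm_add_le _ _
      _ = (1 - τ) * ‖c' a - ax 1‖ + τ * ‖c a - ax 1‖ := by
          rw [norm_smul, norm_smul, Real.norm_eq_abs, Real.norm_eq_abs, abs_of_nonneg hτ0,
            abs_of_nonneg (by linarith : (0 : ℝ) ≤ 1 - τ)]
      _ ≤ (1 - τ) * m + τ * m := by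
          have := mul_le_mul_of_nonneg_left h' (by linarith : (0 : ℝ) ≤ 1 - τ)
          have := mul_le_mul_of_nonneg_left h hτ0
          linarith
      _ = m := by ring
  have hk0 : 0 ≤ hat 0 1 t * cutf r δ₂ a := mul_nonneg (hat_nonneg _ _ _) (cutf_nonneg _ _ _)
  have hk1 : hat 0 1 t * cutf r δ₂ a ≤ 1 :=
    mul_le_one₀ (hat_le_one _ _ _) (cutf_nonneg _ _ _) (cutf_le_one hδ ha.2)
  have ha1 : |a| ≤ 1 := by
    rw [abs_le]
    constructor <;> linarith [ha.1, ha.2]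
  have e3 : ‖(hat 0 1 t * cutf r δ₂ a) • (v + a • w)‖ ≤ ‖v‖ + ‖w‖ := by
    rw [norm_smul, Real.norm_eq_abs, abs_of_nonneg hk0]
    have e4 : ‖v + a • w‖ ≤ ‖v‖ + ‖w‖ := by
      refine (norm_add_le _ _).trans (add_le_add_right ?_ _)
      rw [norm_smul, Real.norm_eq_abs]
      exact mul_le_of_le_one_left (norm_nonneg _) ha1
    calc (hat 0 1 t * cutf r δ₂ a) * ‖v + a • w‖ ≤ 1 * ‖v + a • w‖ :=
          mul_le_mul_of_nonneg_right hk1 (norm_nonneg _)
      _ ≤ ‖v‖ + ‖w‖ := by rw [one_mul]; exact e4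
  rw [e1]
  refine lt_of_le_of_lt (norm_add_le _ _) ?_
  linarith

theorem finrank_R4 : Module.finrank ℝ R4 = 4 := by
  simp [Module.finrank_prod]

/-- continuity of a germ on the first cuff: the image is closed -/
theorem closed_image {F : R4 → R4} {γ d : ℝ} (br : Br 1 F γ d) : IsClosed (F '' sph 0) := by
  refine ((Pool.Agent.Helper34.BI.CH.cpt_sph 0).image_of_continuousOn ?_).isClosed
  intro p hp
  exact (ld_iff.1 (br.loc p (Or.inl (Or.inl (Or.inl hp))))).1.self_of_nhds.continuousAt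
    |>.continuousWithinAt

end ARL

open ARL in
open Pool.Agent.Helper34.BI (hat hat_nonneg hat_le_one contDiff_hat hat_ne_zero hat_eq_zero fam
  GenPos exists_genPos isolated cst crv StCH) in
/-- **ARL.** -/
theorem m_ARL (hCH : Pool.Agent.Helper34.BI.StCH) : StARL := by
  intro F F' d δ δ' r μ c c' hd hL hμ hμδ hμδ' hc hc' heq
  have hr := hL.pos
  have hrδ := hL.lt
  have hδs := hL.nb.small
  have hEmb : EmbOn I4 F SP := ⟨fun p hp => hL.nb.br.loc p (Or.inl hp), hL.nb.br.inj⟩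
  obtain ⟨charts, hcov, -, -, hcrv, -, -⟩ := hCH F hEmb
  obtain ⟨δ₂, hδ₂, hδ₂r, hδ₂μ⟩ : ∃ δ₂ : ℝ, 0 < δ₂ ∧ δ₂ < r / 4 ∧ δ₂ < μ / 4 := by
    refine ⟨min r μ / 8, by positivity, ?_, ?_⟩
    · have := min_le_left r μ
      linarith
    · have := min_le_right r μ
      linarith
  obtain ⟨m, hm, hmc⟩ := exists_bound hr hc.smooth.continuous hc'.smooth.continuous hc.ball hc'.ball
  have hg : ∀ k : Bool, ContDiff ℝ ∞
      (fun θ : ℝ => if k then ax 1 else F (crv false θ)) := by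
    intro k
    cases k
    · simpa using hcrv false
    · simpa using (contDiff_const : ContDiff ℝ ∞ fun _ : ℝ => ax 1)
  have hfs : ContDiffOn ℝ ∞ (fun y : ℂ => F (cst false y)) univ := charts.smooth false
  obtain ⟨v, w, hv, hw, hgp⟩ := exists_genPos (h := lin c c') (ρ := hat 0 1) (χ := cutf r δ₂)
    finrank_R4 Complex.finrank_real_complex (contDiff_lin hc.smooth hc'.smooth) (contDiff_hat _ _)
    (contDiff_cutf _ _) (ι := Unit) (κ := Bool) (f := fun _ y => F (cst false y))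
    (T := fun _ => univ) (fun _ => isOpen_univ) (fun _ => hfs)
    (g := fun k θ => if k then ax 1 else F (crv false θ)) hg
    (ε := (r - m) / 2) (by linarith)
  set H : ℝ × ℝ → R4 := HH c c' r δ₂ v w with hHdef
  have hgp' : GenPos H (hat 0 1) (cutf r δ₂) (fun (_ : Unit) y => F (cst false y))
      (fun _ => univ) (fun (k : Bool) θ => if k then ax 1 else F (crv false θ)) := hgp
  have hHs : ContDiff ℝ ∞ H := contDiff_HH hc.smooth hc'.smooth r δ₂ v w
  have hleft : ∀ t a, t ≤ 0 → H (t, a) = c' a := HH_left c c' r δ₂ v w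
  have hright : ∀ t a, 1 ≤ t → H (t, a) = c a := HH_right c c' r δ₂ v w
  have hag : ∀ u, cutf r δ₂ u = 0 → c =ᶠ[𝓝 u] c' := fun u hu =>
    agree hr (by linarith) hc hc' heq hu
  have hfroz : ∀ t u, cutf r δ₂ u = 0 → H (t, u) = c' u := fun t u hu =>
    HH_frozen v w t hu (hag u hu).self_of_nhds
  have hρt : ∀ t : ℝ, 0 < t → t < 1 → hat 0 1 t ≠ 0 := fun t h1 h2 => hat_ne_zero.2 ⟨h1, h2⟩
  have hcases : ∀ t : ℝ, t ≤ 0 ∨ 1 ≤ t ∨ (0 < t ∧ t < 1) := by
    intro t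
    rcases le_or_gt t 0 with h1 | h1
    · exact Or.inl h1
    · rcases le_or_gt 1 t with h2 | h2
      · exact Or.inr (Or.inl h2)
      · exact Or.inr (Or.inr ⟨h1, h2⟩)
  have hinj : ∀ t, InjOn (fun a => H (t, a)) (Ico (1 / 5) 1) := by
    intro t u hu u' hu' he
    simp only at he
    rcases hcases t with h1 | h1 | h1
    · rw [hleft t u h1, hleft t u' h1] at he
      exact hc'.inj hu hu' he
    · rw [hright t u h1, hright t u' h1] at he
      exact hc.inj hu hu' he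
    · by_cases h2 : cutf r δ₂ u = 0
      · by_cases h3 : cutf r δ₂ u' = 0
        · rw [hfroz t u h2, hfroz t u' h3] at he
          exact hc'.inj hu hu' he
        · by_contra hne
          exact hgp'.inj t u u' (hρt t h1.1 h1.2) hne (Or.inr h3) he
      · by_contra hne
        exact hgp'.inj t u u' (hρt t h1.1 h1.2) hne (Or.inl h2) he
  have hne1 : ∀ t, ∀ a ∈ Ico (1 / 5 : ℝ) 1, H (t, a) = ax 1 → a = 2 / 5 := by
    intro t a ha he
    rcases hcases t with h1 | h1 | h1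
    · rw [hleft t a h1] at he
      exact hc'.ne a ha he
    · rw [hright t a h1] at he
      exact hc.ne a ha he
    · by_cases h2 : cutf r δ₂ a = 0
      · rw [hfroz t a h2] at he
        exact hc'.ne a ha he
      · exact absurd he (by simpa using hgp'.curve t a true 0 (hρt t h1.1 h1.2) h2)
  have himm : ∀ t, ∀ a ∈ Icc (1 / 5 : ℝ) 1, fderiv ℝ H (t, a) (0, 1) ≠ 0 := by
    intro t u hu
    have hder := HH_der hc.smooth hc'.smooth r δ₂ v w t u
    rcases hcases t with h1 | h1 | h1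
    · have e : (fun a => HH c c' r δ₂ v w (t, a)) = c' := funext fun a => hleft t a h1
      rw [← hder.deriv, e]
      exact hc'.imm u hu
    · have e : (fun a => HH c c' r δ₂ v w (t, a)) = c := funext fun a => hright t a h1
      rw [← hder.deriv, e]
      exact hc.imm u hu
    · by_cases h2 : cutf r δ₂ u = 0
      · rw [hHdef, HH_der_frozen hc.smooth hc'.smooth v w t h2 (hag u h2)]
        exact hc'.imm u hu
      · exact hgp'.imm t u (hρt t h1.1 h1.2) h2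
  have hact : ∀ t, ∀ a ∈ Ioo (1 / 5 : ℝ) 1, H (t, a) ∈ F '' sph 0 →
      (0 < t ∧ t < 1) ∧ cutf r δ₂ a ≠ 0 := by
    intro t a ha hmem
    rcases hcases t with h1 | h1 | h1
    · rw [hleft t a h1] at hmem
      exact absurd hmem (hc'.off a ha)
    · rw [hright t a h1] at hmem
      exact absurd hmem (hc.off a ha)
    · refine ⟨h1, fun h2 => ?_⟩
      rw [hfroz t a h2] at hmem
      exact hc'.off a ha hmem
  have hlate : ∀ t, ∀ a ∈ Ioo (1 / 5 : ℝ) 1, H (t, a) ∈ F '' sph 0 →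
      0 < t ∧ t < 1 ∧ 2 / 5 < a := by
    intro t a ha hmem
    obtain ⟨h1, h2⟩ := hact t a ha hmem
    refine ⟨h1.1, h1.2, ?_⟩
    by_contra hcon
    rw [not_lt] at hcon
    rcases le_or_gt a (2 / 5 - 3 / 4 * r) with h3 | h3
    · exact h2 (cutf_of_low hr hδ₂ h3)
    · have h4 : a ∈ Icc (2 / 5 - 3 / 4 * r) (2 / 5 : ℝ) := ⟨h3.le, hcon⟩
      have h5 := HH_near (c := c) (c' := c') (by linarith) hδ₂ hv hw h4 (hmc a h4).1 (hmc a h4).2 t
      obtain ⟨p, hp, hpe⟩ := hmem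
      have h6 := hL.far p hp
      rw [hpe] at h6
      exact absurd h5 (not_lt.2 h6.le)
  have hfoot : ∀ t, H (t, 1 / 5) = F (1 / 2, 1 / 5, 0) := by
    intro t
    have h1 : cutf r δ₂ (1 / 5) = 0 := cutf_of_low hr hδ₂ (by linarith)
    rw [hfroz t _ h1, ← (hag _ h1).self_of_nhds]
    exact hc.core (1 / 5) ⟨le_rfl, by norm_num⟩
  have hcover : ∀ t, ∀ a ∈ Ioo (1 / 5 : ℝ) 1, H (t, a) ∈ F '' sph 0 →
      ∃ y, F (cst false y) = H (t, a) := by
    intro t a ha hmem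
    obtain ⟨p, hp, hpe⟩ := hmem
    have h1 : p ≠ (1 / 2, 1 / 5, 0) := by
      intro h2
      rw [h2, ← hfoot t] at hpe
      have := hinj t ⟨le_rfl, by norm_num⟩ ⟨ha.1.le, ha.2⟩ hpe
      exact absurd this ha.1.ne
    obtain ⟨y, hy⟩ := hcov p hp h1
    exact ⟨y, by rw [hy, hpe]⟩
  have hcmem : ∀ y, F (cst false y) ∈ F '' sph 0 := fun y =>
    ⟨_, Pool.Agent.Helper34.BI.CH.cst_mem false y, rfl⟩
  have htrans : ∀ t, ∀ a ∈ Ioo (1 / 5 : ℝ) 1, ∀ y : ℂ, H (t, a) = F (cst false y) →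
      ∀ ζ η, fderiv ℝ H (t, a) ζ = fderiv ℝ (fun y => F (cst false y)) y η → ζ = 0 ∧ η = 0 := by
    intro t a ha y he
    obtain ⟨h1, h2⟩ := hact t a ha (he ▸ hcmem y)
    exact hgp'.trans t a () y (hρt t h1.1 h1.2) h2 (mem_univ _) he
  have hsingle : ∀ t, ∀ a ∈ Ioo (1 / 5 : ℝ) 1, ∀ a' ∈ Ioo (1 / 5 : ℝ) 1, H (t, a) ∈ F '' sph 0 →
      H (t, a') ∈ F '' sph 0 → a = a' := by
    intro t a ha a' ha' hm1 hm2
    obtain ⟨h1, h2⟩ := hact t a ha hm1
    obtain ⟨-, h3⟩ := hact t a' ha' hm2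
    obtain ⟨y, hy⟩ := hcover t a ha hm1
    obtain ⟨y', hy'⟩ := hcover t a' ha' hm2
    by_contra hne
    exact hgp'.cross t a a' () () y y' (hρt t h1.1 h1.2) hne h2 h3 (mem_univ _) (mem_univ _)
      hy.symm hy'.symm
  have havoid : ∀ t, ∀ a ∈ Ioo (1 / 5 : ℝ) 1, H (t, a) ∈ F '' sph 0 →
      ∀ θ, H (t, a) ≠ F (crv false θ) := by
    intro t a ha hmem θ
    obtain ⟨h1, h2⟩ := hact t a ha hmem
    simpa using hgp'.curve t a false θ (hρt t h1.1 h1.2) h2
  have hfin : {x : ℝ × ℝ | x.2 ∈ Ioo (1 / 5 : ℝ) 1 ∧ H x ∈ F '' sph 0}.Finite := by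
    by_contra hinf
    have hinf' : Set.Infinite {x : ℝ × ℝ | x.2 ∈ Ioo (1 / 5 : ℝ) 1 ∧ H x ∈ F '' sph 0} := hinf
    have hsub : {x : ℝ × ℝ | x.2 ∈ Ioo (1 / 5 : ℝ) 1 ∧ H x ∈ F '' sph 0} ⊆
        Icc (0 : ℝ) 1 ×ˢ Icc (2 / 5 : ℝ) (1 - δ₂) := by
      rintro ⟨t, u⟩ ⟨hu, hmem⟩
      obtain ⟨h1, h2, h3⟩ := hlate t u hu hmem
      obtain ⟨-, h4⟩ := hact t u hu hmem
      refine ⟨⟨h1.le, h2.le⟩, h3.le, ?_⟩
      by_contra hcon
      exact h4 (cutf_of_high (by linarith) (not_le.1 hcon).le)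
    obtain ⟨x, hx, hacc⟩ := hinf'.exists_accPt_of_subset_isCompact
      (isCompact_Icc.prod isCompact_Icc) hsub
    obtain ⟨t, u⟩ := x
    have hu : u ∈ Ioo (1 / 5 : ℝ) 1 := ⟨by linarith [hx.2.1], by linarith [hx.2.2]⟩
    have hmem : H (t, u) ∈ F '' sph 0 := by
      have hcl : IsClosed (H ⁻¹' (F '' sph 0)) := (closed_image hL.nb.br).preimage hHs.continuous
      have h1 : (t, u) ∈ closure (H ⁻¹' (F '' sph 0)) := by
        rw [mem_closure_iff_clusterPt]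
        refine hacc.clusterPt.mono ?_
        rw [Filter.principal_mono]
        exact fun x hx => hx.2
      rw [hcl.closure_eq] at h1
      exact h1
    obtain ⟨y, he⟩ := hcover t u hu hmem
    obtain ⟨U, hU, V, hV, hUV⟩ := isolated finrank_R4 Complex.finrank_real_complex hHs
      isOpen_univ hfs (mem_univ y) he.symm (htrans t u hu y he.symm)
    obtain ⟨W, hW, hAW⟩ := charts.nhds false y (mem_univ _) V hV
    rw [he] at hW
    have hW' : H ⁻¹' W ∈ 𝓝 (t, u) := hHs.continuous.continuousAt hW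
    rw [accPt_iff_nhds] at hacc
    obtain ⟨x', ⟨hx'1, hx'2⟩, hne⟩ := hacc (U ∩ H ⁻¹' W) (inter_mem hU hW')
    have hx'3 : H x' ∈ F '' (sph 0 ∪ sph 1) := image_mono subset_union_left hx'2.2
    obtain ⟨y', hy', he'⟩ := hAW ⟨hx'3, hx'1.2⟩
    exact hne (hUV x' hx'1.1 y' hy' he'.symm)
  refine ⟨δ₂, H, by linarith, by linarith, ?_⟩
  exact {
    pos := hδ₂
    small := hδ₂r
    smooth := hHs
    left := fun t a ht => by rw [hleft t a ht, hleft 0 a le_rfl]
    right := fun t a ht => by rw [hright t a ht, hright 1 a le_rfl]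
    start := fun a ha => by rw [hleft 0 a le_rfl]; exact hc'.core a ha
    stop := fun a ha => by rw [hright 1 a le_rfl]; exact hc.core a ha
    low := fun t a ha => by
      rw [hfroz t a (cutf_of_low hr hδ₂ ha), hfroz 0 a (cutf_of_low hr hδ₂ ha)]
    mid := fun t a ha => by
      rw [hfroz t a (cutf_of_mid ha)]
      exact hc'.mid a (by linarith)
    high := fun t a ha => by
      rw [hfroz t a (cutf_of_high (by linarith) ha)]
      exact hc'.high a (by linarith)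
    inj := hinj
    ne := hne1
    imm := himm
    finite := hfin
    late := hlate
    single := hsingle
    trans := htrans
    avoid := havoid }

end Pool.Agent.Helper70.BI
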