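import Pool.Agent.Helper70.BI.StU

/-!
# Project BI, part (E), module C1: centring
-/

set_option autoImplicit false

open scoped Manifold ContDiff Topology ComplexConjugate
open Set Filter Pool.Agent.Helper65.Barb Pool.Agent.Helper18.BI

namespace Pool.Agent.Helper70.BI

namespace C1

open Pool.Agent.Helper34.BI (isLocalDiffeomorphAt_of_injective eventually_contDiffAt
  injective_fderiv)

theorem rsq_eq (c : ℝ) (p : R4) : rsq c p = nsq (p.2 - pc c) := by
  simp [rsq, pc, nsq]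

theorem rsq_def (c : ℝ) (p : R4) :
    rsq c p = (p.2.1 - c) ^ 2 + (p.2.2.re ^ 2 + p.2.2.im ^ 2) := by
  simp only [rsq, nsq]; ring

theorem sq_le_rsq (c : ℝ) (p : R4) : (p.2.1 - c) ^ 2 ≤ rsq c p := by
  rw [rsq_def]; nlinarith [sq_nonneg p.2.2.re, sq_nonneg p.2.2.im]

theorem rsq_ax (c a : ℝ) : rsq c (ax a) = (a - c) ^ 2 := by
  simp [rsq, nsq, ax]

theorem rsq_ax_ge {c a : ℝ} (hc : c = 0 ∨ c = 1) (ha : a ∈ Icc (1 / 5 : ℝ) (4 / 5)) :
    1 / 25 ≤ rsq c (ax a) := by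
  rw [rsq_ax]
  obtain ⟨h1, h2⟩ := ha
  rcases hc with rfl | rfl <;> nlinarith

theorem sph_ge {c : ℝ} (hc : c = 0 ∨ c = 1) {p : R4} (hp : p ∈ sph (1 - c)) :
    1 / 25 ≤ rsq c p := by
  have h1 := sq_le_rsq (1 - c) p
  have h2 := sq_le_rsq c p
  rw [hp.2] at h1
  rcases hc with rfl | rfl
  · have : 4 / 5 ≤ p.2.1 := by nlinarith
    nlinarith
  · have : p.2.1 ≤ 1 / 5 := by nlinarith
    nlinarith

theorem SP_ge {c : ℝ} (hc : c = 0 ∨ c = 1) {p : R4} (hp : p ∈ SP) : 1 / 25 ≤ rsq c p := by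
  rcases hp with (h | h) | h
  · rcases hc with rfl | rfl
    · exact h.2.ge
    · exact sph_ge (Or.inr rfl) (by simpa using h)
  · rcases hc with rfl | rfl
    · exact sph_ge (Or.inl rfl) (by simpa using h)
    · exact h.2.ge
  · have h1 : p = ax p.2.1 := by
      obtain ⟨h1, -, -, h4⟩ := h
      apply Prod.ext
      · exact h1
      · apply Prod.ext
        · rfl
        · exact h4
    rw [h1]
    exact rsq_ax_ge hc ⟨h.2.1, h.2.2.1⟩

theorem ax_SP {a : ℝ} (ha : a ∈ Icc (1 / 5 : ℝ) (4 / 5)) : ax a ∈ SP :=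
  Or.inr ⟨rfl, ha.1, ha.2, rfl⟩

theorem ax_flat (c : ℝ) : ax c ∈ flat c := ⟨rfl, by rw [rsq_ax]; norm_num⟩

/-- level preserving diffeomorphisms, the identity away from the flat ball -/
structure LP (c : ℝ) (G G' : R4 → R4) : Prop where
  sm : ContDiff ℝ ∞ G
  sm' : ContDiff ℝ ∞ G'
  gg : ∀ p, G (G' p) = p
  gg' : ∀ p, G' (G p) = p
  fst : ∀ p, (G p).1 = p.1
  off : ∃ η : ℝ, 0 < η ∧ ∀ p, 1 / 25 - η ≤ rsq c p → G p = p

namespace LP
variable {c : ℝ} {G G' : R4 → R4}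

theorem symm (h : LP c G G') : LP c G' G := by
  obtain ⟨η, hη, h1⟩ := h.off
  refine ⟨h.sm', h.sm, h.gg', h.gg, fun p => ?_, η, hη, fun p hp => ?_⟩
  · have := h.fst (G' p)
    rw [h.gg] at this
    exact this.symm
  · have := h.gg' p
    rwa [h1 p hp] at this

theorem fix (h : LP c G G') {p : R4} (hp : 1 / 25 ≤ rsq c p) : G p = p := by
  obtain ⟨η, hη, h1⟩ := h.off
  exact h1 p (by linarith)

theorem lt (h : LP c G G') {p : R4} (hp : rsq c p < 1 / 25) : rsq c (G p) < 1 / 25 := by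
  by_contra hcon
  rw [not_lt] at hcon
  have h1 := h.fix hcon
  have h2 := h.gg' (G p)
  rw [h1, h.gg' p] at h2
  rw [← h2] at hcon
  linarith

theorem flat (h : LP c G G') {p : R4} (hp : p ∈ Pool.Agent.Helper18.BI.flat c) :
    G p ∈ Pool.Agent.Helper18.BI.flat c := by
  refine ⟨by rw [h.fst]; exact hp.1, ?_⟩
  rcases hp.2.lt_or_eq with h1 | h1
  · exact (h.lt h1).le
  · rw [h.fix h1.ge]; exact h1.le

theorem fd (h : LP c G G') (p w : R4) : fderiv ℝ G (G' p) (fderiv ℝ G' p w) = w := by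
  have d1 : HasFDerivAt G' (fderiv ℝ G' p) p := (h.sm'.differentiable (by simp) p).hasFDerivAt
  have d2 : HasFDerivAt G (fderiv ℝ G (G' p)) (G' p) :=
    (h.sm.differentiable (by simp) _).hasFDerivAt
  have d3 := d2.comp p d1
  have d4 := d3.congr_of_eventuallyEq (f₁ := fun x : R4 => x)
    (Eventually.of_forall fun q => (h.gg q).symm)
  have d5 := d4.unique (hasFDerivAt_id p)
  exact congrArg (fun A : R4 →L[ℝ] R4 => A w) d5

theorem fd_fst (h : LP c G G') (p w : R4) : (fderiv ℝ G p w).1 = w.1 := by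
  have d1 : HasFDerivAt G (fderiv ℝ G p) p := (h.sm.differentiable (by simp) p).hasFDerivAt
  have d2 := d1.fst
  have d3 := d2.congr_of_eventuallyEq (f₁ := fun q : R4 => q.1)
    (Eventually.of_forall fun q => (h.fst q).symm)
  have d4 : HasFDerivAt (fun q : R4 => q.1) (ContinuousLinearMap.fst ℝ ℝ (ℝ × ℂ)) p :=
    hasFDerivAt_fst
  have d5 := d3.unique d4
  exact congrArg (fun A : R4 →L[ℝ] ℝ => A w) d5

theorem ld (h : LP c G G') (p : R4) : LD G p := by
  rw [ld_iff]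
  refine ⟨Eventually.of_forall fun q => h.sm.contDiffAt, fun v w hvw => ?_⟩
  have h1 := h.symm.fd (p := p) (w := v)
  have h2 := h.symm.fd (p := p) (w := w)
  rw [hvw] at h1
  exact h1.symm.trans h2

theorem image (h : LP c G G') (F : R4 → R4) :
    (fun p => F (G p)) '' Pool.Agent.Helper18.BI.flat c =
      F '' Pool.Agent.Helper18.BI.flat c := by
  ext y
  constructor
  · rintro ⟨p, hp, rfl⟩
    exact ⟨G p, h.flat hp, rfl⟩
  · rintro ⟨p, hp, rfl⟩
    exact ⟨G' p, h.symm.flat hp, by simp only [h.gg]⟩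

theorem br (hc : c = 0 ∨ c = 1) (h : LP c G G') {F : R4 → R4} {γ e : ℝ} (hF : Br c F γ e) :
    Br c (fun p => F (G p)) γ e := by
  have hSP : ∀ p ∈ SP, G p = p := fun p hp => h.fix (SP_ge hc hp)
  refine ⟨fun p hp => ?_, fun p hp q hq he => ?_, fun p hp q hq he => ?_, hF.mem, ?_,
    fun a ha hin => ?_⟩
  · have h1 : G p ∈ SP ∪ Pool.Agent.Helper18.BI.flat c := by
      rcases hp with hp | hp
      · rw [hSP p hp]; exact Or.inl hp
      · exact Or.inr (h.flat hp)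
    exact ld_comp (h.ld p) (hF.loc _ h1)
  · have he' : F (G p) = F (G q) := he
    rw [hSP p hp, hSP q hq] at he'
    exact hF.inj hp hq he'
  · have key : ∀ p ∈ Pool.Agent.Helper18.BI.flat c ∪ sph (1 - c),
        G p ∈ Pool.Agent.Helper18.BI.flat c ∪ sph (1 - c) := by
      rintro p (hp | hp)
      · exact Or.inl (h.flat hp)
      · rw [h.fix (sph_ge hc hp)]; exact Or.inr hp
    have h1 := hF.injF (key p hp) (key q hq) he
    rw [← h.gg' p, h1, h.gg' q]
  · obtain ⟨x₀, hx, hcore, l, v, hel, hder⟩ := hF.cr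
    have hr : rsq c ((1 / 2, x₀) : R4) < 1 / 25 := by rw [rsq_eq]; exact hx
    have h1 := h.symm.lt hr
    have h2 : G' (1 / 2, x₀) = (1 / 2, (G' (1 / 2, x₀)).2) :=
      Prod.ext (by rw [h.symm.fst]) rfl
    have hγ : ax γ ∈ SP := ax_SP ⟨hF.mem.1.le, hF.mem.2.le⟩
    refine ⟨(G' (1 / 2, x₀)).2, by rw [rsq_eq] at h1; exact h1, ?_, l,
      (fderiv ℝ G' (1 / 2, x₀) (l, v)).2, hel, ?_⟩
    · rw [← h2]
      change F (G (ax γ)) = F (G (G' (1 / 2, x₀)))
      rw [h.gg, hSP _ hγ]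
      exact hcore
    · have e1 : fderiv ℝ (fun p => F (G p)) (ax γ) = fderiv ℝ F (ax γ) := by
        apply Filter.EventuallyEq.fderiv_eq
        obtain ⟨η, hη, h3⟩ := h.off
        have h4 : 1 / 25 - η < rsq c (ax γ) := by linarith [SP_ge hc hγ]
        filter_upwards [(continuous_rsq c).continuousAt.eventually (lt_mem_nhds h4)] with q hq
        rw [h3 q hq.le]
      rw [e1, hder, ← h2]
      have hflat : ((1 / 2, x₀) : R4) ∈ Pool.Agent.Helper18.BI.flat c := ⟨rfl, hr.le⟩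
      have e2 : HasFDerivAt F (fderiv ℝ F (1 / 2, x₀)) (G (G' (1 / 2, x₀))) := by
        rw [h.gg]
        exact ((eventually_contDiffAt (hF.loc _ (Or.inr hflat))).self_of_nhds.differentiableAt
          (by simp)).hasFDerivAt
      have e3 : HasFDerivAt G (fderiv ℝ G (G' (1 / 2, x₀))) (G' (1 / 2, x₀)) :=
        (h.sm.differentiable (by simp) _).hasFDerivAt
      have e4 := (e2.comp _ e3).fderiv
      have e5 : fderiv ℝ (fun p => F (G p)) (G' (1 / 2, x₀)) =
          (fderiv ℝ F (1 / 2, x₀)).comp (fderiv ℝ G (G' (1 / 2, x₀))) := e4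
      rw [e5]
      have e6 : ((l, (fderiv ℝ G' (1 / 2, x₀) (l, v)).2) : R4) =
          fderiv ℝ G' (1 / 2, x₀) (l, v) :=
        Prod.ext (h.symm.fd_fst (1 / 2, x₀) (l, v)).symm rfl
      rw [e6, ContinuousLinearMap.comp_apply, h.fd]
  · rw [h.image F] at hin
    have h1 : core (fun p => F (G p)) a = core F a := by
      change F (G (ax a)) = F (ax a)
      rw [hSP _ (ax_SP ha)]
    rw [h1] at hin
    exact hF.only a ha hin

end LP

/-! ### the norm -/

theorem norm_sq_le (x : R3) : ‖x‖ ^ 2 ≤ nsq x := by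
  have h1 : ‖x.2‖ ^ 2 = x.2.re ^ 2 + x.2.im ^ 2 := by
    rw [← Complex.normSq_eq_norm_sq, Complex.normSq_apply]; ring
  have h2 : ‖x.1‖ ^ 2 = x.1 ^ 2 := by rw [Real.norm_eq_abs, sq_abs]
  rw [Prod.norm_def]
  unfold nsq
  rcases max_choice ‖x.1‖ ‖x.2‖ with h | h <;> rw [h]
  · rw [h2]; nlinarith [sq_nonneg x.2.re, sq_nonneg x.2.im]
  · rw [h1]; nlinarith [sq_nonneg x.1]

theorem convex_U (c : ℝ) : Convex ℝ {x : R3 | nsq (x - pc c) < 1 / 25} := by
  intro x hx y hy a b ha hb hab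
  have hb' : b = 1 - a := by linarith
  simp only [mem_setOf_eq] at hx hy ⊢
  have key : nsq (a • x + b • y - pc c) = a * nsq (x - pc c) + b * nsq (y - pc c) -
      a * b * nsq (x - y) := by
    subst hb'
    simp only [nsq, pc, Prod.fst_sub, Prod.snd_sub, Prod.fst_add, Prod.snd_add, Prod.smul_fst,
      Prod.smul_snd, Complex.sub_re, Complex.sub_im, Complex.add_re, Complex.add_im,
      Complex.real_smul, Complex.mul_re, Complex.mul_im, Complex.ofReal_re, Complex.ofReal_im,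
      smul_eq_mul, Complex.zero_re, Complex.zero_im]
    ring
  have h0 : 0 ≤ nsq (x - y) := le_trans (sq_nonneg _) (norm_sq_le _)
  have h1 : 0 ≤ a * b * nsq (x - y) := by positivity
  rw [key]
  have h2 : a * nsq (x - pc c) + b * nsq (y - pc c) < 1 / 25 := by
    rcases ha.eq_or_lt with h | h
    · subst h
      have : b = 1 := by linarith
      subst this
      linarith
    · nlinarith
  linarith

theorem contDiff_dfam3 (G : DFam 𝓘(ℝ, R3) R3) : ContDiff ℝ ∞ G.f := by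
  rw [← contMDiff_iff_contDiff, modelWithCornersSelf_prod, ← chartedSpaceSelf_prod]
  exact G.smooth_f

theorem contDiff_dfam3_inv (G : DFam 𝓘(ℝ, R3) R3) : ContDiff ℝ ∞ G.g := by
  rw [← contMDiff_iff_contDiff, modelWithCornersSelf_prod, ← chartedSpaceSelf_prod]
  exact G.smooth_g

theorem cut_nonneg (u : ℝ) : 0 ≤ cut u := Real.smoothTransition.nonneg _
theorem cut_le_one (u : ℝ) : cut u ≤ 1 := Real.smoothTransition.le_one _

theorem lip_b (c : ℝ) : ∃ C : ℝ, 0 ≤ C ∧ ∀ x y : R3,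
    |cut (400 * nsq (x - pc c)) - cut (400 * nsq (y - pc c))| ≤ C * ‖x - y‖ := by
  have hcd : ContDiff ℝ ∞ (fun x : R3 => cut (400 * nsq (x - pc c))) :=
    contDiff_cut.comp (contDiff_const.mul (contDiff_nsq (contDiff_id.sub contDiff_const)))
  have hcs : HasCompactSupport (fun x : R3 => cut (400 * nsq (x - pc c))) := by
    apply HasCompactSupport.intro (isCompact_closedBall (pc c) 1)
    intro x hx
    apply cut_of_ge
    rw [Metric.mem_closedBall, not_le, dist_eq_norm] at hx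
    have := norm_sq_le (x - pc c)
    nlinarith
  obtain ⟨C, hC⟩ := hcd.lipschitzWith_of_hasCompactSupport hcs (by simp)
  refine ⟨C, C.2, fun x y => ?_⟩
  have := hC.dist_le_mul x y
  rwa [Real.dist_eq, dist_eq_norm] at this

/-- straightening of the strand -/
theorem straighten (hPE : Pool.Agent.Helper27.BI.StPert) {c : ℝ} (hc : c = 0 ∨ c = 1)
    {F : R4 → R4} {γ e : ℝ} (h : Br c F γ e) (h0 : core F γ = F (ax c)) :
    ∃ G G' : R4 → R4, LP c G G' ∧ Strand c (fun p => F (G p)) γ e ∧ G (ax c) = ax c := by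
  obtain ⟨x₀, hx, hcore, l, v, hel, hder⟩ := h.cr
  have hfl : ax c ∈ flat c := ax_flat c
  have hx' : ((1 / 2, x₀) : R4) ∈ flat c := ⟨rfl, by rw [rsq_eq]; exact hx.le⟩
  have hxe : ((1 / 2, x₀) : R4) = ax c := by
    apply h.injF (Or.inl hx') (Or.inl hfl)
    rw [← hcore, h0]
  rw [hxe] at hder
  -- the local inverse of `F` at `ax c`
  have hLD := h.loc (ax c) (Or.inr hfl)
  obtain ⟨Φ, hΦs, hΦe⟩ := id hLD
  have hψ : ContDiffOn ℝ ∞ Φ.toPartialEquiv.symm Φ.target :=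
    contMDiffOn_iff_contDiffOn.1 Φ.contMDiffOn_invFun
  let ψ : R4 → R4 := fun q => Φ.toPartialEquiv.symm q
  have hγ : ax γ ∈ SP := ax_SP ⟨h.mem.1.le, h.mem.2.le⟩
  have hax : ContDiff ℝ ∞ ax := by unfold ax; fun_prop
  have hcs : ∀ᶠ a in 𝓝 γ, ContDiffAt ℝ ∞ (core F) a := by
    have h1 := eventually_contDiffAt (h.loc (ax γ) (Or.inl hγ))
    have h2 := (hax.continuous.continuousAt (x := γ)).eventually h1
    filter_upwards [h2] with a ha
    exact ha.comp a hax.contDiffAt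
  have hc0 : core F γ = Φ (ax c) := by rw [h0]; exact hΦe hΦs
  have htgt : core F γ ∈ Φ.target := by rw [hc0]; exact Φ.toPartialEquiv.map_source hΦs
  have htgt' : ∀ᶠ a in 𝓝 γ, core F a ∈ Φ.target :=
    hcs.self_of_nhds.continuousAt.eventually (Φ.open_target.mem_nhds htgt)
  set y : ℝ → R4 := fun a => ψ (core F a) with hy
  have hys : ∀ᶠ a in 𝓝 γ, ContDiffAt ℝ ∞ y a := by
    filter_upwards [hcs, htgt'] with a h1 h2
    exact (hψ.contDiffAt (Φ.open_target.mem_nhds h2)).comp a h1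
  have hFy : ∀ᶠ a in 𝓝 γ, F (y a) = core F a := by
    filter_upwards [htgt'] with a h2
    have h3 : y a ∈ Φ.source := Φ.toPartialEquiv.map_target h2
    rw [hΦe h3]
    exact Φ.toPartialEquiv.right_inv h2
  have hyγ : y γ = ax c := by
    change ψ (core F γ) = ax c
    rw [hc0]
    exact Φ.toPartialEquiv.left_inv hΦs
  have hyd : HasDerivAt y (deriv y γ) γ :=
    (hys.self_of_nhds.differentiableAt (by simp)).hasDerivAt
  have hFd : HasFDerivAt F (fderiv ℝ F (ax c)) (y γ) := by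
    rw [hyγ]
    exact ((eventually_contDiffAt hLD).self_of_nhds.differentiableAt (by simp)).hasFDerivAt
  have hFyd : HasDerivAt (fun a => F (y a)) (fderiv ℝ F (ax c) (deriv y γ)) γ :=
    hFd.comp_hasDerivAt γ hyd
  have hcd : HasDerivAt (core F) (fderiv ℝ F (ax γ) (0, ((1 : ℝ), (0 : ℂ)))) γ := by
    have h1 : HasFDerivAt F (fderiv ℝ F (ax γ)) (ax γ) :=
      ((eventually_contDiffAt (h.loc (ax γ) (Or.inl hγ))).self_of_nhds.differentiableAt
        (by simp)).hasFDerivAt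
    have h2 : HasDerivAt ax ((0, ((1 : ℝ), (0 : ℂ))) : R4) γ :=
      (hasDerivAt_const γ (1 / 2 : ℝ)).prodMk ((hasDerivAt_id γ).prodMk (hasDerivAt_const γ (0 : ℂ)))
    exact h1.comp_hasDerivAt γ h2
  have hyl : deriv y γ = (l, v) := by
    apply injective_fderiv hLD
    rw [← hder]
    exact (hFyd.congr_of_eventuallyEq (hFy.mono fun a ha => ha.symm)).unique hcd
  have hl0 : l ≠ 0 := by rintro rfl; simp at hel
  -- the level function and its local inverse
  have hσd : HasDerivAt (fun a => (y a).1) l γ := by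
    have h1 := hyd.hasFDerivAt.fst.hasDerivAt
    rw [hyl] at h1
    simpa using h1
  have hLσ : IsLocalDiffeomorphAt 𝓘(ℝ, ℝ) 𝓘(ℝ, ℝ) ∞ (fun a => (y a).1) γ := by
    apply isLocalDiffeomorphAt_of_injective rfl
    · filter_upwards [hys] with a ha
      exact ha.fst
    · intro a b hab
      rw [hσd.hasFDerivAt.fderiv] at hab
      simpa [hl0] using hab
  obtain ⟨Ψ, hΨs, hΨe⟩ := hLσ
  have hτ : ContDiffOn ℝ ∞ Ψ.toPartialEquiv.symm Ψ.target :=
    contMDiffOn_iff_contDiffOn.1 Ψ.contMDiffOn_invFun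
  let τ : ℝ → ℝ := fun q => Ψ.toPartialEquiv.symm q
  have hΨγ : Ψ γ = 1 / 2 := by
    rw [← hΨe hΨs]
    simp only [hyγ]
    rfl
  have hΨt : (1 / 2 : ℝ) ∈ Ψ.target := by
    rw [← hΨγ]; exact Ψ.toPartialEquiv.map_source hΨs
  have hτ0 : τ (1 / 2) = γ := by
    rw [← hΨγ]; exact Ψ.toPartialEquiv.left_inv hΨs
  have hτt : ∀ᶠ s in 𝓝 (1 / 2 : ℝ), s ∈ Ψ.target := Ψ.open_target.mem_nhds hΨt
  have hτs : ∀ᶠ s in 𝓝 (1 / 2 : ℝ), ContDiffAt ℝ ∞ τ s := by
    filter_upwards [hτt] with s hs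
    exact hτ.contDiffAt (Ψ.open_target.mem_nhds hs)
  have hστ : ∀ᶠ s in 𝓝 (1 / 2 : ℝ), (y (τ s)).1 = s := by
    filter_upwards [hτt] with s hs
    have h3 : τ s ∈ Ψ.source := Ψ.toPartialEquiv.map_target hs
    have h4 := hΨe h3
    simp only at h4
    rw [h4]
    exact Ψ.toPartialEquiv.right_inv hs
  have hτd : HasDerivAt τ (deriv τ (1 / 2)) (1 / 2) :=
    (hτs.self_of_nhds.differentiableAt (by simp)).hasDerivAt
  have hτc : Tendsto τ (𝓝 (1 / 2 : ℝ)) (𝓝 γ) := by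
    have := hτd.continuousAt.tendsto
    rwa [hτ0] at this
  have hlτ : l * deriv τ (1 / 2) = 1 := by
    have h1 : HasDerivAt (fun a => (y a).1) l (τ (1 / 2)) := by rw [hτ0]; exact hσd
    have h2 := h1.comp (1 / 2 : ℝ) hτd
    have h3 := h2.congr_of_eventuallyEq (f₁ := fun s : ℝ => s) (hστ.mono fun s hs => hs.symm)
    exact h3.unique (hasDerivAt_id _)
  have heτ : 0 < e * deriv τ (1 / 2) := by
    have h1 : deriv τ (1 / 2) ≠ 0 := by
      intro h2
      rw [h2] at hlτ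
      simp at hlτ
    have h2 : e * deriv τ (1 / 2) = (e * l) * deriv τ (1 / 2) ^ 2 := by
      linear_combination (-(e * deriv τ (1 / 2))) * hlτ
    rw [h2]
    positivity
  -- the displacement
  set ζ : ℝ → R3 := fun s => (y (τ s)).2 - pc c with hζ
  have hζs : ∀ᶠ s in 𝓝 (1 / 2 : ℝ), ContDiffAt ℝ ∞ ζ s := by
    filter_upwards [hτs, hτc.eventually hys] with s h1 h2
    exact ((h2.comp s h1).snd).sub contDiffAt_const
  have hζ0 : ζ (1 / 2) = 0 := by
    simp only [hζ, hτ0, hyγ]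
    simp [ax, pc]
  obtain ⟨C, hC0, hC⟩ := lip_b c
  set κ : ℝ := 1 / (2 * (C + 1)) with hκ
  have hκ0 : 0 < κ := by positivity
  have hCκ : C * κ ≤ 1 / 2 := by
    rw [hκ, mul_one_div, div_le_iff₀ (by positivity)]
    linarith
  have hζκ : ∀ᶠ s in 𝓝 (1 / 2 : ℝ), ‖ζ s‖ < κ := by
    have h1 : Tendsto (fun s => ‖ζ s‖) (𝓝 (1 / 2 : ℝ)) (𝓝 0) := by
      have := hζs.self_of_nhds.continuousAt.norm.tendsto
      rwa [hζ0, norm_zero] at this
    exact h1.eventually (gt_mem_nhds hκ0)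
  obtain ⟨ρ, hρ0, hρ⟩ := Metric.eventually_nhds_iff.1 (hζs.and hζκ)
  set ε : ℝ := ρ / 3 with hε
  have hε0 : 0 < ε := by positivity
  set w : ℝ → R3 := fun s => cut (((s - 1 / 2) / ε) ^ 2) • ζ s with hw
  have hcut0 : ∀ s : ℝ, 2 * ε ≤ |s - 1 / 2| → cut (((s - 1 / 2) / ε) ^ 2) = 0 := by
    intro s hs
    apply cut_of_ge
    have h1 : 2 ≤ |(s - 1 / 2) / ε| := by
      rw [abs_div, abs_of_pos hε0, le_div_iff₀ hε0]
      exact hs
    have h2 : |(s - 1 / 2) / ε| ^ 2 = ((s - 1 / 2) / ε) ^ 2 := sq_abs _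
    nlinarith
  have hws : ContDiff ℝ ∞ w := by
    rw [contDiff_iff_contDiffAt]
    intro s
    rcases lt_or_ge |s - 1 / 2| (3 * ε) with hs | hs
    · have h1 : ContDiffAt ℝ ∞ ζ s := (hρ (by rw [Real.dist_eq]; linarith)).1
      have h2 : ContDiff ℝ ∞ (fun s : ℝ => cut (((s - 1 / 2) / ε) ^ 2)) :=
        contDiff_cut.comp (((contDiff_id.sub contDiff_const).div_const _).pow 2)
      exact h2.contDiffAt.smul h1
    · have h1 : ∀ᶠ s' in 𝓝 s, w s' = 0 := by
        have h2 : 2 * ε < |s - 1 / 2| := by linarith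
        have h3 : ContinuousAt (fun s : ℝ => |s - 1 / 2|) s := by fun_prop
        filter_upwards [h3.eventually (lt_mem_nhds h2)] with s' hs'
        simp only [hw]
        rw [hcut0 s' hs'.le, zero_smul]
      exact (contDiffAt_const (c := (0 : R3))).congr_of_eventuallyEq h1
  have hwκ : ∀ s, ‖w s‖ ≤ κ := by
    intro s
    rcases lt_or_ge |s - 1 / 2| (3 * ε) with hs | hs
    · have h1 : ‖ζ s‖ < κ := (hρ (by rw [Real.dist_eq]; linarith)).2
      simp only [hw]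
      rw [norm_smul, Real.norm_eq_abs, abs_of_nonneg (cut_nonneg _)]
      calc cut (((s - 1 / 2) / ε) ^ 2) * ‖ζ s‖ ≤ 1 * ‖ζ s‖ := by
            gcongr
            exact cut_le_one _
        _ ≤ κ := by linarith
    · simp only [hw]
      rw [hcut0 s (by linarith), zero_smul, norm_zero]
      exact hκ0.le
  obtain ⟨Fam, hFam⟩ := hPE
    (fun q : ℝ × R4 => cut (400 * nsq (q.2.2 - pc c)) • w q.2.1)
    ((contDiff_cut.comp (contDiff_const.mul (contDiff_nsq
      (contDiff_snd.snd.sub contDiff_const)))).smul (hws.comp contDiff_snd.fst))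
    (by
      intro t s x x'
      simp only
      rw [← sub_smul, norm_smul, Real.norm_eq_abs]
      calc |cut (400 * nsq (x - pc c)) - cut (400 * nsq (x' - pc c))| * ‖w s‖
          ≤ (C * ‖x - x'‖) * κ := by
            apply mul_le_mul (hC x x') (hwκ s) (norm_nonneg _)
            positivity
        _ = (C * κ) * ‖x - x'‖ := by ring
        _ ≤ 1 / 2 * ‖x - x'‖ := by gcongr)
  have hG : ∀ p : R4, Fam.f (1, p) =
      (p.1, p.2 + cut (400 * nsq (p.2 - pc c)) • w p.1) := fun p => hFam 1 p.1 p.2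
  have hLP : LP c (fun p => Fam.f (1, p)) (fun p => Fam.g (1, p)) := by
    refine ⟨(contDiff_dfam Fam).comp (contDiff_prodMk_right 1),
      (contDiff_dfam_inv Fam).comp (contDiff_prodMk_right 1), fun p => Fam.fg 1 p,
      fun p => Fam.gf 1 p, fun p => by simp only [hG], 3 / 100, by norm_num, fun p hp => ?_⟩
    simp only [hG]
    rw [cut_of_ge (by rw [← rsq_eq]; linarith), zero_smul, add_zero]
  have hw0 : ∀ᶠ s in 𝓝 (1 / 2 : ℝ), w s = ζ s := by
    have h3 : ContinuousAt (fun s : ℝ => |s - 1 / 2|) (1 / 2) := by fun_prop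
    have h4 : |(1 / 2 : ℝ) - 1 / 2| < ε := by simpa using hε0
    filter_upwards [h3.eventually (gt_mem_nhds h4)] with s hs
    simp only [hw]
    rw [cut_of_le, one_smul]
    have h1 : |(s - 1 / 2) / ε| ≤ 1 := by
      rw [abs_div, abs_of_pos hε0, div_le_iff₀ hε0]
      linarith
    have h2 : |(s - 1 / 2) / ε| ^ 2 = ((s - 1 / 2) / ε) ^ 2 := sq_abs _
    nlinarith [abs_nonneg ((s - 1 / 2) / ε)]
  have hGpc : ∀ᶠ s in 𝓝 (1 / 2 : ℝ), Fam.f (1, ((s, pc c) : R4)) = y (τ s) := by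
    filter_upwards [hw0, hστ] with s h1 h2
    rw [hG]
    simp only
    rw [cut_of_le (by simp [nsq]), one_smul, h1]
    apply Prod.ext
    · exact h2.symm
    · simp [hζ]
  refine ⟨fun p => Fam.f (1, p), fun p => Fam.g (1, p), hLP, ⟨τ, hτs, hτ0, heτ, ?_⟩, ?_⟩
  · filter_upwards [hGpc, hτc.eventually hFy,
      hτc.eventually (Ioo_mem_nhds h.mem.1 h.mem.2)] with s h1 h2 h3
    change F (Fam.f (1, ((s, pc c) : R4))) = F (Fam.f (1, ax (τ s)))
    rw [h1, h2]
    have h4 : Fam.f (1, ax (τ s)) = ax (τ s) := hLP.fix (rsq_ax_ge hc ⟨h3.1.le, h3.2.le⟩)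
    rw [h4]
    rfl
  · have h1 : Fam.f (1, ((1 / 2, pc c) : R4)) = y (τ (1 / 2)) := hGpc.self_of_nhds
    have h2 : ax c = ((1 / 2, pc c) : R4) := rfl
    simp only
    rw [h2, h1, hτ0, hyγ]
    rfl

/-- moving the crossing point to the centre -/
theorem centre (hTR : StTR) (c : ℝ) (x₀ : R3) (hx : nsq (x₀ - pc c) < 1 / 25) :
    ∃ G G' : R4 → R4, LP c G G' ∧ G (ax c) = (1 / 2, x₀) := by
  have hUo : IsOpen {x : R3 | nsq (x - pc c) < 1 / 25} :=
    isOpen_lt ((contDiff_nsq (contDiff_id.sub contDiff_const)).continuous) continuous_const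
  obtain ⟨Gm, -, ⟨C, hC, hCU, hCoff⟩, hev⟩ := (hTR R3).2 {x : R3 | nsq (x - pc c) < 1 / 25} (pc c)
    x₀ hUo (convex_U c).isPreconnected (by simp [nsq]) hx
  have hsl : ContDiff ℝ ∞ (fun p : R4 => Gm.f (1, p.2)) :=
    (contDiff_dfam3 Gm).comp (contDiff_const.prodMk contDiff_snd)
  have hsl' : ContDiff ℝ ∞ (fun p : R4 => Gm.g (1, p.2)) :=
    (contDiff_dfam3_inv Gm).comp (contDiff_const.prodMk contDiff_snd)
  have hη : ∃ η : ℝ, 0 < η ∧ ∀ p : R4, 1 / 25 - η ≤ rsq c p → p.2 ∉ C := by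
    rcases C.eq_empty_or_nonempty with rfl | hne
    · exact ⟨1, one_pos, fun p _ => notMem_empty _⟩
    · have hcont : ContinuousOn (fun x : R3 => nsq (x - pc c)) C :=
        ((contDiff_nsq (contDiff_id.sub contDiff_const)).continuous).continuousOn
      obtain ⟨m, hm, hmax⟩ := hC.exists_isMaxOn hne hcont
      have h1 : nsq (m - pc c) < 1 / 25 := hCU hm
      refine ⟨(1 / 25 - nsq (m - pc c)) / 2, by linarith, fun p hp hpC => ?_⟩
      have h2 : nsq (p.2 - pc c) ≤ nsq (m - pc c) := hmax hpC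
      rw [rsq_eq] at hp
      linarith
  obtain ⟨η₁, hη₁, hη₁'⟩ := hη
  refine ⟨fun p : R4 => (p.1, Gm.f (1, p.2)), fun p : R4 => (p.1, Gm.g (1, p.2)),
    ⟨contDiff_fst.prodMk hsl, contDiff_fst.prodMk hsl', fun p => ?_, fun p => ?_,
      fun p => rfl, η₁, hη₁, fun p hp => ?_⟩, ?_⟩
  · simp only [Gm.fg]
  · simp only [Gm.gf]
  · simp only [hCoff 1 p.2 (hη₁' p hp)]
  · have h3 : Gm.f (1, pc c) = pc c + (x₀ - pc c) := hev.self_of_nhds
    change ((1 / 2, Gm.f (1, pc c)) : R4) = (1 / 2, x₀)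
    rw [h3, add_sub_cancel]

end C1

open C1 in
/-- **C1** (centring). -/
theorem m_C1 (hTR : StTR) (hPE : Pool.Agent.Helper27.BI.StPert) : StC1 := by
  intro c F γ e hc h
  obtain ⟨x₀, hx, hcore, -⟩ := h.cr
  obtain ⟨G₁, G₁', hLP₁, hG₁⟩ := centre hTR c x₀ hx
  have hB₁ := hLP₁.br hc h
  have hax : 1 / 25 ≤ rsq c (ax γ) := rsq_ax_ge hc ⟨h.mem.1.le, h.mem.2.le⟩
  have hcore₁ : core (fun p => F (G₁ p)) γ = (fun p => F (G₁ p)) (ax c) := by
    change F (G₁ (ax γ)) = F (G₁ (ax c))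
    rw [hLP₁.fix hax, hG₁]
    exact hcore
  obtain ⟨G, G', hLP₂, hstr, hGc⟩ := straighten hPE hc hB₁ hcore₁
  refine ⟨_, hLP₂.br hc hB₁, ?_, ?_, hstr, ?_⟩
  · obtain ⟨η₁, hη₁, h1⟩ := hLP₁.off
    obtain ⟨η₂, hη₂, h2⟩ := hLP₂.off
    refine ⟨min η₁ η₂, lt_min hη₁ hη₂, fun p hp => ?_⟩
    have e2 : G p = p := h2 p (by linarith [min_le_right η₁ η₂])
    have e1 : G₁ p = p := h1 p (by linarith [min_le_left η₁ η₂])
    simp only [e2, e1]
  · exact (hLP₂.image (fun p => F (G₁ p))).trans (hLP₁.image F)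
  · change F (G₁ (G (ax γ))) = F (G₁ (G (ax c)))
    rw [hLP₂.fix hax, hGc]
    exact hcore₁

end Pool.Agent.Helper70.BI
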