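import Pool.Agent.Helper70.BI.StU
import Pool.Agent.Helper34.BI.M_RC

/-!
# Project BI, module CL: the contraction around the points `(1/2, c, 0)`
-/

set_option autoImplicit false

open scoped Manifold ContDiff Topology ComplexConjugate
open Set Filter Pool.Agent.Helper65.Barb Pool.Agent.Helper18.BI

namespace Pool.Agent.Helper70.BI

open Pool.Agent.Helper34.BI (cfac cl m_RC)

namespace CL

theorem cfac_contDiff : ContDiff ℝ ∞ (fun q : ℝ × ℝ => cfac q.1 q.2) := by
  unfold cfac
  exact contDiff_fst.add ((contDiff_const.sub contDiff_fst).mul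
    (contDiff_step.comp ((contDiff_snd.sub contDiff_const).div_const _)))

theorem cfac_mono {lam : ℝ} (h : lam ≤ 1) : Monotone (cfac lam) := by
  intro a b hab
  unfold cfac
  have h1 : step ((a - 1 / 20) / (1 / 25)) ≤ step ((b - 1 / 20) / (1 / 25)) :=
    Real.smoothTransition.monotone (by
      apply div_le_div_of_nonneg_right _ (by norm_num)
      linarith)
  nlinarith

theorem cfac_ge {lam : ℝ} (h : lam ≤ 1) (q : ℝ) : lam ≤ cfac lam q := by
  unfold cfac
  have : 0 ≤ step ((q - 1 / 20) / (1 / 25)) := Real.smoothTransition.nonneg _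
  nlinarith

/-- the translation vector -/
noncomputable def tv (c : ℝ) : R4 := (0, pc c)

theorem clc_eq (c lam : ℝ) (p : R4) : clc c lam p = cl lam (p - tv c) + tv c := by
  have h1 : nsq (p - tv c).2 = rsq c p := by
    unfold rsq tv pc nsq
    simp
  unfold clc cl
  rw [h1]
  refine Prod.ext ?_ ?_
  · simp [tv]
  · change pc c + cfac lam (rsq c p) • (p.2 - pc c) = cfac lam (rsq c p) • (p.2 - pc c) + pc c
    rw [add_comm]

theorem rsq_eq (c : ℝ) (p : R4) : rsq c p = nsq (p - tv c).2 := by
  unfold rsq tv pc nsq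
  simp

theorem ld_add (v p : R4) : LD (fun q => q + v) p := by
  rw [ld_iff]
  refine ⟨Eventually.of_forall fun q => (contDiff_id.add contDiff_const).contDiffAt, ?_⟩
  have h : fderiv ℝ (fun q : R4 => q + v) p = ContinuousLinearMap.id ℝ R4 := by
    have h1 : HasFDerivAt (fun q : R4 => q + v) (ContinuousLinearMap.id ℝ R4) p :=
      (hasFDerivAt_id p).add_const v
    exact h1.fderiv
  rw [h]
  exact fun a b hab => hab

end CL

open CL

theorem m_CL : StCL := by
  intro c _
  obtain ⟨hsm, hone, hrc⟩ := m_RC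
  refine ⟨?_, ?_, ?_⟩
  · have h1 : ContDiff ℝ ∞ (fun q : ℝ × R4 => (q.1, q.2 - tv c)) :=
      contDiff_fst.prodMk (contDiff_snd.sub contDiff_const)
    have h2 : ContDiff ℝ ∞ (fun q : ℝ × R4 => cl q.1 (q.2 - tv c) + tv c) :=
      (hsm.comp h1).add contDiff_const
    have e : (fun q : ℝ × R4 => clc c q.1 q.2) =
        fun q : ℝ × R4 => cl q.1 (q.2 - tv c) + tv c := funext fun q => clc_eq c q.1 q.2
    rw [e]
    exact h2
  · intro p
    rw [clc_eq, hone, sub_add_cancel]
  · intro lam hlam
    obtain ⟨⟨hld, hinj⟩, h1, hin, hout, -, hle, -, -⟩ := hrc lam hlam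
    refine ⟨⟨?_, ?_⟩, fun p => rfl, ?_, ?_, ?_, ?_, ?_⟩
    · intro p _
      have e : (clc c lam) = (fun q => q + tv c) ∘ (cl lam ∘ fun q => q + (- tv c)) := by
        funext q
        rw [clc_eq, sub_eq_add_neg]
        rfl
      rw [e]
      exact ld_comp (ld_comp (ld_add _ _) (hld _ (mem_univ _))) (ld_add _ _)
    · intro p _ q _ h
      rw [clc_eq, clc_eq] at h
      have h2 := hinj (mem_univ _) (mem_univ _) (add_right_cancel h)
      exact sub_left_injective h2
    · intro p hp
      rw [rsq_eq] at hp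
      rw [clc_eq, hin _ hp]
      refine Prod.ext ?_ ?_
      · simp [tv]
      · change lam • (p.2 - pc c) + pc c = pc c + lam • (p.2 - pc c)
        rw [add_comm]
    · intro p hp
      rw [rsq_eq] at hp
      rw [clc_eq, hout _ hp, sub_add_cancel]
    · intro a
      have h2 : rsq c (ax a) = (a - c) ^ 2 := by
        unfold rsq ax nsq
        simp
      unfold clc
      rw [h2]
      refine Prod.ext rfl ?_
      change pc c + cfac lam ((a - c) ^ 2) • (((a, 0) : ℝ × ℂ) - pc c) =
        (c + cfac lam ((a - c) ^ 2) * (a - c), 0)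
      unfold pc
      refine Prod.ext ?_ ?_
      · simp
      · simp
    · intro p
      rw [rsq_eq, rsq_eq, clc_eq, add_sub_cancel_right]
      exact hle _
    · intro a
      have hfd : ContDiff ℝ ∞ (cfac lam) :=
        cfac_contDiff.comp (contDiff_const.prodMk contDiff_id)
      set L : ℝ := deriv (cfac lam) ((a - c) ^ 2) with hL
      have hLd : HasDerivAt (cfac lam) L ((a - c) ^ 2) :=
        (hfd.differentiable (by simp) _).hasDerivAt
      have hL0 : 0 ≤ L := (cfac_mono hlam.2).deriv_nonneg
      have h2 : HasDerivAt (fun a : ℝ => a - c) 1 a := (hasDerivAt_id a).sub_const c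
      have h3 : HasDerivAt (fun a : ℝ => (a - c) ^ 2) (2 * (a - c)) a := by
        have h9 := h2.mul h2
        refine (h9.congr_deriv (by ring)).congr_of_eventuallyEq ?_
        exact Eventually.of_forall fun x => by
          simp only [Pi.mul_apply]; ring
      have h4 : HasDerivAt (fun a : ℝ => cfac lam ((a - c) ^ 2)) (L * (2 * (a - c))) a :=
        HasDerivAt.comp (h₂ := cfac lam) (h := fun a : ℝ => (a - c) ^ 2) a hLd h3
      have h5 := (h4.mul h2).const_add c
      have h6 : deriv (fun a => c + cfac lam ((a - c) ^ 2) * (a - c)) a =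
          L * (2 * (a - c)) * (a - c) + cfac lam ((a - c) ^ 2) * 1 := h5.deriv
      rw [h6]
      have h7 := cfac_ge hlam.2 ((a - c) ^ 2)
      have h8 : 0 ≤ L * (2 * (a - c)) * (a - c) := by
        have : L * (2 * (a - c)) * (a - c) = 2 * L * (a - c) ^ 2 := by ring
        rw [this]; positivity
      have := hlam.1
      linarith

end Pool.Agent.Helper70.BI
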