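import Pool.Agent.Helper70.BI.StU

/-!
# Project BI, part (E), module DET
-/

set_option autoImplicit false

open scoped Manifold ContDiff Topology ComplexConjugate
open Set Filter Pool.Agent.Helper65.Barb Pool.Agent.Helper18.BI

namespace Pool.Agent.Helper70.BI

namespace DET

private theorem convex_flat (c : ℝ) : Convex ℝ (flat c) := by
  rintro ⟨s, a, w⟩ ⟨hp1, hp2⟩ ⟨s', a', w'⟩ ⟨hq1, hq2⟩ x y hx hy hxy
  simp only [rsq, nsq] at hp2 hq2
  simp only at hp1 hq1
  have hy' : y = 1 - x := by linarith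
  subst hy'
  refine ⟨?_, ?_⟩
  · simp only [Prod.smul_mk, Prod.mk_add_mk, smul_eq_mul, hp1, hq1]
    ring
  · simp only [rsq, nsq, Prod.smul_mk, Prod.mk_add_mk, smul_eq_mul, Complex.add_re,
      Complex.add_im, Complex.real_smul, Complex.mul_re, Complex.mul_im, Complex.ofReal_re,
      Complex.ofReal_im, zero_mul, sub_zero, add_zero]
    nlinarith [mul_nonneg hx hy, mul_nonneg (mul_nonneg hx hy) (sq_nonneg (a - a')),
      mul_nonneg (mul_nonneg hx hy) (sq_nonneg (w.re - w'.re)),
      mul_nonneg (mul_nonneg hx hy) (sq_nonneg (w.im - w'.im)),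
      mul_le_mul_of_nonneg_left hp2 hx, mul_le_mul_of_nonneg_left hq2 hy]

private theorem convex_neck : Convex ℝ neck := by
  rintro ⟨s, a, w⟩ ⟨hp1, hp2, hp3, hp4⟩ ⟨s', a', w'⟩ ⟨hq1, hq2, hq3, hq4⟩ x y hx hy hxy
  simp only at hp1 hp2 hp3 hp4 hq1 hq2 hq3 hq4
  have hy' : y = 1 - x := by linarith
  subst hy'
  refine ⟨?_, ?_, ?_, ?_⟩
  · simp only [Prod.smul_mk, Prod.mk_add_mk, smul_eq_mul, hp1, hq1]
    ring
  · simp only [Prod.smul_mk, Prod.mk_add_mk, smul_eq_mul]
    nlinarith [mul_le_mul_of_nonneg_left hp2 hx, mul_le_mul_of_nonneg_left hq2 hy]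
  · simp only [Prod.smul_mk, Prod.mk_add_mk, smul_eq_mul]
    nlinarith [mul_le_mul_of_nonneg_left hp3 hx, mul_le_mul_of_nonneg_left hq3 hy]
  · simp only [Prod.smul_mk, Prod.mk_add_mk, hp4, hq4, smul_zero, add_zero]

private theorem pre_FB : IsPreconnected FB := by
  have h0 : IsPreconnected (flat 0 ∪ neck) := by
    refine IsPreconnected.union (ax (1 / 5)) ?_ ?_ (convex_flat 0).isPreconnected
      convex_neck.isPreconnected
    · refine ⟨rfl, ?_⟩
      simp only [ax, rsq, nsq, Complex.zero_re, Complex.zero_im]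
      norm_num
    · refine ⟨rfl, ?_, ?_, rfl⟩
      · simp only [ax]; norm_num
      · simp only [ax]; norm_num
  have h1 : IsPreconnected ((flat 0 ∪ neck) ∪ flat 1) := by
    refine IsPreconnected.union (ax (4 / 5)) ?_ ?_ h0 (convex_flat 1).isPreconnected
    · refine Or.inr ⟨rfl, ?_, ?_, rfl⟩
      · simp only [ax]; norm_num
      · simp only [ax]; norm_num
    · refine ⟨rfl, ?_⟩
      simp only [ax, rsq, nsq, Complex.zero_re, Complex.zero_im]
      norm_num
  have h2 : FB = (flat 0 ∪ neck) ∪ flat 1 := by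
    unfold FB
    ext p
    simp only [mem_union]
    tauto
  rw [h2]; exact h1

private theorem det_ne {F : R4 → R4} {p : R4} (h : LD F p) : (fderiv ℝ F p).det ≠ 0 := by
  have h1 := (ld_iff.1 h).2
  have h2 : LinearMap.ker (fderiv ℝ F p : R4 →ₗ[ℝ] R4) = ⊥ :=
    LinearMap.ker_eq_bot.2 h1
  intro h0
  have h3 : LinearMap.det (fderiv ℝ F p : R4 →ₗ[ℝ] R4) = 0 := h0
  have h4 := LinearMap.bot_lt_ker_of_det_eq_zero h3
  rw [h2] at h4
  exact lt_irrefl _ h4

private theorem det_cont {F : R4 → R4} {p : R4} (h : LD F p) :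
    ContinuousAt (fun q => (fderiv ℝ F q).det) p := by
  have h1 := (ld_iff.1 h).1.self_of_nhds
  have h2 : ContinuousAt (fderiv ℝ F) p :=
    (h1.fderiv_right (m := ∞) (by simp)).continuousAt
  exact ContinuousLinearMap.continuous_det.continuousAt.comp h2

end DET

theorem m_DET : StDET := by
  intro F L hL hLD p hp q hq h
  have hpre : IsPreconnected L := by
    rcases hL with rfl | rfl | rfl
    · exact DET.pre_FB
    · exact (DET.convex_flat 0).isPreconnected
    · exact (DET.convex_flat 1).isPreconnected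
  by_contra hneg
  have hq0 : (fderiv ℝ F q).det ≤ 0 := not_lt.1 hneg
  have hc : ContinuousOn (fun x => (fderiv ℝ F x).det) L :=
    fun x hx => (DET.det_cont (hLD x hx)).continuousWithinAt
  have h1 := hpre.intermediate_value hq hp hc
  obtain ⟨x, hx, hx0⟩ := h1 ⟨hq0, h.le⟩
  exact DET.det_ne (hLD x hx) hx0

end Pool.Agent.Helper70.BI
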