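import Pool.Agent.Helper70.BI.StL

/-!
# Project BI, part (E), module E-FML: the family of germs joining a germ to its lasso
-/

set_option autoImplicit false

open scoped Manifold ContDiff Topology ComplexConjugate
open Set Filter Pool.Agent.Helper65.Barb Pool.Agent.Helper18.BI

namespace Pool.Agent.Helper70.BI

open Pool.Agent.Helper34.BI (cfac BarData barFam PreCross BFam GenData cst crv mem_neck
  sph_zero_le le_sph_one rsq_nonneg_aux neck_eq)

namespace FML

/-- the contraction used in this file -/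
structure Contr (lam : ℝ) : Prop where
  pos : 0 < lam
  cont : Continuous (clc 1 lam)
  emb : EmbOn I4 (clc 1 lam) univ
  fst : ∀ p, (clc 1 lam p).1 = p.1
  form : ∀ p : R4, rsq 1 p ≤ 1 / 20 → clc 1 lam p = (p.1, pc 1 + lam • (p.2 - pc 1))
  far : ∀ p : R4, 9 / 100 ≤ rsq 1 p → clc 1 lam p = p
  axis : ∀ a, clc 1 lam (ax a) = ax (bb lam a)
  le : ∀ p : R4, rsq 1 (clc 1 lam p) ≤ rsq 1 p
  mono : StrictMono (bb lam)

theorem contr (hCL : StCL) {lam : ℝ} (h0 : 0 < lam) (h1 : lam ≤ 1) : Contr lam := by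
  obtain ⟨c1, -, c3⟩ := hCL 1 (Or.inr rfl)
  obtain ⟨c4, c5, c6, c7, c8, c9, c10⟩ := c3 lam ⟨h0, h1⟩
  refine ⟨h0, ?_, c4, c5, c6, c7, c8, c9, strictMono_of_deriv_pos c10⟩
  exact c1.continuous.comp (f := fun p : R4 => (lam, p)) (by fun_prop)

theorem continuous_rsq' (c : ℝ) : Continuous (rsq c) := by
  unfold rsq nsq
  fun_prop

theorem far_sph_zero {p : R4} (hp : p ∈ sph 0) : 9 / 100 < rsq 1 p := by
  have h1 := rsq_nonneg_aux 1 p
  have h2 := sph_zero_le hp
  nlinarith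

theorem le_flat {p : R4} (hp : p ∈ flat 1) : 4 / 5 ≤ p.2.1 := by
  have h1 := rsq_nonneg_aux 1 p
  have h2 := hp.2
  nlinarith

theorem ax_inj {a b : ℝ} (h : ax a = ax b) : a = b := congrArg (fun p : R4 => p.2.1) h

theorem rsq_ax (a : ℝ) : rsq 1 (ax a) = (a - 1) ^ 2 := by
  simp [rsq, nsq, ax]

theorem ax_one_mem : ax 1 ∈ flat 1 := by
  refine ⟨rfl, ?_⟩
  rw [rsq_ax]
  norm_num

namespace Contr
variable {lam : ℝ} (C : Contr lam)
include C

theorem bb_eq {a : ℝ} (h : a ≤ 7 / 10) : bb lam a = a := by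
  apply ax_inj
  rw [← C.axis a, C.far]
  rw [rsq_ax]
  nlinarith

omit C in
theorem bb_one : bb lam 1 = 1 := by
  simp [bb]

theorem bb_mem {a : ℝ} (h : a ∈ Icc (1 / 5 : ℝ) (4 / 5)) : bb lam a ∈ Icc (1 / 5 : ℝ) 1 := by
  constructor
  · have h1 := C.mono.monotone h.1
    rwa [C.bb_eq (by norm_num : (1 / 5 : ℝ) ≤ 7 / 10)] at h1
  · have h1 := C.mono.monotone (show a ≤ 1 by linarith [h.2])
    rwa [bb_one] at h1

theorem mem_flat {p : R4} (h : p ∈ flat 1) : clc 1 lam p ∈ flat 1 :=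
  ⟨(C.fst p).trans h.1, (C.le p).trans h.2⟩

/-- near the flat ball the contraction takes values near the centre -/
theorem near {p : R4} (h : p ∈ flat 1) {ε : ℝ} (hε : lam < ε) :
    ∀ᶠ q in 𝓝 p, ‖clc 1 lam q - ax 1‖ < ε := by
  have hc : Continuous (fun q => ‖clc 1 lam q - ax 1‖) := (C.cont.sub continuous_const).norm
  refine (isOpen_lt hc continuous_const).mem_nhds ?_
  show ‖clc 1 lam p - ax 1‖ < ε
  have h2 : rsq 1 p ≤ 1 / 25 := h.2
  rw [C.form p (h2.trans (by norm_num))]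
  have e : ((p.1, pc 1 + lam • (p.2 - pc 1)) : R4) - ax 1 = (0, lam • (p.2 - pc 1)) := by
    have h1 : p.1 = 1 / 2 := h.1
    have e1 : ax 1 = ((1 / 2, pc 1) : R4) := rfl
    rw [e1, Prod.mk_sub_mk, h1, sub_self, add_sub_cancel_left]
  rw [e]
  have h3 : ‖p.2 - pc 1‖ ≤ 1 := by
    have h4 : (p.2.1 - 1) ^ 2 + p.2.2.re ^ 2 + p.2.2.im ^ 2 ≤ 1 / 25 := h2
    refine (norm_prod_le_iff).2 ⟨?_, ?_⟩
    · have : (p.2 - pc 1).1 = p.2.1 - 1 := rfl
      rw [this, Real.norm_eq_abs, abs_le]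
      constructor <;> nlinarith [sq_nonneg p.2.2.re, sq_nonneg p.2.2.im]
    · have : (p.2 - pc 1).2 = p.2.2 := by
        show p.2.2 - 0 = p.2.2
        rw [sub_zero]
      rw [this]
      have h5 := Complex.sq_norm p.2.2
      rw [Complex.normSq_apply] at h5
      nlinarith [norm_nonneg p.2.2, sq_nonneg (p.2.1 - 1)]
  refine lt_of_le_of_lt ?_ hε
  refine (norm_prod_le_iff).2 ⟨by simpa using C.pos.le, ?_⟩
  show ‖lam • (p.2 - pc 1)‖ ≤ lam
  rw [norm_smul, Real.norm_of_nonneg C.pos.le]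
  nlinarith [C.pos]

/-- near the flat ball the contracted germ is the contraction -/
theorem eq_flat {F : R4 → R4} {γ e δ : ℝ} (N : NB 1 F γ e δ) (hl : lam < δ) {p : R4}
    (h : p ∈ flat 1) : (fun p => F (clc 1 lam p)) =ᶠ[𝓝 p] clc 1 lam := by
  filter_upwards [C.near h hl] with q hq
  exact N.near _ hq

/-- near the first cuff the contraction is the identity -/
theorem eq_sph {p : R4} (h : p ∈ sph 0) : ∀ᶠ q in 𝓝 p, clc 1 lam q = q := by
  have h1 : ∀ᶠ q in 𝓝 p, 9 / 100 < rsq 1 q :=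
    (isOpen_lt continuous_const (continuous_rsq' 1)).mem_nhds (far_sph_zero h)
  filter_upwards [h1] with q hq
  exact C.far q (le_of_lt hq)

end Contr

theorem core_mid {F : R4 → R4} {d δ : ℝ} (N : NB 1 F (2 / 5) d δ) :
    core F (2 / 5) = F (ax 1) := by
  rw [N.str (2 / 5) (by simpa using N.pos), N.near (ax 1) (by simpa using N.pos)]
  simp [ax, pc]

/-- the framing lemma in the form used here -/
theorem eqv_fr (hFr : StFr) {F F' : R4 → R4} (h1 : EmbOn I4 F SP) (h2 : EmbOn I4 F' SP)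
    (h3 : ∀ p ∈ sph 0 ∪ sph 1, F =ᶠ[𝓝 p] F')
    (h4 : ∀ a ∈ Icc (1 / 5 : ℝ) (4 / 5), F (ax a) = F' (ax a)) : Eqv F F' := by
  obtain ⟨U, u1, u2, u3⟩ := nearEq_of_eventuallyEq h3
  refine hFr F F' U h1 h2 u1 u2 u3 fun p hp => ?_
  rw [neck_eq hp]
  exact h4 p.2.1 ⟨hp.2.1, hp.2.2.1⟩

theorem sph_sub_flat : sph 1 ⊆ flat 1 := fun _ hp => ⟨hp.1, hp.2.le⟩

end FML

open FML

/-- **FML.** The family of germs joining a germ to its lasso. -/
theorem m_FML (hFML1 : StFML1) (hCL : StCL) (hCTR : StCTR) (hFr : StFr)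
    (hCH : Pool.Agent.Helper34.BI.StCH) : StFML := by
  intro F F' d δ δ' r δ₂ H hd L hδ hδ' A
  obtain ⟨lam, l0, l1, l2, l3, -, G, only, late⟩ := hFML1 F F' d δ δ' r δ₂ H hd L hδ hδ' A
  have C : Contr lam := contr hCL l0 (by linarith)
  have z : (1 : ℝ) - 1 = 0 := by norm_num
  -- the contracted germs
  obtain ⟨eF, qF⟩ := hCTR 1 F (2 / 5) (Or.inr rfl) L.nb.br.loc L.nb.br.inj L.nb.br.injF
    (core_mid L.nb) L.nb.br.only lam ⟨l0, by linarith⟩
  obtain ⟨eF', qF'⟩ := hCTR 1 F' (2 / 5) (Or.inr rfl) L.nb'.br.loc L.nb'.br.inj L.nb'.br.injF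
    (core_mid L.nb') L.nb'.br.only lam ⟨l0, by linarith⟩
  set Fl : R4 → R4 := fun p => F (clc 1 lam p) with hFl
  set Gl : R4 → R4 := fun p => F' (clc 1 lam p) with hGl
  have near : ∀ p ∈ sph 0 ∪ sph 1, Fl =ᶠ[𝓝 p] Gl := by
    rintro p (hp | hp)
    · have h1 := L.near.eventuallyEq hp
      filter_upwards [C.eq_sph hp, h1] with q hq1 hq2
      show F (clc 1 lam q) = F' (clc 1 lam q)
      rw [hq1, hq2]
    · exact (C.eq_flat L.nb l2 (sph_sub_flat hp)).trans (C.eq_flat L.nb' l3 (sph_sub_flat hp)).symm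
  -- the family
  set c₀ : ℝ → R4 := fun a => H (0, bb lam a) with hc₀
  set Hl : ℝ × ℝ → R4 := fun z => H (z.1, bb lam z.2) with hHl
  set J : ℝ × R4 → R4 := barFam Gl c₀ Hl (1 / 50) with hJ
  have B : BarData Gl c₀ Hl (1 / 50) := G.bar
  have Jfl : ∀ (t : ℝ) (p : R4), 4 / 5 - 1 / 100 ≤ p.2.1 → J (t, p) = Gl p := fun t p hp =>
    B.barFam_eq (Or.inr (by linarith))
  have Jcuff : ∀ t : ℝ, ∀ p ∈ sph 0 ∪ sph 1, J (t, p) = Gl p := fun t p hp => G.cuff_val t hp
  have Jcuffe : ∀ t : ℝ, ∀ p ∈ sph 0 ∪ sph 1, Gl =ᶠ[𝓝 p] fun p => J (t, p) := by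
    intro t p hp
    have h1 := G.cuff_eventually t hp
    have hcont : Continuous (fun q : R4 => (t, q)) := by fun_prop
    filter_upwards [hcont.continuousAt.eventually h1] with q hq
    exact hq.symm
  have Jflat : ∀ t : ℝ, ∀ p ∈ flat 1, (fun p => J (t, p)) =ᶠ[𝓝 p] Gl := by
    intro t p hp
    have h1 : ∀ᶠ q : R4 in 𝓝 p, 4 / 5 - 1 / 100 < q.2.1 :=
      (isOpen_lt continuous_const (by fun_prop)).mem_nhds
        (show 4 / 5 - 1 / 100 < p.2.1 by linarith [le_flat hp])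
    filter_upwards [h1] with q hq
    exact Jfl t q hq.le
  have Jval : ∀ t : ℝ, ∀ p ∈ flat 1, J (t, p) = Gl p := fun t p hp =>
    Jfl t p (by linarith [le_flat hp])
  have Jneck : ∀ t : ℝ, ∀ a ∈ Icc (1 / 5 : ℝ) (4 / 5), J (t, ax a) = H (t, bb lam a) :=
    fun t a ha => B.barFam_neck ha.1 ha.2
  have Jax : ∀ t : ℝ, (fun p => J (t, p)) =ᶠ[𝓝 (ax 1)] clc 1 lam := fun t =>
    (Jflat t (ax 1) ax_one_mem).trans (C.eq_flat L.nb' l3 ax_one_mem)
  -- the members of the family at the ends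
  have e0 : EmbOn I4 (fun p => J (0, p)) SP := B.embOn (G.imm 0) G.injF (G.injH 0) G.dis₀
  have e1 : EmbOn I4 (fun p => J (1, p)) SP := B.embOn (G.imm 1) G.injF (G.injH 1) G.dis₁
  refine ⟨J, ?_, e0, e1, ?_, ?_⟩
  · refine ⟨fun t p hp => B.eventually_smooth t hp, ?_, (G.bfam hCH).finite, ?_, ?_, ?_, ?_, ?_⟩
    · rintro t p (hp | hp)
      · exact B.isLocalDiffeomorphAt (G.imm t) hp
      · exact ld_congr ((Jflat t p hp).trans (C.eq_flat L.nb' l3 hp)).symm (C.emb.1 p (mem_univ _))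
    · intro t ht
      obtain ⟨u, hu, hm⟩ := G.exists_crossing ht
      obtain ⟨h1, p, hp, he⟩ := late t u hu hm
      exact ⟨u, p, h1, G.preCross_zero hCH hu hp he⟩
    · intro t t' p hp
      rw [Jval t p hp, Jval t' p hp]
    · intro t p hp q hq he
      have key : ∀ p ∈ flat 1 ∪ sph 0, J (t, p) = Gl p ∧ clc 1 lam p ∈ flat 1 ∪ sph (1 - 1) := by
        rintro p (hp | hp)
        · exact ⟨Jval t p hp, Or.inl (C.mem_flat hp)⟩
        · refine ⟨Jcuff t p (Or.inl hp), Or.inr ?_⟩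
          rw [z, C.far p (far_sph_zero hp).le]
          exact hp
      simp only at he
      rw [(key p hp).1, (key q hq).1] at he
      exact C.emb.2 (mem_univ _) (mem_univ _)
        (L.nb'.br.injF (key p hp).2 (key q hq).2 he)
    · intro t
      have hm : (2 / 5 : ℝ) ∈ Icc (1 / 5 : ℝ) (4 / 5) := by constructor <;> norm_num
      have hval : ∀ a, |a - 2 / 5| < min δ₂ (1 / 10) →
          J (t, ax a) = (1 / 2 + d * (a - 2 / 5), pc 1) := by
        intro a ha
        have h1 := abs_lt.1 (lt_of_lt_of_le ha (min_le_right _ _))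
        rw [Jneck t a ⟨by linarith, by linarith⟩, C.bb_eq (by linarith)]
        exact A.mid t a (lt_of_lt_of_le ha (min_le_left _ _)).le
      have hpos : 0 < min δ₂ (1 / 10) := lt_min A.pos (by norm_num)
      have fix : clc 1 lam (ax 1) = ax 1 := by rw [C.axis, Contr.bb_one]
      refine ⟨pc 1, ?_, ?_, d, 0, ?_, ?_⟩
      · simp [nsq]
      · show J (t, ax (2 / 5)) = J (t, ax 1)
        rw [hval _ (by simpa using hpos), (Jax t).eq_of_nhds, fix]
        simp [ax, pc]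
      · rcases hd with rfl | rfl <;> norm_num
      · -- the derivative along the bar
        have hloc : LD (fun p => J (t, p)) (ax (2 / 5)) :=
          B.isLocalDiffeomorphAt (G.imm t) (Or.inr (mem_neck hm.1 hm.2))
        have d1 : HasFDerivAt (fun p => J (t, p)) (fderiv ℝ (fun p => J (t, p)) (ax (2 / 5)))
            (ax (2 / 5)) :=
          ((ld_iff.1 hloc).1.self_of_nhds.differentiableAt (by simp)).hasFDerivAt
        have l : HasDerivAt (fun a : ℝ => ax a) (0, ((1 : ℝ), (0 : ℂ))) (2 / 5) :=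
          (hasDerivAt_const _ _).prodMk ((hasDerivAt_id _).prodMk (hasDerivAt_const _ _))
        have d2 := HasFDerivAt.comp_hasDerivAt_of_eq (2 / 5 : ℝ) d1 l rfl
        have d3 : HasDerivAt (fun a : ℝ => (((1 / 2 + d * (a - 2 / 5), pc 1) : R4)))
            (d, 0) (2 / 5) := by
          have h1 : HasDerivAt (fun a : ℝ => 1 / 2 + d * (a - 2 / 5)) (d * 1) (2 / 5) :=
            (((hasDerivAt_id (2 / 5 : ℝ)).sub_const _).const_mul d).const_add _
          rw [mul_one] at h1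
          exact h1.prodMk (hasDerivAt_const _ _)
        have d4 : HasDerivAt ((fun p => J (t, p)) ∘ fun a => ax a) (d, 0) (2 / 5) := by
          refine d3.congr_of_eventuallyEq ?_
          have h1 : ∀ᶠ a : ℝ in 𝓝 (2 / 5), |a - 2 / 5| < min δ₂ (1 / 10) :=
            (isOpen_lt (by fun_prop) continuous_const).mem_nhds
              (show |(2 / 5 : ℝ) - 2 / 5| < min δ₂ (1 / 10) by simpa using hpos)
          filter_upwards [h1] with a ha
          exact hval a ha
        rw [d2.unique d4]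
        -- the derivative at the centre of the ball
        have g1 : (fun p => J (t, p)) =ᶠ[𝓝 (ax 1)]
            fun p : R4 => (p.1, pc 1 + lam • (p.2 - pc 1)) := by
          have h1 : ∀ᶠ q : R4 in 𝓝 (ax 1), rsq 1 q < 1 / 20 :=
            (isOpen_lt (continuous_rsq' 1) continuous_const).mem_nhds
              (show rsq 1 (ax 1) < 1 / 20 by rw [rsq_ax]; norm_num)
          filter_upwards [Jax t, h1] with q hq1 hq2
          rw [hq1, C.form q hq2.le]
        have g2 : HasFDerivAt (fun p : R4 => ((p.1, pc 1 + lam • (p.2 - pc 1)) : R4))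
            ((ContinuousLinearMap.fst ℝ ℝ R3).prod (lam • ContinuousLinearMap.snd ℝ ℝ R3))
            (ax 1) := by
          refine HasFDerivAt.prodMk (hasFDerivAt_fst) ?_
          exact ((hasFDerivAt_snd.sub_const _).const_smul lam).const_add _
        show ((d, 0) : R4) = fderiv ℝ (fun p => J (t, p)) (ax 1) (d, 0)
        rw [(g2.congr_of_eventuallyEq g1).fderiv]
        simp
    · intro t a ha hm
      refine only t a ha ?_
      obtain ⟨p, hp, he⟩ := hm
      refine ⟨p, hp, ?_⟩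
      rw [← Jneck t a ha]
      exact (Jval t p hp).symm.trans he
  · refine qF'.trans (eqv_fr hFr eF' e0 (Jcuffe 0) fun a ha => ?_)
    rw [Jneck 0 a ha]
    exact G.core a ha
  · refine qF.trans (eqv_fr hFr eF e1 (fun p hp => (near p hp).trans (Jcuffe 1 p hp))
      fun a ha => ?_)
    rw [Jneck 1 a ha, A.stop _ (C.bb_mem ha)]
    show F (clc 1 lam (ax a)) = F (ax (bb lam a))
    rw [C.axis]

end Pool.Agent.Helper70.BI
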