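import Pool.Agent.Helper70.BI.StL

/-!
# Project BI, part (E), module FML1: the contracted family of arcs
-/

set_option autoImplicit false

open scoped Manifold ContDiff Topology ComplexConjugate
open Set Filter Pool.Agent.Helper65.Barb Pool.Agent.Helper18.BI

namespace Pool.Agent.Helper70.BI

open Pool.Agent.Helper34.BI (cfac GenData ArcFamily cst crv st)

namespace FML1

/-! ### the function `bb lam` -/

private theorem cfac_one (lam q : ℝ) (h : 9 / 100 ≤ q) : cfac lam q = 1 := by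
  unfold cfac
  have : step ((q - 1 / 20) / (1 / 25)) = 1 :=
    Real.smoothTransition.one_of_one_le (by rw [le_div_iff₀ (by norm_num)]; linarith)
  rw [this]; ring

private theorem cfac_lam (lam q : ℝ) (h : q ≤ 1 / 20) : cfac lam q = lam := by
  unfold cfac
  have : step ((q - 1 / 20) / (1 / 25)) = 0 :=
    Real.smoothTransition.zero_of_nonpos (div_nonpos_of_nonpos_of_nonneg (by linarith)
      (by norm_num))
  rw [this]; ring

private theorem bb_low (lam : ℝ) {a : ℝ} (h : a ≤ 7 / 10) : bb lam a = a := by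
  unfold bb
  rw [cfac_one lam _ (by nlinarith)]; ring

private theorem bb_high (lam : ℝ) {a : ℝ} (h : 39 / 50 ≤ a) (h' : a ≤ 1) :
    bb lam a = 1 - lam * (1 - a) := by
  unfold bb
  rw [cfac_lam lam _ (by nlinarith)]; ring

private theorem contDiff_bb (lam : ℝ) : ContDiff ℝ ∞ (bb lam) := by
  have h : ContDiff ℝ ∞ (fun q : ℝ => cfac lam q) := by
    unfold cfac step
    exact contDiff_const.add (contDiff_const.mul
      (Real.smoothTransition.contDiff.comp ((contDiff_id.sub contDiff_const).div_const _)))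
  have h2 : ContDiff ℝ ∞ (fun a : ℝ => (a - 1) ^ 2) := by fun_prop
  unfold bb
  exact contDiff_const.add ((h.comp h2).mul (contDiff_id.sub contDiff_const))

private theorem deriv_bb (hCL : StCL) {lam : ℝ} (h : lam ∈ Ioc (0 : ℝ) 1) (a : ℝ) :
    0 < deriv (bb lam) a := by
  obtain ⟨-, -, h2⟩ := hCL 1 (Or.inr rfl)
  exact (h2 lam h).2.2.2.2.2.2 a

private theorem strictMono_bb (hCL : StCL) {lam : ℝ} (h : lam ∈ Ioc (0 : ℝ) 1) :
    StrictMono (bb lam) := strictMono_of_deriv_pos (deriv_bb hCL h)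

/-! ### norms -/

private theorem rsq_ax (a : ℝ) : rsq 1 (ax a) = (a - 1) ^ 2 := by
  simp [rsq, nsq, ax]

private theorem norm_ax_sub (x : ℝ) : ‖ax x - ax 1‖ = |x - 1| := by
  simp [ax, Prod.norm_def]

private theorem norm_le_of_rsq {q : R4} {e : ℝ} (he : 0 ≤ e) (h1 : q.1 = 1 / 2)
    (h2 : rsq 1 q ≤ e ^ 2) : ‖q - ax 1‖ ≤ e := by
  simp only [rsq, nsq] at h2
  have e1 : |q.2.1 - 1| ≤ e := by
    apply abs_le_of_sq_le_sq _ he
    linarith only [h2, sq_nonneg q.2.2.re, sq_nonneg q.2.2.im]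
  have e2 : ‖q.2.2‖ ≤ e := by
    apply le_of_sq_le_sq _ he
    rw [← Complex.normSq_eq_norm_sq, Complex.normSq_apply]
    linarith only [h2, sq_nonneg (q.2.1 - 1)]
  rw [Prod.norm_def, Prod.norm_def]
  refine max_le ?_ (max_le ?_ ?_)
  · simp [ax, h1, he]
  · simpa [ax] using e1
  · simpa [ax] using e2

private theorem sph0_far {p : R4} (h : p ∈ sph 0) : 9 / 100 ≤ rsq 1 p := by
  have h2 := h.2
  rw [rsq_one_eq, h2]
  have h3 := sq_le_rsq p
  rw [h2] at h3
  have h4 : p.2.1 ≤ 1 / 5 := by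
    refine (abs_le_of_sq_le_sq' ?_ (by norm_num)).2
    linarith only [h3]
  linarith

/-! ### the charts of the cuffs -/

private theorem nsq_st (y : ℂ) : nsq (st y) = 1 := by
  have h0 : 0 ≤ Complex.normSq y := Complex.normSq_nonneg y
  have h1 : Complex.normSq y + 1 ≠ 0 := by positivity
  have h2 : Complex.normSq y = y.re * y.re + y.im * y.im := Complex.normSq_apply y
  simp only [st, nsq, Complex.real_smul, Complex.mul_re, Complex.mul_im, Complex.ofReal_re,
    Complex.ofReal_im, zero_mul, sub_zero, add_zero]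
  have h3 : y.re ^ 2 = Complex.normSq y - y.im ^ 2 := by rw [h2]; ring
  field_simp
  rw [h3]
  ring

private theorem cst_false_mem (y : ℂ) : cst false y ∈ sph 0 := by
  have h := nsq_st y
  refine ⟨rfl, ?_⟩
  simp only [cst, rsq, nsq, Complex.real_smul, Complex.mul_re, Complex.mul_im, Complex.ofReal_re,
    Complex.ofReal_im, zero_mul, sub_zero, add_zero, Bool.false_eq_true, if_false] at h ⊢
  linear_combination (1 / 25) * h

private theorem cst_true_mem (y : ℂ) : cst true y ∈ sph 1 := by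
  have h := nsq_st y
  refine ⟨rfl, ?_⟩
  simp only [cst, rsq, nsq, Complex.real_smul, Complex.mul_re, Complex.mul_im, Complex.ofReal_re,
    Complex.ofReal_im, zero_mul, sub_zero, add_zero, if_true] at h ⊢
  nlinarith

private theorem crv_false_mem (θ : ℝ) : crv false θ ∈ sph 0 := by
  have h := Real.sin_sq_add_cos_sq θ
  refine ⟨rfl, ?_⟩
  simp only [crv, rsq, nsq, Bool.false_eq_true, if_false]
  linear_combination (1 / 25) * h

private theorem crv_true_mem (θ : ℝ) : crv true θ ∈ sph 1 := by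
  have h := Real.sin_sq_add_cos_sq θ
  refine ⟨rfl, ?_⟩
  simp only [crv, rsq, nsq, if_true]
  linear_combination (1 / 25) * h

/-! ### derivatives -/

private theorem fderiv_Hl {H : ℝ × ℝ → R4} (hH : ContDiff ℝ ∞ H) (lam : ℝ) (x ζ : ℝ × ℝ) :
    fderiv ℝ (fun z : ℝ × ℝ => H (z.1, bb lam z.2)) x ζ =
      fderiv ℝ H (x.1, bb lam x.2) (ζ.1, deriv (bb lam) x.2 * ζ.2) := by
  have hb : HasDerivAt (bb lam) (deriv (bb lam) x.2) x.2 :=
    ((contDiff_bb lam).differentiable (by simp) x.2).hasDerivAt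
  have h1 : HasFDerivAt (fun z : ℝ × ℝ => (z.1, bb lam z.2))
      ((ContinuousLinearMap.fst ℝ ℝ ℝ).prod
        ((ContinuousLinearMap.toSpanSingleton ℝ (deriv (bb lam) x.2)).comp
          (ContinuousLinearMap.snd ℝ ℝ ℝ))) x :=
    hasFDerivAt_fst.prodMk (hb.hasFDerivAt.comp x hasFDerivAt_snd)
  have h2 : HasFDerivAt H (fderiv ℝ H (x.1, bb lam x.2)) (x.1, bb lam x.2) :=
    (hH.differentiable (by simp) _).hasFDerivAt
  have h3 := (h2.comp x h1).fderiv
  have h4 : (H ∘ fun z : ℝ × ℝ => (z.1, bb lam z.2)) = fun z : ℝ × ℝ => H (z.1, bb lam z.2) := rfl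
  rw [h4] at h3
  rw [h3]
  simp [mul_comm]

private theorem deriv_Hl {H : ℝ × ℝ → R4} (hH : ContDiff ℝ ∞ H) (lam t a : ℝ) :
    deriv (fun a => H (t, bb lam a)) a =
      deriv (bb lam) a • fderiv ℝ H (t, bb lam a) (0, 1) := by
  have hb : HasDerivAt (bb lam) (deriv (bb lam) a) a :=
    ((contDiff_bb lam).differentiable (by simp) a).hasDerivAt
  have h1 : HasDerivAt (fun a : ℝ => (t, bb lam a)) (0, deriv (bb lam) a) a :=
    (hasDerivAt_const a t).prodMk hb
  have h2 : HasFDerivAt H (fderiv ℝ H (t, bb lam a)) (t, bb lam a) :=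
    (hH.differentiable (by simp) _).hasFDerivAt
  have h3 := (HasFDerivAt.comp_hasDerivAt_of_eq a h2 h1 rfl).deriv
  have h4 : (H ∘ fun a : ℝ => (t, bb lam a)) = fun a : ℝ => H (t, bb lam a) := rfl
  rw [h4] at h3
  rw [h3, ← map_smul]
  simp

end FML1

open FML1 in
theorem m_FML1 (hCL : StCL) (hCTR : StCTR) : StFML1 := by
  intro F F' d δ δ' r δ₂ H hd hL h2δ h2δ' hA
  have hδ1 : δ ≤ 1 / 100 := hL.nb.small
  have hr1 : r < 1 / 100 := lt_of_lt_of_le hL.lt hδ1
  have hδ₂ := hA.pos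
  have hδ₂r := hA.small
  have hr0 := hL.pos
  have hd0 : d ≠ 0 := by rcases hd with rfl | rfl <;> norm_num
  -- the lower bound
  obtain ⟨μ, hμ, hμ'⟩ : ∃ μ : ℝ, 0 < μ ∧ ∀ t, ∀ a ∈ Icc (1 / 5 : ℝ) (1 - δ₂), δ₂ ≤ |a - 2 / 5| →
      μ ≤ ‖H (t, a) - ax 1‖ := by
    have hc : Continuous (fun z : ℝ × ℝ => ‖H z - ax 1‖) :=
      (hA.smooth.continuous.sub continuous_const).norm
    let K : Set (ℝ × ℝ) := Icc (0 : ℝ) 1 ×ˢ (Icc (1 / 5 : ℝ) (1 - δ₂) ∩ {a | δ₂ ≤ |a - 2 / 5|})
    have hK : IsCompact K := by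
      refine isCompact_Icc.prod (isCompact_Icc.inter_right ?_)
      exact isClosed_le continuous_const (by fun_prop)
    have hne : K.Nonempty := by
      refine ⟨(0, 1 / 5), ⟨by norm_num, by norm_num⟩, ⟨le_rfl, by linarith only [hδ₂r, hr1]⟩, ?_⟩
      change δ₂ ≤ |1 / 5 - 2 / 5|
      rw [abs_of_neg (by norm_num)]; linarith only [hδ₂r, hr1]
    obtain ⟨z, hz, hmin⟩ := hK.exists_isMinOn hne hc.continuousOn
    refine ⟨‖H z - ax 1‖, ?_, ?_⟩
    · rw [norm_pos_iff, sub_ne_zero]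
      intro h
      obtain ⟨-, ⟨h3, h4⟩, h5⟩ := hz
      have h6 := hA.ne z.1 z.2 ⟨h3, by linarith only [h4, hδ₂]⟩ h
      have h7 : δ₂ ≤ |z.2 - 2 / 5| := h5
      rw [h6] at h7
      rw [sub_self, abs_zero] at h7
      linarith only [h7, hδ₂]
    · intro t a ha ha'
      rcases le_total t 0 with ht | ht
      · rw [hA.left t a ht]
        exact hmin (show ((0 : ℝ), a) ∈ K from ⟨⟨le_rfl, zero_le_one⟩, ha, ha'⟩)
      · rcases le_total t 1 with ht' | ht'
        · exact hmin (show (t, a) ∈ K from ⟨⟨ht, ht'⟩, ha, ha'⟩)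
        · rw [hA.right t a ht']
          exact hmin (show ((1 : ℝ), a) ∈ K from ⟨⟨zero_le_one, le_rfl⟩, ha, ha'⟩)
  -- the choice of `lam`
  have hδ0 : 0 < δ := hL.nb.pos
  have hδ'0 : 0 < δ' := hL.nb'.pos
  obtain ⟨lam, hl0, hl1, hlμ, hlδ, hlδ', hlδ₂⟩ : ∃ lam : ℝ, 0 < lam ∧ lam ≤ 1 / 2 ∧ lam < μ ∧
      lam < δ ∧ lam < δ' ∧ lam < δ₂ := by
    have hm : 0 < min (1 / 2) (min μ (min δ (min δ' δ₂))) :=
      lt_min (by norm_num) (lt_min hμ (lt_min hδ0 (lt_min hδ'0 hδ₂)))
    refine ⟨min (1 / 2) (min μ (min δ (min δ' δ₂))) / 2, ?_, ?_, ?_, ?_, ?_, ?_⟩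
    · exact half_pos hm
    · exact (half_lt_self hm).le.trans (min_le_left _ _)
    · exact (half_lt_self hm).trans_le ((min_le_right _ _).trans (min_le_left _ _))
    · exact (half_lt_self hm).trans_le
        ((min_le_right _ _).trans ((min_le_right _ _).trans (min_le_left _ _)))
    · exact (half_lt_self hm).trans_le
        ((min_le_right _ _).trans ((min_le_right _ _).trans ((min_le_right _ _).trans
          (min_le_left _ _))))
    · exact (half_lt_self hm).trans_le
        ((min_le_right _ _).trans ((min_le_right _ _).trans ((min_le_right _ _).trans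
          (min_le_right _ _))))
  have hlI : lam ∈ Ioc (0 : ℝ) 1 := ⟨hl0, by linarith only [hl1]⟩
  obtain ⟨-, -, hCL'⟩ := hCL 1 (Or.inr rfl)
  obtain ⟨-, -, hclc, hclf, hclax, -, -⟩ := hCL' lam hlI
  have hbm : StrictMono (bb lam) := strictMono_bb hCL hlI
  have hbd := deriv_bb hCL hlI
  have hb1 : bb lam (1 / 5) = 1 / 5 := bb_low lam (by norm_num)
  have hb2 : bb lam (2 / 5) = 2 / 5 := bb_low lam (by norm_num)
  have hb4 : bb lam (4 / 5) = 1 - lam / 5 := by
    rw [bb_high lam (by norm_num) (by norm_num)]; ring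
  have hbI : ∀ a ∈ Icc (1 / 5 : ℝ) (4 / 5), bb lam a ∈ Icc (1 / 5 : ℝ) (1 - lam / 5) := by
    intro a ha
    rw [← hb1, ← hb4]
    rw [hb1]
    constructor
    · calc (1 / 5 : ℝ) = bb lam (1 / 5) := hb1.symm
        _ ≤ bb lam a := hbm.monotone ha.1
    · exact hbm.monotone ha.2
  have hbO : ∀ a ∈ Icc (1 / 5 : ℝ) (4 / 5), bb lam a ∈ Ico (1 / 5 : ℝ) 1 := fun a ha =>
    ⟨(hbI a ha).1, by linarith only [(hbI a ha).2, hl0]⟩
  have hbO' : ∀ a ∈ Ioo (1 / 5 : ℝ) (4 / 5), bb lam a ∈ Ioo (1 / 5 : ℝ) 1 := fun a ha =>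
    ⟨by rw [← hb1]; rw [hb1]; calc (1 / 5 : ℝ) = bb lam (1 / 5) := hb1.symm
                                  _ < bb lam a := hbm ha.1,
      (hbO a ⟨ha.1.le, ha.2.le⟩).2⟩
  -- the germ near the second flat ball
  have hfl : ∀ p ∈ flat 1, (F' (clc 1 lam p)).1 = 1 / 2 ∧
      rsq 1 (F' (clc 1 lam p)) = lam ^ 2 * rsq 1 p := by
    intro p hp
    have h1 := hclc p (hp.2.trans (by norm_num))
    have h2 : rsq 1 (clc 1 lam p) = lam ^ 2 * rsq 1 p := by
      rw [h1]
      simp only [rsq, nsq, pc, Prod.fst_add, Prod.snd_add, Prod.smul_fst, Prod.smul_snd,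
        Prod.fst_sub, Prod.snd_sub, smul_eq_mul, Complex.real_smul, Complex.add_re,
        Complex.add_im, Complex.zero_re, Complex.zero_im, Complex.mul_re, Complex.mul_im,
        Complex.ofReal_re, Complex.ofReal_im, Complex.sub_re, Complex.sub_im]
      ring
    have h3 : (clc 1 lam p).1 = 1 / 2 := by rw [h1]; exact hp.1
    have h4 : ‖clc 1 lam p - ax 1‖ ≤ lam := by
      refine norm_le_of_rsq hl0.le h3 ?_
      rw [h2]
      have h5 : rsq 1 p ≤ 1 := hp.2.trans (by norm_num)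
      calc lam ^ 2 * rsq 1 p ≤ lam ^ 2 * 1 := mul_le_mul_of_nonneg_left h5 (sq_nonneg lam)
        _ = lam ^ 2 := mul_one _
    rw [hL.nb'.near _ (lt_of_le_of_lt h4 hlδ')]
    exact ⟨h3, h2⟩
  -- the claim
  have claim : ∀ t, ∀ a ∈ Icc (1 / 5 : ℝ) (4 / 5), (H (t, bb lam a)).1 = 1 / 2 →
      rsq 1 (H (t, bb lam a)) ≤ (lam / 5) ^ 2 → a = 4 / 5 ∨ a = 2 / 5 := by
    intro t a ha h1 h2
    have hx := hbI a ha
    have hn := norm_le_of_rsq (by positivity) h1 h2
    rcases lt_or_ge |bb lam a - 2 / 5| δ₂ with h3 | h3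
    · right
      rw [hA.mid t _ h3.le] at h1
      have h4 : d * (bb lam a - 2 / 5) = 0 := by
        have h5 : 1 / 2 + d * (bb lam a - 2 / 5) = 1 / 2 := h1
        linarith only [h5]
      have h5 : bb lam a = bb lam (2 / 5) := by
        rw [hb2]
        rcases mul_eq_zero.1 h4 with h | h
        · exact absurd h hd0
        · linarith only [h]
      exact hbm.injective h5
    · rcases le_or_gt (bb lam a) (1 - δ₂) with h4 | h4
      · have := hμ' t (bb lam a) ⟨hx.1, h4⟩ h3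
        linarith only [this, hn, hlμ, hl0]
      · left
        rw [hA.high t _ h4.le, rsq_ax] at h2
        have h5 : |bb lam a - 1| ≤ lam / 5 := abs_le_of_sq_le_sq h2 (by positivity)
        rw [abs_le] at h5
        have h6 : bb lam a = bb lam (4 / 5) := by
          rw [hb4]; linarith only [h5.1, hx.2]
        exact hbm.injective h6
  have hflat : ∀ t, ∀ a ∈ Icc (1 / 5 : ℝ) (4 / 5),
      H (t, bb lam a) ∈ (fun p => F' (clc 1 lam p)) '' flat 1 → a = 4 / 5 ∨ a = 2 / 5 := by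
    rintro t a ha ⟨p, hp, he⟩
    have he' : F' (clc 1 lam p) = H (t, bb lam a) := he
    obtain ⟨h1, h2⟩ := hfl p hp
    rw [he'] at h1 h2
    refine claim t a ha h1 ?_
    rw [h2]
    have h3 : rsq 1 p ≤ 1 / 25 := hp.2
    calc lam ^ 2 * rsq 1 p ≤ lam ^ 2 * (1 / 25) := mul_le_mul_of_nonneg_left h3 (sq_nonneg lam)
      _ = (lam / 5) ^ 2 := by ring
  have hsph1 : ∀ t, ∀ a ∈ Ioo (1 / 5 : ℝ) (4 / 5), ∀ p ∈ sph 1,
      H (t, bb lam a) ≠ F' (clc 1 lam p) := by
    intro t a ha p hp he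
    have hpf : p ∈ flat 1 := ⟨hp.1, hp.2.le⟩
    rcases hflat t a ⟨ha.1.le, ha.2.le⟩ ⟨p, hpf, he.symm⟩ with h | h
    · exact ha.2.ne h
    · obtain ⟨h1, h2⟩ := hfl p hpf
      rw [← he, h, hb2, hA.mid t _ (by simpa using hδ₂.le), hp.2] at h2
      have h3 : rsq 1 ((1 / 2 + d * ((2 : ℝ) / 5 - 2 / 5), pc 1) : R4) = 0 := by
        simp [rsq, nsq, pc]
      rw [h3] at h2
      have : 0 < lam ^ 2 * (1 / 25) := mul_pos (pow_pos hl0 2) (by norm_num)
      exact absurd h2 this.ne
  -- the germ near the first cuff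
  obtain ⟨U, -, hU2, hU3⟩ := hL.near
  have hsph0 : ∀ p ∈ sph 0, F' (clc 1 lam p) = F p := by
    intro p hp
    rw [hclf p (sph0_far hp)]
    exact (hU3 (hU2 hp)).symm
  have hcuff : ∀ t, ∀ a ∈ Ioo (1 / 5 : ℝ) (4 / 5),
      H (t, bb lam a) ∈ (fun p => F' (clc 1 lam p)) '' (sph 0 ∪ sph 1) →
      H (t, bb lam a) ∈ F '' sph 0 := by
    rintro t a ha ⟨p, hp | hp, he⟩
    · exact ⟨p, hp, (hsph0 p hp).symm.trans he⟩
    · exact absurd he.symm (hsph1 t a ha p hp)
  have hemb : EmbOn I4 (fun p => F' (clc 1 lam p)) SP := by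
    refine (hCTR 1 F' (2 / 5) (Or.inr rfl) hL.nb'.br.loc hL.nb'.br.inj hL.nb'.br.injF ?_
      hL.nb'.br.only lam hlI).1
    rw [hL.nb'.str (2 / 5) (by simpa using hδ'0), hL.nb'.near (ax 1) (by simpa using hδ'0)]
    simp [ax, pc]
  have hsm : ContDiff ℝ ∞ (fun z : ℝ × ℝ => H (z.1, bb lam z.2)) :=
    hA.smooth.comp (contDiff_fst.prodMk ((contDiff_bb lam).comp contDiff_snd))
  have himm : ∀ t, ∀ a ∈ Icc (1 / 5 : ℝ) (4 / 5), deriv (fun a => H (t, bb lam a)) a ≠ 0 := by
    intro t a ha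
    rw [deriv_Hl hA.smooth]
    exact smul_ne_zero (hbd a).ne' (hA.imm t _ ⟨(hbO a ha).1, (hbO a ha).2.le⟩)
  have hinj : ∀ t, InjOn (fun a => H (t, bb lam a)) (Icc (1 / 5) (4 / 5)) := by
    intro t a ha a' ha' he
    exact hbm.injective (hA.inj t (hbO a ha) (hbO a' ha') he)
  have hlate : ∀ t, ∀ a ∈ Ioo (1 / 5 : ℝ) (4 / 5), H (t, bb lam a) ∈ F '' sph 0 →
      (0 < t ∧ t < 1) ∧ 2 / 5 < a := by
    intro t a ha h
    obtain ⟨h1, h2, h3⟩ := hA.late t _ (hbO' a ha) h
    refine ⟨⟨h1, h2⟩, ?_⟩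
    by_contra h4
    have := hbm.monotone (not_lt.1 h4)
    rw [hb2] at this
    exact absurd h3 (not_lt.2 this)
  have hup : ∀ u : ℝ, 39 / 50 ≤ u → 1 - δ₂ ≤ bb lam u := by
    intro u hu
    have h1 := hbm.monotone hu
    rw [bb_high lam le_rfl (by norm_num)] at h1
    linarith only [h1, hlδ₂, hl0]
  refine ⟨lam, hl0, hl1, hlδ, hlδ', hlδ₂, ?_, hflat, fun t a ha h => ?_⟩
  · refine ⟨hemb, by norm_num, by norm_num, ?_, ?_, hinj 1, himm 0, himm 1, ?_, ?_, ?_⟩
    · exact hA.smooth.comp (contDiff_const.prodMk (contDiff_bb lam))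
    · intro a ha
      have h1 : clc 1 lam ((1 / 2, a, 0) : R4) = ax (bb lam a) := hclax a
      change F' (clc 1 lam ((1 / 2, a, 0) : R4)) = _
      rw [h1]
      exact (hA.start _ ⟨(hbO a ha).1, (hbO a ha).2.le⟩).symm
    · intro a ha h
      have := (hlate 1 a ha (hcuff 1 a ha h)).1.2
      exact lt_irrefl _ this
    · refine ⟨hsm, ?_, ?_, ?_, fun t _ => hinj t, ?_, ?_, ?_, ?_, ?_⟩
      · intro t u ht
        exact hA.left t _ ht
      · intro t u ht
        exact hA.right t _ ht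
      · rintro t u (hu | hu)
        · refine hA.low t _ ?_
          rw [bb_low lam (by linarith only [hu])]
          linarith only [hu, hr1]
        · change H (t, bb lam u) = H (0, bb lam u)
          have := hup u (by linarith only [hu])
          rw [hA.high t _ this, hA.high 0 _ this]
      · intro t _ u hu
        rw [fderiv_Hl hA.smooth]
        have h1 : ((0 : ℝ), deriv (bb lam) u * 1) = deriv (bb lam) u • ((0 : ℝ), (1 : ℝ)) := by
          simp
        simp only
        rw [h1, map_smul]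
        exact smul_ne_zero (hbd u).ne' (hA.imm t _ ⟨(hbO u hu).1, (hbO u hu).2.le⟩)
      · have hf := hA.finite
        have hi : Function.Injective (fun z : ℝ × ℝ => (z.1, bb lam z.2)) := by
          rintro ⟨a, b⟩ ⟨a', b'⟩ h
          simp only [Prod.mk.injEq] at h
          ext
          · exact h.1
          · exact hbm.injective h.2
        refine (hf.preimage hi.injOn).subset ?_
        rintro ⟨t, u⟩ ⟨-, hu, h⟩
        exact ⟨hbO' u hu, hcuff t u hu h⟩
      · intro t _ u hu h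
        have h1 := hcuff t u hu h
        obtain ⟨h2, h3⟩ := hlate t u hu h1
        refine ⟨h2, by linarith only [h3], ?_⟩
        by_contra h4
        have h5 := hup u (by linarith only [not_lt.1 h4])
        rw [hA.high t _ h5] at h1
        obtain ⟨p, hp, he⟩ := h1
        have h6 := hL.far p hp
        rw [he, norm_ax_sub, abs_of_neg (by linarith only [(hbO' u hu).2])] at h6
        linarith only [h6, h5, hδ₂r, hr0]
      · intro t _ u hu u' hu' h h'
        exact hbm.injective (hA.single t _ (hbO' u hu) _ (hbO' u' hu') (hcuff t u hu h)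
          (hcuff t u' hu' h'))
      · intro t _ u hu i y _ he ζ η hζ
        cases i with
        | true => exact absurd he (hsph1 t u hu _ (cst_true_mem y))
        | false =>
          have e1 : (fun y => F' (clc 1 lam (cst false y))) = fun y => F (cst false y) :=
            funext fun y => hsph0 _ (cst_false_mem y)
          have he' : H (t, bb lam u) = F (cst false y) := he.trans (hsph0 _ (cst_false_mem y))
          rw [fderiv_Hl hA.smooth] at hζ
          have hζ' : fderiv ℝ H (t, bb lam u) (ζ.1, deriv (bb lam) u * ζ.2) =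
              fderiv ℝ (fun y => F (cst false y)) y η := by
            rw [← e1]; exact hζ
          obtain ⟨h1, h2⟩ := hA.trans t _ (hbO' u hu) y he' _ _ hζ'
          refine ⟨?_, h2⟩
          simp only [Prod.mk_eq_zero, mul_eq_zero, (hbd u).ne', false_or] at h1
          exact Prod.ext h1.1 h1.2
    · intro t _ u hu h b θ he
      cases b with
      | true => exact hsph1 t u hu _ (crv_true_mem θ) he
      | false =>
        refine hA.avoid t _ (hbO' u hu) (hcuff t u hu h) θ ?_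
        exact he.trans (hsph0 _ (crv_false_mem θ))
  · have h1 := hcuff t a ha h
    refine ⟨(hlate t a ha h1).2, ?_⟩
    obtain ⟨p, hp, he⟩ := h1
    exact ⟨p, hp, (hsph0 p hp).trans he⟩

end Pool.Agent.Helper70.BI
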