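import Pool.Agent.Helper70.BI.StU

/-!
# Project BI, part (E): module GL

The group of linear maps with positive determinant is generated by every neighbourhood of the
identity.
-/

set_option autoImplicit false

open scoped Manifold ContDiff Topology ComplexConjugate
open Set Filter Pool.Agent.Helper65.Barb Pool.Agent.Helper18.BI

namespace Pool.Agent.Helper70.BI

namespace GLgen

variable {n : Type} [Fintype n] [DecidableEq n]

lemma pow_mem {Q : Matrix n n ℝ → Prop} (hmul : ∀ A B, Q A → Q B → Q (A * B))
    {A : Matrix n n ℝ} (hA : Q A) (k : ℕ) : Q (A ^ (k + 1)) := by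
  induction k with
  | zero => simpa using hA
  | succ k ih => rw [pow_succ]; exact hmul _ _ ih hA

/-- one-parameter groups -/
lemma one_param {Q : Matrix n n ℝ → Prop} (hmul : ∀ A B, Q A → Q B → Q (A * B))
    (hnear : ∀ᶠ M in 𝓝 (1 : Matrix n n ℝ), Q M) (f : ℝ → Matrix n n ℝ) (hf : Continuous f)
    (h0 : f 0 = 1) (hadd : ∀ s t, f (s + t) = f s * f t) (t : ℝ) : Q (f t) := by
  have hpow : ∀ (k : ℕ) (s : ℝ), f (((k + 1 : ℕ) : ℝ) * s) = f s ^ (k + 1) := by
    intro k s
    induction k with
    | zero => simp
    | succ k ih =>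
      rw [pow_succ, ← ih, ← hadd]
      congr 1
      push_cast
      ring
  have hlim : Tendsto (fun N : ℕ => f (t * (1 / ((N : ℝ) + 1)))) atTop (𝓝 1) := by
    rw [← h0]
    have h1 : Tendsto (fun N : ℕ => t * (1 / ((N : ℝ) + 1))) atTop (𝓝 (t * 0)) :=
      tendsto_const_nhds.mul tendsto_one_div_add_atTop_nhds_zero_nat
    rw [mul_zero] at h1
    exact (hf.tendsto 0).comp h1
  obtain ⟨N, hN⟩ := (hlim.eventually hnear).exists
  have h2 := pow_mem hmul hN N
  rw [← hpow] at h2
  have h3 : (((N + 1 : ℕ) : ℝ) * (t * (1 / ((N : ℝ) + 1)))) = t := by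
    push_cast
    have : (N : ℝ) + 1 ≠ 0 := by positivity
    field_simp
  rwa [h3] at h2

lemma transv {Q : Matrix n n ℝ → Prop} (hmul : ∀ A B, Q A → Q B → Q (A * B))
    (hnear : ∀ᶠ M in 𝓝 (1 : Matrix n n ℝ), Q M) (i j : n) (hij : i ≠ j) (c : ℝ) :
    Q (Matrix.transvection i j c) := by
  refine one_param hmul hnear (fun c => Matrix.transvection i j c) ?_ ?_ ?_ c
  · unfold Matrix.transvection
    refine continuous_const.add ?_
    refine continuous_matrix fun a b => ?_
    by_cases h : i = a ∧ j = b
    · obtain ⟨rfl, rfl⟩ := h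
      simpa using continuous_id'
    · simp only [Matrix.single_apply, h, if_false]
      exact continuous_const
  · exact Matrix.transvection_zero i j
  · intro s t
    exact (Matrix.transvection_mul_transvection_same i j hij s t).symm

lemma diag_pos {Q : Matrix n n ℝ → Prop} (hmul : ∀ A B, Q A → Q B → Q (A * B))
    (hnear : ∀ᶠ M in 𝓝 (1 : Matrix n n ℝ), Q M) (D : n → ℝ) (hD : ∀ i, 0 < D i) :
    Q (Matrix.diagonal D) := by
  have h := one_param hmul hnear
    (fun t => Matrix.diagonal (fun i => Real.exp (t * Real.log (D i)))) ?_ ?_ ?_ 1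
  · have h1 : (fun i => Real.exp (1 * Real.log (D i))) = D := by
      funext i
      rw [one_mul, Real.exp_log (hD i)]
    rw [h1] at h
    exact h
  · exact Continuous.matrix_diagonal (by fun_prop)
  · simp
  · intro s t
    rw [Matrix.diagonal_mul_diagonal]
    congr 1
    funext i
    rw [← Real.exp_add]
    congr 1
    ring

/-- the rotation by `π` in the `(i, j)`-plane -/
lemma rot {Q : Matrix n n ℝ → Prop} (hmul : ∀ A B, Q A → Q B → Q (A * B))
    (hnear : ∀ᶠ M in 𝓝 (1 : Matrix n n ℝ), Q M) (i j : n) (hij : i ≠ j) :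
    Q (Matrix.diagonal (fun k => if k = i ∨ k = j then (-1 : ℝ) else 1)) := by
  have h1 := transv hmul hnear i j hij 1
  have h2 := transv hmul hnear j i hij.symm (-1)
  have h3 := hmul _ _ (hmul _ _ h1 h2) h1
  have h4 := hmul _ _ h3 h3
  have hji := hij.symm
  have hw : Matrix.transvection i j (1 : ℝ) * Matrix.transvection j i (-1) *
      Matrix.transvection i j 1 =
      1 + Matrix.single i j 1 - Matrix.single j i 1 - Matrix.single i i 1 - Matrix.single j j 1 := by
    unfold Matrix.transvection
    have e1 : Matrix.single j i (-1 : ℝ) = - Matrix.single j i 1 := by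
      ext a b; simp [Matrix.single_apply]; split_ifs <;> simp
    rw [e1]
    simp only [mul_add, add_mul, mul_one, one_mul, mul_neg, neg_mul,
      Matrix.single_mul_single_same, Matrix.single_mul_single_of_ne _ _ _ _ hji,
      Matrix.single_mul_single_of_ne _ _ _ _ hij]
    abel
  rw [hw] at h4
  convert h4 using 1
  have hd : (Matrix.diagonal (fun k => if k = i ∨ k = j then (-1 : ℝ) else 1)) =
      1 - (Matrix.single i i 1 + Matrix.single j j 1) - (Matrix.single i i 1 + Matrix.single j j 1) := by
    ext a b
    by_cases hab : a = b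
    · subst hab
      by_cases hai : a = i
      · subst hai
        simp [hij, hji]
      · by_cases haj : a = j
        · subst haj
          simp [hij, hji]
        · have hia : ¬ i = a := fun h => hai h.symm
          have hja : ¬ j = a := fun h => haj h.symm
          simp [hai, haj, hia, hja]
    · have h5 : ¬ (i = a ∧ i = b) := fun h => hab (h.1.symm.trans h.2)
      have h6 : ¬ (j = a ∧ j = b) := fun h => hab (h.1.symm.trans h.2)
      simp [hab, h5, h6]
  rw [hd]
  simp only [mul_add, add_mul, mul_sub, sub_mul, mul_one, one_mul,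
      Matrix.single_mul_single_same, Matrix.single_mul_single_of_ne _ _ _ _ hji,
      Matrix.single_mul_single_of_ne _ _ _ _ hij]
  abel

lemma diag_det {Q : Matrix n n ℝ → Prop} (hmul : ∀ A B, Q A → Q B → Q (A * B))
    (hnear : ∀ᶠ M in 𝓝 (1 : Matrix n n ℝ), Q M) (k : ℕ) :
    ∀ D : n → ℝ, (Finset.univ.filter (fun i => D i < 0)).card ≤ k → 0 < ∏ i, D i →
      Q (Matrix.diagonal D) := by
  induction k with
  | zero =>
    intro D hD hp
    refine diag_pos hmul hnear D fun i => ?_
    have h1 : ¬ D i < 0 := by
      intro hi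
      have : i ∈ Finset.univ.filter (fun i => D i < 0) := by simp [hi]
      rw [Finset.card_eq_zero.mp (Nat.le_zero.mp hD)] at this
      simp at this
    have h2 : D i ≠ 0 := by
      intro h0
      have := Finset.prod_eq_zero (Finset.mem_univ i) h0
      linarith
    exact lt_of_le_of_ne (not_lt.mp h1) h2.symm
  | succ k ih =>
    intro D hD hp
    have hne : ∀ i, D i ≠ 0 := by
      intro i h0
      have := Finset.prod_eq_zero (Finset.mem_univ i) h0
      linarith
    by_cases hneg : ∃ i, D i < 0
    · obtain ⟨i, hi⟩ := hneg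
      have hj : ∃ j, j ≠ i ∧ D j < 0 := by
        by_contra hcon
        push Not at hcon
        have h1 : 0 < ∏ x ∈ Finset.univ.erase i, D x := by
          refine Finset.prod_pos fun x hx => ?_
          exact lt_of_le_of_ne (hcon x (Finset.ne_of_mem_erase hx)) (hne x).symm
        rw [← Finset.mul_prod_erase Finset.univ D (Finset.mem_univ i)] at hp
        nlinarith
      obtain ⟨j, hji, hj⟩ := hj
      have hij := hji.symm
      have hprod := ih (fun x => if x = i ∨ x = j then - D x else D x) ?_ ?_
      · have h2 := hmul _ _ (rot hmul hnear i j hij) hprod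
        rw [Matrix.diagonal_mul_diagonal] at h2
        have h5 : (fun x => (if x = i ∨ x = j then (-1 : ℝ) else 1) *
            if x = i ∨ x = j then - D x else D x) = D := by
          funext x
          by_cases hx : x = i ∨ x = j
          · simp [hx]
          · simp [hx]
        rwa [h5] at h2
      · have hsub : (Finset.univ.filter (fun x => (if x = i ∨ x = j then - D x else D x) < 0)) ⊆
            (Finset.univ.filter (fun x => D x < 0)).erase i := by
          intro x hx
          simp only [Finset.mem_filter, Finset.mem_univ, true_and, Finset.mem_erase] at hx ⊢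
          by_cases hx' : x = i ∨ x = j
          · rw [if_pos hx'] at hx
            rcases hx' with rfl | rfl <;> linarith
          · rw [if_neg hx'] at hx
            push Not at hx'
            exact ⟨hx'.1, hx⟩
        have hmem : i ∈ Finset.univ.filter (fun x => D x < 0) := by simp [hi]
        have := Finset.card_le_card hsub
        rw [Finset.card_erase_of_mem hmem] at this
        omega
      · have h3 : ∏ x, (if x = i ∨ x = j then - D x else D x) =
            (∏ x, (if x = i ∨ x = j then (-1 : ℝ) else 1)) * ∏ x, D x := by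
          rw [← Finset.prod_mul_distrib]
          refine Finset.prod_congr rfl fun x _ => ?_
          by_cases hx : x = i ∨ x = j
          · simp [hx]
          · simp [hx]
        have h4 : (∏ x, (if x = i ∨ x = j then (-1 : ℝ) else 1)) = 1 := by
          rw [Finset.prod_ite, Finset.prod_const, Finset.prod_const_one, mul_one]
          have : (Finset.univ.filter (fun x => x = i ∨ x = j)) = {i, j} := by
            ext x; simp
          rw [this, Finset.card_pair hij]
          norm_num
        rw [h3, h4, one_mul]
        exact hp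
    · push Not at hneg
      exact diag_pos hmul hnear D fun i => lt_of_le_of_ne (hneg i) (hne i).symm

end GLgen

theorem m_GL : StGL := by
  intro E _ _ _ P hP hnear A hA
  obtain ⟨c, hc, hnear⟩ := hnear
  let b := Module.finBasis ℝ E
  let Φ : Matrix (Fin (Module.finrank ℝ E)) (Fin (Module.finrank ℝ E)) ℝ →ₗ[ℝ] (E →L[ℝ] E) :=
    (LinearMap.toContinuousLinearMap : (E →ₗ[ℝ] E) ≃ₗ[ℝ] (E →L[ℝ] E)).toLinearMap ∘ₗ
      (Matrix.toLin b b).toLinearMap
  have hΦ : ∀ M, Φ M = LinearMap.toContinuousLinearMap (Matrix.toLin b b M) := fun M => rfl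
  have hcont : Continuous Φ := LinearMap.continuous_of_finiteDimensional Φ
  have h1 : Φ 1 = ContinuousLinearMap.id ℝ E := by
    rw [hΦ, Matrix.toLin_one]
    ext x
    rfl
  have hmul : ∀ M N, P (Φ M) → P (Φ N) → P (Φ (M * N)) := by
    intro M N hM hN
    have h2 : Φ (M * N) = (Φ M).comp (Φ N) := by
      rw [hΦ, hΦ, hΦ, Matrix.toLin_mul b b b]
      ext x
      rfl
    rw [h2]
    exact hP _ _ hM hN
  have hn : ∀ᶠ M in 𝓝 (1 : Matrix (Fin (Module.finrank ℝ E)) (Fin (Module.finrank ℝ E)) ℝ),
      P (Φ M) := by
    have h3 : Tendsto Φ (𝓝 1) (𝓝 (ContinuousLinearMap.id ℝ E)) := by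
      rw [← h1]
      exact hcont.tendsto 1
    have h4 := h3.eventually (Metric.ball_mem_nhds (ContinuousLinearMap.id ℝ E) hc)
    filter_upwards [h4] with M hM
    refine hnear _ ?_
    rwa [dist_eq_norm] at hM
  have hfin : P (Φ (LinearMap.toMatrix b b (A : E →ₗ[ℝ] E))) := by
    refine Matrix.diagonal_transvection_induction (fun M => P (Φ M)) _ ?_ ?_ hmul
    · intro D hD
      refine GLgen.diag_det hmul hn _ D le_rfl ?_
      rw [Matrix.det_diagonal, LinearMap.det_toMatrix] at hD
      rw [hD]
      exact hA
    · intro t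
      exact GLgen.transv (Q := fun M => P (Φ M)) hmul hn t.i t.j t.hij t.c
  rw [hΦ, Matrix.toLin_toMatrix] at hfin
  have h5 : LinearMap.toContinuousLinearMap (A : E →ₗ[ℝ] E) = A := by
    ext x
    rfl
  rwa [h5] at hfin

end Pool.Agent.Helper70.BI
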