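import Pool.Agent.Helper70.BI.StU

/-!
# Project BI, part (E), module E-HL: homotopy of bars without crossings
-/

set_option autoImplicit false

open scoped Manifold ContDiff Topology ComplexConjugate
open Set Filter Pool.Agent.Helper65.Barb Pool.Agent.Helper18.BI

namespace Pool.Agent.Helper70.BI

open Pool.Agent.Helper34.BI (BarData barFam mem_neck sph_zero_le le_sph_one)

namespace HL

/-- the open set of points whose axial coordinate is near or beyond the ends of the neck -/
private theorem isOpen_ends (δ : ℝ) :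
    IsOpen {p : R4 | p.2.1 < 1 / 5 + δ / 2 ∨ 4 / 5 - δ / 2 < p.2.1} := by
  have hcont : Continuous (fun q : R4 => q.2.1) := by fun_prop
  exact (isOpen_lt hcont continuous_const).union (isOpen_lt continuous_const hcont)

private theorem sph_sub_ends {δ : ℝ} (hδ : 0 < δ) :
    sph 0 ∪ sph 1 ⊆ {p : R4 | p.2.1 < 1 / 5 + δ / 2 ∨ 4 / 5 - δ / 2 < p.2.1} := by
  rintro p (hp | hp)
  · exact Or.inl (by linarith [sph_zero_le hp])
  · exact Or.inr (by linarith [le_sph_one hp])

private theorem eq_of_mem_neck {p : R4} (hp : p ∈ neck) : p = (1 / 2, p.2.1, 0) := by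
  obtain ⟨h1, -, -, h4⟩ := hp
  ext1
  · exact h1
  · ext1
    · rfl
    · exact h4

end HL

/-- **HL.** Two germs with the same cuffs whose cores are joined by a smooth family of embedded arcs
disjoint from the cuffs have the same class. -/
theorem m_HL (hF : StFam) (hFr : StFr) : StHL := by
  intro F F' c H δ eF eF' hN D hH himm hinj hdis
  -- the family of germs
  have hJ : FamOn I4 (barFam F c H δ) SP := by
    rw [famOn_iff]
    refine ⟨fun t _ p hp => D.eventually_smooth t hp, fun t ht => ?_⟩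
    exact D.embOn (himm t ht) (eF.2.mono subset_union_left) (hinj t ht) (hdis t ht)
  have h0 : (0 : ℝ) ∈ Icc (0 : ℝ) 1 := ⟨le_refl _, zero_le_one⟩
  have h1 : (1 : ℝ) ∈ Icc (0 : ℝ) 1 := ⟨zero_le_one, le_refl _⟩
  have e01 : Eqv (fun p => barFam F c H δ (0, p)) (fun p => barFam F c H δ (1, p)) := hF _ hJ
  have ends : ∀ t : ℝ, ∀ p ∈ {p : R4 | p.2.1 < 1 / 5 + δ / 2 ∨ 4 / 5 - δ / 2 < p.2.1},
      F p = barFam F c H δ (t, p) := fun t p hp =>
    (D.barFam_eq (t := t) (p := p) (hp.imp le_of_lt le_of_lt)).symm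
  -- the beginning of the family
  have e0 : Eqv F (fun p => barFam F c H δ (0, p)) := by
    refine hFr F (fun p => barFam F c H δ (0, p)) _ eF (hJ.2 0 h0) (HL.isOpen_ends δ)
      (HL.sph_sub_ends D.pos) (ends 0) fun p hp => ?_
    have hm : p.2.1 ∈ Icc (1 / 5 : ℝ) (4 / 5) := ⟨hp.2.1, hp.2.2.1⟩
    rw [HL.eq_of_mem_neck hp]
    exact (D.core _ hm).trans ((hH _ hm).1.symm.trans (D.barFam_neck (t := 0) hm.1 hm.2).symm)
  -- the end of the family
  obtain ⟨U, hU, hs, he⟩ := hN
  have e1 : Eqv (fun p => barFam F c H δ (1, p)) F' := by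
    refine hFr (fun p => barFam F c H δ (1, p)) F' _ (hJ.2 1 h1) eF'
      (hU.inter (HL.isOpen_ends δ)) (subset_inter hs (HL.sph_sub_ends D.pos))
      (fun p hp => ((ends 1 p hp.2).symm.trans (he hp.1))) fun p hp => ?_
    have hm : p.2.1 ∈ Icc (1 / 5 : ℝ) (4 / 5) := ⟨hp.2.1, hp.2.2.1⟩
    rw [HL.eq_of_mem_neck hp]
    exact (D.barFam_neck (t := 1) hm.1 hm.2).trans (hH _ hm).2
  exact e0.trans (e01.trans e1)

end Pool.Agent.Helper70.BI
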