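import Pool.Agent.Helper70.BI.StL

/-!
# Project BI (MP_8e98f2), part (E), module LGG: from local to global in time, general relation
-/

set_option autoImplicit false

open scoped Manifold ContDiff Topology ComplexConjugate
open Set Filter Pool.Agent.Helper65.Barb Pool.Agent.Helper18.BI

namespace Pool.Agent.Helper70.BI

namespace LGG

/-- the hypotheses on the relation and on the family -/
structure Hyp (Q : (R4 → R4) → (R4 → R4) → Prop) (J : ℝ × R4 → R4) : Prop where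
  symm : ∀ F G, Q F G → Q G F
  trans : ∀ F G H, EmbOn I4 G SP → Q F G → Q G H → Q F H
  fam : ∀ t₁ t₂ : ℝ, t₁ ≤ t₂ →
      (∀ t ∈ Icc t₁ t₂, ∀ p ∈ SP, ∀ᶠ q in 𝓝 (t, p), ContDiffAt ℝ ∞ J q) →
      (∀ t ∈ Icc t₁ t₂, EmbOn I4 (fun p => J (t, p)) SP) →
      Q (fun p => J (t₁, p)) (fun p => J (t₂, p))
  smooth : ∀ t, ∀ p ∈ SP, ∀ᶠ q in 𝓝 (t, p), ContDiffAt ℝ ∞ J q
  loc : ∀ t, ∀ p ∈ SP, LD (fun p => J (t, p)) p
  finite : {t | ¬ InjOn (fun p => J (t, p)) SP}.Finite
  cross : ∀ t, ¬ InjOn (fun p => J (t, p)) SP → ∀ ε > 0,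
      ∃ t₁ ∈ Ioo (t - ε) t, ∃ t₂ ∈ Ioo t (t + ε),
      EmbOn I4 (fun p => J (t₁, p)) SP ∧ EmbOn I4 (fun p => J (t₂, p)) SP ∧
      Q (fun p => J (t₁, p)) (fun p => J (t₂, p))

variable {Q : (R4 → R4) → (R4 → R4) → Prop} {J : ℝ × R4 → R4}

/-- off the exceptional times the members of the family are germs of embeddings -/
theorem embOn_of (hJ : Hyp Q J) {t : ℝ}
    (ht : InjOn (fun p => J (t, p)) SP) : EmbOn I4 (fun p => J (t, p)) SP :=
  ⟨hJ.loc t, ht⟩

/-- two times with no exceptional time between them -/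
theorem fam' (hJ : Hyp Q J) {a b : ℝ}
    (h : ∀ t ∈ uIcc a b, InjOn (fun p => J (t, p)) SP) :
    Q (fun p => J (a, p)) (fun p => J (b, p)) := by
  rcases le_total a b with hab | hab
  · rw [uIcc_of_le hab] at h
    exact hJ.fam a b hab (fun t _ => hJ.smooth t) (fun t ht => embOn_of hJ (h t ht))
  · rw [uIcc_of_ge hab] at h
    exact hJ.symm _ _ (hJ.fam b a hab (fun t _ => hJ.smooth t) (fun t ht => embOn_of hJ (h t ht)))

/-- the local claim -/
theorem local_claim (hJ : Hyp Q J) (t : ℝ) :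
    ∃ ε > 0, ∀ a ∈ Ioo (t - ε) (t + ε), ∀ b ∈ Ioo (t - ε) (t + ε),
      InjOn (fun p => J (a, p)) SP → InjOn (fun p => J (b, p)) SP →
        Q (fun p => J (a, p)) (fun p => J (b, p)) := by
  have hfin : ({s | ¬ InjOn (fun p => J (s, p)) SP} \ {t}).Finite := hJ.finite.subset sdiff_subset
  obtain ⟨ε, hε, hball⟩ := Metric.isOpen_iff.1 hfin.isClosed.isOpen_compl t
    (fun h => h.2 rfl)
  rw [Real.ball_eq_Ioo] at hball
  have hloc : ∀ s ∈ Ioo (t - ε) (t + ε), s ≠ t → InjOn (fun p => J (s, p)) SP := by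
    intro s hs hst
    by_contra hc
    exact hball hs ⟨hc, hst⟩
  refine ⟨ε, hε, ?_⟩
  -- the oriented version
  have key : ∀ a ∈ Ioo (t - ε) (t + ε), ∀ b ∈ Ioo (t - ε) (t + ε), a ≤ b →
      InjOn (fun p => J (a, p)) SP → InjOn (fun p => J (b, p)) SP →
        Q (fun p => J (a, p)) (fun p => J (b, p)) := by
    intro a ha b hb hab hia hib
    by_cases hc : InjOn (fun p => J (t, p)) SP ∨ t ∉ Icc a b
    · refine fam' hJ (fun s hs => ?_)
      rw [uIcc_of_le hab] at hs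
      by_cases hst : s = t
      · rcases hc with hc | hc
        · rw [hst]
          exact hc
        · rw [hst] at hs
          exact absurd hs hc
      · exact hloc s ⟨lt_of_lt_of_le ha.1 hs.1, lt_of_le_of_lt hs.2 hb.2⟩ hst
    · push Not at hc
      obtain ⟨hct, hmem⟩ := hc
      have hat : a < t := lt_of_le_of_ne hmem.1 (fun h => hct (h ▸ hia))
      have htb : t < b := lt_of_le_of_ne hmem.2 (fun h => hct (h.symm ▸ hib))
      obtain ⟨t₁, ht₁, t₂, ht₂, e₁, e₂, hm⟩ := hJ.cross t hct ε hε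
      have m₁ : Q (fun p => J (a, p)) (fun p => J (t₁, p)) := by
        refine fam' hJ (fun s hs => hloc s ?_ ?_)
        · rw [mem_uIcc] at hs
          constructor
          · rcases hs with hs | hs <;> linarith [ha.1, ht₁.1, hs.1]
          · rcases hs with hs | hs <;> linarith [hs.2, ht₁.2]
        · rw [mem_uIcc] at hs
          apply ne_of_lt
          rcases hs with hs | hs <;> linarith [hs.2, ht₁.2]
      have m₂ : Q (fun p => J (t₂, p)) (fun p => J (b, p)) := by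
        refine fam' hJ (fun s hs => hloc s ?_ ?_)
        · rw [mem_uIcc] at hs
          constructor
          · rcases hs with hs | hs <;> linarith [ht₂.1, hs.1]
          · rcases hs with hs | hs <;> linarith [hs.2, ht₂.2, hb.2]
        · rw [mem_uIcc] at hs
          apply ne_of_gt
          rcases hs with hs | hs <;> linarith [hs.1, ht₂.1]
      exact hJ.trans _ _ _ e₁ m₁ (hJ.trans _ _ _ e₂ hm m₂)
  intro a ha b hb hia hib
  rcases le_total a b with hab | hab
  · exact key a ha b hb hab hia hib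
  · exact hJ.symm _ _ (key b hb a ha hab hib hia)

end LGG

open LGG in
/-- MODULE LGG. -/
theorem m_LGG : StLGG := by
  intro Q J _ hsymm htrans hfam hsm hld hfin hX h0 h1'
  have hJ : Hyp Q J := ⟨hsymm, htrans, hfam, hsm, hld, hfin, hX⟩
  have hopen : IsOpen {t : ℝ | ∀ᶠ s in 𝓝 t, InjOn (fun p => J (s, p)) SP →
      Q (fun p => J (0, p)) (fun p => J (s, p))} := isOpen_setOfPred_eventually_nhds
  have hclosed : IsClosed {t : ℝ | ∀ᶠ s in 𝓝 t, InjOn (fun p => J (s, p)) SP →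
      Q (fun p => J (0, p)) (fun p => J (s, p))} := by
    rw [← closure_subset_iff_isClosed]
    intro t ht
    obtain ⟨ε, hε, hloc⟩ := local_claim hJ t
    have hO : IsOpen (Ioo (t - ε) (t + ε)) := isOpen_Ioo
    have htO : t ∈ Ioo (t - ε) (t + ε) := ⟨by linarith, by linarith⟩
    obtain ⟨s, hsO, hs⟩ := mem_closure_iff.1 ht _ hO htO
    have hs' : ∀ᶠ r in 𝓝 s, InjOn (fun p => J (r, p)) SP →
      Q (fun p => J (0, p)) (fun p => J (r, p)) := hs
    obtain ⟨V, hV, hVo, hsV⟩ := eventually_nhds_iff.1 (hs'.and (hO.mem_nhds hsO))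
    have hdense : Dense ({t | ¬ InjOn (fun p => J (t, p)) SP}ᶜ : Set ℝ) :=
      hJ.finite.countable.dense_compl ℝ
    obtain ⟨r, hr, hrC⟩ := hdense.exists_mem_open hVo ⟨s, hsV⟩
    have hri : InjOn (fun p => J (r, p)) SP := by
      by_contra hc
      exact hr hc
    obtain ⟨hm, hrO⟩ := hV r hrC
    filter_upwards [hO.mem_nhds htO] with x hx hxi
    exact hJ.trans _ _ _ (embOn_of hJ hri) (hm hri) (hloc r hrO x hx hri hxi)
  have hne : ({t : ℝ | ∀ᶠ s in 𝓝 t, InjOn (fun p => J (s, p)) SP →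
      Q (fun p => J (0, p)) (fun p => J (s, p))}).Nonempty := by
    refine ⟨0, ?_⟩
    obtain ⟨ε, hε, hloc⟩ := local_claim hJ 0
    have hO : IsOpen (Ioo ((0 : ℝ) - ε) (0 + ε)) := isOpen_Ioo
    have htO : (0 : ℝ) ∈ Ioo ((0 : ℝ) - ε) (0 + ε) := ⟨by linarith, by linarith⟩
    show ∀ᶠ s in 𝓝 (0 : ℝ), _
    filter_upwards [hO.mem_nhds htO] with x hx hxi
    exact hloc 0 htO x hx h0.2 hxi
  have huniv := IsClopen.eq_univ ⟨hclosed, hopen⟩ hne
  have h1mem : (1 : ℝ) ∈ {t : ℝ | ∀ᶠ s in 𝓝 t, InjOn (fun p => J (s, p)) SP →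
      Q (fun p => J (0, p)) (fun p => J (s, p))} := by
    rw [huniv]
    exact mem_univ _
  exact (show ∀ᶠ s in 𝓝 (1 : ℝ), InjOn (fun p => J (s, p)) SP →
      Q (fun p => J (0, p)) (fun p => J (s, p)) from h1mem).self_of_nhds h1'.2

end Pool.Agent.Helper70.BI
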