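import Pool.Agent.Helper70.BI.StU

/-!
# Project BI, part (E), module LOC: a germ of an orientation preserving diffeomorphism is undone by
an isotopy with small support
-/

set_option autoImplicit false

open scoped Manifold ContDiff Topology ComplexConjugate
open Set Filter Pool.Agent.Helper65.Barb Pool.Agent.Helper18.BI

namespace Pool.Agent.Helper70.BI

namespace LOC

/-- The linear germ `y ↦ z + A (y - z)` is realized, for `0 < det A`. -/
theorem linGerm (hSM : StSM) (hTR : StTR) (hGL : StGL) (A : R4 →L[ℝ] R4) (hA : 0 < A.det) :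
    ∀ (U : Set R4) (z : R4), IsOpen U → z ∈ U → RealG U z (fun y => z + A (y - z)) := by
  refine hGL R4 (fun A => ∀ (U : Set R4) (z : R4), IsOpen U → z ∈ U →
    RealG U z (fun y => z + A (y - z))) ?_ ?_ A hA
  · intro A B hPA hPB U z hU hz
    have h1 := hPB U z hU hz
    have e1 : (fun y : R4 => z + B (y - z)) z = z := by simp
    have h2 : RealG U ((fun y : R4 => z + B (y - z)) z) (fun y => z + A (y - z)) := by
      rw [e1]; exact hPA U z hU hz
    have hc : ContinuousAt (fun y : R4 => z + B (y - z)) z := by fun_prop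
    have h3 := (hTR R4).1 U z _ _ h1 h2 hc
    have e2 : (fun y : R4 => (fun y => z + A (y - z)) ((fun y : R4 => z + B (y - z)) y)) =
        fun y => z + (A.comp B) (y - z) := by
      funext y
      simp
    rw [e2] at h3
    exact h3
  · obtain ⟨c, hc, h⟩ := hSM R4
    refine ⟨c, hc, fun A hA U z hU hz => ?_⟩
    apply h U z _ hU hz
    · refine Filter.Eventually.of_forall fun y => ?_
      exact (contDiff_const.add (A.contDiff.comp (contDiff_id.sub contDiff_const))).contDiffAt
    · simp
    · have e3 : HasFDerivAt (fun y : R4 => z + A (y - z)) A z := by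
        have h4 : HasFDerivAt (fun y : R4 => y - z) (ContinuousLinearMap.id ℝ R4) z :=
          (hasFDerivAt_id z).sub_const z
        have h5 : HasFDerivAt (fun y : R4 => A (y - z)) (A.comp (ContinuousLinearMap.id ℝ R4)) z :=
          HasFDerivAt.comp (g := fun y : R4 => A y) (f := fun y : R4 => y - z) z
            (A.hasFDerivAt (x := z - z)) h4
        rw [ContinuousLinearMap.comp_id] at h5
        exact h5.const_add z
      rw [e3.fderiv]
      exact hA

end LOC

theorem m_LOC (hSM : StSM) (hTR : StTR) (hGL : StGL) : StLOC := by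
  intro F p U hLD hdet hU hUc hFp hp
  have hF := ld_iff.1 hLD
  -- the local inverse
  obtain ⟨f, hf⟩ : ∃ f : R4 → R4, f = hLD.localInverse := ⟨_, rfl⟩
  have hfs : ContMDiffOn 𝓘(ℝ, R4) 𝓘(ℝ, R4) ∞ f hLD.localInverse.source := by
    rw [hf]; exact hLD.localInverse_contMDiffOn
  have hsrc : IsOpen hLD.localInverse.source := hLD.localInverse_open_source
  have hmem : F p ∈ hLD.localInverse.source := hLD.localInverse_mem_source
  have hfsm : ∀ᶠ y in 𝓝 (F p), ContDiffAt ℝ ∞ f y := by
    filter_upwards [hsrc.mem_nhds hmem] with y hy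
    exact (contMDiffOn_iff_contDiffOn.1 hfs).contDiffAt (hsrc.mem_nhds hy)
  have hleft : f ∘ F =ᶠ[𝓝 p] id := by
    rw [hf]; exact hLD.localInverse_eventuallyEq_left
  have hfp : f (F p) = p := hleft.self_of_nhds
  have dF : DifferentiableAt ℝ F p := hF.1.self_of_nhds.differentiableAt (by simp)
  have df : DifferentiableAt ℝ f (F p) := hfsm.self_of_nhds.differentiableAt (by simp)
  set L : R4 →L[ℝ] R4 := fderiv ℝ f (F p) with hL
  set K : R4 →L[ℝ] R4 := fderiv ℝ F p with hK
  have hLK : L.comp K = ContinuousLinearMap.id ℝ R4 := by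
    have h1 : fderiv ℝ (f ∘ F) p = L.comp K := fderiv_comp p df dF
    rw [← h1, hleft.fderiv_eq, fderiv_id]
  have hLK' : ∀ x, L (K x) = x := fun x => by
    have := congrArg (fun T : R4 →L[ℝ] R4 => T x) hLK
    simpa using this
  have hKL' : ∀ x, K (L x) = x := by
    have h1 : (L : R4 →ₗ[ℝ] R4) ∘ₗ (K : R4 →ₗ[ℝ] R4) = LinearMap.id := by
      apply LinearMap.ext; intro x; simp [hLK']
    have h2 := (LinearMap.comp_eq_id_comm (R := ℝ) (M := R4)).1 h1
    intro x
    have := congrArg (fun T : R4 →ₗ[ℝ] R4 => T x) h2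
    simpa using this
  have hdetL : 0 < L.det := by
    have h1 : (L : R4 →ₗ[ℝ] R4) ∘ₗ (K : R4 →ₗ[ℝ] R4) = LinearMap.id := by
      apply LinearMap.ext; intro x; simp [hLK']
    have h2 : LinearMap.det (L : R4 →ₗ[ℝ] R4) * LinearMap.det (K : R4 →ₗ[ℝ] R4) = 1 := by
      rw [← LinearMap.det_comp, h1, LinearMap.det_id]
    have h3 : 0 < LinearMap.det (K : R4 →ₗ[ℝ] R4) := hdet
    have h4 : 0 < LinearMap.det (L : R4 →ₗ[ℝ] R4) := by
      by_contra h5
      push Not at h5
      nlinarith
    exact h4
  -- step (2)
  obtain ⟨c, hc, hS⟩ := hSM R4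
  have hk : RealG U (F p) (fun y => F p + K (f y - p)) := by
    apply hS U (F p) _ hU hFp
    · filter_upwards [hfsm] with y hy
      exact contDiffAt_const.add (K.contDiff.contDiffAt.comp y (hy.sub contDiffAt_const))
    · simp [hfp]
    · have h1 : HasFDerivAt (fun y => F p + K (f y - p)) (K.comp L) (F p) := by
        have h2 : HasFDerivAt (fun y => f y - p) L (F p) := df.hasFDerivAt.sub_const p
        have h4 : HasFDerivAt (fun y => K (f y - p)) (K.comp L) (F p) :=
          HasFDerivAt.comp (g := fun y : R4 => K y) (f := fun y => f y - p) (F p)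
            (K.hasFDerivAt (x := f (F p) - p)) h2
        exact h4.const_add (F p)
      have h3 : K.comp L = ContinuousLinearMap.id ℝ R4 := by
        apply ContinuousLinearMap.ext
        intro x
        simp [hKL']
      rw [h1.fderiv, h3, sub_self, norm_zero]
      exact hc
  have kc : ContinuousAt (fun y => F p + K (f y - p)) (F p) :=
    continuousAt_const.add (K.continuous.continuousAt.comp (df.continuousAt.sub continuousAt_const))
  -- step (1) and composition
  have hlin := LOC.linGerm hSM hTR hGL L hdetL U (F p) hU hFp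
  have e1 : F p + K (f (F p) - p) = F p := by simp [hfp]
  have h2 : RealG U (F p) (fun y => (fun y => F p + L (y - F p)) ((fun y => F p + K (f y - p)) y)) := by
    refine (hTR R4).1 U (F p) (fun y => F p + K (f y - p)) (fun y => F p + L (y - F p)) hk ?_ kc
    rw [e1]
    exact hlin
  have e2 : (fun y => (fun y => F p + L (y - F p)) ((fun y => F p + K (f y - p)) y)) =
      fun y => F p + (f y - p) := by
    funext y
    simp [hLK']
  rw [e2] at h2
  have h3 : RealG U (F p) (fun y => y + (p - F p)) := (hTR R4).2 U (F p) p hU hUc hFp hp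
  have c2 : ContinuousAt (fun y => F p + (f y - p)) (F p) :=
    continuousAt_const.add (df.continuousAt.sub continuousAt_const)
  have h4 : RealG U (F p) (fun y => (fun y => y + (p - F p)) ((fun y => F p + (f y - p)) y)) := by
    refine (hTR R4).1 U (F p) (fun y => F p + (f y - p)) (fun y => y + (p - F p)) h2 ?_ c2
    have e3 : F p + (f (F p) - p) = F p := by simp [hfp]
    rw [e3]
    exact h3
  obtain ⟨G, h0, hsup, h1⟩ := h4
  refine ⟨G, h0, hsup, ?_⟩
  have cF : ContinuousAt F p := dF.continuousAt
  filter_upwards [cF.eventually h1, hleft] with q hq1 hq2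
  rw [hq1]
  have hq3 : f (F q) = q := hq2
  simp only [hq3]
  abel

end Pool.Agent.Helper70.BI
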