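import Pool.Agent.Helper70.BI.StL
import Pool.Agent.Helper70.BI.M_NF1

/-!
# Project BI, part (E), module E-MWL: the relation `MW`, and `W` is central
-/

set_option autoImplicit false

open scoped Manifold ContDiff Topology ComplexConjugate
open Set Filter Pool.Agent.Helper65.Barb Pool.Agent.Helper18.BI

namespace Pool.Agent.Helper70.BI

open Pool.Agent.Helper27.BI (swp StR2sw)

namespace MWL

/-- a map compactly supported isotopic to itself is smooth -/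
private theorem smooth_of_cisot {φ : R4 → R4} (h : CIsot I4 φ φ) : ContMDiff I4 I4 ∞ φ := by
  obtain ⟨G, -, -, h1⟩ := h
  have e : φ = fun x => G.f (1, x) := funext fun x => (h1 x).symm
  rw [e]
  exact contMDiff_iff_contDiff.2 ((contDiff_dfam G).comp (contDiff_prodMk_right (1 : ℝ)))

/-- theta germs composed with diffeomorphisms -/
private theorem theta_post {φ : R4 → R4} (h : CIsot I4 φ φ) {F : R4 → R4} {α β e d : ℝ}
    (hF : Theta F α β e d) : Theta (fun p => φ (F p)) α β e d := by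
  obtain ⟨G, -, -, h1⟩ := h
  have e : φ = fun x => G.f (1, x) := funext fun x => (h1 x).symm
  rw [e]
  refine ⟨NF1.br_post hF.a G, NF1.br_post hF.b G, ?_, hF.ord⟩
  rw [Set.disjoint_left]
  rintro y ⟨p, hp, rfl⟩ ⟨q, hq, he⟩
  have h2 : F q = F p := NF1.inj_dfam G he
  exact Set.disjoint_left.1 hF.dis ⟨p, hp, rfl⟩ ⟨q, hq, h2⟩

end MWL

/-- **MWL.** Properties of the relation `MW`, and `W` is central. -/
theorem m_MWL (hT2 : StT2) (hCI : StCI) (hSw : StR2sw) : StMWL := by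
  intro W hW
  obtain ⟨ti, tii, tiii, -, -, tvi, tvii⟩ := hT2 R4 R4 I4 R4
  obtain ⟨-, cs, -, ct, cc, cinv, cex, -, -, -⟩ := hCI R4 R4 I4 R4
  have sw := hSw R4 R4 I4 R4
  obtain ⟨F₀, α₀, β₀, hθ, hF₀⟩ := hW.rep
  have hWW : CIsot I4 W W := tvii F₀ W hF₀
  have hsq : ∀ ψ : R4 → R4, CIsot I4 ψ ψ → CIsot I4 (fun x => W (W (ψ x))) ψ := fun ψ hψ =>
    cc (fun x => W (W x)) (fun x => x) ψ ψ hW.sq hψ
  have hcen : ∀ φ : R4 → R4, CIsot I4 φ φ → CIsot I4 (fun x => W (φ x)) (fun x => φ (W x)) := by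
    intro φ hφ
    obtain ⟨φ', hφ', h1, h2⟩ := cex φ hφ
    have a1 : Thin I4 (fun p => φ (F₀ p)) W :=
      hW.all _ α₀ β₀ 1 1 (Or.inl rfl) (Or.inl rfl) (MWL.theta_post hφ hθ)
    have a2 : Thin I4 (fun p => φ (F₀ p)) (fun x => φ (W (φ' x))) :=
      tvi F₀ W φ φ' (MWL.smooth_of_cisot hφ) (MWL.smooth_of_cisot hφ') h1 h2 hF₀
    have a3 := tii _ _ _ a1 a2
    have a4 := cc W (fun x => φ (W (φ' x))) φ φ a3 hφ
    have a5 : (fun x => φ (W (φ' (φ x)))) = fun x => φ (W x) := funext fun x => by rw [h2]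
    rwa [a5] at a4
  refine ⟨hcen, ?_, ?_, ?_, ?_, ?_, ?_⟩
  · intro F φ ψ hφ hψ
    exact Or.inl (tii F ψ φ hψ hφ)
  · intro F G h φ ψ hφ hψ
    rcases h ψ φ hψ hφ with h1 | h1
    · exact Or.inl (cs _ _ h1)
    · refine Or.inr (cs _ _ ?_)
      exact ct _ _ _ (cc W W φ (fun x => W (ψ x)) hWW h1) (hsq ψ (tvii F ψ hψ))
  · intro F G H hG h1 h2 φ ψ hφ hψ
    obtain ⟨ε₀, hε₀, hT⟩ := ti G hG
    have hχ := hT (ε₀ / 2) ⟨by linarith, by linarith⟩
    rcases h1 φ _ hφ hχ with c1 | c1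
    · rcases h2 _ ψ hχ hψ with c2 | c2
      · exact Or.inl (ct _ _ _ c2 c1)
      · exact Or.inr (ct _ _ _ c2 (cc W W _ φ hWW c1))
    · rcases h2 _ ψ hχ hψ with c2 | c2
      · exact Or.inr (ct _ _ _ c2 c1)
      · exact Or.inl (ct _ _ _ c2 (ct _ _ _ (cc W W _ (fun x => W (φ x)) hWW c1)
          (hsq φ (tvii F φ hφ))))
  · intro J t₁ t₂ ht hs he φ ψ hφ hψ
    refine Or.inl ?_
    set a : ℝ × R4 → ℝ × R4 := fun q => (t₁ + q.1 * (t₂ - t₁), q.2) with ha
    have hac : ContDiff ℝ ∞ a :=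
      (contDiff_const.add (contDiff_fst.mul contDiff_const)).prodMk contDiff_snd
    have hmem : ∀ t ∈ Icc (0 : ℝ) 1, t₁ + t * (t₂ - t₁) ∈ Icc t₁ t₂ := by
      intro t h
      constructor
      · nlinarith [h.1]
      · nlinarith [h.2]
    have hfam : FamOn I4 (fun q => J (a q)) SP := by
      rw [famOn_iff]
      refine ⟨fun t h p hp => ?_, fun t h => he _ (hmem t h)⟩
      have h1 := hs (t₁ + t * (t₂ - t₁)) (hmem t h) p hp
      have h2 : Tendsto a (𝓝 (t, p)) (𝓝 (t₁ + t * (t₂ - t₁), p)) :=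
        hac.continuous.tendsto (t, p)
      filter_upwards [h2.eventually h1] with q hq
      exact ContDiffAt.comp q hq hac.contDiffAt
    have h0 : (fun p : R4 => J (a (0, p))) = fun p => J (t₁, p) := by
      funext p; simp [ha]
    have h1 : (fun p : R4 => J (a (1, p))) = fun p => J (t₂, p) := by
      funext p; simp [ha]
    have h2 := tiii (fun q => J (a q)) φ hfam (by rw [h0]; exact hφ)
    rw [h1] at h2
    exact tii _ _ _ hψ h2
  · intro F G hF hG h φ ψ hφ hψ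
    obtain ⟨φ', -, hφ1, hφ2⟩ := cex φ (tvii F φ hφ)
    obtain ⟨ψ', -, hψ1, hψ2⟩ := cex ψ (tvii G ψ hψ)
    have b1 := (sw F φ φ' hF hφ1 hφ2).1 hφ
    have b2 := (sw G ψ ψ' hG hψ1 hψ2).1 hψ
    rcases h φ' ψ' b1 b2 with c1 | c1
    · exact Or.inl (cinv ψ' φ' ψ φ c1 hψ2 hφ2)
    · refine Or.inr ?_
      obtain ⟨W', hW', w1, w2⟩ := cex W hWW
      have d1 : CIsot I4 ψ (fun x => φ (W' x)) :=
        cinv ψ' (fun x => W (φ' x)) ψ (fun x => φ (W' x)) c1 hψ2 fun x => by rw [hφ2, w1]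
      have d2 : CIsot I4 W W' := by
        have d3 := cc W' W' (fun x => W (W x)) (fun x => x) hW' hW.sq
        have d4 : (fun x => W' (W (W x))) = W := funext fun x => w2 (W x)
        rwa [d4] at d3
      exact ct _ _ _ d1 (ct _ _ _ (cc φ φ W' W (tvii F φ hφ) (cs _ _ d2))
        (cs _ _ (hcen φ (tvii F φ hφ))))
  · intro F F' G h hFG φ ψ hφ hψ
    exact hFG φ ψ ((h φ).2 hφ) hψ

end Pool.Agent.Helper70.BI
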