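import Pool.Agent.Helper70.BI.StL
import Pool.Agent.Helper34.BI.Main
import Pool.Agent.Helper18.BI.M_CI

/-!
# Project BI, part (E): the main theorem of stage 2 for `R4`
-/

set_option autoImplicit false

open scoped Manifold ContDiff Topology ComplexConjugate
open Set Filter Pool.Agent.Helper65.Barb Pool.Agent.Helper18.BI

namespace Pool.Agent.Helper70.BI

open Pool.Agent.Helper34.BI (BarData barFam PreCross BFam GenData StCH StCO exists_arcFamily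
  finrank_R4 neck_eq swp_swp swp_mem_SP)
open Pool.Agent.Helper27.BI (swp)

namespace Main2

/-- one crossing with the first cuff -/
theorem crossing (hOB0 : StOB0) (hCRP : StCRP) (hMWL : StMWL) (hT2 : StT2) {W : R4 → R4}
    (hW : IsW W) {J : ℝ × R4 → R4} {t₀ u₀ : ℝ} {p₀ : R4} (hp : PreCross J t₀ u₀ p₀) {ε : ℝ}
    (hε : 0 < ε) :
    ∃ t₁ ∈ Ioo (t₀ - ε) t₀, ∃ t₂ ∈ Ioo t₀ (t₀ + ε), EmbOn I4 (fun p => J (t₁, p)) SP ∧
      EmbOn I4 (fun p => J (t₂, p)) SP ∧ MW W (fun p => J (t₁, p)) (fun p => J (t₂, p)) := by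
  obtain ⟨ti, -, -, -, -, -, tvii⟩ := hT2 R4 R4 𝓘(ℝ, R4) R4
  obtain ⟨-, -, -, ct, cc, -, -, -, -, -⟩ := m_CI R4 R4 𝓘(ℝ, R4) R4
  obtain ⟨-, -, hsymm, -, -, -, -⟩ := hMWL W hW
  obtain ⟨t₁, ht₁, t₂, ht₂, e₁, e₂, t', t'', hor, O, α, e, -, he, hBr, -, -, -, hcl⟩ :=
    hCRP J t₀ u₀ p₀ hp ∅ isCompact_empty (empty_disjoint _) ε hε
  refine ⟨t₁, ht₁, t₂, ht₂, e₁, e₂, ?_⟩
  have hO : EmbOn I4 O SP := ⟨fun p hp => hBr.loc p (Or.inl hp), hBr.inj⟩
  obtain ⟨ε₀, hε₀, hT⟩ := ti O hO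
  have hn := hT (ε₀ / 2) ⟨by linarith, by linarith⟩
  have hmw : MW W (fun p => J (t'', p)) (fun p => J (t', p)) := by
    intro φ'' φ' h'' h'
    have h1 := hcl φ' φ'' _ h' h'' hn
    have h2 := tvii _ φ'' h''
    rcases hOB0 W O α e hW he hBr _ hn with h3 | h3
    · left
      exact ct _ _ _ h1 (cc _ (fun x => x) φ'' φ'' h3 h2)
    · right
      exact ct _ _ _ h1 (cc _ W φ'' φ'' h3 h2)
  rcases hor with ⟨ha, hb⟩ | ⟨ha, hb⟩
  · subst ha hb
    exact hsymm _ _ hmw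
  · subst ha hb
    exact hmw

/-- a germ is embedded if the swapped germ is -/
theorem embOn_of_swp {F : R4 → R4} (hl : ∀ p ∈ SP, LD F p)
    (h : EmbOn I4 (fun p => F (swp p)) SP) : EmbOn I4 F SP := by
  refine ⟨hl, ?_⟩
  intro p hp q hq he
  have h1 := h.2 (swp_mem_SP hp) (swp_mem_SP hq) (by simpa only [swp_swp] using he)
  rw [← swp_swp p, h1, swp_swp]

/-- the family of germs -/
theorem family (hOB0 : StOB0) (hCRP : StCRP) (hMWL : StMWL) (hLGG : StLGG) (hT2 : StT2)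
    {W : R4 → R4} (hW : IsW W) {J : ℝ × R4 → R4} (hJ : BFam J)
    (h0 : EmbOn I4 (fun p => J (0, p)) SP) (h1 : EmbOn I4 (fun p => J (1, p)) SP) :
    MW W (fun p => J (0, p)) (fun p => J (1, p)) := by
  obtain ⟨-, hrefl, hsymm, htrans, hfam, hswp, -⟩ := hMWL W hW
  refine hLGG (MW W) J hrefl hsymm htrans (fun t₁ t₂ => hfam J t₁ t₂) hJ.smooth hJ.loc hJ.finite
    ?_ h0 h1
  intro t ht ε hε
  rcases hJ.cross t ht with ⟨u, p, hp⟩ | ⟨u, p, hp⟩
  · exact crossing hOB0 hCRP hMWL hT2 hW hp hε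
  · obtain ⟨t₁, ht₁, t₂, ht₂, e₁, e₂, hmw⟩ := crossing hOB0 hCRP hMWL hT2 hW hp hε
    have e₁' : EmbOn I4 (fun p => J (t₁, p)) SP := embOn_of_swp (hJ.loc t₁) e₁
    have e₂' : EmbOn I4 (fun p => J (t₂, p)) SP := embOn_of_swp (hJ.loc t₂) e₂
    exact ⟨t₁, ht₁, t₂, ht₂, e₁', e₂', hswp _ _ e₁' e₂' hmw⟩

/-- the construction of the family (as in `Pool/Agent/Helper34/BI/Main.lean`) -/
theorem exists_family (hCH : StCH) (hCO : StCO) (hFr : StFr) {F F' : R4 → R4} {U : Set R4}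
    (hF : EmbOn 𝓘(ℝ, R4) F SP) (hF' : EmbOn 𝓘(ℝ, R4) F' SP) (hU : IsOpen U)
    (hs : sph 0 ∪ sph 1 ⊆ U) (he : EqOn F F' U) :
    ∃ J : ℝ × R4 → R4, BFam J ∧ (fun p => J (0, p)) = F ∧
      EmbOn 𝓘(ℝ, R4) (fun p => J (1, p)) SP ∧
      ∀ φ, Thin 𝓘(ℝ, R4) (fun p => J (1, p)) φ ↔ Thin 𝓘(ℝ, R4) F' φ := by
  obtain ⟨c₀, c₁, δ, hδ, hδ2, s₀, s₁, core, hfr, imm⟩ := hCO F F' U hF hF' hU hs he
  obtain ⟨charts, -, -, -, hcrv, -, -⟩ := hCH F hF
  have ha : (1 / 5 : ℝ) ∈ Icc (1 / 5 : ℝ) (4 / 5) := by norm_num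
  have hb : (4 / 5 : ℝ) ∈ Icc (1 / 5 : ℝ) (4 / 5) := by norm_num
  rw [(core _ ha).1, (core _ hb).1] at charts
  have inj₁ : InjOn c₁ (Icc (1 / 5) (4 / 5)) := by
    intro a ha b hb h
    rw [← (core a ha).2, ← (core b hb).2] at h
    have := hF'.2 (Or.inr (Pool.Agent.Helper34.BI.mem_neck ha.1 ha.2))
      (Or.inr (Pool.Agent.Helper34.BI.mem_neck hb.1 hb.2)) h
    exact congrArg (fun p : R4 => p.2.1) this
  have inj₀ : InjOn c₀ (Icc (1 / 5) (4 / 5)) := by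
    intro a ha b hb h
    rw [← (core a ha).1, ← (core b hb).1] at h
    have := hF.2 (Or.inr (Pool.Agent.Helper34.BI.mem_neck ha.1 ha.2))
      (Or.inr (Pool.Agent.Helper34.BI.mem_neck hb.1 hb.2)) h
    exact congrArg (fun p : R4 => p.2.1) this
  have dis : ∀ (K : R4 → R4), EmbOn 𝓘(ℝ, R4) K SP → ∀ a ∈ Ioo (1 / 5 : ℝ) (4 / 5),
      K (1 / 2, a, 0) ∉ K '' (sph 0 ∪ sph 1) := by
    rintro K hK a ha ⟨p, hp, he⟩
    have := hK.2 (Or.inl hp) (Or.inr (Pool.Agent.Helper34.BI.mem_neck ha.1.le ha.2.le)) he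
    subst this
    rcases hp with hp | hp
    · have := Pool.Agent.Helper34.BI.sph_zero_le hp
      simp only at this
      linarith [ha.1]
    · have := Pool.Agent.Helper34.BI.le_sph_one hp
      simp only at this
      linarith [ha.2]
  have hA : F '' (sph 0 ∪ sph 1) = F' '' (sph 0 ∪ sph 1) := image_congr fun p hp => he (hs hp)
  have dis₀ : ∀ a ∈ Ioo (1 / 5 : ℝ) (4 / 5), c₀ a ∉ F '' (sph 0 ∪ sph 1) := by
    intro a ha
    rw [← (core a ⟨ha.1.le, ha.2.le⟩).1]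
    exact dis F hF a ha
  have dis₁ : ∀ a ∈ Ioo (1 / 5 : ℝ) (4 / 5), c₁ a ∉ F '' (sph 0 ∪ sph 1) := by
    intro a ha
    rw [← (core a ⟨ha.1.le, ha.2.le⟩).2, hA]
    exact dis F' hF' a ha
  obtain ⟨H, hH, avoid, -⟩ := exists_arcFamily (κ := Bool)
    (g := fun b θ => F (Pool.Agent.Helper34.BI.crv b θ))
    finrank_R4 (Complex.finrank_real_complex) hcrv hδ (by linarith) s₀ s₁ hfr
    inj₀ inj₁ (fun u hu => (imm u hu).1) (fun u hu => (imm u hu).2) charts dis₀ dis₁ one_pos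
  have G : GenData F c₀ c₁ δ H := {
    emb := hF
    pos := hδ
    small := hδ2
    smooth₀ := s₀
    core := fun a ha => (core a ha).1
    inj₁ := inj₁
    imm₀ := fun u hu => (imm u hu).1
    imm₁ := fun u hu => (imm u hu).2
    dis₁ := dis₁
    arcs := hH
    avoid := avoid }
  have hJ0 : (fun p => barFam F c₀ H δ (0, p)) = F := by
    funext p
    have e1 : H (0, p.2.1) = c₀ p.2.1 := hH.start 0 _ le_rfl
    have e2 : fderiv ℝ H (0, p.2.1) (0, 1) = deriv c₀ p.2.1 := by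
      rw [← (G.hasDeriv 0 p.2.1).deriv]
      have e : (fun r => H (0, r)) = c₀ := funext fun r => hH.start 0 r le_rfl
      rw [e]
    simp only [barFam, Pool.Agent.Helper34.BI.thick, Pool.Agent.Helper34.BI.thickB, e1, e2,
      sub_self, map_zero, ContinuousLinearMap.zero_comp,
      ContinuousLinearMap.zero_apply, add_zero, smul_zero]
  have emb1 : EmbOn 𝓘(ℝ, R4) (fun p => barFam F c₀ H δ (1, p)) SP := by
    refine G.bar.embOn (G.imm 1) G.injF (G.injH 1) ?_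
    intro a ha
    rw [hH.stop 1 a le_rfl]
    exact dis₁ a ha
  have hU' : IsOpen (U ∩ {p : R4 | p.2.1 < 1 / 5 + δ / 2 ∨ 4 / 5 - δ / 2 < p.2.1}) := by
    have hcont : Continuous (fun q : R4 => q.2.1) := by fun_prop
    exact hU.inter ((isOpen_lt hcont continuous_const).union (isOpen_lt continuous_const hcont))
  refine ⟨barFam F c₀ H δ, G.bfam hCH, hJ0, emb1, ?_⟩
  refine hFr _ F' _ emb1 hF' hU' ?_ ?_ ?_
  · intro p hp
    refine ⟨hs hp, ?_⟩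
    rcases hp with hp | hp
    · exact Or.inl (by linarith [Pool.Agent.Helper34.BI.sph_zero_le hp])
    · exact Or.inr (by linarith [Pool.Agent.Helper34.BI.le_sph_one hp])
  · rintro p ⟨hp1, hp2⟩
    show barFam F c₀ H δ (1, p) = F' p
    rw [G.bar.barFam_eq (hp2.imp le_of_lt le_of_lt)]
    exact he hp1
  · intro p hp
    show barFam F c₀ H δ (1, p) = F' p
    rw [neck_eq hp, G.bar.barFam_neck hp.2.1 hp.2.2.1, hH.stop 1 _ le_rfl,
      (core _ ⟨hp.2.1, hp.2.2.1⟩).2]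

end Main2

theorem m_Main2 (hOB0 : StOB0) (hCRP : StCRP) (hMWL : StMWL) (hLGG : StLGG)
    (hCH : Pool.Agent.Helper34.BI.StCH) (hCO : Pool.Agent.Helper34.BI.StCO) (hFr : StFr)
    (hT2 : StT2) : StMain2 := by
  intro W F F' φ φ' U hW hF hF' hU hs he hφ hφ'
  obtain ⟨J, hJ, hJ0, h1, hT⟩ := Main2.exists_family hCH hCO hFr hF hF' hU hs he
  have h0 : EmbOn I4 (fun p => J (0, p)) SP := by rw [hJ0]; exact hF
  have h := Main2.family hOB0 hCRP hMWL hLGG hT2 hW hJ h0 h1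
  rw [hJ0] at h
  exact h φ φ' hφ ((hT φ').2 hφ')

end Pool.Agent.Helper70.BI
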