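import Pool.Agent.Helper70.BI.M_NF1

/-!
# Project BI, part (E), module NF: normal form at both ends
-/

set_option autoImplicit false

open scoped Manifold ContDiff Topology ComplexConjugate
open Set Filter Pool.Agent.Helper65.Barb Pool.Agent.Helper18.BI

namespace Pool.Agent.Helper70.BI

namespace NF

open Pool.Agent.Helper70.BI.NF1

private theorem sph_subset {c : ℝ} (hc : c = 0 ∨ c = 1) : sph (1 - c) ⊆ SP := by
  rcases hc with rfl | rfl
  · rw [sub_zero]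
    exact fun p hp => Or.inl (Or.inr hp)
  · rw [sub_self]
    exact fun p hp => Or.inl (Or.inl hp)

/-- the data `Br` depend on the germ along `SP ∪ flat c` only -/
private theorem br_congr {c γ e : ℝ} {F F' : R4 → R4} (hc : c = 0 ∨ c = 1) (h : Br c F γ e)
    (hN : ∀ p ∈ SP ∪ flat c, F =ᶠ[𝓝 p] F') : Br c F' γ e := by
  have hE : ∀ p ∈ SP ∪ flat c, F p = F' p := fun p hp => (hN p hp).self_of_nhds
  have hsub : flat c ∪ sph (1 - c) ⊆ SP ∪ flat c := by
    rintro p (hp | hp)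
    · exact Or.inr hp
    · exact Or.inl (sph_subset hc hp)
  have hnk : ∀ a ∈ Icc (1 / 5 : ℝ) (4 / 5), ax a ∈ SP ∪ flat c := fun a ha =>
    Or.inl (Or.inr (ax_mem_neck ha.1 ha.2))
  have himg : F' '' flat c = F '' flat c :=
    image_congr fun p hp => (hE p (Or.inr hp)).symm
  refine ⟨fun p hp => ld_congr (hN p hp) (h.loc p hp),
    h.inj.congr fun p hp => hE p (Or.inl hp), h.injF.congr fun p hp => hE p (hsub hp), h.mem,
    ?_, ?_⟩
  · obtain ⟨x₀, h1, h2, l, v, h3, h4⟩ := h.cr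
    have m1 : ax γ ∈ SP ∪ flat c := hnk γ ⟨h.mem.1.le, h.mem.2.le⟩
    have m2 : ((1 / 2 : ℝ), x₀) ∈ SP ∪ flat c := Or.inr (ball_mem_flat h1)
    refine ⟨x₀, h1, ?_, l, v, h3, ?_⟩
    · show F' (ax γ) = F' (1 / 2, x₀)
      rw [← hE _ m1, ← hE _ m2]
      exact h2
    · rw [← (hN _ m1).fderiv_eq, ← (hN _ m2).fderiv_eq]
      exact h4
  · intro a ha hm
    refine h.only a ha ?_
    rw [himg] at hm
    have h5 : core F' a = core F a := (hE _ (hnk a ha)).symm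
    rwa [h5] at hm

private theorem rsq_flat_other {c : ℝ} (hc : c = 0 ∨ c = 1) {p : R4} (hp : p ∈ flat (1 - c)) :
    1 / 25 ≤ rsq c p := by
  have e : rsq 1 p = rsq 0 p - 2 * p.2.1 + 1 := rsq_one_eq p
  have h0 := sq_le_rsq p
  have h1 := sq_le_rsq_one p
  obtain ⟨-, h2⟩ := hp
  rcases hc with rfl | rfl
  · rw [sub_zero] at h2
    have h3 : 4 / 5 ≤ p.2.1 := by nlinarith
    nlinarith
  · rw [sub_self] at h2
    have h3 : p.2.1 ≤ 1 / 5 := by nlinarith
    nlinarith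

/-- transport of the data at the other end -/
private theorem br_other {c γ e η : ℝ} {F F' : R4 → R4} (hc : c = 0 ∨ c = 1) (G : DFam I4 R4)
    (h : Br (1 - c) F γ e) (hη : 0 < η)
    (h1 : ∀ p, 1 / 25 - η ≤ rsq c p → F' p = G.f (1, F p)) : Br (1 - c) F' γ e := by
  have hc' : 1 - c = 0 ∨ 1 - c = 1 := by
    rcases hc with rfl | rfl
    · right; norm_num
    · left; norm_num
  refine br_congr hc' (br_post h G) fun p hp => ?_
  have h2 : 1 / 25 ≤ rsq c p := by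
    rcases hp with hp | hp
    · exact le_rsq_of_mem_SP hc hp
    · exact rsq_flat_other hc hp
  have hopen : IsOpen {p : R4 | 1 / 25 - η < rsq c p} :=
    isOpen_lt continuous_const (continuous_rsq c)
  have h3 : p ∈ {p : R4 | 1 / 25 - η < rsq c p} := by
    show 1 / 25 - η < rsq c p
    linarith
  filter_upwards [hopen.mem_nhds h3] with q hq
  exact (h1 q (le_of_lt hq)).symm

private theorem image_other {c η : ℝ} {F F' : R4 → R4} (hc : c = 0 ∨ c = 1) (G : DFam I4 R4)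
    (hη : 0 < η) (h1 : ∀ p, 1 / 25 - η ≤ rsq c p → F' p = G.f (1, F p)) :
    F' '' flat (1 - c) = (fun y => G.f (1, y)) '' (F '' flat (1 - c)) := by
  rw [image_image]
  refine image_congr fun p hp => h1 p ?_
  have := rsq_flat_other hc hp
  linarith

private theorem disj_image (G : DFam I4 R4) {A B : Set R4} (h : Disjoint A B) :
    Disjoint ((fun y => G.f (1, y)) '' A) ((fun y => G.f (1, y)) '' B) :=
  (disjoint_image_iff (inj_dfam G)).2 h

private theorem locFB {F : R4 → R4} {α β e d : ℝ} (ha : Br 0 F α e) (hb : Br 1 F β d) :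
    ∀ p ∈ FB, LD F p := by
  rintro p ((hp | hp) | hp)
  · exact ha.loc p (Or.inr hp)
  · exact hb.loc p (Or.inr hp)
  · exact ha.loc p (Or.inl (Or.inr hp))

private theorem det_id {F : R4 → R4} {p : R4} (h : ∀ᶠ q in 𝓝 p, F q = q) :
    0 < (fderiv ℝ F p).det := by
  have h1 : F =ᶠ[𝓝 p] fun q => q := h
  rw [h1.fderiv_eq, fderiv_fun_id, ContinuousLinearMap.det]
  simp

private theorem rank_R4 : 1 < Module.rank ℝ R4 := by
  have h : Module.finrank ℝ R4 = 4 := by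
    simp [Module.finrank_prod]
  rw [← Module.finrank_eq_rank, h]
  norm_num

/-- composition of a strand function with the affine parametrization -/
private theorem affine_strand {τ : ℝ → ℝ} {γ e x : ℝ}
    (hs : ∀ᶠ s in 𝓝 (1 / 2 : ℝ), ContDiffAt ℝ ∞ τ s) (hv : τ (1 / 2) = γ)
    (hd : 0 < e * deriv τ (1 / 2)) :
    (∀ᶠ a in 𝓝 x, ContDiffAt ℝ ∞ (fun a => τ (1 / 2 + e * (a - x))) a) ∧
      τ (1 / 2 + e * (x - x)) = γ ∧ 0 < deriv (fun a => τ (1 / 2 + e * (a - x))) x := by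
  have hlim : Tendsto (fun a : ℝ => 1 / 2 + e * (a - x)) (𝓝 x) (𝓝 (1 / 2)) := by
    have : ContinuousAt (fun a : ℝ => 1 / 2 + e * (a - x)) x := by fun_prop
    have h := this.tendsto
    simpa using h
  refine ⟨?_, ?_, ?_⟩
  · filter_upwards [hlim.eventually hs] with a ha
    exact ha.comp a (by fun_prop)
  · rw [sub_self, mul_zero, add_zero, hv]
  · have h7 : HasDerivAt (fun a : ℝ => 1 / 2 + e * (a - x)) e x := by
      have := (((hasDerivAt_id x).sub_const x).const_mul e).const_add (1 / 2)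
      simpa using this
    have h8 : HasDerivAt τ (deriv τ (1 / 2)) (1 / 2 + e * (x - x)) := by
      rw [sub_self, mul_zero, add_zero]
      exact (hs.self_of_nhds.differentiableAt (by simp)).hasDerivAt
    have h9 := (h8.comp x h7).deriv
    have h10 : deriv (fun a => τ (1 / 2 + e * (a - x))) x = deriv τ (1 / 2) * e := h9
    rw [h10]
    linarith

end NF

open NF NF1 in
/-- **MODULE NF.** -/
theorem m_NF (hNF1 : StNF1) (hNF2 : StNF2) (hRM : StRM) (hRG : StRG) (hDET : StDET)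
    (hF : StFam) : StNF := by
  have _ := hF
  intro F α β e d he hd hT hdet
  have hneck : ∀ a ∈ Icc (1 / 5 : ℝ) (4 / 5), ax a ∈ FB := fun a ha =>
    Or.inr (ax_mem_neck ha.1 ha.2)
  -- first end
  have hdet0 : 0 < (fderiv ℝ F (ax (1 / 5 + 3 / 5 * 0))).det := by
    refine hDET F FB (Or.inl rfl) (locFB hT.a hT.b) _ (hneck (1 / 2) ⟨by norm_num, by norm_num⟩) _
      (hneck _ ⟨by norm_num, by norm_num⟩) hdet
  obtain ⟨F₁, G, hE1, hA1, hS1, hc1, hid1, -, -, ⟨η, hη, hG1⟩, himg1⟩ :=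
    hNF1 0 F α e univ (Or.inl rfl) hT.a hdet0 isOpen_univ isPreconnected_univ (mem_univ _)
      (mem_univ _)
  have hB1 : Br 1 F₁ β d := by
    have h := br_other (c := 0) (Or.inl rfl) G (F := F) (F' := F₁) (γ := β) (e := d) (η := η)
      (by rw [sub_zero]; exact hT.b) hη hG1
    rwa [sub_zero] at h
  have hdis1 : Disjoint (F₁ '' flat 0) (F₁ '' flat 1) := by
    have h := image_other (c := 0) (Or.inl rfl) G hη hG1
    rw [sub_zero] at h
    rw [himg1, h]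
    exact disj_image G hT.dis
  -- second end
  have hdet1 : 0 < (fderiv ℝ F₁ (ax (1 / 5 + 3 / 5 * 1))).det := by
    refine hDET F₁ FB (Or.inl rfl) (locFB hA1 hB1) (ax 0) (Or.inl (Or.inl (centre_mem_flat 0))) _
      (hneck _ ⟨by norm_num, by norm_num⟩) (det_id hid1)
  have hU1 : core F₁ β ∈ ({ax 0}ᶜ : Set R4) := by
    intro h
    obtain ⟨x₀, h1, h2, -⟩ := hB1.cr
    have m1 : ax 0 ∈ F₁ '' flat 0 := ⟨ax 0, centre_mem_flat 0, hid1.self_of_nhds⟩
    have m2 : ax 0 ∈ F₁ '' flat 1 := by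
      refine ⟨(1 / 2, x₀), ball_mem_flat h1, ?_⟩
      rw [← h2]
      exact h
    exact Set.disjoint_left.1 hdis1 m1 m2
  have hU2 : ax 1 ∈ ({ax 0}ᶜ : Set R4) := by
    intro h
    have h1 : (1 : ℝ) = 0 := congrArg (fun p : R4 => p.2.1) h
    exact one_ne_zero h1
  obtain ⟨F₂, G', hE2, hB2, hS2, hc2, hid2, -, ⟨C, hC, hCU, hG'C⟩, ⟨η', hη', hG2⟩, himg2⟩ :=
    hNF1 1 F₁ β d {ax 0}ᶜ (Or.inr rfl) hB1 hdet1 isOpen_compl_singleton
      (isConnected_compl_singleton_of_one_lt_rank rank_R4 _).isPreconnected hU1 hU2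
  have hA2 : Br 0 F₂ α e := by
    have h := br_other (c := 1) (Or.inr rfl) G' (F := F₁) (F' := F₂) (γ := α) (e := e) (η := η')
      (by rw [sub_self]; exact hA1) hη' hG2
    rwa [sub_self] at h
  have hdis2 : Disjoint (F₂ '' flat 0) (F₂ '' flat 1) := by
    have h := image_other (c := 1) (Or.inr rfl) G' hη' hG2
    rw [sub_self] at h
    rw [himg2, h]
    exact disj_image G' hdis1
  -- `F₂` near `ax 0`
  have hG'id : ∀ᶠ y in 𝓝 (ax 0), G'.f (1, y) = y := by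
    have h1 : ax 0 ∈ Cᶜ := fun h => hCU h rfl
    filter_upwards [hC.isClosed.isOpen_compl.mem_nhds h1] with y hy
    exact hG'C 1 y hy
  have hopen : IsOpen {p : R4 | 1 / 25 - η' < rsq 1 p} :=
    isOpen_lt continuous_const (continuous_rsq 1)
  have hax0 : ax 0 ∈ {p : R4 | 1 / 25 - η' < rsq 1 p} := by
    show 1 / 25 - η' < rsq 1 (ax 0)
    rw [rsq_ax]
    norm_num
    linarith
  have hF2near : ∀ᶠ q in 𝓝 (ax 0), F₂ q = G'.f (1, F₁ q) := by
    filter_upwards [hopen.mem_nhds hax0] with q hq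
    exact hG2 q (le_of_lt hq)
  have hid20 : ∀ᶠ q in 𝓝 (ax 0), F₂ q = q := by
    filter_upwards [hF2near, hid1, hG'id] with q h1 h2 h3
    rw [h1, h2, h3]
  -- the strands
  obtain ⟨τ₀, t1, t2, t3, t4⟩ := hS1
  obtain ⟨τ₁, u1, u2, u3, u4⟩ := hS2
  have t5 : ∀ᶠ s in 𝓝 (1 / 2 : ℝ), F₂ (s, pc 0) = core F₂ (τ₀ s) := by
    have c1 : ContinuousAt τ₀ (1 / 2) := t1.self_of_nhds.continuousAt
    have c2 : ∀ᶠ s in 𝓝 (1 / 2 : ℝ), τ₀ s < 4 / 5 := by
      refine c1.eventually (Iio_mem_nhds ?_)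
      rw [t2]
      exact hA1.mem.2
    have c3 : ContinuousAt (fun s : ℝ => ((s, pc 0) : R4)) (1 / 2) := by fun_prop
    have c4 : ∀ᶠ s in 𝓝 (1 / 2 : ℝ), F₂ (s, pc 0) = G'.f (1, F₁ (s, pc 0)) :=
      c3.eventually hF2near
    filter_upwards [c2, c4, t4] with s h1 h2 h3
    have h4 : core F₂ (τ₀ s) = G'.f (1, core F₁ (τ₀ s)) := by
      refine hG2 _ ?_
      rw [rsq_ax]
      nlinarith
    rw [h2, h3, h4]
  obtain ⟨p1, p2, p3⟩ := affine_strand (x := 3 / 5) t1 t2 t3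
  obtain ⟨q1, q2, q3⟩ := affine_strand (x := 2 / 5) u1 u2 u3
  obtain ⟨m, hm, hm1, hm2⟩ := hRM.2 (2 / 5) (3 / 5) β α
    (fun a => τ₁ (1 / 2 + d * (a - 2 / 5))) (fun a => τ₀ (1 / 2 + e * (a - 3 / 5)))
    (by norm_num) (by norm_num) (by norm_num) hB1.mem.1 hT.ord hA1.mem.2 q1 p1 q2 p2 q3 p3
  obtain ⟨δ₀, hδ₀, n0⟩ := hNF2 0 F₂ α (3 / 5) e τ₀ m (Or.inl rfl) he hA2 hid20 t2 t5 hm
    ⟨by norm_num, by norm_num⟩ hm2
  obtain ⟨δ₁, hδ₁, n1⟩ := hNF2 1 F₂ β (2 / 5) d τ₁ m (Or.inr rfl) hd hB2 hid2 u2 u4 hm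
    ⟨by norm_num, by norm_num⟩ hm1
  have hδ : 0 < min δ₀ δ₁ := lt_min hδ₀ hδ₁
  have N0 := n0 (min δ₀ δ₁) ⟨hδ, min_le_left _ _⟩
  have N1 := n1 (min δ₀ δ₁) ⟨hδ, min_le_right _ _⟩
  obtain ⟨-, -, r3, -, -, r6⟩ := hRG m hm
  have himg : ∀ c : ℝ, (c = 0 ∨ c = 1) → (fun p => F₂ (repm m p)) '' flat c = F₂ '' flat c := by
    intro c hc
    refine image_congr fun p hp => ?_
    rw [(r3 c hc p hp).self_of_nhds]
  refine ⟨fun p => F₂ (repm m p), min δ₀ δ₁, ⟨⟨N0.br, N1.br, ?_, by norm_num⟩, N0, N1⟩, ?_⟩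
  · rw [himg 0 (Or.inl rfl), himg 1 (Or.inr rfl)]
    exact hdis2
  · exact hE1.trans (hE2.trans (r6 F₂ (embOn_of_br hA2)).2)

end Pool.Agent.Helper70.BI
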