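import Pool.Agent.Helper70.BI.StU

/-!
# Project BI, part (E): module NF2 (reparametrization of a germ in normal form)
-/

set_option autoImplicit false

open scoped Manifold ContDiff Topology ComplexConjugate
open Set Filter Pool.Agent.Helper65.Barb Pool.Agent.Helper18.BI

namespace Pool.Agent.Helper70.BI

namespace NF2

/-- the axis has velocity `(0, (1, 0))` -/
private theorem hasDerivAt_ax (a : ℝ) : HasDerivAt ax ((0 : ℝ), ((1 : ℝ), (0 : ℂ))) a := by
  unfold ax
  exact (hasDerivAt_const a (1 / 2 : ℝ)).prodMk ((hasDerivAt_id a).prodMk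
    (hasDerivAt_const a (0 : ℂ)))

private theorem sph_subset_flat (c : ℝ) : sph c ⊆ flat c := fun _ hp => ⟨hp.1, hp.2.le⟩

private theorem ax_mem_flat (c : ℝ) : ax c ∈ flat c := by
  refine ⟨rfl, ?_⟩
  simp [rsq, nsq, ax]

end NF2

/-- **MODULE NF2.** -/
theorem m_NF2 (hRG : StRG) : StNF2 := by
  intro c F γ γ' e τ m hc he hB hid hτ hst hm hγ' hmτ
  obtain ⟨h1, h2, h3, h4, h5, h6⟩ := hRG m hm
  have hF : EmbOn I4 F SP := ⟨fun p hp => hB.loc p (Or.inl hp), hB.inj⟩
  obtain ⟨hG, -⟩ := h6 F hF
  have hc' : (1 - c = 0 ∨ 1 - c = 1) := by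
    rcases hc with rfl | rfl
    · right; norm_num
    · left; norm_num
  -- `F'` near flat points
  have hfl : ∀ d : ℝ, (d = 0 ∨ d = 1) → ∀ p ∈ flat d, F =ᶠ[𝓝 p] fun p => F (repm m p) := by
    intro d hd p hp
    filter_upwards [h3 d hd p hp] with q hq
    rw [hq]
  have hfl' : ∀ d : ℝ, (d = 0 ∨ d = 1) → ∀ p ∈ flat d, F (repm m p) = F p := fun d hd p hp =>
    (hfl d hd p hp).self_of_nhds.symm
  have hcore : ∀ a, core (fun p => F (repm m p)) a = core F (m a) := by
    intro a
    simp only [core, h2]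
  have hee : e * e = 1 := by rcases he with rfl | rfl <;> norm_num
  -- the strand
  have hlim : Tendsto (fun a : ℝ => 1 / 2 + e * (a - γ')) (𝓝 γ') (𝓝 (1 / 2)) := by
    have : ContinuousAt (fun a : ℝ => 1 / 2 + e * (a - γ')) γ' := by fun_prop
    have h := this.tendsto
    simpa using h
  have hidax : ∀ᶠ s in 𝓝 (1 / 2 : ℝ), F (s, pc c) = (s, pc c) := by
    have : ContinuousAt (fun s : ℝ => ((s, pc c) : R4)) (1 / 2) := by fun_prop
    exact this.eventually hid
  have hstr : ∀ᶠ a in 𝓝 γ', core (fun p => F (repm m p)) a = (1 / 2 + e * (a - γ'), pc c) := by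
    filter_upwards [hmτ, hlim.eventually hst, hlim.eventually hidax] with a e1 e2 e3
    rw [hcore, e1, ← e2, e3]
  have hnear : ∀ᶠ q in 𝓝 (ax c), F (repm m q) = q := by
    filter_upwards [hid, h3 c hc (ax c) (NF2.ax_mem_flat c)] with q e1 e2
    rw [e2, e1]
  have hgc : m γ' = γ := by
    have h7 := hmτ.self_of_nhds
    rwa [sub_self, mul_zero, add_zero, hτ] at h7
  have hfoot : m (1 / 5 + 3 / 5 * c) = 1 / 5 + 3 / 5 * c := by
    obtain ⟨-, -, η, hη, hid'⟩ := hm
    rcases hc with rfl | rfl
    · exact hid' _ (Or.inl (by linarith))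
    · exact hid' _ (Or.inr (by linarith))
  have himg : (fun p => F (repm m p)) '' flat c = F '' flat c :=
    image_congr fun p hp => hfl' c hc p hp
  have hbr : Br c (fun p => F (repm m p)) γ' e := by
    refine ⟨?_, hG.2, ?_, hγ', ?_, ?_⟩
    · rintro p (hp | hp)
      · exact hG.1 p hp
      · exact ld_congr (hfl c hc p hp) (hB.loc p (Or.inr hp))
    · refine hB.injF.congr ?_
      rintro p (hp | hp)
      · exact (hfl' c hc p hp).symm
      · exact (hfl' (1 - c) hc' p (NF2.sph_subset_flat _ hp)).symm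
    · refine ⟨pc c, by simp [nsq], ?_, e, 0, by rw [hee]; exact one_pos, ?_⟩
      · have e1 := hstr.self_of_nhds
        rw [e1]
        have e2 := hnear.self_of_nhds
        have e3 : ((1 / 2, pc c) : R4) = ax c := rfl
        simp only [sub_self, mul_zero, add_zero]
        rw [e3, e2]
      · -- the derivatives
        have hn : ax γ' ∈ SP := Or.inr ⟨rfl, hγ'.1.le, hγ'.2.le, rfl⟩
        have hd : DifferentiableAt ℝ (fun p => F (repm m p)) (ax γ') :=
          (ld_iff.1 (hG.1 _ hn)).1.self_of_nhds.differentiableAt (by simp)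
        have d1 : HasDerivAt (core (fun p => F (repm m p)))
            (fderiv ℝ (fun p => F (repm m p)) (ax γ') ((0 : ℝ), ((1 : ℝ), (0 : ℂ)))) γ' :=
          hd.hasFDerivAt.comp_hasDerivAt γ' (NF2.hasDerivAt_ax γ')
        have d2 : HasDerivAt (fun a : ℝ => ((1 / 2 + e * (a - γ'), pc c) : R4)) (e, 0) γ' := by
          have h7 : HasDerivAt (fun a : ℝ => 1 / 2 + e * (a - γ')) e γ' := by
            have := (((hasDerivAt_id γ').sub_const γ').const_mul e).const_add (1 / 2)
            simpa using this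
          exact h7.prodMk (hasDerivAt_const γ' (pc c))
        have d3 := d1.unique (d2.congr_of_eventuallyEq hstr)
        have d4 : fderiv ℝ (fun p => F (repm m p)) (1 / 2, pc c) =
            ContinuousLinearMap.id ℝ R4 := by
          have h8 : (fun p => F (repm m p)) =ᶠ[𝓝 ((1 / 2, pc c) : R4)] fun p => p := hnear
          rw [h8.fderiv_eq]
          exact fderiv_fun_id
        rw [d3, d4]
        rfl
    · intro a ha hmem
      rw [himg, hcore] at hmem
      rcases hB.only (m a) (h4 a ha) hmem with h7 | h7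
      · left
        exact h5.injective (h7.trans hfoot.symm)
      · right
        exact h5.injective (h7.trans hgc.symm)
  obtain ⟨δ₁, hδ₁, hn⟩ := Metric.eventually_nhds_iff.1 hnear
  obtain ⟨δ₂, hδ₂, hs⟩ := Metric.eventually_nhds_iff.1 hstr
  refine ⟨min (1 / 100) (min δ₁ δ₂), by positivity, fun δ hδ => ⟨hbr, hδ.1, ?_, ?_, ?_⟩⟩
  · exact hδ.2.trans (min_le_left _ _)
  · intro p hp
    refine hn ?_
    rw [dist_eq_norm]
    exact lt_of_lt_of_le hp (hδ.2.trans ((min_le_right _ _).trans (min_le_left _ _)))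
  · intro a ha
    refine hs ?_
    rw [Real.dist_eq]
    exact lt_of_lt_of_le ha (hδ.2.trans ((min_le_right _ _).trans (min_le_right _ _)))

end Pool.Agent.Helper70.BI
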