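import Pool.Agent.Helper70.BI.StL
import Pool.Agent.Helper70.BI.M_NF1

/-!
# Project BI, part (E), module NO: a germ whose bar stays near the ball but does not cross it
-/

set_option autoImplicit false

open scoped Manifold ContDiff Topology ComplexConjugate
open Set Filter Pool.Agent.Helper65.Barb Pool.Agent.Helper18.BI

namespace Pool.Agent.Helper70.BI

open Pool.Agent.Helper34.BI (cfac BarData barFam)
open NF1

namespace NO

theorem isCompact_sph (c : ℝ) : IsCompact (sph c) := by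
  apply Metric.isCompact_of_isClosed_isBounded
  · apply IsClosed.inter (isClosed_eq continuous_fst continuous_const)
    exact isClosed_eq (continuous_rsq c) continuous_const
  · exact (isBounded_of_rsq c (1 / 25) (1 / 2) (1 / 2)).subset
      (fun p hp => ⟨hp.1.ge, hp.1.le, hp.2.le⟩)

/-- a continuous function which omits a value on a compact set stays away from it -/
theorem exists_far {X : Type*} [TopologicalSpace X] {K : Set X} (hK : IsCompact K) {f : X → R4}
    (hf : ContinuousOn f K) {y : R4} (hy : ∀ p ∈ K, f p ≠ y) :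
    ∃ m : ℝ, 0 < m ∧ ∀ p ∈ K, m ≤ ‖f p - y‖ := by
  have h1 : IsClosed (f '' K) := (hK.image_of_continuousOn hf).isClosed
  have h2 : y ∈ (f '' K)ᶜ := by
    rintro ⟨p, hp, he⟩
    exact hy p hp he
  obtain ⟨m, hm, h3⟩ := Metric.isOpen_iff.1 h1.isOpen_compl y h2
  refine ⟨m, hm, fun p hp => ?_⟩
  by_contra hlt
  push Not at hlt
  exact h3 (Metric.mem_ball.2 (by rwa [dist_eq_norm])) ⟨p, hp, rfl⟩

theorem norm_ax_sub (a b : ℝ) : ‖ax a - ax b‖ = |a - b| := by
  unfold ax
  rw [Prod.norm_def, Prod.norm_def]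
  simp

theorem sph_zero_le {p : R4} (h : p ∈ sph 0) : p.2.1 ≤ 1 / 5 := by
  have h1 := sq_le_rsq p
  rw [h.2] at h1
  have h2 : p.2.1 ^ 2 ≤ (1 / 5 : ℝ) ^ 2 := h1.trans (by norm_num)
  have h3 : |p.2.1| ≤ 1 / 5 := abs_le_of_sq_le_sq h2 (by norm_num)
  exact (le_abs_self _).trans h3

theorem le_flat_one {p : R4} (h : p ∈ flat 1) : 4 / 5 ≤ p.2.1 := by
  have h1 := sq_le_rsq_one p
  have h2 : rsq 1 p ≤ 1 / 25 := h.2
  have h4 : (p.2.1 - 1) ^ 2 ≤ (1 / 5 : ℝ) ^ 2 := (h1.trans h2).trans (by norm_num)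
  have h5 : |p.2.1 - 1| ≤ 1 / 5 := abs_le_of_sq_le_sq h4 (by norm_num)
  have h3 : -(1 / 5) ≤ p.2.1 - 1 := (abs_le.1 h5).1
  linarith only [h3]

theorem neck_eq {p : R4} (h : p ∈ neck) : p = ax p.2.1 :=
  Prod.ext h.1 (Prod.ext rfl h.2.2.2)

theorem fix_of_le {p : R4} (h : p.2.1 ≤ 7 / 10) : 9 / 100 ≤ rsq 1 p := by
  have h1 := sq_le_rsq_one p
  have h2 : (3 / 10 : ℝ) ^ 2 ≤ (1 - p.2.1) ^ 2 := pow_le_pow_left₀ (by norm_num) (by linarith) 2
  have h3 : (1 - p.2.1) ^ 2 = (p.2.1 - 1) ^ 2 := by ring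
  rw [h3] at h2
  exact (show (9 / 100 : ℝ) ≤ (3 / 10) ^ 2 by norm_num).trans (h2.trans h1)

theorem norm_ax_line {lam a : ℝ} (hl : 0 < lam) (ha : a ≤ 1) :
    ‖ax (1 - lam * (1 - a)) - ax 1‖ = lam * (1 - a) := by
  rw [norm_ax_sub, show 1 - lam * (1 - a) - 1 = -(lam * (1 - a)) by ring, abs_neg,
    abs_of_nonneg (mul_nonneg hl.le (sub_nonneg.2 ha))]

theorem fderiv_snd_aux {q : ℝ → R4} (hq : ContDiff ℝ ∞ q) (a : ℝ) :
    fderiv ℝ (fun z : ℝ × ℝ => q z.2) (0, a) (0, 1) = deriv q a := by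
  have h1 : HasDerivAt q (deriv q a) a := (hq.differentiable (by simp) a).hasDerivAt
  have h2 : HasFDerivAt (fun z : ℝ × ℝ => z.2) (ContinuousLinearMap.snd ℝ ℝ ℝ) (0, a) :=
    hasFDerivAt_snd
  have h3 : HasFDerivAt (fun z : ℝ × ℝ => q z.2)
      ((ContinuousLinearMap.toSpanSingleton ℝ (deriv q a)).comp
        (ContinuousLinearMap.snd ℝ ℝ ℝ)) (0, a) :=
    HasFDerivAt.comp (g := q) (f := fun z : ℝ × ℝ => z.2) ((0 : ℝ), a) h1.hasFDerivAt h2
  rw [h3.fderiv]
  simp

theorem low_lt {p : R4} (h : p ∈ sph 0) (h' : p ∈ flat 1) : False := by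
  have h1 := sph_zero_le h
  have h2 := le_flat_one h'
  linarith only [h1, h2]

theorem abs_aux {x : ℝ} (h : |x - 2 / 5| < 1 / 100) :
    1 / 5 ≤ x ∧ x ≤ 7 / 10 ∧ x ≤ 4 / 5 := by
  obtain ⟨h1, h2⟩ := abs_lt.1 h
  exact ⟨by linarith only [h1], by linarith only [h2], by linarith only [h2]⟩

theorem mul_lt_aux {lam x y b : ℝ} (hl : 0 < lam) (hx : x ≤ b) (h : lam * b < y) : lam * x < y :=
  (mul_le_mul_of_nonneg_left hx hl.le).trans_lt h

end NO

open NO

theorem m_NO (hNO1 : StNO1) (hCTR : StCTR) (hCL : StCL)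
    (hCO : Pool.Agent.Helper34.BI.StCO) : StNO := by
  intro F d δ r₁ hd hNB hr₁
  have hδ := hNB.pos
  have hδ1 := hNB.small
  have hbr := hNB.br
  have hz : (1 : ℝ) - 1 = 0 := by norm_num
  have hinjF : InjOn F (flat 1 ∪ sph 0) := by
    have := hbr.injF
    rwa [hz] at this
  have hfoot : (1 : ℝ) / 5 + 3 / 5 * 1 = 4 / 5 := by norm_num
  have hcen : F (ax 1) = ax 1 := hNB.near _ (by rw [sub_self, norm_zero]; exact hδ)
  have hc25 : core F (2 / 5) = ax 1 := by
    rw [hNB.str (2 / 5) (by rw [sub_self, abs_zero]; exact hδ)]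
    unfold ax pc
    simp
  -- the two distances
  have hF0 : ContinuousOn F (sph 0) := fun p hp =>
    ((ld_iff.1 (hbr.loc p (Or.inl (Or.inl (Or.inl hp))))).1.self_of_nhds.continuousAt).continuousWithinAt
  obtain ⟨m₁, hm₁, hfar₁⟩ := exists_far (isCompact_sph 0) hF0 (y := ax 1) (by
    intro p hp he
    have h1 : p = ax 1 := hinjF (Or.inr hp) (Or.inl (centre_mem_flat 1)) (he.trans hcen.symm)
    have h2 := sph_zero_le hp
    rw [h1] at h2
    simp only [ax] at h2
    norm_num at h2)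
  have hax : Continuous ax := by
    unfold ax
    fun_prop
  have hK : IsCompact (Icc (1 / 5 : ℝ) (4 / 5) ∩ {a | δ ≤ |a - 2 / 5|}) :=
    isCompact_Icc.inter_right (isClosed_le continuous_const (by fun_prop))
  have hFc : ContinuousOn (core F) (Icc (1 / 5 : ℝ) (4 / 5) ∩ {a | δ ≤ |a - 2 / 5|}) := by
    intro a ha
    have h1 : ax a ∈ SP := Or.inr (ax_mem_neck ha.1.1 ha.1.2)
    have h2 : ContinuousAt F (ax a) := (ld_iff.1 (hbr.loc _ (Or.inl h1))).1.self_of_nhds.continuousAt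
    have h3 : ContinuousAt (core F) a :=
      ContinuousAt.comp (g := F) (f := ax) h2 hax.continuousAt
    exact h3.continuousWithinAt
  obtain ⟨m₂, hm₂, hfar₂⟩ := exists_far hK hFc (y := ax 1) (by
    intro a ha he
    have h1 : ax a ∈ SP := Or.inr (ax_mem_neck ha.1.1 ha.1.2)
    have h2 : ax (2 / 5) ∈ SP := Or.inr (ax_mem_neck (by norm_num) (by norm_num))
    have h3 : ax a = ax (2 / 5) := hbr.inj h1 h2 (he.trans hc25.symm)
    have h4 : a = 2 / 5 := congrArg (fun p : R4 => p.2.1) h3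
    have h5 : δ ≤ |a - 2 / 5| := ha.2
    rw [h4, sub_self, abs_zero] at h5
    linarith only [h5, hδ])
  set r : ℝ := min (min (m₁ / 2) (m₂ / 2)) (min (δ / 2) (r₁ / 2)) with hrdef
  have hr0 : 0 < r := lt_min (lt_min (half_pos hm₁) (half_pos hm₂)) (lt_min (half_pos hδ) (half_pos hr₁))
  have hrm₁ : r < m₁ := by
    have : r ≤ m₁ / 2 := (min_le_left _ _).trans (min_le_left _ _)
    exact this.trans_lt (half_lt_self hm₁)
  have hrm₂ : r < m₂ := by
    have : r ≤ m₂ / 2 := (min_le_left _ _).trans (min_le_right _ _)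
    exact this.trans_lt (half_lt_self hm₂)
  have hrδ : r < δ := by
    have : r ≤ δ / 2 := (min_le_right _ _).trans (min_le_left _ _)
    exact this.trans_lt (half_lt_self hδ)
  have hrr₁ : r < r₁ := by
    have : r ≤ r₁ / 2 := (min_le_right _ _).trans (min_le_right _ _)
    exact this.trans_lt (half_lt_self hr₁)
  clear_value r
  have hsph : ∀ p ∈ sph 0, r < ‖F p - ax 1‖ := fun p hp => hrm₁.trans_le (hfar₁ p hp)
  refine ⟨r, r, hr0, hrr₁, hrδ, hr0, hsph,
    fun a ha h => hrm₂.trans_le (hfar₂ a ⟨ha, h⟩), ?_⟩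
  intro lam hlam
  have hl0 := hlam.1
  have hlr := hlam.2
  have hlmem : lam ∈ Ioc (0 : ℝ) 1 := ⟨hl0, by linarith only [hlr, hrδ, hδ1]⟩
  obtain ⟨-, -, hcl⟩ := hCL 1 (Or.inr rfl)
  obtain ⟨hemb, hfst, hin, hout, -, hle, -⟩ := hcl lam hlmem
  -- the contracted germ
  have hEl : EmbOn I4 (fun p => F (clc 1 lam p)) SP :=
    (hCTR 1 F (2 / 5) (Or.inr rfl) hbr.loc hbr.inj hbr.injF (hc25.trans hcen.symm) hbr.only
      lam hlmem).1
  have hloc : ∀ p ∈ flat 1, LD (fun p => F (clc 1 lam p)) p := fun p hp =>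
    ld_comp (F := F) (m := clc 1 lam) (hemb.1 p (mem_univ _))
      (hbr.loc _ (Or.inr ⟨(hfst p).trans hp.1, (hle p).trans hp.2⟩))
  set Fl : R4 → R4 := fun p => F (clc 1 lam p) with hFl
  have hFlv : ∀ p, Fl p = F (clc 1 lam p) := fun _ => rfl
  clear_value Fl
  have hFleq : ∀ p : R4, p.2.1 ≤ 7 / 10 → Fl p = F p := fun p hp => by
    rw [hFlv p, hout p (fix_of_le hp)]
  have hflat : ∀ p ∈ flat 1, clc 1 lam p ∈ flat 1 := fun p hp =>
    ⟨(hfst p).trans hp.1, (hle p).trans hp.2⟩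
  -- values on the flat ball
  have hFlflat : ∀ p ∈ flat 1, (Fl p).1 = 1 / 2 ∧ 1 - lam / 5 ≤ (Fl p).2.1 := by
    intro p hp
    have h1 : clc 1 lam p = (p.1, pc 1 + lam • (p.2 - pc 1)) := hin p (hp.2.trans (by norm_num))
    have hx := sq_le_rsq_one p
    have hx2 : rsq 1 p ≤ 1 / 25 := hp.2
    have hp1 : |p.2.1 - 1| ≤ 1 / 5 := by
      apply abs_le_of_sq_le_sq _ (by norm_num)
      linarith only [hx, hx2]
    have hp2 : ‖p.2.2‖ ≤ 1 / 5 := by
      have h3 : ‖p.2.2‖ ^ 2 ≤ (1 / 5) ^ 2 := by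
        rw [← Complex.normSq_eq_norm_sq, Complex.normSq_apply]
        unfold rsq nsq at hx2
        simp only at hx2
        linarith only [hx2, sq_nonneg (p.2.1 - 1)]
      exact le_of_sq_le_sq h3 (by norm_num)
    have h2 : ‖clc 1 lam p - ax 1‖ < δ := by
      rw [h1, hp.1, Prod.norm_def, Prod.norm_def]
      refine max_lt ?_ (max_lt ?_ ?_)
      · simp [ax, hδ]
      · simp only [ax, pc, Prod.snd_sub, Prod.fst_sub, Prod.fst_add, Prod.smul_fst,
          smul_eq_mul, Real.norm_eq_abs]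
        rw [show 1 + lam * (p.2.1 - 1) - 1 = lam * (p.2.1 - 1) by ring, abs_mul, abs_of_pos hl0]
        exact mul_lt_aux hl0 hp1 (by linarith only [hlr, hrδ, hl0])
      · simp only [ax, pc, Prod.snd_sub, Prod.snd_add, Prod.smul_snd, zero_add, sub_zero]
        rw [norm_smul, Real.norm_eq_abs, abs_of_pos hl0]
        exact mul_lt_aux hl0 hp2 (by linarith only [hlr, hrδ, hl0])
    have h3 : Fl p = clc 1 lam p := (hFlv p).trans (hNB.near _ h2)
    rw [h3, h1]
    refine ⟨hp.1, ?_⟩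
    simp only [pc, Prod.fst_add, Prod.smul_fst, Prod.fst_sub, smul_eq_mul]
    have := mul_le_mul_of_nonneg_left (abs_le.1 hp1).1 hl0.le
    linarith only [this]
  -- the core
  obtain ⟨c₀, _c₁, _δ', -, -, hc₀, -, hc1, -, hc2⟩ := hCO Fl Fl univ hEl hEl isOpen_univ
    (subset_univ _) (fun _ _ => rfl)
  have hcore : ∀ a ∈ Icc (1 / 5 : ℝ) (4 / 5), Fl (ax a) = c₀ a := fun a ha => (hc1 a ha).1
  have hinjc : InjOn c₀ (Icc (1 / 5) (4 / 5)) := by
    intro a ha b hb he
    rw [← hcore a ha, ← hcore b hb] at he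
    have h1 := hEl.2 (Or.inr (ax_mem_neck ha.1 ha.2)) (Or.inr (ax_mem_neck hb.1 hb.2)) he
    exact congrArg (fun p : R4 => p.2.1) h1
  have hlow : ∀ a ∈ Icc (1 / 5 : ℝ) (4 / 5), a ≤ 7 / 10 → c₀ a = core F a := fun a ha h => by
    rw [← hcore a ha]
    exact hFleq (ax a) h
  have hmid : ∀ a, |a - 2 / 5| < δ → c₀ a = (1 / 2 + d * (a - 2 / 5), pc 1) := by
    intro a ha
    obtain ⟨h1, h2, h3⟩ := abs_aux (ha.trans_le hδ1)
    exact (hlow a ⟨h1, h3⟩ h2).trans (hNB.str a ha)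
  have hhigh : ∀ a ∈ Icc (39 / 50 : ℝ) (4 / 5), c₀ a = ax (1 - lam * (1 - a)) := by
    intro a ha
    have h0 : c₀ a = F (clc 1 lam (ax a)) :=
      (hcore a ⟨le_trans (by norm_num) ha.1, ha.2⟩).symm.trans (hFlv (ax a))
    have h1 : clc 1 lam (ax a) = ax (1 - lam * (1 - a)) := by
      rw [hin (ax a) (by
        rw [rsq_ax]
        exact (sq_le_sq' (b := 11 / 50) (by linarith only [ha.1]) (by linarith only [ha.2])).trans
          (by norm_num))]
      refine Prod.ext rfl (Prod.ext ?_ ?_)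
      · simp only [ax, pc, Prod.fst_add, Prod.smul_fst, Prod.fst_sub, smul_eq_mul]
        ring
      · simp [ax, pc]
    rw [h0, h1]
    apply hNB.near
    rw [norm_ax_line hl0 (ha.2.trans (by norm_num))]
    exact mul_lt_aux (b := 1) hl0 (by linarith only [ha.1]) (by linarith only [hlr, hrδ])
  obtain ⟨q, hq, hqlow, hqhigh, hqmid, hqinj, hqd⟩ := hNO1 c₀ d δ r lam hd hl0 hlr hrδ hδ1 hc₀
    hinjc (fun a ha => (hc2 a ha).1) hmid hhigh
  -- the family
  have hH : ContDiff ℝ ∞ (fun z : ℝ × ℝ => q z.2) := hq.comp contDiff_snd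
  have D : BarData Fl c₀ (fun z => q z.2) (1 / 100) := by
    refine ⟨hEl.1, by norm_num, by norm_num, hc₀, hH, hcore, ?_⟩
    rintro t a (h | h)
    · exact hqlow a (by linarith only [h, hrδ, hδ1])
    · exact hqhigh a (by linarith only [h])
  have himm : ∀ a ∈ Icc (1 / 5 : ℝ) (4 / 5),
      fderiv ℝ (fun z : ℝ × ℝ => q z.2) (0, a) (0, 1) ≠ 0 := fun a ha => by
    rw [fderiv_snd_aux hq]
    exact hqd a ha
  -- the path does not meet the contracted ball before its end
  have hoff : ∀ a ∈ Ico (1 / 5 : ℝ) (4 / 5), q a ∉ Fl '' flat 1 := by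
    intro a ha hm
    have ha' : a ∈ Icc (1 / 5 : ℝ) (4 / 5) := ⟨ha.1, ha.2.le⟩
    obtain ⟨p, hp, he⟩ := hm
    rcases le_or_gt a (2 / 5 - r / 2) with h1 | h1
    · have e0 : q a = core F a := (hqlow a h1).trans (hlow a ha' (by linarith only [h1, hr0]))
      have h2 : core F a ∈ F '' flat 1 :=
        ⟨clc 1 lam p, hflat p hp, (hFlv p).symm.trans (he.trans e0)⟩
      rcases hbr.only a ha' h2 with h3 | h3
      · rw [h3, hfoot] at ha
        exact lt_irrefl _ ha.2
      · rw [h3] at h1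
        linarith only [h1, hr0]
    · obtain ⟨e1, e2⟩ := hFlflat p hp
      rcases le_or_gt a (79 / 100) with h2 | h2
      · rw [he] at e1 e2
        rcases (hqmid a ⟨h1.le, h2⟩).2 with h3 | h3
        · rw [e1] at h3
          simp at h3
        · linarith only [h3, e2, hlr, hl0]
      · have e0 : Fl p = ax (1 - lam * (1 - a)) :=
          he.trans ((hqhigh a h2.le).trans (hhigh a ⟨le_trans (by norm_num) h2.le, ha.2.le⟩))
        rw [e0] at e2
        change 1 - lam / 5 ≤ 1 - lam * (1 - a) at e2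
        have h5 := mul_lt_mul_of_pos_left (show (1 / 5 : ℝ) < 1 - a by linarith only [ha.2]) hl0
        linarith only [h5, e2]
  have hdis : ∀ a ∈ Ioo (1 / 5 : ℝ) (4 / 5), q a ∉ Fl '' (sph 0 ∪ sph 1) := by
    intro a ha hm
    have ha' : a ∈ Icc (1 / 5 : ℝ) (4 / 5) := ⟨ha.1.le, ha.2.le⟩
    obtain ⟨p, hp | hp, he⟩ := hm
    · by_cases hc : a ∈ Icc (2 / 5 - r / 2) (79 / 100 : ℝ)
      · have h1 := (hqmid a hc).1
        rw [← he, hFleq p (by linarith only [sph_zero_le hp])] at h1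
        exact lt_asymm h1 (hsph p hp)
      · have h1 : q a = Fl (ax a) := by
          rw [hcore a ha']
          rcases le_or_gt a (2 / 5 - r / 2) with h2 | h2
          · exact hqlow a h2
          · refine hqhigh a ?_
            by_contra h3
            push Not at h3
            exact hc ⟨h2.le, h3.le⟩
        rw [h1] at he
        have h2 := hEl.2 (Or.inl (Or.inl hp)) (Or.inr (ax_mem_neck ha'.1 ha'.2)) he
        rw [h2] at hp
        have h3 := sph_zero_le hp
        simp only [ax] at h3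
        linarith only [h3, ha.1]
    · exact hoff a ⟨ha.1.le, ha.2⟩ ⟨p, ⟨hp.1, hp.2.le⟩, he⟩
  have hES : EmbOn I4 (fun p => barFam Fl c₀ (fun z => q z.2) (1 / 100) (0, p)) SP :=
    D.embOn himm (hEl.2.mono fun p hp => Or.inl hp) hqinj hdis
  set G : R4 → R4 := fun p => barFam Fl c₀ (fun z => q z.2) (1 / 100) (0, p) with hG
  have hGlow : ∀ p : R4, p.2.1 ≤ 1 / 5 + 1 / 200 → G p = Fl p := fun p hp =>
    D.barFam_eq (Or.inl (by linarith only [hp]))
  have hGhigh : ∀ p : R4, 4 / 5 - 1 / 200 ≤ p.2.1 → G p = Fl p := fun p hp =>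
    D.barFam_eq (Or.inr (by linarith only [hp]))
  have hGcore : ∀ a ∈ Icc (1 / 5 : ℝ) (4 / 5), core G a = q a := fun a ha =>
    D.barFam_neck ha.1 ha.2
  clear_value G
  have hGflat : ∀ p ∈ flat 1, G p = Fl p := fun p hp =>
    hGhigh p (le_trans (by norm_num) (le_flat_one hp))
  have hFlinj : ∀ p ∈ flat 1, ∀ p' ∈ flat 1, Fl p = Fl p' → p = p' := fun p hp p' hp' he =>
    hemb.2 (mem_univ _) (mem_univ _) (hinjF (Or.inl (hflat p hp)) (Or.inl (hflat p' hp'))
      ((hFlv p).symm.trans (he.trans (hFlv p'))))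
  -- a point of the flat ball and a point of the spine
  have key : ∀ p ∈ flat 1, ∀ p' ∈ SP, G p = G p' → p = p' := by
    intro p hp p' hp' he
    rw [hGflat p hp] at he
    rcases hp' with (h | h) | h
    · exfalso
      have e1 : G p' = F p' := (hGlow p' ((sph_zero_le h).trans (by norm_num))).trans
        (hFleq p' ((sph_zero_le h).trans (by norm_num)))
      have h1 : clc 1 lam p = p' :=
        hinjF (Or.inl (hflat p hp)) (Or.inr h) ((hFlv p).symm.trans (he.trans e1))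
      exact low_lt h (h1 ▸ hflat p hp)
    · have h' : p' ∈ flat 1 := ⟨h.1, h.2.le⟩
      exact hFlinj p hp p' h' (he.trans (hGflat p' h'))
    · rcases eq_or_lt_of_le h.2.2.1 with h1 | h1
      · have h' : p' ∈ flat 1 := by
          have := foot_mem_flat (c := 1) (Or.inr rfl)
          rw [hfoot, ← h1, ← neck_eq h] at this
          exact this
        exact hFlinj p hp p' h' (he.trans (hGflat p' h'))
      · exfalso
        have h2 : G p' = q p'.2.1 := by
          conv_lhs => rw [neck_eq h]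
          exact hGcore _ ⟨h.2.1, h1.le⟩
        rw [h2] at he
        exact hoff p'.2.1 ⟨h.2.1, h1⟩ ⟨p, hp, he⟩
  refine ⟨G, ⟨?_, ?_⟩, fun p hp => ?_, fun p hp => (hGhigh p hp).trans (hFlv p),
    fun a ha => ?_, fun a ha => ?_⟩
  · rintro p (hp | hp)
    · exact hES.1 p hp
    · have h1 : Fl =ᶠ[𝓝 p] G := by
        have h2 : ∀ᶠ y : R4 in 𝓝 p, 4 / 5 - 1 / 200 < y.2.1 := by
          have hcont : Continuous (fun y : R4 => y.2.1) := by fun_prop
          exact (isOpen_lt continuous_const hcont).mem_nhds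
            (show (4 / 5 - 1 / 200 : ℝ) < p.2.1 from lt_of_lt_of_le (by norm_num) (le_flat_one hp))
        filter_upwards [h2] with y hy
        exact (hGhigh y hy.le).symm
      exact ld_congr h1 (hloc p hp)
  · rintro p (hp | hp) p' (hp' | hp') he
    · exact hES.2 hp hp' he
    · exact (key p' hp' p hp he.symm).symm
    · exact key p hp p' hp' he
    · exact hFlinj p hp p' hp' ((hGflat p hp).symm.trans (he.trans (hGflat p' hp')))
  · exact (hGlow p hp).trans (hFleq p (hp.trans (by norm_num)))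
  · have h1 : a ≤ 7 / 10 := by linarith only [ha.2, hr0]
    have h2 : a ∈ Icc (1 / 5 : ℝ) (4 / 5) := ⟨ha.1, h1.trans (by norm_num)⟩
    exact (hGcore a h2).trans ((hqlow a ha.2).trans (hlow a h2 h1))
  · rw [hGcore a ⟨by linarith only [ha.1, hrδ, hδ1], ha.2⟩]
    rcases le_or_gt a (79 / 100) with h | h
    · exact (hqmid a ⟨ha.1, h⟩).1
    · have e1 : q a = ax (1 - lam * (1 - a)) :=
        (hqhigh a h.le).trans (hhigh a ⟨le_trans (by norm_num) h.le, ha.2⟩)
      rw [e1, norm_ax_line hl0 (ha.2.trans (by norm_num))]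
      exact mul_lt_aux (b := 1) hl0 (by linarith only [h]) (by linarith only [hlr])

end Pool.Agent.Helper70.BI
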