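import Pool.Agent.Helper70.BI.StL
import Pool.Agent.Helper34.BI.Arcs

/-!
# Project BI, module E-NO1: a path which stays near the ball but does not cross it
-/

set_option autoImplicit false

open scoped Manifold ContDiff Topology ComplexConjugate
open Set Filter Pool.Agent.Helper65.Barb Pool.Agent.Helper18.BI

namespace Pool.Agent.Helper70.BI

namespace NO1

open Pool.Agent.Helper34.BI (hat contDiff_hat hat_ne_zero hat_eq_zero hat_nonneg hat_le_one fam
  GenPos exists_genPos)

/-- the part of the ball where the path is allowed -/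
def UU (d r lam : ℝ) : Set R4 :=
  {p | ‖p - ax 1‖ < r ∧ (d * (p.1 - 1 / 2) < 0 ∨ p.2.1 < 1 - lam / 5)}

theorem norm_lt {p : R4} {r : ℝ} (h1 : |p.1 - 1 / 2| < r) (h2 : |p.2.1 - 1| < r)
    (h3 : ‖p.2.2‖ < r) : ‖p - ax 1‖ < r := by
  rw [Prod.norm_def, max_lt_iff]
  refine ⟨h1, ?_⟩
  rw [Prod.norm_def, max_lt_iff]
  refine ⟨h2, ?_⟩
  change ‖p.2.2 - 0‖ < r
  rwa [sub_zero]

theorem isOpen_UU (d r lam : ℝ) : IsOpen (UU d r lam) := by
  have h0 : IsOpen {p : R4 | ‖p - ax 1‖ < r} :=
    isOpen_lt (by fun_prop) continuous_const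
  have h1 : IsOpen {p : R4 | d * (p.1 - 1 / 2) < 0} :=
    isOpen_lt (by fun_prop) continuous_const
  have h2 : IsOpen {p : R4 | p.2.1 < 1 - lam / 5} :=
    isOpen_lt (by fun_prop) continuous_const
  exact h0.inter (h1.union h2)

theorem isPreconnected_UU {d r lam : ℝ} (hd : d = 1 ∨ d = -1) (hlam : 0 < lam) (hlr : lam < r) :
    IsPreconnected (UU d r lam) := by
  have cB : Convex ℝ {p : R4 | ‖p - ax 1‖ < r} := by
    have : {p : R4 | ‖p - ax 1‖ < r} = Metric.ball (ax 1) r := by
      ext p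
      simp [dist_eq_norm]
    rw [this]
    exact convex_ball _ _
  have c1 : Convex ℝ {p : R4 | d * (p.1 - 1 / 2) < 0} := by
    rcases hd with h | h
    · have : {p : R4 | d * (p.1 - 1 / 2) < 0} = {p : R4 | p.1 < 1 / 2} := by
        ext p
        simp only [mem_setOf_eq, h]
        constructor <;> intro h <;> linarith
      rw [this]
      exact convex_halfSpace_lt (LinearMap.fst ℝ ℝ (ℝ × ℂ)).isLinear _
    · have : {p : R4 | d * (p.1 - 1 / 2) < 0} = {p : R4 | 1 / 2 < p.1} := by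
        ext p
        simp only [mem_setOf_eq, h]
        constructor <;> intro h <;> linarith
      rw [this]
      exact convex_halfSpace_gt (LinearMap.fst ℝ ℝ (ℝ × ℂ)).isLinear _
  have c2 : Convex ℝ {p : R4 | p.2.1 < 1 - lam / 5} :=
    convex_halfSpace_lt ((LinearMap.fst ℝ ℝ ℂ).comp (LinearMap.snd ℝ ℝ (ℝ × ℂ))).isLinear _
  have key := IsPreconnected.union ((1 / 2 - d * (r / 2), (1 - lam / 2, 0)) : R4) ?_ ?_
    (cB.inter c1).isPreconnected (cB.inter c2).isPreconnected
  · have : UU d r lam = ({p : R4 | ‖p - ax 1‖ < r} ∩ {p : R4 | d * (p.1 - 1 / 2) < 0}) ∪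
        ({p : R4 | ‖p - ax 1‖ < r} ∩ {p : R4 | p.2.1 < 1 - lam / 5}) := by
      rw [← inter_union_distrib_left]
      rfl
    rw [this]
    exact key
  all_goals
    have hr : 0 < r := hlam.trans hlr
    have hn : ‖((1 / 2 - d * (r / 2), (1 - lam / 2, 0)) : R4) - ax 1‖ < r := by
      refine norm_lt ?_ ?_ ?_
      · change |1 / 2 - d * (r / 2) - 1 / 2| < r
        rw [abs_lt]
        rcases hd with h | h <;> rw [h] <;> constructor <;> linarith
      · change |1 - lam / 2 - 1| < r
        rw [abs_lt]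
        constructor <;> linarith
      · change ‖(0 : ℂ)‖ < r
        rwa [norm_zero]
    refine ⟨hn, ?_⟩
  · change d * (1 / 2 - d * (r / 2) - 1 / 2) < 0
    rcases hd with h | h <;> rw [h] <;> linarith
  · change 1 - lam / 2 < 1 - lam / 5
    linarith

end NO1

open NO1 Pool.Agent.Helper34.BI in
theorem m_NO1 (hPATH : StPATH) : StNO1 := by
  intro c d δ r lam hd hlam hlr hrδ hδ hc hinj hder hmid hend
  have hr : 0 < r := hlam.trans hlr
  have hdd : d * d = 1 := by rcases hd with h | h <;> rw [h] <;> norm_num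
  -- the path
  have side1 : ∀ a ∈ Icc (2 / 5 - r / 2) (2 / 5 - r / 2 + r / 4), c a ∈ UU d r lam := by
    rintro a ⟨h1, h2⟩
    have h3 : |a - 2 / 5| < δ := by rw [abs_lt]; constructor <;> linarith
    rw [hmid a h3]
    refine ⟨norm_lt ?_ ?_ ?_, Or.inl ?_⟩
    · change |1 / 2 + d * (a - 2 / 5) - 1 / 2| < r
      rw [abs_lt]
      rcases hd with h | h <;> rw [h] <;> constructor <;> linarith
    · change |(1 : ℝ) - 1| < r
      rwa [sub_self, abs_zero]
    · change ‖(0 : ℂ)‖ < r
      rwa [norm_zero]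
    · change d * (1 / 2 + d * (a - 2 / 5) - 1 / 2) < 0
      have : d * (1 / 2 + d * (a - 2 / 5) - 1 / 2) = (d * d) * (a - 2 / 5) := by ring
      rw [this, hdd]
      linarith
  have side2 : ∀ a ∈ Icc (79 / 100 - r / 4) (79 / 100 : ℝ), c a ∈ UU d r lam := by
    rintro a ⟨h1, h2⟩
    have h3 : a ∈ Icc (39 / 50 : ℝ) (4 / 5) := ⟨by linarith, by linarith⟩
    rw [hend a h3]
    refine ⟨norm_lt ?_ ?_ ?_, Or.inr ?_⟩
    · change |(1 / 2 : ℝ) - 1 / 2| < r
      rwa [sub_self, abs_zero]
    · change |1 - lam * (1 - a) - 1| < r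
      rw [abs_lt]
      constructor <;> nlinarith
    · change ‖(0 : ℂ)‖ < r
      rwa [norm_zero]
    · change 1 - lam * (1 - a) < 1 - lam / 5
      nlinarith
  obtain ⟨q₀, hq₀, hl, hR, hU⟩ := hPATH (UU d r lam) (2 / 5 - r / 2) (79 / 100) (r / 4) c c
    (isOpen_UU d r lam) (isPreconnected_UU hd hlam hlr) (by linarith) (by linarith) hc hc side1 side2
  -- the room around the path
  obtain ⟨ε, hε, hball⟩ : ∃ ε : ℝ, 0 < ε ∧ ∀ a ∈ Icc (2 / 5 - r / 2) (79 / 100 : ℝ), ∀ e : R4,
      ‖e‖ < ε → q₀ a + e ∈ UU d r lam := by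
    have hK : IsCompact (q₀ '' Icc (2 / 5 - r / 2) (79 / 100 : ℝ)) :=
      isCompact_Icc.image hq₀.continuous
    have hsub : q₀ '' Icc (2 / 5 - r / 2) (79 / 100 : ℝ) ⊆ UU d r lam := by
      rintro _ ⟨a, ha, rfl⟩
      exact hU a ha
    obtain ⟨ε, hε, hth⟩ := hK.exists_thickening_subset_open (isOpen_UU d r lam) hsub
    refine ⟨ε, hε, fun a ha e he => hth ?_⟩
    rw [Metric.mem_thickening_iff]
    refine ⟨q₀ a, ⟨a, ha, rfl⟩, ?_⟩
    rw [dist_eq_norm, add_sub_cancel_left]
    exact he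
  let h : ℝ × ℝ → R4 := fun p => q₀ p.2
  let χ : ℝ → ℝ := hat (2 / 5 - r / 2) (79 / 100)
  have hχ : ContDiff ℝ ∞ χ := contDiff_hat _ _
  have hh : ContDiff ℝ ∞ h := hq₀.comp contDiff_snd
  have hE : Module.finrank ℝ R4 = 4 := by
    simp [R4, Complex.finrank_real_complex]
  obtain ⟨v, w, hv, hw, hgp⟩ := exists_genPos (E := R4) (Y := ℂ) (h := h) (ρ := fun _ => 1)
    (χ := χ) hE Complex.finrank_real_complex hh contDiff_const hχ (ι := Empty) (κ := Empty)
    (f := fun i => i.elim) (T := fun i => i.elim) (fun i => i.elim) (fun i => i.elim)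
    (g := fun i => i.elim) (fun i => i.elim) (half_pos hε)
  let H : ℝ × ℝ → R4 := fam h (fun _ => 1) χ v w
  have hH : ContDiff ℝ ∞ H := by
    have e1 : ContDiff ℝ ∞ (fun p : ℝ × ℝ => χ p.2) := hχ.comp contDiff_snd
    have e2 : ContDiff ℝ ∞ (fun p : ℝ × ℝ => v + p.2 • w) := by fun_prop
    exact hh.add ((contDiff_const.mul e1).smul e2)
  let q : ℝ → R4 := fun a => H (0, a)
  have hqd : ∀ a, q a = q₀ a + χ a • (v + a • w) := by
    intro a
    change q₀ a + (1 * χ a) • (v + a • w) = _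
    rw [one_mul]
  have hq : ContDiff ℝ ∞ q := hH.comp (contDiff_const.prodMk contDiff_id)
  have hql : ∀ a, a ≤ 2 / 5 - r / 2 → q a = c a := by
    intro a ha
    have e1 : χ a = 0 := hat_eq_zero (Or.inl ha)
    rw [hqd, e1, zero_smul, add_zero, hl a (by linarith)]
  have hqr : ∀ a, 79 / 100 ≤ a → q a = c a := by
    intro a ha
    have e1 : χ a = 0 := hat_eq_zero (Or.inr ha)
    rw [hqd, e1, zero_smul, add_zero, hR a (by linarith)]
  have hone : (1 : ℝ) ≠ 0 := one_ne_zero
  refine ⟨q, hq, hql, hqr, ?_, ?_, ?_⟩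
  · intro a ha
    have e2 : ‖χ a • (v + a • w)‖ < ε := by
      have f1 : ‖χ a‖ ≤ 1 := by
        rw [Real.norm_eq_abs, abs_of_nonneg (hat_nonneg _ _ _)]
        exact hat_le_one _ _ _
      have f2 : ‖a • w‖ ≤ ‖w‖ := by
        rw [norm_smul, Real.norm_eq_abs]
        have : |a| ≤ 1 := by rw [abs_le]; constructor <;> linarith [ha.1, ha.2]
        nlinarith [norm_nonneg w]
      have f3 : ‖v + a • w‖ ≤ ‖v‖ + ‖a • w‖ := norm_add_le _ _
      rw [norm_smul]
      have f4 : ‖χ a‖ * ‖v + a • w‖ ≤ 1 * ‖v + a • w‖ :=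
        mul_le_mul_of_nonneg_right f1 (norm_nonneg _)
      linarith
    have e3 := hball a ha _ e2
    rw [← hqd] at e3
    exact e3
  · intro u hu u' hu' he
    by_contra hne
    by_cases k : χ u = 0 ∧ χ u' = 0
    · have side : ∀ x, χ x = 0 → q x = c x := by
        intro x hx
        have h5 : ¬ (2 / 5 - r / 2 < x ∧ x < 79 / 100) := fun h => (hat_ne_zero.2 h) hx
        rcases le_or_gt x (2 / 5 - r / 2) with h6 | h6
        · exact hql x h6
        · exact hqr x (not_lt.1 fun h7 => h5 ⟨h6, h7⟩)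
      rw [side u k.1, side u' k.2] at he
      exact hne (hinj hu hu' he)
    · have k' : χ u ≠ 0 ∨ χ u' ≠ 0 := by
        by_contra hcon
        push Not at hcon
        exact k hcon
      exact hgp.inj 0 u u' hone hne k' he
  · intro a ha
    rcases le_or_gt a (2 / 5 - r / 2) with h6 | h6
    · have d1 : derivWithin q (Iic (2 / 5 - r / 2)) a = deriv q a :=
        (hq.differentiable (by simp) a).derivWithin (uniqueDiffOn_Iic _ a h6)
      have d2 : derivWithin c (Iic (2 / 5 - r / 2)) a = deriv c a :=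
        (hc.differentiable (by simp) a).derivWithin (uniqueDiffOn_Iic _ a h6)
      have d3 : derivWithin q (Iic (2 / 5 - r / 2)) a = derivWithin c (Iic (2 / 5 - r / 2)) a :=
        derivWithin_congr (fun x hx => hql x hx) (hql a h6)
      rw [← d1, d3, d2]
      exact hder a ha
    · rcases lt_or_ge a (79 / 100) with h7 | h7
      · have h8 := hgp.imm 0 a hone (hat_ne_zero.2 ⟨h6, h7⟩)
        have h9 : HasDerivAt q (fderiv ℝ H (0, a) (0, 1)) a := by
          have g1 : HasFDerivAt H (fderiv ℝ H (0, a)) (0, a) :=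
            (hH.differentiable (by simp) (0, a)).hasFDerivAt
          have g2 : HasDerivAt (fun a : ℝ => ((0 : ℝ), a)) ((0 : ℝ), (1 : ℝ)) a :=
            (hasDerivAt_const a (0 : ℝ)).prodMk (hasDerivAt_id a)
          exact g1.comp_hasDerivAt a g2
        rw [h9.deriv]
        exact h8
      · have d1 : derivWithin q (Ici (79 / 100)) a = deriv q a :=
          (hq.differentiable (by simp) a).derivWithin (uniqueDiffOn_Ici _ a h7)
        have d2 : derivWithin c (Ici (79 / 100)) a = deriv c a :=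
          (hc.differentiable (by simp) a).derivWithin (uniqueDiffOn_Ici _ a h7)
        have d3 : derivWithin q (Ici (79 / 100)) a = derivWithin c (Ici (79 / 100)) a :=
          derivWithin_congr (fun x hx => hqr x hx) (hqr a h7)
        rw [← d1, d3, d2]
        exact hder a ha

end Pool.Agent.Helper70.BI
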