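import Pool.Agent.Helper70.BI.StL

/-!
# Project BI, part (E), module OB0: the class of a germ with `Br 0` is `1` or `W`
-/

set_option autoImplicit false

open scoped Manifold ContDiff Topology ComplexConjugate
open Set Filter Pool.Agent.Helper65.Barb Pool.Agent.Helper18.BI

namespace Pool.Agent.Helper70.BI

open Pool.Agent.Helper27.BI (refh refs swp StVanT StRefH StRefS StR2sw)

namespace OB0

/-- the linear part of `swp` -/
private noncomputable def L : R4 →L[ℝ] R4 :=
  (ContinuousLinearMap.id ℝ ℝ).prodMap ((-(ContinuousLinearMap.id ℝ ℝ)).prodMap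
    (Complex.conjCLE : ℂ →L[ℝ] ℂ))

private theorem swp_eq : swp = fun p => L p + (0, (1, 0)) := by
  funext p
  refine Prod.ext ?_ (Prod.ext ?_ ?_)
  · change p.1 = p.1 + 0
    ring
  · change 1 - p.2.1 = -p.2.1 + 1
    ring
  · change conj p.2.2 = conj p.2.2 + 0
    ring

private theorem inv (p : R4) : swp (swp p) = p := by simp [swp]

private theorem LL (v : R4) : L (L v) = v := Prod.ext rfl (Prod.ext (neg_neg _) (Complex.conj_conj _))

private theorem der (p : R4) : HasFDerivAt swp L p := by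
  rw [swp_eq]
  exact L.hasFDerivAt.add_const _

private theorem ld (p : R4) : LD swp p := by
  rw [ld_iff]
  refine ⟨Eventually.of_forall fun q => ?_, ?_⟩
  · rw [swp_eq]
    exact (L.contDiff.add contDiff_const).contDiffAt
  · rw [(der p).fderiv]
    intro x y hxy
    rw [← LL x, hxy, LL]

private theorem injective : Function.Injective swp := fun x y hxy => by
  rw [← inv x, hxy, inv]

private theorem rsq_w (c : ℝ) (p : R4) : rsq c (swp p) = rsq (1 - c) p := by
  simp only [rsq, nsq, swp, Complex.conj_re, Complex.conj_im]; ring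

private theorem SPm {p : R4} (hp : p ∈ SP) : swp p ∈ SP := by
  rcases hp with (hp | hp) | hp
  · exact Or.inl (Or.inr ⟨hp.1, by rw [rsq_w, sub_self]; exact hp.2⟩)
  · exact Or.inl (Or.inl ⟨hp.1, by rw [rsq_w, sub_zero]; exact hp.2⟩)
  · refine Or.inr ⟨hp.1, ?_, ?_, ?_⟩
    · change 1 / 5 ≤ 1 - p.2.1
      linarith [hp.2.2.1]
    · change 1 - p.2.1 ≤ 4 / 5
      linarith [hp.2.1]
    · change conj p.2.2 = 0
      rw [hp.2.2.2, map_zero]

private theorem flatm {p : R4} (hp : p ∈ flat 1) : swp p ∈ flat 0 :=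
  ⟨hp.1, by rw [rsq_w, sub_zero]; exact hp.2⟩

private theorem sphm {p : R4} (hp : p ∈ sph 0) : swp p ∈ sph 1 :=
  ⟨hp.1, by rw [rsq_w, sub_self]; exact hp.2⟩

private theorem ax_w (a : ℝ) : swp (ax a) = ax (1 - a) := by
  refine Prod.ext rfl (Prod.ext rfl ?_)
  change conj (0 : ℂ) = 0
  rw [map_zero]

private theorem fd {F : R4 → R4} {p : R4} (hF : LD F (swp p)) :
    fderiv ℝ (fun p => F (swp p)) p = (fderiv ℝ F (swp p)).comp L := by
  have h1 : DifferentiableAt ℝ F (swp p) :=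
    ((ld_iff.1 hF).1.self_of_nhds).differentiableAt (by simp)
  exact (h1.hasFDerivAt.comp p (der p)).fderiv

private theorem rsq_half (c : ℝ) (x : R3) : rsq c ((1 / 2 : ℝ), x) = nsq (x - pc c) := by
  simp [rsq, pc, nsq]

private theorem br {F : R4 → R4} {γ e : ℝ} (hF : Br 0 F γ e) :
    Br 1 (fun p => F (swp p)) (1 - γ) (-e) where
  loc p hp := by
    refine ld_comp (ld p) (hF.loc _ ?_)
    rcases hp with hp | hp
    · exact Or.inl (SPm hp)
    · exact Or.inr (flatm hp)
  inj p hp q hq he := injective (hF.inj (SPm hp) (SPm hq) he)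
  injF p hp q hq he := by
    have hm : ∀ p ∈ flat 1 ∪ sph (1 - 1), swp p ∈ flat 0 ∪ sph (1 - 0) := by
      rw [sub_self, sub_zero]
      rintro p (hp | hp)
      · exact Or.inl (flatm hp)
      · exact Or.inr (sphm hp)
    exact injective (hF.injF (hm p hp) (hm q hq) he)
  mem := ⟨by linarith [hF.mem.2], by linarith [hF.mem.1]⟩
  cr := by
    obtain ⟨x₀, h1, h2, l, v, h3, h4⟩ := hF.cr
    have hx₀ : ((1 / 2 : ℝ), x₀) ∈ flat 0 := ⟨rfl, by rw [rsq_half]; exact h1.le⟩
    have e2 : swp (1 / 2, (swp (1 / 2, x₀)).2) = (1 / 2, x₀) := inv (1 / 2, x₀)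
    have e7 : swp (ax (1 - γ)) = ax γ := by rw [ax_w, sub_sub_cancel]
    refine ⟨(swp (1 / 2, x₀)).2, ?_, ?_, (L (-(l, v))).1, (L (-(l, v))).2, ?_, ?_⟩
    · have e4 : rsq 1 ((1 / 2 : ℝ), (swp (1 / 2, x₀)).2) = rsq 0 ((1 / 2 : ℝ), x₀) := by
        have := rsq_w 1 (1 / 2, x₀)
        rw [sub_self] at this
        exact this
      rw [← rsq_half, e4, rsq_half]
      exact h1
    · change F (swp (ax (1 - γ))) = F (swp (1 / 2, (swp (1 / 2, x₀)).2))
      rw [e7, e2]
      exact h2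
    · change 0 < -e * -l
      rw [neg_mul_neg]
      exact h3
    · have hg : ax γ ∈ SP := Or.inr ⟨rfl, hF.mem.1.le, hF.mem.2.le, rfl⟩
      rw [fd (p := ax (1 - γ)) (by rw [e7]; exact hF.loc _ (Or.inl hg)),
        fd (p := (1 / 2, (swp (1 / 2, x₀)).2)) (by rw [e2]; exact hF.loc _ (Or.inr hx₀)), e7,
        e2]
      simp only [ContinuousLinearMap.comp_apply, Prod.mk.eta]
      have e6 : L ((0 : ℝ), ((1 : ℝ), (0 : ℂ))) = -((0 : ℝ), ((1 : ℝ), (0 : ℂ))) := by
        refine Prod.ext ?_ (Prod.ext ?_ ?_) <;> simp [L]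
      rw [LL, e6, map_neg, map_neg, h4]
  only a ha hmem := by
    obtain ⟨p, hp, he⟩ := hmem
    have h1 : core F (1 - a) ∈ F '' flat 0 := by
      refine ⟨swp p, flatm hp, ?_⟩
      have : F (swp p) = F (swp (ax a)) := he
      rw [this, ax_w]
      rfl
    rcases hF.only (1 - a) ⟨by linarith [ha.2], by linarith [ha.1]⟩ h1 with h | h
    · left
      linarith
    · right
      linarith

end OB0

open OB0 in
theorem m_OB0 (hOB1 : StOB1) (hSw : StR2sw) (hT2 : StT2) (hCI : StCI) : StOB0 := by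
  intro W F γ e hW he hF φ hφ
  obtain ⟨-, -, -, -, -, -, tvii⟩ := hT2 R4 R4 I4 R4
  obtain ⟨-, cs, -, ct, cc, ci, cex, -, -, -⟩ := hCI R4 R4 I4 R4
  obtain ⟨φ', -, i1, i2⟩ := cex φ (tvii F φ hφ)
  have t1 : Thin I4 (fun p => F (swp p)) φ' :=
    (hSw R4 R4 I4 R4 F φ φ' ⟨fun p hp => hF.loc p (Or.inl hp), hF.inj⟩ i1 i2).1 hφ
  have he' : -e = 1 ∨ -e = -1 := by
    rcases he with h | h
    · right; rw [h]
    · left; rw [h, neg_neg]
  rcases hOB1 W _ (1 - γ) (-e) hW he' (br hF) φ' t1 with h | h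
  · exact Or.inl (ci φ' (fun x => x) φ (fun x => x) h i2 (fun x => rfl))
  · right
    obtain ⟨F₀, α₀, β₀, -, hr⟩ := hW.rep
    obtain ⟨W', hW', j1, j2⟩ := cex W (tvii F₀ W hr)
    have h1 : CIsot I4 φ W' := ci φ' W φ W' h i2 j1
    have h2 := cc _ _ W' W' hW.sq hW'
    have h3 : (fun x => W (W (W' x))) = W := funext fun x => by rw [j1]
    have h4 : CIsot I4 W W' := by
      have h5 : CIsot I4 (fun x => W (W (W' x))) W' := h2
      rwa [h3] at h5
    exact ct _ _ _ h1 (cs _ _ h4)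

end Pool.Agent.Helper70.BI
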