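import Pool.Agent.Helper70.BI.StL

/-!
# Project BI, part (E), module OB1: the class of a germ with `Br 1` is `1` or `W`
-/

set_option autoImplicit false

open scoped Manifold ContDiff Topology ComplexConjugate
open Set Filter Pool.Agent.Helper65.Barb Pool.Agent.Helper18.BI

namespace Pool.Agent.Helper70.BI

open Pool.Agent.Helper27.BI (refh refs swp StVanT StRefH StRefS StR2sw)

namespace OB1

/-- `refh` as a linear map -/
private noncomputable def L : R4 →L[ℝ] R4 :=
  (ContinuousLinearMap.id ℝ ℝ).prodMap ((ContinuousLinearMap.id ℝ ℝ).prodMap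
    (Complex.conjCLE : ℂ →L[ℝ] ℂ))

private theorem refh_eq : refh = fun p => L p := rfl

private theorem inv (p : R4) : refh (refh p) = p := by simp [refh]

private theorem det_conj : LinearMap.det ((Complex.conjCLE : ℂ →L[ℝ] ℂ) : ℂ →ₗ[ℝ] ℂ) = -1 :=
  Complex.det_conjAe

private theorem det_L : L.det = -1 := by
  have h : (L : R4 →ₗ[ℝ] R4) = (LinearMap.id : ℝ →ₗ[ℝ] ℝ).prodMap
      ((LinearMap.id : ℝ →ₗ[ℝ] ℝ).prodMap ((Complex.conjCLE : ℂ →L[ℝ] ℂ) : ℂ →ₗ[ℝ] ℂ)) := rfl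
  rw [ContinuousLinearMap.det, h, LinearMap.det_prodMap, LinearMap.det_prodMap, det_conj,
    LinearMap.det_id]
  norm_num

private theorem det_comp' (A B : R4 →L[ℝ] R4) : (A.comp B).det = A.det * B.det := by
  rw [ContinuousLinearMap.det, ContinuousLinearMap.det, ContinuousLinearMap.det,
    ContinuousLinearMap.toLinearMap_comp, LinearMap.det_comp]

private theorem der (p : R4) : HasFDerivAt refh L p := by
  rw [refh_eq]
  exact L.hasFDerivAt

private theorem ld (p : R4) : LD refh p := by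
  rw [ld_iff]
  refine ⟨Eventually.of_forall fun q => ?_, ?_⟩
  · rw [refh_eq]
    exact L.contDiff.contDiffAt
  · rw [(der p).fderiv]
    intro x y hxy
    have h : refh x = refh y := hxy
    rw [← inv x, h, inv]

private theorem injective : Function.Injective refh := fun x y hxy => by
  rw [← inv x, hxy, inv]

private theorem rsq_h (c : ℝ) (p : R4) : rsq c (refh p) = rsq c p := by
  simp [rsq, nsq, refh]

private theorem SPm {p : R4} (hp : p ∈ SP) : refh p ∈ SP := by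
  rcases hp with (hp | hp) | hp
  · exact Or.inl (Or.inl ⟨hp.1, by rw [rsq_h]; exact hp.2⟩)
  · exact Or.inl (Or.inr ⟨hp.1, by rw [rsq_h]; exact hp.2⟩)
  · exact Or.inr ⟨hp.1, hp.2.1, hp.2.2.1, by simp [refh, hp.2.2.2]⟩

private theorem flatm {c : ℝ} {p : R4} (hp : p ∈ flat c) : refh p ∈ flat c :=
  ⟨hp.1, by rw [rsq_h]; exact hp.2⟩

private theorem sphm {c : ℝ} {p : R4} (hp : p ∈ sph c) : refh p ∈ sph c :=
  ⟨hp.1, by rw [rsq_h]; exact hp.2⟩

private theorem ax_h (a : ℝ) : refh (ax a) = ax a := by simp [refh, ax]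

private theorem fd {F : R4 → R4} {p : R4} (hF : LD F (refh p)) :
    fderiv ℝ (fun p => F (refh p)) p = (fderiv ℝ F (refh p)).comp L := by
  have h1 : DifferentiableAt ℝ F (refh p) :=
    ((ld_iff.1 hF).1.self_of_nhds).differentiableAt (by simp)
  exact (h1.hasFDerivAt.comp p (der p)).fderiv

private theorem rsq_half (c : ℝ) (x : R3) : rsq c ((1 / 2 : ℝ), x) = nsq (x - pc c) := by
  simp [rsq, pc, nsq]

private theorem br {c : ℝ} {F : R4 → R4} {γ e : ℝ} (hF : Br c F γ e) :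
    Br c (fun p => F (refh p)) γ e where
  loc p hp := by
    refine ld_comp (ld p) (hF.loc _ ?_)
    rcases hp with hp | hp
    · exact Or.inl (SPm hp)
    · exact Or.inr (flatm hp)
  inj p hp q hq he := injective (hF.inj (SPm hp) (SPm hq) he)
  injF p hp q hq he := by
    have hm : ∀ p ∈ flat c ∪ sph (1 - c), refh p ∈ flat c ∪ sph (1 - c) := by
      rintro p (hp | hp)
      · exact Or.inl (flatm hp)
      · exact Or.inr (sphm hp)
    exact injective (hF.injF (hm p hp) (hm q hq) he)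
  mem := hF.mem
  cr := by
    obtain ⟨x₀, h1, h2, l, v, h3, h4⟩ := hF.cr
    have hx₀ : ((1 / 2 : ℝ), x₀) ∈ flat c := ⟨rfl, by rw [rsq_half]; exact h1.le⟩
    have e2 : refh (1 / 2, (refh (1 / 2, x₀)).2) = (1 / 2, x₀) := inv (1 / 2, x₀)
    refine ⟨(refh (1 / 2, x₀)).2, ?_, ?_, (L (l, v)).1, (L (l, v)).2, ?_, ?_⟩
    · have e4 : rsq c ((1 / 2 : ℝ), (refh (1 / 2, x₀)).2) = rsq c ((1 / 2 : ℝ), x₀) :=
        rsq_h c (1 / 2, x₀)
      rw [← rsq_half, e4, rsq_half]
      exact h1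
    · change F (refh (ax γ)) = F (refh (1 / 2, (refh (1 / 2, x₀)).2))
      rw [ax_h, e2]
      exact h2
    · exact h3
    · have hg : ax γ ∈ SP := Or.inr ⟨rfl, hF.mem.1.le, hF.mem.2.le, rfl⟩
      rw [fd (p := ax γ) (by rw [ax_h]; exact hF.loc _ (Or.inl hg)),
        fd (p := (1 / 2, (refh (1 / 2, x₀)).2)) (by rw [e2]; exact hF.loc _ (Or.inr hx₀)), ax_h,
        e2]
      simp only [ContinuousLinearMap.comp_apply, Prod.mk.eta]
      have e5 : L (L (l, v)) = (l, v) := inv (l, v)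
      have e6 : L ((0 : ℝ), ((1 : ℝ), (0 : ℂ))) = ((0 : ℝ), ((1 : ℝ), (0 : ℂ))) := by simp [L]
      rw [e5, e6]
      exact h4
  only a ha hmem := by
    refine hF.only a ha ?_
    obtain ⟨p, hp, he⟩ := hmem
    refine ⟨refh p, flatm hp, ?_⟩
    have : F (refh p) = F (refh (ax a)) := he
    rw [this, ax_h]
    rfl

end OB1

open OB1 in
theorem m_OB1 (hOBP : StOBP) (hRefH : StRefH) (hT2 : StT2) (hCI : StCI) : StOB1 := by
  intro W F γ e hW he hF φ hφ
  obtain ⟨-, -, -, -, -, -, tvii⟩ := hT2 R4 R4 I4 R4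
  obtain ⟨-, cs, -, ct, cc, ci, cex, -, -, -⟩ := hCI R4 R4 I4 R4
  have h0 : ax (4 / 5) ∈ SP := Or.inr ⟨rfl, by norm_num [ax], by norm_num [ax], rfl⟩
  have hld : LD F (ax (4 / 5)) := hF.loc _ (Or.inl h0)
  have hne : (fderiv ℝ F (ax (4 / 5))).det ≠ 0 := by
    intro h
    have h1 : LinearMap.det ((fderiv ℝ F (ax (4 / 5)) : R4 →L[ℝ] R4) : R4 →ₗ[ℝ] R4) = 0 := h
    have h2 := LinearMap.bot_lt_ker_of_det_eq_zero h1
    rw [LinearMap.ker_eq_bot.2 (ld_iff.1 hld).2] at h2
    exact lt_irrefl _ h2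
  rcases lt_or_gt_of_ne hne with hneg | hpos
  · obtain ⟨φ', -, i1, i2⟩ := cex φ (tvii F φ hφ)
    have t1 : Thin I4 (fun p => F (refh p)) φ' :=
      (hRefH R4 R4 I4 R4 F φ φ' ⟨fun p hp => hF.loc p (Or.inl hp), hF.inj⟩ i1 i2).1 hφ
    have hd : 0 < (fderiv ℝ (fun p => F (refh p)) (ax (4 / 5))).det := by
      rw [fd (by rw [ax_h]; exact hld), det_comp', det_L, ax_h]
      linarith
    rcases hOBP W _ γ e hW he (br hF) hd φ' t1 with h | h
    · exact Or.inl (ci φ' (fun x => x) φ (fun x => x) h i2 (fun x => rfl))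
    · right
      obtain ⟨F₀, α₀, β₀, -, hr⟩ := hW.rep
      obtain ⟨W', hW', j1, j2⟩ := cex W (tvii F₀ W hr)
      have h1 : CIsot I4 φ W' := ci φ' W φ W' h i2 j1
      have h2 := cc _ _ W' W' hW.sq hW'
      have h3 : (fun x => W (W (W' x))) = W := funext fun x => by rw [j1]
      have h4 : CIsot I4 W W' := by
        have h5 : CIsot I4 (fun x => W (W (W' x))) W' := h2
        rwa [h3] at h5
      exact ct _ _ _ h1 (cs _ _ h4)
  · exact hOBP W F γ e hW he hF hpos φ hφ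

end Pool.Agent.Helper70.BI
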