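import Pool.Agent.Helper70.BI.StS

set_option autoImplicit false

/-!
# Project BI, module PATH: smooth paths with prescribed ends in a connected open set
-/

open scoped Manifold ContDiff Topology ComplexConjugate
open Set Filter Pool.Agent.Helper65.Barb Pool.Agent.Helper18.BI

namespace Pool.Agent.Helper70.BI

namespace PATH

/-- gluing two smooth curves which agree near the gluing point -/
theorem glue {f₁ f₂ : ℝ → R4} {c ε : ℝ} (hε : 0 < ε) (h₁ : ContDiff ℝ ∞ f₁)
    (h₂ : ContDiff ℝ ∞ f₂) (h : ∀ t, |t - c| < ε → f₁ t = f₂ t) :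
    ContDiff ℝ ∞ (fun t => if t < c then f₁ t else f₂ t) := by
  rw [contDiff_iff_contDiffAt]
  intro s
  rcases lt_trichotomy s c with hs | hs | hs
  · refine h₁.contDiffAt.congr_of_eventuallyEq ?_
    filter_upwards [Iio_mem_nhds hs] with t ht
    exact if_pos ht
  · refine h₂.contDiffAt.congr_of_eventuallyEq ?_
    filter_upwards [Metric.ball_mem_nhds s hε] with t ht
    rw [Metric.mem_ball, Real.dist_eq, hs] at ht
    split_ifs
    · exact h t ht
    · rfl
  · refine h₂.contDiffAt.congr_of_eventuallyEq ?_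
    filter_upwards [Ioi_mem_nhds hs] with t ht
    exact if_neg (not_lt.2 (le_of_lt ht))

/-- the relation of step (1) -/
def Conn (U : Set R4) (x y : R4) : Prop :=
  ∃ g : ℝ → R4, ContDiff ℝ ∞ g ∧ (∀ t, g t ∈ U) ∧ (∀ t, t ≤ 0 → g t = x) ∧ ∀ t, 1 ≤ t → g t = y

theorem Conn.symm {U : Set R4} {x y : R4} (h : Conn U x y) : Conn U y x := by
  obtain ⟨g, h1, h2, h3, h4⟩ := h
  exact ⟨fun t => g (1 - t), h1.comp (contDiff_const.sub contDiff_id), fun t => h2 _,
    fun t ht => h4 _ (by linarith), fun t ht => h3 _ (by linarith)⟩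

theorem Conn.trans {U : Set R4} {x y z : R4} (h : Conn U x y) (h' : Conn U y z) :
    Conn U x z := by
  obtain ⟨g, h1, h2, h3, h4⟩ := h
  obtain ⟨g', h1', h2', h3', h4'⟩ := h'
  refine ⟨fun t => if t < 1 / 2 then g (3 * t) else g' (3 * t - 2),
    glue (ε := 1 / 6) (by norm_num) (h1.comp (contDiff_const.mul contDiff_id))
      (h1'.comp ((contDiff_const.mul contDiff_id).sub contDiff_const)) ?_, ?_, ?_, ?_⟩
  · intro t ht
    rw [abs_lt] at ht
    rw [h4 _ (by linarith [ht.1]), h3' _ (by linarith [ht.2])]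
  · intro t
    dsimp only
    split_ifs
    · exact h2 _
    · exact h2' _
  · intro t ht
    dsimp only
    rw [if_pos (by linarith)]
    exact h3 _ (by linarith)
  · intro t ht
    dsimp only
    rw [if_neg (by linarith)]
    exact h4' _ (by linarith)

theorem conn_of_isPreconnected {U : Set R4} (hU : IsOpen U) (hU' : IsPreconnected U) {x y : R4}
    (hx : x ∈ U) (hy : y ∈ U) : Conn U x y := by
  refine hU'.induction₂ (Conn U) (fun x hx => ?_) (fun x y z _ _ _ h h' => h.trans h')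
    (fun x y _ _ h => h.symm) hx hy
  obtain ⟨ε, hε, hb⟩ := Metric.isOpen_iff.1 hU x hx
  filter_upwards [mem_nhdsWithin_of_mem_nhds (Metric.ball_mem_nhds x hε)] with y hy
  refine ⟨fun t => x + step t • (y - x), contDiff_const.add (contDiff_step.smul contDiff_const),
    fun t => hb ?_, fun t ht => ?_, fun t ht => ?_⟩
  · rw [Metric.mem_ball, dist_eq_norm] at hy ⊢
    rw [add_sub_cancel_left, norm_smul, Real.norm_eq_abs, abs_of_nonneg (step_mem t).1]
    calc step t * ‖y - x‖ ≤ 1 * ‖y - x‖ :=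
          mul_le_mul_of_nonneg_right (step_mem t).2 (norm_nonneg _)
      _ < ε := by rw [one_mul]; exact hy
  · dsimp only
    rw [step_of_nonpos ht, zero_smul, add_zero]
  · dsimp only
    rw [step_of_one_le ht, one_smul, add_sub_cancel]

/-- step (2): the half path at the left end -/
theorem half {U : Set R4} {a₀ η : ℝ} {c : ℝ → R4} (hη : 0 < η) (hc : ContDiff ℝ ∞ c)
    (h : ∀ a ∈ Icc a₀ (a₀ + η), c a ∈ U) :
    ∃ (f : ℝ → R4) (p : R4), ContDiff ℝ ∞ f ∧ p ∈ U ∧ (∀ a, a ≤ a₀ + η / 2 → f a = c a) ∧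
      (∀ a, a₀ + 7 * η / 8 ≤ a → f a = p) ∧ ∀ a, a₀ ≤ a → f a ∈ U := by
  have hk : ContDiff ℝ ∞ (fun a : ℝ =>
      a + (a₀ + 5 * η / 8 - a) * step (8 * (a - a₀ - η / 2) / (3 * η))) := by
    refine contDiff_id.add ((contDiff_const.sub contDiff_id).mul (contDiff_step.comp ?_))
    exact (contDiff_const.mul ((contDiff_id.sub contDiff_const).sub contDiff_const)).div_const _
  have e1 : ∀ a, a ≤ a₀ + η / 2 → step (8 * (a - a₀ - η / 2) / (3 * η)) = 0 := fun a ha =>
    step_of_nonpos (div_nonpos_of_nonpos_of_nonneg (by linarith) (by linarith))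
  have e2 : ∀ a, a₀ + 7 * η / 8 ≤ a → step (8 * (a - a₀ - η / 2) / (3 * η)) = 1 := fun a ha =>
    step_of_one_le ((one_le_div (by linarith)).2 (by linarith))
  have hp : a₀ + 5 * η / 8 ∈ Icc a₀ (a₀ + η) := ⟨by linarith, by linarith⟩
  have e3 : ∀ a, a₀ + 7 * η / 8 ≤ a →
      a + (a₀ + 5 * η / 8 - a) * step (8 * (a - a₀ - η / 2) / (3 * η)) = a₀ + 5 * η / 8 :=
    fun a ha => by rw [e2 a ha]; ring
  refine ⟨_, c (a₀ + 5 * η / 8), hc.comp hk, h _ hp, fun a ha => ?_, fun a ha => ?_,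
    fun a ha => h _ ?_⟩
  · simp only [Function.comp_apply]
    rw [e1 a ha, mul_zero, add_zero]
  · simp only [Function.comp_apply]
    rw [e3 a ha]
  · dsimp only
    rcases le_or_gt a (a₀ + 7 * η / 8) with h7 | h7
    · have h0 := (step_mem (8 * (a - a₀ - η / 2) / (3 * η))).1
      have h1 := (step_mem (8 * (a - a₀ - η / 2) / (3 * η))).2
      generalize step (8 * (a - a₀ - η / 2) / (3 * η)) = s at h0 h1
      constructor <;> nlinarith
    · rw [e3 a h7.le]; exact hp

end PATH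

open PATH in
theorem m_PATH : StPATH := by
  intro U a₀ a₁ η c₀ c₁ hU hU' hη ha hc₀ hc₁ h₀ h₁
  obtain ⟨f, p, hf, hp, f1, f2, f3⟩ := half hη hc₀ h₀
  obtain ⟨g, q, hg, hq, g1, g2, g3⟩ := half (a₀ := -a₁) (c := fun a => c₁ (-a)) hη
    (hc₁.comp contDiff_neg) (fun a ha => h₁ _ ⟨by linarith [ha.2], by linarith [ha.1]⟩)
  obtain ⟨m, hm, m1, m2, m3⟩ := conn_of_isPreconnected hU hU' hp hq
  have hL : 0 < a₁ - a₀ - 2 * η := by linarith
  have k1 : ∀ a, a ≤ a₀ + η → m ((a - (a₀ + η)) / (a₁ - a₀ - 2 * η)) = p := fun a ha =>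
    m2 _ (div_nonpos_of_nonpos_of_nonneg (by linarith) hL.le)
  have k2 : ∀ a, a₁ - η ≤ a → m ((a - (a₀ + η)) / (a₁ - a₀ - 2 * η)) = q := fun a ha =>
    m3 _ ((one_le_div hL).2 (by linarith))
  have s1 : ContDiff ℝ ∞ (fun a => if a < a₁ - 15 * η / 16 then
      m ((a - (a₀ + η)) / (a₁ - a₀ - 2 * η)) else g (-a)) := by
    refine glue (ε := η / 16) (by linarith)
      (hm.comp ((contDiff_id.sub contDiff_const).div_const _)) (hg.comp contDiff_neg) ?_
    intro t ht
    rw [abs_lt] at ht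
    rw [k2 t (by linarith [ht.1]), g2 (-t) (by linarith [ht.2])]
  have s2 := glue (c := a₀ + 15 * η / 16) (ε := η / 16) (by linarith) hf s1 (by
    intro t ht
    rw [abs_lt] at ht
    rw [if_pos (by linarith [ht.2]), k1 t (by linarith [ht.2]), f2 t (by linarith [ht.1])])
  refine ⟨_, s2, fun a h => ?_, fun a h => ?_, fun a h => ?_⟩
  · rw [if_pos (by linarith), f1 a h]
  · rw [if_neg (by linarith), if_neg (by linarith), g1 (-a) (by linarith), neg_neg]
  · split_ifs with h2 h3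
    · exact f3 a h.1
    · exact m1 _
    · exact g3 (-a) (by linarith [h.2])

end Pool.Agent.Helper70.BI
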