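import Pool.Agent.Helper70.BI.StU

/-!
# Project BI, module PT: perturbation of the identity of a finite dimensional space
-/

set_option autoImplicit false

open scoped Manifold ContDiff Topology ComplexConjugate
open Set Filter Pool.Agent.Helper65.Barb Pool.Agent.Helper18.BI

namespace Pool.Agent.Helper70.BI

namespace PT

variable {E : Type} [NormedAddCommGroup E] [NormedSpace ℝ E]

/-- the level preserving map -/
def mp (g : ℝ × E → E) (p : ℝ × E) : ℝ × E := (p.1, p.2 + g p)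

theorem exists_pre [FiniteDimensional ℝ E] (g : ℝ × E → E)
    (hg : ∀ t x y, ‖g (t, x) - g (t, y)‖ ≤ 1 / 2 * ‖x - y‖) (t : ℝ) (y : E) :
    ∃ x : E, x + g (t, x) = y := by
  haveI : CompleteSpace E := FiniteDimensional.complete ℝ E
  have hl : LipschitzWith (1 / 2) (fun x : E => y - g (t, x)) := by
    refine LipschitzWith.of_dist_le_mul fun a b => ?_
    rw [dist_eq_norm, dist_eq_norm]
    have e : y - g (t, a) - (y - g (t, b)) = g (t, b) - g (t, a) := by abel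
    rw [e]
    have := hg t b a
    rw [norm_sub_rev b a] at this
    simpa using this
  have hc : ContractingWith (1 / 2) (fun x : E => y - g (t, x)) := ⟨by norm_num, hl⟩
  refine ⟨hc.fixedPoint, ?_⟩
  have h := hc.fixedPoint_isFixedPt
  have h2 : y - g (t, hc.fixedPoint) = hc.fixedPoint := h
  calc hc.fixedPoint + g (t, hc.fixedPoint) =
      (y - g (t, hc.fixedPoint)) + g (t, hc.fixedPoint) := by rw [h2]
    _ = y := by abel

theorem key (g : ℝ × E → E)
    (hg : ∀ t x y, ‖g (t, x) - g (t, y)‖ ≤ 1 / 2 * ‖x - y‖) (t : ℝ) (x x' : E) :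
    ‖x - x'‖ ≤ 2 * ‖(x + g (t, x)) - (x' + g (t, x'))‖ := by
  have h1 := hg t x x'
  have h2 : ‖x - x'‖ ≤ ‖(x + g (t, x)) - (x' + g (t, x'))‖ + ‖g (t, x) - g (t, x')‖ := by
    have e : x - x' = ((x + g (t, x)) - (x' + g (t, x'))) - (g (t, x) - g (t, x')) := by abel
    calc ‖x - x'‖ = ‖((x + g (t, x)) - (x' + g (t, x'))) - (g (t, x) - g (t, x'))‖ := by rw [← e]
      _ ≤ _ := norm_sub_le _ _
  linarith

/-- the inverse -/
noncomputable def iv [FiniteDimensional ℝ E] (g : ℝ × E → E)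
    (hg : ∀ t x y, ‖g (t, x) - g (t, y)‖ ≤ 1 / 2 * ‖x - y‖) (q : ℝ × E) : E :=
  (exists_pre g hg q.1 q.2).choose

theorem iv_spec [FiniteDimensional ℝ E] (g : ℝ × E → E)
    (hg : ∀ t x y, ‖g (t, x) - g (t, y)‖ ≤ 1 / 2 * ‖x - y‖) (q : ℝ × E) :
    iv g hg q + g (q.1, iv g hg q) = q.2 :=
  (exists_pre g hg q.1 q.2).choose_spec

theorem iv_mp [FiniteDimensional ℝ E] (g : ℝ × E → E)
    (hg : ∀ t x y, ‖g (t, x) - g (t, y)‖ ≤ 1 / 2 * ‖x - y‖) (p : ℝ × E) :
    iv g hg (mp g p) = p.2 := by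
  have h := iv_spec g hg (mp g p)
  have h2 := key g hg p.1 (iv g hg (mp g p)) p.2
  have h3 : iv g hg (mp g p) + g (p.1, iv g hg (mp g p)) = p.2 + g (p.1, p.2) := h
  rw [h3, sub_self, norm_zero, mul_zero] at h2
  exact sub_eq_zero.1 (norm_le_zero_iff.1 h2)

theorem iv_cont [FiniteDimensional ℝ E] (g : ℝ × E → E) (hc : Continuous g)
    (hg : ∀ t x y, ‖g (t, x) - g (t, y)‖ ≤ 1 / 2 * ‖x - y‖) : Continuous (iv g hg) := by
  rw [continuous_iff_continuousAt]
  intro q₀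
  set x₀ := iv g hg q₀ with hx₀
  have h0 : x₀ + g (q₀.1, x₀) = q₀.2 := iv_spec g hg q₀
  have h1 : ∀ q, ‖iv g hg q - x₀‖ ≤ 2 * ‖q.2 - (x₀ + g (q.1, x₀))‖ := by
    intro q
    have := key g hg q.1 (iv g hg q) x₀
    rwa [iv_spec g hg q] at this
  have h2 : Filter.Tendsto (fun q : ℝ × E => 2 * ‖q.2 - (x₀ + g (q.1, x₀))‖) (𝓝 q₀)
      (𝓝 0) := by
    have hcont : Continuous (fun q : ℝ × E => 2 * ‖q.2 - (x₀ + g (q.1, x₀))‖) := by
      fun_prop
    have h3 := hcont.tendsto q₀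
    rw [h0, sub_self, norm_zero, mul_zero] at h3
    exact h3
  rw [ContinuousAt, tendsto_iff_norm_sub_tendsto_zero]
  exact squeeze_zero (fun _ => norm_nonneg _) h1 h2

/-- the homeomorphism -/
noncomputable def hm [FiniteDimensional ℝ E] (g : ℝ × E → E) (hc : Continuous g)
    (hg : ∀ t x y, ‖g (t, x) - g (t, y)‖ ≤ 1 / 2 * ‖x - y‖) :
    (ℝ × E) ≃ₜ (ℝ × E) where
  toFun := mp g
  invFun q := (q.1, iv g hg q)
  left_inv p := by
    show (p.1, iv g hg (mp g p)) = p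
    rw [iv_mp]
  right_inv q := by
    show (q.1, iv g hg q + g (q.1, iv g hg q)) = q
    rw [iv_spec]
  continuous_toFun := by
    unfold mp
    fun_prop
  continuous_invFun := by
    have := iv_cont g hc hg
    fun_prop

theorem fderiv_small (g : ℝ × E → E) (hs : ContDiff ℝ ∞ g)
    (hg : ∀ t x y, ‖g (t, x) - g (t, y)‖ ≤ 1 / 2 * ‖x - y‖) (p : ℝ × E) (ξ : E) :
    ‖fderiv ℝ g p (0, ξ)‖ ≤ 1 / 2 * ‖ξ‖ := by
  have h1 : HasFDerivAt g (fderiv ℝ g p) p :=
    (hs.differentiable (by simp) p).hasFDerivAt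
  let e : E →L[ℝ] ℝ × E := ContinuousLinearMap.inr ℝ ℝ E
  have h2 : HasFDerivAt (fun x : E => ((p.1, x) : ℝ × E)) e p.2 := by
    have h3 : HasFDerivAt (fun x : E => e x + ((p.1, 0) : ℝ × E)) e p.2 :=
      e.hasFDerivAt.add_const _
    refine h3.congr_of_eventuallyEq (Filter.Eventually.of_forall fun x => ?_)
    show ((p.1, x) : ℝ × E) = (0, x) + (p.1, 0)
    simp
  have h4 : HasFDerivAt (fun x : E => g (p.1, x)) ((fderiv ℝ g p).comp e) p.2 := by
    exact HasFDerivAt.comp p.2 h1 h2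
  have hl : LipschitzWith (1 / 2) (fun x : E => g (p.1, x)) := by
    refine LipschitzWith.of_dist_le_mul fun a b => ?_
    rw [dist_eq_norm, dist_eq_norm]
    simpa using hg p.1 a b
  have h5 := h4.le_of_lipschitz hl
  have h6 := ContinuousLinearMap.le_opNorm ((fderiv ℝ g p).comp e) ξ
  have h7 : ((fderiv ℝ g p).comp e) ξ = fderiv ℝ g p (0, ξ) := rfl
  rw [h7] at h6
  refine h6.trans (mul_le_mul_of_nonneg_right ?_ (norm_nonneg _))
  simpa using h5

theorem exists_equiv [FiniteDimensional ℝ E] (g : ℝ × E → E) (hs : ContDiff ℝ ∞ g)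
    (hg : ∀ t x y, ‖g (t, x) - g (t, y)‖ ≤ 1 / 2 * ‖x - y‖) (p : ℝ × E) :
    ∃ L : (ℝ × E) ≃L[ℝ] (ℝ × E), HasFDerivAt (mp g) (L : (ℝ × E) →L[ℝ] (ℝ × E)) p := by
  have h1 : HasFDerivAt g (fderiv ℝ g p) p :=
    (hs.differentiable (by simp) p).hasFDerivAt
  let A : (ℝ × E) →L[ℝ] E := ContinuousLinearMap.snd ℝ ℝ E + fderiv ℝ g p
  let D : (ℝ × E) →L[ℝ] (ℝ × E) := (ContinuousLinearMap.fst ℝ ℝ E).prod A
  have hD : HasFDerivAt (mp g) D p := by
    have a1 : HasFDerivAt (fun q : ℝ × E => q.1) (ContinuousLinearMap.fst ℝ ℝ E) p :=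
      (ContinuousLinearMap.fst ℝ ℝ E).hasFDerivAt
    have a3 : HasFDerivAt (fun q : ℝ × E => q.2) (ContinuousLinearMap.snd ℝ ℝ E) p :=
      (ContinuousLinearMap.snd ℝ ℝ E).hasFDerivAt
    exact a1.prodMk (a3.add h1)
  have hinj : Function.Injective D := by
    rw [injective_iff_map_eq_zero]
    rintro ⟨τ, ξ⟩ h
    have b1 : τ = 0 := congrArg Prod.fst h
    have b3 : ξ + fderiv ℝ g p (τ, ξ) = 0 := congrArg Prod.snd h
    subst b1
    have b4 := fderiv_small g hs hg p ξ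
    have b5 : fderiv ℝ g p (0, ξ) = -ξ := by
      rw [← add_eq_zero_iff_eq_neg']
      exact b3
    rw [b5, norm_neg] at b4
    have b6 : ‖ξ‖ ≤ 0 := by linarith [norm_nonneg ξ]
    rw [norm_le_zero_iff.1 b6]
    rfl
  refine ⟨(LinearEquiv.ofInjectiveEndo (D : (ℝ × E) →ₗ[ℝ] (ℝ × E)) hinj).toContinuousLinearEquiv, ?_⟩
  have hcoe : ((LinearEquiv.ofInjectiveEndo (D : (ℝ × E) →ₗ[ℝ] (ℝ × E))
      hinj).toContinuousLinearEquiv : (ℝ × E) →L[ℝ] (ℝ × E)) = D := by
    refine ContinuousLinearMap.ext fun v => ?_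
    rfl
  rw [hcoe]
  exact hD

end PT

open PT in
theorem m_PT : StPT := by
  intro E _ _ _ g hs hg
  haveI : CompleteSpace E := FiniteDimensional.complete ℝ E
  have hc := hs.continuous
  choose L hL using exists_equiv g hs hg
  have hmp : ContDiff ℝ ∞ (mp g) := by
    unfold mp
    fun_prop
  have hinv : ContDiff ℝ ∞ (hm g hc hg).symm :=
    (hm g hc hg).contDiff_symm (f₀' := L) hL hmp
  refine ⟨⟨fun p => p.2 + g p, fun q => iv g hg q, ?_, ?_, ?_, ?_⟩, ?_⟩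
  · have h : ContDiff ℝ ∞ (fun p : ℝ × E => (p.2 + g p : E)) := by fun_prop
    have := h.contMDiff
    rwa [modelWithCornersSelf_prod, ← chartedSpaceSelf_prod] at this
  · have h : ContDiff ℝ ∞ (fun q : ℝ × E => (iv g hg q : E)) := hinv.snd
    have := h.contMDiff
    rwa [modelWithCornersSelf_prod, ← chartedSpaceSelf_prod] at this
  · intro t x
    show iv g hg (t, x) + g (t, iv g hg (t, x)) = x
    exact iv_spec g hg (t, x)
  · intro t x
    show iv g hg (mp g (t, x)) = x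
    rw [iv_mp]
  · intro t x
    rfl

end Pool.Agent.Helper70.BI
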