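import Pool.Agent.Helper70.BI.StS
import Pool.Agent.Helper18.BI.StA

/-!
# Module R3 of project BI, part (E): opposite signs at the near end give inverse classes
-/

set_option autoImplicit false

open scoped Manifold ContDiff Topology ComplexConjugate
open Set Filter Pool.Agent.Helper65.Barb Pool.Agent.Helper18.BI

namespace Pool.Agent.Helper70.BI

open Pool.Agent.Helper34.BI (BarData barFam)
open Pool.Agent.Helper27.BI (refh refs swp IsKap StVanT StRefH StRefS StR2sw StADD2)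

namespace R3

theorem rsq_eq (c : ℝ) (p : R4) : rsq c p = (p.2.1 - c) ^ 2 + p.2.2.re ^ 2 + p.2.2.im ^ 2 := rfl

theorem flat0_le {p : R4} (hp : p ∈ flat 0) : p.2.1 ≤ 1 / 5 := by
  have h := hp.2
  rw [rsq_eq] at h
  nlinarith [sq_nonneg p.2.2.re, sq_nonneg p.2.2.im]

theorem sph1_ge {p : R4} (hp : p ∈ sph 1) : 4 / 5 ≤ p.2.1 := by
  have h := hp.2
  rw [rsq_eq] at h
  nlinarith [sq_nonneg p.2.2.re, sq_nonneg p.2.2.im]

theorem sph1_flat1 {p : R4} (hp : p ∈ sph 1) : p ∈ flat 1 := ⟨hp.1, hp.2.le⟩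

theorem neck_ax {p : R4} (hp : p ∈ neck) : p = ax p.2.1 := by
  obtain ⟨h1, _, _, h4⟩ := hp
  obtain ⟨s, a, w⟩ := p
  simp only at h1 h4
  subst h1
  subst h4
  rfl

/-- the core meets the flat ball only at the foot, `ax 0` and the point x2 -/
theorem core_flat {J : R4 → R4} {d : ℝ} (hJ : IsJ1 J d) {a : ℝ}
    (ha : 1 / 5 ≤ a) (ha' : a ≤ 4 / 5) (h : core J a ∈ flat 0) :
    a = 1 / 5 ∨ core J a = ax 0 ∨ core J a = (1 / 2, x2) := by
  rcases le_or_gt a (9 / 40) with h1 | h1
  · left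
    have h2 : core J a = ax a := hJ.ends (ax a) (Or.inl h1)
    rw [h2] at h
    have h3 := flat0_le h
    have h4 : (ax a).2.1 = a := rfl
    rw [h4] at h3
    linarith
  · rcases le_or_gt (31 / 40) a with h5 | h5
    · exfalso
      have h2 : core J a = ax a := hJ.ends (ax a) (Or.inr h5)
      rw [h2] at h
      have h3 := flat0_le h
      have h4 : (ax a).2.1 = a := rfl
      rw [h4] at h3
      linarith
    · right
      rcases le_or_gt |a - 2 / 5| (1 / 100) with h6 | h6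
      · exfalso
        rw [hJ.strand a h6] at h
        have h3 := flat0_le h
        have h4 : ((1 / 2 + d * (a - 2 / 5), pc 1) : R4).2.1 = 1 := rfl
        rw [h4] at h3
        linarith
      · rcases le_or_gt |a - 3 / 5| (3 / 200) with h7 | h7
        · rw [hJ.para a h7] at h ⊢
          have h8 : (1 / 2 + (1 - (100 * (a - 3 / 5)) ^ 2) / 10 : ℝ) = 1 / 2 := h.1
          have h9 : (100 * (a - 3 / 5) - 1) * (100 * (a - 3 / 5) + 1) = 0 := by linarith
          rcases mul_eq_zero.1 h9 with h10 | h10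
          · right
            have h11 : 100 * (a - 3 / 5) = 1 := by linarith
            rw [h11]
            unfold x2
            norm_num
          · left
            have h11 : 100 * (a - 3 / 5) = -1 := by linarith
            rw [h11]
            unfold ax
            norm_num
        · exfalso
          have h8 := hJ.off a ⟨by linarith, by linarith⟩ h6 h7
          rcases h8 with h9 | h9
          · exact h9 h.1
          · have h3 := flat0_le h
            linarith [h9.1]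

theorem inj0 {J : R4 → R4} {d : ℝ} (hJ : IsJ1 J d) :
    InjOn J ((flat 0 ∪ neck ∪ sph 1) \ {ax 0, (1 / 2, x2)}) := by
  have key : ∀ p q : R4, p ∈ flat 0 → p ≠ ax 0 → p ≠ (1 / 2, x2) → q ∈ neck ∪ sph 1 →
      J p = J q → p = q := by
    intro p q hp hp0 hp2 hq he
    have h1 : J p = p := hJ.ends p (Or.inl (by linarith [flat0_le hp]))
    rcases hq with hq | hq
    · have h2 := neck_ax hq
      have h3 : core J q.2.1 = p := by
        unfold core
        rw [← h2, ← he, h1]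
      rcases core_flat hJ hq.2.1 hq.2.2.1 (by rw [h3]; exact hp) with h4 | h4 | h4
      · have h5 : J (ax (1 / 5)) = ax (1 / 5) := hJ.ends (ax (1 / 5)) (Or.inl (by
          show (1 / 5 : ℝ) ≤ 9 / 40
          norm_num))
        rw [← h3]
        unfold core
        rw [h4, h5, h2, h4]
      · exact absurd (h3.symm.trans h4) hp0
      · exact absurd (h3.symm.trans h4) hp2
    · have h2 : J q = q := hJ.ends q (Or.inr (by linarith [sph1_ge hq]))
      rw [← h1, he, h2]
  have hSP : ∀ p : R4, p ∈ neck ∪ sph 1 → p ∈ SP := by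
    intro p hp
    rcases hp with hp | hp
    · exact Or.inr hp
    · exact Or.inl (Or.inr hp)
  intro p hp q hq he
  obtain ⟨hp1, hp2⟩ := hp
  obtain ⟨hq1, hq2⟩ := hq
  have hp3 : p ≠ ax 0 := fun h => hp2 (Or.inl h)
  have hp4 : p ≠ (1 / 2, x2) := fun h => hp2 (Or.inr h)
  have hq3 : q ≠ ax 0 := fun h => hq2 (Or.inl h)
  have hq4 : q ≠ (1 / 2, x2) := fun h => hq2 (Or.inr h)
  have hp5 : p ∈ flat 0 ∨ p ∈ neck ∪ sph 1 := by
    rcases hp1 with (h | h) | h
    · exact Or.inl h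
    · exact Or.inr (Or.inl h)
    · exact Or.inr (Or.inr h)
  have hq5 : q ∈ flat 0 ∨ q ∈ neck ∪ sph 1 := by
    rcases hq1 with (h | h) | h
    · exact Or.inl h
    · exact Or.inr (Or.inl h)
    · exact Or.inr (Or.inr h)
  rcases hp5 with hp6 | hp6
  · rcases hq5 with hq6 | hq6
    · have h1 : J p = p := hJ.ends p (Or.inl (by linarith [flat0_le hp6]))
      have h2 : J q = q := hJ.ends q (Or.inl (by linarith [flat0_le hq6]))
      rw [← h1, he, h2]
    · exact key p q hp6 hp3 hp4 hq6 he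
  · rcases hq5 with hq6 | hq6
    · exact (key q p hq6 hq3 hq4 hp6 he.symm).symm
    · exact hJ.inj (hSP p hp6) (hSP q hq6) he

end R3

/-- MODULE R3. -/
theorem m_R3 (hR3J : StR3J) (hAG : StAG) (hR3T : StR3T) (hT2 : StT2) : StR3 := by
  intro d hd
  obtain ⟨J, hJ⟩ := hR3J d hd
  obtain ⟨r, k1, k2, hr0, hr1, K1, K2, h17, h20, t1, t2, hmain⟩ := hAG
  obtain ⟨⟨Th1, det1⟩, Th2, det2⟩ := hR3T J d r k1 k2 hd hJ hr0 K1 K2 h17 h20
  have hT := hT2 R4 R4 I4 R4
  have hcls : ∀ (F : R4 → R4) (α β e : ℝ), Theta F α β e d → ∃ φ : R4 → R4, Thin I4 F φ := by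
    intro F α β e hF
    obtain ⟨ε₀, hε₀, h1⟩ := hT.1 F ⟨fun p hp => hF.a.loc p (Or.inl hp), hF.a.inj⟩
    exact ⟨_, h1 (ε₀ / 2) ⟨by linarith, by linarith⟩⟩
  obtain ⟨φ₁, hφ₁⟩ := hcls _ _ _ _ Th1
  obtain ⟨φ₂, hφ₂⟩ := hcls _ _ _ _ Th2
  refine ⟨fun p => J (k1 p), fun p => J (k2 p), 59 / 100, 61 / 100, 2 / 5, 2 / 5, φ₁, φ₂, Th1, Th2,
    det1, det2, hφ₁, hφ₂, ?_⟩
  refine hmain J ?_ (R3.inj0 hJ) (fun x => x) φ₁ φ₂ hJ.triv hφ₁ hφ₂
  intro p hp
  refine hJ.loc p ?_
  rcases hp with (h | h) | h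
  · exact Or.inl (Or.inl h)
  · exact Or.inr h
  · exact Or.inl (Or.inr (R3.sph1_flat1 h))

end Pool.Agent.Helper70.BI
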