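import Pool.Agent.Helper70.BI.StS

/-!
# Module R3T: the two factors are theta germs
-/

set_option autoImplicit false

open scoped Manifold ContDiff Topology ComplexConjugate
open Set Filter Pool.Agent.Helper65.Barb Pool.Agent.Helper18.BI

namespace Pool.Agent.Helper70.BI

open Pool.Agent.Helper27.BI (IsKap)

namespace R3T

private theorem rsq_eq (c : ℝ) (p : R4) :
    rsq c p = (p.2.1 - c) ^ 2 + p.2.2.re ^ 2 + p.2.2.im ^ 2 := rfl

private theorem flat0_le {p : R4} (h : p ∈ flat 0) : p.2.1 ≤ 1 / 5 := by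
  have h2 : rsq 0 p ≤ 1 / 25 := h.2
  rw [rsq_eq] at h2
  nlinarith [sq_nonneg p.2.2.re, sq_nonneg p.2.2.im]

private theorem flat1_ge {p : R4} (h : p ∈ flat 1) : 4 / 5 ≤ p.2.1 := by
  have h2 : rsq 1 p ≤ 1 / 25 := h.2
  rw [rsq_eq] at h2
  nlinarith [sq_nonneg p.2.2.re, sq_nonneg p.2.2.im]

private theorem ax_mem_neck {a : ℝ} (h : a ∈ Icc (1 / 5 : ℝ) (4 / 5)) : ax a ∈ neck :=
  ⟨rfl, h.1, h.2, rfl⟩

private theorem neck_ax {p : R4} (h : p ∈ neck) : ∃ a ∈ Icc (1 / 5 : ℝ) (4 / 5), p = ax a := by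
  obtain ⟨h1, h2, h3, h4⟩ := h
  refine ⟨p.2.1, ⟨h2, h3⟩, ?_⟩
  exact Prod.ext h1 (Prod.ext rfl h4)

private theorem fderiv_core {J : R4 → R4} {a : ℝ} (hJ : LD J (ax a)) {c : ℝ → R4} {c' : R4}
    (h : core J =ᶠ[𝓝 a] c) (hc : HasDerivAt c c' a) :
    fderiv ℝ J (ax a) (0, ((1 : ℝ), (0 : ℂ))) = c' := by
  have hd : HasFDerivAt J (fderiv ℝ J (ax a)) (ax a) :=
    ((ld_iff.1 hJ).1.self_of_nhds.differentiableAt (by simp)).hasFDerivAt
  have hax : HasDerivAt ax (0, ((1 : ℝ), (0 : ℂ))) a :=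
    (hasDerivAt_const a (1 / 2 : ℝ)).prodMk ((hasDerivAt_id a).prodMk (hasDerivAt_const a (0 : ℂ)))
  have h1 : HasDerivAt (core J) (fderiv ℝ J (ax a) (0, ((1 : ℝ), (0 : ℂ)))) a :=
    hd.comp_hasDerivAt a hax
  exact h1.unique (hc.congr_of_eventuallyEq h)

private theorem fderiv_id_of {F : R4 → R4} {p : R4} (h : ∀ᶠ q in 𝓝 p, F q = q) :
    fderiv ℝ F p = ContinuousLinearMap.id ℝ R4 := by
  have h1 : F =ᶠ[𝓝 p] id := h
  rw [h1.fderiv_eq, fderiv_id]

/-- what we need of the pushing map -/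
private structure KH (k : R4 → R4) (y z : R3) : Prop where
  inj : Function.Injective k
  ld : ∀ p, LD k p
  fst : ∀ p, (k p).1 = p.1
  far : ∀ p : R4, 17 / 100 ≤ p.2.1 → k p = p
  small : ∀ p, rsq 0 p ≤ 1 / 25 → rsq 0 (k p) ≤ 1 / 25
  ne : ∀ p ∈ flat 0, k p ≠ (1 / 2, z)
  near : ∀ᶠ p in 𝓝 ((1 / 2, y) : R4), k p = p

private theorem core_strand {J : R4 → R4} {d : ℝ} (hJ : IsJ1 J d) :
    fderiv ℝ J (ax (2 / 5)) (0, ((1 : ℝ), (0 : ℂ))) = (d, 0) := by
  have hm : ax (2 / 5) ∈ FB := Or.inr (ax_mem_neck (by constructor <;> norm_num))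
  refine fderiv_core (hJ.loc _ hm) (c := fun a => (1 / 2 + d * (a - 2 / 5), pc 1)) ?_ ?_
  · have : ∀ᶠ a : ℝ in 𝓝 (2 / 5), |a - 2 / 5| < 1 / 100 := by
      have := Metric.ball_mem_nhds (2 / 5 : ℝ) (show (0 : ℝ) < 1 / 100 by norm_num)
      filter_upwards [this] with a ha
      simpa [Real.dist_eq] using ha
    filter_upwards [this] with a ha using hJ.strand a ha.le
  · have h1 : HasDerivAt (fun a : ℝ => 1 / 2 + d * (a - 2 / 5)) d (2 / 5) := by
      have := (((hasDerivAt_id (2 / 5 : ℝ)).sub_const (2 / 5)).const_mul d).const_add (1 / 2)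
      simpa using this
    exact h1.prodMk (hasDerivAt_const _ _)

private theorem core_para {J : R4 → R4} {d : ℝ} (hJ : IsJ1 J d) {γ : ℝ}
    (hγ : |γ - 3 / 5| < 3 / 200) :
    fderiv ℝ J (ax γ) (0, ((1 : ℝ), (0 : ℂ))) = (-20 * (100 * (γ - 3 / 5)), ((0 : ℝ), (5 : ℂ))) := by
  have hm : ax γ ∈ FB := Or.inr (ax_mem_neck (by
    rw [abs_lt] at hγ
    constructor <;> linarith [hγ.1, hγ.2]))
  refine fderiv_core (hJ.loc _ hm) (c := fun a => (1 / 2 + (1 - (100 * (a - 3 / 5)) ^ 2) / 10,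
      ((0 : ℝ), (((1 + 100 * (a - 3 / 5)) / 20 : ℝ) : ℂ)))) ?_ ?_
  · have : ∀ᶠ a : ℝ in 𝓝 γ, |a - 3 / 5| < 3 / 200 := by
      have hc : Continuous fun a : ℝ => |a - 3 / 5| := by fun_prop
      exact hc.continuousAt.eventually (gt_mem_nhds hγ)
    filter_upwards [this] with a ha using hJ.para a ha.le
  · have h0 : HasDerivAt (fun a : ℝ => 100 * (a - 3 / 5)) 100 γ := by
      simpa using ((hasDerivAt_id γ).sub_const (3 / 5)).const_mul 100
    have h1 : HasDerivAt (fun a : ℝ => 1 / 2 + (1 - (100 * (a - 3 / 5)) ^ 2) / 10)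
        (-20 * (100 * (γ - 3 / 5))) γ := by
      have := (((h0.pow 2).const_sub 1).div_const 10).const_add (1 / 2)
      refine this.congr_deriv ?_
      simp
      ring
    have h2 : HasDerivAt (fun a : ℝ => (((1 + 100 * (a - 3 / 5)) / 20 : ℝ) : ℂ)) 5 γ := by
      have h3 : HasDerivAt (fun a : ℝ => (1 + 100 * (a - 3 / 5)) / 20) 5 γ := by
        refine ((h0.const_add 1).div_const 20).congr_deriv ?_
        norm_num
      exact_mod_cast h3.ofReal_comp
    exact h1.prodMk ((hasDerivAt_const _ _).prodMk h2)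

private theorem core_end0 {J : R4 → R4} {d : ℝ} (hJ : IsJ1 J d) : core J (1 / 5) = ax (1 / 5) :=
  hJ.ends _ (Or.inl (by change (1 / 5 : ℝ) ≤ 9 / 40; norm_num))

private theorem core_end1 {J : R4 → R4} {d : ℝ} (hJ : IsJ1 J d) : core J (4 / 5) = ax (4 / 5) :=
  hJ.ends _ (Or.inr (by change (31 / 40 : ℝ) ≤ 4 / 5; norm_num))

private theorem core_flat0 {J : R4 → R4} {d : ℝ} (hJ : IsJ1 J d) {a : ℝ}
    (ha : a ∈ Icc (1 / 5 : ℝ) (4 / 5)) (h : core J a ∈ flat 0) :
    a = 1 / 5 ∨ a = 59 / 100 ∨ a = 61 / 100 := by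
  rcases eq_or_lt_of_le ha.1 with h1 | h1
  · exact Or.inl h1.symm
  rcases eq_or_lt_of_le ha.2 with h2 | h2
  · rw [h2, core_end1 hJ] at h
    have h3 : (4 / 5 : ℝ) ≤ 1 / 5 := flat0_le h
    norm_num at h3
  by_cases h3 : |a - 2 / 5| ≤ 1 / 100
  · rw [hJ.strand a h3] at h
    have h4 : (1 : ℝ) ≤ 1 / 5 := flat0_le h
    norm_num at h4
  by_cases h4 : |a - 3 / 5| ≤ 3 / 200
  · rw [hJ.para a h4] at h
    have h5 : 1 / 2 + (1 - (100 * (a - 3 / 5)) ^ 2) / 10 = 1 / 2 := h.1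
    have h6 : (100 * (a - 3 / 5) - 1) * (100 * (a - 3 / 5) + 1) = 0 := by linarith
    rcases mul_eq_zero.1 h6 with h7 | h7
    · right; right; linarith
    · right; left; linarith
  · rcases hJ.off a ⟨h1, h2⟩ (not_le.1 h3) (not_le.1 h4) with h5 | h5
    · exact absurd h.1 h5
    · linarith [flat0_le h, h5.1]

private theorem core_flat1 {J : R4 → R4} {d : ℝ} (hd : d = 1 ∨ d = -1) (hJ : IsJ1 J d) {a : ℝ}
    (ha : a ∈ Icc (1 / 5 : ℝ) (4 / 5)) (h : core J a ∈ flat 1) : a = 4 / 5 ∨ a = 2 / 5 := by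
  rcases eq_or_lt_of_le ha.2 with h2 | h2
  · exact Or.inl h2
  rcases eq_or_lt_of_le ha.1 with h1 | h1
  · rw [← h1, core_end0 hJ] at h
    have h3 : (4 / 5 : ℝ) ≤ 1 / 5 := flat1_ge h
    norm_num at h3
  by_cases h3 : |a - 2 / 5| ≤ 1 / 100
  · rw [hJ.strand a h3] at h
    have h4 : 1 / 2 + d * (a - 2 / 5) = 1 / 2 := h.1
    right
    rcases hd with rfl | rfl <;> linarith
  by_cases h4 : |a - 3 / 5| ≤ 3 / 200
  · rw [hJ.para a h4] at h
    have h5 : (4 / 5 : ℝ) ≤ 0 := flat1_ge h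
    norm_num at h5
  · rcases hJ.off a ⟨h1, h2⟩ (not_le.1 h3) (not_le.1 h4) with h5 | h5
    · exact absurd h.1 h5
    · linarith [flat1_ge h, h5.2]

private theorem main (hDET : StDET) {J : R4 → R4} {d : ℝ} (hd : d = 1 ∨ d = -1) (hJ : IsJ1 J d)
    {k : R4 → R4} {y z : R3} (hk : KH k y z) {γ γ' e l : ℝ} {v : R3}
    (hγ : core J γ = (1 / 2, y)) (hγ' : core J γ' = (1 / 2, z)) (hy1 : y.1 = 0)
    (hy2 : nsq y < 1 / 25)
    (hset : ∀ a ∈ Icc (1 / 5 : ℝ) (4 / 5), core J a ∈ flat 0 → a = 1 / 5 ∨ a = γ ∨ a = γ')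
    (hγm : γ ∈ Ioo (2 / 5 : ℝ) (4 / 5)) (hel : 0 < e * l)
    (hder : fderiv ℝ J (ax γ) (0, ((1 : ℝ), (0 : ℂ))) = (l, v)) :
    Theta (fun p => J (k p)) γ (2 / 5) e d ∧
      0 < (fderiv ℝ (fun p => J (k p)) (ax (1 / 2))).det := by
  have kflat : ∀ p ∈ flat 0, k p ∈ flat 0 := fun p hp => ⟨(hk.fst p).trans hp.1, hk.small p hp.2⟩
  have k1 : ∀ p ∈ flat 1, k p = p := fun p hp => hk.far p (by linarith [flat1_ge hp])
  have kn : ∀ p ∈ neck, k p = p := fun p hp => hk.far p (by linarith [hp.2.1])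
  have F0 : ∀ p ∈ flat 0, J (k p) = k p := fun p hp =>
    hJ.ends _ (Or.inl (by linarith [flat0_le (kflat p hp)]))
  have F1 : ∀ p ∈ flat 1, J (k p) = p := fun p hp => by
    rw [k1 p hp]
    exact hJ.ends _ (Or.inr (by linarith [flat1_ge hp]))
  have Fn : ∀ p ∈ neck, J (k p) = J p := fun p hp => by rw [kn p hp]
  have Fc : ∀ a ∈ Icc (1 / 5 : ℝ) (4 / 5), core (fun p => J (k p)) a = core J a := fun a ha =>
    Fn _ (ax_mem_neck ha)
  have kFB : ∀ p ∈ FB, k p ∈ FB := by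
    rintro p ((hp | hp) | hp)
    · exact Or.inl (Or.inl (kflat p hp))
    · rw [k1 p hp]; exact Or.inl (Or.inr hp)
    · rw [kn p hp]; exact Or.inr hp
  have loc : ∀ p ∈ FB, LD (fun p => J (k p)) p := fun p hp =>
    ld_comp (hk.ld p) (hJ.loc _ (kFB p hp))
  have s0 : sph 0 ⊆ flat 0 := fun p hp => ⟨hp.1, hp.2.le⟩
  have s1 : sph 1 ⊆ flat 1 := fun p hp => ⟨hp.1, hp.2.le⟩
  have disj : ∀ p, p ∈ flat 0 → p ∈ flat 1 → False := fun p h0 h1 => by
    linarith [flat0_le h0, flat1_ge h1]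
  have injF : InjOn (fun p => J (k p)) (flat 0 ∪ flat 1) := by
    rintro p (hp | hp) q (hq | hq) h
    · simp only [F0 p hp, F0 q hq] at h
      exact hk.inj h
    · simp only [F0 p hp, F1 q hq] at h
      exact (disj q (h ▸ kflat p hp) hq).elim
    · simp only [F1 p hp, F0 q hq] at h
      exact (disj p (h ▸ kflat q hq) hp).elim
    · simp only [F1 p hp, F1 q hq] at h
      exact h
  have hyk : k (1 / 2, y) = (1 / 2, y) := hk.near.self_of_nhds
  -- mixed pairs
  have mix0 : ∀ p ∈ sph 0, ∀ q ∈ neck, J (k p) = J (k q) → p = q := by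
    intro p hp q hq h
    obtain ⟨a, ha, rfl⟩ := neck_ax hq
    have h1 : k p = core J a := by
      rw [F0 p (s0 hp), Fn _ hq] at h
      exact h
    have h2 : core J a ∈ flat 0 := h1 ▸ kflat p (s0 hp)
    rcases hset a ha h2 with h3 | h3 | h3
    · rw [h3, core_end0 hJ] at h1
      rw [h3]
      apply hk.inj
      rw [h1, kn _ (ax_mem_neck (by constructor <;> norm_num))]
    · rw [h3, hγ, ← hyk] at h1
      have h4 := hk.inj h1
      have h5 : rsq 0 p = 1 / 25 := hp.2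
      rw [h4] at h5
      have h6 : rsq 0 (1 / 2, y) = nsq y := by
        simp only [rsq, sub_zero]
      linarith
    · rw [h3, hγ'] at h1
      exact (hk.ne p (s0 hp) h1).elim
  have mix1 : ∀ p ∈ sph 1, ∀ q ∈ neck, J (k p) = J (k q) → p = q := by
    intro p hp q hq h
    obtain ⟨a, ha, rfl⟩ := neck_ax hq
    have h1 : p = core J a := by
      rw [F1 p (s1 hp), Fn _ hq] at h
      exact h
    have h2 : core J a ∈ flat 1 := h1 ▸ s1 hp
    rcases core_flat1 hd hJ ha h2 with h3 | h3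
    · rw [h1, h3, core_end1 hJ]
    · have h4 := hJ.strand (2 / 5) (by norm_num)
      rw [h1, h3, h4] at hp
      have h5 : rsq 1 (1 / 2 + d * (2 / 5 - 2 / 5), pc 1) = 1 / 25 := hp.2
      rw [rsq_eq] at h5
      simp only [pc, Complex.zero_re, Complex.zero_im] at h5
      norm_num at h5
  have inj : InjOn (fun p => J (k p)) SP := by
    have hs : ∀ p, p ∈ sph 0 ∪ sph 1 → p ∈ flat 0 ∪ flat 1 := by
      rintro p (hp | hp)
      · exact Or.inl (s0 hp)
      · exact Or.inr (s1 hp)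
    rintro p (hp | hp) q (hq | hq) h
    · exact injF (hs p hp) (hs q hq) h
    · rcases hp with hp | hp
      · exact mix0 p hp q hq h
      · exact mix1 p hp q hq h
    · rcases hq with hq | hq
      · exact (mix0 q hq p hp h.symm).symm
      · exact (mix1 q hq p hp h.symm).symm
    · simp only [Fn p hp, Fn q hq] at h
      exact hJ.inj (Or.inr hp) (Or.inr hq) h
  have himg0 : (fun p => J (k p)) '' flat 0 ⊆ flat 0 := by
    rintro _ ⟨p, hp, rfl⟩
    change J (k p) ∈ flat 0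
    rw [F0 p hp]; exact kflat p hp
  have himg1 : (fun p => J (k p)) '' flat 1 ⊆ flat 1 := by
    rintro _ ⟨p, hp, rfl⟩
    change J (k p) ∈ flat 1
    rw [F1 p hp]; exact hp
  have hγI : γ ∈ Icc (1 / 5 : ℝ) (4 / 5) := ⟨by linarith [hγm.1], hγm.2.le⟩
  -- near points of the neck `F = J`
  have nearn : ∀ a : ℝ, 17 / 100 < a → (fun p => J (k p)) =ᶠ[𝓝 (ax a)] J := by
    intro a ha
    have hc : ContinuousAt (fun p : R4 => p.2.1) (ax a) := by fun_prop
    filter_upwards [hc.eventually (lt_mem_nhds (show 17 / 100 < (ax a).2.1 from ha))] with p hp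
    rw [hk.far p hp.le]
  refine ⟨⟨⟨?_, inj, ?_, ⟨by linarith [hγm.1], hγm.2⟩, ?_, ?_⟩,
    ⟨?_, inj, ?_, by constructor <;> norm_num, ?_, ?_⟩, ?_, hγm.1⟩, ?_⟩
  · rintro p (((hp | hp) | hp) | hp)
    · exact loc p (Or.inl (Or.inl (s0 hp)))
    · exact loc p (Or.inl (Or.inr (s1 hp)))
    · exact loc p (Or.inr hp)
    · exact loc p (Or.inl (Or.inl hp))
  · rw [sub_zero]
    exact injF.mono (union_subset_union Subset.rfl s1)
  · refine ⟨y, ?_, ?_, l, v, hel, ?_⟩
    · have : y - pc 0 = y := by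
        simp only [pc]
        exact sub_zero y
      rw [this]; exact hy2
    · rw [Fc γ hγI, hγ]
      change _ = J (k (1 / 2, y))
      rw [hyk]
      exact (hJ.ends _ (Or.inl (by change y.1 ≤ _; rw [hy1]; norm_num))).symm
    · rw [(nearn γ (by linarith [hγm.1])).fderiv_eq, hder, fderiv_id_of]
      · rfl
      · have hc : ContinuousAt (fun p : R4 => p.2.1) ((1 / 2, y) : R4) := by fun_prop
        have h1 : ((1 / 2, y) : R4).2.1 < 9 / 40 := by
          change y.1 < _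
          rw [hy1]; norm_num
        filter_upwards [hk.near, hc.eventually (gt_mem_nhds h1)] with q e1 e2
        rw [e1]
        exact hJ.ends _ (Or.inl e2.le)
  · intro a ha h
    rw [Fc a ha] at h
    rcases hset a ha (himg0 h) with h3 | h3 | h3
    · left; rw [h3]; norm_num
    · right; exact h3
    · exfalso
      rw [h3, hγ'] at h
      obtain ⟨p, hp, h4⟩ := h
      simp only [F0 p hp] at h4
      exact hk.ne p hp h4
  · rintro p (((hp | hp) | hp) | hp)
    · exact loc p (Or.inl (Or.inl (s0 hp)))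
    · exact loc p (Or.inl (Or.inr (s1 hp)))
    · exact loc p (Or.inr hp)
    · exact loc p (Or.inl (Or.inr hp))
  · rw [sub_self]
    rw [union_comm]
    exact injF.mono (union_subset_union s0 Subset.rfl)
  · have h25 : (2 / 5 : ℝ) ∈ Icc (1 / 5 : ℝ) (4 / 5) := by constructor <;> norm_num
    have hc1 : core J (2 / 5) = (1 / 2, pc 1) := by
      rw [hJ.strand (2 / 5) (by norm_num)]
      simp
    have hm1 : ((1 / 2, pc 1) : R4) ∈ flat 1 := by
      refine ⟨rfl, ?_⟩
      rw [rsq_eq]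
      simp only [pc, Complex.zero_re, Complex.zero_im]
      norm_num
    refine ⟨pc 1, ?_, ?_, d, 0, ?_, ?_⟩
    · rw [sub_self]
      simp only [nsq, Prod.fst_zero, Prod.snd_zero, Complex.zero_re, Complex.zero_im]
      norm_num
    · rw [Fc _ h25, hc1]
      exact (F1 _ hm1).symm
    · rcases hd with rfl | rfl <;> norm_num
    · rw [(nearn (2 / 5) (by norm_num)).fderiv_eq, core_strand hJ, fderiv_id_of]
      · rfl
      · have hc : ContinuousAt (fun p : R4 => p.2.1) ((1 / 2, pc 1) : R4) := by fun_prop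
        have h1 : 31 / 40 < ((1 / 2, pc 1) : R4).2.1 := by
          change (31 / 40 : ℝ) < 1
          norm_num
        filter_upwards [hc.eventually (lt_mem_nhds h1)] with q e2
        rw [hk.far q (by linarith)]
        exact hJ.ends _ (Or.inr e2.le)
  · intro a ha h
    rw [Fc a ha] at h
    rcases core_flat1 hd hJ ha (himg1 h) with h3 | h3
    · left; rw [h3]; norm_num
    · right; exact h3
  · rw [Set.disjoint_left]
    intro q h0 h1
    exact disj q (himg0 h0) (himg1 h1)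
  · refine hDET _ FB (Or.inl rfl) loc (ax (1 / 5))
      (Or.inr (ax_mem_neck (by constructor <;> norm_num))) (ax (1 / 2))
      (Or.inr (ax_mem_neck (by constructor <;> norm_num))) ?_
    rw [(nearn (1 / 5) (by norm_num)).fderiv_eq, fderiv_id_of]
    · simp [ContinuousLinearMap.det]
    · have hc : ContinuousAt (fun p : R4 => p.2.1) (ax (1 / 5)) := by fun_prop
      have h1 : (ax (1 / 5)).2.1 < 9 / 40 := by
        change (1 / 5 : ℝ) < _
        norm_num
      filter_upwards [hc.eventually (gt_mem_nhds h1)] with q e2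
      exact hJ.ends _ (Or.inl e2.le)

private theorem flat_ball {p : R4} (hp : p ∈ flat 0) : p ∈ ball4 := by
  refine ⟨by rw [hp.1]; norm_num, by rw [hp.1]; norm_num, ?_⟩
  linarith [hp.2]

private theorem isKap_KH {x₀ y : R3} {δ r : ℝ} {k : R4 → R4} (hr : 0 < r) (h : IsKap x₀ δ r k)
    (hf : ∀ p : R4, 17 / 100 ≤ p.2.1 → k p = p) (hy : δ < ‖y.2 - x₀.2‖) : KH k y x₀ where
  inj := fun p q hpq => h.emb.2 (mem_univ p) (mem_univ q) hpq
  ld := fun p => h.emb.1 p (mem_univ p)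
  fst := h.fst
  far := hf
  small := h.small
  ne := by
    intro p hp he
    apply h.away p (flat_ball hp)
    rw [he]
    change nsq (x₀ - x₀) < r ^ 2
    rw [sub_self]
    simp only [nsq, Prod.fst_zero, Prod.snd_zero, Complex.zero_re, Complex.zero_im]
    have := pow_pos hr 2
    linarith
  near := by
    have hc : ContinuousAt (fun p : R4 => ‖p.2.2 - x₀.2‖) ((1 / 2, y) : R4) := by fun_prop
    filter_upwards [hc.eventually (lt_mem_nhds (show δ < ‖((1 / 2, y) : R4).2.2 - x₀.2‖ from hy))]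
      with p hp
    exact h.off_w p hp.le

end R3T

theorem m_R3T (hDET : StDET) : StR3T := by
  intro J d r k1 k2 hd hJ hr h1 h2 hf _
  have e59 : core J (59 / 100) = (1 / 2, (0 : R3)) := by
    rw [hJ.para (59 / 100) (by rw [abs_le]; constructor <;> norm_num)]
    norm_num
  have e61 : core J (61 / 100) = (1 / 2, x2) := by
    rw [hJ.para (61 / 100) (by rw [abs_le]; constructor <;> norm_num)]
    norm_num [x2]
  have n10 : ‖((1 / 10 : ℝ) : ℂ)‖ = 1 / 10 := by
    rw [Complex.norm_real]; norm_num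
  refine ⟨?_, ?_⟩
  · refine R3T.main hDET hd hJ (R3T.isKap_KH (y := 0) hr h1 (fun p hp => (hf p hp).1) ?_) e59 e61 rfl
      ?_ ?_ (by constructor <;> norm_num) (l := 20) (v := ((0 : ℝ), (5 : ℂ))) (by norm_num) ?_
    · change 1 / 80 < ‖(0 : ℂ) - ((1 / 10 : ℝ) : ℂ)‖
      rw [zero_sub, norm_neg, n10]; norm_num
    · simp only [nsq, Prod.fst_zero, Prod.snd_zero, Complex.zero_re, Complex.zero_im]
      norm_num
    · intro a ha h
      exact R3T.core_flat0 hJ ha h
    · rw [R3T.core_para hJ (by rw [abs_lt]; constructor <;> norm_num)]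
      norm_num
  · refine R3T.main hDET hd hJ (R3T.isKap_KH (y := x2) hr h2 (fun p hp => (hf p hp).2) ?_) e61 e59 rfl
      ?_ ?_ (by constructor <;> norm_num) (l := -20) (v := ((0 : ℝ), (5 : ℂ))) (by norm_num) ?_
    · change 1 / 80 < ‖((1 / 10 : ℝ) : ℂ) - (0 : ℂ)‖
      rw [sub_zero, n10]; norm_num
    · simp only [nsq, x2, Complex.ofReal_re, Complex.ofReal_im]
      norm_num
    · intro a ha h
      rcases R3T.core_flat0 hJ ha h with h3 | h3 | h3
      · exact Or.inl h3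
      · exact Or.inr (Or.inr h3)
      · exact Or.inr (Or.inl h3)
    · rw [R3T.core_para hJ (by rw [abs_lt]; constructor <;> norm_num)]
      norm_num

end Pool.Agent.Helper70.BI
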