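import Pool.Agent.Helper70.BI.StL

/-!
# Project BI, part (E): module ROT (rotation about `sph 1`)
-/

set_option autoImplicit false

open scoped Manifold ContDiff Topology ComplexConjugate
open Set Filter Pool.Agent.Helper65.Barb Pool.Agent.Helper18.BI

namespace Pool.Agent.Helper70.BI

namespace ROT

/-- the distance from the vertical line through the centre -/
noncomputable def rho (p : R4) : ℝ := √(rsq 1 p)

/-- the angle -/
noncomputable def th (d ε t : ℝ) (p : R4) : ℝ :=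
  2 * Real.pi * d * t * step (4 / 3 * (1 - tr p / ε ^ 2))

/-- the rotation by the angle `θ` -/
noncomputable def fo (θ : ℝ) (p : R4) : R4 :=
  (1 / 2 + (Real.cos θ * (p.1 - 1 / 2) - Real.sin θ * (rho p - 1 / 5)),
    pc 1 + ((1 / 5 + (Real.sin θ * (p.1 - 1 / 2) + Real.cos θ * (rho p - 1 / 5))) / rho p) •
      (p.2 - pc 1))

open Classical in
/-- the family -/
noncomputable def Rf (d ε : ℝ) (z : ℝ × R4) : R4 :=
  if 1 / 10 < rho z.2 then fo (th d ε z.1 z.2) z.2 else z.2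

theorem tr_def (p : R4) : tr p = (p.1 - 1 / 2) ^ 2 + (rho p - 1 / 5) ^ 2 := rfl

theorem rho_nonneg (p : R4) : 0 ≤ rho p := Real.sqrt_nonneg _

theorem rho_sq (p : R4) : rho p ^ 2 = rsq 1 p := Real.sq_sqrt (rsq_nonneg 1 p)

theorem rsq_eq_nsq (p : R4) : rsq 1 p = nsq (p.2 - pc 1) := by
  simp [rsq, nsq, pc]

theorem nsq_smul_ROT (k : ℝ) (x : R3) : nsq (k • x) = k ^ 2 * nsq x := by
  simp only [nsq, Prod.smul_fst, Prod.smul_snd, smul_eq_mul, Complex.smul_re, Complex.smul_im]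
  ring

theorem fo_zero {p : R4} (h : 0 < rho p) : fo 0 p = p := by
  have h1 : (1 / 5 + (Real.sin 0 * (p.1 - 1 / 2) + Real.cos 0 * (rho p - 1 / 5))) / rho p = 1 := by
    rw [Real.sin_zero, Real.cos_zero]
    have : 1 / 5 + (0 * (p.1 - 1 / 2) + 1 * (rho p - 1 / 5)) = rho p := by ring
    rw [this, div_self h.ne']
  unfold fo
  rw [h1, one_smul, Real.sin_zero, Real.cos_zero]
  refine Prod.ext ?_ ?_
  · change 1 / 2 + (1 * (p.1 - 1 / 2) - 0 * (rho p - 1 / 5)) = p.1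
    ring
  · change pc 1 + (p.2 - pc 1) = p.2
    abel

theorem rho_fo {θ : ℝ} {p : R4} (h : 0 < rho p)
    (hw : 0 ≤ 1 / 5 + (Real.sin θ * (p.1 - 1 / 2) + Real.cos θ * (rho p - 1 / 5))) :
    rho (fo θ p) = 1 / 5 + (Real.sin θ * (p.1 - 1 / 2) + Real.cos θ * (rho p - 1 / 5)) := by
  have h1 : rsq 1 (fo θ p) =
      (1 / 5 + (Real.sin θ * (p.1 - 1 / 2) + Real.cos θ * (rho p - 1 / 5))) ^ 2 := by
    rw [rsq_eq_nsq]
    have h2 : (fo θ p).2 - pc 1 =
        ((1 / 5 + (Real.sin θ * (p.1 - 1 / 2) + Real.cos θ * (rho p - 1 / 5))) / rho p) •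
          (p.2 - pc 1) := add_sub_cancel_left _ _
    rw [h2, nsq_smul_ROT, ← rsq_eq_nsq, ← rho_sq, div_pow, div_mul_cancel₀ _ (pow_ne_zero 2 h.ne')]
  change √(rsq 1 (fo θ p)) = _
  rw [h1, Real.sqrt_sq hw]

theorem tr_fo {θ : ℝ} {p : R4} (h : 0 < rho p)
    (hw : 0 ≤ 1 / 5 + (Real.sin θ * (p.1 - 1 / 2) + Real.cos θ * (rho p - 1 / 5))) :
    tr (fo θ p) = tr p := by
  rw [tr_def, tr_def, rho_fo h hw]
  have h1 : (fo θ p).1 = 1 / 2 + (Real.cos θ * (p.1 - 1 / 2) - Real.sin θ * (rho p - 1 / 5)) := rfl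
  rw [h1]
  linear_combination ((p.1 - 1 / 2) ^ 2 + (rho p - 1 / 5) ^ 2) * Real.sin_sq_add_cos_sq θ

theorem fo_fo {θ : ℝ} {p : R4} (h : 0 < rho p)
    (hw : 0 < 1 / 5 + (Real.sin θ * (p.1 - 1 / 2) + Real.cos θ * (rho p - 1 / 5))) :
    fo (-θ) (fo θ p) = p := by
  have h0 := rho_fo h hw.le
  have h1 : (fo θ p).1 = 1 / 2 + (Real.cos θ * (p.1 - 1 / 2) - Real.sin θ * (rho p - 1 / 5)) := rfl
  have h2 : (fo θ p).2 - pc 1 =
      ((1 / 5 + (Real.sin θ * (p.1 - 1 / 2) + Real.cos θ * (rho p - 1 / 5))) / rho p) •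
        (p.2 - pc 1) := add_sub_cancel_left _ _
  have hs := Real.sin_sq_add_cos_sq θ
  have e1 : Real.cos (-θ) * ((fo θ p).1 - 1 / 2) - Real.sin (-θ) * (rho (fo θ p) - 1 / 5) =
      p.1 - 1 / 2 := by
    rw [Real.cos_neg, Real.sin_neg, h0, h1]
    linear_combination (p.1 - 1 / 2) * hs
  have e2 : Real.sin (-θ) * ((fo θ p).1 - 1 / 2) + Real.cos (-θ) * (rho (fo θ p) - 1 / 5) =
      rho p - 1 / 5 := by
    rw [Real.cos_neg, Real.sin_neg, h0, h1]
    linear_combination (rho p - 1 / 5) * hs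
  have e3 : fo (-θ) (fo θ p) = (1 / 2 + (Real.cos (-θ) * ((fo θ p).1 - 1 / 2) -
      Real.sin (-θ) * (rho (fo θ p) - 1 / 5)), pc 1 + ((1 / 5 + (Real.sin (-θ) * ((fo θ p).1 - 1 / 2) +
        Real.cos (-θ) * (rho (fo θ p) - 1 / 5))) / rho (fo θ p)) • ((fo θ p).2 - pc 1)) := rfl
  rw [e3, e1, e2, h0, h2, smul_smul]
  have e4 : (1 / 5 + (rho p - 1 / 5)) /
      (1 / 5 + (Real.sin θ * (p.1 - 1 / 2) + Real.cos θ * (rho p - 1 / 5))) *
      ((1 / 5 + (Real.sin θ * (p.1 - 1 / 2) + Real.cos θ * (rho p - 1 / 5))) / rho p) = 1 := by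
    have : 1 / 5 + (rho p - 1 / 5) = rho p := by ring
    rw [this, div_mul_div_cancel₀ hw.ne', div_self h.ne']
  rw [e4, one_smul]
  refine Prod.ext ?_ ?_
  · change 1 / 2 + (p.1 - 1 / 2) = p.1
    ring
  · change pc 1 + (p.2 - pc 1) = p.2
    abel

theorem w_pos {p : R4} (θ : ℝ) (h : tr p < (1 / 20) ^ 2) :
    1 / 10 < 1 / 5 + (Real.sin θ * (p.1 - 1 / 2) + Real.cos θ * (rho p - 1 / 5)) := by
  rw [tr_def] at h
  have hs := Real.sin_sq_add_cos_sq θ
  have h1 : (Real.sin θ * (p.1 - 1 / 2) + Real.cos θ * (rho p - 1 / 5)) ^ 2 < (1 / 20) ^ 2 := by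
    have h2 : (Real.sin θ * (p.1 - 1 / 2) + Real.cos θ * (rho p - 1 / 5)) ^ 2 +
        (Real.cos θ * (p.1 - 1 / 2) - Real.sin θ * (rho p - 1 / 5)) ^ 2 =
        (p.1 - 1 / 2) ^ 2 + (rho p - 1 / 5) ^ 2 := by
      linear_combination ((p.1 - 1 / 2) ^ 2 + (rho p - 1 / 5) ^ 2) * hs
    have h3 := sq_nonneg (Real.cos θ * (p.1 - 1 / 2) - Real.sin θ * (rho p - 1 / 5))
    linarith
  have h3 := (abs_lt_of_sq_lt_sq' h1 (by norm_num)).1
  linarith

theorem rho_of_tr {p : R4} (h : tr p < (1 / 20) ^ 2) : 3 / 20 < rho p := by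
  rw [tr_def] at h
  have h2 := sq_nonneg (p.1 - 1 / 2)
  have h1 : (rho p - 1 / 5) ^ 2 < (1 / 20) ^ 2 := by linarith
  have h3 := (abs_lt_of_sq_lt_sq' h1 (by norm_num)).1
  linarith

section
variable {d ε : ℝ}

theorem sq_lt (hε : ε ∈ Ioo (0 : ℝ) (1 / 20)) : ε ^ 2 < (1 / 20) ^ 2 :=
  pow_lt_pow_left₀ hε.2 hε.1.le two_ne_zero

theorem th_of_ge (hε : ε ∈ Ioo (0 : ℝ) (1 / 20)) (t : ℝ) {p : R4} (h : ε ^ 2 ≤ tr p) :
    th d ε t p = 0 := by
  have h1 : 1 ≤ tr p / ε ^ 2 := (one_le_div (pow_pos hε.1 2)).2 h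
  unfold th
  rw [step_of_nonpos (by linarith), mul_zero]

theorem Rf_fix (hε : ε ∈ Ioo (0 : ℝ) (1 / 20)) (t : ℝ) {p : R4} (h : ε ^ 2 ≤ tr p) :
    Rf d ε (t, p) = p := by
  unfold Rf
  split_ifs with h1
  · change fo (th d ε t p) p = p
    rw [th_of_ge hε t h]
    exact fo_zero (lt_trans (by norm_num) h1)
  · rfl

theorem Rf_in (hε : ε ∈ Ioo (0 : ℝ) (1 / 20)) (t : ℝ) {p : R4} (h : tr p < ε ^ 2) :
    Rf d ε (t, p) = fo (th d ε t p) p := by
  unfold Rf
  exact if_pos (lt_trans (by norm_num) (rho_of_tr (h.trans (sq_lt hε))))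

theorem tr_Rf (hε : ε ∈ Ioo (0 : ℝ) (1 / 20)) (t : ℝ) (p : R4) : tr (Rf d ε (t, p)) = tr p := by
  rcases lt_or_ge (tr p) (ε ^ 2) with h | h
  · rw [Rf_in hε t h]
    have h' := h.trans (sq_lt hε)
    exact tr_fo (lt_trans (by norm_num) (rho_of_tr h')) (le_trans (by norm_num) (w_pos _ h').le)
  · rw [Rf_fix hε t h]

theorem th_neg (t : ℝ) (p : R4) : th (-d) ε t p = -th d ε t p := by
  unfold th
  ring

theorem Rf_inv (hε : ε ∈ Ioo (0 : ℝ) (1 / 20)) (t : ℝ) (p : R4) :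
    Rf (-d) ε (t, Rf d ε (t, p)) = p := by
  rcases lt_or_ge (tr p) (ε ^ 2) with h | h
  · have h' := h.trans (sq_lt hε)
    have ht := tr_Rf (d := d) hε t p
    rw [Rf_in hε t (by rw [ht]; exact h), th_neg]
    have h2 : th d ε t (Rf d ε (t, p)) = th d ε t p := by
      unfold th
      rw [ht]
    rw [h2, Rf_in hε t h]
    exact fo_fo (lt_trans (by norm_num) (rho_of_tr h')) (lt_trans (by norm_num) (w_pos _ h'))
  · rw [Rf_fix hε t h, Rf_fix hε t h]

theorem continuous_rho : Continuous rho := (continuous_rsq 1).sqrt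

theorem contDiffAt_rho {p : R4} (h : 0 < rho p) : ContDiffAt ℝ ∞ rho p :=
  (contDiff_rsq 1).contDiffAt.sqrt (Real.sqrt_pos.1 h).ne'

theorem contDiff_Rf (hε : ε ∈ Ioo (0 : ℝ) (1 / 20)) : ContDiff ℝ ∞ (Rf d ε) := by
  rw [contDiff_iff_contDiffAt]
  intro z
  have hc : Continuous (fun z : ℝ × R4 => rho z.2) := continuous_rho.comp continuous_snd
  rcases lt_or_ge (1 / 10) (rho z.2) with h | h
  · have h0 : 0 < rho z.2 := lt_trans (by norm_num) h
    have c1 : ContDiffAt ℝ ∞ (fun z : ℝ × R4 => rho z.2) z :=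
      ContDiffAt.comp (g := rho) z (contDiffAt_rho h0) contDiffAt_snd
    have c2 : ContDiffAt ℝ ∞ (fun z : ℝ × R4 => z.2.1) z := contDiffAt_snd.fst
    have c3 : ContDiffAt ℝ ∞ (fun z : ℝ × R4 => tr z.2) z :=
      ((c2.sub contDiffAt_const).pow 2).add ((c1.sub contDiffAt_const).pow 2)
    have c4 : ContDiffAt ℝ ∞ (fun z : ℝ × R4 => th d ε z.1 z.2) z :=
      (contDiffAt_const.mul contDiffAt_fst).mul (ContDiffAt.comp z contDiff_step.contDiffAt
        (contDiffAt_const.mul (contDiffAt_const.sub (c3.div_const _))))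
    have c5 : ContDiffAt ℝ ∞ (fun z : ℝ × R4 => Real.cos (th d ε z.1 z.2)) z := c4.cos
    have c6 : ContDiffAt ℝ ∞ (fun z : ℝ × R4 => Real.sin (th d ε z.1 z.2)) z := c4.sin
    have c7 : ContDiffAt ℝ ∞ (fun z : ℝ × R4 => z.2.2 - pc 1) z :=
      contDiffAt_snd.snd.sub contDiffAt_const
    have c8 : ContDiffAt ℝ ∞ (fun z : ℝ × R4 => fo (th d ε z.1 z.2) z.2) z :=
      (contDiffAt_const.add ((c5.mul (c2.sub contDiffAt_const)).sub
        (c6.mul (c1.sub contDiffAt_const)))).prodMk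
        (contDiffAt_const.add (((contDiffAt_const.add ((c6.mul (c2.sub contDiffAt_const)).add
          (c5.mul (c1.sub contDiffAt_const)))).div c1 h0.ne').smul c7))
    refine c8.congr_of_eventuallyEq ?_
    filter_upwards [hc.continuousAt.eventually (lt_mem_nhds h)] with y hy
    exact if_pos hy
  · have h1 : rho z.2 < 3 / 20 := lt_of_le_of_lt h (by norm_num)
    refine (contDiffAt_snd (𝕜 := ℝ)).congr_of_eventuallyEq ?_
    filter_upwards [hc.continuousAt.eventually (gt_mem_nhds h1)] with y hy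
    have h2 : ε ^ 2 ≤ tr y.2 := by
      by_contra h3
      rw [not_le] at h3
      have := rho_of_tr (h3.trans (sq_lt hε))
      linarith
    exact Rf_fix (d := d) hε y.1 h2

/-- the family of diffeomorphisms -/
noncomputable def fam (d ε : ℝ) (hε : ε ∈ Ioo (0 : ℝ) (1 / 20)) : DFam I4 R4 where
  f := Rf d ε
  g := Rf (-d) ε
  smooth_f := contMDiff_of_contDiff (contDiff_Rf hε)
  smooth_g := contMDiff_of_contDiff (contDiff_Rf hε)
  fg t x := by
    have := Rf_inv (d := -d) hε t x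
    rwa [neg_neg] at this
  gf t x := Rf_inv hε t x

/-! ### the axis -/

theorem rho_ax {a : ℝ} (ha : a < 1) : rho (ax a) = 1 - a := by
  have h : rsq 1 (ax a) = (1 - a) ^ 2 := by
    simp only [rsq, nsq, ax, Complex.zero_re, Complex.zero_im]
    ring
  unfold rho
  rw [h, Real.sqrt_sq (by linarith)]

theorem tr_ax {a : ℝ} (ha : a < 1) : tr (ax a) = (4 / 5 - a) ^ 2 := by
  rw [tr_def, rho_ax ha]
  simp only [ax]
  ring

/-- the angle on the axis -/
noncomputable def T (d ε a : ℝ) : ℝ :=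
  2 * Real.pi * d * step (4 / 3 * (1 - (4 / 5 - a) ^ 2 / ε ^ 2))

theorem Rf_ax (hε : ε ∈ Ioo (0 : ℝ) (1 / 20)) {a : ℝ} (ha : a ∈ Ioo (4 / 5 - ε) (4 / 5 : ℝ)) :
    Rf d ε (1, ax a) = (1 / 2 - Real.sin (T d ε a) * (4 / 5 - a),
      ((4 / 5 - Real.cos (T d ε a) * (4 / 5 - a) : ℝ), (0 : ℂ))) := by
  have ha1 : a < 1 := by linarith [ha.2]
  have ht : tr (ax a) < ε ^ 2 := by
    rw [tr_ax ha1]
    exact pow_lt_pow_left₀ (by linarith [ha.1]) (by linarith [ha.2]) two_ne_zero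
  have hT : th d ε 1 (ax a) = T d ε a := by
    unfold th T
    rw [tr_ax ha1, mul_one]
  rw [Rf_in hε 1 ht, hT]
  unfold fo
  rw [rho_ax ha1]
  have hne : (1 - a) ≠ 0 := by linarith
  refine Prod.ext ?_ (Prod.ext ?_ ?_)
  · simp only [ax]
    ring
  · simp only [ax, pc, Prod.fst_add, Prod.smul_fst, Prod.fst_sub, smul_eq_mul]
    field_simp
    ring
  · simp [ax, pc]

theorem step_half : step (1 / 2) = 1 / 2 := by
  have h := step_symm (1 / 2)
  have h1 : (1 : ℝ) - 1 / 2 = 1 / 2 := by norm_num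
  rw [h1] at h
  linarith

theorem glue_pos {x : ℝ} (h : 0 < x) : expNegInvGlue x = Real.exp (-x⁻¹) := by
  unfold expNegInvGlue
  exact if_neg (not_le.2 h)

theorem step_eq_half {x : ℝ} (h : step x = 1 / 2) : x = 1 / 2 := by
  have h0 : 0 < x := by
    by_contra h1
    rw [step_of_nonpos (not_lt.1 h1)] at h
    norm_num at h
  have h1 : x < 1 := by
    by_contra h1
    rw [step_of_one_le (not_lt.1 h1)] at h
    norm_num at h
  have hd := Real.smoothTransition.pos_denom x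
  unfold step Real.smoothTransition at h
  rw [div_eq_iff hd.ne'] at h
  have h2 : expNegInvGlue x = expNegInvGlue (1 - x) := by linarith
  rw [glue_pos h0, glue_pos (by linarith : (0 : ℝ) < 1 - x), Real.exp_eq_exp, neg_inj, inv_inj] at h2
  linarith

theorem hasDerivAt_step_half : HasDerivAt step 2 (1 / 2) := by
  have hf : HasDerivAt expNegInvGlue (4 * Real.exp (-2)) (1 / 2) := by
    have h1 : HasDerivAt (fun x : ℝ => Real.exp (-x⁻¹)) (4 * Real.exp (-2)) (1 / 2) := by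
      have h2 : HasDerivAt (fun x : ℝ => -x⁻¹) 4 (1 / 2) :=
        (hasDerivAt_inv (x := (1 / 2 : ℝ)) (by norm_num)).neg.congr_deriv (by norm_num)
      refine h2.exp.congr_deriv ?_
      rw [show (-(1 / 2 : ℝ)⁻¹) = -2 by norm_num, mul_comm]
    refine h1.congr_of_eventuallyEq ?_
    filter_upwards [lt_mem_nhds (show (0 : ℝ) < 1 / 2 by norm_num)] with x hx
    exact glue_pos hx
  have hval : expNegInvGlue (1 / 2) = Real.exp (-2) := by
    rw [glue_pos (by norm_num)]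
    norm_num
  have hg : HasDerivAt (fun x : ℝ => expNegInvGlue (1 - x)) (-(4 * Real.exp (-2))) (1 / 2) := by
    have h1 : (1 : ℝ) - 1 / 2 = 1 / 2 := by norm_num
    have h2 : HasDerivAt expNegInvGlue (4 * Real.exp (-2)) ((fun x : ℝ => 1 - x) (1 / 2)) := by
      change HasDerivAt expNegInvGlue (4 * Real.exp (-2)) (1 - 1 / 2)
      rw [h1]
      exact hf
    have h3 := h2.comp (1 / 2 : ℝ) ((hasDerivAt_id (1 / 2 : ℝ)).const_sub 1)
    exact h3.congr_deriv (by ring)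
  have hd := Real.smoothTransition.pos_denom (1 / 2 : ℝ)
  have h5 : HasDerivAt step ((4 * Real.exp (-2) * (expNegInvGlue (1 / 2) + expNegInvGlue (1 - 1 / 2)) -
      expNegInvGlue (1 / 2) * (4 * Real.exp (-2) + -(4 * Real.exp (-2)))) /
      (expNegInvGlue (1 / 2) + expNegInvGlue (1 - 1 / 2)) ^ 2) (1 / 2) :=
    hf.div (hf.add hg) hd.ne'
  refine h5.congr_deriv ?_
  have h1 : (1 : ℝ) - 1 / 2 = 1 / 2 := by norm_num
  rw [h1, hval]
  have he := (Real.exp_pos (-2)).ne'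
  field_simp
  ring

theorem tau_half {τ : ℝ} (hτ : τ ∈ Icc (0 : ℝ) 1) (hs : Real.sin (2 * Real.pi * τ) = 0)
    (hc : Real.cos (2 * Real.pi * τ) ≤ 0) : τ = 1 / 2 := by
  have hpi := Real.pi_pos
  rcases lt_trichotomy τ (1 / 2) with h | h | h
  · exfalso
    rcases hτ.1.eq_or_lt with h0 | h0
    · rw [← h0, mul_zero, Real.cos_zero] at hc
      linarith
    · have h1 : 0 < Real.pi * τ := mul_pos hpi h0
      have h2 : Real.pi * τ < Real.pi * (1 / 2) := mul_lt_mul_of_pos_left h hpi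
      have := Real.sin_pos_of_pos_of_lt_pi (x := 2 * Real.pi * τ) (by linarith) (by linarith)
      linarith
  · exact h
  · exfalso
    rcases hτ.2.eq_or_lt with h0 | h0
    · rw [h0, mul_one, Real.cos_two_pi] at hc
      linarith
    · have h1 : Real.pi * (1 / 2) < Real.pi * τ := mul_lt_mul_of_pos_left h hpi
      have h2 : Real.pi * τ < Real.pi * 1 := mul_lt_mul_of_pos_left h0 hpi
      have := Real.sin_pos_of_pos_of_lt_pi (x := 2 * Real.pi * τ - Real.pi) (by linarith)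
        (by linarith)
      rw [Real.sin_sub_pi, hs] at this
      linarith

end

end ROT

open ROT in
/-- **MODULE ROT.** -/
theorem m_ROT : StROT := by
  intro d ε hd hε
  have hε0 := hε.1
  have hpi := Real.pi_pos
  set q : ℝ := √(5 / 8) with hq
  have hq2 : q ^ 2 = 5 / 8 := Real.sq_sqrt (by norm_num)
  have hq0 : 0 < q := Real.sqrt_pos.2 (by norm_num)
  have hq1 : q < 1 := lt_of_pow_lt_pow_left₀ 2 zero_le_one (by rw [hq2]; norm_num)
  have hqh : 1 / 2 < q := lt_of_pow_lt_pow_left₀ 2 hq0.le (by rw [hq2]; norm_num)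
  have hm1 : ε * q < ε * 1 := mul_lt_mul_of_pos_left hq1 hε0
  have hm2 : ε * (1 / 2) < ε * q := mul_lt_mul_of_pos_left hqh hε0
  have hm3 : 0 < ε * q := mul_pos hε0 hq0
  have hmem : 4 / 5 - ε * q ∈ Ioo (4 / 5 - ε) (4 / 5 - ε / 2) :=
    ⟨by linarith, by linarith⟩
  have hmem' : 4 / 5 - ε * q ∈ Ioo (4 / 5 - ε) (4 / 5 : ℝ) := ⟨hmem.1, by linarith⟩
  have hX : 4 / 3 * (1 - (4 / 5 - (4 / 5 - ε * q)) ^ 2 / ε ^ 2) = 1 / 2 := by
    have h1 : 4 / 5 - (4 / 5 - ε * q) = ε * q := by ring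
    rw [h1, mul_pow, mul_div_cancel_left₀ _ (pow_ne_zero 2 hε0.ne'), hq2]
    norm_num
  have hT : T d ε (4 / 5 - ε * q) = Real.pi * d := by
    unfold T
    rw [hX, step_half]
    ring
  have hsin : Real.sin (Real.pi * d) = 0 := by rcases hd with rfl | rfl <;> simp
  have hcos : Real.cos (Real.pi * d) = -1 := by rcases hd with rfl | rfl <;> simp
  have hdd : d * d = 1 := by rcases hd with rfl | rfl <;> norm_num
  refine ⟨fam d ε hε, 4 / 5 - ε * q, fun p => ?_, fun t p h => Rf_fix hε t h, fun t p => tr_Rf hε t p,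
    fun t p hp => ?_, fun p h => ?_, hmem, ?_, fun a ha hfl => ?_, ?_⟩
  · change Rf d ε (0, p) = p
    rcases lt_or_ge (tr p) (ε ^ 2) with h | h
    · rw [Rf_in hε 0 h]
      have h0 : th d ε 0 p = 0 := by
        unfold th
        ring
      rw [h0]
      exact fo_zero (lt_trans (by norm_num) (rho_of_tr (h.trans (sq_lt hε))))
    · exact Rf_fix hε 0 h
  · change Rf d ε (t, p) = p
    have hr : rho p = 1 / 5 := by
      unfold rho
      rw [hp.2]
      rw [show (1 : ℝ) / 25 = (1 / 5) ^ 2 by norm_num, Real.sqrt_sq (by norm_num)]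
    have h1 : tr p = 0 := by
      rw [tr_def, hr, hp.1]
      norm_num
    rw [Rf_in hε t (by rw [h1]; positivity)]
    unfold fo
    rw [hr, hp.1]
    refine Prod.ext ?_ ?_
    · change 1 / 2 + (Real.cos (th d ε t p) * (1 / 2 - 1 / 2) -
        Real.sin (th d ε t p) * (1 / 5 - 1 / 5)) = p.1
      rw [hp.1]
      ring
    · change pc 1 + ((1 / 5 + (Real.sin (th d ε t p) * (1 / 2 - 1 / 2) +
        Real.cos (th d ε t p) * (1 / 5 - 1 / 5))) / (1 / 5)) • (p.2 - pc 1) = p.2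
      have h2 : (1 / 5 + (Real.sin (th d ε t p) * (1 / 2 - 1 / 2) +
        Real.cos (th d ε t p) * (1 / 5 - 1 / 5))) / (1 / 5) = 1 := by
        rw [sub_self, sub_self, mul_zero, mul_zero, add_zero, add_zero]
        norm_num
      rw [h2, one_smul]
      abel
  · change Rf d ε (1, p) = p
    have h1 : tr p < ε ^ 2 := by
      have h0 : 0 < ε ^ 2 := pow_pos hε0 2
      linarith
    rw [Rf_in hε 1 h1]
    have h2 : tr p / ε ^ 2 < 1 / 4 := by
      rw [div_lt_iff₀ (by positivity)]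
      linarith
    have h3 : th d ε 1 p = 2 * Real.pi * d := by
      unfold th
      rw [step_of_one_le (by linarith)]
      ring
    have h4 : Real.sin (2 * Real.pi * d) = 0 := by rcases hd with rfl | rfl <;> simp
    have h5 : Real.cos (2 * Real.pi * d) = 1 := by rcases hd with rfl | rfl <;> simp
    have h6 : fo (2 * Real.pi * d) p = fo 0 p := by
      unfold fo
      rw [h4, h5, Real.sin_zero, Real.cos_zero]
    rw [h3, h6]
    exact fo_zero (lt_trans (by norm_num) (rho_of_tr (h1.trans (sq_lt hε))))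
  · change Rf d ε (1, ax (4 / 5 - ε * q)) = ax (8 / 5 - (4 / 5 - ε * q))
    rw [Rf_ax hε hmem', hT, hsin, hcos]
    refine Prod.ext ?_ (Prod.ext ?_ rfl)
    · simp [ax]
    · simp only [ax]
      ring
  · change Rf d ε (1, ax a) ∈ flat 1 at hfl
    rw [Rf_ax hε ha] at hfl
    have hv : 0 < 4 / 5 - a := by linarith [ha.2]
    have h1 : Real.sin (T d ε a) = 0 := by
      have := hfl.1
      have h2 : Real.sin (T d ε a) * (4 / 5 - a) = 0 := by
        change 1 / 2 - Real.sin (T d ε a) * (4 / 5 - a) = 1 / 2 at this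
        linarith
      exact (mul_eq_zero.1 h2).resolve_right hv.ne'
    have h2 : Real.cos (T d ε a) ≤ 0 := by
      have h3 := hfl.2
      simp only [rsq, nsq, Complex.zero_re, Complex.zero_im] at h3
      by_contra h4
      rw [not_le] at h4
      have h5 : 0 < Real.cos (T d ε a) * (4 / 5 - a) := mul_pos h4 hv
      generalize Real.cos (T d ε a) * (4 / 5 - a) = w at h3 h5
      have h6 : (4 / 5 - w - 1) ^ 2 + 0 ^ 2 + 0 ^ 2 = 1 / 25 + 2 / 5 * w + w * w := by ring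
      have h7 := mul_pos h5 h5
      linarith
    have h3 : Real.sin (2 * Real.pi * step (4 / 3 * (1 - (4 / 5 - a) ^ 2 / ε ^ 2))) = 0 := by
      unfold T at h1
      rcases hd with rfl | rfl
      · simpa using h1
      · have h4 : 2 * Real.pi * (-1) * step (4 / 3 * (1 - (4 / 5 - a) ^ 2 / ε ^ 2)) =
            -(2 * Real.pi * step (4 / 3 * (1 - (4 / 5 - a) ^ 2 / ε ^ 2))) := by ring
        rw [h4, Real.sin_neg, neg_eq_zero] at h1
        exact h1
    have h4 : Real.cos (2 * Real.pi * step (4 / 3 * (1 - (4 / 5 - a) ^ 2 / ε ^ 2))) ≤ 0 := by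
      unfold T at h2
      rcases hd with rfl | rfl
      · simpa using h2
      · have h4 : 2 * Real.pi * (-1) * step (4 / 3 * (1 - (4 / 5 - a) ^ 2 / ε ^ 2)) =
            -(2 * Real.pi * step (4 / 3 * (1 - (4 / 5 - a) ^ 2 / ε ^ 2))) := by ring
        rw [h4, Real.cos_neg] at h2
        exact h2
    have h5 := step_eq_half (tau_half (step_mem _) h3 h4)
    have h6 : (4 / 5 - a) ^ 2 / ε ^ 2 = 5 / 8 := by linarith
    rw [div_eq_iff (pow_ne_zero 2 hε0.ne')] at h6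
    have h7 : (4 / 5 - a) ^ 2 = (ε * q) ^ 2 := by
      rw [mul_pow, hq2, h6]
      ring
    have h8 := (pow_left_inj₀ hv.le (by positivity) two_ne_zero).1 h7
    linarith
  · have hev : (fun a => ((fam d ε hε).f (1, ax a)).1) =ᶠ[𝓝 (4 / 5 - ε * q)]
        fun a => 1 / 2 - Real.sin (T d ε a) * (4 / 5 - a) := by
      filter_upwards [Ioo_mem_nhds hmem'.1 hmem'.2] with a ha
      change (Rf d ε (1, ax a)).1 = _
      rw [Rf_ax hε ha]
    rw [hev.deriv_eq]
    have e1 : HasDerivAt (fun a : ℝ => 4 / 5 - a) (-1) (4 / 5 - ε * q) := by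
      simpa using (hasDerivAt_id (4 / 5 - ε * q)).const_sub (4 / 5 : ℝ)
    have e2 : HasDerivAt (fun a : ℝ => 4 / 3 * (1 - (4 / 5 - a) ^ 2 / ε ^ 2))
        (8 / 3 * q / ε) (4 / 5 - ε * q) := by
      have h1 := ((((e1.pow 2).div_const (ε ^ 2)).const_sub 1).const_mul (4 / 3 : ℝ))
      refine h1.congr_deriv ?_
      have h2 : 4 / 5 - (4 / 5 - ε * q) = ε * q := by ring
      simp only [h2, Nat.cast_ofNat, Nat.add_one_sub_one, pow_one]
      field_simp
      ring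
    have e3 : HasDerivAt step 2 ((fun a : ℝ => 4 / 3 * (1 - (4 / 5 - a) ^ 2 / ε ^ 2))
        (4 / 5 - ε * q)) := by
      change HasDerivAt step 2 (4 / 3 * (1 - (4 / 5 - (4 / 5 - ε * q)) ^ 2 / ε ^ 2))
      rw [hX]
      exact hasDerivAt_step_half
    have e4 : HasDerivAt (T d ε) (2 * Real.pi * d * (2 * (8 / 3 * q / ε))) (4 / 5 - ε * q) :=
      (e3.comp (4 / 5 - ε * q) e2).const_mul (2 * Real.pi * d)
    have e5 := (e4.sin.mul e1).const_sub (1 / 2 : ℝ)
    rw [hT, hsin, hcos] at e5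
    have e6 : HasDerivAt (fun a => 1 / 2 - Real.sin (T d ε a) * (4 / 5 - a))
        (2 * Real.pi * d * (2 * (8 / 3 * q / ε)) * (ε * q)) (4 / 5 - ε * q) := by
      exact e5.congr_deriv (by ring)
    rw [e6.deriv]
    have e7 : d * (2 * Real.pi * d * (2 * (8 / 3 * q / ε)) * (ε * q)) =
        (d * d) * (Real.pi * (32 / 3) * q ^ 2) := by
      field_simp
      ring
    rw [e7, hdd, hq2]
    positivity

end Pool.Agent.Helper70.BI
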