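import Pool.Agent.Helper70.BI.StU

/-!
# Project BI, part (E): germs close to the identity are realized by isotopies
-/

set_option autoImplicit false

open scoped Manifold ContDiff Topology ComplexConjugate
open Set Filter Pool.Agent.Helper65.Barb Pool.Agent.Helper18.BI

namespace Pool.Agent.Helper70.BI

namespace SM

variable {E : Type} [NormedAddCommGroup E] [NormedSpace ℝ E]

private theorem smooth_aux (b : E → ℝ) (hb : ContDiff ℝ ∞ b) (hb0 : ∀ x, 2 ≤ ‖x‖ → b x = 0)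
    (h : E → E) (y₀ : E) (r : ℝ) (hr : 0 < r)
    (hh : ∀ y, ‖y - y₀‖ < 3 * r → ContDiffAt ℝ ∞ h y) :
    ContDiff ℝ ∞ (fun y => b (r⁻¹ • (y - y₀)) • h y) := by
  rw [contDiff_iff_contDiffAt]
  intro y
  by_cases hy : ‖y - y₀‖ < 3 * r
  · refine ContDiffAt.smul ?_ (hh y hy)
    exact (hb.comp (contDiff_const.smul (contDiff_id.sub contDiff_const))).contDiffAt
  · have h1 : ∀ᶠ z in 𝓝 y, 2 * r < ‖z - y₀‖ := by
      have hc : Continuous fun z : E => ‖z - y₀‖ := by fun_prop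
      exact hc.continuousAt.eventually (lt_mem_nhds (by linarith [not_lt.1 hy]))
    have h2 : (fun y => b (r⁻¹ • (y - y₀)) • h y) =ᶠ[𝓝 y] fun _ => (0 : E) := by
      filter_upwards [h1] with z hz
      rw [hb0, zero_smul]
      rw [norm_smul, norm_inv, Real.norm_of_nonneg hr.le, ← div_eq_inv_mul, le_div_iff₀ hr]
      exact hz.le
    exact contDiffAt_const.congr_of_eventuallyEq h2

private theorem lip_aux (b : E → ℝ) (K c : ℝ) (hK : 0 ≤ K) (hc : 0 ≤ c)
    (hb : ∀ x y, ‖b x - b y‖ ≤ K * ‖x - y‖) (hb1 : ∀ x, ‖b x‖ ≤ 1)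
    (hb0 : ∀ x, 2 ≤ ‖x‖ → b x = 0)
    (h : E → E) (y₀ : E) (r : ℝ) (hr : 0 < r) (h0 : h y₀ = 0)
    (hh : ∀ x y, ‖x - y₀‖ ≤ 2 * r → ‖y - y₀‖ ≤ 2 * r → ‖h x - h y‖ ≤ c * ‖x - y‖) (x y : E) :
    ‖b (r⁻¹ • (x - y₀)) • h x - b (r⁻¹ • (y - y₀)) • h y‖ ≤ c * (1 + 2 * K) * ‖x - y‖ := by
  have hout : ∀ z : E, 2 * r < ‖z - y₀‖ → b (r⁻¹ • (z - y₀)) = 0 := by
    intro z hz
    apply hb0
    rw [norm_smul, norm_inv, Real.norm_of_nonneg hr.le, ← div_eq_inv_mul, le_div_iff₀ hr]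
    exact hz.le
  have hbd : ∀ z : E, ‖z - y₀‖ ≤ 2 * r → ‖h z‖ ≤ c * (2 * r) := by
    intro z hz
    have := hh z y₀ hz (by rw [sub_self, norm_zero]; positivity)
    rw [h0, sub_zero] at this
    exact this.trans (by gcongr)
  have hbl : ∀ z w : E, ‖b (r⁻¹ • (z - y₀)) - b (r⁻¹ • (w - y₀))‖ ≤ K * (r⁻¹ * ‖z - w‖) := by
    intro z w
    refine (hb _ _).trans (le_of_eq ?_)
    rw [← smul_sub, norm_smul, norm_inv, Real.norm_of_nonneg hr.le]
    congr 3
    abel
  have hone : ∀ z w : E, ‖z - y₀‖ ≤ 2 * r →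
      ‖(b (r⁻¹ • (z - y₀)) - b (r⁻¹ • (w - y₀))) • h z‖ ≤ c * (2 * K) * ‖z - w‖ := by
    intro z w hz
    rw [norm_smul]
    calc _ ≤ (K * (r⁻¹ * ‖z - w‖)) * (c * (2 * r)) := by
          gcongr
          · exact hbl z w
          · exact hbd z hz
      _ = c * (2 * K) * ‖z - w‖ := by field_simp
  have key : ∀ x y : E, ‖x - y₀‖ ≤ 2 * r →
      ‖b (r⁻¹ • (x - y₀)) • h x - b (r⁻¹ • (y - y₀)) • h y‖ ≤ c * (1 + 2 * K) * ‖x - y‖ := by
    intro x y hx
    by_cases hy : ‖y - y₀‖ ≤ 2 * r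
    · have e : b (r⁻¹ • (x - y₀)) • h x - b (r⁻¹ • (y - y₀)) • h y =
          (b (r⁻¹ • (x - y₀)) - b (r⁻¹ • (y - y₀))) • h x +
            b (r⁻¹ • (y - y₀)) • (h x - h y) := by
        have e' : ∀ (s t : ℝ) (u v : E), s • u - t • v = (s - t) • u + t • (u - v) := by
          intro s t u v
          rw [sub_smul, smul_sub]; abel
        exact e' _ _ _ _
      rw [e]
      refine (norm_add_le _ _).trans ?_
      have h1 := hone x y hx
      have h2 : ‖b (r⁻¹ • (y - y₀)) • (h x - h y)‖ ≤ 1 * (c * ‖x - y‖) := by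
        rw [norm_smul]
        gcongr
        · exact hb1 _
        · exact hh x y hx hy
      calc _ ≤ c * (2 * K) * ‖x - y‖ + 1 * (c * ‖x - y‖) := add_le_add h1 h2
        _ = c * (1 + 2 * K) * ‖x - y‖ := by ring
    · have e : b (r⁻¹ • (x - y₀)) • h x - b (r⁻¹ • (y - y₀)) • h y =
          (b (r⁻¹ • (x - y₀)) - b (r⁻¹ • (y - y₀))) • h x := by
        rw [hout y (not_le.1 hy), zero_smul, sub_zero, sub_zero]
      rw [e]
      refine (hone x y hx).trans ?_
      have : 0 ≤ c * ‖x - y‖ := by positivity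
      nlinarith
  by_cases hx : ‖x - y₀‖ ≤ 2 * r
  · exact key x y hx
  by_cases hy : ‖y - y₀‖ ≤ 2 * r
  · rw [norm_sub_rev, norm_sub_rev x y]
    exact key y x hy
  · rw [hout x (not_le.1 hx), hout y (not_le.1 hy), zero_smul, zero_smul, sub_zero, norm_zero]
    positivity

end SM

open SM in
theorem m_SM (hPT : StPT) : StSM := by
  intro E _ _ _
  have : ProperSpace E := FiniteDimensional.proper_real E
  let B : ContDiffBump (0 : E) := ⟨1, 2, one_pos, one_lt_two⟩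
  have hBs : ContDiff ℝ ∞ (B : E → ℝ) := B.contDiff
  obtain ⟨K₀, hK₀⟩ := (B.hasCompactSupport.fderiv ℝ).exists_bound_of_continuous
    (hBs.continuous_fderiv (by simp))
  set K : ℝ := max K₀ 0 with hKdef
  have hK : 0 ≤ K := le_max_right _ _
  have hBl : ∀ x y, ‖B x - B y‖ ≤ K * ‖x - y‖ := by
    intro x y
    exact Convex.norm_image_sub_le_of_norm_fderiv_le (s := univ)
      (fun z _ => hBs.differentiable (by simp) z)
      (fun z _ => (hK₀ z).trans (le_max_left _ _)) convex_univ (mem_univ _) (mem_univ _)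
  have hB1 : ∀ x, ‖B x‖ ≤ 1 := fun x => by
    rw [Real.norm_of_nonneg B.nonneg]; exact B.le_one
  have hB0 : ∀ x, 2 ≤ ‖x‖ → B x = 0 := fun x hx =>
    B.zero_of_le_dist (by rw [dist_zero_right]; exact hx)
  refine ⟨1 / (2 * (1 + 2 * K)), by positivity, ?_⟩
  set c : ℝ := 1 / (2 * (1 + 2 * K)) with hc
  have hc0 : 0 < c := by positivity
  have hcK : c * (1 + 2 * K) = 1 / 2 := by rw [hc]; field_simp
  intro U y₀ f hU hy₀ hf hfix hd
  have hf0 : ContDiffAt ℝ ∞ f y₀ := hf.self_of_nhds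
  have hcont : ContinuousAt (fun y => ‖fderiv ℝ f y - ContinuousLinearMap.id ℝ E‖) y₀ := by
    have h1 : ContDiffAt ℝ ∞ (fderiv ℝ f) y₀ := hf0.fderiv_right (by simp)
    exact (h1.continuousAt.sub continuousAt_const).norm
  have hev : ∀ᶠ y in 𝓝 y₀, ContDiffAt ℝ ∞ f y ∧
      ‖fderiv ℝ f y - ContinuousLinearMap.id ℝ E‖ < c ∧ y ∈ U :=
    hf.and ((hcont.eventually (gt_mem_nhds hd)).and (hU.mem_nhds hy₀))
  obtain ⟨ε, hε, hball⟩ := Metric.eventually_nhds_iff.1 hev
  set r : ℝ := ε / 4 with hr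
  have hr0 : 0 < r := by positivity
  have hb3 : ∀ y, ‖y - y₀‖ < 3 * r → ContDiffAt ℝ ∞ f y ∧
      ‖fderiv ℝ f y - ContinuousLinearMap.id ℝ E‖ < c ∧ y ∈ U := by
    intro y hy
    apply hball
    rw [dist_eq_norm]
    linarith
  set h : E → E := fun y => f y - y with hh
  have hhs : ∀ y, ‖y - y₀‖ < 3 * r → ContDiffAt ℝ ∞ h y := fun y hy =>
    (hb3 y hy).1.sub contDiffAt_id
  have hhl : ∀ x y, ‖x - y₀‖ ≤ 2 * r → ‖y - y₀‖ ≤ 2 * r → ‖h x - h y‖ ≤ c * ‖x - y‖ := by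
    intro x y hx hy
    have hfd : ∀ z ∈ Metric.ball y₀ (3 * r), HasFDerivWithinAt h
        (fderiv ℝ f z - ContinuousLinearMap.id ℝ E) (Metric.ball y₀ (3 * r)) z := by
      intro z hz
      rw [Metric.mem_ball, dist_eq_norm] at hz
      exact (((hb3 z hz).1.differentiableAt (by simp)).hasFDerivAt.sub
        (hasFDerivAt_id z)).hasFDerivWithinAt
    refine Convex.norm_image_sub_le_of_norm_hasFDerivWithin_le hfd ?_ (convex_ball _ _) ?_ ?_
    · intro z hz
      rw [Metric.mem_ball, dist_eq_norm] at hz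
      exact (hb3 z hz).2.1.le
    · rw [Metric.mem_ball, dist_eq_norm]; linarith
    · rw [Metric.mem_ball, dist_eq_norm]; linarith
  have hsm := smooth_aux (fun x => B x) hBs hB0 h y₀ r hr0 hhs
  obtain ⟨F, hF⟩ := hPT E (fun q : ℝ × E => step q.1 • (B (r⁻¹ • (q.2 - y₀)) • h q.2))
    ((Real.smoothTransition.contDiff.comp contDiff_fst).smul (hsm.comp contDiff_snd)) (by
      intro t x y
      have h1 := lip_aux (fun x => B x) K c hK hc0.le hBl hB1 hB0 h y₀ r hr0
        (by simp [hh, hfix]) hhl x y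
      rw [hcK] at h1
      have h2 : ‖step t‖ ≤ 1 := by
        rw [step, Real.norm_of_nonneg (Real.smoothTransition.nonneg t)]
        exact Real.smoothTransition.le_one t
      simp only
      rw [← smul_sub, norm_smul]
      calc _ ≤ 1 * (1 / 2 * ‖x - y‖) := by gcongr
        _ = _ := one_mul _)
  refine ⟨F, fun y => ?_, ⟨Metric.closedBall y₀ (2 * r), isCompact_closedBall _ _, ?_, ?_⟩, ?_⟩
  · rw [hF]
    simp [step, Real.smoothTransition.zero]
  · intro y hy
    rw [Metric.mem_closedBall, dist_eq_norm] at hy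
    exact (hb3 y (by linarith)).2.2
  · intro t y hy
    rw [Metric.mem_closedBall, dist_eq_norm, not_le] at hy
    have h0 : B (r⁻¹ • (y - y₀)) = 0 := by
      apply hB0
      rw [norm_smul, norm_inv, Real.norm_of_nonneg hr0.le, ← div_eq_inv_mul, le_div_iff₀ hr0]
      exact hy.le
    rw [hF]
    simp only
    rw [h0, zero_smul, smul_zero, add_zero]
  · filter_upwards [Metric.ball_mem_nhds y₀ hr0] with y hy
    rw [Metric.mem_ball, dist_eq_norm] at hy
    have h1 : B (r⁻¹ • (y - y₀)) = 1 := by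
      apply B.one_of_mem_closedBall
      rw [Metric.mem_closedBall, dist_zero_right, norm_smul, norm_inv,
        Real.norm_of_nonneg hr0.le, ← div_eq_inv_mul, div_le_iff₀ hr0]
      change ‖y - y₀‖ ≤ 1 * r
      linarith
    rw [hF]
    simp only
    rw [h1, step, Real.smoothTransition.one, one_smul, one_smul]
    simp [hh]

end Pool.Agent.Helper70.BI
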