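import Pool.Agent.Helper70.BI.StL
import Pool.Agent.Helper18.BI.M_X2

/-!
# Project BI, part (E), module SPI: spinning the end of the bar once around the cuff
-/

set_option autoImplicit false

open scoped Manifold ContDiff Topology ComplexConjugate
open Set Filter Pool.Agent.Helper65.Barb Pool.Agent.Helper18.BI

namespace Pool.Agent.Helper70.BI

namespace SPI

private theorem rsq_ax (c a : ℝ) : rsq c (ax a) = (a - c) ^ 2 := by
  simp [rsq, nsq, ax]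

private theorem sqrt_ax {a : ℝ} (ha : a ≤ 1) : √(rsq 1 (ax a)) = 1 - a := by
  rw [rsq_ax, show (a - 1) ^ 2 = (1 - a) ^ 2 by ring]
  exact Real.sqrt_sq (by linarith)

private theorem tr_ax {a : ℝ} (ha : a ≤ 1) : tr (ax a) = (4 / 5 - a) ^ 2 := by
  unfold tr
  rw [sqrt_ax ha]
  have : (ax a).1 = 1 / 2 := rfl
  rw [this]
  ring

private theorem continuous_tr : Continuous tr := by
  unfold tr
  have h := (continuous_rsq 1).sqrt
  have h1 : Continuous (fun p : R4 => p.1) := continuous_fst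
  exact ((h1.sub continuous_const).pow 2).add ((h.sub continuous_const).pow 2)

private theorem tr_nonneg (p : R4) : 0 ≤ tr p := by
  unfold tr; positivity

private theorem tr_fst {e : ℝ} (he : 0 < e) {p : R4} (h : tr p < e ^ 2) : |p.1 - 1 / 2| < e :=
  abs_lt_of_sq_lt_sq (lt_of_le_of_lt (le_add_of_nonneg_right (sq_nonneg _)) h) he.le

private theorem tr_snd {e : ℝ} (he : 0 < e) {p : R4} (h : tr p < e ^ 2) :
    |√(rsq 1 p) - 1 / 5| < e := by
  exact abs_lt_of_sq_lt_sq (lt_of_le_of_lt (le_add_of_nonneg_left (sq_nonneg _)) h) he.le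

private theorem tr_zero {p : R4} (h : tr p ≤ 0) : p ∈ sph 1 := by
  have h1 : (p.1 - 1 / 2) ^ 2 = 0 :=
    le_antisymm (le_trans (le_add_of_nonneg_right (sq_nonneg _)) h) (sq_nonneg _)
  have h2 : (√(rsq 1 p) - 1 / 5) ^ 2 = 0 :=
    le_antisymm (le_trans (le_add_of_nonneg_left (sq_nonneg _)) h) (sq_nonneg _)
  have h3 : √(rsq 1 p) = 1 / 5 := sub_eq_zero.1 ((pow_eq_zero_iff two_ne_zero).1 h2)
  refine ⟨sub_eq_zero.1 ((pow_eq_zero_iff two_ne_zero).1 h1), ?_⟩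
  rw [← Real.sq_sqrt (rsq_nonneg 1 p), h3]
  norm_num

private theorem abs_a_le (p : R4) : |p.2.1 - 1| ≤ √(rsq 1 p) := by
  apply Real.le_sqrt_of_sq_le
  rw [sq_abs]
  exact sq_le_rsq_one p

private theorem norm_w_le (p : R4) : ‖p.2.2‖ ≤ √(rsq 1 p) := by
  apply Real.le_sqrt_of_sq_le
  have h : ‖p.2.2‖ ^ 2 = p.2.2.re ^ 2 + p.2.2.im ^ 2 := by
    rw [← Complex.normSq_eq_norm_sq, Complex.normSq_apply, pow_two, pow_two]
  have h2 : rsq 1 p = (p.2.1 - 1) ^ 2 + (p.2.2.re ^ 2 + p.2.2.im ^ 2) := add_assoc _ _ _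
  rw [h, h2]
  exact le_add_of_nonneg_left (sq_nonneg _)

private theorem norm_x_le (p : R4) : ‖p.2 - pc 1‖ ≤ √(rsq 1 p) := by
  rw [Prod.norm_def]
  refine max_le ?_ ?_
  · exact abs_a_le p
  · have : (p.2 - pc 1).2 = p.2.2 := by simp [pc]
    rw [this]
    exact norm_w_le p

private theorem sq_bd {x b c : ℝ} (h0 : 0 ≤ x) (h1 : x ≤ b) (h2 : b * b ≤ c) : x ^ 2 ≤ c := by
  rw [pow_two]
  exact (mul_le_mul h1 h1 h0 (h0.trans h1)).trans h2

private theorem tube_bd {p : R4} (hp : tr p ≤ 1) : -1 ≤ p.1 ∧ p.1 ≤ 2 ∧ rsq 1 p ≤ 4 := by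
  have h1 : |p.1 - 1 / 2| ≤ 1 :=
    (sq_le_one_iff_abs_le_one _).1 (le_trans (le_add_of_nonneg_right (sq_nonneg _)) hp)
  have h2 : |√(rsq 1 p) - 1 / 5| ≤ 1 :=
    (sq_le_one_iff_abs_le_one _).1 (le_trans (le_add_of_nonneg_left (sq_nonneg _)) hp)
  have h3 := abs_le.1 h1
  have h4 := (abs_le.1 h2).2
  clear hp h1 h2
  refine ⟨by linarith [h3.1], by linarith [h3.2], ?_⟩
  rw [← Real.sq_sqrt (rsq_nonneg 1 p)]
  exact sq_bd (b := 2) (Real.sqrt_nonneg _) (by linarith) (by norm_num)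

/-- a tube around the second cuff inside an open set -/
private theorem exists_tube {V : Set R4} (hV : IsOpen V) (hs : sph 1 ⊆ V) :
    ∃ m : ℝ, 0 < m ∧ ∀ p, tr p < m → p ∈ V := by
  have hK : IsCompact ({p : R4 | tr p ≤ 1} \ V) := by
    apply Metric.isCompact_of_isClosed_isBounded
    · exact (isClosed_le continuous_tr continuous_const).sdiff hV
    · refine (isBounded_of_rsq 1 4 (-1) 2).subset ?_
      rintro p ⟨hp, -⟩
      exact tube_bd hp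
  rcases ({p : R4 | tr p ≤ 1} \ V).eq_empty_or_nonempty with h0 | h0
  · refine ⟨1, one_pos, fun p hp => ?_⟩
    by_contra hn
    have : p ∈ ({p : R4 | tr p ≤ 1} \ V) := ⟨hp.le, hn⟩
    rw [h0] at this
    exact this
  · obtain ⟨q, hq, hmin⟩ := hK.exists_isMinOn h0 continuous_tr.continuousOn
    have hq0 : 0 < tr q := by
      by_contra hn
      exact hq.2 (hs (tr_zero (not_lt.1 hn)))
    refine ⟨min 1 (tr q), lt_min one_pos hq0, fun p hp => ?_⟩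
    by_contra hn
    have h1 : p ∈ ({p : R4 | tr p ≤ 1} \ V) := ⟨(hp.trans_le (min_le_left _ _)).le, hn⟩
    have h2 : tr q ≤ tr p := hmin h1
    exact absurd (hp.trans_le (min_le_right _ _)) (not_lt.2 h2)

private theorem hasDerivAt_ax (a : ℝ) : HasDerivAt ax ((0 : ℝ), ((1 : ℝ), (0 : ℂ))) a :=
  (hasDerivAt_const a (1 / 2 : ℝ)).prodMk ((hasDerivAt_id a).prodMk (hasDerivAt_const a (0 : ℂ)))

private noncomputable def LM (lam : ℝ) : R4 →L[ℝ] R4 :=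
  (ContinuousLinearMap.id ℝ ℝ).prodMap (lam • ContinuousLinearMap.id ℝ R3)

private theorem det_LM (lam : ℝ) : (LM lam).det = lam ^ 3 := by
  have h : (LM lam : R4 →ₗ[ℝ] R4) = (LinearMap.id : ℝ →ₗ[ℝ] ℝ).prodMap
      (lam • (LinearMap.id : R3 →ₗ[ℝ] R3)) := rfl
  rw [ContinuousLinearMap.det, h, LinearMap.det_prodMap, LinearMap.det_id, LinearMap.det_smul,
    LinearMap.det_id]
  have : Module.finrank ℝ R3 = 3 := by
    rw [Module.finrank_prod, Complex.finrank_real_complex, Module.finrank_self]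
  rw [this]
  ring

private theorem hasFDerivAt_form (lam : ℝ) (p : R4) :
    HasFDerivAt (fun q : R4 => ((q.1, pc 1 + lam • (q.2 - pc 1)) : R4)) (LM lam) p := by
  have h1 : HasFDerivAt (fun q : R4 => LM lam q + ((0 : ℝ), pc 1 - lam • pc 1)) (LM lam) p :=
    (LM lam).hasFDerivAt.add_const _
  refine h1.congr_of_eventuallyEq (Eventually.of_forall fun q => ?_)
  refine Prod.ext ?_ ?_
  · change q.1 = q.1 + 0
    rw [add_zero]
  · change pc 1 + lam • (q.2 - pc 1) = lam • q.2 + (pc 1 - lam • pc 1)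
    rw [smul_sub]
    abel

private theorem ax_mem_neck {a : ℝ} (ha : a ∈ Icc (1 / 5 : ℝ) (4 / 5)) : ax a ∈ SP :=
  Or.inr ⟨rfl, ha.1, ha.2, rfl⟩

private theorem exists_eps {r m : ℝ} (hr : 0 < r) (hm : 0 < m) :
    ∃ ε : ℝ, 0 < ε ∧ ε < 1 / 400 ∧ ε < r ∧ ε ^ 2 < m := by
  obtain ⟨e, he0, he⟩ : ∃ e : ℝ, 0 < e ∧ e ≤ 1 / 500 ∧ e ≤ r / 2 ∧ e ≤ 1 ∧ e ≤ m / 2 :=
    ⟨min (1 / 500) (min (r / 2) (min 1 (m / 2))),
      lt_min (by norm_num) (lt_min (half_pos hr) (lt_min one_pos (half_pos hm))),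
      min_le_left _ _, (min_le_right _ _).trans (min_le_left _ _),
      (min_le_right _ _).trans ((min_le_right _ _).trans (min_le_left _ _)),
      (min_le_right _ _).trans ((min_le_right _ _).trans (min_le_right _ _))⟩
  obtain ⟨h1, h2, h3, h4⟩ := he
  refine ⟨e, he0, lt_of_le_of_lt h1 (by norm_num), lt_of_le_of_lt h2 (half_lt_self hr), ?_⟩
  have h5 : e ^ 2 ≤ e := pow_le_of_le_one he0.le h3 two_ne_zero
  exact lt_of_le_of_lt (h5.trans h4) (half_lt_self hm)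

private theorem near_aux {ε r : ℝ} (hε0 : 0 < ε) (hε1 : ε < 1 / 400) (hεr : ε < r) (q : R4)
    (hq : tr q < ε ^ 2) : 4 / 5 - 1 / 200 ≤ q.2.1 ∧ rsq 1 q ≤ 1 / 20 ∧
      |q.1 - 1 / 2| < r ∧ ‖q.2 - pc 1‖ < 1 := by
  have h1 := tr_fst hε0 hq
  have h2 := (abs_lt.1 (tr_snd hε0 hq)).2
  have h3 := (abs_le.1 (abs_a_le q)).1
  have h4 := norm_x_le q
  have h5 := Real.sqrt_nonneg (rsq 1 q)
  have h6 := Real.sq_sqrt (rsq_nonneg 1 q)
  clear hq
  generalize √(rsq 1 q) = u at h2 h3 h4 h5 h6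
  refine ⟨by linarith, ?_, h1.trans hεr, by linarith⟩
  rw [← h6]
  exact sq_bd (b := 1 / 5 + 1 / 400) h5 (by linarith) (by norm_num)

private theorem le_fifth {x : ℝ} (h : x ^ 2 ≤ 1 / 25) : x ≤ 1 / 5 := by
  refine le_of_not_gt fun h4 => ?_
  have h5 : (1 / 5 : ℝ) * (1 / 5) < x * x := mul_lt_mul'' h4 h4 (by norm_num) (by norm_num)
  rw [pow_two] at h
  exact absurd (lt_of_lt_of_le h5 h) (by norm_num)

private theorem sq_ge {x : ℝ} (h : x ≤ 4 / 5) : (1 : ℝ) / 25 ≤ (x - 1) ^ 2 := by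
  have h3 : (1 / 5 : ℝ) ≤ 1 - x := by linarith
  have h4 := mul_le_mul h3 h3 (by norm_num) (le_trans (by norm_num) h3)
  calc (1 / 25 : ℝ) = 1 / 5 * (1 / 5) := by norm_num
    _ ≤ (1 - x) * (1 - x) := h4
    _ = (x - 1) ^ 2 := by ring

private theorem quarter {ε : ℝ} (h : 0 < ε) : ε / 4 * (ε / 4) < ε ^ 2 / 4 := by
  have h4 : 0 < ε * ε := mul_pos h h
  rw [pow_two]
  linarith

private theorem spine_aux {ε : ℝ} (hε0 : 0 < ε) {p : R4} (hp : p ∈ SP)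
    (h : rsq 1 p ≤ (1 / 5 + ε / 4) ^ 2) : tr p < ε ^ 2 / 4 := by
  have hs : p.1 = 1 / 2 ∧ 1 / 25 ≤ rsq 1 p := by
    rcases hp with (hp | hp) | hp
    · refine ⟨hp.1, ?_⟩
      have h1 := sq_le_rsq p
      rw [hp.2] at h1
      have h3 : p.2.1 ≤ 1 / 5 := le_fifth h1
      rw [rsq_one_eq, hp.2]
      clear h1 hp h
      linarith
    · exact ⟨hp.1, hp.2.ge⟩
    · refine ⟨hp.1, le_trans ?_ (sq_le_rsq_one p)⟩
      exact sq_ge hp.2.2.1
  have h1 : √(rsq 1 p) ≤ 1 / 5 + ε / 4 := Real.sqrt_le_iff.2 ⟨by linarith, h⟩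
  have h2 : 1 / 5 ≤ √(rsq 1 p) := Real.le_sqrt_of_sq_le (le_trans (by norm_num) hs.2)
  have h3 : (√(rsq 1 p) - 1 / 5) ^ 2 ≤ ε / 4 * (ε / 4) :=
    sq_bd (b := ε / 4) (sub_nonneg.2 h2) (sub_le_iff_le_add'.2 h1) le_rfl
  have h5 : tr p = (√(rsq 1 p) - 1 / 5) ^ 2 := by
    unfold tr
    rw [hs.1, sub_self, zero_pow two_ne_zero, zero_add]
  rw [h5]
  exact lt_of_le_of_lt h3 (quarter hε0)

private theorem ball_aux {ε : ℝ} (hε0 : 0 < ε) {x : ℝ} (hp : x ≤ 1 / 25) :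
    x < (1 / 5 + ε / 4) ^ 2 := by
  have h4 : 0 < ε * ε := mul_pos hε0 hε0
  have : (1 / 5 + ε / 4) ^ 2 = 1 / 25 + ε / 10 + ε * ε / 16 := by ring
  rw [this]
  linarith

private theorem low_aux {ε : ℝ} (hε0 : 0 < ε) (hε1 : ε < 1 / 400) {p : R4}
    (hp : p.2.1 ≤ 3 / 4) : ε ^ 2 ≤ tr p := by
  have h2 : 1 / 4 ≤ √(rsq 1 p) := by
    have := (abs_le.1 (abs_a_le p)).1
    linarith
  have h3 : ε ^ 2 ≤ (√(rsq 1 p) - 1 / 5) ^ 2 := by
    apply pow_le_pow_left₀ hε0.le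
    linarith
  exact h3.trans (le_add_of_nonneg_left (sq_nonneg _))

private theorem sph_low {p : R4} (hp : p ∈ sph 0) : p.2.1 ≤ 3 / 4 := by
  have h1 := sq_le_rsq p
  rw [hp.2] at h1
  refine le_of_not_gt fun h4 => ?_
  have h5 : (3 / 4 : ℝ) * (3 / 4) < p.2.1 * p.2.1 :=
    mul_lt_mul'' h4 h4 (by norm_num) (by norm_num)
  rw [pow_two] at h1
  linarith

private theorem sq_a_eq (a₁ : ℝ) :
    (3 / 5 - a₁) ^ 2 = 1 / 25 - (a₁ - 2 / 5) * (4 / 5 - a₁) := by ring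

private theorem sq_a {a₁ : ℝ} (h1 : 2 / 5 ≤ a₁) (h2 : a₁ ≤ 4 / 5) : (3 / 5 - a₁) ^ 2 ≤ 1 / 25 := by
  rw [sq_a_eq]
  exact sub_le_self _ (mul_nonneg (sub_nonneg.2 h1) (sub_nonneg.2 h2))

private theorem sq_a_lt {a₁ : ℝ} (h1 : 2 / 5 < a₁) (h2 : a₁ < 4 / 5) :
    (3 / 5 - a₁) ^ 2 < 1 / 25 := by
  rw [sq_a_eq]
  exact sub_lt_self _ (mul_pos (sub_pos.2 h1) (sub_pos.2 h2))

private theorem tube_ax {ε a : ℝ} (hε0 : 0 < ε) (h : a ≤ 4 / 5 - ε) : ε ^ 2 ≤ tr (ax a) := by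
  rw [tr_ax (by linarith)]
  apply pow_le_pow_left₀ hε0.le
  linarith

private theorem not_flat_ax {a : ℝ} (h : a < 4 / 5) (h7 : rsq 1 (ax a) ≤ 1 / 25) : False := by
  rw [rsq_ax] at h7
  have h3 : (1 / 5 : ℝ) < 1 - a := by linarith
  have h4 : (1 / 5 : ℝ) * (1 / 5) < (1 - a) * (1 - a) := mul_lt_mul'' h3 h3 (by norm_num) (by norm_num)
  have h5 : (a - 1) ^ 2 = (1 - a) * (1 - a) := by ring
  rw [h5] at h7
  linarith

private theorem fifth_aux {a : ℝ} (h : a < 4 / 5) : 4 / 5 - 1 / 200 ≤ 8 / 5 - a := by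
  linarith

private theorem a_bds {ε a₁ : ℝ} (hε1 : ε < 1 / 400) (h1 : 4 / 5 - ε < a₁) : 3 / 4 < a₁ := by
  linarith

private theorem smul_lt {lam r x : ℝ} (hlam : 0 < lam) (hlr : lam < r) (hx : x < 1) :
    lam * x < r := (mul_lt_of_lt_one_right hlam hx).trans hlr

private theorem nsq_pc (a : ℝ) : nsq (pc (8 / 5 - a) - pc 1) = (3 / 5 - a) ^ 2 := by
  simp only [nsq, pc, Prod.mk_sub_mk, sub_zero, Complex.zero_re, Complex.zero_im]
  ring

private theorem norm_pc {a : ℝ} (h1 : 2 / 5 ≤ a) (h2 : a ≤ 4 / 5) :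
    ‖pc (8 / 5 - a) - pc 1‖ < 1 := by
  have h8 : pc (8 / 5 - a) - pc 1 = ((3 / 5 - a : ℝ), (0 : ℂ)) := by
    simp only [pc, Prod.mk_sub_mk, sub_zero]
    refine Prod.ext ?_ rfl
    change 8 / 5 - a - 1 = 3 / 5 - a
    ring
  rw [h8, Prod.norm_def]
  refine max_lt ?_ ?_
  · change |3 / 5 - a| < 1
    rw [abs_lt]
    constructor <;> linarith
  · change ‖(0 : ℂ)‖ < 1
    rw [norm_zero]
    exact one_pos

private theorem sub_ax (q : R4) (lam : ℝ) : ((q.1, pc 1 + lam • (q.2 - pc 1)) : R4) - ax 1 =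
    (q.1 - 1 / 2, lam • (q.2 - pc 1)) := by
  refine Prod.ext rfl ?_
  change pc 1 + lam • (q.2 - pc 1) - pc 1 = lam • (q.2 - pc 1)
  exact add_sub_cancel_left _ _

private theorem near_ax {r : ℝ} (hr : 0 < r) : ∀ᶠ q : R4 in 𝓝 (ax (4 / 5)),
    4 / 5 - 1 / 200 ≤ q.2.1 ∧ rsq 1 q ≤ 1 / 20 ∧ |q.1 - 1 / 2| < r := by
  have c1 : ContinuousAt (fun q : R4 => q.2.1) (ax (4 / 5)) :=
    (continuous_fst.comp continuous_snd).continuousAt
  have c2 : ContinuousAt (fun q : R4 => |q.1 - 1 / 2|) (ax (4 / 5)) :=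
    (continuous_fst.sub continuous_const).abs.continuousAt
  have h0 : rsq 1 (ax (4 / 5)) < 1 / 20 := by rw [rsq_ax]; norm_num
  have h1 : (4 / 5 - 1 / 200 : ℝ) < (ax (4 / 5)).2.1 := by
    change (4 / 5 - 1 / 200 : ℝ) < 4 / 5
    norm_num
  have h2 : |(ax (4 / 5)).1 - 1 / 2| < r := by
    change |(1 / 2 : ℝ) - 1 / 2| < r
    rw [sub_self, abs_zero]
    exact hr
  have e1 := c1.eventually (lt_mem_nhds h1)
  have e2 := (continuous_rsq 1).continuousAt.eventually (gt_mem_nhds h0)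
  have e3 := c2.eventually (gt_mem_nhds h2)
  exact (e1.and (e2.and e3)).mono fun q hq => ⟨hq.1.le, hq.2.1.le, hq.2.2⟩

private theorem det_near {G : R4 → R4} {lam r : ℝ} (hr : 0 < r) (hlam : 0 < lam)
    (hform : ∀ p : R4, 4 / 5 - 1 / 200 ≤ p.2.1 → rsq 1 p ≤ 1 / 20 → |p.1 - 1 / 2| < r →
      G p = (p.1, pc 1 + lam • (p.2 - pc 1))) {F : R4 → R4} (hF : F =ᶠ[𝓝 (ax (4 / 5))] G) :
    0 < (fderiv ℝ F (ax (4 / 5))).det := by
  have h2 : F =ᶠ[𝓝 (ax (4 / 5))] (fun q : R4 => ((q.1, pc 1 + lam • (q.2 - pc 1)) : R4)) :=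
    hF.trans ((near_ax hr).mono fun q hq => hform q hq.1 hq.2.1 hq.2.2)
  have h3 := (hasFDerivAt_form lam (ax (4 / 5))).congr_of_eventuallyEq h2
  have h4 : fderiv ℝ F (ax (4 / 5)) = LM lam := h3.fderiv
  rw [h4, det_LM]
  exact pow_pos hlam 3

end SPI

open SPI in
theorem m_SPI (hROT : StROT) (hA1 : StA1) (hF : StFam) : StSPI := by
  classical
  intro G d r lam hd hr hlam hlr hG hform
  -- the open set `V`
  have hcomp : IsCompact (SP ∪ flat 1) := by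
    refine X2.isCompact_SP.union ?_
    apply Metric.isCompact_of_isClosed_isBounded
    · apply IsClosed.inter (isClosed_eq continuous_fst continuous_const)
      exact isClosed_le (continuous_rsq 1) continuous_const
    · exact (isBounded_of_rsq 1 (1 / 25) (1 / 2) (1 / 2)).subset
        (fun p hp => ⟨hp.1.ge, hp.1.le, hp.2⟩)
  obtain ⟨Φ, hΦ, hΦG⟩ := hA1 R4 _ _ 𝓘(ℝ, R4) R4 G (SP ∪ flat 1) hcomp hG.1 hG.2
  have hVo : IsOpen Φ.source := Φ.open_source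
  have hGV : EmbOn I4 G Φ.source := by
    refine ⟨fun p hp => ⟨Φ, hp, fun q hq => (hΦG q hq).symm⟩, fun p hp q hq he => ?_⟩
    refine Φ.toPartialEquiv.injOn hp hq ?_
    have h1 : Φ p = Φ q := by rw [hΦG p hp, hΦG q hq, he]
    exact h1
  have hsub1 : sph 1 ⊆ Φ.source := fun p hp => hΦ (Or.inl (Or.inl (Or.inr hp)))
  obtain ⟨m, hm, hmV⟩ := exists_tube hVo hsub1
  -- the radius
  obtain ⟨ε, hε0, hε1, hεr, hεm⟩ := exists_eps hr hm
  have htube : ∀ p, tr p < ε ^ 2 → p ∈ Φ.source := fun p hp => hmV p (hp.trans hεm)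
  obtain ⟨R, a₁, hR0, hR1, hR2, hR3, hR4, ha₁, hRa, hR5, hR6⟩ :=
    hROT d ε hd ⟨hε0, hε1.trans (by norm_num)⟩
  obtain ⟨ha1, ha2⟩ := ha₁
  have ha75 : 3 / 4 < a₁ := a_bds hε1 ha1
  have ha45 : a₁ < 4 / 5 := ha2.trans (sub_lt_self _ (half_pos hε0))
  have ha24 : 2 / 5 < a₁ := lt_trans (by norm_num) ha75
  have ha15 : 1 / 5 < a₁ := lt_trans (by norm_num) ha75
  -- points near the cuff
  have hnear : ∀ q, tr q < ε ^ 2 → 4 / 5 - 1 / 200 ≤ q.2.1 ∧ rsq 1 q ≤ 1 / 20 ∧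
      |q.1 - 1 / 2| < r ∧ ‖q.2 - pc 1‖ < 1 := near_aux hε0 hε1 hεr
  have hVt : ∀ t : ℝ, ∀ p ∈ SP, R.f (t, p) ∈ Φ.source := by
    intro t p hp
    by_cases h : ε ^ 2 ≤ tr p
    · rw [hR1 t p h]
      exact hΦ (Or.inl hp)
    · exact htube _ (by rw [hR2]; exact not_le.1 h)
  -- the two germs
  set G₁ : R4 → R4 := fun p => G (R.f (1, p)) with hG₁
  have hE₁ : EmbOn I4 G₁ SP := by
    have h := (famOn_iff.1 (famOn_dfam R SP)).2 1 ⟨by norm_num, le_rfl⟩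
    exact embOn_comp hGV h (fun p hp => hVt 1 p hp)
  have hq₁ : Eqv G G₁ := by
    have h := eqv_precomp hF hGV (famOn_dfam R SP) (fun t _ p hp => hVt t p hp)
    have h0 : (fun p => G (R.f (0, p))) = G := funext fun p => by rw [hR0]
    rw [h0] at h
    exact h
  set F' : R4 → R4 := fun p => if rsq 1 p ≤ (1 / 5 + ε / 4) ^ 2 then G p else G₁ p with hF'
  have hcore1 : ∀ p, tr p < ε ^ 2 / 4 → G₁ p = G p := fun p hp => by
    show G (R.f (1, p)) = G p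
    rw [hR4 p hp]
  -- `F' = G₁` near the spine
  have hN1 : NearEq G₁ F' SP := by
    refine nearEq_of_eventuallyEq fun p hp => ?_
    by_cases h : rsq 1 p ≤ (1 / 5 + ε / 4) ^ 2
    · have ht : tr p < ε ^ 2 / 4 := spine_aux hε0 hp h
      filter_upwards [continuous_tr.continuousAt.eventually (gt_mem_nhds ht)] with q hq
      show G₁ q = if rsq 1 q ≤ (1 / 5 + ε / 4) ^ 2 then G q else G₁ q
      split_ifs
      · exact hcore1 q hq
      · rfl
    · filter_upwards [(continuous_rsq 1).continuousAt.eventually (lt_mem_nhds (not_le.1 h))]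
        with q hq
      show G₁ q = if rsq 1 q ≤ (1 / 5 + ε / 4) ^ 2 then G q else G₁ q
      rw [if_neg (not_le.2 hq)]
  -- `F' = G` near the ball
  have hN2 : ∀ p, rsq 1 p ≤ 1 / 25 → F' =ᶠ[𝓝 p] G := by
    intro p hp
    have h1 : rsq 1 p < (1 / 5 + ε / 4) ^ 2 := ball_aux hε0 hp
    filter_upwards [(continuous_rsq 1).continuousAt.eventually (gt_mem_nhds h1)] with q hq
    show (if rsq 1 q ≤ (1 / 5 + ε / 4) ^ 2 then G q else G₁ q) = G q
    rw [if_pos (le_of_lt hq)]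
  have hE' : EmbOn I4 F' SP := embOn_congr hN1 hE₁
  have hSPval : ∀ p ∈ SP, F' p = G (R.f (1, p)) := fun p hp =>
    ((hN1.eventuallyEq hp).self_of_nhds).symm
  have hflat : ∀ p ∈ flat 1, F' p = G p := fun p hp => (hN2 p hp.2).self_of_nhds
  have hlow : ∀ p : R4, p.2.1 ≤ 3 / 4 → F' p = G p := by
    intro p hp
    have h1 : ε ^ 2 ≤ tr p := low_aux hε0 hε1 hp
    show (if rsq 1 p ≤ (1 / 5 + ε / 4) ^ 2 then G p else G (R.f (1, p))) = G p
    rw [hR1 1 p h1]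
    split_ifs <;> rfl
  have hmem1 : ∀ a ∈ Icc (1 / 5 : ℝ) (4 / 5), core F' a = G (R.f (1, ax a)) := fun a ha =>
    hSPval _ (ax_mem_neck ha)
  have ha₁I : a₁ ∈ Icc (1 / 5 : ℝ) (4 / 5) := ⟨ha15.le, ha45.le⟩
  have hx0 : ax (8 / 5 - a₁) ∈ flat 1 := by
    refine ⟨rfl, ?_⟩
    rw [rsq_ax, show 8 / 5 - a₁ - 1 = 3 / 5 - a₁ by ring]
    exact sq_a ha24.le ha45.le
  have hcr : core F' a₁ = F' (ax (8 / 5 - a₁)) := by
    rw [hmem1 a₁ ha₁I, hRa, hflat _ hx0]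
  refine ⟨F', a₁, ha75, ?_, hq₁.trans (eqv_of_nearEq hF hE₁ hN1), hlow, ?_, ?_, ?_⟩
  · refine ⟨?_, hE'.2, ?_, ⟨ha15, ha45⟩, ?_, ?_⟩
    · rintro p (hp | hp)
      · exact hE'.1 p hp
      · exact ld_congr (hN2 p hp.2).symm (hG.1 p (Or.inr hp))
    · have hv : ∀ p ∈ flat 1 ∪ sph (1 - 1), F' p = G p ∧ p ∈ SP ∪ flat 1 := by
        rintro p (hp | hp)
        · exact ⟨hflat p hp, Or.inr hp⟩
        · rw [sub_self] at hp
          exact ⟨hlow p (sph_low hp), Or.inl (Or.inl (Or.inl hp))⟩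
      intro p hp q hq he
      rw [(hv p hp).1, (hv q hq).1] at he
      exact hG.2 (hv p hp).2 (hv q hq).2 he
    · refine ⟨pc (8 / 5 - a₁), ?_, hcr, ?_⟩
      · rw [nsq_pc]
        exact sq_a_lt ha24 ha45
      · have hld : LD G (ax (8 / 5 - a₁)) := hG.1 _ (Or.inr hx0)
        have hdG : HasFDerivAt G (fderiv ℝ G (ax (8 / 5 - a₁))) (R.f (1, ax a₁)) := by
          rw [hRa]
          exact ((ld_iff.1 hld).1.self_of_nhds.differentiableAt (by simp)).hasFDerivAt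
        have hdR : HasFDerivAt (fun q : R4 => R.f (1, q))
            (fderiv ℝ (fun q : R4 => R.f (1, q)) (ax a₁)) (ax a₁) :=
          ((ld_iff.1 (ld_dfam R 1 (ax a₁))).1.self_of_nhds.differentiableAt
            (by simp)).hasFDerivAt
        have hd1 : HasFDerivAt G₁ ((fderiv ℝ G (ax (8 / 5 - a₁))).comp
            (fderiv ℝ (fun q : R4 => R.f (1, q)) (ax a₁))) (ax a₁) := hdG.comp (ax a₁) hdR
        have hd2 : fderiv ℝ F' (ax a₁) = (fderiv ℝ G (ax (8 / 5 - a₁))).comp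
            (fderiv ℝ (fun q : R4 => R.f (1, q)) (ax a₁)) := by
          rw [← (hN1.eventuallyEq (ax_mem_neck ha₁I)).fderiv_eq]
          exact hd1.fderiv
        have hd3 : fderiv ℝ F' (1 / 2, pc (8 / 5 - a₁)) = fderiv ℝ G (ax (8 / 5 - a₁)) :=
          (hN2 (ax (8 / 5 - a₁)) hx0.2).fderiv_eq
        set κ : R4 := fderiv ℝ (fun q : R4 => R.f (1, q)) (ax a₁) (0, ((1 : ℝ), (0 : ℂ)))
          with hκ
        have hk : HasDerivAt (fun a => R.f (1, ax a)) κ a₁ :=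
          hdR.comp_hasDerivAt a₁ (hasDerivAt_ax a₁)
        have hk1 : HasDerivAt (fun a => (R.f (1, ax a)).1) κ.1 a₁ := hk.fst
        refine ⟨κ.1, κ.2, ?_, ?_⟩
        · rw [← hk1.deriv]
          exact hR6
        · rw [hd2, hd3]
          rfl
    · rintro a ha ⟨q, hq, he⟩
      rw [hmem1 a ha, hflat q hq] at he
      have hqa : q = R.f (1, ax a) :=
        hGV.2 (hΦ (Or.inr hq)) (hVt 1 _ (ax_mem_neck ha)) he
      rcases eq_or_lt_of_le ha.2 with h4 | h4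
      · left
        rw [h4]
        norm_num
      · right
        by_cases h5 : a ≤ 4 / 5 - ε
        · exfalso
          rw [hR1 1 _ (tube_ax hε0 h5)] at hqa
          rw [hqa] at hq
          exact not_flat_ax h4 hq.2
        · exact hR5 a ⟨not_le.1 h5, h4⟩ (hqa ▸ hq)
  · intro a ha
    by_cases h : ε ^ 2 ≤ tr (ax a)
    · left
      rw [hmem1 a ha, hR1 1 _ h]
      rfl
    · right
      have h1 : tr (R.f (1, ax a)) < ε ^ 2 := by rw [hR2]; exact not_le.1 h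
      obtain ⟨h2, h3, h4, h5⟩ := hnear _ h1
      rw [hmem1 a ha, hform _ h2 h3 h4]
      generalize R.f (1, ax a) = q at h2 h3 h4 h5
      rw [sub_ax, Prod.norm_def]
      refine max_lt ?_ ?_
      · exact h4
      · change ‖lam • (q.2 - pc 1)‖ < r
        rw [norm_smul, Real.norm_eq_abs, abs_of_pos hlam]
        exact smul_lt hlam hlr h5
  · exact det_near hr hlam hform (hN2 _ (by rw [rsq_ax]; norm_num))
  · rw [hmem1 a₁ ha₁I, hRa]
    have h2 : 4 / 5 - 1 / 200 ≤ (ax (8 / 5 - a₁)).2.1 := fifth_aux ha45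
    rw [hform (ax (8 / 5 - a₁)) h2 (hx0.2.trans (by norm_num)) (by
      change |(1 / 2 : ℝ) - 1 / 2| < r
      rw [sub_self, abs_zero]
      exact hr)]
    rw [sub_ax, Prod.norm_def]
    refine max_lt ?_ ?_
    · change |(1 / 2 : ℝ) - 1 / 2| < lam
      rw [sub_self, abs_zero]
      exact hlam
    · change ‖lam • (pc (8 / 5 - a₁) - pc 1)‖ < lam
      rw [norm_smul, Real.norm_eq_abs, abs_of_pos hlam]
      exact mul_lt_of_lt_one_right hlam (norm_pc ha24.le ha45.le)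

end Pool.Agent.Helper70.BI
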