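import Pool.Agent.Helper70.BI.StS

/-!
# Project BI, part (E): symmetries of theta germs
-/

set_option autoImplicit false

open scoped Manifold ContDiff Topology ComplexConjugate
open Set Filter Pool.Agent.Helper65.Barb Pool.Agent.Helper18.BI

namespace Pool.Agent.Helper70.BI

open Pool.Agent.Helper27.BI (refh refs swp)

namespace SYM

/-- an affine symmetry `R = L + v` of `R4` exchanging the ends `c` and `c'` -/
private structure Sy (R : R4 → R4) (L : R4 →L[ℝ] R4) (c c' σ ε : ℝ) (m : ℝ → ℝ) : Prop where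
  aff : ∃ v : R4, ∀ p, R p = L p + v
  inv : ∀ p, R (R p) = p
  LL : ∀ v, L (L v) = v
  half : ∀ p : R4, p.1 = 1 / 2 → (R p).1 = 1 / 2
  rs : ∀ p, rsq c (R p) = rsq c' p
  rs' : ∀ p, rsq (1 - c) (R p) = rsq (1 - c') p
  SPm : ∀ p ∈ SP, R p ∈ SP
  ax : ∀ a, R (ax a) = ax (m a)
  mm : ∀ a, m (m a) = a
  mIoo : ∀ a ∈ Ioo (1 / 5 : ℝ) (4 / 5), m a ∈ Ioo (1 / 5 : ℝ) (4 / 5)
  mIcc : ∀ a ∈ Icc (1 / 5 : ℝ) (4 / 5), m a ∈ Icc (1 / 5 : ℝ) (4 / 5)
  foot : m (1 / 5 + 3 / 5 * c) = 1 / 5 + 3 / 5 * c'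
  L1 : L (0, ((1 : ℝ), (0 : ℂ))) = σ • (0, ((1 : ℝ), (0 : ℂ)))
  Le : ∀ (l : ℝ) (v : R3), (L (l, v)).1 = ε * l
  ss : σ * σ = 1
  ee : ε * ε = 1

private theorem Sy.der {R : R4 → R4} {L : R4 →L[ℝ] R4} {c c' σ ε : ℝ} {m : ℝ → ℝ}
    (h : Sy R L c c' σ ε m) (p : R4) : HasFDerivAt R L p := by
  obtain ⟨v, hv⟩ := h.aff
  have e : R = fun p => L p + v := funext hv
  rw [e]
  exact L.hasFDerivAt.add_const v

private theorem Sy.ld {R : R4 → R4} {L : R4 →L[ℝ] R4} {c c' σ ε : ℝ} {m : ℝ → ℝ}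
    (h : Sy R L c c' σ ε m) (p : R4) : LD R p := by
  rw [ld_iff]
  obtain ⟨v, hv⟩ := h.aff
  have e : R = fun p => L p + v := funext hv
  refine ⟨Eventually.of_forall fun q => ?_, ?_⟩
  · rw [e]
    exact (L.contDiff.add contDiff_const).contDiffAt
  · rw [(h.der p).fderiv]
    intro x y hxy
    rw [← h.LL x, hxy, h.LL]

private theorem Sy.injective {R : R4 → R4} {L : R4 →L[ℝ] R4} {c c' σ ε : ℝ} {m : ℝ → ℝ}
    (h : Sy R L c c' σ ε m) : Function.Injective R := fun x y hxy => by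
  rw [← h.inv x, hxy, h.inv]

private theorem Sy.flatm {R : R4 → R4} {L : R4 →L[ℝ] R4} {c c' σ ε : ℝ} {m : ℝ → ℝ}
    (h : Sy R L c c' σ ε m) {p : R4} (hp : p ∈ flat c') : R p ∈ flat c :=
  ⟨h.half p hp.1, by rw [h.rs]; exact hp.2⟩

private theorem Sy.sphm {R : R4 → R4} {L : R4 →L[ℝ] R4} {c c' σ ε : ℝ} {m : ℝ → ℝ}
    (h : Sy R L c c' σ ε m) {p : R4} (hp : p ∈ sph (1 - c')) : R p ∈ sph (1 - c) :=
  ⟨h.half p hp.1, by rw [h.rs']; exact hp.2⟩

private theorem Sy.fd {R : R4 → R4} {L : R4 →L[ℝ] R4} {c c' σ ε : ℝ} {m : ℝ → ℝ}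
    (h : Sy R L c c' σ ε m) {F : R4 → R4} {p : R4} (hF : LD F (R p)) :
    fderiv ℝ (fun p => F (R p)) p = (fderiv ℝ F (R p)).comp L := by
  have h1 : DifferentiableAt ℝ F (R p) :=
    ((ld_iff.1 hF).1.self_of_nhds).differentiableAt (by simp)
  exact (h1.hasFDerivAt.comp p (h.der p)).fderiv

private theorem Sy.br {R : R4 → R4} {L : R4 →L[ℝ] R4} {c c' σ ε : ℝ} {m : ℝ → ℝ}
    (h : Sy R L c c' σ ε m) {F : R4 → R4} {γ e : ℝ} (hF : Br c F γ e) :
    Br c' (fun p => F (R p)) (m γ) (ε * σ * e) where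
  loc p hp := by
    refine ld_comp (h.ld p) (hF.loc _ ?_)
    rcases hp with hp | hp
    · exact Or.inl (h.SPm p hp)
    · exact Or.inr (h.flatm hp)
  inj p hp q hq he := h.injective (hF.inj (h.SPm p hp) (h.SPm q hq) he)
  injF p hp q hq he := by
    have hm : ∀ p ∈ flat c' ∪ sph (1 - c'), R p ∈ flat c ∪ sph (1 - c) := by
      rintro p (hp | hp)
      · exact Or.inl (h.flatm hp)
      · exact Or.inr (h.sphm hp)
    exact h.injective (hF.injF (hm p hp) (hm q hq) he)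
  mem := h.mIoo _ hF.mem
  cr := by
    obtain ⟨x₀, h1, h2, l, v, h3, h4⟩ := hF.cr
    have hx₀ : ((1 / 2 : ℝ), x₀) ∈ flat c := ⟨rfl, by
      have : rsq c ((1 / 2 : ℝ), x₀) = nsq (x₀ - pc c) := by
        simp [rsq, pc, nsq]
      rw [this]; exact h1.le⟩
    set p' : R4 := R (1 / 2, x₀) with hp'
    have e1 : ((1 / 2 : ℝ), p'.2) = p' := Prod.ext (h.half _ rfl).symm rfl
    have e2 : R p' = (1 / 2, x₀) := h.inv _
    refine ⟨p'.2, ?_, ?_, (L (σ • (l, v))).1, (L (σ • (l, v))).2, ?_, ?_⟩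
    · have e3 : nsq (p'.2 - pc c') = rsq c' p' := by
        simp [rsq, pc, nsq]
      have e4 : rsq c' p' = rsq c (R p') := (h.rs p').symm
      have e5 : rsq c ((1 / 2 : ℝ), x₀) = nsq (x₀ - pc c) := by
        simp [rsq, pc, nsq]
      rw [e3, e4, e2, e5]
      exact h1
    · change F (R (BI.ax (m γ))) = F (R (1 / 2, p'.2))
      rw [h.ax, h.mm, e1, e2]
      exact h2
    · have e3 : (L (σ • (l, v))).1 = ε * (σ * l) := by
        rw [Prod.smul_mk, h.Le]; rfl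
      rw [e3]
      have := h.ss
      have := h.ee
      have e4 : ε * σ * e * (ε * (σ * l)) = (ε * ε) * (σ * σ) * (e * l) := by ring
      rw [e4, h.ss, h.ee, one_mul, one_mul]
      exact h3
    · have hg : BI.ax γ ∈ SP := by
        refine Or.inr ⟨rfl, hF.mem.1.le, hF.mem.2.le, rfl⟩
      have hR : R (BI.ax (m γ)) = BI.ax γ := by rw [h.ax, h.mm]
      rw [h.fd (p := BI.ax (m γ)) (by rw [hR]; exact hF.loc _ (Or.inl hg)),
        h.fd (p := (1 / 2, p'.2)) (by rw [e1, e2]; exact hF.loc _ (Or.inr hx₀)), hR]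
      rw [e1, e2]
      simp only [ContinuousLinearMap.comp_apply, Prod.mk.eta]
      rw [h.LL, h.L1, map_smul, map_smul, h4]
  only a ha hmem := by
    have h1 : core F (m a) ∈ F '' flat c := by
      obtain ⟨p, hp, he⟩ := hmem
      refine ⟨R p, h.flatm hp, ?_⟩
      have : F (R p) = F (R (BI.ax a)) := he
      rw [this, h.ax]
      rfl
    rcases hF.only (m a) (h.mIcc a ha) h1 with h2 | h2
    · left
      rw [← h.foot, ← h2, h.mm]
    · right
      rw [← h2, h.mm]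

private theorem Sy.image {R : R4 → R4} {L : R4 →L[ℝ] R4} {c c' σ ε : ℝ} {m : ℝ → ℝ}
    (h : Sy R L c c' σ ε m) (F : R4 → R4) :
    (fun p => F (R p)) '' flat c' ⊆ F '' flat c := by
  rintro _ ⟨p, hp, rfl⟩
  exact ⟨R p, h.flatm hp, rfl⟩

private noncomputable def LH : R4 →L[ℝ] R4 :=
  (ContinuousLinearMap.id ℝ ℝ).prodMap ((ContinuousLinearMap.id ℝ ℝ).prodMap
    (Complex.conjCLE : ℂ →L[ℝ] ℂ))

private noncomputable def LS : R4 →L[ℝ] R4 :=
  (-(ContinuousLinearMap.id ℝ ℝ)).prodMap ((ContinuousLinearMap.id ℝ ℝ).prodMap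
    (ContinuousLinearMap.id ℝ ℂ))

private noncomputable def LW : R4 →L[ℝ] R4 :=
  (ContinuousLinearMap.id ℝ ℝ).prodMap ((-(ContinuousLinearMap.id ℝ ℝ)).prodMap
    (Complex.conjCLE : ℂ →L[ℝ] ℂ))

private theorem det_neg_id : LinearMap.det (-(LinearMap.id : ℝ →ₗ[ℝ] ℝ)) = -1 := by
  have h : (-(LinearMap.id : ℝ →ₗ[ℝ] ℝ)) = (-1 : ℝ) • LinearMap.id := by
    refine LinearMap.ext fun x => ?_
    change -x = (-1 : ℝ) * x
    ring
  rw [h, LinearMap.det_smul]
  simp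

private theorem det_conj : LinearMap.det ((Complex.conjCLE : ℂ →L[ℝ] ℂ) : ℂ →ₗ[ℝ] ℂ) = -1 :=
  Complex.det_conjAe

private theorem det_LH : LH.det = -1 := by
  have h : (LH : R4 →ₗ[ℝ] R4) = (LinearMap.id : ℝ →ₗ[ℝ] ℝ).prodMap
      ((LinearMap.id : ℝ →ₗ[ℝ] ℝ).prodMap ((Complex.conjCLE : ℂ →L[ℝ] ℂ) : ℂ →ₗ[ℝ] ℂ)) := rfl
  rw [ContinuousLinearMap.det, h, LinearMap.det_prodMap, LinearMap.det_prodMap, det_conj,
    LinearMap.det_id]
  norm_num

private theorem det_LS : LS.det = -1 := by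
  have h : (LS : R4 →ₗ[ℝ] R4) = (-(LinearMap.id : ℝ →ₗ[ℝ] ℝ)).prodMap
      ((LinearMap.id : ℝ →ₗ[ℝ] ℝ).prodMap (LinearMap.id : ℂ →ₗ[ℝ] ℂ)) := rfl
  rw [ContinuousLinearMap.det, h, LinearMap.det_prodMap, LinearMap.det_prodMap, det_neg_id,
    LinearMap.det_id, LinearMap.det_id]
  norm_num

private theorem det_LW : LW.det = 1 := by
  have h : (LW : R4 →ₗ[ℝ] R4) = (LinearMap.id : ℝ →ₗ[ℝ] ℝ).prodMap
      ((-(LinearMap.id : ℝ →ₗ[ℝ] ℝ)).prodMap ((Complex.conjCLE : ℂ →L[ℝ] ℂ) : ℂ →ₗ[ℝ] ℂ)) := rfl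
  rw [ContinuousLinearMap.det, h, LinearMap.det_prodMap, LinearMap.det_prodMap, det_conj,
    LinearMap.det_id, det_neg_id]
  norm_num

private theorem SP_of {R : R4 → R4} (h0 : ∀ p, rsq 0 (R p) = rsq 0 p)
    (h1 : ∀ p, rsq 1 (R p) = rsq 1 p) (hh : ∀ p : R4, p.1 = 1 / 2 → (R p).1 = 1 / 2)
    (ha : ∀ p, (R p).2.1 = p.2.1) (hw : ∀ p : R4, p.2.2 = 0 → (R p).2.2 = 0) :
    ∀ p ∈ SP, R p ∈ SP := by
  rintro p ((hp | hp) | hp)
  · exact Or.inl (Or.inl ⟨hh p hp.1, by rw [h0]; exact hp.2⟩)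
  · exact Or.inl (Or.inr ⟨hh p hp.1, by rw [h1]; exact hp.2⟩)
  · exact Or.inr ⟨hh p hp.1, by rw [ha]; exact hp.2.1, by rw [ha]; exact hp.2.2.1,
      hw p hp.2.2.2⟩

private theorem rsq_h (c : ℝ) (p : R4) : rsq c (refh p) = rsq c p := by
  simp [rsq, nsq, refh]

private theorem rsq_s (c : ℝ) (p : R4) : rsq c (refs p) = rsq c p := rfl

private theorem rsq_w (c : ℝ) (p : R4) : rsq c (swp p) = rsq (1 - c) p := by
  simp only [rsq, nsq, swp, Complex.conj_re, Complex.conj_im]; ring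

private theorem syH (c : ℝ) : Sy refh LH c c 1 1 (fun a => a) where
  aff := ⟨0, fun p => by rw [add_zero]; rfl⟩
  inv p := by simp [refh]
  LL v := Prod.ext rfl (Prod.ext rfl (Complex.conj_conj _))
  half p hp := hp
  rs := rsq_h c
  rs' := rsq_h (1 - c)
  SPm := SP_of (rsq_h 0) (rsq_h 1) (fun p hp => hp) (fun p => rfl) (fun p hp => by
    simp [refh, hp])
  ax a := by simp [refh, BI.ax]
  mm a := rfl
  mIoo a ha := ha
  mIcc a ha := ha
  foot := rfl
  L1 := by simp [LH]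
  Le l v := by simp [LH]
  ss := by norm_num
  ee := by norm_num

private theorem syS (c : ℝ) : Sy refs LS c c 1 (-1) (fun a => a) where
  aff := ⟨(1, (0, 0)), fun p => by
    refine Prod.ext ?_ (Prod.ext ?_ ?_)
    · change 1 - p.1 = -p.1 + 1
      ring
    · change p.2.1 = p.2.1 + 0
      ring
    · change p.2.2 = p.2.2 + 0
      ring⟩
  inv p := by simp [refs]
  LL v := Prod.ext (neg_neg _) rfl
  half p hp := by
    change 1 - p.1 = 1 / 2
    rw [hp]; norm_num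
  rs := rsq_s c
  rs' := rsq_s (1 - c)
  SPm := SP_of (rsq_s 0) (rsq_s 1) (fun p hp => by
    change 1 - p.1 = 1 / 2
    rw [hp]; norm_num) (fun p => rfl) (fun p hp => hp)
  ax a := by
    refine Prod.ext ?_ rfl
    change 1 - (1 / 2 : ℝ) = 1 / 2
    norm_num
  mm a := rfl
  mIoo a ha := ha
  mIcc a ha := ha
  foot := rfl
  L1 := by simp [LS]
  Le l v := by simp [LS]
  ss := by norm_num
  ee := by norm_num

private theorem syW (c : ℝ) (hc : c = 0 ∨ c = 1) :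
    Sy swp LW c (1 - c) (-1) 1 (fun a => 1 - a) where
  aff := ⟨(0, (1, 0)), fun p => by
    refine Prod.ext ?_ (Prod.ext ?_ ?_)
    · change p.1 = p.1 + 0
      ring
    · change 1 - p.2.1 = -p.2.1 + 1
      ring
    · change conj p.2.2 = conj p.2.2 + 0
      ring⟩
  inv p := by simp [swp]
  LL v := Prod.ext rfl (Prod.ext (neg_neg _) (Complex.conj_conj _))
  half p hp := hp
  rs p := by rw [rsq_w]
  rs' p := by rw [rsq_w]
  SPm := by
    rintro p ((hp | hp) | hp)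
    · exact Or.inl (Or.inr ⟨hp.1, by rw [rsq_w, sub_self]; exact hp.2⟩)
    · exact Or.inl (Or.inl ⟨hp.1, by rw [rsq_w, sub_zero]; exact hp.2⟩)
    · refine Or.inr ⟨hp.1, ?_, ?_, ?_⟩
      · change 1 / 5 ≤ 1 - p.2.1
        linarith [hp.2.2.1]
      · change 1 - p.2.1 ≤ 4 / 5
        linarith [hp.2.1]
      · change conj p.2.2 = 0
        rw [hp.2.2.2, map_zero]
  ax a := by
    refine Prod.ext rfl (Prod.ext rfl ?_)
    change conj (0 : ℂ) = 0
    rw [map_zero]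
  mm a := by ring
  mIoo a ha := ⟨by linarith [ha.2], by linarith [ha.1]⟩
  mIcc a ha := ⟨by linarith [ha.2], by linarith [ha.1]⟩
  foot := by ring
  L1 := by
    refine Prod.ext ?_ (Prod.ext ?_ ?_)
    · simp [LW]
    · simp [LW]
    · simp [LW]
  Le l v := by simp [LW]
  ss := by norm_num
  ee := by norm_num

private theorem det_comp' (A B : R4 →L[ℝ] R4) : (A.comp B).det = A.det * B.det := by
  rw [ContinuousLinearMap.det, ContinuousLinearMap.det, ContinuousLinearMap.det,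
    ContinuousLinearMap.toLinearMap_comp, LinearMap.det_comp]

end SYM

open SYM in
theorem m_SYM : StSYM := by
  intro F α β e d hF
  have h0 : ax (1 / 2) ∈ SP := Or.inr ⟨rfl, by norm_num [ax], by norm_num [ax], rfl⟩
  have hld : LD F (ax (1 / 2)) := hF.a.loc _ (Or.inl h0)
  have hfH : (fderiv ℝ (fun p => F (refh p)) (ax (1 / 2))).det =
      -(fderiv ℝ F (ax (1 / 2))).det := by
    have e1 : refh (ax (1 / 2)) = ax (1 / 2) := (syH 0).ax _
    rw [(syH 0).fd (by rw [e1]; exact hld), det_comp', det_LH, e1]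
    ring
  have hfS : (fderiv ℝ (fun p => F (refs p)) (ax (1 / 2))).det =
      -(fderiv ℝ F (ax (1 / 2))).det := by
    have e1 : refs (ax (1 / 2)) = ax (1 / 2) := (syS 0).ax _
    rw [(syS 0).fd (by rw [e1]; exact hld), det_comp', det_LS, e1]
    ring
  have hfW : (fderiv ℝ (fun p => F (swp p)) (ax (1 / 2))).det =
      (fderiv ℝ F (ax (1 / 2))).det := by
    have e1 : swp (ax (1 / 2)) = ax (1 / 2) := by
      rw [(syW 0 (Or.inl rfl)).ax]
      norm_num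
    rw [(syW 0 (Or.inl rfl)).fd (by rw [e1]; exact hld), det_comp', det_LW, e1]
    ring
  refine ⟨⟨?_, fun h => by rw [hfH]; linarith, fun h => by rw [hfH]; linarith⟩,
    ⟨?_, fun h => by rw [hfS]; linarith⟩, ⟨?_, fun h => by rw [hfW]; exact h⟩, ?_⟩
  · refine ⟨?_, ?_, hF.dis.mono ((syH 0).image F) ((syH 1).image F), hF.ord⟩
    · have := (syH 0).br hF.a
      rwa [one_mul, one_mul] at this
    · have := (syH 1).br hF.b
      rwa [one_mul, one_mul] at this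
  · refine ⟨?_, ?_, hF.dis.mono ((syS 0).image F) ((syS 1).image F), hF.ord⟩
    · have := (syS 0).br hF.a
      rwa [mul_one, neg_one_mul] at this
    · have := (syS 1).br hF.b
      rwa [mul_one, neg_one_mul] at this
  · refine ⟨?_, ?_, ?_, ?_⟩
    · have := (syW 1 (Or.inr rfl)).br hF.b
      rwa [one_mul, neg_one_mul, sub_self] at this
    · have := (syW 0 (Or.inl rfl)).br hF.a
      rwa [one_mul, neg_one_mul, sub_zero] at this
    · have h1 := (syW 1 (Or.inr rfl)).image F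
      have h2 := (syW 0 (Or.inl rfl)).image F
      rw [sub_self] at h1
      rw [sub_zero] at h2
      exact hF.dis.symm.mono h1 h2
    · have := hF.ord
      linarith
  · intro h
    have h1 : LinearMap.det ((fderiv ℝ F (ax (1 / 2)) : R4 →L[ℝ] R4) : R4 →ₗ[ℝ] R4) = 0 := h
    have h2 := LinearMap.bot_lt_ker_of_det_eq_zero h1
    have h3 := (ld_iff.1 hld).2
    rw [LinearMap.ker_eq_bot.2 h3] at h2
    exact lt_irrefl _ h2

end Pool.Agent.Helper70.BI
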