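import Pool.Agent.Helper70.BI.StL

/-!
# Project BI, part (E), module TH: the obstruction germ is a theta germ
-/

set_option autoImplicit false

open scoped Manifold ContDiff Topology ComplexConjugate
open Set Filter Pool.Agent.Helper65.Barb Pool.Agent.Helper18.BI

namespace Pool.Agent.Helper70.BI

namespace TH

private theorem isCompact_flat (c : ℝ) : IsCompact (flat c) := by
  apply Metric.isCompact_of_isClosed_isBounded
  · apply IsClosed.inter (isClosed_eq continuous_fst continuous_const)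
    exact isClosed_le (continuous_rsq c) continuous_const
  · exact (isBounded_of_rsq c (1 / 25) (1 / 2) (1 / 2)).subset
      (fun p hp => ⟨hp.1.ge, hp.1.le, hp.2⟩)

private theorem lt_of_flat {p : R4} (hp : p ∈ flat 1) : 1 / 2 < p.2.1 := by
  have h1 := sq_le_rsq_one p
  have h2 := hp.2
  nlinarith

private theorem lt_of_sph {p : R4} (hp : p ∈ sph 0) : p.2.1 < 1 / 2 := by
  have h1 := sq_le_rsq p
  have h2 := hp.2
  nlinarith

private theorem sph_sub_flat (c : ℝ) : sph c ⊆ flat c := fun _ hp => ⟨hp.1, hp.2.le⟩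

private theorem ax_mem_SP {a : ℝ} (h1 : 1 / 5 ≤ a) (h2 : a ≤ 4 / 5) : ax a ∈ SP :=
  Or.inr ⟨rfl, h1, h2, rfl⟩

private theorem ball_mem_flat {c : ℝ} {x₀ : R3} (h : nsq (x₀ - pc c) < 1 / 25) :
    ((1 / 2 : ℝ), x₀) ∈ flat c := by
  refine ⟨rfl, ?_⟩
  have e : rsq c ((1 / 2 : ℝ), x₀) = nsq (x₀ - pc c) := by
    simp [rsq, nsq, pc]
  rw [e]
  exact h.le

private theorem hasDerivAt_core {J : R4 → R4} {a : ℝ} (hJ : LD J (ax a)) :
    HasDerivAt (core J) (fderiv ℝ J (ax a) (0, ((1 : ℝ), (0 : ℂ)))) a := by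
  have hd : HasFDerivAt J (fderiv ℝ J (ax a)) (ax a) :=
    ((ld_iff.1 hJ).1.self_of_nhds.differentiableAt (by simp)).hasFDerivAt
  have hax : HasDerivAt ax (0, ((1 : ℝ), (0 : ℂ))) a :=
    (hasDerivAt_const a (1 / 2 : ℝ)).prodMk ((hasDerivAt_id a).prodMk (hasDerivAt_const a (0 : ℂ)))
  exact hd.comp_hasDerivAt a hax

private theorem eventuallyEq_of_lt {O G : R4 → R4} (h : ∀ p : R4, 1 / 2 < p.2.1 → O p = G p)
    {p : R4} (hp : 1 / 2 < p.2.1) : O =ᶠ[𝓝 p] G := by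
  have hc : Continuous fun q : R4 => q.2.1 := by fun_prop
  filter_upwards [(isOpen_lt continuous_const hc).mem_nhds hp] with q hq
  exact h q hq

/-- the second cuff of the obstruction germ bounds a flat ball which is met once by the bar -/
private theorem br_one {J : ℝ × R4 → R4} {d t₀ t' α e : ℝ} {O : R4 → R4} (hJ : BFam1 J d)
    (hO : Br 0 O α e)
    (hcore : ∀ a ∈ Icc (1 / 5 : ℝ) (4 / 5), core O a = core (fun p => J (t', p)) a)
    (hright : ∀ p : R4, 1 / 2 < p.2.1 → O p = J (t', p))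
    (hdis : Disjoint ((fun p => J (t₀, p)) '' flat 1) (O '' flat 0)) : Br 1 O (2 / 5) d := by
  have hflat : ∀ p ∈ flat 1, O p = J (t', p) := fun p hp => hright p (lt_of_flat hp)
  have himg : O '' flat 1 = (fun p => J (t', p)) '' flat 1 := image_congr hflat
  have hne : ∀ p ∈ flat 1, ∀ q ∈ sph 0, O p ≠ O q := by
    intro p hp q hq he
    refine (Set.disjoint_left.1 hdis) (a := O p) ⟨p, hp, ?_⟩ ⟨q, sph_sub_flat 0 hq, he.symm⟩
    rw [hflat p hp]
    exact hJ.const t₀ t' p hp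
  refine ⟨?_, hO.inj, ?_, ⟨by norm_num, by norm_num⟩, ?_, ?_⟩
  · rintro p (hp | hp)
    · exact hO.loc p (Or.inl hp)
    · exact ld_congr (eventuallyEq_of_lt hright (lt_of_flat hp)).symm (hJ.loc t' p (Or.inr hp))
  · have e0 : (1 : ℝ) - 1 = 0 := by norm_num
    rw [e0]
    rintro p (hp | hp) q (hq | hq) he
    · rw [hflat p hp, hflat q hq] at he
      exact hJ.injF t' (Or.inl hp) (Or.inl hq) he
    · exact absurd he (hne p hp q hq)
    · exact absurd he.symm (hne q hq p hp)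
    · exact hO.inj (Or.inl (Or.inl hp)) (Or.inl (Or.inl hq)) he
  · obtain ⟨x₀, h1, h2, l, v, h3, h4⟩ := hJ.cr t'
    have hx : ((1 / 2 : ℝ), x₀) ∈ flat 1 := ball_mem_flat h1
    have hγ : (2 / 5 : ℝ) ∈ Icc (1 / 5 : ℝ) (4 / 5) := ⟨by norm_num, by norm_num⟩
    have hax : ax (2 / 5) ∈ SP := ax_mem_SP hγ.1 hγ.2
    refine ⟨x₀, h1, ?_, l, v, h3, ?_⟩
    · rw [hcore _ hγ, hflat _ hx]
      exact h2
    · have hd1 := hasDerivAt_core (hO.loc _ (Or.inl hax))
      have hd2 := hasDerivAt_core (hJ.loc t' _ (Or.inl hax))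
      have hev : core O =ᶠ[𝓝 (2 / 5 : ℝ)] core (fun p => J (t', p)) := by
        filter_upwards [Ioo_mem_nhds (show (1 / 5 : ℝ) < 2 / 5 by norm_num)
          (show (2 / 5 : ℝ) < 4 / 5 by norm_num)] with a ha
        exact hcore a ⟨ha.1.le, ha.2.le⟩
      have e1 := hd1.unique (hd2.congr_of_eventuallyEq hev)
      have e2 := (eventuallyEq_of_lt hright (lt_of_flat hx)).fderiv_eq (𝕜 := ℝ)
      rw [e1, e2]
      exact h4
  · intro a ha hm
    have e0 : (1 : ℝ) / 5 + 3 / 5 * 1 = 4 / 5 := by norm_num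
    rw [e0]
    rw [hcore a ha, himg] at hm
    exact hJ.only t' a ha hm

end TH

open TH

theorem m_TH (hCRP : StCRP) (hMWL : StMWL) : StTH := by
  intro W J d t₀ ε hW hd hJ ht₀ hε
  obtain ⟨u₀, p₀, hu, hpre⟩ := hJ.cross t₀ ht₀
  have hC : IsCompact ((fun p => J (t₀, p)) '' flat 1) := by
    refine (isCompact_flat 1).image_of_continuousOn fun p hp => ?_
    exact ((ld_iff.1 (hJ.loc t₀ p (Or.inr hp))).1.self_of_nhds.continuousAt).continuousWithinAt
  have hdis : Disjoint ((fun p => J (t₀, p)) '' flat 1) ((fun p => J (t₀, p)) '' sph 0) := by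
    rw [Set.disjoint_left]
    rintro _ ⟨p, hp, rfl⟩ ⟨q, hq, he⟩
    have h1 : q = p := hJ.injF t₀ (Or.inr hq) (Or.inl hp) he
    have h2 := lt_of_flat hp
    have h3 := lt_of_sph hq
    rw [h1] at h3
    exact lt_asymm h2 h3
  have hε' : 0 < min ε (u₀ - 2 / 5) := lt_min hε (by linarith)
  obtain ⟨t₁, ht₁, t₂, ht₂, hE₁, hE₂, t', t'', htt, O, α, e, hα, he, hBr, hcore, hright, hdisO,
    hcl⟩ := hCRP J t₀ u₀ p₀ hpre _ hC hdis _ hε'
  have hα' : 2 / 5 < α := by
    have h1 := (abs_lt.1 (lt_of_lt_of_le hα (min_le_right _ _))).1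
    linarith
  have hB1 : Br 1 O (2 / 5) d := br_one hJ hBr hcore hright hdisO
  have himg : O '' flat 1 = (fun p => J (t₀, p)) '' flat 1 := by
    refine image_congr fun p hp => ?_
    rw [hright p (lt_of_flat hp)]
    exact hJ.const t' t₀ p hp
  have hTh : Theta O α (2 / 5) e d := by
    refine ⟨hBr, hB1, ?_, hα'⟩
    rw [himg]
    exact hdisO.symm
  have hO : Thin I4 O W := hW.all O α (2 / 5) e d he hd hTh
  have hMW : MW W (fun p => J (t'', p)) (fun p => J (t', p)) := fun φ ψ hφ hψ =>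
    Or.inr (hcl ψ φ W hψ hφ hO)
  have hle := min_le_left ε (u₀ - 2 / 5)
  refine ⟨t₁, ⟨by linarith [ht₁.1], ht₁.2⟩, t₂, ⟨ht₂.1, by linarith [ht₂.2]⟩, hE₁, hE₂, ?_⟩
  obtain ⟨-, -, hsymm, -⟩ := hMWL W hW
  rcases htt with ⟨rfl, rfl⟩ | ⟨rfl, rfl⟩
  · exact hsymm _ _ hMW
  · exact hMW

end Pool.Agent.Helper70.BI
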