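import Pool.Agent.Helper70.BI.StU

/-!
# Project BI, module TR: compositions and translations
-/

set_option autoImplicit false

open scoped Manifold ContDiff Topology ComplexConjugate
open Set Filter Pool.Agent.Helper65.Barb Pool.Agent.Helper18.BI

namespace Pool.Agent.Helper70.BI

namespace TR

variable {E : Type} [NormedAddCommGroup E] [NormedSpace ℝ E]

theorem realG_comp {U : Set E} {y₀ : E} {f₁ f₂ : E → E} (h₁ : RealG U y₀ f₁)
    (h₂ : RealG U (f₁ y₀) f₂) (hc : ContinuousAt f₁ y₀) : RealG U y₀ (fun y => f₂ (f₁ y)) := by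
  obtain ⟨G₁, a₁, ⟨C₁, c₁, s₁, t₁⟩, e₁⟩ := h₁
  obtain ⟨G₂, a₂, ⟨C₂, c₂, s₂, t₂⟩, e₂⟩ := h₂
  refine ⟨G₂.comp G₁, ?_, ⟨C₁ ∪ C₂, c₁.union c₂, union_subset s₁ s₂, ?_⟩, ?_⟩
  · intro y
    change G₂.f (0, G₁.f (0, y)) = y
    rw [a₁, a₂]
  · intro t y hy
    rw [mem_union, not_or] at hy
    change G₂.f (t, G₁.f (t, y)) = y
    rw [t₁ t y hy.1, t₂ t y hy.2]
  · filter_upwards [e₁, hc.eventually e₂] with y h3 h4
    change G₂.f (1, G₁.f (1, y)) = f₂ (f₁ y)
    rw [h3, h4]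

theorem small [FiniteDimensional ℝ E] (hPT : StPT) {U : Set E} (hU : IsOpen U) {y₀ : E}
    (hy₀ : y₀ ∈ U) : ∃ ε : ℝ, 0 < ε ∧ ∀ z ∈ Metric.ball y₀ ε, ∀ z' ∈ Metric.ball y₀ ε,
      RealG U z (fun y => y + (z' - z)) := by
  have hprop : ProperSpace E := FiniteDimensional.proper_real E
  obtain ⟨r, hr, hrU⟩ := Metric.isOpen_iff.1 hU y₀ hy₀
  let b : ContDiffBump y₀ := ⟨r / 4, r / 2, by positivity, by linarith⟩
  have hbsm : ContDiff ℝ ∞ (b : E → ℝ) := b.contDiff
  obtain ⟨K, hK⟩ := ContDiff.lipschitzWith_of_hasCompactSupport b.hasCompactSupport hbsm (by simp)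
  have hK0 : (0 : ℝ) ≤ K := K.2
  refine ⟨min (r / 8) (1 / (4 * (K + 1))), by positivity, ?_⟩
  intro z hz z' hz'
  rw [Metric.mem_ball] at hz hz'
  have hz1 : dist z y₀ < r / 8 := lt_of_lt_of_le hz (min_le_left _ _)
  have hv : ‖z' - z‖ ≤ 1 / (2 * (K + 1)) := by
    have h1 : dist z y₀ < 1 / (4 * (K + 1)) := lt_of_lt_of_le hz (min_le_right _ _)
    have h2 : dist z' y₀ < 1 / (4 * (K + 1)) := lt_of_lt_of_le hz' (min_le_right _ _)
    have h3 : ‖z' - z‖ ≤ dist z' y₀ + dist z y₀ := by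
      rw [← dist_eq_norm]
      exact dist_triangle_right _ _ _
    have h4 : 1 / (2 * ((K : ℝ) + 1)) = 1 / (4 * (K + 1)) + 1 / (4 * (K + 1)) := by
      field_simp
      norm_num
    rw [h4]
    linarith
  let g : ℝ × E → E := fun q => (step q.1 * b q.2) • (z' - z)
  have hg : ContDiff ℝ ∞ g :=
    ((contDiff_step.comp contDiff_fst).mul (hbsm.comp contDiff_snd)).smul contDiff_const
  have hstep : ∀ t, 0 ≤ step t ∧ step t ≤ 1 := fun t =>
    ⟨Real.smoothTransition.nonneg t, Real.smoothTransition.le_one t⟩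
  have hlip : ∀ t x y, ‖g (t, x) - g (t, y)‖ ≤ 1 / 2 * ‖x - y‖ := by
    intro t x y
    have e1 : g (t, x) - g (t, y) = (step t * (b x - b y)) • (z' - z) := by
      simp only [g]
      rw [← sub_smul, mul_sub]
    rw [e1, norm_smul, norm_mul, Real.norm_of_nonneg (hstep t).1]
    have h1 : ‖b x - b y‖ ≤ K * ‖x - y‖ := by
      have := hK.dist_le_mul x y
      rwa [dist_eq_norm, dist_eq_norm] at this
    have h2 : step t * ‖b x - b y‖ ≤ K * ‖x - y‖ := by
      have := mul_le_mul_of_nonneg_right (hstep t).2 (norm_nonneg (b x - b y))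
      linarith
    have h3 : step t * ‖b x - b y‖ * ‖z' - z‖ ≤ K * ‖x - y‖ * (1 / (2 * (K + 1))) :=
      mul_le_mul h2 hv (norm_nonneg _) (by positivity)
    refine h3.trans ?_
    have h4 : (K : ℝ) * (1 / (2 * (K + 1))) ≤ 1 / 2 := by
      rw [mul_one_div, div_le_div_iff₀ (by positivity) (by norm_num)]
      linarith
    calc (K : ℝ) * ‖x - y‖ * (1 / (2 * (K + 1))) = (K * (1 / (2 * (K + 1)))) * ‖x - y‖ := by ring
      _ ≤ 1 / 2 * ‖x - y‖ := mul_le_mul_of_nonneg_right h4 (norm_nonneg _)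
  obtain ⟨F, hF⟩ := hPT E g hg hlip
  refine ⟨F, ?_, ⟨Metric.closedBall y₀ (r / 2), isCompact_closedBall _ _, ?_, ?_⟩, ?_⟩
  · intro y
    rw [hF]
    simp only [g]
    rw [step_of_nonpos le_rfl, zero_mul, zero_smul, add_zero]
  · exact (Metric.closedBall_subset_ball (by linarith)).trans hrU
  · intro t y hy
    rw [hF]
    simp only [g]
    rw [Metric.mem_closedBall, not_le] at hy
    rw [b.zero_of_le_dist hy.le, mul_zero, zero_smul, add_zero]
  · filter_upwards [Metric.ball_mem_nhds z (show (0 : ℝ) < r / 8 by linarith)] with y hy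
    rw [Metric.mem_ball] at hy
    rw [hF]
    simp only [g]
    have h5 : dist y y₀ ≤ r / 4 := by
      have := dist_triangle y z y₀
      linarith
    rw [step_of_one_le le_rfl, b.one_of_mem_closedBall (Metric.mem_closedBall.2 h5), mul_one,
      one_smul]

end TR

theorem m_TR (hPT : StPT) : StTR := by
  intro E _ _ _
  refine ⟨fun U y₀ f₁ f₂ h₁ h₂ hc => TR.realG_comp h₁ h₂ hc, ?_⟩
  intro U y₀ y₁ hU hconn hy₀ hy₁
  refine hconn.induction₂' (fun z z' => RealG U z (fun y => y + (z' - z))) ?_ ?_ hy₀ hy₁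
  · intro z hz
    obtain ⟨ε, hε, h⟩ := TR.small hPT hU hz
    have hb : Metric.ball z ε ∈ 𝓝[U] z := mem_nhdsWithin_of_mem_nhds (Metric.ball_mem_nhds z hε)
    filter_upwards [hb] with z' hz'
    exact ⟨h z (Metric.mem_ball_self hε) z' hz', h z' hz' z (Metric.mem_ball_self hε)⟩
  · intro z z' z'' _ _ _ h1 h2
    have h3 := TR.realG_comp (f₂ := fun y => y + (z'' - z')) h1 (by simpa using h2)
      (by fun_prop)
    have e : (fun y : E => y + (z'' - z)) = fun y => y + (z' - z) + (z'' - z') := by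
      funext y
      abel
    rw [e]
    exact h3

end Pool.Agent.Helper70.BI
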