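import Pool.Agent.Helper70.BI.StL

/-!
# Project BI, part (E): module V1 (a germ which extends over the second flat ball is trivial).
-/

set_option autoImplicit false

open scoped Manifold ContDiff Topology ComplexConjugate
open Set Filter Pool.Agent.Helper65.Barb Pool.Agent.Helper18.BI

namespace Pool.Agent.Helper70.BI

open Pool.Agent.Helper27.BI (swp StVanT StR2sw)
open Pool.Agent.Helper34.BI (swp_swp swp_mem_neck swp_mem_sph_one rsq_one_swp
  isLocalDiffeomorphAt_swp)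

namespace V1

theorem sp_sub : SP ⊆ flat 1 ∪ neck ∪ sph 0 := by
  rintro p ((h | h) | h)
  · exact Or.inr h
  · exact Or.inl (Or.inl ⟨h.1, h.2.le⟩)
  · exact Or.inl (Or.inr h)

theorem swp_sub {p : R4} (h : p ∈ flat 0 ∪ sph 1 ∪ neck) : swp p ∈ flat 1 ∪ neck ∪ sph 0 := by
  rcases h with (h | h) | h
  · exact Or.inl (Or.inl ⟨h.1, (rsq_one_swp p).le.trans h.2⟩)
  · exact Or.inr (Pool.Agent.Helper34.BI.swp_mem_sph_zero h)
  · exact Or.inl (Or.inr (swp_mem_neck h))

end V1

/-- MODULE V1. -/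
theorem m_V1 (hV : StVanT) (hSw : StR2sw) : StV1 := by
  intro F hF
  have hSP : EmbOn I4 F SP := EmbOn.mono' hF V1.sp_sub
  have h1 : EmbOn I4 (fun p => F (swp p)) (flat 0 ∪ sph 1 ∪ neck) := by
    refine ⟨fun p hp => isLocalDiffeomorphAt_swp (hF.1 (swp p) (V1.swp_sub hp)), ?_⟩
    intro p hp q hq he
    have h2 := hF.2 (V1.swp_sub hp) (V1.swp_sub hq) he
    rw [← swp_swp p, h2, swp_swp]
  have h2 : Thin I4 (fun p => F (swp p)) (fun x => x) :=
    hV R4 R4 I4 R4 (fun p => F (swp p)) h1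
  exact (hSw R4 R4 I4 R4 F (fun x => x) (fun x => x) hSP (fun _ => rfl) (fun _ => rfl)).2 h2

end Pool.Agent.Helper70.BI
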