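import Pool.Agent.Helper70.BI.StF2
import Pool.Agent.Helper18.BI.M_X2

/-!
# Project BI, stage 2, module X2c: a chart of the 4-sphere containing a given compact set
-/

set_option autoImplicit false

open scoped Manifold ContDiff Topology ComplexConjugate
open Set Filter Pool.Agent.Helper65.Barb Pool.Agent.Helper18.BI

namespace Pool.Agent.Helper70.BI

theorem m_X2c : StX2c := by
  intro K _ hK
  obtain ⟨v, hv⟩ : ∃ v : S4, v ∉ K := by
    by_contra hne
    push Not at hne
    have h1 : K = univ := eq_univ_of_forall hne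
    rw [h1, interior_univ] at hK
    have h3 : (⟨EuclideanSpace.single 0 1, by simp⟩ : S4) ∈ (univ : Set S4) := mem_univ _
    rw [hK] at h3
    exact h3
  obtain ⟨e⟩ := X2.exists_equiv
  have : Fact (Module.finrank ℝ (EuclideanSpace ℝ (Fin 5)) = 4 + 1) := ⟨by simp⟩
  have hsrc : (chartAt (EuclideanSpace ℝ (Fin 4)) (-v : S4)).source = {v}ᶜ := by
    change (stereographic' 4 (- -v)).source = _
    rw [neg_neg, stereographic'_source]
  have htgt : (chartAt (EuclideanSpace ℝ (Fin 4)) (-v : S4)).target = univ := by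
    change (stereographic' 4 (- -v)).target = _
    rw [stereographic'_target]
  have hs1 : ContMDiffOn (𝓡 4) (𝓡 4) ∞ (chartAt (EuclideanSpace ℝ (Fin 4)) (-v : S4))
      (chartAt (EuclideanSpace ℝ (Fin 4)) (-v : S4)).source := contMDiffOn_chart
  have hs2 : ContMDiffOn (𝓡 4) (𝓡 4) ∞ (chartAt (EuclideanSpace ℝ (Fin 4)) (-v : S4)).symm
      (chartAt (EuclideanSpace ℝ (Fin 4)) (-v : S4)).target := contMDiffOn_chart_symm
  generalize chartAt (EuclideanSpace ℝ (Fin 4)) (-v : S4) = ch at hsrc htgt hs1 hs2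
  have he : ContMDiff 𝓘(ℝ, R4) (𝓡 4) ∞ e := e.contDiff.contMDiff
  have he' : ContMDiff (𝓡 4) 𝓘(ℝ, R4) ∞ e.symm := e.symm.contDiff.contMDiff
  let δ : PartialDiffeomorph 𝓘(ℝ, R4) (𝓡 4) R4 S4 ∞ :=
    { toFun := fun p => ch.symm (e p)
      invFun := fun y => e.symm (ch y)
      source := univ
      target := ch.source
      map_source' := fun p _ => ch.map_target (by rw [htgt]; exact mem_univ _)
      map_target' := fun y _ => mem_univ _
      left_inv' := fun p _ => by
        rw [ch.right_inv (by rw [htgt]; exact mem_univ _), e.symm_apply_apply]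
      right_inv' := fun y hy => by
        rw [e.apply_symm_apply, ch.left_inv hy]
      open_source := isOpen_univ
      open_target := ch.open_source
      contMDiffOn_toFun := hs2.comp he.contMDiffOn (fun p _ => by rw [htgt]; exact mem_univ _)
      contMDiffOn_invFun := he'.comp_contMDiffOn hs1 }
  have hr : ∀ y, y ≠ v → y ∈ range (fun p => ch.symm (e p)) := by
    intro y hy
    refine ⟨e.symm (ch y), ?_⟩
    change ch.symm (e (e.symm (ch y))) = y
    rw [e.apply_symm_apply, ch.left_inv (by rw [hsrc]; exact hy)]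
  refine ⟨fun p => ch.symm (e p), ⟨fun p _ => ⟨δ, mem_univ _, fun _ _ => rfl⟩, δ.injOn⟩, ?_⟩
  intro y hy
  exact hr y (fun hyv => hv (hyv ▸ hy))

end Pool.Agent.Helper70.BI
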