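import Pool.Agent.Helper34.BI.AsmD
import Pool.Agent.Helper18.BI.M_R3
import Pool.Agent.Helper18.BI.M_R2
import Pool.Agent.Helper18.BI.M_R1
import Pool.Agent.Helper18.BI.M_R0
import Pool.Agent.Helper70.BI.M_PT
import Pool.Agent.Helper70.BI.M_SM
import Pool.Agent.Helper70.BI.M_TR
import Pool.Agent.Helper70.BI.M_GL
import Pool.Agent.Helper70.BI.M_LOC
import Pool.Agent.Helper70.BI.M_DET
import Pool.Agent.Helper70.BI.M_C1
import Pool.Agent.Helper70.BI.M_CL
import Pool.Agent.Helper70.BI.M_CTR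
import Pool.Agent.Helper70.BI.M_RM
import Pool.Agent.Helper70.BI.M_RG
import Pool.Agent.Helper70.BI.M_HL
import Pool.Agent.Helper70.BI.M_NF1
import Pool.Agent.Helper70.BI.M_NF2
import Pool.Agent.Helper70.BI.M_NF
import Pool.Agent.Helper70.BI.M_HOM
import Pool.Agent.Helper70.BI.M_SYM
import Pool.Agent.Helper70.BI.M_PATH
import Pool.Agent.Helper70.BI.M_ARC3
import Pool.Agent.Helper70.BI.M_AG
import Pool.Agent.Helper70.BI.M_R3T
import Pool.Agent.Helper70.BI.M_R3
import Pool.Agent.Helper70.BI.M_W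
import Pool.Agent.Helper70.BI.M_V1
import Pool.Agent.Helper70.BI.M_ROT
import Pool.Agent.Helper70.BI.M_NO1
import Pool.Agent.Helper70.BI.M_NO
import Pool.Agent.Helper70.BI.M_SPI
import Pool.Agent.Helper70.BI.M_XC
import Pool.Agent.Helper70.BI.M_ARL
import Pool.Agent.Helper70.BI.M_FML1
import Pool.Agent.Helper70.BI.M_FML
import Pool.Agent.Helper70.BI.M_MWL
import Pool.Agent.Helper70.BI.M_LGG
import Pool.Agent.Helper70.BI.M_TH
import Pool.Agent.Helper70.BI.M_OBP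
import Pool.Agent.Helper70.BI.M_OB1
import Pool.Agent.Helper70.BI.M_OB0
import Pool.Agent.Helper70.BI.M_Main2
import Pool.Agent.Helper70.BI.M_EI
import Pool.Agent.Helper70.BI.M_X2c
import Pool.Agent.Helper70.BI.M_ThM
import Pool.Agent.Helper70.BI.M_W4
import Pool.Agent.Helper70.BI.M_Final2

/-!
# Project BI, part (E): assembly (all modules except `StR3J`, `StLAS`)
-/

set_option autoImplicit false

open Pool.Agent.Helper18.BI

namespace Pool.Agent.Helper70.BI

open Pool.Agent.Helper27.BI (hVanT hR2sw hRefH hRefS hADD2 m_PERT)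
open Pool.Agent.Helper34.BI (hCH hCO hCRP)

theorem hFam : StFam := stFam_of hT2
theorem hPT : StPT := m_PT
theorem hSM : StSM := m_SM hPT
theorem hTR : StTR := m_TR hPT
theorem hGL : StGL := m_GL
theorem hLOC : StLOC := m_LOC hSM hTR hGL
theorem hDET : StDET := m_DET
theorem hC1 : StC1 := m_C1 hTR m_PERT
theorem hCL : StCL := m_CL
theorem hCTR : StCTR := m_CTR hCL hFam
theorem hRM : StRM := m_RM
theorem hRG : StRG := m_RG hFam
theorem hHL : StHL := m_HL hFam hFr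
theorem hNF1 : StNF1 := m_NF1 hC1 hLOC hDET hFam
theorem hNF2 : StNF2 := m_NF2 hRG
theorem hNF : StNF := m_NF hNF1 hNF2 hRM hRG hDET hFam
theorem hHOM : StHOM := m_HOM hCL hCTR hHL
theorem hUT : StUT := stUT hNF hHOM
theorem hSYM : StSYM := m_SYM
theorem hPATH : StPATH := m_PATH
theorem hARC3 : StARC3 := m_ARC3 hPATH
theorem hAG : StAG := m_AG hADD2 hT2 hT3 hT5 hT6 hImp hS4 hA1 hCI
theorem hR3T : StR3T := m_R3T hDET
theorem hV1 : StV1 := m_V1 hVanT hR2sw
theorem hROT : StROT := m_ROT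
theorem hNO1 : StNO1 := m_NO1 hPATH
theorem hNO : StNO := m_NO hNO1 hCTR hCL hCO
theorem hSPI : StSPI := m_SPI hROT hA1 hFam
theorem hXC : StXC := m_XC
theorem hARL : StARL := m_ARL hCH
theorem hFML1 : StFML1 := m_FML1 hCL hCTR
theorem hFML : StFML := m_FML hFML1 hCL hCTR hFr hCH
theorem hMWL : StMWL := m_MWL hT2 hCI hR2sw
theorem hLGG : StLGG := m_LGG
theorem hTH : StTH := m_TH hCRP hMWL
theorem hEI : StEI := m_EI
theorem hX2c : StX2c := m_X2c
theorem hThM : StThM := m_ThM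
theorem hW4 : StW4 := m_W4 hEI hX2c hThM hX1 hT2 hCI hS4

theorem hR3_of (hR3J : StR3J) : StR3 := m_R3 hR3J hAG hR3T hT2
theorem hW_of (hR3J : StR3J) : StW := m_W hUT hSYM (hR3_of hR3J) hT2 hCI hRefH hRefS hR2sw
theorem hOBP_of (hLAS : StLAS) : StOBP :=
  m_OBP hLAS hXC hARL hFML hTH hLGG hMWL hNF1 hRM hRG hNF2
theorem hOB1_of (hLAS : StLAS) : StOB1 := m_OB1 (hOBP_of hLAS) hRefH hT2 hCI
theorem hOB0_of (hLAS : StLAS) : StOB0 := m_OB0 (hOB1_of hLAS) hR2sw hT2 hCI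
theorem hMain2_of (hLAS : StLAS) : StMain2 :=
  m_Main2 (hOB0_of hLAS) hCRP hMWL hLGG hCH hCO hFr hT2

end Pool.Agent.Helper70.BI
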