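import Pool.Agent.Helper65.Barb.Defs

/-!
# Barbells in the 4-sphere: the definitions used in the statement of the main theorem
-/

set_option autoImplicit false

open scoped Manifold ContDiff
open Pool.Agent.Helper65.Barb

namespace Pool.Agent.Helper70.Fin

/-- Partial diffeomorphisms from `R4` to the 4-sphere (open embeddings of open subsets of `R4`). -/
abbrev Emb : Type := PartialDiffeomorph 𝓘(ℝ, R4) (𝓡 4) R4 S4 ∞

/-- the core sphere of the cuff around the arc `{(s, c, 0)}` -/
def coreSphere (c : ℝ) : Set R4 := {p | p.1 = 1 / 2 ∧ rsq c p = (1 / 5) ^ 2}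

/-- the flat 3-ball bounded by `coreSphere c` -/
def flatBall (c : ℝ) : Set R4 := {p | p.1 = 1 / 2 ∧ rsq c p ≤ (1 / 5) ^ 2}

/-- `φ` is the implantation of the barbell `B` in the 4-sphere (for some barbell map). -/
def IsImplantation (B : Emb) (φ : S4 → S4) : Prop :=
  NB ⊆ B.source ∧ ∃ β, IsBarbellMap β ∧ φ = implantation B β

/-- The two core spheres of the barbell `B` bound disjoint embedded 3-balls: the images of the two
flat balls under an open embedding which agrees with `B` on the two core spheres. -/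
def BoundsDisjointBalls (B : Emb) : Prop :=
  ∃ δ : Emb, flatBall 0 ∪ flatBall 1 ⊆ δ.source ∧ ∀ p ∈ coreSphere 0 ∪ coreSphere 1, δ p = B p

/-- The barbells `B` and `B'` agree near the two core spheres. -/
def SameCuffs (B B' : Emb) : Prop :=
  ∃ U : Set R4, IsOpen U ∧ coreSphere 0 ∪ coreSphere 1 ⊆ U ∧ Set.EqOn B B' U

/-- `W` is isotopic to all its conjugates by diffeomorphisms of the 4-sphere. -/
def IsCentral (W : S4 → S4) : Prop :=
  ∀ Ψ Ψ' : S4 → S4, ContMDiff (𝓡 4) (𝓡 4) ∞ Ψ → ContMDiff (𝓡 4) (𝓡 4) ∞ Ψ' →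
    (∀ x, Ψ (Ψ' x) = x) → (∀ x, Ψ' (Ψ x) = x) → Isot (𝓡 4) (fun x => Ψ (W (Ψ' x))) W

end Pool.Agent.Helper70.Fin
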