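import Pool.Agent.Helper70.BI.StU

/-!
# Project BI, part (E), module CTR: contraction does not change the class
-/

set_option autoImplicit false

open scoped Manifold ContDiff Topology ComplexConjugate
open Set Filter Pool.Agent.Helper65.Barb Pool.Agent.Helper18.BI

namespace Pool.Agent.Helper70.BI

open Pool.Agent.Helper34.BI (cfac BarData barFam)

namespace CTR

private theorem cfac_pos {lam : ℝ} (hl : lam ∈ Ioc (0 : ℝ) 1) (q : ℝ) :
    0 < cfac lam q ∧ cfac lam q ≤ 1 := by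
  have h0 : 0 ≤ step ((q - 1 / 20) / (1 / 25)) := Real.smoothTransition.nonneg _
  have h1 : step ((q - 1 / 20) / (1 / 25)) ≤ 1 := Real.smoothTransition.le_one _
  unfold cfac
  constructor
  · have : 0 ≤ (1 - lam) * step ((q - 1 / 20) / (1 / 25)) :=
      mul_nonneg (by linarith [hl.2]) h0
    linarith [hl.1]
  · nlinarith [hl.1, hl.2]

private theorem rsq_ax (c a : ℝ) : rsq c (ax a) = (a - c) ^ 2 := by
  simp [rsq, nsq, ax]

private theorem rsq_self (c : ℝ) : rsq c (ax c) = 0 := by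
  rw [rsq_ax]; ring

private theorem mem_sp {c : ℝ} (hc : c = 0 ∨ c = 1) {p : R4} (hp : p ∈ SP) :
    p ∈ sph c ∨ p ∈ sph (1 - c) ∨ p ∈ neck := by
  rcases hc with rfl | rfl
  · rcases hp with (h | h) | h
    · exact Or.inl h
    · rw [show (1 : ℝ) - 0 = 1 by norm_num]; exact Or.inr (Or.inl h)
    · exact Or.inr (Or.inr h)
  · rcases hp with (h | h) | h
    · rw [show (1 : ℝ) - 1 = 0 by norm_num]; exact Or.inr (Or.inl h)
    · exact Or.inl h
    · exact Or.inr (Or.inr h)

private theorem sph_sub_flat (c : ℝ) {p : R4} (h : p ∈ sph c) : p ∈ flat c := ⟨h.1, h.2.le⟩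

private theorem sph_far {c : ℝ} (hc : c = 0 ∨ c = 1) {p : R4} (h : p ∈ sph (1 - c)) :
    9 / 100 ≤ rsq c p := by
  have h2 := h.2
  simp only [rsq, nsq] at h2 ⊢
  have h3 : (p.2.1 - (1 - c)) ^ 2 ≤ (1 / 5) ^ 2 := by nlinarith
  have h4 := abs_le_of_sq_le_sq' h3 (by norm_num)
  rcases hc with rfl | rfl
  · nlinarith [h4.1, h4.2, sq_nonneg p.2.2.re, sq_nonneg p.2.2.im]
  · nlinarith [h4.1, h4.2, sq_nonneg p.2.2.re, sq_nonneg p.2.2.im]

private theorem neck_eq {p : R4} (h : p ∈ neck) : p = ax p.2.1 :=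
  Prod.ext h.1 (Prod.ext rfl h.2.2.2)

private theorem ax_notMem {c : ℝ} (hc : c = 0 ∨ c = 1) : ax c ∉ SP := by
  intro h
  rcases h with (h | h) | h
  · have := h.2
    rw [rsq_ax] at this
    rcases hc with rfl | rfl <;> norm_num at this
  · have := h.2
    rw [rsq_ax] at this
    rcases hc with rfl | rfl <;> norm_num at this
  · have h1 := h.2.1
    have h2 := h.2.2.1
    simp only [ax] at h1 h2
    rcases hc with rfl | rfl
    · norm_num at h1
    · norm_num at h2

/-- the contraction maps the spine into the spine with the flat ball -/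
private theorem maps (hCL : StCL) {c : ℝ} (hc : c = 0 ∨ c = 1) {mu : ℝ}
    (hm : mu ∈ Ioc (0 : ℝ) 1) {p : R4} (hp : p ∈ SP) : clc c mu p ∈ SP ∪ flat c := by
  obtain ⟨-, -, h⟩ := hCL c hc
  obtain ⟨-, hfst, -, hfix, hax, hle, -⟩ := h mu hm
  rcases mem_sp hc hp with h | h | h
  · exact Or.inr ⟨by rw [hfst]; exact h.1, (hle p).trans h.2.le⟩
  · rw [hfix p (sph_far hc h)]
    exact Or.inl hp
  · rw [neck_eq h, hax]
    obtain ⟨k0, k1⟩ := cfac_pos hm ((p.2.1 - c) ^ 2)
    set k := cfac mu ((p.2.1 - c) ^ 2) with hk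
    have a1 := h.2.1
    have a2 := h.2.2.1
    rcases hc with rfl | rfl
    · by_cases hb : 1 / 5 ≤ k * p.2.1
      · refine Or.inl (Or.inr ⟨rfl, ?_, ?_, rfl⟩)
        · simp only [ax]; linarith
        · simp only [ax]; nlinarith
      · refine Or.inr ⟨rfl, ?_⟩
        rw [rsq_ax]
        have : 0 < k * p.2.1 := mul_pos k0 (by linarith)
        simp only [sub_zero, zero_add]
        nlinarith
    · by_cases hb : 1 + k * (p.2.1 - 1) ≤ 4 / 5
      · refine Or.inl (Or.inr ⟨rfl, ?_, ?_, rfl⟩)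
        · simp only [ax]; nlinarith
        · simp only [ax]; linarith
      · refine Or.inr ⟨rfl, ?_⟩
        rw [rsq_ax]
        have : k * (p.2.1 - 1) < 0 := mul_neg_of_pos_of_neg k0 (by linarith)
        have h5 : -(1 / 5) < k * (p.2.1 - 1) := by linarith
        nlinarith

/-- no double points between the contracted cuff and the bar -/
private theorem key (hCL : StCL) {c : ℝ} (hc : c = 0 ∨ c = 1) {F : R4 → R4} {γ : ℝ}
    (injF : InjOn F (flat c ∪ sph (1 - c))) (hγ : core F γ = F (ax c))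
    (only : ∀ a ∈ Icc (1 / 5 : ℝ) (4 / 5), core F a ∈ F '' flat c → a = 1 / 5 + 3 / 5 * c ∨ a = γ)
    {mu : ℝ} (hm : mu ∈ Ioc (0 : ℝ) 1) {p₀ q : R4} (hp₀ : p₀ ∈ SP) (hp : clc c mu p₀ ∈ flat c)
    (hq : q ∈ SP) (he : F (clc c mu p₀) = F q) : clc c mu p₀ = q := by
  obtain ⟨-, -, h⟩ := hCL c hc
  obtain ⟨hemb, -, -, -, hax, -, -⟩ := h mu hm
  rcases mem_sp hc hq with h | h | h
  · exact injF (Or.inl hp) (Or.inl (sph_sub_flat c h)) he
  · exact injF (Or.inl hp) (Or.inr h) he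
  · have hc' : ax c ∈ flat c := ⟨rfl, by rw [rsq_self]; norm_num⟩
    have h1 : core F q.2.1 ∈ F '' flat c := by
      refine ⟨clc c mu p₀, hp, ?_⟩
      unfold core
      rw [← neck_eq h]
      exact he
    rcases only q.2.1 ⟨h.2.1, h.2.2.1⟩ h1 with h2 | h2
    · refine injF (Or.inl hp) (Or.inl ?_) he
      rw [neck_eq h, h2]
      refine ⟨rfl, ?_⟩
      rw [rsq_ax]
      rcases hc with rfl | rfl <;> norm_num
    · exfalso
      have h3 : F (clc c mu p₀) = F (ax c) := by
        rw [← hγ, he, ← h2]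
        unfold core
        rw [← neck_eq h]
      have h4 : clc c mu p₀ = ax c := injF (Or.inl hp) (Or.inl hc') h3
      have h5 : clc c mu (ax c) = ax c := by
        rw [hax]
        simp
      have h6 : p₀ = ax c := hemb.2 (mem_univ _) (mem_univ _) (h4.trans h5.symm)
      exact ax_notMem hc (h6 ▸ hp₀)

/-- the germ is injective on the contracted spine -/
private theorem inj (hCL : StCL) {c : ℝ} (hc : c = 0 ∨ c = 1) {F : R4 → R4} {γ : ℝ}
    (injS : InjOn F SP) (injF : InjOn F (flat c ∪ sph (1 - c))) (hγ : core F γ = F (ax c))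
    (only : ∀ a ∈ Icc (1 / 5 : ℝ) (4 / 5), core F a ∈ F '' flat c → a = 1 / 5 + 3 / 5 * c ∨ a = γ)
    {mu : ℝ} (hm : mu ∈ Ioc (0 : ℝ) 1) : InjOn (fun p => F (clc c mu p)) SP := by
  intro p hp q hq he
  obtain ⟨-, -, h⟩ := hCL c hc
  obtain ⟨hemb, -, -, -, -, -, -⟩ := h mu hm
  have he' : F (clc c mu p) = F (clc c mu q) := he
  refine hemb.2 (mem_univ _) (mem_univ _) ?_
  rcases maps hCL hc hm hp with h1 | h1
  · rcases maps hCL hc hm hq with h2 | h2
    · exact injS h1 h2 he'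
    · exact (key hCL hc injF hγ only hm hq h2 h1 he'.symm).symm
  · rcases maps hCL hc hm hq with h2 | h2
    · exact key hCL hc injF hγ only hm hp h1 h2 he'
    · exact injF (Or.inl h1) (Or.inl h2) he'

end CTR

/-- **CTR** (contraction does not change the class). -/
theorem m_CTR (hCL : StCL) (hF : StFam) : StCTR := by
  intro c F γ hc hloc injS injF hγ only lam hlam
  obtain ⟨hsm, hone, hcl⟩ := hCL c hc
  have emb : ∀ mu ∈ Ioc (0 : ℝ) 1, EmbOn I4 (fun p => F (clc c mu p)) SP := by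
    intro mu hm
    refine ⟨fun p hp => ?_, CTR.inj hCL hc injS injF hγ only hm⟩
    exact ld_comp ((hcl mu hm).1.1 p (mem_univ p)) (hloc _ (CTR.maps hCL hc hm hp))
  have hmu : ∀ t ∈ Icc (0 : ℝ) 1, 1 - t * (1 - lam) ∈ Ioc (0 : ℝ) 1 := by
    intro t ht
    constructor
    · nlinarith [ht.1, ht.2, hlam.1, hlam.2]
    · nlinarith [ht.1, ht.2, hlam.1, hlam.2]
  have hm : ContDiff ℝ ∞ (fun z : ℝ × R4 => clc c (1 - z.1 * (1 - lam)) z.2) := by
    have h1 : ContDiff ℝ ∞ (fun z : ℝ × R4 => ((1 - z.1 * (1 - lam), z.2) : ℝ × R4)) :=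
      (contDiff_const.sub (contDiff_fst.mul contDiff_const)).prodMk contDiff_snd
    exact hsm.comp h1
  have hfam : FamOn I4 (fun z : ℝ × R4 => F (clc c (1 - z.1 * (1 - lam)) z.2)) SP := by
    rw [famOn_iff]
    refine ⟨fun t ht p hp => ?_, fun t ht => emb _ (hmu t ht)⟩
    have h1 := (ld_iff.1 (hloc _ (CTR.maps hCL hc (hmu t ht) hp))).1
    have h2 : ContinuousAt (fun z : ℝ × R4 => clc c (1 - z.1 * (1 - lam)) z.2) (t, p) :=
      hm.continuous.continuousAt
    filter_upwards [h2.eventually h1] with z hz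
    exact hz.comp z hm.contDiffAt
  refine ⟨emb lam hlam, ?_⟩
  have h := hF _ hfam
  have e0 : (fun p : R4 => F (clc c (1 - ((0 : ℝ), p).1 * (1 - lam)) ((0 : ℝ), p).2)) = F := by
    funext p
    simp [hone]
  have e1 : (fun p : R4 => F (clc c (1 - ((1 : ℝ), p).1 * (1 - lam)) ((1 : ℝ), p).2)) =
      fun p => F (clc c lam p) := by
    funext p
    simp
  rw [e0, e1] at h
  exact h

end Pool.Agent.Helper70.BI
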