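import Pool.Agent.Helper70.BI.StL

/-!
# Project BI, part (E), module OBP

`StOBP`: a germ with positive orientation whose second cuff bounds a flat ball met once by the bar
has class `1` or `W`.  Assembly of the statements of section L.
-/

set_option autoImplicit false

open scoped Manifold ContDiff Topology ComplexConjugate
open Set Filter Pool.Agent.Helper65.Barb Pool.Agent.Helper18.BI

namespace Pool.Agent.Helper70.BI

/-- Existence of a germ in normal form with the bar passing at the parameter `2/5`. -/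
private theorem exists_NB (hNF1 : StNF1) (hRM : StRM) (hRG : StRG) (hNF2 : StNF2) {F : R4 → R4}
    {γ e : ℝ} (he : e = 1 ∨ e = -1) (hF : Br 1 F γ e) (hd : 0 < (fderiv ℝ F (ax (4 / 5))).det) :
    ∃ (F₁ : R4 → R4) (δ : ℝ), Eqv F F₁ ∧ NB 1 F₁ (2 / 5) e δ := by
  have h45 : (1 / 5 + 3 / 5 * 1 : ℝ) = 4 / 5 := by norm_num
  obtain ⟨F₂, G, hE, hB, ⟨τ, τs, τv, τd, τF⟩, -, hid, -, -, -, -⟩ :=
    hNF1 1 F γ e univ (Or.inr rfl) hF (by rw [h45]; exact hd) isOpen_univ isPreconnected_univ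
      (mem_univ _) (mem_univ _)
  have ce : ContinuousAt (fun a : ℝ => 1 / 2 + e * (a - 2 / 5)) (2 / 5) := by fun_prop
  have ve : (1 / 2 + e * ((2 : ℝ) / 5 - 2 / 5) : ℝ) = 1 / 2 := by ring
  have μs : ∀ᶠ a in 𝓝 (2 / 5 : ℝ), ContDiffAt ℝ ∞ (fun a => τ (1 / 2 + e * (a - 2 / 5))) a := by
    have h1 : ∀ᶠ a in 𝓝 (2 / 5 : ℝ), ContDiffAt ℝ ∞ τ (1 / 2 + e * (a - 2 / 5)) := by
      have := ce.tendsto
      rw [ve] at this
      exact this.eventually τs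
    filter_upwards [h1] with a ha
    exact ha.comp a (by fun_prop)
  have μd : 0 < deriv (fun a => τ (1 / 2 + e * (a - 2 / 5))) (2 / 5) := by
    have h1 : HasDerivAt τ (deriv τ (1 / 2)) (1 / 2 + e * ((2 : ℝ) / 5 - 2 / 5)) := by
      rw [ve]
      exact (τs.self_of_nhds.differentiableAt (by simp)).hasDerivAt
    have h2 : HasDerivAt (fun a : ℝ => 1 / 2 + e * (a - 2 / 5)) (e * 1) (2 / 5) :=
      (((hasDerivAt_id (2 / 5 : ℝ)).sub_const _).const_mul e).const_add _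
    have h3 : HasDerivAt (fun a : ℝ => τ (1 / 2 + e * (a - 2 / 5))) (deriv τ (1 / 2) * (e * 1))
        (2 / 5) := HasDerivAt.comp (2 / 5 : ℝ) h1 h2
    rw [h3.deriv]
    nlinarith [τd]
  obtain ⟨m, ms, md, mμ, η, hη, mid⟩ := hRM.1 (1 / 5) (4 / 5) (2 / 5) γ
    (fun a => τ (1 / 2 + e * (a - 2 / 5))) (by norm_num) (by norm_num) hB.mem.1 hB.mem.2 μs
    (by show τ (1 / 2 + e * ((2 : ℝ) / 5 - 2 / 5)) = γ; rw [ve, τv]) μd
  have hm : RepOK m := ⟨ms, md, η, hη, mid⟩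
  obtain ⟨δ₀, hδ, hNB⟩ := hNF2 1 F₂ γ (2 / 5) e τ m (Or.inr rfl) he hB hid τv τF hm
    ⟨by norm_num, by norm_num⟩ mμ
  have hS : EmbOn I4 F₂ SP := ⟨fun p hp => hB.loc p (Or.inl hp), hB.inj⟩
  obtain ⟨-, -, -, -, -, h6⟩ := hRG m hm
  exact ⟨fun p => F₂ (repm m p), δ₀, hE.trans (h6 F₂ hS).2, hNB δ₀ ⟨hδ, le_rfl⟩⟩

theorem m_OBP (hLAS : StLAS) (hXC : StXC) (hARL : StARL) (hFML : StFML) (hTH : StTH)
    (hLGG : StLGG) (hMWL : StMWL) (hNF1 : StNF1) (hRM : StRM) (hRG : StRG) (hNF2 : StNF2) :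
    StOBP := by
  intro W F γ e hW he hF hd φ hφ
  obtain ⟨F₁, δ, hE, hNB⟩ := exists_NB hNF1 hRM hRG hNF2 he hF hd
  obtain ⟨r, δ', F', r0, -, rδ, far, farc, hNB', hid, near, low, high⟩ :=
    hLAS F₁ e δ 1 he hNB one_pos
  have hL : LasPair F₁ F' e δ δ' r := ⟨hNB, hNB', r0, rδ, far, farc, near, low, high⟩
  obtain ⟨c, c', μ, μ0, μδ, μδ', hc, hc', hcc⟩ := hXC F₁ F' e δ δ' r he hL
  obtain ⟨δ₂, H, h1, h2, hH⟩ := hARL F₁ F' e δ δ' r μ c c' he hL μ0 μδ μδ' hc hc' hcc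
  obtain ⟨J, hJ, hJ0, hJ1, e0, e1⟩ := hFML F₁ F' e δ δ' r δ₂ H he hL h1 h2 hH
  obtain ⟨-, hrefl, hsymm, htrans, hfam, -, -⟩ := hMWL W hW
  have key : MW W (fun p => J (0, p)) (fun p => J (1, p)) :=
    hLGG (MW W) J hrefl hsymm htrans (hfam J) hJ.smooth (fun t p hp => hJ.loc t p (Or.inl hp))
      hJ.finite (fun t hn ε hε => hTH W J e t ε hW he hJ hn hε) hJ0 hJ1
  exact key (fun x => x) φ ((e0 _).1 hid) ((e1 φ).1 ((hE φ).1 hφ))

end Pool.Agent.Helper70.BI
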