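import Pool.Agent.Helper70.BI.StS

/-!
# Project BI, part (E), module W: the class of theta germs
-/

set_option autoImplicit false

open scoped Manifold ContDiff Topology ComplexConjugate
open Set Filter Pool.Agent.Helper65.Barb Pool.Agent.Helper18.BI

namespace Pool.Agent.Helper70.BI

open Pool.Agent.Helper27.BI (refh refs swp IsKap StVanT StRefH StRefS StR2sw StADD2)

theorem Br.embOn {c γ e : ℝ} {F : R4 → R4} (h : Br c F γ e) : EmbOn I4 F SP :=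
  ⟨fun p hp => h.loc p (Or.inl hp), h.inj⟩

theorem m_W (hUT : StUT) (hSYM : StSYM) (hR3 : StR3) (hT2 : StT2) (hCI : StCI)
    (hRefH : StRefH) (hRefS : StRefS) (hSw : StR2sw) : StW := by
  obtain ⟨-, tii, -, tiv, -, -, tvii⟩ := hT2 R4 R4 I4 R4
  obtain ⟨-, cs, cself, ct, cc, -, cex, -, -, -⟩ := hCI R4 R4 I4 R4
  -- the symmetry `refs ∘ refh`
  have step1 : ∀ (F φ : R4 → R4) (α β e d : ℝ), Theta F α β e d →
      0 < (fderiv ℝ F (ax (1 / 2))).det → Thin I4 F φ →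
      ∃ G : R4 → R4, Theta G α β (-e) (-d) ∧ 0 < (fderiv ℝ G (ax (1 / 2))).det ∧
        Thin I4 G φ := by
    intro F φ α β e d hF o ht
    obtain ⟨φ', -, i1, i2⟩ := cex φ (tvii F φ ht)
    obtain ⟨⟨h1, -, h2⟩, -, -, -⟩ := hSYM F α β e d hF
    have t1 : Thin I4 (fun p => F (refh p)) φ' :=
      (hRefH R4 R4 I4 R4 F φ φ' hF.a.embOn i1 i2).1 ht
    obtain ⟨-, ⟨h3, h4⟩, -, -⟩ := hSYM _ α β e d h1
    have t2 : Thin I4 (fun p => F (refh (refs p))) φ :=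
      (hRefS R4 R4 I4 R4 (fun p => F (refh p)) φ' φ h1.a.embOn i2 i1).1 t1
    exact ⟨_, h3, h4 (h2 o), t2⟩
  -- uniqueness
  have uniq : ∀ (F G φ : R4 → R4) (α β α' β' e d : ℝ), (e = 1 ∨ e = -1) → (d = 1 ∨ d = -1) →
      Theta F α β e d → Theta G α' β' e d → 0 < (fderiv ℝ F (ax (1 / 2))).det →
      0 < (fderiv ℝ G (ax (1 / 2))).det → Thin I4 F φ → Thin I4 G φ := by
    intro F G φ α β α' β' e d he hd hF hG oF oG ht
    exact (hUT F G α β α' β' e d he hd hF hG oF oG φ).1 ht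
  obtain ⟨F₁, F₂, α₁, α₂, β₁, β₂, W, φ₂, th1, th2, o1, o2, t1, t2, h12⟩ := hR3 1 (Or.inl rfl)
  obtain ⟨W', hW', i1, i2⟩ := cex W (tvii F₁ W t1)
  -- `W ~ W'`
  have hWW : CIsot I4 W W' := by
    obtain ⟨G, g1, g2, g3⟩ := step1 F₁ W α₁ β₁ 1 1 th1 o1 t1
    obtain ⟨-, -, ⟨s1, s2⟩, -⟩ := hSYM F₁ α₁ β₁ 1 1 th1
    have s3 : Thin I4 (fun p => F₁ (swp p)) W' :=
      (hSw R4 R4 I4 R4 F₁ W W' th1.a.embOn i1 i2).1 t1
    have s4 : Thin I4 G W' :=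
      uniq _ G W' _ _ _ _ (-1) (-1) (Or.inr rfl) (Or.inr rfl) s1 g1 (s2 o1) g2 s3
    exact tii G W W' g3 s4
  have hsq : CIsot I4 (fun x => W (W x)) (fun x => x) := by
    have h := cc W W W W' (cself W W' hWW) hWW
    have e : (fun x => W (W' x)) = fun x => x := funext i1
    rwa [e] at h
  -- the class of `F₂`
  have t2' : Thin I4 F₂ W := by
    have h := cc _ _ W' W' h12 hW'
    have e : (fun x => φ₂ (W (W' x))) = φ₂ := funext fun x => by rw [i1]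
    have h' : CIsot I4 W' φ₂ := by
      have e' : (fun x => φ₂ (W (W' x))) = φ₂ := e
      simpa [e'] using h
    exact tiv F₂ φ₂ W t2 (ct _ _ _ (cs _ _ h') (cs _ _ hWW))
  -- one positive germ for each pair of signs
  have ex : ∀ e d : ℝ, (e = 1 ∨ e = -1) → (d = 1 ∨ d = -1) → ∃ (G : R4 → R4) (α β : ℝ),
      Theta G α β e d ∧ 0 < (fderiv ℝ G (ax (1 / 2))).det ∧ Thin I4 G W := by
    intro e d he hd
    rcases he with rfl | rfl <;> rcases hd with rfl | rfl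
    · exact ⟨F₁, α₁, β₁, th1, o1, t1⟩
    · obtain ⟨G, g1, g2, g3⟩ := step1 F₂ W α₂ β₂ (-1) 1 th2 o2 t2'
      rw [neg_neg] at g1
      exact ⟨G, α₂, β₂, g1, g2, g3⟩
    · exact ⟨F₂, α₂, β₂, th2, o2, t2'⟩
    · obtain ⟨G, g1, g2, g3⟩ := step1 F₁ W α₁ β₁ 1 1 th1 o1 t1
      exact ⟨G, α₁, β₁, g1, g2, g3⟩
  -- positive germs
  have pos : ∀ (F : R4 → R4) (α β e d : ℝ), (e = 1 ∨ e = -1) → (d = 1 ∨ d = -1) →
      Theta F α β e d → 0 < (fderiv ℝ F (ax (1 / 2))).det → Thin I4 F W := by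
    intro F α β e d he hd hF o
    obtain ⟨G, α', β', g1, g2, g3⟩ := ex e d he hd
    exact uniq G F W _ _ _ _ e d he hd g1 hF g2 o g3
  refine ⟨W, F₁, α₁, β₁, th1, t1, hsq, ?_⟩
  intro F α β e d he hd hF
  obtain ⟨⟨h1, h2, -⟩, -, -, h0⟩ := hSYM F α β e d hF
  rcases lt_or_gt_of_ne h0 with hneg | hpos
  · have h3 := pos _ α β e d he hd h1 (h2 hneg)
    have h4 : Thin I4 F W' := (hRefH R4 R4 I4 R4 F W' W hF.a.embOn i2 i1).2 h3
    exact tiv F W' W h4 (cs _ _ hWW)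
  · exact pos F α β e d he hd hF hpos

end Pool.Agent.Helper70.BI
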