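import Pool.Agent.Helper70.BI.StU
import Pool.Agent.Helper27.BI.StG

/-!
# Project BI, part (E), section S: symmetries of theta germs, and the class `W`

Statements with complete proofs in the docstrings.  The result of this file is `StW`: all theta
germs have the same class `W`, and `W² = 1`.
-/

set_option autoImplicit false

open scoped Manifold ContDiff Topology ComplexConjugate
open Set Filter Pool.Agent.Helper65.Barb Pool.Agent.Helper18.BI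

namespace Pool.Agent.Helper70.BI

open Pool.Agent.Helper34.BI (BarData barFam)
open Pool.Agent.Helper27.BI (refh refs swp IsKap StVanT StRefH StRefS StR2sw StADD2)

/-- **SYM** (symmetries of theta germs).
*Proof.* `refh (s, a, w) = (s, a, conj w)`, `refs (s, a, w) = (1 - s, a, w)`, `swp (s, a, w) = (s, 1 - a, conj w)`
are affine involutions of `R4` preserving `SP`, `FB`; the first two preserve each of `flat c`, `sph c`, `neck` and
fix the axis `ax a`; `swp` exchanges `flat 0`, `flat 1` and `sph 0`, `sph 1`, and `swp (ax a) = ax (1 - a)`.  Their linear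
parts have determinant `-1`, `-1`, `+1`.  So `LD`, `InjOn`, disjointness, `only` are transported;
`core (F ∘ refh) = core (F ∘ refs) = core F`, `core (F ∘ swp) a = core F (1 - a)`.  `CrossAt` for `F ∘ refh`:
`x₀' = conj x₀`, `l' = l`.  For `F ∘ refs`: `x₀' = x₀`, `l' = -l`.  For `F ∘ swp` and the ball `flat 0` at the parameter
`1 - β`: `x₀'` = image of the crossing point of `flat 1`, `fderiv (F ∘ swp) (ax (1-β)) (0,1,0) = - fderiv F (ax β) (0,1,0)`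
`= fderiv F (1/2, x₀) (-l, -v)`, so `l' = -l` and the sign is `-d`.  Determinants: chain rule
(`ax (1/2)` is fixed by all three maps; `ContinuousLinearMap.det` of a composition is the product). -/
def StSYM : Prop :=
  ∀ (F : R4 → R4) (α β e d : ℝ), Theta F α β e d →
    (Theta (fun p => F (refh p)) α β e d ∧
      ((fderiv ℝ F (ax (1 / 2))).det < 0 → 0 < (fderiv ℝ (fun p => F (refh p)) (ax (1 / 2))).det) ∧
      (0 < (fderiv ℝ F (ax (1 / 2))).det →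
        (fderiv ℝ (fun p => F (refh p)) (ax (1 / 2))).det < 0)) ∧
    (Theta (fun p => F (refs p)) α β (-e) (-d) ∧
      ((fderiv ℝ F (ax (1 / 2))).det < 0 →
        0 < (fderiv ℝ (fun p => F (refs p)) (ax (1 / 2))).det)) ∧
    (Theta (fun p => F (swp p)) (1 - β) (1 - α) (-d) (-e) ∧
      (0 < (fderiv ℝ F (ax (1 / 2))).det → 0 < (fderiv ℝ (fun p => F (swp p)) (ax (1 / 2))).det)) ∧
    (fderiv ℝ F (ax (1 / 2))).det ≠ 0

/-- **PATH** (smooth paths with prescribed ends in a connected open set).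
*Proof.* (1) For `x, y ∈ U` there is a smooth `g : ℝ → R4` with values in `U`, `g = x` on `(-∞, 0]`, `g = y` on
`[1, ∞)`: this relation is symmetric, transitive (concatenate, rescale), and holds for `y` in a ball
around `x` contained in `U` (`g t = x + step t • (y - x)`); `IsPreconnected.induction₂`.
(2) Let `k₀ : ℝ → ℝ` be smooth with `k₀ a = a` for `a ≤ a₀ + η/2`, `k₀ a ∈ [a₀ + η/2, a₀ + η]` for `a ≥ a₀ + η/2`, and
`k₀ a = κ₀` constant for `a ≥ a₀ + 7η/8` (e.g. `k₀ a = a + (a₀ + 5η/8 - a) * step (8 (a - a₀ - η/2) / (3η))`: a convex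
combination of `a ∈ [a₀ + η/2, a₀ + 7η/8]` and `κ₀ = a₀ + 5η/8`), and
symmetrically `k₁`.  `c a = c₀ (k₀ a)` for `a ≤ a₀ + 15η/16`, `c a = c₁ (k₁ a)` for `a ≥ a₁ - 15η/16`, and in
between `g ((a - a₀ - 15η/16) / (a₁ - a₀ - 15η/8))` with the path of (1) from `c₀ κ₀` to `c₁ κ₁` (constant near
both gluing points, so `c` is smooth). -/
def StPATH : Prop :=
  ∀ (U : Set R4) (a₀ a₁ η : ℝ) (c₀ c₁ : ℝ → R4), IsOpen U → IsPreconnected U → 0 < η →
    a₀ + η < a₁ - η → ContDiff ℝ ∞ c₀ → ContDiff ℝ ∞ c₁ → (∀ a ∈ Icc a₀ (a₀ + η), c₀ a ∈ U) →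
    (∀ a ∈ Icc (a₁ - η) a₁, c₁ a ∈ U) →
    ∃ c : ℝ → R4, ContDiff ℝ ∞ c ∧ (∀ a, a ≤ a₀ + η / 2 → c a = c₀ a) ∧
      (∀ a, a₁ - η / 2 ≤ a → c a = c₁ a) ∧ ∀ a ∈ Icc a₀ a₁, c a ∈ U

/-- a connected open set disjoint from both flat balls -/
def U3 : Set R4 := {p | p.1 ≠ 1 / 2 ∨ (1 / 5 < p.2.1 ∧ p.2.1 < 4 / 5)}

/-- **ARC3** (a family of arcs: the strand near `flat 0` is pushed through a parabola) (uses
`StPATH`, `Pool.Agent.Helper34.BI.exists_genPos`).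
*Proof.* `U3` is open and preconnected (the convex sets `{1/2 < s}`, `{s < 1/2}` both meet the convex set
`{1/5 < a < 4/5}`).  Prescribed pieces: `ax a` for `a ≤ 1/4` and for `a ≥ 3/4`;
`(1/2 + d (a - 2/5), pc 1)` for `|a - 2/5| ≤ 1/100`; `P a = (1/2 - v²/10, (0, (1+v)/20))`, `v = 100 (a - 3/5)`, for
`|a - 3/5| ≤ 1/50`.  Connect consecutive pieces by `StPATH` in `U3` on `[1/4, 39/100]`, `[41/100, 29/50]`, `[31/50, 3/4]`
(with `η = 1/1000`; the ends of the pieces are in `U3` on these intervals: `s ≠ 1/2` there for the strand and the parabola, `1/5 < a < 4/5` for `ax`): a smooth `q : ℝ → R4`, `q a ∈ U3` on these three closed intervals.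
`h (t, a) = q a + ((2 step t - 1) κ(v) / 10, 0)` with `κ` smooth, `0 ≤ κ ≤ 1`, `κ = 1` for `|v| ≤ 3/2`, `κ = 0` for `|v| ≥ 7/4`.
`χ` = sum of `hat (1/4) (39/100)`, `hat (41/100) (29/50)`, `hat (31/50) (3/4)`, `ρ = 1`; `exists_genPos` (empty index types)
gives arbitrarily small `v, w`; `H = fam h 1 χ v w`.  For `v, w` small `H (t, a) ∈ U3` for `a` in the three closed intervals (compactness; `h (t, a) = q a`
there).  For `3/2 < |v| ≤ 2`: `s - 1/2 = ((2 step t - 1) κ - v²)/10 < 0`, in `U3`; for `1/5 < a ≤ 1/4`, `3/4 ≤ a < 4/5`: `ax a ∈ U3`.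
Injective: pairs with `χ a ≠ 0` or `χ b ≠ 0` by `GenPos.inj`; if `χ a = χ b = 0`: the pieces are `{s = 1/2, w = 0, 1/5 ≤ a ≤ 1/4}`, `{x = pc 1}`,
`{a-coordinate 0}`, `{s = 1/2, w = 0, 3/4 ≤ a ≤ 4/5}`, pairwise disjoint, and each is injective (coordinates `a`, `s`, `w`, `a`).
Immersed: `GenPos.imm` or explicit (nonzero `a`-, `s`-, `w`-, `a`-derivative; if `χ a = 0` at an end point of an interval
use that the derivative of the perturbation vanishes there because `hat` is flat). -/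
def StARC3 : Prop :=
  ∀ d : ℝ, (d = 1 ∨ d = -1) → ∃ H : ℝ × ℝ → R4, ContDiff ℝ ∞ H ∧
    (∀ t a, (a ≤ 1 / 4 ∨ 3 / 4 ≤ a) → H (t, a) = ax a) ∧
    (∀ t a, |a - 2 / 5| ≤ 1 / 100 → H (t, a) = (1 / 2 + d * (a - 2 / 5), pc 1)) ∧
    (∀ t a, |a - 3 / 5| ≤ 3 / 200 → H (t, a) =
      (1 / 2 + ((2 * step t - 1) - (100 * (a - 3 / 5)) ^ 2) / 10,
        ((0 : ℝ), (((1 + 100 * (a - 3 / 5)) / 20 : ℝ) : ℂ)))) ∧
    (∀ t, ∀ a ∈ Ioo (1 / 5 : ℝ) (4 / 5), 1 / 100 < |a - 2 / 5| → 3 / 200 < |a - 3 / 5| →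
      H (t, a) ∈ U3) ∧
    (∀ t, InjOn (fun a => H (t, a)) (Icc (1 / 5) (4 / 5))) ∧
    ∀ t, ∀ a ∈ Icc (1 / 5 : ℝ) (4 / 5), fderiv ℝ H (t, a) (0, 1) ≠ 0

/-- The germ at the end of the family: its bar crosses `flat 1` once at the centre and `flat 0`
twice, at the points `0` and `(0, 1/10)`. -/
structure IsJ1 (J : R4 → R4) (d : ℝ) : Prop where
  loc : ∀ p ∈ FB, LD J p
  inj : InjOn J SP
  triv : Thin I4 J (fun x => x)
  ends : ∀ p : R4, (p.2.1 ≤ 9 / 40 ∨ 31 / 40 ≤ p.2.1) → J p = p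
  strand : ∀ a, |a - 2 / 5| ≤ 1 / 100 → core J a = (1 / 2 + d * (a - 2 / 5), pc 1)
  para : ∀ a, |a - 3 / 5| ≤ 3 / 200 → core J a =
    (1 / 2 + (1 - (100 * (a - 3 / 5)) ^ 2) / 10,
      ((0 : ℝ), (((1 + 100 * (a - 3 / 5)) / 20 : ℝ) : ℂ)))
  off : ∀ a ∈ Ioo (1 / 5 : ℝ) (4 / 5), 1 / 100 < |a - 2 / 5| → 3 / 200 < |a - 3 / 5| →
    core J a ∈ U3

/-- **R3J** (uses `StARC3`, `StFam`, `StVanT`).
*Proof.* `H` from `StARC3`; `J' = barFam (fun p => p) ax H (1/20)` (`BarData` for the identity, core `ax`, `δ = 1/20`).  It is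
`FamOn SP`: `BarData.eventually_smooth`, `BarData.embOn`; the arcs avoid the cuffs for `a ∈ (1/5, 4/5)`: points of
`U3` are not in `flat 0 ∪ flat 1`; `|a - 2/5| ≤ 1/100`: `x = pc 1` is not on the spheres; `|a - 3/5| ≤ 3/200`: `nsq x ≤ (1/8)² < 1/25`, and `rsq 1 ≥ 1`.
`J' (0, ·)`: `step 0 = 0`, so `s - 1/2 = (-1 - v²)/10 < 0` on the parabola; hence `J' (0, ·)` is the identity near `flat 0` and
`sph 1` and `EmbOn (flat 0 ∪ sph 1 ∪ neck)` (the arc is off `flat 0` for `a ∈ (1/5, 4/5)`: for `|a - 2/5| ≤ 1/100` the `a`-coordinate is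
`1`); `StVanT` gives `Thin (J' (0, ·)) id`; `StFam` gives `Thin (J' (1, ·)) id`.  `J = J' (1, ·)`, `step 1 = 1`.  `ends`: `barFam_eq` with
`δ/2 = 1/40`.  `loc` on `flat 0`, `flat 1`: `J = id` near these sets. -/
def StR3J : Prop := ∀ d : ℝ, (d = 1 ∨ d = -1) → ∃ J : R4 → R4, IsJ1 J d

/-- the second crossing point -/
noncomputable def x2 : R3 := (0, ((1 / 10 : ℝ) : ℂ))

/-- **AG** (additivity for germs with two strands through `flat 0`) (uses `StADD2`, and of part (A)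
`StT2`, `StT3`, `StT5`, `StT6`, `StImp`, `StS4`, `StA1`, `StCI`; the maps `rade` of helper34).
*Proof.* The same as `StD2a` in `Pool/Agent/Helper34/BI/StD.lean` (module D2a; adapt it), with the radial map `m₀ = rade δ 1`
only (about `(1/2, 1, 0)`: the identity for `rsq 1 ≥ 1/25 - δ`, maps `{0 < rsq 1 ≤ 1/25}` into
`{1/25 - 3δ ≤ rsq 1 ≤ 1/25}`).  `r, k1, k2` from `StADD2` for `x2`.  `K = ball4 \ (tube (1,0) (3/20) ∪ tube 0 r ∪ tube x2 r)`.
`Z = (flat 0 \ (tube 0 r ∪ tube x2 r)) ∪ neck ∪ sph 1` is compact and `J` is `EmbOn Z`; `StA1`: `J` is injective and locally diffeomorphic on an open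
`V ⊇ Z`; choose `δ` small with `{p ∈ flat 1 | 1/25 - 3δ ≤ rsq 1 p} ⊆ V`.  `L = Z ∪ {p ∈ flat 1 | 1/25 - 3δ ≤ rsq 1 p}` compact, `L ⊆ FB`,
`J` is `EmbOn L`, and `sq 0 (m₀ p) ∈ L` for `p ∈ K`.  `StT6`: `F_ε = J ∘ sq ε ∘ m₀` is `EmbOn K` for small `ε`; `StADD2` gives
`CIsot (imp F_ε bsupp barMap) (imp (F_ε ∘ k2) .. ∘ imp (F_ε ∘ k1) ..)`; `imp F_ε bsupp barMap = imp (J ∘ sq ε) bsupp barMap` as `m₀ = id` on
`bsupp`; `F_ε ∘ k_i` is `EmbOn EB`, its class is `imp (F_ε ∘ k_i) bsupp barMap` (`StT3`), and `Thin (J ∘ sq ε ∘ (m₀ ∘ k_i)) ↔ Thin (J ∘ (m₀ ∘ k_i))`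
(`StT5`, `m₀ ∘ k_i` maps `SP` into `L`); finally `m₀ ∘ k_i = k_i` near `SP` (`StT2` (v)): near `sph 0` and the foot, `k_i p` stays in `{rsq 1 ≥ 1/25 - δ}`,
for `a ≥ 17/100`, `k_i p = p` and `rsq 1 p ≥ 1/25 - δ` near `SP`.  Compare with `StT2` (ii). -/
def StAG : Prop :=
  ∃ (r : ℝ) (k1 k2 : R4 → R4), 0 < r ∧ r ≤ 1 / 200 ∧
    IsKap x2 (1 / 80) r k1 ∧ IsKap 0 (1 / 80) r k2 ∧
    (∀ p, 17 / 100 ≤ p.2.1 → k1 p = p ∧ k2 p = p) ∧
    (∀ p : R4, ‖p.2.2‖ ≤ 1 / 20 → k1 p = p) ∧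
    (∀ p, k1 p ∈ tube 0 r → p ∈ tube 0 r) ∧ (∀ p, k2 p ∈ tube x2 r → p ∈ tube x2 r) ∧
    ∀ J : R4 → R4, (∀ p ∈ flat 0 ∪ neck ∪ sph 1, LD J p) →
      InjOn J ((flat 0 ∪ neck ∪ sph 1) \ {ax 0, (1 / 2, x2)}) →
      ∀ φ φ1 φ2 : R4 → R4, Thin I4 J φ → Thin I4 (fun p => J (k1 p)) φ1 →
        Thin I4 (fun p => J (k2 p)) φ2 → CIsot I4 φ (fun x => φ2 (φ1 x))

/-- **R3T** (the two factors are theta germs) .
*Proof.* Let `J` be as in `IsJ1`.  The core meets `flat 0` exactly for `a = 1/5`, `59/100` (at `ax 0`, `v = -1`) and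
`61/100` (at `(1/2, x2)`, `v = 1`) and `flat 1` exactly for `a = 4/5`, `2/5` (at `ax 1`): for `a ∈ (1/5, 4/5)` in `U3` no; on the strand `x = pc 1`,
in `flat 1` iff `s = 1/2`; on the parabola (`a`-coordinate `0`) in the slice iff `v = ±1`.
So `J` (the identity near `flat 0` and near `flat 1`) is injective on `(FB \ {ax 0, (1/2, x2), ax 1})`, and
`F = J ∘ k1`: `k1` is an injective local diffeomorphism, `k1 '' flat 0 ⊆ flat 0` (`small`, `fst`), `k1 = id` for `a ≥ 17/100` and for `‖w‖ ≤ 1/20`,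
`k1 p ≠ (1/2, x2)` for `p ∈ ball4` (`away`), and `k1 = id` near the neck, `flat 1`.  `Br 0 F (59/100) 1`: `loc`: `k1 p ∈ FB` for `p ∈ FB`; `inj`: for `p, q ∈ SP`, `J (k1 p) = J (k1 q)`,
both `k1 p, k1 q ∈ flat 0 ∪ neck ∪ sph 1`; if different, one is `ax 0 = k1 (ax 0)` or `(1/2, x2)`: the first is impossible as `ax 0 ∉ SP`; `injF`: `J = id`
near `flat 0 ∪ flat 1`; `cr` at `x₀ = 0`: `F = id` near `ax 0`, `(core F)'(59/100) = (20, (0, 5))` (`d/dv (1 - v²)/10 = 1/5` at `v = -1`, `dv/da = 100`), `l = 20 > 0`; `only`: `core F a = core J a`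
(`k1 = id` on the axis), `core J a ∈ J '' (k1 '' flat 0) = k1 '' flat 0 ⊆ flat 0`, so `a ∈ {1/5, 59/100, 61/100}`, and for `61/100` the point would be `(1/2, x2) ∉ k1 '' flat 0`.
`Br 1 F (2/5) d`: `F = J` near `flat 1`, `neck`; `injF`: `F '' sph 0 ⊆ flat 0`; `only` from above; `cr` at `x₀ = pc 1`, `(core F)'(2/5) = (d, 0)`, `d · d = 1 > 0`.
`dis`: `F '' flat 0 ⊆ flat 0`, `F '' flat 1 = flat 1`.
Same for `k2`: `k2 = id` for `‖w‖ ≥ 1/80` (`off_w`), so near `(1/2, x2)`, and for `a ≥ 1/50` (`off_a`), so near the neck; `k2 p ≠ ax 0`; at `61/100`: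
`(core F)' = (-20, (0, 5))`, sign `-1`; `only`: for `59/100` the point would be `ax 0 ∉ k2 '' flat 0`.
Determinant: `StDET` for `F` on `FB`; near `ax (1/5)`, `F = id`. -/
def StR3T : Prop :=
  ∀ (J : R4 → R4) (d r : ℝ) (k1 k2 : R4 → R4), (d = 1 ∨ d = -1) → IsJ1 J d → 0 < r →
    IsKap x2 (1 / 80) r k1 → IsKap 0 (1 / 80) r k2 →
    (∀ p, 17 / 100 ≤ p.2.1 → k1 p = p ∧ k2 p = p) → (∀ p : R4, ‖p.2.2‖ ≤ 1 / 20 → k1 p = p) →
    (Theta (fun p => J (k1 p)) (59 / 100) (2 / 5) 1 d ∧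
      0 < (fderiv ℝ (fun p => J (k1 p)) (ax (1 / 2))).det) ∧
    Theta (fun p => J (k2 p)) (61 / 100) (2 / 5) (-1) d ∧
      0 < (fderiv ℝ (fun p => J (k2 p)) (ax (1 / 2))).det

/-- **R3** (opposite signs at the near end give inverse classes).  *Proof.* `StR3J`, `StAG`, `StR3T`; the hypothesis
`InjOn J ((flat 0 ∪ neck ∪ sph 1) \ ..)` of `StAG` is proved as in `StR3T`; existence of the classes by `StT2` (i). -/
def StR3 : Prop :=
  ∀ d : ℝ, (d = 1 ∨ d = -1) → ∃ (F₁ F₂ : R4 → R4) (α₁ α₂ β₁ β₂ : ℝ) (φ₁ φ₂ : R4 → R4),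
    Theta F₁ α₁ β₁ 1 d ∧ Theta F₂ α₂ β₂ (-1) d ∧ 0 < (fderiv ℝ F₁ (ax (1 / 2))).det ∧
    0 < (fderiv ℝ F₂ (ax (1 / 2))).det ∧ Thin I4 F₁ φ₁ ∧ Thin I4 F₂ φ₂ ∧
    CIsot I4 (fun x => x) (fun x => φ₂ (φ₁ x))

/-- **The class `W`.**  All theta germs have the same class, and its square is trivial. -/
def StW : Prop :=
  ∃ (W : R4 → R4) (F₀ : R4 → R4) (α₀ β₀ : ℝ), Theta F₀ α₀ β₀ 1 1 ∧ Thin I4 F₀ W ∧
    CIsot I4 (fun x => W (W x)) (fun x => x) ∧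
    ∀ (F : R4 → R4) (α β e d : ℝ), (e = 1 ∨ e = -1) → (d = 1 ∨ d = -1) → Theta F α β e d →
      Thin I4 F W

end Pool.Agent.Helper70.BI
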